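import Pool.Agent.Run7.h695.BT.NumC

/-!
# Angular spectrum in a half-line and in a window (helper695)
-/

set_option autoImplicit false

open Finset MeasureTheory
open scoped SchwartzMap ComplexConjugate

namespace Pool.Agent.Run7.h695.BT

open Pool.Agent.N892.BW (TS)

/-- the constant of finitely many types `j ≤ n` -/
theorem band {n : ℕ} (hn : 1 ≤ n) {S : Finset ℤ} (hS : ∀ j ∈ S, j ≤ n)
    {g : ℤ → 𝓢(ℂ, ℂ)} (hg : ∀ j ∈ S, Ty j (g j)) {p : ℝ} (hp : 2 ≤ p) :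
    eLpNorm (TS n (∑ j ∈ S, g j)) (ENNReal.ofReal p) volume ≤
      ENNReal.ofReal ((1 + √(∑ j ∈ S, cc n j)) ^ (1 - 2 / p)) *
        eLpNorm (fun z : ℂ => (∑ j ∈ S, g j : 𝓢(ℂ, ℂ)) z) (ENNReal.ofReal p) volume := by
  refine totalW (fun j hj h => absurd (hS j hj) (by omega)) hg hp ?_
  have e1 : (S.filter fun j => j ≤ (n : ℤ)) = S := Finset.filter_true_of_mem hS
  have e2 : (S.filter fun j => (n : ℤ) < j) = ∅ :=
    Finset.filter_false_of_mem fun j hj => not_lt.2 (hS j hj)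
  rw [e1, e2]
  have h1 : GH ∅ (An n) (Mn n) = 0 := by
    unfold GH gH
    simp
  have h2 := GB_frac (S := S) (An n) (Mn n) (fun j hj => by
    have := hS j hj
    unfold An Mn
    rw [if_pos this, if_pos this]
    omega)
  have h3 : ∑ j ∈ S, cj (An n j) (Mn n j) = ∑ j ∈ S, cc n j :=
    Finset.sum_congr rfl fun j hj => cj_eq (hS j hj)
  rw [h3] at h2
  rw [h1]
  linarith

lemma window_le {n : ℕ} (hn : 1 ≤ n) {S : Finset ℤ} (hS : ∀ j ∈ S, -(6 * n : ℤ) < j ∧ j ≤ n) :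
    1 + √(∑ j ∈ S, cc n j) ≤ 6.7 * n + 0.67 := by
  have hn' : (1:ℝ) ≤ n := by exact_mod_cast hn
  have h := Real.sqrt_le_sqrt (sum_window hn hS)
  rw [Real.sqrt_sq (by linarith)] at h
  linarith

theorem bandA {n : ℕ} (hn : 1 ≤ n) {S : Finset ℤ} (hS : ∀ j ∈ S, -(6 * n : ℤ) < j ∧ j ≤ n)
    {g : ℤ → 𝓢(ℂ, ℂ)} (hg : ∀ j ∈ S, Ty j (g j)) {p : ℝ} (hp : 2 ≤ p) :
    eLpNorm (TS n (∑ j ∈ S, g j)) (ENNReal.ofReal p) volume ≤
      ENNReal.ofReal ((ascPochhammer ℝ n).eval (1 - 1 / p) / (ascPochhammer ℝ n).eval (1 / p)) *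
        eLpNorm (fun z : ℂ => (∑ j ∈ S, g j : 𝓢(ℂ, ℂ)) z) (ENNReal.ofReal p) volume := by
  refine (band hn (fun j hj => (hS j hj).2) hg hp).trans ?_
  exact mul_le_mul_left (ENNReal.ofReal_le_ofReal (numA2 hn hp (by positivity) (window_le hn hS))) _

theorem bandB {n : ℕ} (hn : 1 ≤ n) {S : Finset ℤ} (hS : ∀ j ∈ S, -(6 * n : ℤ) < j ∧ j ≤ n)
    {g : ℤ → 𝓢(ℂ, ℂ)} (hg : ∀ j ∈ S, Ty j (g j)) {p : ℝ} (hp : 2 ≤ p) :
    eLpNorm (TS n (∑ j ∈ S, g j)) (ENNReal.ofReal p) volume ≤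
      ENNReal.ofReal ((n : ℝ) ^ (1 - 2 / p) * (p - 1)) *
        eLpNorm (fun z : ℂ => (∑ j ∈ S, g j : 𝓢(ℂ, ℂ)) z) (ENNReal.ofReal p) volume := by
  have hn' : (1:ℝ) ≤ n := by exact_mod_cast hn
  refine (band hn (fun j hj => (hS j hj).2) hg hp).trans ?_
  exact mul_le_mul_left (ENNReal.ofReal_le_ofReal (numB hp (by positivity)
    ((window_le hn hS).trans (by linarith)))) _

end Pool.Agent.Run7.h695.BT
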