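import Pool.Agent.Run7.h695.BT.Ext2

/-!
# Single angular types: comparison with the two constants (helper695)
-/

set_option autoImplicit false

open Finset MeasureTheory
open scoped SchwartzMap ComplexConjugate

namespace Pool.Agent.Run7.h695.BT

open Pool.Agent.N892.BW (TS)

theorem singA {n : ℕ} (hn : 1 ≤ n) {j : ℤ} (hj2 : j ≠ 2 * n) {f : 𝓢(ℂ, ℂ)} (hf : Ty j f) {p : ℝ} (hp : 2 ≤ p) :
    eLpNorm (TS n f) (ENNReal.ofReal p) volume ≤
      ENNReal.ofReal ((ascPochhammer ℝ n).eval (1 - 1 / p) / (ascPochhammer ℝ n).eval (1 / p)) *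
        eLpNorm (fun z : ℂ => f z) (ENNReal.ofReal p) volume :=
  (single hn hj2 hf hp).trans
    (mul_le_mul_left (ENNReal.ofReal_le_ofReal (numA2 hn hp (by positivity) le_rfl)) _)

theorem singB {n : ℕ} (hn : 1 ≤ n) {j : ℤ} (hj2 : j ≠ 2 * n) {f : 𝓢(ℂ, ℂ)} (hf : Ty j f) {p : ℝ} (hp : 2 ≤ p) :
    eLpNorm (TS n f) (ENNReal.ofReal p) volume ≤
      ENNReal.ofReal ((n : ℝ) ^ (1 - 2 / p) * (p - 1)) *
        eLpNorm (fun z : ℂ => f z) (ENNReal.ofReal p) volume := by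
  have hn' : (1:ℝ) ≤ n := by exact_mod_cast hn
  exact (single hn hj2 hf hp).trans
    (mul_le_mul_left (ENNReal.ofReal_le_ofReal (numB hp (by positivity) (by linarith))) _)

end Pool.Agent.Run7.h695.BT
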