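import Pool.Agent.Run7.h695.BT.Many

/-!
# Sparse spectra (helper695)
-/

set_option autoImplicit false

open Finset MeasureTheory
open scoped SchwartzMap ComplexConjugate

namespace Pool.Agent.Run7.h695.BT

open Pool.Agent.N892.BW (TS)

lemma sparse_num {n D L N1 N2 l : ℝ} (hn : 1 ≤ n) (hD : 1 ≤ D) (hL0 : 0 ≤ L) (hN1 : 0 ≤ N1) (hN2 : 0 ≤ N2)
    (hl : 0 < l) (hc : (N1 + N2) * D * L ≤ 10.4 * n * l ^ 2) :
    √(1.27 * (N1 * (n * L))) + √(2.62 * D * (N2 * (n * L))) ≤ l * (6.7 * n - 0.33) := by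
  have hnL : 0 ≤ n * L := mul_nonneg (by linarith) hL0
  have hx0 : 0 ≤ N1 * (n * L) := mul_nonneg hN1 hnL
  have hy0 : 0 ≤ N2 * (n * L) := mul_nonneg hN2 hnL
  have hxy : D * (N1 * (n * L) + N2 * (n * L)) ≤ 10.4 * (l * n) ^ 2 := by
    have e : D * (N1 * (n * L) + N2 * (n * L)) = ((N1 + N2) * D * L) * n := by ring
    rw [e]
    have := mul_le_mul_of_nonneg_right hc (by linarith : 0 ≤ n)
    have e2 : 10.4 * (l * n) ^ 2 = 10.4 * n * l ^ 2 * n := by ring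
    rw [e2]
    exact this
  obtain ⟨x, hx⟩ : ∃ x, x = N1 * (n * L) := ⟨_, rfl⟩
  obtain ⟨y, hy⟩ : ∃ y, y = N2 * (n * L) := ⟨_, rfl⟩
  rw [← hx, ← hy] at hxy ⊢
  rw [← hx] at hx0
  rw [← hy] at hy0
  clear hx hy hnL hc hN1 hN2 hL0
  have hu0 : 0 ≤ 2.62 * D * x := by positivity
  have hw0 : 0 ≤ 1.27 * y := by positivity
  have ha := Real.sq_sqrt (by positivity : 0 ≤ 1.27 * x)
  have hb := Real.sq_sqrt (by positivity : 0 ≤ 2.62 * D * y)
  have ha0 := Real.sqrt_nonneg (1.27 * x)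
  have hb0 := Real.sqrt_nonneg (2.62 * D * y)
  obtain ⟨α, hα⟩ : ∃ α, α = √(1.27 * x) := ⟨_, rfl⟩
  obtain ⟨β, hβ⟩ : ∃ β, β = √(2.62 * D * y) := ⟨_, rfl⟩
  rw [← hα] at ha ha0 ⊢
  rw [← hβ] at hb hb0 ⊢
  clear hα hβ
  have hprod : 2 * (α * β) ≤ 2.62 * D * x + 1.27 * y := by
    refine (sq_le_sq₀ (by positivity) (by positivity)).1 ?_
    have h3 : (2 * (α * β)) ^ 2 = 4 * ((2.62 * D * x) * (1.27 * y)) := by
      have : (2 * (α * β)) ^ 2 = 4 * (α ^ 2 * β ^ 2) := by ring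
      rw [this, ha, hb]
      ring
    rw [h3]
    nlinarith [sq_nonneg (2.62 * D * x - 1.27 * y)]
  have hDx : x ≤ D * x := le_mul_of_one_le_left hx0 hD
  have hDy : y ≤ D * y := le_mul_of_one_le_left hy0 hD
  have h9 : (α + β) ^ 2 ≤ 3.89 * (D * (x + y)) := by
    have h3 : (α + β) ^ 2 = 1.27 * x + 2.62 * D * y + 2 * (α * β) := by
      rw [add_sq, ha, hb]
      ring
    rw [h3]
    linarith
  have h10 : (α + β) ^ 2 ≤ (6.37 * (l * n)) ^ 2 := by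
    have e : (6.37 * (l * n)) ^ 2 = 40.5769 * (l * n) ^ 2 := by ring
    have h0 : 0 ≤ (l * n) ^ 2 := sq_nonneg _
    rw [e]
    linarith
  have h11 : α + β ≤ 6.37 * (l * n) := (sq_le_sq₀ (by linarith) (by positivity)).1 h10
  nlinarith

theorem sparse_bound {n : ℕ} (hn : 1 ≤ n) {R D l : ℝ} (hR : 1 ≤ R) (hD : 1 ≤ D) (hl : 0 < l) {S : Finset ℤ}
    (hS : ∀ j ∈ S, (-(R * n) ≤ j ∧ (j : ℝ) ≤ n) ∨
      ((n : ℝ) < j ∧ (j : ℝ) ≤ R * n ∧ 2 ≤ |(j : ℝ) - 2 * n| ∧ n ≤ D * |(j : ℝ) - 2 * n|))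
    (hc : S.card * D * Real.log (256 * D ^ 2 * (R + 1) * n) ≤ 10.4 * n * l ^ 2) :
    1 + GB (S.filter fun j => j ≤ (n : ℤ)) (An n) (Mn n) +
      GH (S.filter fun j => (n : ℤ) < j) (An n) (Mn n) ≤ 1 + l * (6.7 * n - 0.33) := by
  have hn' : (1:ℝ) ≤ n := by exact_mod_cast hn
  set L : ℝ := Real.log (256 * D ^ 2 * (R + 1) * n) with hL
  have hD2 : D ≤ D ^ 2 := by nlinarith
  have hRn : 1 ≤ (R + 1) * n := by nlinarith
  have hL0 : 0 ≤ L := by
    refine Real.log_nonneg ?_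
    nlinarith
  have hlow : ∀ j ∈ S, j ≤ (n : ℤ) → -(R * n) ≤ (j : ℝ) := by
    intro j hj h
    rcases hS j hj with h1 | h1
    · exact h1.1
    · have : (j : ℝ) ≤ n := by exact_mod_cast h
      linarith [h1.1]
  have hhigh : ∀ j ∈ S, (n : ℤ) < j →
      (j : ℝ) ≤ R * n ∧ 2 ≤ |(j : ℝ) - 2 * n| ∧ n ≤ D * |(j : ℝ) - 2 * n| := by
    intro j hj h
    rcases hS j hj with h1 | h1
    · have : (n : ℝ) < j := by exact_mod_cast h
      linarith [h1.2]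
    · exact h1.2
  have h1 := GB_all hn S (r := (R + 1) * D) (by
    intro i hi j _ hin _
    have h2 := hlow i hi hin
    have h3 : n + max (-i : ℝ) 0 ≤ (R + 1) * n := by
      have : max (-i : ℝ) 0 ≤ R * n := max_le (by linarith) (by positivity)
      linarith
    have h4 : (n : ℝ) ≤ n + max (-j : ℝ) 0 := by
      have := le_max_right (-j : ℝ) 0
      linarith
    refine h3.trans ?_
    calc (R + 1) * (n : ℝ) ≤ (R + 1) * D * n := by nlinarith [mul_nonneg (by linarith : (0:ℝ) ≤ R + 1) (by linarith : (0:ℝ) ≤ n)]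
      _ ≤ _ := mul_le_mul_of_nonneg_left h4 (by positivity))
  have h2 := GH_all S (n := n) (r := (R + 1) * D) (X := (D + 1) * n) (by nlinarith) (by
      intro j hj h
      have h3 := (hhigh j hj h).2.1
      have h4 : (2 : ℝ) ≤ ((2 * (n : ℤ) - j).natAbs : ℝ) := by
        rw [Nat.cast_natAbs]
        push_cast
        rw [abs_sub_comm]
        exact h3
      exact_mod_cast h4) (by
      intro i hi j hj hin hjn
      have h3 := (hhigh i hi hin).1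
      have h4 := (hhigh j hj hjn).2.2
      have h5 : (n : ℝ) < i := by exact_mod_cast hin
      have h6 : |2 * (n : ℝ) - i| ≤ (R + 1) * n := by
        rw [abs_le]
        constructor <;> nlinarith
      refine h6.trans ?_
      rw [abs_sub_comm (2 * (n : ℝ)) j, mul_assoc]
      exact mul_le_mul_of_nonneg_left h4 (by linarith)) (by
      intro j hj hjn
      have h4 := (hhigh j hj hjn).2.2
      have h5 : (n : ℝ) < j := by exact_mod_cast hjn
      rw [abs_sub_comm (2 * (n : ℝ)) j]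
      set d : ℝ := |(j : ℝ) - 2 * n| with hd
      have h6 : (j : ℝ) - n ≤ n + d := by
        have := le_abs_self ((j : ℝ) - 2 * n)
        linarith
      have h7 : 0 ≤ d := abs_nonneg _
      calc (n : ℝ) * (j - n) ≤ n * (n + d) := mul_le_mul_of_nonneg_left h6 (by linarith)
        _ ≤ n * (D * d + d) := mul_le_mul_of_nonneg_left (by linarith) (by linarith)
        _ = _ := by ring)
  set N1 : ℝ := ((S.filter fun j => j ≤ (n : ℤ)).card : ℝ) with hN1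
  set N2 : ℝ := ((S.filter fun j => (n : ℤ) < j).card : ℝ) with hN2
  have hN10 : 0 ≤ N1 := Nat.cast_nonneg _
  have hN20 : 0 ≤ N2 := Nat.cast_nonneg _
  have h5 : (S.filter fun j => j ≤ (n : ℤ)).card + (S.filter fun j => (n : ℤ) < j).card = S.card := by
    have := Finset.card_filter_add_card_filter_not (s := S) (fun j : ℤ => j ≤ (n : ℤ))
    simp only [not_le] at this
    exact this
  have h6 : N1 + N2 = S.card := by
    rw [hN1, hN2]
    exact_mod_cast h5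
  have hl1 : Real.log (128 * n * ((R + 1) * D)) ≤ L := by
    refine Real.log_le_log (by positivity) ?_
    have : (R + 1) * n * D ≤ (R + 1) * n * D ^ 2 := mul_le_mul_of_nonneg_left hD2 (by linarith)
    have h0 : 0 ≤ (R + 1) * n * D ^ 2 := by positivity
    nlinarith
  have hl2 : Real.log (128 * ((D + 1) * n) * ((R + 1) * D)) ≤ L := by
    refine Real.log_le_log (by positivity) ?_
    have h3 : (D + 1) * D ≤ 2 * D ^ 2 := by nlinarith
    have h4 : (D + 1) * D * ((R + 1) * n) ≤ 2 * D ^ 2 * ((R + 1) * n) :=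
      mul_le_mul_of_nonneg_right h3 (by linarith)
    nlinarith
  have hn0 : (0:ℝ) ≤ n := by linarith
  have h1' : GB (S.filter fun j => j ≤ (n : ℤ)) (An n) (Mn n) ≤ √(1.27 * (N1 * (n * L))) := by
    refine h1.trans (Real.sqrt_le_sqrt ?_)
    calc 1.27 * N1 * n * Real.log (128 * n * ((R + 1) * D)) ≤ 1.27 * N1 * n * L :=
          mul_le_mul_of_nonneg_left hl1 (by positivity)
      _ = _ := by ring
  have h2' : GH (S.filter fun j => (n : ℤ) < j) (An n) (Mn n) ≤ √(2.62 * D * (N2 * (n * L))) := by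
    refine h2.trans (Real.sqrt_le_sqrt ?_)
    calc 1.31 * N2 * ((D + 1) * n) * Real.log (128 * ((D + 1) * n) * ((R + 1) * D)) ≤
          1.31 * N2 * ((D + 1) * n) * L := mul_le_mul_of_nonneg_left hl2 (by positivity)
      _ ≤ 1.31 * N2 * ((2 * D) * n) * L := by
          refine mul_le_mul_of_nonneg_right ?_ hL0
          refine mul_le_mul_of_nonneg_left ?_ (by positivity)
          exact mul_le_mul_of_nonneg_right (by linarith) hn0
      _ = _ := by ring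
  have hsum := sparse_num hn' hD hL0 hN10 hN20 hl (by rw [h6]; exact hc)
  linarith

theorem sparse {n : ℕ} (hn : 1 ≤ n) {R D l : ℝ} (hR : 1 ≤ R) (hD : 1 ≤ D) (hl : 0 < l) {S : Finset ℤ}
    (hS : ∀ j ∈ S, (-(R * n) ≤ j ∧ (j : ℝ) ≤ n) ∨
      ((n : ℝ) < j ∧ (j : ℝ) ≤ R * n ∧ 2 ≤ |(j : ℝ) - 2 * n| ∧ n ≤ D * |(j : ℝ) - 2 * n|))
    (hc : S.card * D * Real.log (256 * D ^ 2 * (R + 1) * n) ≤ 10.4 * n * l ^ 2)
    {g : ℤ → 𝓢(ℂ, ℂ)} (hg : ∀ j ∈ S, Ty j (g j)) {p : ℝ} (hp : 2 ≤ p) :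
    eLpNorm (TS n (∑ j ∈ S, g j)) (ENNReal.ofReal p) volume ≤
      ENNReal.ofReal ((1 + l * (6.7 * n - 0.33)) ^ (1 - 2 / p)) *
        eLpNorm (fun z : ℂ => (∑ j ∈ S, g j : 𝓢(ℂ, ℂ)) z) (ENNReal.ofReal p) volume := by
  refine totalW (fun j hj h => ?_) hg hp (sparse_bound hn hR hD hl hS hc)
  rcases hS j hj with h1 | h1
  · have : (n : ℝ) < j := by exact_mod_cast h
    linarith [h1.2]
  · have h3 := h1.2.2.1
    have h4 : (2 : ℝ) ≤ ((2 * (n : ℤ) - j).natAbs : ℝ) := by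
      rw [Nat.cast_natAbs]
      push_cast
      rw [abs_sub_comm]
      exact h3
    have : 2 ≤ (2 * (n : ℤ) - j).natAbs := by exact_mod_cast h4
    omega

open Pool.Agent.Y282.RB in
lemma numL {n : ℕ} (hn : 1 ≤ n) {p l : ℝ} (hp : 2 ≤ p) (hl : 1 ≤ l) (hp2 : l = 1 ∨ 1 + 7.4 * l ≤ p) :
    (1 + l * (6.7 * n - 0.33) : ℝ) ^ (1 - 2 / p) ≤
      (ascPochhammer ℝ n).eval (1 - 1 / p) / (ascPochhammer ℝ n).eval (1 / p) := by
  have hp0 : 0 < p := by linarith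
  have he : 0 ≤ 1 - 2 / p := by
    rw [sub_nonneg, div_le_one hp0]; exact hp
  have he1 : 1 - 2 / p ≤ 1 := by
    have : 0 < 2 / p := by positivity
    linarith
  have hn' : (1:ℝ) ≤ n := by exact_mod_cast hn
  rcases hp2 with h | h
  · subst h
    refine numA2 hn hp (by nlinarith) ?_
    linarith
  · rw [← K3.main n p (by linarith)]
    refine le_trans ?_ (Cn_succ_ge hp hn)
    have hexp : Real.exp 2 ≤ 7.4 := by
      have h1 := Real.exp_one_lt_d9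
      have h2 : Real.exp 2 = Real.exp 1 * Real.exp 1 := by rw [← Real.exp_add]; norm_num
      have h3 := Real.exp_pos 1
      rw [h2]
      nlinarith
    have hepos := Real.exp_pos 2
    have h1 : (1 + l * (6.7 * n - 0.33) : ℝ) ≤ (6.7 * n + 0.67) / Real.exp 2 * (7.4 * l) := by
      have h2 : (1 + l * (6.7 * n - 0.33) : ℝ) ≤ (6.7 * n + 0.67) * l := by nlinarith
      have h3 : (6.7 * n + 0.67) * l ≤ (6.7 * n + 0.67) / Real.exp 2 * (7.4 * l) := by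
        rw [div_mul_eq_mul_div, le_div_iff₀ hepos]
        have h4 : 0 ≤ (6.7 * n + 0.67) * l := by positivity
        nlinarith
      linarith
    calc (1 + l * (6.7 * n - 0.33) : ℝ) ^ (1 - 2 / p) ≤
          ((6.7 * n + 0.67) / Real.exp 2 * (7.4 * l)) ^ (1 - 2 / p) :=
            Real.rpow_le_rpow (by nlinarith) h1 he
      _ = ((6.7 * n + 0.67) / Real.exp 2) ^ (1 - 2 / p) * (7.4 * l : ℝ) ^ (1 - 2 / p) :=
            Real.mul_rpow (by positivity) (by positivity)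
      _ ≤ ((6.7 * n + 0.67) / Real.exp 2) ^ (1 - 2 / p) * (7.4 * l : ℝ) ^ (1 : ℝ) :=
            mul_le_mul_of_nonneg_left (Real.rpow_le_rpow_of_exponent_le (by linarith) he1) (by positivity)
      _ ≤ _ := by
            rw [Real.rpow_one]
            exact mul_le_mul_of_nonneg_left (by linarith) (by positivity)

lemma numLB {n : ℕ} (hn : 1 ≤ n) {p l : ℝ} (hp : 2 ≤ p) (hl : 1 ≤ l) (hp2 : l = 1 ∨ 1 + 7.4 * l ≤ p) :
    (1 + l * (6.7 * n - 0.33) : ℝ) ^ (1 - 2 / p) ≤ (n : ℝ) ^ (1 - 2 / p) * (p - 1) := by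
  have hp0 : 0 < p := by linarith
  have he : 0 ≤ 1 - 2 / p := by
    rw [sub_nonneg, div_le_one hp0]; exact hp
  have he1 : 1 - 2 / p ≤ 1 := by
    have : 0 < 2 / p := by positivity
    linarith
  have hn' : (1:ℝ) ≤ n := by exact_mod_cast hn
  rcases hp2 with h | h
  · subst h
    refine numB hp (by nlinarith) ?_
    linarith
  · have h1 : (1 + l * (6.7 * n - 0.33) : ℝ) ≤ n * (7.4 * l) := by nlinarith
    calc (1 + l * (6.7 * n - 0.33) : ℝ) ^ (1 - 2 / p) ≤ (n * (7.4 * l)) ^ (1 - 2 / p) :=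
            Real.rpow_le_rpow (by nlinarith) h1 he
      _ = (n : ℝ) ^ (1 - 2 / p) * (7.4 * l : ℝ) ^ (1 - 2 / p) :=
            Real.mul_rpow (by positivity) (by positivity)
      _ ≤ (n : ℝ) ^ (1 - 2 / p) * (7.4 * l : ℝ) ^ (1 : ℝ) :=
            mul_le_mul_of_nonneg_left (Real.rpow_le_rpow_of_exponent_le (by linarith) he1) (by positivity)
      _ ≤ _ := by
            rw [Real.rpow_one]
            exact mul_le_mul_of_nonneg_left (by linarith) (by positivity)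

lemma max_l {p : ℝ} (hp : 2 ≤ p) : max 1 (((p - 1) / 7.4) ^ 2) = max 1 ((p - 1) / 7.4) ^ 2 ∧
    (max 1 ((p - 1) / 7.4) = 1 ∨ 1 + 7.4 * max 1 ((p - 1) / 7.4) ≤ p) := by
  have h0 : 0 ≤ (p - 1) / 7.4 := by
    refine div_nonneg (by linarith) (by norm_num)
  rcases le_total ((p - 1) / 7.4) 1 with h | h
  · rw [max_eq_left h, max_eq_left (pow_le_one₀ h0 h)]
    exact ⟨by norm_num, Or.inl rfl⟩
  · rw [max_eq_right h, max_eq_right (one_le_pow₀ h)]
    refine ⟨rfl, Or.inr ?_⟩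
    have e : 7.4 * ((p - 1) / 7.4) = p - 1 := mul_div_cancel₀ _ (by norm_num)
    rw [e]
    linarith

theorem sparseA {n : ℕ} (hn : 1 ≤ n) {R D : ℝ} (hR : 1 ≤ R) (hD : 1 ≤ D) {S : Finset ℤ}
    (hS : ∀ j ∈ S, (-(R * n) ≤ j ∧ (j : ℝ) ≤ n) ∨
      ((n : ℝ) < j ∧ (j : ℝ) ≤ R * n ∧ 2 ≤ |(j : ℝ) - 2 * n| ∧ n ≤ D * |(j : ℝ) - 2 * n|))
    {g : ℤ → 𝓢(ℂ, ℂ)} (hg : ∀ j ∈ S, Ty j (g j)) {p : ℝ} (hp : 2 ≤ p)
    (hc : S.card * D * Real.log (256 * D ^ 2 * (R + 1) * n) ≤ 10.4 * n * max 1 (((p - 1) / 7.4) ^ 2)) :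
    eLpNorm (TS n (∑ j ∈ S, g j)) (ENNReal.ofReal p) volume ≤
      ENNReal.ofReal ((ascPochhammer ℝ n).eval (1 - 1 / p) / (ascPochhammer ℝ n).eval (1 / p)) *
        eLpNorm (fun z : ℂ => (∑ j ∈ S, g j : 𝓢(ℂ, ℂ)) z) (ENNReal.ofReal p) volume := by
  obtain ⟨h1, h2⟩ := max_l hp
  rw [h1] at hc
  have hl : 1 ≤ max 1 ((p - 1) / 7.4) := le_max_left _ _
  exact (sparse hn hR hD (by linarith) hS hc hg hp).trans
    (mul_le_mul_left (ENNReal.ofReal_le_ofReal (numL hn hp hl h2)) _)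

theorem sparseB {n : ℕ} (hn : 1 ≤ n) {R D : ℝ} (hR : 1 ≤ R) (hD : 1 ≤ D) {S : Finset ℤ}
    (hS : ∀ j ∈ S, (-(R * n) ≤ j ∧ (j : ℝ) ≤ n) ∨
      ((n : ℝ) < j ∧ (j : ℝ) ≤ R * n ∧ 2 ≤ |(j : ℝ) - 2 * n| ∧ n ≤ D * |(j : ℝ) - 2 * n|))
    {g : ℤ → 𝓢(ℂ, ℂ)} (hg : ∀ j ∈ S, Ty j (g j)) {p : ℝ} (hp : 2 ≤ p)
    (hc : S.card * D * Real.log (256 * D ^ 2 * (R + 1) * n) ≤ 10.4 * n * max 1 (((p - 1) / 7.4) ^ 2)) :
    eLpNorm (TS n (∑ j ∈ S, g j)) (ENNReal.ofReal p) volume ≤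
      ENNReal.ofReal ((n : ℝ) ^ (1 - 2 / p) * (p - 1)) *
        eLpNorm (fun z : ℂ => (∑ j ∈ S, g j : 𝓢(ℂ, ℂ)) z) (ENNReal.ofReal p) volume := by
  obtain ⟨h1, h2⟩ := max_l hp
  rw [h1] at hc
  have hl : 1 ≤ max 1 ((p - 1) / 7.4) := le_max_left _ _
  exact (sparse hn hR hD (by linarith) hS hc hg hp).trans
    (mul_le_mul_left (ENNReal.ofReal_le_ofReal (numLB hn hp hl h2)) _)

end Pool.Agent.Run7.h695.BT
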