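import Pool.Agent.Run7.h695.BT.WinW4

/-!
# Single types, the type `0` included (helper695)
-/

set_option autoImplicit false

open Finset MeasureTheory Filter Topology
open scoped SchwartzMap ComplexConjugate ENNReal

namespace Pool.Agent.Run7.h695.BT

open Pool.Agent.N892.BW (TS)
open Pool.Agent.N892.BW.RTT (TS_cont TS_sum)

theorem FF0_w {n : ℕ} (hn : 1 ≤ n) {w : ℂ → ℝ} (hw : Measurable w) {p : ℝ} (hp : 1 < p)
    (h2 : ∀ v : ℝ, 0 < v → v ≤ 1 → ∀ z : ℂ, v ^ (p - 2) * w z ≤ w ((v : ℂ) * z))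
    {f : ℂ → ℂ} (hf : Continuous f) :
    ∫⁻ z, ‖FF 0 n f z‖ₑ ^ p ∂(nu w) ≤ ENNReal.ofReal (22 * n) ^ p * ∫⁻ z, ‖f z‖ₑ ^ p ∂(nu w) := by
  have hp0 : 0 < p := by linarith
  have hka := ka_cont 0 n
  have hkb := kb_cont 0 n
  have hA : An n 0 = 0 := by
    unfold An
    rw [if_pos (by omega)]
    rfl
  have hM : Mn n 0 = n := by
    unfold Mn
    rw [if_pos (by omega)]
    omega
  have hGe : GB' {(0:ℤ)} (An n) (Mn n) = ∫ v in (0:ℝ)..1, 2 * |kb 0 n v| := by
    unfold GB' gS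
    refine intervalIntegral.integral_congr fun v _ => ?_
    rw [Finset.sum_singleton, hA, hM, Real.sqrt_sq_eq_abs]
  have hG := GB'_window hn (S := {(0:ℤ)}) (fun j hj => by
    rw [Finset.mem_singleton.1 hj]
    omega)
  have hG0 := GB'_nonneg {(0:ℤ)} (An n) (Mn n)
  have hc : Continuous fun z : ℂ => ∫ v in (0:ℝ)..1, ((ka 0 n v : ℝ) : ℂ) * f ((v : ℂ) * z) := by
    refine intervalIntegral.continuous_parametric_intervalIntegral_of_continuous' ?_ 0 1
    fun_prop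
  have key : ∫⁻ z, ‖FF 0 n f z‖ₑ ^ p ∂(nu w) ≤
      ENNReal.ofReal (1 + GB' {(0:ℤ)} (An n) (Mn n)) ^ p * ∫⁻ z, ‖f z‖ₑ ^ p ∂(nu w) := by
    refine add_le_p (g := fun z => ∫ v in (0:ℝ)..1, ((ka 0 n v : ℝ) : ℂ) * f ((v : ℂ) * z)) hf
      hc.enorm.measurable.aemeasurable hp hG0 (fun z => ?_) ?_
    · rw [FF_eq 0 n hf]
      exact enorm_sub_le
    · have h3 := gminkW (volume.restrict (Set.Ioc (0:ℝ) 1)) (nu w) (κ := fun v : ℝ => ((ka 0 n v : ℝ) : ℂ))
        (c := fun v : ℝ => (v : ℂ)) (b := fun v : ℝ => v⁻¹)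
        (Complex.measurable_ofReal.comp hka.measurable) Complex.measurable_ofReal measurable_inv
        ((ae_restrict_iff' measurableSet_Ioc).2 (Eventually.of_forall fun v hv => by
          have := hv.1
          positivity)) hf hp
        ((ae_restrict_iff' measurableSet_Ioc).2 (Eventually.of_forall fun v hv =>
          scaleW3 hw h2 hf hv.1 hv.2))
      have h4 : ∫⁻ v in Set.Ioc (0:ℝ) 1, ENNReal.ofReal (‖((ka 0 n v : ℝ) : ℂ)‖ * v⁻¹) =
          ENNReal.ofReal (GB' {(0:ℤ)} (An n) (Mn n)) := by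
        rw [hGe, intervalIntegral.integral_of_le zero_le_one, ofReal_integral_eq_lintegral_ofReal
          ((by fun_prop : Continuous fun v : ℝ => 2 * |kb 0 n v|).integrableOn_Ioc)
          (Eventually.of_forall fun v => by positivity)]
        refine setLIntegral_congr_fun measurableSet_Ioc fun v hv => ?_
        have hv0 : 0 < v := hv.1
        congr 1
        rw [Complex.norm_real, Real.norm_eq_abs, ka_eq, abs_mul, abs_of_pos (by positivity : 0 < 2 * v)]
        field_simp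
      rw [h4] at h3
      simp only [intervalIntegral.integral_of_le zero_le_one]
      exact h3
  refine key.trans ?_
  gcongr

theorem zero_w' {n : ℕ} (hn : 1 ≤ n) {f : 𝓢(ℂ, ℂ)} (hf : Ty 0 f)
    {p : ℝ} (hp : 1 < p) {w : ℂ → ℝ} (hw : Measurable w)
    (h2 : ∀ v : ℝ, 0 < v → v ≤ 1 → ∀ z : ℂ, v ^ (p - 2) * w z ≤ w ((v : ℂ) * z)) :
    ∫⁻ z, ‖TS n f z‖ₑ ^ p * ENNReal.ofReal (w z) ≤
      ENNReal.ofReal ((22 * n) ^ p) * ∫⁻ z, ‖f z‖ₑ ^ p * ENNReal.ofReal (w z) := by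
  have hn' : (1:ℝ) ≤ n := by exact_mod_cast hn
  have hp0 : 0 < p := by linarith
  have h := FF0_w hn hw hp h2 f.continuous
  have e : ∫⁻ z, ‖TS n f z‖ₑ ^ p ∂(nu w) = ∫⁻ z, ‖FF 0 n f z‖ₑ ^ p ∂(nu w) := by
    refine lintegral_congr_ae ?_
    filter_upwards [nu_ne w] with z hz
    have hb : ‖conj z / z‖ = 1 := by
      rw [norm_div, RCLike.norm_conj]
      exact div_self (norm_ne_zero_iff.2 hz)
    have h4 := id_type (n := n) (j := 0) (by omega) hf hz
    have e1 : (0:ℤ).natAbs = 0 := rfl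
    have e2 : ((n : ℤ) - max 0 0).toNat = n := by omega
    rw [e1, e2] at h4
    rw [h4, enorm_mul, ← ofReal_norm ((conj z / z) ^ n), norm_pow, hb, one_pow, ENNReal.ofReal_one, one_mul]
  rw [← e] at h
  have m1 : Measurable fun z => ‖TS n f z‖ₑ ^ p := (TS_cont n f).enorm.measurable.pow_const p
  have m2 : Measurable fun z => ‖f z‖ₑ ^ p := f.continuous.enorm.measurable.pow_const p
  rw [wd hw m1, wd hw m2, ENNReal.ofReal_rpow_of_pos (by positivity)] at h
  exact h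

/-- **Single types other than `2n`, weighted, all nonzero powers.** -/
theorem singleZ0 {n : ℤ} (hn : n ≠ 0) {j : ℤ} (hj2 : j ≠ 2 * n) {f : 𝓢(ℂ, ℂ)} (hf : Ty j f)
    {p : ℝ} (hp : 1 < p) {w : ℂ → ℝ} (hw : Measurable w)
    (h1 : n * n < j * n → ∀ v : ℝ, 0 < v → v ≤ 1 → ∀ z : ℂ, v ^ 2 * w ((v : ℂ) * z) ≤ w z)
    (h2 : j * n ≤ n * n → j ≠ 0 → ∀ v : ℝ, 0 < v → v ≤ 1 → ∀ z : ℂ, v ^ (2 * p - 2) * w z ≤ w ((v : ℂ) * z))
    (h3 : j = 0 → ∀ v : ℝ, 0 < v → v ≤ 1 → ∀ z : ℂ, v ^ (p - 2) * w z ≤ w ((v : ℂ) * z)) :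
    ∫⁻ z, ‖TZ n f z‖ₑ ^ p * ENNReal.ofReal (w z) ≤
      ENNReal.ofReal ((22 * |(n : ℝ)|) ^ p) * ∫⁻ z, ‖f z‖ₑ ^ p * ENNReal.ofReal (w z) := by
  have hn1 : (1:ℝ) ≤ |(n : ℝ)| := by
    have h : (1:ℤ) ≤ |n| := Int.one_le_abs hn
    exact_mod_cast h
  have hp0 : 0 < p := by linarith
  by_cases hj0 : j = 0
  · subst hj0
    have h3' := h3 rfl
    rcases lt_or_gt_of_ne hn with h | h
    · obtain ⟨k, rfl⟩ : ∃ k : ℕ, n = -(k : ℤ) := ⟨n.natAbs, by omega⟩
      have hk : 1 ≤ k := by omega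
      have hwc : Measurable fun z => w (conj z) := hw.comp Complex.continuous_conj.measurable
      have hfr : Ty 0 (refl f) := by
        have := refl_Ty hf
        rwa [neg_zero] at this
      have key := zero_w' (n := k) hk hfr hp hwc (fun v hv hv1 z => by
          have := h3' v hv hv1 (conj z)
          rwa [map_mul, Complex.conj_ofReal])
      have a1 : ∫⁻ z, ‖TZ (-(k : ℤ)) f z‖ₑ ^ p * ENNReal.ofReal (w z) =
          ∫⁻ z, ‖TS k (refl f) z‖ₑ ^ p * ENNReal.ofReal (w (conj z)) := by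
        have hm : Measurable fun z => ‖TS k (refl f) z‖ₑ ^ p * ENNReal.ofReal (w (conj z)) :=
          ((TS_cont k (refl f)).enorm.measurable.pow_const p).mul hwc.ennreal_ofReal
        rw [← lconj hm]
        refine lintegral_congr fun z => ?_
        rw [TZ_neg, Complex.conj_conj]
      have a2 : ∫⁻ z, ‖refl f z‖ₑ ^ p * ENNReal.ofReal (w (conj z)) =
          ∫⁻ z, ‖f z‖ₑ ^ p * ENNReal.ofReal (w z) := by
        have hm : Measurable fun z => ‖f z‖ₑ ^ p * ENNReal.ofReal (w z) :=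
          (f.continuous.enorm.measurable.pow_const p).mul hw.ennreal_ofReal
        rw [← lconj hm]
        refine lintegral_congr fun z => ?_
        rw [refl_apply]
      have a3 : |((-(k : ℤ) : ℤ) : ℝ)| = k := by
        push_cast
        rw [abs_neg, Nat.abs_cast]
      rw [a1, a3]
      rw [a2] at key
      exact key
    · obtain ⟨k, rfl⟩ : ∃ k : ℕ, n = (k : ℤ) := ⟨n.natAbs, by omega⟩
      have hk : 1 ≤ k := by omega
      have key := zero_w' (n := k) hk hf hp hw h3'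
      have a3 : |((k : ℤ) : ℝ)| = k := by
        push_cast
        rw [Nat.abs_cast]
      rw [a3]
      simp only [TZ_pos]
      exact key
  · refine (singleZ hn hj0 hj2 hf hp hw h1 (fun h => h2 h hj0)).trans ?_
    gcongr
    linarith

end Pool.Agent.Run7.h695.BT
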