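import Pool.Agent.Run7.h695.BT.WinW2

/-!
# A window of angular types in weighted `L ^ p` (helper695)
-/

set_option autoImplicit false

open Finset MeasureTheory Filter Topology
open scoped SchwartzMap ComplexConjugate ENNReal

namespace Pool.Agent.Run7.h695.BT

open Pool.Agent.N892.BW (TS)
open Pool.Agent.N892.BW.RTT (TS_cont TS_sum)

lemma scaleW3 {w : ℂ → ℝ} (hw : Measurable w) {p : ℝ}
    (h2 : ∀ v : ℝ, 0 < v → v ≤ 1 → ∀ z : ℂ, v ^ (p - 2) * w z ≤ w ((v : ℂ) * z))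
    {f : ℂ → ℂ} (hf : Continuous f) {v : ℝ} (hv : 0 < v) (hv1 : v ≤ 1) :
    ∫⁻ z, ‖f ((v : ℂ) * z)‖ₑ ^ p ∂(nu w) ≤ ENNReal.ofReal ((v⁻¹) ^ p) * ∫⁻ z, ‖f z‖ₑ ^ p ∂(nu w) := by
  have hfm : Measurable fun z => ‖f z‖ₑ ^ p := hf.enorm.measurable.pow_const p
  have hfv : Measurable fun z : ℂ => ‖f ((v : ℂ) * z)‖ₑ ^ p := hfm.comp (measurable_const_mul _)
  have hg : Measurable fun z => ‖f z‖ₑ ^ p * ENNReal.ofReal (w z) := hfm.mul hw.ennreal_ofReal
  rw [wd hw hfv, wd hw hfm]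
  have h3 : ∀ z : ℂ, ‖f ((v : ℂ) * z)‖ₑ ^ p * ENNReal.ofReal (w z) ≤
      ENNReal.ofReal ((v ^ (p - 2))⁻¹) *
        (fun u => ‖f u‖ₑ ^ p * ENNReal.ofReal (w u)) ((v : ℂ) * z) := by
    intro z
    have hvp : 0 < v ^ (p - 2) := Real.rpow_pos_of_pos hv _
    have h4 : w z ≤ (v ^ (p - 2))⁻¹ * w ((v : ℂ) * z) := by
      rw [inv_mul_eq_div, le_div_iff₀ hvp, mul_comm]
      exact h2 v hv hv1 z
    have h5 : ENNReal.ofReal (w z) ≤ ENNReal.ofReal ((v ^ (p - 2))⁻¹) * ENNReal.ofReal (w ((v : ℂ) * z)) := by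
      rw [← ENNReal.ofReal_mul (by positivity)]
      exact ENNReal.ofReal_le_ofReal h4
    calc _ ≤ ‖f ((v : ℂ) * z)‖ₑ ^ p *
          (ENNReal.ofReal ((v ^ (p - 2))⁻¹) * ENNReal.ofReal (w ((v : ℂ) * z))) := mul_le_mul_right h5 _
      _ = _ := by ring
  refine (lintegral_mono h3).trans (le_of_eq ?_)
  have hgv : Measurable fun z : ℂ => (fun u => ‖f u‖ₑ ^ p * ENNReal.ofReal (w u)) ((v : ℂ) * z) :=
    hg.comp (measurable_const_mul _)
  rw [lintegral_const_mul _ hgv, lscale hg hv, ← mul_assoc, ← ENNReal.ofReal_mul (by positivity)]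
  congr 2
  rw [Real.inv_rpow hv.le, ← Real.rpow_natCast v 2, ← mul_inv, ← Real.rpow_add hv]
  congr 2
  push_cast
  ring

/-- the kernel of the window -/
lemma w4_le (S : Finset ℤ) (A M : ℤ → ℕ) :
    ∫⁻ y, ENNReal.ofReal (‖kS S A M y‖ * (y.1)⁻¹) ∂(mu1.prod mu1) ≤ ENNReal.ofReal (GB' S A M) := by
  have hm : Measurable fun y : ℝ × ℝ => ENNReal.ofReal (‖kS S A M y‖ * (y.1)⁻¹) :=
    ((kS_cont S A M).norm.measurable.mul measurable_fst.inv).ennreal_ofReal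
  rw [lintegral_prod _ hm.aemeasurable]
  have hg := gS_cont S A M
  have h1 : GB' S A M = ∫ v in Set.Ioc (0:ℝ) 1, 2 * gS S A M v := by
    unfold GB'
    rw [← intervalIntegral.integral_of_le zero_le_one]
  rw [h1, ofReal_integral_eq_lintegral_ofReal]
  · refine setLIntegral_mono' measurableSet_Ioc fun v hv => ?_
    have hv0 : 0 < v := hv.1
    set c : ℤ → ℝ := fun j => kb (A j) (M j) v with hc
    have h5 : ∀ x : ℝ, ENNReal.ofReal (‖kS S A M (v, x)‖ * v⁻¹) =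
        ENNReal.ofReal 2 * ENNReal.ofReal ‖Fc S c x‖ := by
      intro x
      rw [← ENNReal.ofReal_mul (by positivity)]
      congr 1
      rw [kS_eq, norm_mul, Complex.norm_real, Real.norm_of_nonneg (by positivity)]
      show 2 * v * ‖Fc S c x‖ * v⁻¹ = 2 * ‖Fc S c x‖
      field_simp
    have hF := (Fc_cont S c).norm
    calc ∫⁻ x, ENNReal.ofReal (‖kS S A M (v, x)‖ * ((v, x) : ℝ × ℝ).1⁻¹) ∂mu1
        = ∫⁻ x, ENNReal.ofReal 2 * ENNReal.ofReal ‖Fc S c x‖ ∂mu1 := lintegral_congr h5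
      _ = ENNReal.ofReal 2 * ∫⁻ x, ENNReal.ofReal ‖Fc S c x‖ ∂mu1 :=
          lintegral_const_mul _ hF.measurable.ennreal_ofReal
      _ ≤ ENNReal.ofReal 2 * ENNReal.ofReal (gS S A M v) := by
          gcongr
          rw [← ofReal_integral_eq_lintegral_ofReal hF.integrableOn_Ioc
            (Eventually.of_forall fun x => norm_nonneg _), ← intervalIntegral.integral_of_le zero_le_one]
          exact ENNReal.ofReal_le_ofReal (l1l2 S c)
      _ = ENNReal.ofReal (2 * gS S A M v) := by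
          rw [← ENNReal.ofReal_mul (by positivity)]
  · refine Continuous.integrableOn_Ioc ?_
    fun_prop
  · exact (ae_restrict_iff' measurableSet_Ioc).2 (Eventually.of_forall fun v hv =>
      mul_nonneg zero_le_two (gS_nonneg S A M v))

/-- the operator on weighted `L ^ p` -/
theorem UU_w (S : Finset ℤ) (A M : ℤ → ℕ) {g : ℤ → 𝓢(ℂ, ℂ)} (hg : ∀ j ∈ S, Ty j (g j))
    {w : ℂ → ℝ} (hw : Measurable w) (hr : ∀ b z : ℂ, ‖b‖ = 1 → w (b * z) = w z) {p : ℝ} (hp : 1 < p)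
    (h2 : ∀ v : ℝ, 0 < v → v ≤ 1 → ∀ z : ℂ, v ^ (p - 2) * w z ≤ w ((v : ℂ) * z)) :
    ∫⁻ z, ‖UU S A M (fun z => ∑ j ∈ S, g j z) z‖ₑ ^ p ∂(nu w) ≤
      ENNReal.ofReal (1 + GB' S A M) ^ p * ∫⁻ z, ‖∑ j ∈ S, g j z‖ₑ ^ p ∂(nu w) := by
  set f : ℂ → ℂ := fun z => ∑ j ∈ S, g j z with hf
  have hfc : Continuous f := continuous_finsetSum _ fun j _ => (g j).continuous
  have hfd : Dec2 f := by
    have h := sch_dec2 (∑ j ∈ S, g j)
    have e : (fun z => (∑ j ∈ S, g j : 𝓢(ℂ, ℂ)) z) = f := by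
      funext z
      exact _root_.sum_apply _ _ _
    rwa [← e]
  have hexc := ex_cont
  set g2 : ℂ → ℂ := fun z => ∫ y, kS S A M y * f (((y.1 : ℂ) * ex y.2) * z) ∂(mu1.prod mu1) with hg2
  have hPr : ∀ z, (∫ x, Fc S (fun _ => 1) x * f (ex x * z) ∂mu1) = f z := by
    intro z
    have h1 : ∫ x, Fc S (fun _ => 1) x * f (ex x * z) ∂mu1 = ∑ j ∈ S, Pr j f z := by
      have i1 : ∀ j ∈ S, Integrable (fun x : ℝ => ex (-(j * x)) * f (ex x * z)) mu1 := fun j _ => by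
        apply Continuous.integrableOn_Ioc
        fun_prop
      have hP : ∀ j : ℤ, Pr j f z = ∫ x, ex (-(j * x)) * f (ex x * z) ∂mu1 := by
        intro j
        unfold Pr
        rw [intervalIntegral.integral_of_le zero_le_one]
      rw [Finset.sum_congr rfl fun j _ => hP j, ← integral_finsetSum _ i1]
      refine integral_congr_ae (Eventually.of_forall fun x => ?_)
      simp only
      unfold Fc
      rw [Finset.sum_mul]
      refine Finset.sum_congr rfl fun j _ => ?_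
      rw [Complex.ofReal_one, one_mul]
    rw [h1, Finset.sum_congr rfl fun j hj => congrFun (Pr_sum hg hj) z]
  have hsum : ∀ z, UU S A M f z = f z - g2 z := fun z => by
    rw [UU_eq S A M hfc z, hPr]
  have c2 : Continuous g2 := by
    have : g2 = fun z => f z - UU S A M f z := by
      funext z
      rw [hsum]
      ring
    rw [this]
    exact hfc.sub (UU_dec S A M hfd).1
  refine add_le_p (g := g2) hfc c2.enorm.measurable.aemeasurable hp (GB'_nonneg S A M) (fun z => ?_) ?_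
  · rw [hsum]
    exact enorm_sub_le
  · have hae : ∀ P : ℝ × ℝ → Prop, (∀ y : ℝ × ℝ, 0 < y.1 → y.1 ≤ 1 → P y) → ∀ᵐ y ∂(mu1.prod mu1), P y := by
      intro P hP
      rw [Measure.prod_restrict]
      exact (ae_restrict_iff' (measurableSet_Ioc.prod measurableSet_Ioc)).2
        (Eventually.of_forall fun y hy => hP y hy.1.1 hy.1.2)
    have h3 := gminkW (mu1.prod mu1) (nu w) (κ := kS S A M)
      (c := fun y : ℝ × ℝ => (y.1 : ℂ) * ex y.2) (b := fun y : ℝ × ℝ => (y.1)⁻¹)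
      (kS_cont S A M).measurable (by fun_prop : Continuous fun y : ℝ × ℝ => (y.1 : ℂ) * ex y.2).measurable
      measurable_fst.inv (hae _ fun y hy _ => inv_pos.2 hy) hfc hp (hae _ fun y hy hy1 => ?_)
    · refine h3.trans ?_
      gcongr
      exact w4_le S A M
    · have hm : Measurable fun z : ℂ => ‖f ((y.1 : ℂ) * z)‖ₑ ^ p :=
        (hfc.enorm.measurable.comp (measurable_const_mul _)).pow_const p
      have h4 := nu_rot hw hr hm (ex_norm y.2)
      have e : ∀ z : ℂ, ‖f ((y.1 : ℂ) * ex y.2 * z)‖ₑ ^ p = ‖f ((y.1 : ℂ) * (ex y.2 * z))‖ₑ ^ p := fun z => by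
        rw [mul_assoc]
      simp only [e]
      rw [h4]
      exact scaleW3 hw h2 hfc hy hy1

/-- **A window of types, weighted.** -/
theorem window_w {n : ℕ} (hn : 1 ≤ n) {S : Finset ℤ} (hS : ∀ j ∈ S, -(6 * n : ℤ) < j ∧ j ≤ n)
    {g : ℤ → 𝓢(ℂ, ℂ)} (hg : ∀ j ∈ S, Ty j (g j)) {p : ℝ} (hp : 1 < p) {w : ℂ → ℝ} (hw : Measurable w)
    (hr : ∀ b z : ℂ, ‖b‖ = 1 → w (b * z) = w z)
    (h2 : ∀ v : ℝ, 0 < v → v ≤ 1 → ∀ z : ℂ, v ^ (p - 2) * w z ≤ w ((v : ℂ) * z)) :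
    ∫⁻ z, ‖TS n (∑ j ∈ S, g j) z‖ₑ ^ p * ENNReal.ofReal (w z) ≤
      ENNReal.ofReal ((22 * n) ^ p) * ∫⁻ z, ‖(∑ j ∈ S, g j : 𝓢(ℂ, ℂ)) z‖ₑ ^ p * ENNReal.ofReal (w z) := by
  have hn' : (1:ℝ) ≤ n := by exact_mod_cast hn
  have hp0 : 0 < p := by linarith
  have e2 : ∀ z, (∑ j ∈ S, g j : 𝓢(ℂ, ℂ)) z = ∑ j ∈ S, g j z := fun z => _root_.sum_apply _ _ _
  have h3 := UU_w S (An n) (Mn n) hg hw hr hp h2
  have e3 : ∫⁻ z, ‖TS n (∑ j ∈ S, g j) z‖ₑ ^ p ∂(nu w) =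
      ∫⁻ z, ‖UU S (An n) (Mn n) (fun z => ∑ j ∈ S, g j z) z‖ₑ ^ p ∂(nu w) := by
    refine lintegral_congr_ae ?_
    filter_upwards [nu_ne w] with z hz
    have hb : ‖conj z / z‖ = 1 := by
      rw [norm_div, RCLike.norm_conj]
      exact div_self (norm_ne_zero_iff.2 hz)
    have h4 := id_sum (n := n) (fun j hj => (hS j hj).2) hg hz
    have h5 : UU S Aj (Mj n) (fun w => (∑ j ∈ S, g j : 𝓢(ℂ, ℂ)) w) z =
        UU S (An n) (Mn n) (fun z => ∑ j ∈ S, g j z) z := by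
      simp only [e2]
      unfold UU
      refine Finset.sum_congr rfl fun j hj => ?_
      have hj2 := (hS j hj).2
      unfold Aj Mj An Mn
      rw [if_pos hj2, if_pos hj2]
    rw [h4, h5, enorm_mul, ← ofReal_norm ((conj z / z) ^ n), norm_pow, hb, one_pow, ENNReal.ofReal_one, one_mul]
  have key : ∫⁻ z, ‖TS n (∑ j ∈ S, g j) z‖ₑ ^ p ∂(nu w) ≤
      ENNReal.ofReal (22 * n) ^ p * ∫⁻ z, ‖∑ j ∈ S, g j z‖ₑ ^ p ∂(nu w) := by
    rw [e3]
    refine h3.trans ?_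
    gcongr
    exact GB'_window hn hS
  have m1 : Measurable fun z => ‖TS n (∑ j ∈ S, g j) z‖ₑ ^ p :=
    (TS_cont n _).enorm.measurable.pow_const p
  have m2 : Measurable fun z => ‖∑ j ∈ S, g j z‖ₑ ^ p :=
    (continuous_finsetSum _ fun j _ => (g j).continuous).enorm.measurable.pow_const p
  rw [wd hw m1, wd hw m2, ENNReal.ofReal_rpow_of_pos (by positivity)] at key
  simp only [e2]
  exact key

end Pool.Agent.Run7.h695.BT
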