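import Pool.Agent.Run7.h695.BT.Wgt6
import Pool.Agent.Run7.h695.BT.WinW3

/-!
# Weighted `L ^ 2` bounds for all types but `2n` (helper695)
-/

set_option autoImplicit false

open Finset MeasureTheory Filter Topology
open scoped SchwartzMap ComplexConjugate ENNReal

namespace Pool.Agent.Run7.h695.BT

open Pool.Agent.N892.BW (TS)
open Pool.Agent.N892.BW.RTT (TS_cont TS_sum)

lemma TS_add (n : ℕ) (f g : 𝓢(ℂ, ℂ)) (z : ℂ) : TS n (f + g) z = TS n f z + TS n g z := by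
  have h := TS_sum n (Finset.univ : Finset (Fin 2)) (fun _ => (1:ℂ)) (fun i => if i = 0 then f else g) z
  simpa [Fin.sum_univ_two] using h

/-- a radial Schwartz function -/
lemma rad_w {n : ℕ} (hn : 1 ≤ n) {g : 𝓢(ℂ, ℂ)} (hg : Ty 0 g) {w : ℂ → ℝ} (hw : Measurable w)
    (hr : ∀ b z : ℂ, ‖b‖ = 1 → w (b * z) = w z)
    (h3 : ∀ v : ℝ, 0 < v → v ≤ 1 → ∀ z : ℂ, w z ≤ w ((v : ℂ) * z)) :
    ∫⁻ z, ‖TS n g z‖ₑ ^ (2:ℝ) ∂(nu w) ≤ ENNReal.ofReal (22 * n) ^ (2:ℝ) * ∫⁻ z, ‖g z‖ₑ ^ (2:ℝ) ∂(nu w) := by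
  have hn' : (1:ℝ) ≤ n := by exact_mod_cast hn
  have h := window_w hn (S := {(0:ℤ)}) (g := fun _ => g) (fun j hj => by
    rw [Finset.mem_singleton.1 hj]
    omega) (fun j hj => by
    rw [Finset.mem_singleton.1 hj]
    exact hg) (p := 2) (by norm_num) hw hr (fun v hv hv1 z => by
    rw [sub_self, Real.rpow_zero, one_mul]
    exact h3 v hv hv1 z)
  rw [Finset.sum_singleton] at h
  have m1 : Measurable fun z => ‖TS n g z‖ₑ ^ (2:ℝ) := (TS_cont n g).enorm.measurable.pow_const 2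
  have m2 : Measurable fun z => ‖g z‖ₑ ^ (2:ℝ) := g.continuous.enorm.measurable.pow_const 2
  rw [wd hw m1, wd hw m2, ENNReal.ofReal_rpow_of_pos (by positivity)]
  exact h

/-- **General functions without the type `2n` in weighted `L ^ 2`.** -/
theorem gen2_w {n : ℕ} (hn : 1 ≤ n) (f g : 𝓢(ℂ, ℂ)) (hg : Ty 0 g) (hf0 : ∀ z, Pr 0 f z = 0)
    (hf2 : ∀ z, Pr (2 * n) f z = 0) {w : ℂ → ℝ} (hw : Measurable w)
    (hr : ∀ b z : ℂ, ‖b‖ = 1 → w (b * z) = w z)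
    (h1 : (∃ j : ℤ, n < j ∧ ∃ z, Pr j f z ≠ 0) →
      ∀ v : ℝ, 0 < v → v ≤ 1 → ∀ z : ℂ, v ^ 2 * w ((v : ℂ) * z) ≤ w z)
    (h2 : (∃ j : ℤ, j ≤ n ∧ ∃ z, Pr j f z ≠ 0) →
      ∀ v : ℝ, 0 < v → v ≤ 1 → ∀ z : ℂ, v ^ 2 * w z ≤ w ((v : ℂ) * z))
    (h3 : (∃ z, g z ≠ 0) → ∀ v : ℝ, 0 < v → v ≤ 1 → ∀ z : ℂ, w z ≤ w ((v : ℂ) * z)) :
    ∫⁻ z, ‖TS n (f + g) z‖ₑ ^ 2 * ENNReal.ofReal (w z) ≤
      ENNReal.ofReal ((22 * n) ^ 2) * ∫⁻ z, ‖(f + g) z‖ₑ ^ 2 * ENNReal.ofReal (w z) := by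
  have hn' : (1:ℝ) ≤ n := by exact_mod_cast hn
  have hPg : ∀ (j : ℤ) z, Pr j g z = if 0 = j then g z else 0 := fun j z => Pr_of_type hg z
  have hTg : Ty (-(2 * n : ℤ)) (TS n g) := by
    have := TS_Ty (n := n) hg
    rwa [zero_sub] at this
  have hPTg : ∀ (j : ℤ) z, Pr (j - 2 * n) (TS n g) z = if 0 = j then TS n g z else 0 := by
    intro j z
    rw [Pr_of_type hTg z]
    by_cases h : 0 = j
    · rw [if_pos h, if_pos (by omega)]
    · rw [if_neg h, if_neg (by omega)]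
  have eT : ∀ (j : ℤ) z, Pr (j - 2 * n) (TS n (f + g)) z =
      Pr (j - 2 * n) (TS n f) z + Pr (j - 2 * n) (TS n g) z := by
    intro j z
    have e : TS n (f + g) = fun z => TS n f z + TS n g z := by
      funext z
      exact TS_add n f g z
    rw [e, Pr_add _ (TS_cont n f) (TS_cont n g)]
  have eP : ∀ (j : ℤ) z, Pr j (f + g : 𝓢(ℂ, ℂ)) z = Pr j f z + Pr j g z := by
    intro j z
    have e : ((f + g : 𝓢(ℂ, ℂ)) : ℂ → ℂ) = fun z => f z + g z := by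
      funext z
      rfl
    rw [e, Pr_add _ f.continuous g.continuous]
  have key : ∫⁻ z, ‖TS n (f + g) z‖ₑ ^ (2:ℝ) ∂(nu w) ≤
      ENNReal.ofReal (22 * n) ^ (2:ℝ) * ∫⁻ z, ‖(f + g) z‖ₑ ^ (2:ℝ) ∂(nu w) := by
    rw [parsW hw hr (TS_cont n (f + g)), parsW hw hr (f + g).continuous, ← ENNReal.tsum_mul_left,
      ← (Equiv.subRight (2 * (n : ℤ))).tsum_eq]
    refine ENNReal.tsum_le_tsum fun j => ?_
    show ∫⁻ z, ‖Pr (j - 2 * n) (TS n (f + g)) z‖ₑ ^ (2:ℝ) ∂(nu w) ≤ _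
    by_cases hj : 0 = j
    · have e1 : ∫⁻ z, ‖Pr (j - 2 * n) (TS n (f + g)) z‖ₑ ^ (2:ℝ) ∂(nu w) =
          ∫⁻ z, ‖TS n g z‖ₑ ^ (2:ℝ) ∂(nu w) := by
        refine lintegral_congr_ae ?_
        filter_upwards [nu_ne w] with z hz0
        rw [eT, hPTg, if_pos hj, comp_zero n f (by rw [← hj]; exact hf0) hz0, zero_add]
      have e2 : ∀ z, Pr j (f + g : 𝓢(ℂ, ℂ)) z = g z := by
        intro z
        rw [eP, hPg, if_pos hj, ← hj, hf0, zero_add]
      rw [e1]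
      simp only [e2]
      by_cases hgz : ∃ z, g z ≠ 0
      · exact rad_w hn hg hw hr (h3 hgz)
      · have hg0 : g = 0 := by
          ext z
          by_contra h
          exact hgz ⟨z, h⟩
        have e3 : ∀ z, TS n g z = 0 := by
          intro z
          rw [hg0]
          unfold TS
          simp
        simp only [e3, enorm_zero, ENNReal.zero_rpow_of_pos (by norm_num : (0:ℝ) < 2), lintegral_zero]
        exact bot_le
    · have e1 : ∀ z, Pr (j - 2 * n) (TS n (f + g)) z = Pr (j - 2 * n) (TS n f) z := by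
        intro z
        rw [eT, hPTg, if_neg hj, add_zero]
      have e2 : ∀ z, Pr j (f + g : 𝓢(ℂ, ℂ)) z = Pr j f z := by
        intro z
        rw [eP, hPg, if_neg hj, add_zero]
      simp only [e1, e2]
      by_cases hz : ∀ z, Pr j f z = 0
      · have e : ∫⁻ z, ‖Pr (j - 2 * n) (TS n f) z‖ₑ ^ (2:ℝ) ∂(nu w) = 0 := by
          rw [← lintegral_zero (μ := nu w)]
          refine lintegral_congr_ae ?_
          filter_upwards [nu_ne w] with z hz0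
          rw [comp_zero n f hz hz0, enorm_zero, ENNReal.zero_rpow_of_pos (by norm_num)]
        rw [e]
        exact bot_le
      · have hz' : ∃ z, Pr j f z ≠ 0 := not_forall.1 hz
        have hj2 : j ≠ 2 * n := fun h => hz (by rw [h]; exact hf2)
        refine (comp_w hn (fun h => hj h.symm) hj2 f hw (fun hjn => h1 ⟨j, hjn, hz'⟩) (fun hjn v hv hv1 z => ?_)).trans ?_
        · have h := h2 ⟨j, hjn, hz'⟩ v hv hv1 z
          have e : v ^ (2 * (2:ℝ) - 2) = v ^ 2 := by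
            rw [show (2 * (2:ℝ) - 2) = ((2:ℕ) : ℝ) by norm_num, Real.rpow_natCast]
          rw [e]
          exact h
        · gcongr
          linarith
  have m1 : Measurable fun z => ‖TS n (f + g) z‖ₑ ^ (2:ℝ) := (TS_cont n (f + g)).enorm.measurable.pow_const 2
  have m2 : Measurable fun z => ‖(f + g) z‖ₑ ^ (2:ℝ) := (f + g).continuous.enorm.measurable.pow_const 2
  rw [wd hw m1, wd hw m2, ENNReal.ofReal_rpow_of_pos (by positivity)] at key
  have c1 : ∀ x : ℝ≥0∞, x ^ (2:ℝ) = x ^ 2 := fun x => by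
    exact_mod_cast ENNReal.rpow_natCast x 2
  have c2 : ((22:ℝ) * n) ^ (2:ℝ) = (22 * n) ^ 2 := by
    exact_mod_cast Real.rpow_natCast ((22:ℝ) * n) 2
  simp only [c1, c2] at key
  exact key

end Pool.Agent.Run7.h695.BT
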