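import Pool.Agent.Run7.h695.BT.ExtF

/-!
# The kernel for `a = 1` (helper695)
-/

set_option autoImplicit false

open Finset MeasureTheory

namespace Pool.Agent.Run7.h695.BT

lemma cj_le {a m : ℕ} (ha : 1 ≤ a) (hm : 1 ≤ m) : cj a m ≤ 1.8 * (2 * m + a) := by
  have ha' : (1:ℝ) ≤ a := by exact_mod_cast ha
  have hm' : (1:ℝ) ≤ m := by exact_mod_cast hm
  unfold cj
  have h1 : 0 < (2 * (m : ℝ) + a) ^ 2 - 1 := by nlinarith
  have h2 : (m : ℝ) * (m + a) * (2 * m + a) / ((2 * (m : ℝ) + a) ^ 2 - 1) ≤ 1 / 4 * (2 * m + a) := by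
    rw [div_le_iff₀ h1]
    have h3 : 4 * ((m : ℝ) * (m + a)) ≤ (2 * (m : ℝ) + a) ^ 2 - 1 := by nlinarith
    have h4 : 0 ≤ 2 * (m : ℝ) + a := by positivity
    nlinarith
  linarith

/-- `a = 1`, with logarithm -/
theorem NH_one_log (n : ℕ) {z : ℝ} (hz : 0 < z) (hX : z ^ 2 = ((n : ℝ) + 1) * (n + 2)) {L : ℝ} (hL0 : 0 < L)
    (hL : Real.log (4 * z ^ 2) ≤ L) :
    NH 1 (n + 1) ≤ z + √(z ^ 2 * L) + √(3.364 * cj 1 (n + 1)) := by
  have hn0 : (0:ℝ) ≤ n := Nat.cast_nonneg n
  have hz2 : 2 ≤ z ^ 2 := by rw [hX]; nlinarith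
  set v0 : ℝ := √(1 / 2) with hv0
  have hv02 : v0 ^ 2 = 1 / 2 := Real.sq_sqrt (by norm_num)
  have hv0p : 0 < v0 := Real.sqrt_pos.2 (by norm_num)
  have hv01 : v0 < 1 := by
    by_contra h
    rw [not_lt] at h
    nlinarith
  have hv04 : v0 ^ 4 = 1 / 4 := by
    have : v0 ^ 4 = (v0 ^ 2) ^ 2 := by ring
    rw [this, hv02]
    norm_num
  set s0 : ℝ := 1 / (2 * z) with hs0
  have hs0p : 0 < s0 := by positivity
  have hs02 : s0 ^ 2 = 1 / (4 * z ^ 2) := by
    rw [hs0, div_pow, mul_pow]
    norm_num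
  have hs02' : s0 ^ 2 ≤ 1 / 8 := by
    rw [hs02, div_le_div_iff₀ (by positivity) (by norm_num)]
    linarith
  have hsv : s0 < v0 := by
    refine lt_of_pow_lt_pow_left₀ 2 hv0p.le ?_
    rw [hv02]
    linarith
  have r1 := reg1 n hs0p.le (by linarith : s0 ^ 2 ≤ 1 / 2)
  rw [← hX] at r1
  have r1' : 2 * s0 * z ^ 2 = z := by
    rw [hs0]
    field_simp
  rw [r1'] at r1
  have r3 := reg3 (a := 1) (m := n + 1) le_rfl (by omega) (v0 := v0) (κ := 0.841) hv0p hv01 (by
    rw [hv02]
    have e : (1 - (1:ℝ) / 2) = 1 / 2 := by norm_num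
    rw [e]
    have h1 : ((1:ℝ) / 2) ^ (1 / 4 : ℝ) ≤ ((0.841 : ℝ) ^ 4) ^ (1 / 4 : ℝ) :=
      Real.rpow_le_rpow (by norm_num) (by norm_num) (by norm_num)
    refine h1.trans (le_of_eq ?_)
    rw [← Real.rpow_natCast, ← Real.rpow_mul (by norm_num)]
    norm_num)
  rw [hv04] at r3
  have e3 : cj 1 (n + 1) * (0.841 / (1 / 4)) = 3.364 * cj 1 (n + 1) := by ring
  rw [e3] at r3
  -- the middle region
  have hkh := kh_cont 1 (n + 1)
  have hf0 := f0_cont 1 (n + 1)
  have hd : ∀ v ∈ Set.uIcc s0 v0, HasDerivAt (fun v : ℝ => 2 * Real.log v - Real.log (1 - v ^ 2))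
      (2 / (v * (1 - v ^ 2))) v := by
    intro v hv
    rw [Set.uIcc_of_le hsv.le] at hv
    have hvp : 0 < v := hs0p.trans_le hv.1
    have hv2 : v ^ 2 ≤ 1 / 2 := by
      rw [← hv02]
      exact pow_le_pow_left₀ hvp.le hv.2 2
    have hx : 0 < 1 - v ^ 2 := by linarith
    have dx : HasDerivAt (fun v : ℝ => 1 - v ^ 2) (-(2 * v)) v := by
      refine ((hasDerivAt_pow 2 v).const_sub 1).congr_deriv ?_
      norm_num
    refine (((Real.hasDerivAt_log hvp.ne').const_mul 2).sub (dx.log hx.ne')).congr_deriv ?_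
    have hx' := hx.ne'
    obtain ⟨x, hxx⟩ : ∃ x, x = 1 - v ^ 2 := ⟨_, rfl⟩
    rw [← hxx] at hx' ⊢
    field_simp
    linear_combination hxx
  have hci : ContinuousOn (fun v : ℝ => 2 / (v * (1 - v ^ 2))) (Set.uIcc s0 v0) := by
    rw [Set.uIcc_of_le hsv.le]
    refine continuousOn_const.div (by fun_prop) fun v hv => ?_
    have hvp : 0 < v := hs0p.trans_le hv.1
    have hv2 : v ^ 2 ≤ 1 / 2 := by
      rw [← hv02]
      exact pow_le_pow_left₀ hvp.le hv.2 2
    have hx : 0 < 1 - v ^ 2 := by linarith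
    positivity
  have hQ : ∫ v in s0..v0, 2 / (v * (1 - v ^ 2)) ≤ L := by
    rw [intervalIntegral.integral_eq_sub_of_hasDerivAt hd hci.intervalIntegrable]
    have h1 : 2 * Real.log v0 - Real.log (1 - v0 ^ 2) = 0 := by
      have : 2 * Real.log v0 = Real.log (v0 ^ 2) := by
        rw [Real.log_pow]
        norm_num
      rw [this, hv02]
      norm_num
    have h2 : 2 * Real.log s0 = -Real.log (4 * z ^ 2) := by
      have : 2 * Real.log s0 = Real.log (s0 ^ 2) := by
        rw [Real.log_pow]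
        norm_num
      rw [this, hs02, one_div, Real.log_inv]
    have h3 : Real.log (1 - s0 ^ 2) ≤ 0 := Real.log_nonpos (by linarith) (by linarith [sq_nonneg s0])
    rw [h1, h2]
    linarith
  have hE := E1_eq 0 n
  have hE' : ((n : ℝ) + 1) * (n + 1 + (((0:ℕ) : ℝ) + 1)) / (((0:ℕ) : ℝ) + 1) = z ^ 2 := by
    rw [hX]
    push_cast
    ring
  rw [hE'] at hE
  have r2 := cs_reg (F := kh 1 (n + 1)) (w := fun v => v * (1 - v ^ 2) / 2)
    (wi := fun v => 2 / (v * (1 - v ^ 2))) (P := z ^ 2) (Q := L) hsv.le (hkh.intervalIntegrable _ _)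
    ((by fun_prop : Continuous fun v => kh 1 (n + 1) v ^ 2 * (v * (1 - v ^ 2) / 2)).intervalIntegrable _ _)
    hci.intervalIntegrable (fun v hv => by
      have hvp : 0 < v := hs0p.trans hv.1
      have hv2 : v ^ 2 ≤ 1 / 2 := by
        rw [← hv02]
        exact pow_le_pow_left₀ hvp.le hv.2.le 2
      have hx : 0 < 1 - v ^ 2 := by linarith
      refine ⟨by positivity, ?_⟩
      have e : v * (1 - v ^ 2) / 2 * (2 / (v * (1 - v ^ 2))) = 1 := by
        field_simp
      rw [e]) (by positivity) hL0 (by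
      rw [← hE]
      have e : ∀ v : ℝ, kh 1 (n + 1) v ^ 2 * (v * (1 - v ^ 2) / 2) =
          2 * v ^ (2 * 0 + 1) * f0 (0 + 1) (n + 1) (v ^ 2) ^ 2 * (1 - v ^ 2) := by
        intro v
        unfold kh
        rw [Nat.sub_self, pow_zero]
        ring
      simp only [e]
      refine sub_int (by fun_prop) (fun v hv h1 => ?_) hs0p.le hsv.le hv01.le
      have hx : 0 ≤ 1 - v ^ 2 := by
        have := pow_le_one₀ hv h1 (n := 2)
        linarith
      positivity) hQ
  have hs : NH 1 (n + 1) = (∫ v in (0:ℝ)..s0, |kh 1 (n + 1) v|) + (∫ v in s0..v0, |kh 1 (n + 1) v|) +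
      ∫ v in v0..1, |kh 1 (n + 1) v| := by
    have h := hkh.abs
    unfold NH
    rw [intervalIntegral.integral_add_adjacent_intervals (h.intervalIntegrable _ _) (h.intervalIntegrable _ _),
      intervalIntegral.integral_add_adjacent_intervals (h.intervalIntegrable _ _) (h.intervalIntegrable _ _)]
  rw [hs]
  linarith

lemma log_le_of {x : ℝ} {k : ℕ} (hx : 0 < x) (h : x ≤ 2.7 ^ k) : Real.log x ≤ k := by
  rw [Real.log_le_iff_le_exp hx]
  have h1 : (2.7 : ℝ) ≤ Real.exp 1 := by
    have := Real.exp_one_gt_d9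
    linarith
  have h2 : Real.exp k = Real.exp 1 ^ k := by rw [← Real.exp_nat_mul, mul_one]
  rw [h2]
  exact h.trans (pow_le_pow_left₀ (by norm_num) h1 k)

/-- all kernels with `a = 1` -/
theorem NH_one_all {m : ℕ} (hm : 1 ≤ m) : NH 1 m ≤ 6.7 * m - 0.33 := by
  obtain ⟨n, rfl⟩ : ∃ n, m = n + 1 := ⟨m - 1, by omega⟩
  have hn0 : (0:ℝ) ≤ n := Nat.cast_nonneg n
  rcases Nat.eq_zero_or_pos n with h0 | h0
  · subst h0
    have h1 := sum_ck 1 (m := 1) le_rfl
    rw [Finset.sum_range_one] at h1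
    have h2 : ∀ v, kh 1 1 v = 4 := by
      intro v
      unfold kh f0
      rw [Finset.sum_range_one, h1]
      norm_num
    have h3 : NH 1 (0 + 1) = 4 := by
      unfold NH
      simp only [zero_add, h2]
      rw [intervalIntegral.integral_const]
      norm_num
    rw [h3]
    norm_num
  set X : ℝ := ((n : ℝ) + 1) * (n + 2) with hX
  have hX0 : 0 < X := by positivity
  have hc : cj 1 (n + 1) ≤ 1.8 * (2 * n + 3) := by
    have := cj_le (a := 1) (m := n + 1) le_rfl (by omega)
    push_cast at this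
    linarith
  have hzle : √X ≤ n + 1.5 := by
    rw [Real.sqrt_le_left (by positivity), hX]
    nlinarith
  have hgen : ∀ {L l z q : ℝ}, 0 < L → Real.log (4 * X) ≤ L → L ≤ l ^ 2 → 0 ≤ l → √X ≤ z → 0 ≤ q →
      6.0552 * (2 * n + 3) ≤ q ^ 2 → NH 1 (n + 1) ≤ z * (1 + l) + q := by
    intro L l z q hL0 hL hl hl0 hz hq0 hq
    have hs := Real.sqrt_pos.2 hX0
    have hss : √X ^ 2 = X := Real.sq_sqrt hX0.le
    have h1 := NH_one_log n hs hss hL0 (by rw [hss]; exact hL)
    have h2 : √(√X ^ 2 * L) ≤ z * l := by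
      rw [Real.sqrt_le_left (by nlinarith)]
      have : √X ^ 2 ≤ z ^ 2 := pow_le_pow_left₀ hs.le hz 2
      calc √X ^ 2 * L ≤ z ^ 2 * l ^ 2 := mul_le_mul this hl hL0.le (by positivity)
        _ = _ := by ring
    have h3 : √(3.364 * cj 1 (n + 1)) ≤ q := by
      rw [Real.sqrt_le_left hq0]
      linarith
    linarith
  push_cast
  rcases Nat.lt_or_ge n 3 with h3 | h3
  · interval_cases n
    · -- `m = 2`
      have hXv : X = 6 := by rw [hX]; norm_num
      have hlog : Real.log (4 * X) ≤ 3.25 := by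
        rw [hXv, show (4:ℝ) * 6 = 24 by norm_num]
        have h4 : Real.log ((24:ℝ) ^ 4) = 4 * Real.log 24 := by
          rw [Real.log_pow]
          norm_num
        have h5 := log_le_of (x := (24:ℝ) ^ 4) (k := 13) (by norm_num) (by norm_num)
        rw [h4] at h5
        push_cast at h5
        linarith
      have hz : √X ≤ 2.4495 := by
        rw [Real.sqrt_le_left (by norm_num), hXv]
        norm_num
      have := hgen (L := 3.25) (l := 1.803) (z := 2.4495) (q := 5.503) (by norm_num) hlog (by norm_num)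
        (by norm_num) hz (by norm_num) (by norm_num)
      norm_num at this ⊢
      linarith
    · -- `m = 3`
      have hXv : X = 12 := by rw [hX]; norm_num
      have hlog : Real.log (4 * X) ≤ 4 := by
        rw [hXv]
        have h5 := log_le_of (x := (4 * 12)) (k := 4) (by norm_num) (by norm_num)
        push_cast at h5
        linarith
      have hz : √X ≤ 3.4642 := by
        rw [Real.sqrt_le_left (by norm_num), hXv]
        norm_num
      have := hgen (L := 4) (l := 2) (z := 3.4642) (q := 6.511) (by norm_num) hlog (by norm_num)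
        (by norm_num) hz (by norm_num) (by norm_num)
      norm_num at this ⊢
      linarith
  · have hn3 : (3:ℝ) ≤ n := by exact_mod_cast h3
    rcases Nat.lt_or_ge n 12 with h4 | h4
    · have hn12 : (n : ℝ) ≤ 11 := by exact_mod_cast (by omega : n ≤ 11)
      have hlog : Real.log (4 * X) ≤ 7 := by
        have h5 := log_le_of (x := 4 * X) (k := 7) (by positivity) (by
          rw [hX]
          have : 4 * (((n : ℝ) + 1) * (n + 2)) ≤ 4 * ((11 + 1) * (11 + 2)) := by
            have := mul_le_mul (by linarith : (n : ℝ) + 1 ≤ 11 + 1) (by linarith : (n : ℝ) + 2 ≤ 11 + 2)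
              (by positivity) (by norm_num)
            linarith
          refine this.trans (by norm_num))
        push_cast at h5
        exact h5
      have := hgen (L := 7) (l := 2.6458) (z := n + 1.5) (q := 0.6 * n + 6) (by norm_num) hlog (by norm_num)
        (by norm_num) hzle (by positivity) (by nlinarith [sq_nonneg ((n : ℝ) - 6.82)])
      nlinarith
    · have hn12 : (12:ℝ) ≤ n := by exact_mod_cast h4
      rcases Nat.lt_or_ge n 10000 with h5 | h5
      · have hn4 : (n : ℝ) ≤ 9999 := by exact_mod_cast (by omega : n ≤ 9999)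
        have hlog : Real.log (4 * X) ≤ 20 := by
          have h5 := log_le_of (x := 4 * X) (k := 20) (by positivity) (by
            rw [hX]
            have : 4 * (((n : ℝ) + 1) * (n + 2)) ≤ 4 * ((9999 + 1) * (9999 + 2)) := by
              have := mul_le_mul (by linarith : (n : ℝ) + 1 ≤ 9999 + 1) (by linarith : (n : ℝ) + 2 ≤ 9999 + 2)
                (by positivity) (by norm_num)
              linarith
            refine this.trans (by norm_num))
          push_cast at h5
          exact h5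
        have := hgen (L := 20) (l := 4.4722) (z := n + 1.5) (q := 0.5 * n + 6.81) (by norm_num) hlog (by norm_num)
          (by norm_num) hzle (by positivity) (by nlinarith [sq_nonneg ((n : ℝ) - 10.6)])
        nlinarith
      · have hn5 : (10000:ℝ) ≤ n := by exact_mod_cast h5
        set y : ℝ := √(√X) with hy
        have hy2 : y ^ 2 = √X := Real.sq_sqrt (Real.sqrt_nonneg _)
        have hy4 : y ^ 4 = X := by
          have : y ^ 4 = (y ^ 2) ^ 2 := by ring
          rw [this, hy2, Real.sq_sqrt hX0.le]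
        have hy0 : 0 ≤ y := Real.sqrt_nonneg _
        have hy1 : 4 ≤ y := by
          refine le_of_pow_le_pow_left₀ (n := 4) (by norm_num) hy0 ?_
          rw [hy4, hX]
          nlinarith
        have h6 := NH_one n hy1 hy4
        rw [hy2] at h6
        have h7 : √(256 * cj 1 (n + 1)) ≤ n := by
          rw [Real.sqrt_le_left (by positivity)]
          nlinarith
        linarith

end Pool.Agent.Run7.h695.BT
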