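import Pool.Agent.Run7.h695.BT.Ext1
import Pool.Agent.Run7.h695.BT.Band

/-!
# The types above `n` (helper695)
-/

set_option autoImplicit false

open Finset MeasureTheory
open scoped SchwartzMap ComplexConjugate

namespace Pool.Agent.Run7.h695.BT

open Pool.Agent.N892.BW (TS)

lemma GH_single (j : ℤ) (A M : ℤ → ℕ) : GH {j} A M = NH (A j) (M j) := by
  unfold GH gH NH
  refine intervalIntegral.integral_congr fun v _ => ?_
  rw [Finset.sum_singleton, Real.sqrt_sq_eq_abs]

lemma NH_log {a m : ℕ} (ha : 2 ≤ a) {X : ℝ} (hX : 1 ≤ X) (h : (m : ℝ) * (m + a) ≤ X * a) :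
    NH a m ≤ √(1.31 * X * Real.log (128 * X)) := by
  have ha0 : (0:ℝ) < a := by exact_mod_cast (by omega : 0 < a)
  have h1 := GH_le (S := {(0:ℤ)}) (A := fun _ => a) (M := fun _ => m) (lo := (a : ℝ)) (hi := (a : ℝ)) hX ha0
    le_rfl (fun _ _ => ha) (fun _ _ => le_rfl) (fun _ _ => le_rfl) (fun _ _ => h)
  rw [GH_single] at h1
  refine h1.trans (Real.sqrt_le_sqrt (le_of_eq ?_))
  rw [Finset.card_singleton, mul_div_assoc, div_self ha0.ne']
  norm_num

theorem NH_two_all {N m a : ℕ} (hN : 1 ≤ N) (hm : 1 ≤ m) (ha : 2 ≤ a) (hmN : m ≤ N) (hNm : N ≤ m + a) :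
    NH a m ≤ 6.7 * N - 0.33 := by
  have hN' : (1:ℝ) ≤ N := by exact_mod_cast hN
  have hm' : (1:ℝ) ≤ m := by exact_mod_cast hm
  have ha' : (2:ℝ) ≤ a := by exact_mod_cast ha
  have hmN' : (m:ℝ) ≤ N := by exact_mod_cast hmN
  have hNm' : (N:ℝ) ≤ m + a := by exact_mod_cast hNm
  have ha0 : (0:ℝ) < a := by linarith
  set X : ℝ := (N : ℝ) ^ 2 / a + N with hX
  have hXa : X * a = N * (N + a) := by
    rw [hX]
    field_simp
  have hX1 : 1 ≤ X := by
    have : 0 ≤ (N : ℝ) ^ 2 / a := by positivity
    rw [hX]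
    linarith
  have hmX : (m : ℝ) * (m + a) ≤ X * a := by
    rw [hXa]
    exact mul_le_mul hmN' (by linarith) (by linarith) (by linarith)
  have hX2 : X ≤ (N : ℝ) ^ 2 / 2 + N := by
    rw [hX]
    have : (N : ℝ) ^ 2 / a ≤ (N : ℝ) ^ 2 / 2 := div_le_div_of_nonneg_left (by positivity) (by norm_num) ha'
    linarith
  have hfin : ∀ L : ℝ, Real.log (128 * X) ≤ L → 1.31 * X * L ≤ (6.7 * N - 0.33) ^ 2 → NH a m ≤ 6.7 * N - 0.33 := by
    intro L h1 h2
    refine (NH_log ha hX1 hmX).trans ?_
    rw [Real.sqrt_le_left (by linarith)]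
    refine le_trans ?_ h2
    exact mul_le_mul_of_nonneg_left h1 (by linarith)
  rcases Nat.lt_or_ge 1 N with h1 | h1
  · have hN2 : (2:ℝ) ≤ N := by exact_mod_cast h1
    rcases Nat.lt_or_ge N 10001 with h2 | h2
    · have hN4 : (N:ℝ) ≤ 10000 := by exact_mod_cast (by omega : N ≤ 10000)
      have hlog : Real.log (128 * X) ≤ 23 := by
        have h5 := log_le_of (x := 128 * X) (k := 23) (by linarith) (by
          have h6 : (N : ℝ) ^ 2 ≤ 10000 ^ 2 := pow_le_pow_left₀ (by linarith) hN4 2
          have : 128 * X ≤ 128 * (10000 ^ 2 / 2 + 10000) := by linarith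
          refine this.trans (by norm_num))
        push_cast at h5
        exact h5
      refine hfin 23 hlog ?_
      nlinarith
    · have hN4 : (10001:ℝ) ≤ N := by exact_mod_cast h2
      set r : ℝ := √N with hr
      have hr2 : r ^ 2 = N := Real.sq_sqrt (by linarith)
      have hr0 : 0 ≤ r := Real.sqrt_nonneg _
      have hr1 : 100 ≤ r := by
        refine le_of_pow_le_pow_left₀ (n := 2) (by norm_num) hr0 ?_
        rw [hr2]
        linarith
      rcases Nat.lt_or_ge N (1000 * a) with h3 | h3
      · have h3' : (N : ℝ) ≤ 1000 * a := by exact_mod_cast h3.le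
        have hX3 : X ≤ 1001 * N := by
          have : (N : ℝ) ^ 2 / a ≤ 1000 * N := by
            rw [div_le_iff₀ ha0]
            nlinarith
          rw [hX]
          linarith
        have hlog : Real.log (128 * X) ≤ 10 + 2 * r := by
          have h4 : Real.log (128 * X) ≤ Real.log (128128 * N) :=
            Real.log_le_log (by linarith) (by linarith)
          have h5 := log_le_of (x := 128128) (k := 12) (by norm_num) (by norm_num)
          have h6 : Real.log N ≤ 2 * (r - 1) := by
            rw [← hr2, Real.log_pow]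
            have := Real.log_le_sub_one_of_pos (by linarith : 0 < r)
            push_cast
            linarith
          have h7 : Real.log (128128 * (N : ℝ)) = Real.log 128128 + Real.log N :=
            Real.log_mul (by norm_num) (by linarith)
          rw [h7] at h4
          push_cast at h5
          linarith
        refine hfin _ hlog ?_
        have h7 : 1.31 * X * (10 + 2 * r) ≤ 1.31 * (1001 * N) * (10 + 2 * r) :=
          mul_le_mul_of_nonneg_right (by linarith) (by linarith)
        refine h7.trans ?_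
        rw [← hr2]
        have h8 : 1311.31 * (10 + 2 * r) + 4.422 ≤ 44.89 * r ^ 2 := by nlinarith
        nlinarith [mul_le_mul_of_nonneg_left h8 (sq_nonneg r)]
      · have h3' : 1000 * (a : ℝ) ≤ N := by exact_mod_cast h3
        obtain ⟨n, rfl⟩ : ∃ n, m = n + 1 := ⟨m - 1, by omega⟩
        obtain ⟨b, rfl⟩ : ∃ b, a = b + 2 := ⟨a - 2, by omega⟩
        push_cast at ha' hm' hmN' hNm' h3' hmX hXa ha0
        set Z : ℝ := ((n : ℝ) + 1) * (n + 1 + (b + 2)) / (b + 2) with hZ
        have hb0 : (0:ℝ) ≤ b := Nat.cast_nonneg b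
        have hZb : ((b : ℝ) + 2) * Z = ((n : ℝ) + 1) * (n + 1 + (b + 2)) := by
          rw [hZ]
          field_simp
        have hmm1 : 0.999 * (N : ℝ) ^ 2 ≤ ((n : ℝ) + 1) * (n + 1 + (b + 2)) := by
          have h4 : 0.999 * (N : ℝ) ≤ n + 1 := by linarith
          calc 0.999 * (N : ℝ) ^ 2 = (0.999 * N) * N := by ring
            _ ≤ _ := mul_le_mul h4 hNm' (by linarith) (by linarith)
        have hmm2 : ((n : ℝ) + 1) * (n + 1 + (b + 2)) ≤ 1.001 * (N : ℝ) ^ 2 := by
          calc ((n : ℝ) + 1) * (n + 1 + (b + 2)) ≤ N * (1.001 * N) :=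
                mul_le_mul hmN' (by linarith) (by linarith) (by linarith)
            _ = _ := by ring
        have hZ1 : 1000 * ((b : ℝ) + 2) ≤ Z := by
          rw [hZ, le_div_iff₀ (by positivity)]
          refine le_trans ?_ hmm1
          have h5 : ((b : ℝ) + 2) * (b + 2) ≤ (0.001 * N) * (0.001 * N) :=
            mul_le_mul (by linarith) (by linarith) (by linarith) (by linarith)
          have e : (0.001 * (N : ℝ)) * (0.001 * N) = 0.000001 * (N : ℝ) ^ 2 := by ring
          rw [e] at h5
          have hN20 : 0 ≤ (N : ℝ) ^ 2 := by positivity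
          linarith
        have hZ2 : Z ≤ 0.5005 * (N : ℝ) ^ 2 := by
          rw [hZ, div_le_iff₀ (by positivity)]
          refine hmm2.trans ?_
          have h5 : 0 ≤ (N : ℝ) ^ 2 * b := by positivity
          have e : 0.5005 * (N : ℝ) ^ 2 * (b + 2) = 0.5005 * ((N : ℝ) ^ 2 * b) + 1.001 * (N : ℝ) ^ 2 := by ring
          rw [e]
          linarith
        have hZ0 : 0 < Z := by linarith
        set y : ℝ := √(√Z) with hy
        have hy2 : y ^ 2 = √Z := Real.sq_sqrt (Real.sqrt_nonneg _)
        have hy4 : y ^ 4 = Z := by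
          have : y ^ 4 = (y ^ 2) ^ 2 := by ring
          rw [this, hy2, Real.sq_sqrt hZ0.le]
        have hy0 : 0 ≤ y := Real.sqrt_nonneg _
        have hy1 : 1 < y := by
          refine lt_of_pow_lt_pow_left₀ 4 hy0 ?_
          rw [hy4, one_pow]
          linarith
        have h6 := NH_two b n hy1 (by rw [hy4, hZb]) (by rw [hy4]; exact hZ1)
        rw [hy2] at h6
        have hN20 : 0 ≤ (N : ℝ) ^ 2 := by positivity
        have h7 : √Z ≤ 0.71 * N := by
          rw [Real.sqrt_le_left (by positivity)]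
          have e : (0.71 * (N : ℝ)) ^ 2 = 0.5041 * (N : ℝ) ^ 2 := by ring
          rw [e]
          linarith
        have h8 : √(9.18 * (((n : ℝ) + 1) * (n + 1 + (b + 2)))) ≤ 3.04 * N := by
          rw [Real.sqrt_le_left (by positivity)]
          have e : (3.04 * (N : ℝ)) ^ 2 = 9.2416 * (N : ℝ) ^ 2 := by ring
          rw [e]
          linarith
        have h9 : √(256 * cj (b + 2) (n + 1)) ≤ N := by
          rw [Real.sqrt_le_left (by positivity)]
          have h10 := cj_le (a := b + 2) (m := n + 1) (by omega) (by omega)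
          push_cast at h10
          have e : 10001 * (N : ℝ) ≤ (N : ℝ) ^ 2 := by
            rw [sq]
            exact mul_le_mul_of_nonneg_right hN4 (by linarith)
          linarith
        linarith
  · have h2 : N = 1 := by omega
    subst h2
    have hX3 : X ≤ 1.5 := by
      push_cast at hX2
      linarith
    have hlog : Real.log (128 * X) ≤ 6 := by
      have h5 := log_le_of (x := 128 * X) (k := 6) (by linarith) (by
        have : 128 * X ≤ 192 := by linarith
        refine this.trans (by norm_num))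
      push_cast at h5
      exact h5
    refine hfin 6 hlog ?_
    push_cast
    norm_num
    linarith

/-- one type `j > n`, `j ≠ 2 n` -/
theorem ext_type {n : ℕ} (hn : 1 ≤ n) {j : ℤ} (hj : n < j) (hj2 : j ≠ 2 * n) :
    NH (An n j) (Mn n j) ≤ 6.7 * n - 0.33 := by
  have hA : An n j = (2 * n - j).natAbs := by
    unfold An
    rw [if_neg (by omega)]
  have hM : Mn n j = (n - max (2 * n - j) 0).toNat := by
    unfold Mn
    rw [if_neg (by omega)]
  have hA1 : 1 ≤ An n j := by rw [hA]; omega
  have hM1 : 1 ≤ Mn n j := by rw [hM]; omega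
  have hMn : Mn n j ≤ n := by rw [hM]; omega
  have hnM : n ≤ Mn n j + An n j := by rw [hM, hA]; omega
  rcases Nat.lt_or_ge 1 (An n j) with h | h
  · exact NH_two_all hn hM1 h hMn hnM
  · have h1 : An n j = 1 := by omega
    rw [h1]
    refine (NH_one_all hM1).trans ?_
    have : (Mn n j : ℝ) ≤ n := by exact_mod_cast hMn
    linarith

/-- **All single types but one.** -/
theorem single {n : ℕ} (hn : 1 ≤ n) {j : ℤ} (hj2 : j ≠ 2 * n) {f : 𝓢(ℂ, ℂ)} (hf : Ty j f) {p : ℝ} (hp : 2 ≤ p) :
    eLpNorm (TS n f) (ENNReal.ofReal p) volume ≤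
      ENNReal.ofReal ((6.7 * n + 0.67) ^ (1 - 2 / p)) *
        eLpNorm (fun z : ℂ => f z) (ENNReal.ofReal p) volume := by
  have hp0 : 0 < p := by linarith
  have he : 0 ≤ 1 - 2 / p := by
    rw [sub_nonneg, div_le_one hp0]; exact hp
  rcases le_or_gt j n with h | h
  · refine (low_type h hf hp).trans ?_
    refine mul_le_mul_left (ENNReal.ofReal_le_ofReal (Real.rpow_le_rpow (Cc_nonneg _) ?_ he)) _
    refine (Cc_le (n := n) (by omega)).trans ?_
    have : (1:ℝ) ≤ n := by exact_mod_cast hn
    linarith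
  · have e1 : (({j} : Finset ℤ).filter fun j => j ≤ (n : ℤ)) = ∅ := by
      refine Finset.filter_false_of_mem fun i hi => ?_
      rw [Finset.mem_singleton.1 hi]
      omega
    have e2 : (({j} : Finset ℤ).filter fun j => (n : ℤ) < j) = {j} := by
      refine Finset.filter_true_of_mem fun i hi => ?_
      rw [Finset.mem_singleton.1 hi]
      exact h
    have h1 := totalW (n := n) (S := {j}) (g := fun _ => f) (C := 6.7 * n + 0.67) (fun i hi _ => by
      rw [Finset.mem_singleton.1 hi]
      omega) (fun i hi => by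
      rw [Finset.mem_singleton.1 hi]
      exact hf) hp (by
      rw [e1, e2, GH_single]
      have h2 : GB ∅ (An n) (Mn n) = 0 := by
        unfold GB gS
        simp
      rw [h2]
      have := ext_type hn h hj2
      linarith)
    rw [Finset.sum_singleton] at h1
    exact h1

end Pool.Agent.Run7.h695.BT
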