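import Pool.Agent.Run7.h695.BT.ExtR

/-!
# The size of the kernel of the transposed operator (helper695)
-/

set_option autoImplicit false

open Finset MeasureTheory

namespace Pool.Agent.Run7.h695.BT

lemma young4 {s x : ℝ} (hs : 0 ≤ s) (h0 : 0 ≤ x) (h1 : x ≤ 1) : 4 * s * x ^ 3 ≤ s ^ 4 + 3 * x := by
  have h2 : x ^ 3 ≤ x := by
    have : x ^ 2 ≤ 1 := pow_le_one₀ h0 h1
    nlinarith
  have h3 : 4 * s * x ^ 3 ≤ 4 * s * x := mul_le_mul_of_nonneg_left h2 (by linarith)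
  have h4 : 0 ≤ (s - 1) ^ 2 * (s ^ 2 + 2 * s + 3) := by positivity
  rcases le_total s (3 / 4) with h | h
  · have h5 : 0 ≤ x * (3 - 4 * s) := mul_nonneg h0 (by linarith)
    have : 0 ≤ s ^ 4 := by positivity
    nlinarith
  · have h5 : (1 - x) * (4 * s - 3) ≥ 0 := mul_nonneg (by linarith) (by linarith)
    nlinarith

lemma BV2 (b n : ℕ) {l : ℝ} (hl : 0 < l) : BV (b + 1) (n + 1) ≤
    l ^ 3 / 4 * (((n : ℝ) + 1) * (n + 1 + (b + 2)) / (b + 2)) + 3 / (4 * l) *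
      (2 * ((n : ℝ) + 1) ^ 2 * ((n : ℝ) + 1 + (b + 2)) ^ 2 / ((b + 1) * (b + 2) * (b + 3))) := by
  have hf0 := f0_cont (b + 2) (n + 1)
  have h1 := E1_eq (b + 1) n
  have h2 := E2_eq b (n + 1) (by omega)
  rw [cv (by fun_prop)] at h1
  rw [cv (by fun_prop)] at h2
  push_cast at h1 h2
  have e1 : ((b : ℝ) + 1 + 1) = b + 2 := by ring
  rw [e1] at h1
  rw [← h1, ← h2, ← intervalIntegral.integral_const_mul, ← intervalIntegral.integral_const_mul,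
    ← intervalIntegral.integral_add]
  · unfold BV
    refine intervalIntegral.integral_mono_on zero_le_one
      ((by fun_prop : Continuous fun t : ℝ => 4 * t ^ (4 * (b + 1)) * f0 (b + 1 + 1) (n + 1) (t ^ 4) ^ 2 *
        (1 - t ^ 4) ^ 4).intervalIntegrable _ _) (Continuous.intervalIntegrable (by fun_prop) _ _) fun t ht => ?_
    have ht0 := ht.1
    have hx0 : 0 ≤ 1 - t ^ 4 := by
      have := pow_le_one₀ ht.1 ht.2 (n := 4)
      linarith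
    have hx1 : 1 - t ^ 4 ≤ 1 := by
      have : 0 ≤ t ^ 4 := by positivity
      linarith
    have hy := young4 (s := l * t) (by positivity) hx0 hx1
    set K : ℝ := f0 (b + 2) (n + 1) (t ^ 4) with hK
    have e2 : (t ^ 2) ^ 2 = t ^ 4 := by ring
    rw [e2, show b + 1 + 1 = b + 2 by ring, ← hK]
    have h3 : 0 ≤ t ^ (4 * b + 3) * K ^ 2 * (1 - t ^ 4) / l := by positivity
    have h4 := mul_le_mul_of_nonneg_left hy h3
    have e3 : t ^ (4 * b + 3) * K ^ 2 * (1 - t ^ 4) / l * (4 * (l * t) * (1 - t ^ 4) ^ 3) =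
        4 * t ^ (4 * (b + 1)) * K ^ 2 * (1 - t ^ 4) ^ 4 := by
      field_simp
      ring
    have e4 : t ^ (4 * b + 3) * K ^ 2 * (1 - t ^ 4) / l * ((l * t) ^ 4 + 3 * (1 - t ^ 4)) =
        l ^ 3 / 4 * (2 * (t ^ 2) ^ (2 * (b + 1) + 1) * K ^ 2 * (1 - t ^ 4) * (2 * t)) +
        3 / (4 * l) * (2 * (t ^ 2) ^ (2 * b + 1) * K ^ 2 * (1 - t ^ 4) ^ 2 * (2 * t)) := by
      have e5 : (t ^ 2) ^ (2 * (b + 1) + 1) = t ^ (4 * b + 3) * t ^ 3 := by
        rw [← pow_mul, ← pow_add]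
        congr 1
        ring
      have e6 : (t ^ 2) ^ (2 * b + 1) * t = t ^ (4 * b + 3) := by
        rw [← pow_mul, ← pow_succ]
        congr 1
        ring
      rw [e5]
      have e7 : 2 * (t ^ 2) ^ (2 * b + 1) * K ^ 2 * (1 - t ^ 4) ^ 2 * (2 * t) =
          4 * ((t ^ 2) ^ (2 * b + 1) * t) * K ^ 2 * (1 - t ^ 4) ^ 2 := by ring
      rw [e7, e6]
      field_simp
      ring
    rw [e3, e4] at h4
    exact h4
  · exact Continuous.intervalIntegrable (by fun_prop) _ _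
  · exact Continuous.intervalIntegrable (by fun_prop) _ _

lemma BV1 (n : ℕ) {δ : ℝ} (hδ : 0 < δ) (hδ1 : δ ^ 4 ≤ 1 / 2) : BV 0 (n + 1) ≤
    4 * δ * (((n : ℝ) + 1) * (n + 2)) ^ 2 + (((n : ℝ) + 1) * (n + 2)) / δ ^ 3 := by
  have hf0 := f0_cont 1 (n + 1)
  have h1 := E1_eq 0 n
  rw [cv (by fun_prop)] at h1
  set X : ℝ := ((n : ℝ) + 1) * (n + 2) with hX
  have hδ2 : δ ≤ 1 := by
    by_contra h
    rw [not_le] at h
    have : 1 < δ ^ 4 := one_lt_pow₀ h (by norm_num)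
    linarith
  have c0 : Continuous fun t : ℝ => 4 * t ^ (4 * 0) * f0 (0 + 1) (n + 1) (t ^ 4) ^ 2 * (1 - t ^ 4) ^ 4 := by
    fun_prop
  have c1 : Continuous fun t : ℝ => 2 * (t ^ 2) ^ (2 * 0 + 1) * f0 (0 + 1) (n + 1) ((t ^ 2) ^ 2) ^ 2 *
      (1 - (t ^ 2) ^ 2) * (2 * t) := by fun_prop
  unfold BV
  rw [← intervalIntegral.integral_add_adjacent_intervals (c0.intervalIntegrable 0 δ)
    (c0.intervalIntegrable δ 1)]
  have h2 : ∫ t in (0:ℝ)..δ, 4 * t ^ (4 * 0) * f0 (0 + 1) (n + 1) (t ^ 4) ^ 2 * (1 - t ^ 4) ^ 4 ≤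
      ∫ t in (0:ℝ)..δ, 4 * X ^ 2 := by
    refine intervalIntegral.integral_mono_on hδ.le (c0.intervalIntegrable _ _)
      (continuous_const.intervalIntegrable _ _) fun t ht => ?_
    have h3 : t ^ 4 ≤ 1 / 2 := (pow_le_pow_left₀ ht.1 ht.2 4).trans hδ1
    have h4 := sonin n (by have := ht.1; positivity : 0 ≤ t ^ 4) h3
    have h5 : f0 1 (n + 1) (t ^ 4) ^ 2 ≤ X ^ 2 := by
      rw [← sq_abs]
      exact pow_le_pow_left₀ (abs_nonneg _) h4 2
    have h6 : (1 - t ^ 4) ^ 4 ≤ 1 := pow_le_one₀ (by linarith) (by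
      have := ht.1
      have : 0 ≤ t ^ 4 := by positivity
      linarith)
    rw [mul_zero, pow_zero, mul_one, zero_add]
    calc 4 * f0 1 (n + 1) (t ^ 4) ^ 2 * (1 - t ^ 4) ^ 4 ≤ 4 * f0 1 (n + 1) (t ^ 4) ^ 2 * 1 :=
          mul_le_mul_of_nonneg_left h6 (by positivity)
      _ ≤ _ := by linarith
  have h3 : ∫ t in δ..1, 4 * t ^ (4 * 0) * f0 (0 + 1) (n + 1) (t ^ 4) ^ 2 * (1 - t ^ 4) ^ 4 ≤
      ∫ t in δ..1, 1 / δ ^ 3 * (2 * (t ^ 2) ^ (2 * 0 + 1) * f0 (0 + 1) (n + 1) ((t ^ 2) ^ 2) ^ 2 *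
      (1 - (t ^ 2) ^ 2) * (2 * t)) := by
    refine intervalIntegral.integral_mono_on hδ2 (c0.intervalIntegrable _ _)
      ((continuous_const.mul c1).intervalIntegrable _ _) fun t ht => ?_
    have ht0 : 0 < t := hδ.trans_le ht.1
    have hx0 : 0 ≤ 1 - t ^ 4 := by
      have := pow_le_one₀ ht0.le ht.2 (n := 4)
      linarith
    have hx1 : 1 - t ^ 4 ≤ 1 := by
      have : 0 ≤ t ^ 4 := by positivity
      linarith
    have h4 : (1 - t ^ 4) ^ 4 ≤ 1 - t ^ 4 := by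
      have : (1 - t ^ 4) ^ 3 ≤ 1 := pow_le_one₀ hx0 hx1
      nlinarith
    have h5 : 1 ≤ t ^ 3 / δ ^ 3 := by
      rw [le_div_iff₀ (by positivity), one_mul]
      exact pow_le_pow_left₀ hδ.le ht.1 3
    have e2 : (t ^ 2) ^ 2 = t ^ 4 := by ring
    rw [e2]
    set K : ℝ := f0 (0 + 1) (n + 1) (t ^ 4) with hK
    have e3 : 1 / δ ^ 3 * (2 * (t ^ 2) ^ (2 * 0 + 1) * K ^ 2 * (1 - t ^ 4) * (2 * t)) =
        (4 * K ^ 2 * (1 - t ^ 4)) * (t ^ 3 / δ ^ 3) := by ring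
    rw [e3, mul_zero, pow_zero, mul_one]
    calc 4 * K ^ 2 * (1 - t ^ 4) ^ 4 ≤ 4 * K ^ 2 * (1 - t ^ 4) := mul_le_mul_of_nonneg_left h4 (by positivity)
      _ ≤ _ := le_mul_of_one_le_right (by positivity) h5
  rw [intervalIntegral.integral_const, sub_zero, smul_eq_mul] at h2
  rw [intervalIntegral.integral_const_mul] at h3
  have h4 : ∫ t in δ..1, 2 * (t ^ 2) ^ (2 * 0 + 1) * f0 (0 + 1) (n + 1) ((t ^ 2) ^ 2) ^ 2 *
      (1 - (t ^ 2) ^ 2) * (2 * t) ≤ X := by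
    refine (sub_int c1 (fun t ht h1 => ?_) hδ.le hδ2 le_rfl).trans (le_of_eq ?_)
    · have hx0 : 0 ≤ 1 - (t ^ 2) ^ 2 := by
        have := pow_le_one₀ ht h1 (n := 4)
        have e2 : (t ^ 2) ^ 2 = t ^ 4 := by ring
        rw [e2]
        linarith
      positivity
    · rw [h1, hX]
      push_cast
      ring
  have h5 : 1 / δ ^ 3 * (∫ t in δ..1, 2 * (t ^ 2) ^ (2 * 0 + 1) * f0 (0 + 1) (n + 1) ((t ^ 2) ^ 2) ^ 2 *
      (1 - (t ^ 2) ^ 2) * (2 * t)) ≤ 1 / δ ^ 3 * X := mul_le_mul_of_nonneg_left h4 (by positivity)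
  have h6 : 1 / δ ^ 3 * X = X / δ ^ 3 := by ring
  linarith

/-- the size of the kernel -/
noncomputable def NH (a m : ℕ) : ℝ := ∫ v in (0:ℝ)..1, |kh a m v|

lemma cj_pos {a m : ℕ} (hR : 0 < 2 * m + a) : 0 < cj a m := by
  have h1 : (1:ℝ) ≤ 2 * m + a := by exact_mod_cast hR
  unfold cj
  have h2 : 0 ≤ (m : ℝ) * (m + a) * (2 * m + a) / ((2 * (m : ℝ) + a) ^ 2 - 1) := by
    refine div_nonneg (by positivity) ?_
    nlinarith
  nlinarith

lemma NH_split (a m : ℕ) {s : ℝ} : NH a m =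
    (∫ v in (0:ℝ)..s, |kh a m v|) + (∫ v in s..(1 / 4), |kh a m v|) + ∫ v in (1/4 : ℝ)..1, |kh a m v| := by
  have h := (kh_cont a m).abs
  unfold NH
  rw [intervalIntegral.integral_add_adjacent_intervals (h.intervalIntegrable _ _) (h.intervalIntegrable _ _),
      intervalIntegral.integral_add_adjacent_intervals (h.intervalIntegrable _ _) (h.intervalIntegrable _ _)]

lemma reg3' {a m : ℕ} (ha : 1 ≤ a) (hR : 0 < 2 * m + a) :
    ∫ v in (1 / 4 : ℝ)..1, |kh a m v| ≤ √(256 * cj a m) := by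
  have h := reg3 ha hR (v0 := 1 / 4) (κ := 1) (by norm_num) (by norm_num)
    (Real.rpow_le_one (by norm_num) (by norm_num) (by norm_num))
  refine h.trans (Real.sqrt_le_sqrt (le_of_eq ?_))
  ring

/-- `a = 1`, without logarithm -/
theorem NH_one (n : ℕ) {y : ℝ} (hy : 4 ≤ y) (hX : y ^ 4 = ((n : ℝ) + 1) * (n + 2)) :
    NH 1 (n + 1) ≤ 4.52 * y ^ 2 + √(256 * cj 1 (n + 1)) := by
  have hy0 : 0 < y := by linarith
  have hB := BV1 n (δ := 1 / y) (by positivity) (by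
    rw [div_pow, one_pow, div_le_iff₀ (by positivity)]
    have : (4:ℝ) ^ 4 ≤ y ^ 4 := pow_le_pow_left₀ (by norm_num) hy 4
    norm_num at this
    linarith)
  rw [← hX] at hB
  have hB' : BV 0 (n + 1) ≤ 5 * y ^ 7 := by
    refine hB.trans (le_of_eq ?_)
    field_simp
    ring
  have hV := vir 0 n
  push_cast at hV
  have e1 : 1 / 2 * (((n : ℝ) + 1) * (n + 1 + (0 + 1)) - 1) - (0 + 1) ^ 2 + 15 / 16 = 1 / 2 * y ^ 4 - 9 / 16 := by
    rw [hX]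
    ring
  rw [e1] at hV
  have hy4 : (256 : ℝ) ≤ y ^ 4 := by
    have : (4:ℝ) ^ 4 ≤ y ^ 4 := pow_le_pow_left₀ (by norm_num) hy 4
    norm_num at this
    linarith
  have hA : AV 0 (n + 1) ≤ 1.65 * y ^ 3 := by
    have h1 : (1 / 2 * y ^ 4 - 9 / 16) * AV 0 (n + 1) ≤ (1 / 2 * y ^ 4 - 9 / 16) * (1.65 * y ^ 3) := by
      have h2 : (1 / 2 * y ^ 4 - 9 / 16) * (1.65 * y ^ 3) = 0.825 * (y ^ 4 * y ^ 3) - 0.928125 * y ^ 3 := by ring
      have h3 : y ^ 7 = y ^ 4 * y ^ 3 := by ring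
      have h4 : 256 * y ^ 3 ≤ y ^ 4 * y ^ 3 := mul_le_mul_of_nonneg_right hy4 (by positivity)
      rw [h2]
      rw [h3] at hB'
      nlinarith
    exact le_of_mul_le_mul_left h1 (by linarith)
  have r1 := reg1 n (s0 := 1 / (4 * y ^ 2)) (by positivity) (by
    rw [div_pow, one_pow, div_le_iff₀ (by positivity)]
    nlinarith)
  rw [← hX] at r1
  have r1' : 2 * (1 / (4 * y ^ 2)) * y ^ 4 = 0.5 * y ^ 2 := by
    field_simp
    ring
  rw [r1'] at r1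
  have r2 := reg2 0 (n + 1) (t0 := 1 / (2 * y)) (A := 1.65 * y ^ 3) (by positivity) (by
    rw [div_lt_div_iff₀ (by positivity) (by norm_num)]
    linarith) (by positivity) hA
  have e2 : ((1 : ℝ) / (2 * y)) ^ 2 = 1 / (4 * y ^ 2) := by
    rw [div_pow, mul_pow]
    norm_num
  rw [e2] at r2
  have r2' : √(1.65 * y ^ 3 * (4.88 / (1 / (2 * y)))) ≤ 4.02 * y ^ 2 := by
    rw [Real.sqrt_le_left (by positivity)]
    have e3 : 1.65 * y ^ 3 * (4.88 / (1 / (2 * y))) = 16.104 * y ^ 4 := by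
      field_simp
      ring
    rw [e3]
    have : 0 < y ^ 4 := by positivity
    nlinarith
  have r3 := reg3' (a := 1) (m := n + 1) le_rfl (by omega)
  rw [NH_split 1 (n + 1) (s := 1 / (4 * y ^ 2))]
  have r2'' := r2.trans r2'
  rw [zero_add] at r2''
  linarith

/-- `a ≥ 2`, without logarithm -/
theorem NH_two (b n : ℕ) {y : ℝ} (hy : 1 < y) (hX : (b + 2) * y ^ 4 = ((n : ℝ) + 1) * (n + 1 + (b + 2)))
    (hb : 1000 * ((b : ℝ) + 2) ≤ y ^ 4) :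
    NH (b + 2) (n + 1) ≤ 0.31 * y ^ 2 + √(9.18 * (((n : ℝ) + 1) * (n + 1 + (b + 2)))) +
      √(256 * cj (b + 2) (n + 1)) := by
  have hy0 : 0 < y := by linarith
  have hb0 : (0:ℝ) ≤ b := Nat.cast_nonneg b
  have hE1 : ((n : ℝ) + 1) * (n + 1 + (b + 2)) / (b + 2) = y ^ 4 := by
    rw [← hX]
    field_simp
  have hE2 : 2 * ((n : ℝ) + 1) ^ 2 * ((n : ℝ) + 1 + (b + 2)) ^ 2 / ((b + 1) * (b + 2) * (b + 3)) ≤
      4 / 3 * y ^ 8 := by
    have e : 2 * ((n : ℝ) + 1) ^ 2 * ((n : ℝ) + 1 + (b + 2)) ^ 2 = 2 * ((b + 2) * y ^ 4) ^ 2 := by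
      rw [hX]
      ring
    rw [e, div_le_iff₀ (by positivity)]
    have h1 : 0 ≤ y ^ 8 * ((b + 2) * ((2 / 3 : ℝ) * (2 * b ^ 2 + 8 * b + 6) - 2 * (b + 2))) := by
      refine mul_nonneg (by positivity) (mul_nonneg (by positivity) ?_)
      nlinarith
    nlinarith [h1]
  have hB := BV2 b n (l := y) hy0
  rw [hE1] at hB
  have hB' : BV (b + 1) (n + 1) ≤ 1.25 * y ^ 7 := by
    have h1 : 3 / (4 * y) * (2 * ((n : ℝ) + 1) ^ 2 * ((n : ℝ) + 1 + (b + 2)) ^ 2 / ((b + 1) * (b + 2) * (b + 3))) ≤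
        3 / (4 * y) * (4 / 3 * y ^ 8) := mul_le_mul_of_nonneg_left hE2 (by positivity)
    have h2 : 3 / (4 * y) * (4 / 3 * y ^ 8) = y ^ 7 := by
      field_simp
    have h3 : y ^ 3 / 4 * y ^ 4 = 0.25 * y ^ 7 := by ring
    linarith
  have hV := vir (b + 1) n
  push_cast at hV
  have e1 : ((b : ℝ) + 1 + 1) = b + 2 := by ring
  rw [e1, ← hX] at hV
  have hA : AV (b + 1) (n + 1) ≤ 0.94 * ((b + 2) * y ^ 3) := by
    have hc : 0.499 * ((b + 2) * y ^ 4) ≤ 1 / 2 * ((b + 2) * y ^ 4 - 1) - ((b : ℝ) + 2) ^ 2 + 15 / 16 := by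
      nlinarith
    have hc0 : 0 < 0.499 * (((b : ℝ) + 2) * y ^ 4) := by positivity
    have h1 : (1 / 2 * ((b + 2) * y ^ 4 - 1) - ((b : ℝ) + 2) ^ 2 + 15 / 16) * AV (b + 1) (n + 1) ≤
        (1 / 2 * ((b + 2) * y ^ 4 - 1) - ((b : ℝ) + 2) ^ 2 + 15 / 16) * (0.94 * ((b + 2) * y ^ 3)) := by
      refine hV.trans ?_
      have h2 : 3 / 8 * (((b : ℝ) + 2) ^ 2 - 9 / 16) * BV (b + 1) (n + 1) ≤
          3 / 8 * ((b : ℝ) + 2) ^ 2 * (1.25 * y ^ 7) := by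
        refine (mul_le_mul_of_nonneg_left hB' (by nlinarith)).trans ?_
        exact mul_le_mul_of_nonneg_right (by nlinarith) (by positivity)
      have h3 : 0.499 * ((b + 2) * y ^ 4) * (0.94 * ((b + 2) * y ^ 3)) ≤
          (1 / 2 * ((b + 2) * y ^ 4 - 1) - ((b : ℝ) + 2) ^ 2 + 15 / 16) * (0.94 * ((b + 2) * y ^ 3)) :=
        mul_le_mul_of_nonneg_right hc (by positivity)
      have h4 : 3 / 8 * ((b : ℝ) + 2) ^ 2 * (1.25 * y ^ 7) ≤
          0.499 * ((b + 2) * y ^ 4) * (0.94 * ((b + 2) * y ^ 3)) := by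
        have : 0 ≤ ((b : ℝ) + 2) ^ 2 * y ^ 7 := by positivity
        nlinarith
      linarith
    exact le_of_mul_le_mul_left h1 (by linarith)
  have hs1 : 1 / (4 * y ^ 2) ≤ 1 / 4 := by
    rw [div_le_div_iff₀ (by positivity) (by norm_num)]
    nlinarith
  have r1 := reg1' b (n + 1) (s0 := 1 / (4 * y ^ 2)) (P := 4 / 3 * y ^ 8) (by positivity) hs1 (by positivity)
    (by
      rw [E2_eq b (n + 1) (by omega)]
      push_cast
      exact hE2)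
  have r1' : √(4 / 3 * y ^ 8 * (1.14 * (1 / (4 * y ^ 2)) ^ 2)) ≤ 0.31 * y ^ 2 := by
    rw [Real.sqrt_le_left (by positivity)]
    have e3 : 4 / 3 * y ^ 8 * (1.14 * (1 / (4 * y ^ 2)) ^ 2) = 0.095 * y ^ 4 := by
      field_simp
      ring
    rw [e3]
    have : 0 < y ^ 4 := by positivity
    nlinarith
  have r2 := reg2 (b + 1) (n + 1) (t0 := 1 / (2 * y)) (A := 0.94 * ((b + 2) * y ^ 3)) (by positivity) (by
    rw [div_lt_div_iff₀ (by positivity) (by norm_num)]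
    linarith) (by positivity) hA
  have e2 : ((1 : ℝ) / (2 * y)) ^ 2 = 1 / (4 * y ^ 2) := by
    rw [div_pow, mul_pow]
    norm_num
  rw [e2] at r2
  have r2' : √(0.94 * ((b + 2) * y ^ 3) * (4.88 / (1 / (2 * y)))) ≤
      √(9.18 * (((n : ℝ) + 1) * (n + 1 + (b + 2)))) := by
    refine Real.sqrt_le_sqrt ?_
    rw [← hX]
    have e3 : 0.94 * (((b : ℝ) + 2) * y ^ 3) * (4.88 / (1 / (2 * y))) = 9.1744 * ((b + 2) * y ^ 4) := by
      field_simp
      ring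
    rw [e3]
    have : 0 < ((b : ℝ) + 2) * y ^ 4 := by positivity
    nlinarith
  have r3 := reg3' (a := b + 2) (m := n + 1) (by omega) (by omega)
  rw [NH_split (b + 2) (n + 1) (s := 1 / (4 * y ^ 2))]
  have r2'' := r2.trans r2'
  rw [show b + 1 + 1 = b + 2 by ring] at r2''
  linarith

end Pool.Agent.Run7.h695.BT
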