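import Pool.Agent.Run7.h695.BT.Multi2

/-!
# The operator that is the identity off the given types (helper695)
-/

set_option autoImplicit false

open Finset MeasureTheory Filter Topology
open scoped SchwartzMap ComplexConjugate ENNReal

namespace Pool.Agent.Run7.h695.BT

/-- the projection is symmetric -/
lemma Pr_pair' {j : ℤ} {f h : ℂ → ℂ} (hf : Dec2 f) (hh : Dec h) (ht : Ty j h) :
    ∫ z, Pr j f z * conj (h z) = ∫ z, f z * conj (h z) := by
  have h1 : ∀ z, Pr j f z * conj (h z) =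
      ∫ x in Set.Ioc (0:ℝ) 1, (ex (-(j * x)) * f (ex x * z)) * conj (h z) := by
    intro z
    unfold Pr
    rw [intervalIntegral.integral_of_le zero_le_one, integral_mul_const]
  simp only [h1]
  rw [integral_integral_swap]
  · have h2 : ∀ x ∈ Set.Ioc (0:ℝ) 1, ∫ z, (ex (-(j * x)) * f (ex x * z)) * conj (h z) =
        ∫ z, f z * conj (h z) := by
      intro x _
      rw [← int_rot (ex_norm x) (fun z => f z * conj (h z))]
      refine integral_congr_ae (Eventually.of_forall fun z => ?_)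
      simp only
      rw [ht _ _ (ex_norm x), map_mul, ← ex_mul_int, ex_conj]
      ring
    rw [setIntegral_congr_fun measurableSet_Ioc h2, setIntegral_const]
    simp
  · obtain ⟨c1, C, hC⟩ := hf
    obtain ⟨c2, D, hD⟩ := hh
    have hC0 := Dec2.nonneg hC
    have hD0 := Dec.nonneg hD
    have hi : Integrable (fun x : ℂ × ℝ => (C * D * ((1 + ‖x.1‖ ^ 2) ^ 2)⁻¹) * (1:ℝ))
        ((volume : Measure ℂ).prod ((volume : Measure ℝ).restrict (Set.Ioc (0:ℝ) 1))) :=
      (int_model.const_mul (C * D)).mul_prod (integrable_const (1:ℝ))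
    refine hi.mono' ?_ (Eventually.of_forall fun x => ?_)
    · have := ex_cont
      apply Continuous.aestronglyMeasurable
      unfold Function.uncurry
      have := Complex.continuous_conj
      fun_prop
    · show ‖(ex (-(j * x.2)) * f (ex x.2 * x.1)) * conj (h x.1)‖ ≤ (C * D * ((1 + ‖x.1‖ ^ 2) ^ 2)⁻¹) * 1
      rw [norm_mul, norm_mul, ex_norm, one_mul, RCLike.norm_conj, mul_one]
      have h3 := hC (ex x.2 * x.1)
      rw [norm_mul, ex_norm, one_mul] at h3
      have h4 : ‖h x.1‖ ≤ D := (hD _).trans (div_le_self hD0 (by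
        have : (0:ℝ) ≤ ‖x.1‖ ^ 2 := by positivity
        linarith))
      calc ‖f (ex x.2 * x.1)‖ * ‖h x.1‖ ≤ (C / (1 + ‖x.1‖ ^ 2) ^ 2) * D :=
            mul_le_mul h3 h4 (norm_nonneg _) (by positivity)
        _ = _ := by rw [div_eq_mul_inv]; ring

/-- orthogonality of sums over types -/
lemma sum_orth2 (S : Finset ℤ) (g h : ℤ → ℂ → ℂ) (hg : ∀ j ∈ S, Dec (g j)) (hh : ∀ j ∈ S, Dec (h j))
    (tg : ∀ j ∈ S, Ty j (g j)) (th : ∀ j ∈ S, Ty j (h j)) :
    ∫ z, (∑ j ∈ S, g j z) * conj (∑ j ∈ S, h j z) = ∑ j ∈ S, ∫ z, g j z * conj (h j z) := by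
  have h1 : ∀ z, (∑ j ∈ S, g j z) * conj (∑ j ∈ S, h j z) = ∑ i ∈ S, ∑ j ∈ S, g i z * conj (h j z) := by
    intro z
    rw [map_sum, Finset.sum_mul_sum]
  have hint : ∀ i ∈ S, ∀ j ∈ S, Integrable (fun z => g i z * conj (h j z)) := fun i hi j hj =>
    ((hg i hi).mul (hh j hj).conj).int
  simp only [h1]
  rw [integral_finsetSum _ fun i hi => integrable_finsetSum _ fun j hj => hint i hi j hj]
  refine Finset.sum_congr rfl fun i hi => ?_
  rw [integral_finsetSum _ fun j hj => hint i hi j hj]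
  rw [Finset.sum_eq_single i]
  · intro j hj hji
    exact orth hji.symm (tg i hi) (th j hj)
  · intro h
    exact absurd hi h

/-- the operator -/
noncomputable def WW (S S2 : Finset ℤ) (A M : ℤ → ℕ) (f : ℂ → ℂ) (z : ℂ) : ℂ :=
  (f z + (-1) * ∑ j ∈ S, Pr j f z) + VV S S2 A M f z

lemma sumPr_dec (S : Finset ℤ) {f : ℂ → ℂ} (hf : Dec2 f) : Dec (fun z => ∑ j ∈ S, Pr j f z) :=
  Dec_sum S (fun j => Pr j f) fun _ _ => (Pr_dec hf).dec

lemma WW_dec (S S2 : Finset ℤ) (A M : ℤ → ℕ) {f : ℂ → ℂ} (hf : Dec2 f) : Dec (WW S S2 A M f) :=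
  (hf.dec.add ((sumPr_dec S hf).smul (-1))).add (VV_dec S S2 A M hf)

theorem WW_lin (S S2 : Finset ℤ) (A M : ℤ → ℕ) : RTg.Lin (fun f : 𝓢(ℂ, ℂ) => WW S S2 A M f) where
  add f g z := by
    have h := (VV_lin S S2 A M).add f g z
    have h2 : ∑ j ∈ S, Pr j (fun w => f w + g w) z = ∑ j ∈ S, Pr j f z + ∑ j ∈ S, Pr j g z := by
      rw [← Finset.sum_add_distrib]
      exact Finset.sum_congr rfl fun j _ => by rw [Pr_add j f.continuous g.continuous]
    show (f z + g z + (-1) * ∑ j ∈ S, Pr j (fun w => f w + g w) z) + VV S S2 A M (fun w => (f + g) w) z = _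
    have h3 : VV S S2 A M (fun w => (f + g) w) z = VV S S2 A M f z + VV S S2 A M g z := h
    rw [h2, h3]
    unfold WW
    ring
  smul c f z := by
    have h := (VV_lin S S2 A M).smul c f z
    have h2 : ∑ j ∈ S, Pr j (fun w => c * f w) z = c * ∑ j ∈ S, Pr j f z := by
      rw [Finset.mul_sum]
      exact Finset.sum_congr rfl fun j _ => by rw [Pr_smul]
    show (c * f z + (-1) * ∑ j ∈ S, Pr j (fun w => c * f w) z) + VV S S2 A M (fun w => (c • f) w) z = _
    have h3 : VV S S2 A M (fun w => (c • f) w) z = c * VV S S2 A M f z := h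
    rw [h2, h3]
    unfold WW
    ring
  cont f := (WW_dec S S2 A M (sch_dec2 f)).1

/-- the operator is a contraction of `L ^ 2` -/
theorem WW_two (S : Finset ℤ) {S2 : Finset ℤ} {A : ℤ → ℕ} (M : ℤ → ℕ) (hA : ∀ j ∈ S2, 1 ≤ A j) :
    RTg.Bo (fun f : 𝓢(ℂ, ℂ) => WW S S2 A M f) 2 1 := by
  intro f
  have hf := sch_dec2 f
  rw [ENNReal.ofReal_one, ENNReal.one_rpow, one_mul, sq_int (WW_dec S S2 A M hf), sq_int hf.dec]
  refine ENNReal.ofReal_le_ofReal ?_
  set N : ℤ → ℂ := fun j => ∫ z, Pr j f z * conj (Pr j f z) with hN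
  have dO : ∀ j, Dec (OO S2 A M j (Pr j f)) := fun j => OO_dec _ _ _ _ (Pr_dec hf)
  have tO : ∀ j, Ty j (OO S2 A M j (Pr j f)) := fun j => OO_Ty _ _ _ _ (Pr_type j f)
  have dP : ∀ j, Dec (Pr j f) := fun j => (Pr_dec hf).dec
  set V : ℂ → ℂ := VV S S2 A M f with hV
  have Vd : Dec V := VV_dec S S2 A M hf
  have e1 : (∫ z, V z * conj (V z)).re ≤ (∑ j ∈ S, N j).re := by
    rw [hV]
    unfold VV
    rw [sum_orth S (fun j => OO S2 A M j (Pr j f)) (fun j _ => dO j) (fun j _ => tO j),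
      Complex.re_sum, Complex.re_sum]
    exact Finset.sum_le_sum fun j _ => OO_two M hA j (Pr_dec hf)
  set q : ℂ → ℂ := fun z => ∑ j ∈ S, Pr j f z with hq
  have hqd : Dec q := sumPr_dec S hf
  have e2 : ∫ z, q z * conj (q z) = ∑ j ∈ S, N j :=
    sum_orth S (fun j => Pr j f) (fun j _ => dP j) (fun j _ => Pr_type j f)
  have e3 : ∫ z, f z * conj (q z) = ∑ j ∈ S, N j := by
    have h1 : ∀ z, f z * conj (q z) = ∑ j ∈ S, f z * conj (Pr j f z) := by
      intro z
      rw [hq]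
      simp only
      rw [map_sum, Finset.mul_sum]
    simp only [h1]
    rw [integral_finsetSum _ fun j _ => (hf.dec.mul (dP j).conj).int]
    refine Finset.sum_congr rfl fun j _ => ?_
    rw [hN]
    simp only
    rw [Pr_pair hf (Pr_dec hf) (Pr_type j f)]
  have e4 : ∫ z, q z * conj (f z) = conj (∑ j ∈ S, N j) := by
    rw [← e3, ← integral_conj]
    refine integral_congr_ae (Eventually.of_forall fun z => ?_)
    simp only
    rw [map_mul, Complex.conj_conj]
    ring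
  set e : ℂ → ℂ := fun z => f z + (-1) * q z with he
  have hed : Dec e := hf.dec.add (hqd.smul (-1))
  have e5 : ∫ z, e z * conj (e z) =
      (∫ z, f z * conj (f z)) - (∑ j ∈ S, N j) - conj (∑ j ∈ S, N j) + ∑ j ∈ S, N j := by
    have h1 : ∀ z, e z * conj (e z) =
        f z * conj (f z) - f z * conj (q z) - q z * conj (f z) + q z * conj (q z) := by
      intro z
      rw [he]
      simp only
      rw [map_add, map_mul, map_neg, map_one]
      ring
    simp only [h1]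
    rw [int4 (hf.dec.mul hf.dec.conj).int (hf.dec.mul hqd.conj).int (hqd.mul hf.dec.conj).int
      (hqd.mul hqd.conj).int, e2, e3, e4]
  -- orthogonality of `e` and `V`
  have e6 : ∫ z, e z * conj (V z) = 0 := by
    have h1 : ∀ z, e z * conj (V z) = f z * conj (V z) - q z * conj (V z) := by
      intro z
      rw [he]
      simp only
      ring
    simp only [h1]
    rw [integral_sub (hf.dec.mul Vd.conj).int (hqd.mul Vd.conj).int]
    have h2 : ∫ z, q z * conj (V z) = ∑ j ∈ S, ∫ z, Pr j f z * conj (OO S2 A M j (Pr j f) z) :=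
      sum_orth2 S (fun j => Pr j f) (fun j => OO S2 A M j (Pr j f)) (fun j _ => dP j) (fun j _ => dO j)
        (fun j _ => Pr_type j f) (fun j _ => tO j)
    have h3 : ∫ z, f z * conj (V z) = ∑ j ∈ S, ∫ z, Pr j f z * conj (OO S2 A M j (Pr j f) z) := by
      have h4 : ∀ z, f z * conj (V z) = ∑ j ∈ S, f z * conj (OO S2 A M j (Pr j f) z) := by
        intro z
        rw [hV]
        unfold VV
        rw [map_sum, Finset.mul_sum]
      simp only [h4]
      rw [integral_finsetSum _ fun j _ => (hf.dec.mul (dO j).conj).int]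
      refine Finset.sum_congr rfl fun j _ => ?_
      rw [Pr_pair' hf (dO j) (tO j)]
    rw [h2, h3, sub_self]
  have e7 : ∫ z, V z * conj (e z) = 0 := by
    have : ∫ z, V z * conj (e z) = conj (∫ z, e z * conj (V z)) := by
      rw [← integral_conj]
      refine integral_congr_ae (Eventually.of_forall fun z => ?_)
      simp only
      rw [map_mul, Complex.conj_conj]
      ring
    rw [this, e6, map_zero]
  have e8 : ∫ z, WW S S2 A M f z * conj (WW S S2 A M f z) =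
      (∫ z, e z * conj (e z)) + ∫ z, V z * conj (V z) := by
    have h1 : ∀ z, WW S S2 A M f z * conj (WW S S2 A M f z) =
        e z * conj (e z) - (-1) * (e z * conj (V z)) - (-1) * (V z * conj (e z)) + V z * conj (V z) := by
      intro z
      have : WW S S2 A M f z = e z + V z := rfl
      rw [this, map_add]
      ring
    simp only [h1]
    rw [int4 (hed.mul hed.conj).int ((hed.mul Vd.conj).int.const_mul _) ((Vd.mul hed.conj).int.const_mul _)
      (Vd.mul Vd.conj).int, integral_const_mul, integral_const_mul, e6, e7]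
    ring
  rw [e8, e5]
  simp only [Complex.add_re, Complex.sub_re, Complex.conj_re]
  linarith

lemma WW_eq {S1 S2 : Finset ℤ} (hd : Disjoint S1 S2) (A M : ℤ → ℕ) {f : ℂ → ℂ} (hf : Dec2 f) (z : ℂ) :
    WW (S1 ∪ S2) S2 A M f z = f z -
      (∫ y, kS S1 A M y * f (((y.1 : ℂ) * ex y.2) * z) ∂(mu1.prod mu1)) -
      ∫ y, kH S2 A M y * f (((y.1 : ℂ)⁻¹ * ex y.2) * z) ∂(mu1.prod mu1) := by
  unfold WW
  rw [VV_eq hd A M hf z, sumPr (S1 ∪ S2) hf.1]
  ring

theorem WW_p {S1 S2 : Finset ℤ} (hd : Disjoint S1 S2) (A M : ℤ → ℕ) (P : ℝ) (hP : 2 < P) :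
    RTg.Bo (fun f : 𝓢(ℂ, ℂ) => WW (S1 ∪ S2) S2 A M f) P
      ((1 + GB S1 A M + GH S2 A M) + 2 / P * GB' S1 A M) := by
  intro f
  have hp0 : 0 < P := by linarith
  have hexc := ex_cont
  have hG : 0 ≤ GB S1 A M := intervalIntegral.integral_nonneg zero_le_one fun v hv =>
    mul_nonneg (by linarith [hv.1]) (gS_nonneg S1 A M v)
  have hG' := GB'_nonneg S1 A M
  have hH := GH_nonneg S2 A M
  have hne : ∀ᵐ y ∂(mu1.prod mu1), (y.1 : ℂ) ≠ 0 := by
    rw [Measure.prod_restrict]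
    refine (ae_restrict_iff' (measurableSet_Ioc.prod measurableSet_Ioc)).2
      (Eventually.of_forall fun y hy => ?_)
    exact Complex.ofReal_ne_zero.2 (ne_of_gt hy.1.1)
  have m2 := gmink (mu1.prod mu1) (κ := kS S1 A M) (c := fun y : ℝ × ℝ => (y.1 : ℂ) * ex y.2)
    (kS_cont S1 A M).measurable (by fun_prop : Continuous fun y : ℝ × ℝ => (y.1 : ℂ) * ex y.2).measurable
    (hne.mono fun y hy => mul_ne_zero hy (ex_ne _)) f.continuous (show 1 < P by linarith)
  have m3 := gmink (mu1.prod mu1) (κ := kH S2 A M) (c := fun y : ℝ × ℝ => (y.1 : ℂ)⁻¹ * ex y.2)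
    (kH_cont S2 A M).measurable
    ((Complex.measurable_ofReal.comp measurable_fst).inv.mul (hexc.measurable.comp measurable_snd))
    (hne.mono fun y hy => mul_ne_zero (inv_ne_zero hy) (ex_ne _)) f.continuous (show 1 < P by linarith)
  set g1 : ℂ → ℂ := fun z => f z with hg1
  set g2 : ℂ → ℂ := fun z => ∫ y, kS S1 A M y * f (((y.1 : ℂ) * ex y.2) * z) ∂(mu1.prod mu1) with hg2
  set g3 : ℂ → ℂ := fun z => ∫ y, kH S2 A M y * f (((y.1 : ℂ)⁻¹ * ex y.2) * z) ∂(mu1.prod mu1) with hg3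
  have hsum : ∀ z, WW (S1 ∪ S2) S2 A M f z = g1 z - g2 z - g3 z := fun z => WW_eq hd A M (sch_dec2 f) z
  have c1 : Continuous g1 := f.continuous
  have c3 : Continuous g3 := by
    have : g3 = fun z => ∑ j ∈ S2, RK (kh (A j) (M j)) (Pr j f) z := by
      funext z
      exact sumRK S2 A M (sch_dec2 f) z
    rw [this]
    exact continuous_finsetSum _ fun j _ => RK_cont (kh_cont _ _) (Pr_dec (sch_dec2 f))
  have c2 : Continuous g2 := by
    have : g2 = fun z => g1 z - g3 z - WW (S1 ∪ S2) S2 A M f z := by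
      funext z
      rw [hsum]
      ring
    rw [this]
    exact (c1.sub c3).sub (WW_dec (S1 ∪ S2) S2 A M (sch_dec2 f)).1
  have h2 := ENNReal.lintegral_Lp_add_le (μ := volume) (f := fun z => ‖g1 z‖ₑ)
    (g := fun z => ‖g2 z‖ₑ) (p := P)
    c1.enorm.measurable.aemeasurable c2.enorm.measurable.aemeasurable (by linarith)
  have h2' := ENNReal.lintegral_Lp_add_le (μ := volume) (f := (fun z => ‖g1 z‖ₑ) + fun z => ‖g2 z‖ₑ)
    (g := fun z => ‖g3 z‖ₑ) (p := P)
    (c1.enorm.measurable.add c2.enorm.measurable).aemeasurable c3.enorm.measurable.aemeasurable (by linarith)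
  have h3 : ∀ z, ‖WW (S1 ∪ S2) S2 A M f z‖ₑ ≤
      (((fun z => ‖g1 z‖ₑ) + fun z => ‖g2 z‖ₑ) + fun z => ‖g3 z‖ₑ) z := by
    intro z
    rw [hsum]
    refine enorm_sub_le.trans ?_
    exact add_le_add_left enorm_sub_le _
  have b2 := m2.trans (mul_le_mul_left (ENNReal.rpow_le_rpow (w2_le S1 A M hP) hp0.le) _)
  have b3 := m3.trans (mul_le_mul_left (ENNReal.rpow_le_rpow (w3_le S2 A M hP) hp0.le) _)
  have root : ∀ (K : ℝ) (X : ℝ≥0∞), (ENNReal.ofReal K ^ P * X) ^ (1 / P) = ENNReal.ofReal K * X ^ (1 / P) := by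
    intro K X
    rw [ENNReal.mul_rpow_of_nonneg _ _ (by positivity), ← ENNReal.rpow_mul, mul_one_div_cancel hp0.ne',
      ENNReal.rpow_one]
  have h4 : (∫⁻ z, ‖WW (S1 ∪ S2) S2 A M f z‖ₑ ^ P) ^ (1 / P) ≤
      ENNReal.ofReal ((1 + GB S1 A M + GH S2 A M) + 2 / P * GB' S1 A M) *
        (∫⁻ z, ‖f z‖ₑ ^ P) ^ (1 / P) := by
    calc (∫⁻ z, ‖WW (S1 ∪ S2) S2 A M f z‖ₑ ^ P) ^ (1 / P) ≤ _ :=
          ENNReal.rpow_le_rpow (lintegral_mono fun z => ENNReal.rpow_le_rpow (h3 z) hp0.le) (by positivity)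
      _ ≤ _ := h2'
      _ ≤ (ENNReal.ofReal 1 * (∫⁻ z, ‖f z‖ₑ ^ P) ^ (1 / P) +
          (ENNReal.ofReal (GB S1 A M + 2 / P * GB' S1 A M) ^ P * ∫⁻ z, ‖f z‖ₑ ^ P) ^ (1 / P)) +
          (ENNReal.ofReal (GH S2 A M) ^ P * ∫⁻ z, ‖f z‖ₑ ^ P) ^ (1 / P) := by
          refine add_le_add (h2.trans ?_) (ENNReal.rpow_le_rpow b3 (by positivity))
          refine add_le_add ?_ (ENNReal.rpow_le_rpow b2 (by positivity))
          rw [ENNReal.ofReal_one, one_mul]
      _ = ENNReal.ofReal (1 + (GB S1 A M + 2 / P * GB' S1 A M) + GH S2 A M) *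
          (∫⁻ z, ‖f z‖ₑ ^ P) ^ (1 / P) := by
          rw [root, root, ENNReal.ofReal_add (p := 1 +
            (GB S1 A M + 2 / P * GB' S1 A M)) (by positivity) hH, ENNReal.ofReal_add (zero_le_one)
            (by positivity : (0:ℝ) ≤ GB S1 A M + 2 / P * GB' S1 A M), add_mul, add_mul]
      _ ≤ _ := mul_le_mul_left (ENNReal.ofReal_le_ofReal (by linarith)) _
  have h5 := ENNReal.rpow_le_rpow h4 hp0.le
  rwa [← ENNReal.rpow_mul, one_div_mul_cancel hp0.ne', ENNReal.rpow_one,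
    ENNReal.mul_rpow_of_nonneg _ _ hp0.le, ← ENNReal.rpow_mul, one_div_mul_cancel hp0.ne',
    ENNReal.rpow_one] at h5

/-- the operator on `L ^ p` -/
theorem WW_all {S1 S2 : Finset ℤ} (hd : Disjoint S1 S2) {A : ℤ → ℕ} (M : ℤ → ℕ) (hA : ∀ j ∈ S2, 1 ≤ A j)
    {C : ℝ} (hC0 : 0 < C) (hC : 1 + GB S1 A M + GH S2 A M ≤ C)
    {p : ℝ} (hp : 2 ≤ p) : RTg.Bo (fun f : 𝓢(ℂ, ℂ) => WW (S1 ∪ S2) S2 A M f) p (C ^ (1 - 2 / p)) := by
  refine interp_gen (WW_lin (S1 ∪ S2) S2 A M) (WW_two (S1 ∪ S2) M hA) hC0 (GB'_nonneg S1 A M)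
    (fun P hP => ?_) hp
  intro f
  refine (WW_p hd A M P hP f).trans ?_
  refine mul_le_mul_left (ENNReal.rpow_le_rpow (ENNReal.ofReal_le_ofReal ?_) (by linarith)) _
  linarith

end Pool.Agent.Run7.h695.BT
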