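import Pool.Agent.Run7.h695.BT.IdR
import Pool.Agent.Run7.h695.BT.WOp

/-!
# The bound for finitely many angular types (helper695)
-/

set_option autoImplicit false

open Finset MeasureTheory Filter Topology
open scoped SchwartzMap ComplexConjugate ENNReal

namespace Pool.Agent.Run7.h695.BT

open Pool.Agent.N892.BW (TS)
open Pool.Agent.N892.BW.RTT (TS_sum)

def An (n : ℕ) (j : ℤ) : ℕ := if j ≤ n then j.natAbs else (2 * n - j).natAbs

def Mn (n : ℕ) (j : ℤ) : ℕ := if j ≤ n then (n - max j 0).toNat else (n - max (2 * n - j) 0).toNat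

theorem id_all {n : ℕ} {S : Finset ℤ} (hw : ∀ j ∈ S, n < j → 1 ≤ (2 * n - j).natAbs)
    {g : ℤ → 𝓢(ℂ, ℂ)} (hg : ∀ j ∈ S, Ty j (g j)) {z : ℂ} (hz : z ≠ 0) : TS n (∑ j ∈ S, g j) z =
      (conj z / z) ^ n * VV S (S.filter fun j => (n : ℤ) < j) (An n) (Mn n)
        (fun w => (∑ j ∈ S, g j : 𝓢(ℂ, ℂ)) w) z := by
  have h1 := TS_sum n S (fun _ => (1:ℂ)) g z
  simp only [one_smul, one_mul] at h1
  have h2 : (fun w => (∑ j ∈ S, g j : 𝓢(ℂ, ℂ)) w) = fun w => ∑ j ∈ S, g j w := by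
    funext w
    rw [_root_.sum_apply]
  rw [h1, h2]
  unfold VV
  rw [Finset.mul_sum]
  refine Finset.sum_congr rfl fun j hj => ?_
  rw [Pr_sum hg hj]
  unfold OO
  by_cases h : (n : ℤ) < j
  · rw [if_pos (Finset.mem_filter.2 ⟨hj, h⟩), id_high h (hw j hj h) (hg j hj) hz]
    unfold An Mn
    rw [if_neg (by omega), if_neg (by omega)]
  · rw [if_neg (fun h3 => h (Finset.mem_filter.1 h3).2), id_type (by omega) (hg j hj) hz]
    unfold An Mn
    rw [if_pos (by omega), if_pos (by omega)]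

theorem eLp_all {n : ℕ} {S : Finset ℤ} (hw : ∀ j ∈ S, n < j → 1 ≤ (2 * n - j).natAbs)
    {g : ℤ → 𝓢(ℂ, ℂ)} (hg : ∀ j ∈ S, Ty j (g j)) (p : ENNReal) :
    eLpNorm (TS n (∑ j ∈ S, g j)) p volume =
      eLpNorm (VV S (S.filter fun j => (n : ℤ) < j) (An n) (Mn n)
        (fun w => (∑ j ∈ S, g j : 𝓢(ℂ, ℂ)) w)) p volume := by
  refine eLpNorm_congr_norm_ae ?_
  have h0 : ∀ᵐ ξ : ℂ, ξ ≠ 0 := by
    rw [ae_iff]
    simp
  filter_upwards [h0] with z hz
  have hb : ‖conj z / z‖ = 1 := by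
    rw [norm_div, RCLike.norm_conj]
    exact div_self (norm_ne_zero_iff.2 hz)
  rw [id_all hw hg hz, norm_mul, norm_pow, hb, one_pow, one_mul]

lemma MA1 {n : ℕ} {j : ℤ} (hj : j ≤ n) : (Mn n j : ℝ) + An n j = n + max (-j : ℝ) 0 := by
  have h : ((Mn n j + An n j : ℕ) : ℤ) = n + max (-j) 0 := by
    unfold Mn An
    rw [if_pos hj, if_pos hj]
    omega
  have h2 : (((Mn n j + An n j : ℕ) : ℤ) : ℝ) = ((n + max (-j) 0 : ℤ) : ℝ) := by rw [h]
  push_cast at h2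
  exact h2

lemma A2 {n : ℕ} {j : ℤ} (hj : (n : ℤ) < j) : (An n j : ℝ) = |2 * n - (j : ℝ)| := by
  unfold An
  rw [if_neg (by omega), Nat.cast_natAbs]
  push_cast
  rfl

lemma MA2 {n : ℕ} {j : ℤ} (hj : (n : ℤ) < j) : (Mn n j : ℝ) * (Mn n j + An n j) = n * (j - n) := by
  have h : ((Mn n j : ℕ) : ℤ) * ((Mn n j : ℕ) + (An n j : ℕ)) = n * (j - n) := by
    unfold Mn An
    rw [if_neg (by omega), if_neg (by omega)]
    rcases le_total (2 * (n : ℤ) - j) 0 with h | h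
    · have e1 : (((n : ℤ) - max (2 * n - j) 0).toNat : ℤ) = n := by omega
      have e2 : (((2 * (n : ℤ) - j).natAbs : ℕ) : ℤ) = j - 2 * n := by omega
      rw [e1, e2]
      ring
    · have e1 : (((n : ℤ) - max (2 * n - j) 0).toNat : ℤ) = j - n := by omega
      have e2 : (((2 * (n : ℤ) - j).natAbs : ℕ) : ℤ) = 2 * n - j := by omega
      rw [e1, e2]
      ring
  have h2 : ((((Mn n j : ℕ) : ℤ) * ((Mn n j : ℕ) + (An n j : ℕ)) : ℤ) : ℝ) = ((n * (j - n) : ℤ) : ℝ) := by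
    rw [h]
  push_cast at h2
  exact h2

lemma Mn_le {n : ℕ} {j : ℤ} : (Mn n j : ℝ) ≤ n := by
  have : Mn n j ≤ n := by
    unfold Mn
    split_ifs <;> omega
  exact_mod_cast this

lemma GB_all {n : ℕ} (hn : 1 ≤ n) (S : Finset ℤ) {r : ℝ}
    (h1 : ∀ i ∈ S, ∀ j ∈ S, i ≤ n → j ≤ n → n + max (-i : ℝ) 0 ≤ r * (n + max (-j : ℝ) 0)) :
    GB (S.filter fun j => j ≤ (n : ℤ)) (An n) (Mn n) ≤
      √(1.27 * (S.filter fun j => j ≤ (n : ℤ)).card * n * Real.log (128 * n * r)) := by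
  have hn1 : (1 : ℝ) ≤ n := by exact_mod_cast hn
  rcases (S.filter fun j => j ≤ (n : ℤ)).eq_empty_or_nonempty with h | h
  · rw [h]
    unfold GB gS
    simp
  · obtain ⟨j0, hj0, hmin⟩ := Finset.exists_min_image _ (fun j : ℤ => (n : ℝ) + max (-j : ℝ) 0) h
    set lo : ℝ := (n : ℝ) + max (-j0 : ℝ) 0 with hlo
    have hlo1 : (n : ℝ) ≤ lo := by
      have := le_max_right (-j0 : ℝ) 0
      linarith
    have hlo0 : 0 < lo := by linarith
    have h2 := GB_le h (A := An n) (M := Mn n) (n := n) hn1 (lo := lo) (hi := r * lo) hlo1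
      (fun j _ => Mn_le) (fun j hj => by
        rw [MA1 (Finset.mem_filter.1 hj).2]
        exact hmin j hj) (fun j hj => by
        rw [MA1 (Finset.mem_filter.1 hj).2]
        exact h1 j (Finset.mem_filter.1 hj).1 j0 (Finset.mem_filter.1 hj0).1 (Finset.mem_filter.1 hj).2
          (Finset.mem_filter.1 hj0).2)
    have e : 128 * (n : ℝ) * (r * lo) / lo = 128 * n * r := by field_simp
    rwa [e] at h2

lemma GH_all {n : ℕ} (S : Finset ℤ) {r X : ℝ} (hX : 1 ≤ X)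
    (hw : ∀ j ∈ S, n < j → 2 ≤ (2 * n - j).natAbs)
    (h1 : ∀ i ∈ S, ∀ j ∈ S, (n : ℤ) < i → (n : ℤ) < j → |2 * n - (i : ℝ)| ≤ r * |2 * n - (j : ℝ)|)
    (h2 : ∀ j ∈ S, (n : ℤ) < j → (n : ℝ) * (j - n) ≤ X * |2 * n - (j : ℝ)|) :
    GH (S.filter fun j => (n : ℤ) < j) (An n) (Mn n) ≤
      √(1.31 * (S.filter fun j => (n : ℤ) < j).card * X * Real.log (128 * X * r)) := by
  rcases (S.filter fun j => (n : ℤ) < j).eq_empty_or_nonempty with h | h
  · rw [h]
    unfold GH gH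
    simp
  · have hA : ∀ j ∈ S.filter (fun j => (n : ℤ) < j), 2 ≤ An n j := by
      intro j hj
      have hj' := Finset.mem_filter.1 hj
      have := hw j hj'.1 hj'.2
      unfold An
      rw [if_neg (by omega)]
      exact this
    obtain ⟨j0, hj0, hmin⟩ := Finset.exists_min_image _ (fun j : ℤ => (An n j : ℝ)) h
    set lo : ℝ := (An n j0 : ℝ) with hlo
    have hlo0 : 0 < lo := by
      have := hA j0 hj0
      rw [hlo]
      exact_mod_cast (by omega : 0 < An n j0)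
    have hhi : ∀ j ∈ S.filter (fun j => (n : ℤ) < j), (An n j : ℝ) ≤ r * lo := by
      intro j hj
      have hj' := Finset.mem_filter.1 hj
      have hj0' := Finset.mem_filter.1 hj0
      rw [hlo, A2 hj'.2, A2 hj0'.2]
      exact h1 j hj'.1 j0 hj0'.1 hj'.2 hj0'.2
    have h3 := GH_le (A := An n) (M := Mn n) hX hlo0 (hi := r * lo) (hhi j0 hj0) hA hmin hhi (fun j hj => by
      have hj' := Finset.mem_filter.1 hj
      rw [MA2 hj'.2, A2 hj'.2]
      exact h2 j hj'.1 hj'.2)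
    have e : 128 * X * (r * lo) / lo = 128 * X * r := by field_simp
    rwa [e] at h3

/-- **Finitely many angular types.** -/
theorem totalW {n : ℕ} {S : Finset ℤ} (hw : ∀ j ∈ S, n < j → 1 ≤ (2 * n - j).natAbs)
    {g : ℤ → 𝓢(ℂ, ℂ)} (hg : ∀ j ∈ S, Ty j (g j)) {p : ℝ} (hp : 2 ≤ p) {C : ℝ}
    (hC : 1 + GB (S.filter fun j => j ≤ (n : ℤ)) (An n) (Mn n) +
      GH (S.filter fun j => (n : ℤ) < j) (An n) (Mn n) ≤ C) :
    eLpNorm (TS n (∑ j ∈ S, g j)) (ENNReal.ofReal p) volume ≤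
      ENNReal.ofReal (C ^ (1 - 2 / p)) *
        eLpNorm (fun z : ℂ => (∑ j ∈ S, g j : 𝓢(ℂ, ℂ)) z) (ENNReal.ofReal p) volume := by
  have hU : (S.filter fun j => j ≤ (n : ℤ)) ∪ (S.filter fun j => (n : ℤ) < j) = S := by
    ext j
    simp only [Finset.mem_union, Finset.mem_filter]
    constructor
    · rintro (h | h) <;> exact h.1
    · intro h
      rcases le_or_gt j (n : ℤ) with h4 | h4
      · exact Or.inl ⟨h, h4⟩
      · exact Or.inr ⟨h, h4⟩
  have hd : Disjoint (S.filter fun j => j ≤ (n : ℤ)) (S.filter fun j => (n : ℤ) < j) := by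
    rw [Finset.disjoint_left]
    intro j h4 h5
    have := (Finset.mem_filter.1 h4).2
    have := (Finset.mem_filter.1 h5).2
    omega
  have hG : 0 ≤ GB (S.filter fun j => j ≤ (n : ℤ)) (An n) (Mn n) :=
    intervalIntegral.integral_nonneg zero_le_one fun v hv =>
      mul_nonneg (by linarith [hv.1]) (gS_nonneg _ _ _ v)
  have hH := GH_nonneg (S.filter fun j => (n : ℤ) < j) (An n) (Mn n)
  have hV := WW_all hd (A := An n) (Mn n) (fun j hj => by
      have hj' := Finset.mem_filter.1 hj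
      have := hw j hj'.1 hj'.2
      unfold An
      rw [if_neg (by omega)]
      exact this) (by linarith) hC hp
  rw [hU] at hV
  have hE : VV S (S.filter fun j => (n : ℤ) < j) (An n) (Mn n)
        (fun w => (∑ j ∈ S, g j : 𝓢(ℂ, ℂ)) w) =
      WW S (S.filter fun j => (n : ℤ) < j) (An n) (Mn n)
        (fun w => (∑ j ∈ S, g j : 𝓢(ℂ, ℂ)) w) := by
    funext z
    unfold WW
    have h2 : (fun w => (∑ j ∈ S, g j : 𝓢(ℂ, ℂ)) w) = fun w => ∑ j ∈ S, g j w := by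
      funext w
      rw [_root_.sum_apply]
    have h3 : ∑ j ∈ S, Pr j (fun w => (∑ j ∈ S, g j : 𝓢(ℂ, ℂ)) w) z =
        (∑ j ∈ S, g j : 𝓢(ℂ, ℂ)) z := by
      rw [h2, _root_.sum_apply]
      exact Finset.sum_congr rfl fun j hj => by rw [Pr_sum hg hj]
    rw [h3]
    ring
  rw [eLp_all hw hg, hE]
  exact bo_eLp (fun f : 𝓢(ℂ, ℂ) => WW S (S.filter fun j => (n : ℤ) < j) (An n) (Mn n) f) hp hV _

end Pool.Agent.Run7.h695.BT
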