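import Pool.Agent.Run7.h695.BT.Jac2
import Pool.Agent.Run7.h695.BT.Total

/-!
# The square function without logarithms (helper695)
-/

set_option autoImplicit false

open Finset MeasureTheory

namespace Pool.Agent.Run7.h695.BT

/-- the integral of the inverse weight is `4` -/
lemma int_w34 : IntervalIntegrable (fun v : ℝ => 2 * v * (1 - v ^ 2) ^ (-(3 / 4) : ℝ)) volume 0 1 ∧
    ∫ v in (0:ℝ)..1, 2 * v * (1 - v ^ 2) ^ (-(3 / 4) : ℝ) = 4 := by
  have hc : ContinuousOn (fun v : ℝ => -4 * (1 - v ^ 2) ^ (1 / 4 : ℝ)) (Set.Icc 0 1) := by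
    refine Continuous.continuousOn ?_
    exact continuous_const.mul ((by fun_prop : Continuous fun v : ℝ => 1 - v ^ 2).rpow_const
      fun _ => Or.inr (by norm_num))
  have hd : ∀ v ∈ Set.Ioo (0:ℝ) 1, HasDerivAt (fun v : ℝ => -4 * (1 - v ^ 2) ^ (1 / 4 : ℝ))
      (2 * v * (1 - v ^ 2) ^ (-(3 / 4) : ℝ)) v := by
    intro v hv
    have hv2 : v ^ 2 < 1 := by nlinarith [hv.1, hv.2]
    have hx : 0 < 1 - v ^ 2 := by linarith
    have dx : HasDerivAt (fun v : ℝ => 1 - v ^ 2) (-(2 * v)) v := by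
      refine ((hasDerivAt_pow 2 v).const_sub 1).congr_deriv ?_
      norm_num
    refine ((dx.rpow_const (p := 1 / 4) (Or.inl hx.ne')).const_mul (-4)).congr_deriv ?_
    have : (1 / 4 : ℝ) - 1 = -(3 / 4) := by norm_num
    rw [this]
    ring
  have hi : IntervalIntegrable (fun v : ℝ => 2 * v * (1 - v ^ 2) ^ (-(3 / 4) : ℝ)) volume 0 1 := by
    refine intervalIntegral.intervalIntegrable_deriv_of_nonneg (g := fun v : ℝ => -4 * (1 - v ^ 2) ^ (1 / 4 : ℝ))
      (by rwa [Set.uIcc_of_le zero_le_one]) (fun v hv => ?_) (fun v hv => ?_)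
    · rw [min_eq_left zero_le_one, max_eq_right zero_le_one] at hv
      exact hd v hv
    · rw [min_eq_left zero_le_one, max_eq_right zero_le_one] at hv
      have hv2 : v ^ 2 < 1 := by nlinarith [hv.1, hv.2]
      have := hv.1
      have : 0 ≤ (1 - v ^ 2) ^ (-(3 / 4) : ℝ) := Real.rpow_nonneg (by linarith) _
      positivity
  refine ⟨hi, ?_⟩
  rw [intervalIntegral.integral_eq_sub_of_hasDerivAt_of_le zero_le_one hc hd hi]
  have : ((1:ℝ) - 1 ^ 2) ^ (1 / 4 : ℝ) = 0 := by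
    rw [one_pow, sub_self, Real.zero_rpow (by norm_num)]
  rw [this]
  simp

lemma cs_frac {F : ℝ → ℝ} (hF : Continuous F) {J : ℝ} (hJ : 0 < J)
    (h : ∫ v in (0:ℝ)..1, 2 * v * F v ^ 2 * (1 - v ^ 2) ^ (3 / 4 : ℝ) ≤ J) :
    ∫ v in (0:ℝ)..1, 2 * v * |F v| ≤ √(4 * J) := by
  set l : ℝ := 2 / √J with hl
  have hJs : 0 < √J := Real.sqrt_pos.2 hJ
  have hl0 : 0 < l := by positivity
  have hxc : Continuous fun v : ℝ => (1 - v ^ 2) ^ (3 / 4 : ℝ) :=
    (by fun_prop : Continuous fun v : ℝ => 1 - v ^ 2).rpow_const fun _ => Or.inr (by norm_num)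
  have hFa := hF.abs
  have i0 : IntervalIntegrable (fun v : ℝ => 2 * v * |F v|) volume 0 1 :=
    (by fun_prop : Continuous fun v : ℝ => 2 * v * |F v|).intervalIntegrable _ _
  have i1 : IntervalIntegrable (fun v : ℝ => 2 * v * F v ^ 2 * (1 - v ^ 2) ^ (3 / 4 : ℝ)) volume 0 1 :=
    (by fun_prop : Continuous fun v : ℝ => 2 * v * F v ^ 2 * (1 - v ^ 2) ^ (3 / 4 : ℝ)).intervalIntegrable _ _
  obtain ⟨i2, e2⟩ := int_w34
  have h3 : ∫ v in (0:ℝ)..1, 2 * v * |F v| ≤ ∫ v in (0:ℝ)..1,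
      (l / 2 * (2 * v * F v ^ 2 * (1 - v ^ 2) ^ (3 / 4 : ℝ)) +
        1 / (2 * l) * (2 * v * (1 - v ^ 2) ^ (-(3 / 4) : ℝ))) := by
    refine intervalIntegral.integral_mono_on_of_le_Ioo zero_le_one i0
      ((i1.const_mul _).add (i2.const_mul _)) fun v hv => ?_
    have hv2 : v ^ 2 < 1 := by nlinarith [hv.1, hv.2]
    have hx : 0 < 1 - v ^ 2 := by linarith
    set w : ℝ := (1 - v ^ 2) ^ (3 / 4 : ℝ) with hw
    have hw0 : 0 < w := Real.rpow_pos_of_pos hx _
    have hwi : (1 - v ^ 2) ^ (-(3 / 4) : ℝ) = w⁻¹ := by rw [Real.rpow_neg hx.le]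
    rw [hwi, ← sq_abs (F v)]
    set y := |F v| with hy
    have hv0 := hv.1
    have h4 : 0 ≤ 2 * v * ((l * w * y - 1) ^ 2 / (2 * l * w)) := by positivity
    have h5 : 2 * v * ((l * w * y - 1) ^ 2 / (2 * l * w)) =
        l / 2 * (2 * v * y ^ 2 * w) + 1 / (2 * l) * (2 * v * w⁻¹) - 2 * v * y := by
      field_simp
      ring
    linarith
  rw [intervalIntegral.integral_add (i1.const_mul _) (i2.const_mul _),
    intervalIntegral.integral_const_mul, intervalIntegral.integral_const_mul, e2] at h3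
  have h4 : l / 2 * (∫ v in (0:ℝ)..1, 2 * v * F v ^ 2 * (1 - v ^ 2) ^ (3 / 4 : ℝ)) ≤ l / 2 * J :=
    mul_le_mul_of_nonneg_left h (by positivity)
  have h5 : l / 2 * J = √J := by
    rw [hl]
    have : J = √J * √J := (Real.mul_self_sqrt hJ.le).symm
    nth_rewrite 2 [this]
    field_simp
  have h6 : 1 / (2 * l) * 4 = √J := by
    rw [hl]
    field_simp
    ring
  have h7 : √(4 * J) = 2 * √J := by
    rw [Real.sqrt_mul (by norm_num), show (4:ℝ) = 2 ^ 2 by norm_num, Real.sqrt_sq (by norm_num)]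
  rw [h7]
  linarith

/-- the bound of one kernel -/
noncomputable def cj (a m : ℕ) : ℝ :=
  0.45 * (2 * m + a) + 5.4 * (m * (m + a) * (2 * m + a) / ((2 * (m : ℝ) + a) ^ 2 - 1))

lemma frac_le (a m : ℕ) : ∫ v in (0:ℝ)..1, 2 * v * (kb a m v) ^ 2 * (1 - v ^ 2) ^ (3 / 4 : ℝ) ≤ cj a m / 4 := by
  rcases Nat.eq_zero_or_pos m with h | h
  · subst h
    simp only [kb_zero]
    unfold cj
    simp
    positivity
  · obtain ⟨n, rfl⟩ : ∃ n, m = n + 1 := ⟨m - 1, by omega⟩
    have h1 := frac a n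
    rw [J1_eq a h, J2_eq a h] at h1
    set I : ℝ := ∫ v in (0:ℝ)..1, 2 * v * (kb a (n + 1) v) ^ 2 * (1 - v ^ 2) ^ (3 / 4 : ℝ) with hI
    unfold cj
    have hn : (0:ℝ) ≤ n := Nat.cast_nonneg n
    have ha : (0:ℝ) ≤ a := Nat.cast_nonneg a
    push_cast at h1 ⊢
    set m : ℝ := (n : ℝ) + 1 with hm
    have hm1 : 1 ≤ m := by rw [hm]; linarith
    set R : ℝ := 2 * m + a with hR
    have hR2 : 2 ≤ R := by rw [hR]; linarith
    have hR1 : 0 < R ^ 2 - 1 := by nlinarith
    set P : ℝ := m * (m + a) with hP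
    have hP1 : 1 ≤ P := by rw [hP]; nlinarith
    have e1 : cB a m = 1 / 2 * (P + 3 / 32) := by
      unfold cB
      rw [hP]
      ring
    have e2 : cA a m = 3 / 8 * R ^ 2 - 27 / 128 := by
      unfold cA
      rw [hR]
      ring
    have e3 : 2 * m ^ 2 * (m + a) ^ 2 = 2 * P ^ 2 := by rw [hP]; ring
    rw [e1, e2, e3] at h1
    set Q : ℝ := 0.15 * (P / R) + 0.9 * (2 * P ^ 2 / (R * (R ^ 2 - 1))) with hQ
    have hQ0 : 0 ≤ Q := by positivity
    have h2 : I * P ≤ 3 / 4 * R ^ 2 * Q := by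
      have h3 : 1 / 2 * (P + 3 / 32) * I ≤ 3 / 8 * R ^ 2 * Q := by
        refine h1.trans (mul_le_mul_of_nonneg_right (by linarith) hQ0)
      have hI0 : 0 ≤ I := by
        rw [hI]
        refine intervalIntegral.integral_nonneg zero_le_one fun v hv => ?_
        have hx : 0 ≤ 1 - v ^ 2 := by
          have := pow_le_one₀ hv.1 hv.2 (n := 2)
          linarith
        exact mul_nonneg (mul_nonneg (by linarith [hv.1]) (sq_nonneg _)) (Real.rpow_nonneg hx _)
      nlinarith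
    have h4 : 3 / 4 * R ^ 2 * Q = (0.45 * R + 5.4 * (P * R / (R ^ 2 - 1))) / 4 * P := by
      rw [hQ]
      field_simp
      ring
    rw [h4] at h2
    exact le_of_mul_le_mul_right h2 (by linarith)

/-- **The square function, log-free bound.** -/
theorem GB_frac {S : Finset ℤ} (A M : ℤ → ℕ) (h : ∀ j ∈ S, 0 < 2 * M j + A j) :
    GB S A M ≤ √(∑ j ∈ S, cj (A j) (M j)) := by
  rcases S.eq_empty_or_nonempty with hS | hS
  · subst hS
    unfold GB gS
    simp
  · have hpos : ∀ j ∈ S, 0 < cj (A j) (M j) := by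
      intro j hj
      have h1 : (1:ℝ) ≤ 2 * M j + A j := by exact_mod_cast h j hj
      unfold cj
      have h2 : 0 ≤ (M j : ℝ) * (M j + A j) * (2 * M j + A j) / ((2 * (M j : ℝ) + A j) ^ 2 - 1) := by
        refine div_nonneg (by positivity) ?_
        nlinarith
      nlinarith
    have hsum : 0 < ∑ j ∈ S, cj (A j) (M j) := Finset.sum_pos hpos hS
    have h1 : ∫ v in (0:ℝ)..1, 2 * v * (gS S A M v) ^ 2 * (1 - v ^ 2) ^ (3 / 4 : ℝ) ≤
        (∑ j ∈ S, cj (A j) (M j)) / 4 := by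
      have e1 : ∀ v : ℝ, 2 * v * (gS S A M v) ^ 2 * (1 - v ^ 2) ^ (3 / 4 : ℝ) =
          ∑ j ∈ S, 2 * v * (kb (A j) (M j) v) ^ 2 * (1 - v ^ 2) ^ (3 / 4 : ℝ) := by
        intro v
        unfold gS
        rw [Real.sq_sqrt (Finset.sum_nonneg fun _ _ => sq_nonneg _), Finset.mul_sum, Finset.sum_mul]
      simp only [e1]
      rw [intervalIntegral.integral_finsetSum]
      · rw [Finset.sum_div]
        exact Finset.sum_le_sum fun j _ => frac_le (A j) (M j)
      · intro j _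
        have := kb_cont (A j) (M j)
        have hxc : Continuous fun v : ℝ => (1 - v ^ 2) ^ (3 / 4 : ℝ) :=
          (by fun_prop : Continuous fun v : ℝ => 1 - v ^ 2).rpow_const fun _ => Or.inr (by norm_num)
        exact (by fun_prop : Continuous fun v : ℝ =>
          2 * v * (kb (A j) (M j) v) ^ 2 * (1 - v ^ 2) ^ (3 / 4 : ℝ)).intervalIntegrable _ _
    have h2 := cs_frac (gS_cont S A M) (by positivity) h1
    have e5 : ∀ v : ℝ, 2 * v * |gS S A M v| = 2 * v * gS S A M v := fun v => by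
      rw [abs_of_nonneg (gS_nonneg S A M v)]
    simp only [e5] at h2
    unfold GB
    refine h2.trans (Real.sqrt_le_sqrt (le_of_eq ?_))
    ring

/-- splitting the set of types -/
lemma GB_union {S T : Finset ℤ} (hd : Disjoint S T) (A M : ℤ → ℕ) :
    GB (S ∪ T) A M ≤ GB S A M + GB T A M := by
  have hS := gS_cont S A M
  have hT := gS_cont T A M
  have hU := gS_cont (S ∪ T) A M
  unfold GB
  rw [← intervalIntegral.integral_add ((by fun_prop : Continuous fun v : ℝ => 2 * v * gS S A M v).intervalIntegrable _ _)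
    ((by fun_prop : Continuous fun v : ℝ => 2 * v * gS T A M v).intervalIntegrable _ _)]
  refine intervalIntegral.integral_mono_on zero_le_one
    ((by fun_prop : Continuous fun v : ℝ => 2 * v * gS (S ∪ T) A M v).intervalIntegrable _ _)
    ((by fun_prop : Continuous fun v : ℝ => 2 * v * gS S A M v + 2 * v * gS T A M v).intervalIntegrable _ _)
    fun v hv => ?_
  rw [← mul_add]
  refine mul_le_mul_of_nonneg_left ?_ (by linarith [hv.1])
  unfold gS
  rw [Finset.sum_union hd]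
  have h1 : 0 ≤ ∑ j ∈ S, kb (A j) (M j) v ^ 2 := Finset.sum_nonneg fun _ _ => sq_nonneg _
  have h2 : 0 ≤ ∑ j ∈ T, kb (A j) (M j) v ^ 2 := Finset.sum_nonneg fun _ _ => sq_nonneg _
  rw [Real.sqrt_le_left (by positivity)]
  nlinarith [Real.sq_sqrt h1, Real.sq_sqrt h2, mul_nonneg (Real.sqrt_nonneg (∑ j ∈ S, kb (A j) (M j) v ^ 2))
    (Real.sqrt_nonneg (∑ j ∈ T, kb (A j) (M j) v ^ 2))]

end Pool.Agent.Run7.h695.BT
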