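import Pool.Agent.Run7.h695.BT.Reg
import Pool.Agent.Run7.h695.BT.Frac

/-!
# The three regions (helper695)
-/

set_option autoImplicit false

open Finset MeasureTheory

namespace Pool.Agent.Run7.h695.BT

lemma sub_int {g : ℝ → ℝ} (hg : Continuous g) (h0 : ∀ v, 0 ≤ v → v ≤ 1 → 0 ≤ g v) {α β : ℝ} (hα : 0 ≤ α)
    (hαβ : α ≤ β) (hβ : β ≤ 1) : ∫ v in α..β, g v ≤ ∫ v in (0:ℝ)..1, g v := by
  have h1 : ∫ v in (0:ℝ)..1, g v = (∫ v in (0:ℝ)..α, g v) + (∫ v in α..β, g v) + ∫ v in β..1, g v := by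
    rw [intervalIntegral.integral_add_adjacent_intervals (hg.intervalIntegrable _ _) (hg.intervalIntegrable _ _),
      intervalIntegral.integral_add_adjacent_intervals (hg.intervalIntegrable _ _) (hg.intervalIntegrable _ _)]
  have h2 : 0 ≤ ∫ v in (0:ℝ)..α, g v :=
    intervalIntegral.integral_nonneg hα fun v hv => h0 v hv.1 (by linarith [hv.2])
  have h3 : 0 ≤ ∫ v in β..1, g v :=
    intervalIntegral.integral_nonneg hβ fun v hv => h0 v (by linarith [hv.1]) hv.2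
  linarith

/-- the region near `1` -/
lemma reg3 {a m : ℕ} (ha : 1 ≤ a) (hR : 0 < 2 * m + a) {v0 κ : ℝ} (hv0 : 0 < v0) (hv1 : v0 < 1)
    (hκ : (1 - v0 ^ 2) ^ (1 / 4 : ℝ) ≤ κ) :
    ∫ v in v0..1, |kh a m v| ≤ √(cj a m * (κ / v0 ^ 4)) := by
  have hx0 : 0 < 1 - v0 ^ 2 := by nlinarith
  have hκ0 : 0 < κ := (Real.rpow_pos_of_pos hx0 _).trans_le hκ
  have hc0 : 0 < cj a m := by
    have h1 : (1:ℝ) ≤ 2 * m + a := by exact_mod_cast hR
    unfold cj
    have h2 : 0 ≤ (m : ℝ) * (m + a) * (2 * m + a) / ((2 * (m : ℝ) + a) ^ 2 - 1) := by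
      refine div_nonneg (by positivity) ?_
      nlinarith
    nlinarith
  have hkh := kh_cont a m
  have hkb := kb_cont a m
  have hxc : Continuous fun v : ℝ => (1 - v ^ 2) ^ (3 / 4 : ℝ) :=
    (by fun_prop : Continuous fun v : ℝ => 1 - v ^ 2).rpow_const fun _ => Or.inr (by norm_num)
  have hrel : ∀ v, kh a m v ^ 2 * (v ^ 3 * (1 - v ^ 2) ^ (3 / 4 : ℝ) / 2) =
      2 * v * kb a m v ^ 2 * (1 - v ^ 2) ^ (3 / 4 : ℝ) := by
    intro v
    obtain ⟨b, rfl⟩ : ∃ b, a = b + 1 := ⟨a - 1, by omega⟩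
    rw [kb_f0, kh, Nat.add_sub_cancel]
    ring
  -- the integral of the inverse weight
  have hcF : ContinuousOn (fun v : ℝ => -(4 / v0 ^ 4) * (1 - v ^ 2) ^ (1 / 4 : ℝ)) (Set.Icc v0 1) := by
    refine Continuous.continuousOn ?_
    exact continuous_const.mul ((by fun_prop : Continuous fun v : ℝ => 1 - v ^ 2).rpow_const
      fun _ => Or.inr (by norm_num))
  have hd : ∀ v ∈ Set.Ioo v0 1, HasDerivAt (fun v : ℝ => -(4 / v0 ^ 4) * (1 - v ^ 2) ^ (1 / 4 : ℝ))
      (2 * v / v0 ^ 4 * (1 - v ^ 2) ^ (-(3 / 4) : ℝ)) v := by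
    intro v hv
    have hv2 : v ^ 2 < 1 := by nlinarith [hv.1, hv.2]
    have hx : 0 < 1 - v ^ 2 := by linarith
    have dx : HasDerivAt (fun v : ℝ => 1 - v ^ 2) (-(2 * v)) v := by
      refine ((hasDerivAt_pow 2 v).const_sub 1).congr_deriv ?_
      norm_num
    refine ((dx.rpow_const (p := 1 / 4) (Or.inl hx.ne')).const_mul (-(4 / v0 ^ 4))).congr_deriv ?_
    have : (1 / 4 : ℝ) - 1 = -(3 / 4) := by norm_num
    rw [this]
    ring
  have hi : IntervalIntegrable (fun v : ℝ => 2 * v / v0 ^ 4 * (1 - v ^ 2) ^ (-(3 / 4) : ℝ)) volume v0 1 := by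
    refine intervalIntegral.intervalIntegrable_deriv_of_nonneg
      (g := fun v : ℝ => -(4 / v0 ^ 4) * (1 - v ^ 2) ^ (1 / 4 : ℝ))
      (by rwa [Set.uIcc_of_le hv1.le]) (fun v hv => ?_) (fun v hv => ?_)
    · rw [min_eq_left hv1.le, max_eq_right hv1.le] at hv
      exact hd v hv
    · rw [min_eq_left hv1.le, max_eq_right hv1.le] at hv
      have hv0' : 0 < v := hv0.trans hv.1
      have hv2 : v ^ 2 < 1 := by nlinarith [hv.1, hv.2]
      have : 0 ≤ (1 - v ^ 2) ^ (-(3 / 4) : ℝ) := Real.rpow_nonneg (by linarith) _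
      positivity
  have hQ : ∫ v in v0..1, 2 * v / v0 ^ 4 * (1 - v ^ 2) ^ (-(3 / 4) : ℝ) ≤ 4 * κ / v0 ^ 4 := by
    rw [intervalIntegral.integral_eq_sub_of_hasDerivAt_of_le hv1.le hcF hd hi]
    have : ((1:ℝ) - 1 ^ 2) ^ (1 / 4 : ℝ) = 0 := by
      rw [one_pow, sub_self, Real.zero_rpow (by norm_num)]
    rw [this]
    have h5 : 4 / v0 ^ 4 * (1 - v0 ^ 2) ^ (1 / 4 : ℝ) ≤ 4 / v0 ^ 4 * κ :=
      mul_le_mul_of_nonneg_left hκ (by positivity)
    have h6 : 4 * κ / v0 ^ 4 = 4 / v0 ^ 4 * κ := by ring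
    rw [h6]
    linarith
  have h := cs_reg (F := kh a m) (w := fun v => v ^ 3 * (1 - v ^ 2) ^ (3 / 4 : ℝ) / 2)
    (wi := fun v => 2 * v / v0 ^ 4 * (1 - v ^ 2) ^ (-(3 / 4) : ℝ)) (P := cj a m / 4) (Q := 4 * κ / v0 ^ 4)
    hv1.le (hkh.intervalIntegrable _ _)
    ((by fun_prop : Continuous fun v => kh a m v ^ 2 * (v ^ 3 * (1 - v ^ 2) ^ (3 / 4 : ℝ) / 2)).intervalIntegrable _ _)
    hi (fun v hv => by
      have hv0' : 0 < v := hv0.trans hv.1
      have hv2 : v ^ 2 < 1 := by nlinarith [hv.1, hv.2]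
      have hx : 0 < 1 - v ^ 2 := by linarith
      set w : ℝ := (1 - v ^ 2) ^ (3 / 4 : ℝ) with hw
      have hw0 : 0 < w := Real.rpow_pos_of_pos hx _
      have hwi : (1 - v ^ 2) ^ (-(3 / 4) : ℝ) = w⁻¹ := by rw [Real.rpow_neg hx.le]
      rw [hwi]
      refine ⟨by positivity, ?_⟩
      have e : v ^ 3 * w / 2 * (2 * v / v0 ^ 4 * w⁻¹) = v ^ 4 / v0 ^ 4 := by
        field_simp
      rw [e, le_div_iff₀ (by positivity), one_mul]
      exact pow_le_pow_left₀ hv0.le hv.1.le 4)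
    (by positivity) (by positivity) (by
      simp only [hrel]
      refine (sub_int (by fun_prop) (fun v hv h1 => ?_) hv0.le hv1.le le_rfl).trans (frac_le a m)
      have hx : 0 ≤ 1 - v ^ 2 := by
        have := pow_le_one₀ hv h1 (n := 2)
        linarith
      exact mul_nonneg (mul_nonneg (by linarith) (sq_nonneg _)) (Real.rpow_nonneg hx _)) hQ
  refine h.trans (Real.sqrt_le_sqrt (le_of_eq ?_))
  ring

/-- the middle region -/
lemma reg2 (b m : ℕ) {t0 A : ℝ} (ht0 : 0 < t0) (ht1 : t0 < 1 / 2) (hA0 : 0 < A) (hA : AV b m ≤ A) :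
    ∫ v in (t0 ^ 2)..(1 / 4), |kh (b + 1) m v| ≤ √(A * (4.88 / t0)) := by
  have hkh := kh_cont (b + 1) m
  have hf0 := f0_cont (b + 1) m
  have hcv := intervalIntegral.integral_comp_mul_deriv (a := t0) (b := 1 / 2) (f := fun t : ℝ => t ^ 2)
    (f' := fun t : ℝ => 2 * t) (g := fun v => |kh (b + 1) m v|) (fun t _ => by
      refine (hasDerivAt_pow 2 t).congr_deriv ?_
      norm_num) (by fun_prop) hkh.abs
  simp only [Function.comp] at hcv
  have e1 : ((1:ℝ) / 2) ^ 2 = 1 / 4 := by norm_num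
  rw [e1] at hcv
  rw [← hcv]
  have e2 : ∫ t in t0..(1 / 2), |kh (b + 1) m (t ^ 2)| * (2 * t) =
      ∫ t in t0..(1 / 2), |4 * t ^ (2 * b + 1) * f0 (b + 1) m (t ^ 4)| := by
    refine intervalIntegral.integral_congr fun t ht => ?_
    rw [Set.uIcc_of_le ht1.le] at ht
    have ht0' : 0 < t := ht0.trans_le ht.1
    have e3 : |kh (b + 1) m (t ^ 2)| * (2 * t) = |kh (b + 1) m (t ^ 2) * (2 * t)| := by
      rw [abs_mul, abs_of_pos (by positivity : 0 < 2 * t)]
    rw [e3]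
    congr 1
    unfold kh
    rw [Nat.add_sub_cancel, ← pow_mul, ← pow_mul]
    ring
  rw [e2]
  have hd : ∀ t ∈ Set.Icc t0 (1 / 2), HasDerivAt (fun t : ℝ => -4.88 * t⁻¹) (4.88 / t ^ 2) t := by
    intro t ht
    have ht0' : t ≠ 0 := (ht0.trans_le ht.1).ne'
    refine ((hasDerivAt_inv ht0').const_mul (-4.88)).congr_deriv ?_
    field_simp
  have hci : ContinuousOn (fun t : ℝ => 4.88 / t ^ 2) (Set.uIcc t0 (1 / 2)) := by
    rw [Set.uIcc_of_le ht1.le]
    exact continuousOn_const.div (by fun_prop) fun t ht => pow_ne_zero _ (ht0.trans_le ht.1).ne'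
  have hQ : ∫ t in t0..(1 / 2), 4.88 / t ^ 2 ≤ 4.88 / t0 := by
    rw [intervalIntegral.integral_eq_sub_of_hasDerivAt (fun t ht => hd t (by rwa [Set.uIcc_of_le ht1.le] at ht))
      hci.intervalIntegrable]
    have h7 : ((1:ℝ) / 2)⁻¹ = 2 := by norm_num
    have h8 : (4.88 : ℝ) / t0 = 4.88 * t0⁻¹ := div_eq_mul_inv _ _
    rw [h7, h8]
    linarith
  have h := cs_reg (F := fun t => 4 * t ^ (2 * b + 1) * f0 (b + 1) m (t ^ 4))
    (w := fun t => t ^ 2 * (1 - t ^ 4) ^ 3 / 4) (wi := fun t => 4.88 / t ^ 2) (P := A) (Q := 4.88 / t0)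
    ht1.le ((by fun_prop : Continuous fun t : ℝ => 4 * t ^ (2 * b + 1) * f0 (b + 1) m (t ^ 4)).intervalIntegrable _ _)
    ((by fun_prop : Continuous fun t : ℝ => (4 * t ^ (2 * b + 1) * f0 (b + 1) m (t ^ 4)) ^ 2 *
      (t ^ 2 * (1 - t ^ 4) ^ 3 / 4)).intervalIntegrable _ _) hci.intervalIntegrable (fun t ht => by
      have ht0' : 0 < t := ht0.trans ht.1
      have ht4 : t ^ 4 ≤ 1 / 16 := by
        have := pow_le_pow_left₀ ht0'.le ht.2.le 4
        norm_num at this ⊢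
        linarith
      have hx : 15 / 16 ≤ 1 - t ^ 4 := by linarith
      refine ⟨by positivity, ?_⟩
      have e : t ^ 2 * (1 - t ^ 4) ^ 3 / 4 * (4.88 / t ^ 2) = 1.22 * (1 - t ^ 4) ^ 3 := by
        field_simp
        ring
      rw [e]
      have := pow_le_pow_left₀ (by norm_num) hx 3
      norm_num at this ⊢
      linarith) hA0 (by positivity) (by
      refine le_trans ?_ hA
      have e : ∀ t : ℝ, (4 * t ^ (2 * b + 1) * f0 (b + 1) m (t ^ 4)) ^ 2 * (t ^ 2 * (1 - t ^ 4) ^ 3 / 4) =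
          4 * t ^ (4 * b + 4) * f0 (b + 1) m (t ^ 4) ^ 2 * (1 - t ^ 4) ^ 3 := by
        intro t
        ring
      simp only [e]
      refine sub_int (by fun_prop) (fun t ht h1 => ?_) ht0.le ht1.le (by norm_num)
      have hx : 0 ≤ 1 - t ^ 4 := by
        have := pow_le_one₀ ht h1 (n := 4)
        linarith
      positivity) hQ
  exact h

/-- the region near `0`, `a = 1` -/
lemma reg1 (n : ℕ) {s0 : ℝ} (h0 : 0 ≤ s0) (h1 : s0 ^ 2 ≤ 1 / 2) :
    ∫ v in (0:ℝ)..s0, |kh 1 (n + 1) v| ≤ 2 * s0 * (((n : ℝ) + 1) * (n + 2)) := by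
  have hkh := kh_cont 1 (n + 1)
  have h2 : ∫ v in (0:ℝ)..s0, |kh 1 (n + 1) v| ≤ ∫ v in (0:ℝ)..s0, 2 * (((n : ℝ) + 1) * (n + 2)) := by
    refine intervalIntegral.integral_mono_on h0 (hkh.abs.intervalIntegrable _ _)
      (continuous_const.intervalIntegrable _ _) fun v hv => ?_
    have h3 : v ^ 2 ≤ 1 / 2 := (pow_le_pow_left₀ hv.1 hv.2 2).trans h1
    have h4 := sonin n (sq_nonneg v) h3
    unfold kh
    rw [Nat.sub_self, pow_zero, mul_one, abs_mul, abs_of_pos (by norm_num : (0:ℝ) < 2)]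
    linarith
  rw [intervalIntegral.integral_const, sub_zero, smul_eq_mul] at h2
  linarith

/-- the region near `0`, `a ≥ 2` -/
lemma reg1' (b m : ℕ) {s0 P : ℝ} (h0 : 0 < s0) (h1 : s0 ≤ 1 / 4) (hP0 : 0 < P)
    (hP : ∫ v in (0:ℝ)..1, 2 * v ^ (2 * b + 1) * f0 (b + 2) m (v ^ 2) ^ 2 * (1 - v ^ 2) ^ 2 ≤ P) :
    ∫ v in (0:ℝ)..s0, |kh (b + 2) m v| ≤ √(P * (1.14 * s0 ^ 2)) := by
  have hf0 := f0_cont (b + 2) m
  have hkh := kh_cont (b + 2) m
  have hq : ∀ v : ℝ, 2 * v ^ (2 * b + 1) * f0 (b + 2) m (v ^ 2) ^ 2 * (1 - v ^ 2) ^ 2 =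
      2 * v * (kq b m v) ^ 2 * (1 - v ^ 2) ^ 2 := by
    intro v
    have e : kq b m v = v ^ b * f0 (b + 2) m (v ^ 2) := by
      unfold kq f0
      rw [Finset.mul_sum]
      refine Finset.sum_congr rfl fun k _ => ?_
      ring
    rw [e]
    ring
  have hd : ∀ v : ℝ, HasDerivAt (fun v : ℝ => 1.14 * v ^ 2) (2.28 * v) v := by
    intro v
    refine ((hasDerivAt_pow 2 v).const_mul 1.14).congr_deriv ?_
    push_cast
    ring
  have hQ : ∫ v in (0:ℝ)..s0, 2.28 * v ≤ 1.14 * s0 ^ 2 := by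
    rw [intervalIntegral.integral_eq_sub_of_hasDerivAt (fun v _ => hd v)
      ((by fun_prop : Continuous fun v : ℝ => 2.28 * v).intervalIntegrable _ _)]
    norm_num
  have hkhq : ∀ v, kh (b + 2) m v = 2 * v * kq b m v := fun v => by
    have := kh_kq (a := b + 2) (by omega) m v
    rwa [Nat.add_sub_cancel] at this
  have hkq := kq_cont b m
  -- weight `(1 - v ^ 2) ^ 2 / (2 v)` applied to `kh`
  have h := cs_reg (F := fun v => kh (b + 2) m v) (w := fun v => (1 - v ^ 2) ^ 2 / (2 * v))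
    (wi := fun v => 2.28 * v) (P := P) (Q := 1.14 * s0 ^ 2) h0.le (hkh.intervalIntegrable _ _)
    (by
      have e : (fun v => kh (b + 2) m v ^ 2 * ((1 - v ^ 2) ^ 2 / (2 * v))) =
          fun v => 2 * v * (kq b m v) ^ 2 * (1 - v ^ 2) ^ 2 := by
        funext v
        rw [hkhq]
        rcases eq_or_ne v 0 with h | h
        · subst h
          simp
        · field_simp
      rw [e]
      exact (by fun_prop : Continuous fun v => 2 * v * (kq b m v) ^ 2 * (1 - v ^ 2) ^ 2).intervalIntegrable _ _)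
    ((by fun_prop : Continuous fun v : ℝ => 2.28 * v).intervalIntegrable _ _)
    (fun v hv => by
      have hv0 := hv.1
      have hv2 : v ^ 2 ≤ 1 / 16 := by
        have := pow_le_pow_left₀ hv0.le (hv.2.le.trans h1) 2
        norm_num at this ⊢
        linarith
      have hx : 15 / 16 ≤ 1 - v ^ 2 := by linarith
      refine ⟨by positivity, ?_⟩
      have e : (1 - v ^ 2) ^ 2 / (2 * v) * (2.28 * v) = 1.14 * (1 - v ^ 2) ^ 2 := by
        field_simp
        ring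
      rw [e]
      have := pow_le_pow_left₀ (by norm_num) hx 2
      norm_num at this ⊢
      linarith) hP0 (by positivity) (by
      refine le_trans ?_ hP
      simp only [hq]
      have e : ∀ v, kh (b + 2) m v ^ 2 * ((1 - v ^ 2) ^ 2 / (2 * v)) =
          2 * v * (kq b m v) ^ 2 * (1 - v ^ 2) ^ 2 := by
        intro v
        rw [hkhq]
        rcases eq_or_ne v 0 with h | h
        · subst h
          simp
        · field_simp
      simp only [e]
      refine sub_int (by fun_prop) (fun v hv h1 => ?_) le_rfl h0.le (by linarith)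
      positivity) hQ
  exact h

end Pool.Agent.Run7.h695.BT
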