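import Pool.Agent.Run7.h695.BT.Id

/-!
# The multiplier on the angular type `-a`, second part (helper695)
-/

set_option autoImplicit false

open MeasureTheory Filter Topology Set
open scoped ContDiff SchwartzMap ComplexConjugate

namespace Pool.Agent.Run7.h695.BT

open Pool.Agent.Y282.RB Pool.Agent.Y282.RB.A2
open Pool.Agent.N892.BW (TS)

lemma mkf0 (N : ℕ) {h : ℝ → ℂ} (hh : ContDiff ℝ ∞ h) {R : ℝ} (hR : ∀ x, R ≤ x → h x = 0) :
    ∃ f0 : 𝓢(ℂ, ℂ), ∀ z, f0 z = z ^ N * h (Complex.normSq z) := by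
  have hs : ContDiff ℝ ∞ (fun z : ℂ => z ^ N * h (Complex.normSq z)) := by
    have h1 : ContDiff ℝ ∞ (Complex.normSq : ℂ → ℝ) := by
      have e : (Complex.normSq : ℂ → ℝ) = fun z => z.re * z.re + z.im * z.im := by
        funext z
        exact Complex.normSq_apply z
      rw [e]
      exact (Complex.reCLM.contDiff.mul Complex.reCLM.contDiff).add
        (Complex.imCLM.contDiff.mul Complex.imCLM.contDiff)
    exact (contDiff_id.pow N).mul (hh.comp h1)
  have hc : HasCompactSupport (fun z : ℂ => z ^ N * h (Complex.normSq z)) := by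
    refine HasCompactSupport.intro (isCompact_closedBall (0 : ℂ) (|R| + 1)) fun w hw => ?_
    rw [Metric.mem_closedBall, dist_zero_right, not_le] at hw
    have h1 : R ≤ Complex.normSq w := by
      rw [Complex.normSq_eq_norm_sq]
      nlinarith [le_abs_self R, abs_nonneg R]
    rw [hR _ h1, mul_zero]
  exact ⟨hc.toSchwartzMap hs, fun z => rfl⟩

lemma TS_type {a : ℕ} {f : 𝓢(ℂ, ℂ)} (hf : ∀ b z : ℂ, ‖b‖ = 1 → f (b * z) = conj b ^ a * f z) (m : ℕ)
    (b z : ℂ) (hb : ‖b‖ = 1) : TS m f (b * z) = conj b ^ (2 * m + a) * TS m f z := by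
  rw [TS_rot hb (fun z => hf b z hb)]
  have h4 : conj b * b = 1 := by
    rw [← Complex.normSq_eq_conj_mul_self, Complex.normSq_eq_norm_sq, hb]
    simp
  have hb0 : b ≠ 0 := by
    rw [← norm_ne_zero_iff, hb]; exact one_ne_zero
  have h5 : conj b / b = conj b ^ 2 := by
    rw [div_eq_iff hb0, sq, mul_assoc, h4, mul_one]
  rw [h5, ← pow_mul, pow_add]

/-- the weak form -/
lemma weak {a : ℕ} {f : 𝓢(ℂ, ℂ)} (hf : ∀ b z : ℂ, ‖b‖ = 1 → f (b * z) = conj b ^ a * f z) (m : ℕ)
    {G : ℝ → ℂ} (hG : ContDiff ℝ ∞ G) {R : ℝ} (hR0 : 0 < R) (hR : ∀ x, R ≤ x → G x = 0) :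
    ∫ t in Ioi (0:ℝ), AA (2 * m + a) (TS m f) t * G t = ∫ t in Ioi (0:ℝ), DD a m (AA a f) t * G t := by
  obtain ⟨h, hh, hhR, hhG⟩ := A1.key m R G hG hR
  obtain ⟨f0, hf0⟩ := mkf0 (m + a) hh hhR
  have hψ : ∀ z, (db^[m] f0) z = z ^ (2 * m + a) * G (Complex.normSq z) := by
    intro z
    rw [db_iter hh hf0 m z, hhG]
    congr 2
    ring
  have hT : ∀ z, TS m (db^[m] f0) z = z ^ a * HH (m + a) h m (Complex.normSq z) := by
    intro z
    have h1 : TS m (db^[m] f0) z = Tn m (db^[m] f0) z := rfl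
    rw [h1, Tn_db, dd_iter hh hf0 m (by omega) z]
    congr 2
    omega
  have hp := pairing m f (db^[m] f0)
  have e1 : ∀ z, TS m f z * (db^[m] f0) z =
      (fun t => AA (2 * m + a) (TS m f) t * G t) (Complex.normSq z) := by
    intro z
    simp only
    rw [hψ, ← AA_eq (fun b z hb => TS_type hf m b z hb) z]
    ring
  have e2 : ∀ z, f z * TS m (db^[m] f0) z =
      (fun t => AA a f t * HH (m + a) h m t) (Complex.normSq z) := by
    intro z
    simp only
    rw [hT, ← AA_eq hf z]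
    ring
  rw [integral_congr_ae (Eventually.of_forall e1), integral_congr_ae (Eventually.of_forall e2),
    int_normSqC (fun t => AA (2 * m + a) (TS m f) t * G t),
    int_normSqC (fun t => AA a f t * HH (m + a) h m t)] at hp
  have hpi : (Real.pi : ℂ) ≠ 0 := Complex.ofReal_ne_zero.2 Real.pi_ne_zero
  have hp2 := mul_left_cancel₀ hpi hp
  rw [hp2]
  set hS : SR := ⟨h, hh, R, hhR⟩ with hhS
  obtain ⟨u, hu1, hu2⟩ := HH_formula a m hS
  refine parts (AA_cont a f.continuous) hG.continuous hR0 hR fun t ht => ?_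
  have h3 := hu2 t
  have h4 : hS.1 = h := rfl
  rw [h4, hhG] at h3
  rw [h3, sub_eq_add_neg, ← Finset.sum_neg_distrib]
  congr 1
  refine Finset.sum_congr rfl fun k hk => ?_
  have h5 := solve (Finset.mem_range.1 hk) hG.continuous hR (u k) (fun t => by
    have := hu1 k (Finset.mem_range.1 hk) t
    rwa [h4, hhG] at this) ht
  rw [h5]
  ring

/-- the strong form -/
lemma strong {a : ℕ} {f : 𝓢(ℂ, ℂ)} (hf : ∀ b z : ℂ, ‖b‖ = 1 → f (b * z) = conj b ^ a * f z) (m : ℕ)
    {t : ℝ} (ht : 0 < t) : AA (2 * m + a) (TS m f) t = DD a m (AA a f) t := by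
  have c1 : Continuous (AA (2 * m + a) (TS m f)) :=
    AA_cont _ (Pool.Agent.N892.BW.RTT.TS_cont m f)
  have c2 : Continuous (DD a m (AA a f)) := DD_cont a m (AA_cont a f.continuous)
  have h1 : ∀ᵐ x : ℝ, x ∈ Ioi (0:ℝ) → (AA (2 * m + a) (TS m f) x - DD a m (AA a f) x) = 0 := by
    refine isOpen_Ioi.ae_eq_zero_of_integral_contDiff_smul_eq_zero
      ((c1.sub c2).locallyIntegrable.locallyIntegrableOn _) fun g hg hgc hgs => ?_
    set G : ℝ → ℂ := fun x => ((g x : ℝ) : ℂ) with hG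
    have hGs : ContDiff ℝ ∞ G := Complex.ofRealCLM.contDiff.comp hg
    obtain ⟨R, hR0, hR⟩ : ∃ R : ℝ, 0 < R ∧ ∀ x, R ≤ x → G x = 0 := by
      obtain ⟨R, hR⟩ := hgc.isCompact.isBounded.bddAbove
      refine ⟨max R 0 + 1, by positivity, fun x hx => ?_⟩
      by_contra h
      have h1 : x ∈ tsupport g := subset_tsupport g (Function.mem_support.2 fun h0 => h (by rw [hG]; simp [h0]))
      have h2 := hR h1
      have := le_max_left R 0
      linarith
    have hw := weak hf m hGs hR0 hR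
    have hGc : HasCompactSupport G := hgc.comp_left (g := fun y : ℝ => (y : ℂ)) (by simp)
    have i1 : Integrable fun t => AA (2 * m + a) (TS m f) t * G t :=
      (c1.mul hGs.continuous).integrable_of_hasCompactSupport hGc.mul_left
    have i2 : Integrable fun t => DD a m (AA a f) t * G t :=
      (c2.mul hGs.continuous).integrable_of_hasCompactSupport hGc.mul_left
    have h2 : ∫ x, g x • (AA (2 * m + a) (TS m f) x - DD a m (AA a f) x) =
        ∫ x in Ioi (0:ℝ), (AA (2 * m + a) (TS m f) x * G x - DD a m (AA a f) x * G x) := by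
      rw [← setIntegral_eq_integral_of_forall_compl_eq_zero (s := Ioi (0:ℝ))]
      · refine setIntegral_congr_fun measurableSet_Ioi fun x _ => ?_
        simp only [Complex.real_smul]
        rw [hG]
        ring
      · intro x hx
        have : g x = 0 := by
          by_contra h0
          exact hx (hgs (subset_tsupport g (Function.mem_support.2 h0)))
        rw [this, zero_smul]
    rw [h2, integral_sub i1.integrableOn i2.integrableOn, hw, sub_self]
  have h2 : (AA (2 * m + a) (TS m f)) =ᵐ[volume.restrict (Ioi (0:ℝ))] (DD a m (AA a f)) := by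
    rw [Filter.EventuallyEq, ae_restrict_iff' measurableSet_Ioi]
    filter_upwards [h1] with x hx hx0
    exact sub_eq_zero.1 (hx hx0)
  exact Measure.eqOn_open_of_ae_eq h2 isOpen_Ioi c1.continuousOn c2.continuousOn ht

lemma al_sq {a : ℕ} {f : ℂ → ℂ} (hf : Continuous f) (k : ℕ) {r : ℝ} (hr : 0 < r) :
    al k (AA a f) (r ^ 2) = (r : ℂ) ^ (2 * k + a + 2) * yk (2 * k + a + 1) f (r : ℂ) := by
  have h1 := ray (2 * k + a + 1) (f := f) 1 hr
  rw [mul_one] at h1
  have e : 2 * k + a + 2 = 2 * k + a + 1 + 1 := by ring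
  rw [e, h1]
  unfold al
  have h2 := intervalIntegral.integral_deriv_smul_comp (a := 0) (b := r) (f := fun x : ℝ => x ^ 2)
    (f' := fun x : ℝ => 2 * x) (g := fun x : ℝ => AA a f x * (x : ℂ) ^ k) (fun x _ => by
      simpa using hasDerivAt_pow 2 x) (by fun_prop) (by
      have := AA_cont a hf
      fun_prop)
  simp only [ne_eq, OfNat.ofNat_ne_zero, not_false_eq_true, zero_pow] at h2
  rw [← h2, ← intervalIntegral.integral_const_mul]
  refine intervalIntegral.integral_congr fun s hs => ?_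
  rw [Set.uIcc_of_le hr.le] at hs
  simp only [Function.comp_apply, Complex.real_smul, mul_one]
  unfold AA
  rw [Real.sqrt_sq hs.1]
  push_cast
  ring

/-- **The multiplier on the positive half line.** -/
theorem ident {a : ℕ} {f : 𝓢(ℂ, ℂ)} (hf : ∀ b z : ℂ, ‖b‖ = 1 → f (b * z) = conj b ^ a * f z) (m : ℕ)
    {r : ℝ} (hr : 0 < r) : TS m f (r : ℂ) = FF a m f (r : ℂ) := by
  have h := strong hf m (t := r ^ 2) (by positivity)
  have hrc : (r : ℂ) ≠ 0 := Complex.ofReal_ne_zero.2 hr.ne'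
  have e1 : AA (2 * m + a) (TS m f) (r ^ 2) = TS m f (r : ℂ) * (r : ℂ) ^ (2 * m + a) := by
    unfold AA
    rw [Real.sqrt_sq hr.le]
  have e2 : DD a m (AA a f) (r ^ 2) = FF a m f (r : ℂ) * (r : ℂ) ^ (2 * m + a) := by
    unfold DD FF
    rw [sub_mul, Finset.sum_mul]
    congr 1
    · unfold AA
      rw [Real.sqrt_sq hr.le]
      push_cast
      ring
    · refine Finset.sum_congr rfl fun k hk => ?_
      rw [al_sq f.continuous k hr]
      have hk' := Finset.mem_range.1 hk
      have e3 : (r : ℂ) ^ (2 * m + a) = ((r ^ 2 : ℝ) : ℂ) ^ (m - 1 - k) * (r : ℂ) ^ (2 * k + a + 2) := by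
        push_cast
        rw [← pow_mul, ← pow_add]
        congr 1
        omega
      rw [e3]
      ring
  rw [e1, e2] at h
  exact mul_right_cancel₀ (pow_ne_zero _ hrc) h

lemma FF_type {a : ℕ} {f : ℂ → ℂ} (hf : ∀ b z : ℂ, ‖b‖ = 1 → f (b * z) = conj b ^ a * f z) (a' m : ℕ)
    (b z : ℂ) (hb : ‖b‖ = 1) : FF a' m f (b * z) = conj b ^ a * FF a' m f z := by
  have h1 : ∀ k, yk k f (b * z) = conj b ^ a * yk k f z := by
    intro k
    unfold yk
    rw [← intervalIntegral.integral_const_mul]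
    refine intervalIntegral.integral_congr fun v _ => ?_
    have : (v : ℂ) * (b * z) = b * ((v : ℂ) * z) := by ring
    rw [this, hf b _ hb]
    ring
  unfold FF
  simp only [h1, hf b z hb]
  rw [mul_sub, Finset.mul_sum]
  congr 1
  refine Finset.sum_congr rfl fun k _ => ?_
  ring

theorem norm_ident {a : ℕ} {f : 𝓢(ℂ, ℂ)} (hf : ∀ b z : ℂ, ‖b‖ = 1 → f (b * z) = conj b ^ a * f z) (m : ℕ)
    {z : ℂ} (hz : z ≠ 0) : ‖TS m f z‖ = ‖FF a m f z‖ := by
  have hn : (‖z‖ : ℂ) ≠ 0 := Complex.ofReal_ne_zero.2 (norm_ne_zero_iff.2 hz)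
  set b : ℂ := z / (‖z‖ : ℂ) with hb
  have ha : ‖b‖ = 1 := by
    rw [hb, norm_div, Complex.norm_real, norm_norm]
    exact div_self (norm_ne_zero_iff.2 hz)
  have hz2 : z = b * (‖z‖ : ℂ) := by rw [hb, div_mul_cancel₀ _ hn]
  rw [hz2, TS_type hf m b _ ha, FF_type hf a m b _ ha, ident hf m (norm_pos_iff.2 hz)]
  simp only [norm_mul, norm_pow, RCLike.norm_conj, ha, one_pow]

theorem eLp_ident {a : ℕ} {f : 𝓢(ℂ, ℂ)} (hf : ∀ b z : ℂ, ‖b‖ = 1 → f (b * z) = conj b ^ a * f z) (m : ℕ)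
    (p : ENNReal) : eLpNorm (TS m f) p volume = eLpNorm (FF a m f) p volume := by
  refine eLpNorm_congr_norm_ae ?_
  have h0 : ∀ᵐ ξ : ℂ, ξ ≠ 0 := by
    rw [ae_iff]
    simp
  filter_upwards [h0] with z hz
  exact norm_ident hf m hz

end Pool.Agent.Run7.h695.BT
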