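import Pool.Agent.Run7.h695.BT.Ker3

/-!
# The `L ^ 1` norm of the kernel: a bound of order `√(m log m)` (helper695)
-/

set_option autoImplicit false

open Finset MeasureTheory

namespace Pool.Agent.Run7.h695.BT

/-- the first difference of the moments -/
noncomputable def J1 (a m : ℕ) : ℝ := ∑ i ∈ range m, ck a m i * (mu a m i - mu a m (i + 1))

theorem J1_eq (a : ℕ) {m : ℕ} (hm : 1 ≤ m) : J1 a m = m * ((m : ℝ) + a) / (2 * m + a) := by
  obtain ⟨n, rfl⟩ : ∃ n, m = n + 1 := ⟨m - 1, by omega⟩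
  unfold J1
  rw [Finset.sum_range_succ, Finset.sum_eq_zero, zero_add]
  · rw [mu_one (show n < n + 1 by omega), t1]
    push_cast
    have ha : (0 : ℝ) ≤ a := Nat.cast_nonneg a
    have hn : (0 : ℝ) ≤ n := Nat.cast_nonneg n
    field_simp
    ring
  · intro i hi
    have hi' := mem_range.1 hi
    rw [mu_one (show i < n + 1 by omega), mu_one (show i + 1 < n + 1 by omega), sub_self, mul_zero]

lemma int_w2 (n : ℕ) (e1 e2 : ℝ) :
    ∫ v in (0:ℝ)..1, (2 * v ^ (2 * n + 1) + (e1 * (2 * v ^ (2 * n + 1) - 2 * v ^ (2 * (n + 1) + 1)) +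
      e2 * (2 * v ^ (2 * n + 1) - 2 * (2 * v ^ (2 * (n + 1) + 1)) + 2 * v ^ (2 * (n + 2) + 1)))) =
    1 / ((n : ℝ) + 1) + (e1 * (1 / ((n : ℝ) + 1) - 1 / ((n : ℝ) + 2)) +
      e2 * (1 / ((n : ℝ) + 1) - 2 * (1 / ((n : ℝ) + 2)) + 1 / ((n : ℝ) + 3))) := by
  have c : ∀ j : ℕ, IntervalIntegrable (fun v : ℝ => 2 * v ^ j) volume 0 1 := fun j =>
    (by fun_prop : Continuous fun v : ℝ => 2 * v ^ j).intervalIntegrable _ _
  have h1 : ∫ v in (0:ℝ)..1, (2 * v ^ (2 * n + 1) - 2 * (2 * v ^ (2 * (n + 1) + 1))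
      + 2 * v ^ (2 * (n + 2) + 1)) = 1 / ((n : ℝ) + 1) - 2 * (1 / ((n : ℝ) + 2)) + 1 / ((n : ℝ) + 3) := by
    have h2 : ∫ v in (0:ℝ)..1, 2 * (2 * v ^ (2 * (n + 1) + 1)) = 2 * (1 / (((n + 1 : ℕ) : ℝ) + 1)) := by
      rw [← int_odd]
      exact intervalIntegral.integral_const_mul _ _
    rw [intervalIntegral.integral_add ((c _).sub ((c _).const_mul 2)) (c _),
      intervalIntegral.integral_sub (c _) ((c _).const_mul 2), h2, int_odd, int_odd]
    push_cast
    ring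
  have h3 : ∫ v in (0:ℝ)..1, e2 * (2 * v ^ (2 * n + 1) - 2 * (2 * v ^ (2 * (n + 1) + 1))
      + 2 * v ^ (2 * (n + 2) + 1)) = e2 * (1 / ((n : ℝ) + 1) - 2 * (1 / ((n : ℝ) + 2)) + 1 / ((n : ℝ) + 3)) := by
    rw [← h1]
    exact intervalIntegral.integral_const_mul _ _
  have h4 : ∫ v in (0:ℝ)..1, e1 * (2 * v ^ (2 * n + 1) - 2 * v ^ (2 * (n + 1) + 1)) =
      e1 * (1 / ((n : ℝ) + 1) - 1 / ((n : ℝ) + 2)) := by
    have h5 : ∫ v in (0:ℝ)..1, (2 * v ^ (2 * n + 1) - 2 * v ^ (2 * (n + 1) + 1)) =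
        1 / ((n : ℝ) + 1) - 1 / ((n : ℝ) + 2) := by
      rw [intervalIntegral.integral_sub (c _) (c _), int_odd, int_odd]
      push_cast
      ring
    rw [← h5]
    exact intervalIntegral.integral_const_mul _ _
  rw [intervalIntegral.integral_add (c _) (((c _).sub (c _) |>.const_mul e1).add
    (((c _).sub ((c _).const_mul 2)).add (c _) |>.const_mul e2)),
    intervalIntegral.integral_add ((c _).sub (c _) |>.const_mul e1)
    (((c _).sub ((c _).const_mul 2)).add (c _) |>.const_mul e2), int_odd, h3, h4]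

/-- the weighted square integral of the kernel -/
lemma int_sq2 (a m : ℕ) (hm : 1 ≤ m) (e f : ℝ) :
    ∫ v in (0:ℝ)..1, 2 * v * (kb a m v) ^ 2 * (1 + e * (1 - v ^ 2) + f * (1 - v ^ 2) ^ 2) =
      m * ((m : ℝ) + a) + e * J1 a m + f * J2 a m := by
  have h1 : ∀ v : ℝ, 2 * v * (kb a m v) ^ 2 * (1 + e * (1 - v ^ 2) + f * (1 - v ^ 2) ^ 2) =
      ∑ i ∈ range m, ∑ k ∈ range m, (ck a m i * ck a m k) *
        (2 * v ^ (2 * (i + k + a) + 1) + (e * (2 * v ^ (2 * (i + k + a) + 1) - 2 * v ^ (2 * (i + k + a + 1) + 1)) +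
          f * (2 * v ^ (2 * (i + k + a) + 1) -
          2 * (2 * v ^ (2 * (i + k + a + 1) + 1)) + 2 * v ^ (2 * (i + k + a + 2) + 1)))) := by
    intro v
    have h2 : (kb a m v) ^ 2 = ∑ i ∈ range m, ∑ k ∈ range m,
        (ck a m i * v ^ (2 * i + a)) * (ck a m k * v ^ (2 * k + a)) := by
      rw [sq, kb, Finset.sum_mul_sum]
    rw [h2, mul_assoc, Finset.sum_mul, Finset.mul_sum]
    refine Finset.sum_congr rfl fun i _ => ?_
    rw [Finset.sum_mul, Finset.mul_sum]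
    refine Finset.sum_congr rfl fun k _ => ?_
    have e1 : v ^ (2 * (i + k + a) + 1) = v * v ^ (2 * i + a) * v ^ (2 * k + a) := by ring
    have e2 : v ^ (2 * (i + k + a + 1) + 1) = v ^ 2 * (v * v ^ (2 * i + a) * v ^ (2 * k + a)) := by ring
    have e3 : v ^ (2 * (i + k + a + 2) + 1) = v ^ 4 * (v * v ^ (2 * i + a) * v ^ (2 * k + a)) := by ring
    rw [e1, e2, e3]
    ring
  have hc : ∀ i k : ℕ, Continuous fun v : ℝ => (ck a m i * ck a m k) *
        (2 * v ^ (2 * (i + k + a) + 1) + (e * (2 * v ^ (2 * (i + k + a) + 1) - 2 * v ^ (2 * (i + k + a + 1) + 1)) +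
          f * (2 * v ^ (2 * (i + k + a) + 1) -
          2 * (2 * v ^ (2 * (i + k + a + 1) + 1)) + 2 * v ^ (2 * (i + k + a + 2) + 1)))) := by
    intro i k
    fun_prop
  simp only [h1]
  rw [intervalIntegral.integral_finsetSum (fun i _ =>
    (continuous_finsetSum _ fun k _ => hc i k).intervalIntegrable _ _)]
  have h3 : ∀ i ∈ range m, ∫ v in (0:ℝ)..1, ∑ k ∈ range m, (ck a m i * ck a m k) *
        (2 * v ^ (2 * (i + k + a) + 1) + (e * (2 * v ^ (2 * (i + k + a) + 1) - 2 * v ^ (2 * (i + k + a + 1) + 1)) +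
          f * (2 * v ^ (2 * (i + k + a) + 1) -
          2 * (2 * v ^ (2 * (i + k + a + 1) + 1)) + 2 * v ^ (2 * (i + k + a + 2) + 1)))) =
      ck a m i * mu a m i + e * (ck a m i * (mu a m i - mu a m (i + 1))) +
        f * (ck a m i * (mu a m i - 2 * mu a m (i + 1) + mu a m (i + 2))) := by
    intro i _
    rw [intervalIntegral.integral_finsetSum (fun k _ => (hc i k).intervalIntegrable _ _)]
    simp only [intervalIntegral.integral_const_mul, int_w2]
    unfold mu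
    simp only [Finset.mul_sum, ← Finset.sum_add_distrib, ← Finset.sum_sub_distrib]
    refine Finset.sum_congr rfl fun k _ => ?_
    push_cast
    have e1 : (k : ℝ) + i + a + 1 = i + k + a + 1 := by ring
    have e2 : (k : ℝ) + (i + 1) + a + 1 = i + k + a + 2 := by ring
    have e3 : (k : ℝ) + (i + 2) + a + 1 = i + k + a + 3 := by ring
    rw [e1, e2, e3]
    ring
  rw [Finset.sum_congr rfl h3, Finset.sum_add_distrib, Finset.sum_add_distrib, ← Finset.mul_sum,
    ← Finset.mul_sum, ← sum_ck a hm]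
  unfold J1 J2
  congr 2
  refine Finset.sum_congr rfl fun i hi => ?_
  rw [mu_one (mem_range.1 hi), mul_one]

/-- the integral of the inverse weight -/
lemma int_inv2 {α γ : ℝ} (hγ : 0 < γ) (hα : γ < α) :
    ∫ v in (0:ℝ)..1, 2 * v * ((1 + α * (1 - v ^ 2)) * (1 + γ * (1 - v ^ 2)))⁻¹ ≤
      Real.log (α / γ) / (α - γ) := by
  have hα0 : 0 < α := hγ.trans hα
  have hd : 0 < α - γ := by linarith
  have hp : ∀ v ∈ Set.Icc (0:ℝ) 1, 0 ≤ 1 - v ^ 2 := by
    intro v hv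
    have := pow_le_one₀ hv.1 hv.2 (n := 2)
    linarith
  have h1 : ∀ v ∈ Set.uIcc (0:ℝ) 1, HasDerivAt
      (fun v : ℝ => -((Real.log (1 + α * (1 - v ^ 2)) - Real.log (1 + γ * (1 - v ^ 2))) / (α - γ)))
      (2 * v * ((1 + α * (1 - v ^ 2)) * (1 + γ * (1 - v ^ 2)))⁻¹) v := by
    intro v hv
    rw [Set.uIcc_of_le zero_le_one] at hv
    have h0 := hp v hv
    have ha : (0:ℝ) < 1 + α * (1 - v ^ 2) := by positivity
    have hb : (0:ℝ) < 1 + γ * (1 - v ^ 2) := by positivity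
    have d0 : HasDerivAt (fun v : ℝ => 1 - v ^ 2) (-(2 * v)) v := by
      refine ((hasDerivAt_pow 2 v).const_sub 1).congr_deriv ?_
      norm_num
    have d1 := ((d0.const_mul α).const_add 1).log ha.ne'
    have d2 := ((d0.const_mul γ).const_add 1).log hb.ne'
    refine (((d1.sub d2).div_const (α - γ)).neg).congr_deriv ?_
    field_simp
    ring
  rw [intervalIntegral.integral_eq_sub_of_hasDerivAt h1]
  · norm_num
    have h2 : Real.log (1 + α) - Real.log (1 + γ) ≤ Real.log (α / γ) := by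
      rw [← Real.log_div (by positivity) (by positivity)]
      refine Real.log_le_log (by positivity) ?_
      rw [div_le_div_iff₀ (by positivity) hγ]
      nlinarith
    exact div_le_div_of_nonneg_right h2 hd.le
  · refine ContinuousOn.intervalIntegrable ?_
    rw [Set.uIcc_of_le zero_le_one]
    refine ContinuousOn.mul (by fun_prop) (ContinuousOn.inv₀ (by fun_prop) fun v hv => ?_)
    have h0 := hp v hv
    positivity

/-- abstract Cauchy-Schwarz in the form needed -/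
lemma cs_abs {F G : ℝ → ℝ} {W : ℝ → ℝ} (hF : ContinuousOn F (Set.Icc 0 1)) (hG : ContinuousOn G (Set.Icc 0 1))
    (hW : ContinuousOn W (Set.Icc 0 1)) (hW0 : ∀ v ∈ Set.Icc (0:ℝ) 1, 0 < W v)
    (hG0 : ∀ v ∈ Set.Icc (0:ℝ) 1, 0 ≤ G v) {I J : ℝ} (hI : 0 < I) (hJ : 0 < J)
    (h1 : ∫ v in (0:ℝ)..1, G v * F v ^ 2 * W v ≤ I) (h2 : ∫ v in (0:ℝ)..1, G v * (W v)⁻¹ ≤ J) :
    ∫ v in (0:ℝ)..1, G v * |F v| ≤ √(I * J) := by
  set l : ℝ := √(J / I) with hl
  have hl0 : 0 < l := Real.sqrt_pos.2 (by positivity)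
  have hl2 : l ^ 2 = J / I := Real.sq_sqrt (by positivity)
  have hp : ∀ v ∈ Set.Icc (0:ℝ) 1, G v * |F v| ≤ l / 2 * (G v * F v ^ 2 * W v) +
      1 / (2 * l) * (G v * (W v)⁻¹) := by
    intro v hv
    have hw := hW0 v hv
    rw [← sq_abs (F v)]
    set x := |F v| with hx
    have h3 : 0 ≤ G v * ((l * W v * x - 1) ^ 2 / (2 * l * W v)) :=
      mul_nonneg (hG0 v hv) (by positivity)
    have h4 : G v * ((l * W v * x - 1) ^ 2 / (2 * l * W v)) =
        l / 2 * (G v * x ^ 2 * W v) + 1 / (2 * l) * (G v * (W v)⁻¹) - G v * x := by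
      field_simp
      ring
    linarith
  have ii : ∀ {H : ℝ → ℝ}, ContinuousOn H (Set.Icc 0 1) → IntervalIntegrable H volume 0 1 := by
    intro H hH
    refine ContinuousOn.intervalIntegrable ?_
    rwa [Set.uIcc_of_le zero_le_one]
  have i1 : IntervalIntegrable (fun v => G v * F v ^ 2 * W v) volume 0 1 := ii ((hG.mul (hF.pow 2)).mul hW)
  have i2 : IntervalIntegrable (fun v => G v * (W v)⁻¹) volume 0 1 :=
    ii (hG.mul (hW.inv₀ fun v hv => (hW0 v hv).ne'))
  have h3 : ∫ v in (0:ℝ)..1, G v * |F v| ≤ ∫ v in (0:ℝ)..1, (l / 2 * (G v * F v ^ 2 * W v) +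
      1 / (2 * l) * (G v * (W v)⁻¹)) :=
    intervalIntegral.integral_mono_on zero_le_one (ii (hG.mul hF.abs)) ((i1.const_mul _).add (i2.const_mul _)) hp
  rw [intervalIntegral.integral_add (i1.const_mul _) (i2.const_mul _),
    intervalIntegral.integral_const_mul, intervalIntegral.integral_const_mul] at h3
  have h4 : l / 2 * (∫ v in (0:ℝ)..1, G v * F v ^ 2 * W v) ≤ l / 2 * I :=
    mul_le_mul_of_nonneg_left h1 (by positivity)
  have h5 : 1 / (2 * l) * (∫ v in (0:ℝ)..1, G v * (W v)⁻¹) ≤ 1 / (2 * l) * J :=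
    mul_le_mul_of_nonneg_left h2 (by positivity)
  have h6 : 1 / (2 * l) * J = l / 2 * I := by
    have : J = l ^ 2 * I := by rw [hl2]; field_simp
    rw [this]
    field_simp
  have h7 : l * I = √(I * J) := by
    have h8 : (l * I) = √((l * I) ^ 2) := (Real.sqrt_sq (by positivity)).symm
    rw [h8, mul_pow, hl2]
    congr 1
    field_simp
  rw [← h7]
  linarith

/-- the bound -/
theorem ka_bound2 (a m : ℕ) (hm : 1 ≤ m) :
    (∫ v in (0:ℝ)..1, |ka a m v|) ≤ √((3 * m + 4) * Real.log (2 * m)) := by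
  have hm1 : (1 : ℝ) ≤ m := by exact_mod_cast hm
  have hm0 : (0 : ℝ) < m := by linarith
  have ha : (0 : ℝ) ≤ a := Nat.cast_nonneg a
  set m' : ℝ := (m : ℝ) + a with hm'
  have hm'0 : 0 < m' := by positivity
  have hmm' : (m : ℝ) ≤ m' := by rw [hm']; linarith
  set γ : ℝ := m' / (2 * m) with hγ
  have hγ0 : 0 < γ := by positivity
  have hγα : γ < m' := by
    rw [hγ, div_lt_iff₀ (by positivity)]
    nlinarith
  have hlog : 0 < Real.log (2 * m) := Real.log_pos (by linarith)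
  have e0 : ∀ v ∈ Set.Icc (0:ℝ) 1, |ka a m v| = 2 * v * |kb a m v| := by
    intro v hv
    rw [ka_eq, abs_mul, abs_of_nonneg (by linarith [hv.1] : (0:ℝ) ≤ 2 * v)]
  have e1 : ∫ v in (0:ℝ)..1, |ka a m v| = ∫ v in (0:ℝ)..1, 2 * v * |kb a m v| := by
    refine intervalIntegral.integral_congr fun v hv => ?_
    rw [Set.uIcc_of_le zero_le_one] at hv
    exact e0 v hv
  have hp : ∀ v ∈ Set.Icc (0:ℝ) 1, 0 ≤ 1 - v ^ 2 := by
    intro v hv
    have := pow_le_one₀ hv.1 hv.2 (n := 2)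
    linarith
  rw [e1]
  have hI : ∫ v in (0:ℝ)..1, 2 * v * (kb a m v) ^ 2 * ((1 + m' * (1 - v ^ 2)) * (1 + γ * (1 - v ^ 2))) ≤
      m * m' * (3 + 1 / (2 * m)) := by
    have e2 : ∀ v : ℝ, 2 * v * (kb a m v) ^ 2 * ((1 + m' * (1 - v ^ 2)) * (1 + γ * (1 - v ^ 2))) =
        2 * v * (kb a m v) ^ 2 * (1 + (m' + γ) * (1 - v ^ 2) + (m' * γ) * (1 - v ^ 2) ^ 2) := by
      intro v; ring
    simp only [e2]
    rw [int_sq2 a m hm, J1_eq a hm, J2_eq a hm, ← hm']
    have e3 : (2 * (m : ℝ) + a) = m + m' := by rw [hm']; ring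
    rw [e3]
    have h4 : 0 < ((m : ℝ) + m') ^ 2 - 1 := by nlinarith
    have h5 : m' ^ 3 ≤ (m + m') * ((m + m') ^ 2 - 1) := by
      nlinarith [mul_pos hm0 hm'0, sq_nonneg m', mul_pos hm'0 hm'0]
    have k1 : (m' + γ) * (m * m' / (m + m')) ≤ m * m' * (1 + 1 / (2 * m)) := by
      have k2 : (m' + γ) / (m + m') ≤ 1 + 1 / (2 * m) := by
        rw [div_le_iff₀ (by positivity), hγ]
        have : m' + m' / (2 * m) = m' * (1 + 1 / (2 * m)) := by ring
        rw [this, mul_comm]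
        exact mul_le_mul_of_nonneg_left (by linarith) (by positivity)
      calc (m' + γ) * (m * m' / (m + m')) = m * m' * ((m' + γ) / (m + m')) := by ring
        _ ≤ _ := mul_le_mul_of_nonneg_left k2 (by positivity)
    have k3 : m' * γ * (2 * (m : ℝ) ^ 2 * m' ^ 2 / ((m + m') * ((m + m') ^ 2 - 1))) ≤ m * m' := by
      have k4 : m' * γ * (2 * (m : ℝ) ^ 2 * m' ^ 2) = m * m' * m' ^ 3 := by
        rw [hγ]; field_simp
      rw [mul_div_assoc', k4, div_le_iff₀ (by positivity)]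
      exact mul_le_mul_of_nonneg_left h5 (by positivity)
    have k5 : m * m' * (3 + 1 / (2 * m)) = m * m' + m * m' * (1 + 1 / (2 * m)) + m * m' := by ring
    linarith
  have hJ := int_inv2 hγ0 hγα
  have hJ2 : Real.log (m' / γ) / (m' - γ) = Real.log (2 * m) * (2 * m) / (m' * (2 * m - 1)) := by
    have e4 : m' / γ = 2 * m := by rw [hγ]; field_simp
    have h21 : (0:ℝ) < 2 * m - 1 := by linarith
    have e5 : m' - γ = m' * (2 * m - 1) / (2 * m) := by rw [hγ]; field_simp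
    rw [e4, e5]
    field_simp
  rw [hJ2] at hJ
  have h21 : (0:ℝ) < 2 * m - 1 := by linarith
  have hfin := cs_abs (F := kb a m) (G := fun v => 2 * v)
    (W := fun v => (1 + m' * (1 - v ^ 2)) * (1 + γ * (1 - v ^ 2))) (kb_cont a m).continuousOn (by fun_prop)
    (by fun_prop) (fun v hv => by have := hp v hv; positivity) (fun v hv => by linarith [hv.1])
    (I := m * m' * (3 + 1 / (2 * m))) (J := Real.log (2 * m) * (2 * m) / (m' * (2 * m - 1)))
    (by positivity) (by positivity) hI hJ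
  refine hfin.trans (Real.sqrt_le_sqrt ?_)
  have e6 : m * m' * (3 + 1 / (2 * m)) * (Real.log (2 * m) * (2 * m) / (m' * (2 * m - 1))) =
      (m * (6 * m + 1) / (2 * m - 1)) * Real.log (2 * m) := by
    field_simp
    ring
  rw [e6]
  refine mul_le_mul_of_nonneg_right ?_ hlog.le
  rw [div_le_iff₀ h21]
  nlinarith

end Pool.Agent.Run7.h695.BT
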