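import Pool.Agent.Y282.RB.K3

/-!
# The constants (helper695)
-/

set_option autoImplicit false

open Finset

namespace Pool.Agent.Run7.h695.BT

open Pool.Agent.Y282.RB

lemma exp_le_ratio {x : ℝ} (h0 : 0 ≤ x) (h1 : x < 1) : Real.exp (2 * x) ≤ (1 + x) / (1 - x) := by
  have h := Real.hasSum_log_sub_log_of_abs_lt_one (x := x) (by rw [abs_of_nonneg h0]; exact h1)
  have h2 := sum_le_hasSum (range 1) (fun k _ => by positivity) h
  rw [sum_range_one] at h2
  norm_num at h2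
  rw [← Real.log_div (by linarith) (by linarith)] at h2
  have h3 : 0 < (1 + x) / (1 - x) := div_pos (by linarith) (by linarith)
  rw [← Real.exp_log h3]
  exact Real.exp_le_exp.2 h2

lemma exp_two : (7.38 : ℝ) ≤ Real.exp 2 := by
  have h := Real.exp_one_gt_d9
  have h2 : Real.exp 2 = Real.exp 1 * Real.exp 1 := by rw [← Real.exp_add]; norm_num
  rw [h2]
  nlinarith

lemma exp_sum {n : ℕ} (hn : 1 ≤ n) :
    2.46 * (2 * (n : ℝ) + 1) ≤ Real.exp (∑ j ∈ range n, 2 / (2 * (j : ℝ) + 1)) := by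
  induction n, hn using Nat.le_induction with
  | base =>
    rw [sum_range_one]
    have := exp_two
    norm_num
    norm_num at this
    linarith
  | succ n hn ih =>
    rw [Finset.sum_range_succ, Real.exp_add]
    have h1 : 1 + 2 / (2 * (n : ℝ) + 1) ≤ Real.exp (2 / (2 * (n : ℝ) + 1)) := by
      have := Real.add_one_le_exp (2 / (2 * (n : ℝ) + 1))
      linarith
    have h2 : 0 < 1 + 2 / (2 * (n : ℝ) + 1) := by positivity
    calc 2.46 * (2 * ((n + 1 : ℕ) : ℝ) + 1) = (2.46 * (2 * (n : ℝ) + 1)) * (1 + 2 / (2 * (n : ℝ) + 1)) := by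
          push_cast
          field_simp
          ring
      _ ≤ _ := mul_le_mul ih h1 h2.le (Real.exp_pos _).le

lemma Cn_ge {p : ℝ} (hp : 2 ≤ p) (n : ℕ) :
    Real.exp (∑ j ∈ range n, 2 / (2 * (j : ℝ) + 1)) ^ (1 - 2 / p) ≤ Cn p n := by
  have hp0 : 0 < p := by linarith
  have hi : 1 / p ≤ 1 / 2 := one_div_le_one_div_of_le (by norm_num) hp
  have hi0 : 0 < 1 / p := by positivity
  rw [← Real.exp_mul, Finset.sum_mul, Real.exp_sum]
  unfold Cn
  refine Finset.prod_le_prod (fun j _ => (Real.exp_pos _).le) fun j _ => ?_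
  have hj : (0 : ℝ) ≤ j := Nat.cast_nonneg j
  set δ : ℝ := 1 / 2 - 1 / p with hδ
  have hδ0 : 0 ≤ δ := by rw [hδ]; linarith
  have hx0 : 0 ≤ δ / (j + 1 / 2) := by positivity
  have hx1 : δ / (j + 1 / 2) < 1 := by
    rw [div_lt_one (by positivity)]
    rw [hδ]
    linarith
  have h := exp_le_ratio hx0 hx1
  have e1 : 2 * (δ / ((j : ℝ) + 1 / 2)) = 2 / (2 * (j : ℝ) + 1) * (1 - 2 / p) := by
    rw [hδ]
    field_simp
  have e2 : (1 + δ / ((j : ℝ) + 1 / 2)) / (1 - δ / ((j : ℝ) + 1 / 2)) =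
      ((j : ℝ) + 1 - 1 / p) / ((j : ℝ) + 1 / p) := by
    have h3 : (j : ℝ) + 1 / 2 ≠ 0 := by positivity
    have h4 : (1 + δ / ((j : ℝ) + 1 / 2)) = ((j : ℝ) + 1 - 1 / p) / (j + 1 / 2) := by
      rw [hδ, eq_div_iff h3, add_mul, div_mul_cancel₀ _ h3]
      ring
    have h5 : (1 - δ / ((j : ℝ) + 1 / 2)) = ((j : ℝ) + 1 / p) / (j + 1 / 2) := by
      rw [hδ, eq_div_iff h3, sub_mul, div_mul_cancel₀ _ h3]
      ring
    rw [h4, h5, div_div_div_cancel_right₀ h3]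
  rw [← e1, ← e2]
  exact h

/-- comparison with the constant of `MP_dd244f_an` -/
theorem numA {n : ℕ} (hn : 1 ≤ n) {p : ℝ} (hp : 2 ≤ p) {C : ℝ} (hC0 : 0 ≤ C) (hC : C ≤ 2.46 * (2 * n + 1)) :
    C ^ (1 - 2 / p) ≤ (ascPochhammer ℝ n).eval (1 - 1 / p) / (ascPochhammer ℝ n).eval (1 / p) := by
  have hp0 : 0 < p := by linarith
  have he : 0 ≤ 1 - 2 / p := by
    rw [sub_nonneg, div_le_one hp0]; exact hp
  rw [← K3.main n p (by linarith)]
  exact (Real.rpow_le_rpow hC0 (hC.trans (exp_sum hn)) he).trans (Cn_ge hp n)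

/-- comparison with the constant of `MP_3dd6d4_an` -/
theorem numB {n : ℕ} {p : ℝ} (hp : 2 ≤ p) {C : ℝ} (hC0 : 0 ≤ C) (hC : C ≤ 7.38 * n) :
    C ^ (1 - 2 / p) ≤ (n : ℝ) ^ (1 - 2 / p) * (p - 1) := by
  have hp0 : 0 < p := by linarith
  have he : 0 ≤ 1 - 2 / p := by
    rw [sub_nonneg, div_le_one hp0]; exact hp
  have h1 := Cn_ge hp 1
  rw [sum_range_one] at h1
  have e1 : (2 : ℝ) / (2 * ((0 : ℕ) : ℝ) + 1) = 2 := by norm_num
  have e2 : Cn p 1 = p - 1 := by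
    unfold Cn
    rw [Finset.prod_range_one]
    push_cast
    field_simp
    ring
  rw [e1, e2] at h1
  have hn : (0:ℝ) ≤ n := Nat.cast_nonneg n
  calc C ^ (1 - 2 / p) ≤ (n * Real.exp 2) ^ (1 - 2 / p) := by
        refine Real.rpow_le_rpow hC0 (hC.trans ?_) he
        rw [mul_comm]
        exact mul_le_mul_of_nonneg_left exp_two hn
    _ = (n : ℝ) ^ (1 - 2 / p) * Real.exp 2 ^ (1 - 2 / p) := Real.mul_rpow hn (Real.exp_pos _).le
    _ ≤ _ := mul_le_mul_of_nonneg_left h1 (by positivity)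

end Pool.Agent.Run7.h695.BT
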