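import Pool.Agent.Run7.h695.BT.Interp
import Pool.Agent.Run7.h695.BT.Ker4
import Pool.Agent.Run7.h695.BT.Id2
import Pool.Agent.Run7.h695.BT.Num

/-!
# The powers of the Beurling transform on the angular types `j ≤ n` (helper695)
-/

set_option autoImplicit false

open MeasureTheory Filter Topology
open scoped SchwartzMap ComplexConjugate ENNReal

namespace Pool.Agent.Run7.h695.BT

open Pool.Agent.N892.BW (TS)

/-- the constant -/
noncomputable def Cc (m : ℕ) : ℝ := 1 + √((3 * m + 4) * Real.log (2 * m))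

lemma NB_le2 (a m : ℕ) : 1 + NB a m ≤ Cc m := by
  unfold Cc
  rcases Nat.eq_zero_or_pos m with h | h
  · subst h
    have : NB a 0 = 0 := by
      unfold NB ka
      simp
    rw [this]
    simp
  · have h1 := ka_bound2 a m h
    unfold NB
    linarith

lemma Cc_nonneg (m : ℕ) : 0 ≤ Cc m := by unfold Cc; positivity

lemma Cc_le {m n : ℕ} (hm : m ≤ n) : Cc m ≤ 4.92 * n + 1 := by
  have hmn : (m : ℝ) ≤ n := by exact_mod_cast hm
  unfold Cc
  rcases Nat.eq_zero_or_pos m with h | h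
  · subst h
    have hn : (0:ℝ) ≤ n := Nat.cast_nonneg n
    simp
    positivity
  · have hm1 : (1 : ℝ) ≤ m := by exact_mod_cast h
    have h1 : Real.log (2 * m) ≤ 2 * m - 1 := Real.log_le_sub_one_of_pos (by linarith)
    have h2 : √((3 * m + 4) * Real.log (2 * m)) ≤ 4.92 * m := by
      rw [Real.sqrt_le_left (by positivity)]
      calc (3 * (m : ℝ) + 4) * Real.log (2 * m) ≤ (3 * m + 4) * (2 * m - 1) :=
            mul_le_mul_of_nonneg_left h1 (by positivity)
        _ ≤ _ := by nlinarith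
    linarith

/-- from the bound of the operator to `eLpNorm` -/
theorem bo_eLp (T : 𝓢(ℂ, ℂ) → ℂ → ℂ) {p K : ℝ} (hp : 2 ≤ p) (h : RTg.Bo T p K) (f : 𝓢(ℂ, ℂ)) :
    eLpNorm (T f) (ENNReal.ofReal p) volume ≤
      ENNReal.ofReal K * eLpNorm (fun z : ℂ => f z) (ENNReal.ofReal p) volume := by
  have hp0 : 0 < p := by linarith
  have hq' : ENNReal.ofReal p ≠ 0 := by
    rw [Ne, ENNReal.ofReal_eq_zero, not_le]; exact hp0
  rw [eLpNorm_eq_lintegral_rpow_enorm_toReal hq' ENNReal.ofReal_ne_top,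
    eLpNorm_eq_lintegral_rpow_enorm_toReal hq' ENNReal.ofReal_ne_top, ENNReal.toReal_ofReal hp0.le]
  have h1 : ENNReal.ofReal K * (∫⁻ x, ‖f x‖ₑ ^ p) ^ (1 / p) =
      (ENNReal.ofReal K ^ p * ∫⁻ x, ‖f x‖ₑ ^ p) ^ (1 / p) := by
    rw [ENNReal.mul_rpow_of_nonneg _ _ (by positivity), ← ENNReal.rpow_mul, mul_one_div_cancel hp0.ne',
      ENNReal.rpow_one]
  rw [h1]
  exact ENNReal.rpow_le_rpow (h f) (by positivity)

/-- types `-a` -/
theorem neg_type {a : ℕ} {f : 𝓢(ℂ, ℂ)} (hf : ∀ b z : ℂ, ‖b‖ = 1 → f (b * z) = conj b ^ a * f z) (m : ℕ)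
    {p : ℝ} (hp : 2 ≤ p) : eLpNorm (TS m f) (ENNReal.ofReal p) volume ≤
      ENNReal.ofReal (Cc m ^ (1 - 2 / p)) * eLpNorm (fun z : ℂ => f z) (ENNReal.ofReal p) volume := by
  rw [eLp_ident hf m]
  exact bo_eLp (fun f : 𝓢(ℂ, ℂ) => FF a m f) hp (bo_all a m hp (NB_le2 a m)) f

lemma eLp_refl (f : 𝓢(ℂ, ℂ)) (p : ℝ≥0∞) :
    eLpNorm (fun z : ℂ => refl f z) p volume = eLpNorm (fun z : ℂ => f z) p volume := by
  have h := eLpNorm_comp_measurePreserving (p := p) (f := (Complex.conjLIE : ℂ → ℂ)) (g := fun z : ℂ => f z)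
    f.continuous.aestronglyMeasurable Complex.conjLIE.measurePreserving
  rw [← h]
  rfl

/-- all types `j ≤ n` -/
theorem low_type {n : ℕ} {j : ℤ} (hj : j ≤ n) {f : 𝓢(ℂ, ℂ)}
    (hf : ∀ b z : ℂ, ‖b‖ = 1 → f (b * z) = b ^ j * f z) {p : ℝ} (hp : 2 ≤ p) :
    eLpNorm (TS n f) (ENNReal.ofReal p) volume ≤
      ENNReal.ofReal (Cc (n - max j 0).toNat ^ (1 - 2 / p)) *
        eLpNorm (fun z : ℂ => f z) (ENNReal.ofReal p) volume := by
  rcases le_total j 0 with h | h
  · have e : (n - max j 0).toNat = n := by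
      rw [max_eq_right h]; omega
    rw [e]
    refine neg_type (a := (-j).toNat) (fun b z hb => ?_) n hp
    rw [hf b z hb]
    congr 1
    have h2 : j = -((-j).toNat : ℤ) := by omega
    have h4 : conj b * b = 1 := by
      rw [← Complex.normSq_eq_conj_mul_self, Complex.normSq_eq_norm_sq, hb]
      simp
    have h3 : b⁻¹ = conj b := (eq_inv_of_mul_eq_one_left h4).symm
    rw [h2, zpow_neg, zpow_natCast, ← inv_pow, h3]
    congr 1
    omega
  · obtain ⟨k, rfl⟩ : ∃ k : ℕ, j = k := ⟨j.toNat, by omega⟩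
    have hk : k ≤ n := by exact_mod_cast hj
    have e : ((n : ℤ) - max (k : ℤ) 0).toNat = n - k := by
      rw [max_eq_left h]; omega
    rw [e]
    have h1 : TS n f = TS (n - k) (refl f) := by
      funext z
      refine TS_refl hk (fun b z hb => ?_) z
      have := hf b z hb
      rwa [zpow_natCast] at this
    rw [h1, ← eLp_refl f]
    refine neg_type (a := k) (fun b z hb => ?_) (n - k) hp
    rw [refl_apply, refl_apply, map_mul]
    have := hf (conj b) (conj z) (by rw [RCLike.norm_conj]; exact hb)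
    rwa [zpow_natCast] at this

end Pool.Agent.Run7.h695.BT
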