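import Pool.Agent.N892.BW.RTT

/-!
# The multiplier: symmetry, rotations, reflection (helper695)
-/

set_option autoImplicit false

open MeasureTheory Filter Topology Complex Set
open scoped ComplexConjugate FourierTransform SchwartzMap

namespace Pool.Agent.Run7.h695.BT

open Pool.Agent.N892.BW (TS)
open Pool.Agent.N892.BW.RTT

lemma EE_conj_neg (x ξ : ℂ) : EE x (-ξ) =
    Complex.exp (-(2 * (Real.pi : ℂ) * Complex.I * ((x.re * ξ.re + x.im * ξ.im : ℝ) : ℂ))) := by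
  unfold EE
  congr 1
  rw [Complex.neg_re, Complex.neg_im]
  push_cast
  ring

lemma four_neg (g : 𝓢(ℂ, ℂ)) (ξ : ℂ) : ∫ z : ℂ, EE z ξ * g z = (𝓕 g : 𝓢(ℂ, ℂ)) (-ξ) := by
  rw [← Ft_eq]
  refine integral_congr_ae (Eventually.of_forall fun z => ?_)
  simp only
  congr 1
  unfold EE
  congr 1
  rw [Complex.neg_re, Complex.neg_im]
  push_cast
  ring

lemma pair_aux (n : ℕ) (f g : 𝓢(ℂ, ℂ)) : ∫ z, TS n f z * g z =
    ∫ ξ : ℂ, (starRingEnd ℂ ξ / ξ) ^ n * (𝓕 f : 𝓢(ℂ, ℂ)) ξ * (𝓕 g : 𝓢(ℂ, ℂ)) (-ξ) := by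
  have h1 : ∀ z, TS n f z * g z =
      ∫ ξ : ℂ, (EE z ξ * ((starRingEnd ℂ ξ / ξ) ^ n * (𝓕 f : 𝓢(ℂ, ℂ)) ξ)) * g z := by
    intro z
    rw [TS_eq, integral_mul_const]
  simp only [h1]
  rw [integral_integral_swap]
  · refine integral_congr_ae (Eventually.of_forall fun ξ => ?_)
    simp only
    rw [← four_neg, ← integral_const_mul]
    refine integral_congr_ae (Eventually.of_forall fun z => ?_)
    simp only
    ring
  · have hf : Integrable fun ξ : ℂ => (𝓕 f : 𝓢(ℂ, ℂ)) ξ := (𝓕 f : 𝓢(ℂ, ℂ)).integrable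
    have hg : Integrable (fun z : ℂ => g z) := g.integrable
    have h2 : Integrable (fun x : ℂ × ℂ => ‖g x.1‖ * ‖(𝓕 f : 𝓢(ℂ, ℂ)) x.2‖) (volume.prod volume) :=
      hg.norm.mul_prod hf.norm
    refine h2.mono' ?_ (Eventually.of_forall fun x => ?_)
    · refine AEStronglyMeasurable.mul (AEStronglyMeasurable.mul ?_ (AEStronglyMeasurable.mul ?_ ?_)) ?_
      · exact EE_cont.aestronglyMeasurable
      · exact ((sym_meas n).comp measurable_snd).aestronglyMeasurable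
      · exact ((𝓕 f : 𝓢(ℂ, ℂ)).continuous.comp continuous_snd).aestronglyMeasurable
      · exact (g.continuous.comp continuous_fst).aestronglyMeasurable
    · show ‖(EE x.1 x.2 * ((starRingEnd ℂ x.2 / x.2) ^ n * (𝓕 f : 𝓢(ℂ, ℂ)) x.2)) * g x.1‖ ≤ _
      rw [norm_mul, norm_mul, norm_mul, norm_EE, one_mul, mul_comm]
      refine mul_le_mul_of_nonneg_left ?_ (norm_nonneg _)
      exact mul_le_of_le_one_left (norm_nonneg _) (sym_norm n x.2)

/-- the multiplier is symmetric -/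
theorem pairing (n : ℕ) (f g : 𝓢(ℂ, ℂ)) : ∫ z, TS n f z * g z = ∫ z, f z * TS n g z := by
  have h1 : ∫ z, f z * TS n g z = ∫ z, TS n g z * f z :=
    integral_congr_ae (Eventually.of_forall fun z => mul_comm _ _)
  rw [h1, pair_aux, pair_aux, ← integral_neg_eq_self]
  refine integral_congr_ae (Eventually.of_forall fun ξ => ?_)
  simp only
  rw [neg_neg, map_neg, neg_div_neg_eq]
  ring

lemma int_rot {b : ℂ} (hb : ‖b‖ = 1) (F : ℂ → ℂ) : ∫ ξ, F (b * ξ) = ∫ ξ, F ξ := by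
  have h := (rotation ⟨b, mem_sphere_zero_iff_norm.2 hb⟩).measurePreserving.integral_comp
    (rotation ⟨b, mem_sphere_zero_iff_norm.2 hb⟩).toHomeomorph.measurableEmbedding F
  rw [← h]
  rfl

lemma int_conj (F : ℂ → ℂ) : ∫ ξ, F (conj ξ) = ∫ ξ, F ξ :=
  (Complex.conjLIE.measurePreserving).integral_comp Complex.conjLIE.toHomeomorph.measurableEmbedding F

lemma dot_rot {b : ℂ} (hb : ‖b‖ = 1) (x ξ : ℂ) :
    (b * x).re * (b * ξ).re + (b * x).im * (b * ξ).im = x.re * ξ.re + x.im * ξ.im := by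
  have h : b.re * b.re + b.im * b.im = 1 := by
    rw [← Complex.normSq_apply, Complex.normSq_eq_norm_sq, hb, one_pow]
  simp only [Complex.mul_re, Complex.mul_im]
  linear_combination (x.re * ξ.re + x.im * ξ.im) * h

/-- the Fourier transform of a function of angular type -/
lemma four_rot {b c : ℂ} (hb : ‖b‖ = 1) {f : 𝓢(ℂ, ℂ)} (hf : ∀ z, f (b * z) = c * f z) (ξ : ℂ) :
    (𝓕 f : 𝓢(ℂ, ℂ)) (b * ξ) = c * (𝓕 f : 𝓢(ℂ, ℂ)) ξ := by
  rw [← Ft_eq, ← Ft_eq, ← int_rot hb, ← integral_const_mul]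
  refine integral_congr_ae (Eventually.of_forall fun x => ?_)
  simp only
  rw [dot_rot hb, hf]
  ring

theorem TS_rot {b c : ℂ} (hb : ‖b‖ = 1) {f : 𝓢(ℂ, ℂ)} (hf : ∀ z, f (b * z) = c * f z) (n : ℕ) (z : ℂ) :
    TS n f (b * z) = (conj b / b) ^ n * c * TS n f z := by
  rw [TS_eq, TS_eq, ← int_rot hb, ← integral_const_mul]
  refine integral_congr_ae (Eventually.of_forall fun ξ => ?_)
  simp only
  rw [four_rot hb hf]
  have h1 : EE (b * z) (b * ξ) = EE z ξ := by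
    unfold EE
    rw [dot_rot hb]
  rw [h1, map_mul, mul_div_mul_comm, mul_pow]
  ring

/-- the reflected function -/
noncomputable def refl (f : 𝓢(ℂ, ℂ)) : 𝓢(ℂ, ℂ) :=
  SchwartzMap.compCLMOfContinuousLinearEquiv ℂ (Complex.conjLIE : ℂ ≃L[ℝ] ℂ) f

lemma refl_apply (f : 𝓢(ℂ, ℂ)) (z : ℂ) : refl f z = f (conj z) := rfl

lemma four_refl (f : 𝓢(ℂ, ℂ)) (ξ : ℂ) : (𝓕 (refl f) : 𝓢(ℂ, ℂ)) ξ = (𝓕 f : 𝓢(ℂ, ℂ)) (conj ξ) := by
  rw [← Ft_eq, ← Ft_eq, ← int_conj]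
  refine integral_congr_ae (Eventually.of_forall fun x => ?_)
  simp only [refl_apply, Complex.conj_conj, Complex.conj_re, Complex.conj_im]
  congr 3
  push_cast
  ring

/-- reduction of the types `0 ≤ j ≤ n` -/
theorem TS_refl {j n : ℕ} (hj : j ≤ n) {f : 𝓢(ℂ, ℂ)} (hf : ∀ b z : ℂ, ‖b‖ = 1 → f (b * z) = b ^ j * f z)
    (z : ℂ) : TS n f z = TS (n - j) (refl f) z := by
  rw [TS_eq, TS_eq]
  refine integral_congr_ae ?_
  have h0 : ∀ᵐ ξ : ℂ, ξ ≠ 0 := by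
    rw [ae_iff]
    simp
  filter_upwards [h0] with ξ hξ
  rw [four_refl]
  have hb : ‖conj ξ / ξ‖ = 1 := by
    rw [norm_div, RCLike.norm_conj]
    exact div_self (norm_ne_zero_iff.2 hξ)
  have h1 := four_rot hb (hf (conj ξ / ξ) · hb) ξ
  rw [div_mul_cancel₀ _ hξ] at h1
  rw [h1]
  have h2 : (conj ξ / ξ) ^ n = (conj ξ / ξ) ^ (n - j) * (conj ξ / ξ) ^ j := by
    rw [← pow_add]
    congr 1
    omega
  rw [h2]
  ring

end Pool.Agent.Run7.h695.BT
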