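import Pool.Agent.Run7.h695.BT.Mink
import Pool.Agent.Run7.h695.BT.Sym

/-!
# Averages of dilations and rotations on `L ^ p` (helper695)
-/

set_option autoImplicit false

open Finset MeasureTheory Filter Topology
open scoped SchwartzMap ComplexConjugate ENNReal

namespace Pool.Agent.Run7.h695.BT

lemma jensen' {Ω : Type*} [MeasurableSpace Ω] {μ : Measure Ω} {W g : Ω → ℝ≥0∞} (hW : Measurable W)
    (hg : Measurable g) {p : ℝ} (hp : 1 < p) :
    (∫⁻ v, W v * g v ∂μ) ^ p ≤ (∫⁻ v, W v ∂μ) ^ (p - 1) * ∫⁻ v, W v * g v ^ p ∂μ := by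
  have hp0 : 0 < p := by linarith
  have hpq : p.HolderConjugate (p / (p - 1)) := Real.HolderConjugate.conjExponent hp
  set q := p / (p - 1) with hq
  have hq0 : 0 < q := hpq.symm.pos
  have h1 := ENNReal.lintegral_mul_le_Lp_mul_Lq μ hpq.symm
    (hW.pow_const (1 / q)).aemeasurable ((hW.pow_const (1 / p)).mul hg).aemeasurable
  have e1 : ∀ v, W v ^ (1 / q) * (W v ^ (1 / p) * g v) = W v * g v := by
    intro v
    rw [← mul_assoc, ← ENNReal.rpow_add_of_nonneg _ _ (by positivity) (by positivity)]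
    have : 1 / q + 1 / p = 1 := by
      have := hpq.symm.inv_add_inv_eq_one
      simpa [one_div] using this
    rw [this, ENNReal.rpow_one]
  have e2 : ∀ v, (W v ^ (1 / q)) ^ q = W v := by
    intro v
    rw [← ENNReal.rpow_mul, one_div_mul_cancel hq0.ne', ENNReal.rpow_one]
  have e3 : ∀ v, (W v ^ (1 / p) * g v) ^ p = W v * g v ^ p := by
    intro v
    rw [ENNReal.mul_rpow_of_nonneg _ _ hp0.le, ← ENNReal.rpow_mul, one_div_mul_cancel hp0.ne',
      ENNReal.rpow_one]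
  simp only [Pi.mul_apply, e1, e2, e3] at h1
  have h2 := ENNReal.rpow_le_rpow h1 hp0.le
  rw [ENNReal.mul_rpow_of_nonneg _ _ hp0.le, ← ENNReal.rpow_mul, ← ENNReal.rpow_mul,
    one_div_mul_cancel hp0.ne', ENNReal.rpow_one] at h2
  have h3 : 1 / q * p = p - 1 := by
    rw [hq]
    have : p - 1 ≠ 0 := by linarith
    field_simp
  rwa [h3] at h2

lemma lrot {g : ℂ → ℝ≥0∞} (hg : Measurable g) {b : ℂ} (hb : ‖b‖ = 1) :
    ∫⁻ z, g (b * z) = ∫⁻ z, g z :=
  (rotation ⟨b, mem_sphere_zero_iff_norm.2 hb⟩).measurePreserving.lintegral_comp hg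

lemma lscaleC {g : ℂ → ℝ≥0∞} (hg : Measurable g) {c : ℂ} (hc : c ≠ 0) :
    ∫⁻ z : ℂ, g (c * z) = ENNReal.ofReal ((‖c‖ ^ 2)⁻¹) * ∫⁻ z, g z := by
  have hn : (‖c‖ : ℂ) ≠ 0 := Complex.ofReal_ne_zero.2 (norm_ne_zero_iff.2 hc)
  have h1 : ∀ z, g (c * z) = (fun w => g (c / (‖c‖ : ℂ) * w)) ((‖c‖ : ℂ) * z) := by
    intro z
    simp only
    congr 1
    rw [← mul_assoc, div_mul_cancel₀ _ hn]
  have hb : ‖c / (‖c‖ : ℂ)‖ = 1 := by
    rw [norm_div, Complex.norm_real, norm_norm]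
    exact div_self (norm_ne_zero_iff.2 hc)
  rw [lintegral_congr h1]
  have h2 := lscale (g := fun w => g (c / (‖c‖ : ℂ) * w)) (hg.comp (measurable_const_mul _))
    (norm_pos_iff.2 hc)
  rw [h2, lrot hg hb]

/-- **Minkowski's inequality** for averages of dilations and rotations -/
theorem gmink {Ω : Type*} [MeasurableSpace Ω] (μ : Measure Ω) [SFinite μ] {κ c : Ω → ℂ}
    (hκ : Measurable κ) (hc : Measurable c) (hc0 : ∀ᵐ ω ∂μ, c ω ≠ 0) {f : ℂ → ℂ} (hf : Continuous f)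
    {p : ℝ} (hp : 1 < p) :
    ∫⁻ z, ‖∫ ω, κ ω * f (c ω * z) ∂μ‖ₑ ^ p ≤
      (∫⁻ ω, ENNReal.ofReal (‖κ ω‖ * ‖c ω‖ ^ (-(2 / p))) ∂μ) ^ p * ∫⁻ z, ‖f z‖ₑ ^ p := by
  have hp0 : 0 < p := by linarith
  set W : Ω → ℝ≥0∞ := fun ω => ENNReal.ofReal (‖κ ω‖ * ‖c ω‖ ^ (-(2 / p))) with hW
  have hWm : Measurable W := by
    rw [hW]
    exact (hκ.norm.mul (hc.norm.pow_const _)).ennreal_ofReal
  set g : ℂ → Ω → ℝ≥0∞ := fun z ω => ENNReal.ofReal (‖c ω‖ ^ (2 / p)) * ‖f (c ω * z)‖ₑ with hg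
  have hgm : Measurable (Function.uncurry g) := by
    rw [hg]
    have h2 : Measurable fun x : ℂ × Ω => ‖f (c x.2 * x.1)‖ₑ :=
      hf.enorm.measurable.comp ((hc.comp measurable_snd).mul measurable_fst)
    have h3 : Measurable fun x : ℂ × Ω => ENNReal.ofReal (‖c x.2‖ ^ (2 / p)) :=
      ((hc.comp measurable_snd).norm.pow_const _).ennreal_ofReal
    exact h3.mul h2
  have h1 : ∀ z, ‖∫ ω, κ ω * f (c ω * z) ∂μ‖ₑ ^ p ≤
      (∫⁻ v, W v ∂μ) ^ (p - 1) * ∫⁻ v, W v * g z v ^ p ∂μ := by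
    intro z
    refine le_trans (ENNReal.rpow_le_rpow ?_ hp0.le)
      (jensen' hWm (hgm.comp measurable_prodMk_left) hp)
    refine (enorm_integral_le_lintegral_enorm _).trans (le_of_eq ?_)
    refine lintegral_congr_ae ?_
    filter_upwards [hc0] with ω hω
    have hn : 0 < ‖c ω‖ := norm_pos_iff.2 hω
    show ‖κ ω * f (c ω * z)‖ₑ =
      ENNReal.ofReal (‖κ ω‖ * ‖c ω‖ ^ (-(2 / p))) * (ENNReal.ofReal (‖c ω‖ ^ (2 / p)) * ‖f (c ω * z)‖ₑ)
    rw [enorm_mul, ← mul_assoc, ← ENNReal.ofReal_mul (by positivity), mul_assoc (‖κ ω‖),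
      ← Real.rpow_add hn, neg_add_cancel, Real.rpow_zero, mul_one, ofReal_norm]
  have h2 : ∫⁻ z, (∫⁻ v, W v ∂μ) ^ (p - 1) * ∫⁻ v, W v * g z v ^ p ∂μ =
      (∫⁻ v, W v ∂μ) ^ p * ∫⁻ z, ‖f z‖ₑ ^ p := by
    have hm2 : Measurable (Function.uncurry fun (z : ℂ) (v : Ω) => W v * g z v ^ p) :=
      (hWm.comp measurable_snd).mul (hgm.pow_const p)
    have hm5 : Measurable fun z => ∫⁻ v, W v * g z v ^ p ∂μ := hm2.lintegral_prod_right'
    rw [lintegral_const_mul _ hm5, lintegral_lintegral_swap hm2.aemeasurable]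
    have h3 : ∀ᵐ v ∂μ, ∫⁻ z, W v * g z v ^ p = W v * ∫⁻ z, ‖f z‖ₑ ^ p := by
      filter_upwards [hc0] with v hv
      have hv0 : 0 < ‖c v‖ := norm_pos_iff.2 hv
      have hfm : Measurable fun z => ‖f z‖ₑ ^ p := hf.enorm.measurable.pow_const p
      have hm3 : Measurable fun z => g z v ^ p := (hgm.comp measurable_prodMk_right).pow_const p
      rw [lintegral_const_mul _ hm3]
      congr 1
      have e : ∀ z, g z v ^ p = ENNReal.ofReal (‖c v‖ ^ 2) * ‖f (c v * z)‖ₑ ^ p := by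
        intro z
        rw [hg]
        simp only
        rw [ENNReal.mul_rpow_of_nonneg _ _ hp0.le, ENNReal.ofReal_rpow_of_pos (by positivity),
          ← Real.rpow_mul hv0.le, div_mul_cancel₀ _ hp0.ne', Real.rpow_two]
      simp only [e]
      have hm4 : Measurable fun z : ℂ => ‖f (c v * z)‖ₑ ^ p := hfm.comp (measurable_const_mul _)
      rw [lintegral_const_mul _ hm4, lscaleC hfm hv, ← mul_assoc, ← ENNReal.ofReal_mul (by positivity),
        mul_inv_cancel₀ (by positivity), ENNReal.ofReal_one, one_mul]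
    rw [lintegral_congr_ae h3, lintegral_mul_const _ hWm, ← mul_assoc]
    congr 1
    have h5 : ∀ x : ℝ≥0∞, x ^ (p - 1) * x = x ^ p := by
      intro x
      conv_lhs => rw [← ENNReal.rpow_one x, ← ENNReal.rpow_mul, one_mul]
      rw [← ENNReal.rpow_add_of_nonneg _ _ (by linarith) zero_le_one, sub_add_cancel]
    exact h5 _
  calc _ ≤ ∫⁻ z, (∫⁻ v, W v ∂μ) ^ (p - 1) * ∫⁻ v, W v * g z v ^ p ∂μ := lintegral_mono h1
    _ = _ := h2

end Pool.Agent.Run7.h695.BT
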