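import Pool.Agent.Run7.h695.BT.L2

/-!
# The operator is an isometry of `L ^ 2`, second part (helper695)
-/

set_option autoImplicit false

open Finset MeasureTheory Filter Topology
open scoped SchwartzMap ComplexConjugate ENNReal

namespace Pool.Agent.Run7.h695.BT

lemma pair {b b' : ℕ} (hb : 1 ≤ b) (hb' : 1 ≤ b') {f : ℂ → ℂ} (hf : Dec2 f) :
    ((b : ℂ) + b') * ∫ z, yk b f z * conj (yk b' f z) =
      2 * ((∫ z, f z * conj (yk b' f z)) + ∫ z, yk b f z * conj (f z)) := by
  have d1 := yk_dec hb hf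
  have d2 := yk_dec hb' hf
  have g1 : Dec2 (fun z => f z * conj (yk b' f z)) := hf.dec.mul d2.conj
  have g2 : Dec2 (fun z => yk b f z * conj (f z)) := d1.mul hf.dec.conj
  have g3 : Dec2 (fun z => yk b f z * conj (yk b' f z)) := d1.mul d2.conj
  have hH : Dec2 (fun z => (2 * (f z * conj (yk b' f z)) + 2 * (yk b f z * conj (f z))) +
      (-((b : ℂ) + b' + 2)) * (yk b f z * conj (yk b' f z))) :=
    ((g1.smul 2).add (g2.smul 2)).add (g3.smul _)
  have h := radial g3 hH (fun z r hr => by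
    have h1 := ray_deriv b hf.1 z hr
    have h2 := (ray_deriv b' hf.1 z hr).star
    refine (h1.mul h2).congr_deriv ?_
    have hr' : (r : ℂ) ≠ 0 := Complex.ofReal_ne_zero.2 hr.ne'
    simp only [← starRingEnd_apply, map_div₀, map_sub, map_mul, map_add, Complex.conj_ofReal, map_one,
      map_natCast, map_ofNat]
    field_simp
    ring)
  rw [integral_add ((g1.smul 2).add (g2.smul 2)).int (g3.smul _).int,
    integral_add (g1.smul 2).int (g2.smul 2).int, integral_const_mul, integral_const_mul,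
    integral_const_mul] at h
  linear_combination -h

lemma int4 {A B C D : ℂ → ℂ} (hA : Integrable A) (hB : Integrable B) (hC : Integrable C)
    (hD : Integrable D) :
    ∫ z, (A z - B z - C z + D z) = (∫ z, A z) - (∫ z, B z) - (∫ z, C z) + ∫ z, D z := by
  have h1 : Integrable (fun z => A z - B z) := hA.sub hB
  have h2 : Integrable (fun z => A z - B z - C z) := h1.sub hC
  rw [integral_add h2 hD, integral_sub h1 hC, integral_sub hA hB]

/-- the isometry -/
theorem iso (a m : ℕ) {f : ℂ → ℂ} (hf : Dec2 f) :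
    ∫ z, FF a m f z * conj (FF a m f z) = ∫ z, f z * conj (f z) := by
  have dy : ∀ k : ℕ, Dec (yk (2 * k + a + 1) f) := fun k => yk_dec (by omega) hf
  have g1 : ∀ k, Dec2 (fun z => f z * conj (yk (2 * k + a + 1) f z)) := fun k => hf.dec.mul (dy k).conj
  have g2 : ∀ k, Dec2 (fun z => yk (2 * k + a + 1) f z * conj (f z)) := fun k => (dy k).mul hf.dec.conj
  have g3 : ∀ k l, Dec2 (fun z => yk (2 * k + a + 1) f z * conj (yk (2 * l + a + 1) f z)) :=
    fun k l => (dy k).mul (dy l).conj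
  have g0 : Dec2 (fun z => f z * conj (f z)) := hf.dec.mul hf.dec.conj
  have e : ∀ z, FF a m f z * conj (FF a m f z) = f z * conj (f z) -
      (∑ k ∈ range m, ((ck a m k : ℝ) : ℂ) * (yk (2 * k + a + 1) f z * conj (f z))) -
      (∑ k ∈ range m, ((ck a m k : ℝ) : ℂ) * (f z * conj (yk (2 * k + a + 1) f z))) +
      ∑ k ∈ range m, ∑ l ∈ range m, (((ck a m k : ℝ) : ℂ) * ((ck a m l : ℝ) : ℂ)) *
        (yk (2 * k + a + 1) f z * conj (yk (2 * l + a + 1) f z)) := by
    intro z
    unfold FF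
    rw [map_sub, map_sum]
    simp only [map_mul, Complex.conj_ofReal]
    have e1 : ∑ k ∈ range m, ∑ l ∈ range m, (((ck a m k : ℝ) : ℂ) * ((ck a m l : ℝ) : ℂ)) *
        (yk (2 * k + a + 1) f z * conj (yk (2 * l + a + 1) f z)) =
        (∑ k ∈ range m, ((ck a m k : ℝ) : ℂ) * yk (2 * k + a + 1) f z) *
        (∑ l ∈ range m, ((ck a m l : ℝ) : ℂ) * conj (yk (2 * l + a + 1) f z)) := by
      rw [Finset.sum_mul_sum]
      refine Finset.sum_congr rfl fun k _ => Finset.sum_congr rfl fun l _ => ?_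
      ring
    have e2 : ∑ k ∈ range m, ((ck a m k : ℝ) : ℂ) * (yk (2 * k + a + 1) f z * conj (f z)) =
        (∑ k ∈ range m, ((ck a m k : ℝ) : ℂ) * yk (2 * k + a + 1) f z) * conj (f z) := by
      rw [Finset.sum_mul]
      exact Finset.sum_congr rfl fun k _ => by ring
    have e3 : ∑ k ∈ range m, ((ck a m k : ℝ) : ℂ) * (f z * conj (yk (2 * k + a + 1) f z)) =
        f z * ∑ k ∈ range m, ((ck a m k : ℝ) : ℂ) * conj (yk (2 * k + a + 1) f z) := by
      rw [Finset.mul_sum]
      exact Finset.sum_congr rfl fun k _ => by ring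
    rw [e1, e2, e3]
    ring
  simp only [e]
  have i2 : ∀ k ∈ range m, Integrable (fun z => ((ck a m k : ℝ) : ℂ) * (yk (2 * k + a + 1) f z * conj (f z))) :=
    fun k _ => ((g2 k).smul _).int
  have i1 : ∀ k ∈ range m, Integrable (fun z => ((ck a m k : ℝ) : ℂ) * (f z * conj (yk (2 * k + a + 1) f z))) :=
    fun k _ => ((g1 k).smul _).int
  have i3 : ∀ k ∈ range m, ∀ l ∈ range m, Integrable (fun z => (((ck a m k : ℝ) : ℂ) * ((ck a m l : ℝ) : ℂ)) *
        (yk (2 * k + a + 1) f z * conj (yk (2 * l + a + 1) f z))) := fun k _ l _ => ((g3 k l).smul _).int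
  rw [int4 g0.int (integrable_finsetSum _ i2) (integrable_finsetSum _ i1)
      (integrable_finsetSum _ fun k hk => integrable_finsetSum _ (i3 k hk)),
    integral_finsetSum _ i2, integral_finsetSum _ i1,
    integral_finsetSum _ (fun k hk => integrable_finsetSum _ (i3 k hk))]
  have e4 : ∀ k ∈ range m, ∫ z, ∑ l ∈ range m, (((ck a m k : ℝ) : ℂ) * ((ck a m l : ℝ) : ℂ)) *
        (yk (2 * k + a + 1) f z * conj (yk (2 * l + a + 1) f z)) =
      ∑ l ∈ range m, (((ck a m k : ℝ) : ℂ) * ((ck a m l : ℝ) : ℂ)) *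
        (((∫ z, f z * conj (yk (2 * l + a + 1) f z)) + ∫ z, yk (2 * k + a + 1) f z * conj (f z)) /
          ((k : ℂ) + l + a + 1)) := by
    intro k hk
    rw [integral_finsetSum _ (i3 k hk)]
    refine Finset.sum_congr rfl fun l _ => ?_
    rw [integral_const_mul]
    congr 1
    have h := pair (b := 2 * k + a + 1) (b' := 2 * l + a + 1) (by omega) (by omega) hf
    have h0 : ((k : ℂ) + l + a + 1) ≠ 0 := by
      have : ((k : ℂ) + l + a + 1) = ((k + l + a + 1 : ℕ) : ℂ) := by push_cast; ring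
      rw [this, Nat.cast_ne_zero]
      omega
    rw [eq_div_iff h0]
    push_cast at h
    linear_combination (1 / 2 : ℂ) * h
  rw [Finset.sum_congr rfl e4]
  have hmu : ∀ i ∈ range m, ∑ k ∈ range m, ((ck a m k : ℝ) : ℂ) / ((k : ℂ) + i + a + 1) = 1 := by
    intro i hi
    have h := mu_one (a := a) (mem_range.1 hi)
    unfold mu at h
    have h2 := congrArg (fun x : ℝ => (x : ℂ)) h
    push_cast at h2
    exact h2
  have e5 : ∑ k ∈ range m, ∑ l ∈ range m, (((ck a m k : ℝ) : ℂ) * ((ck a m l : ℝ) : ℂ)) *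
        (((∫ z, f z * conj (yk (2 * l + a + 1) f z)) + ∫ z, yk (2 * k + a + 1) f z * conj (f z)) /
          ((k : ℂ) + l + a + 1)) =
      (∑ l ∈ range m, ((ck a m l : ℝ) : ℂ) * ∫ z, f z * conj (yk (2 * l + a + 1) f z)) +
      ∑ k ∈ range m, ((ck a m k : ℝ) : ℂ) * ∫ z, yk (2 * k + a + 1) f z * conj (f z) := by
    have e6 : ∀ k l : ℕ, (((ck a m k : ℝ) : ℂ) * ((ck a m l : ℝ) : ℂ)) *
        (((∫ z, f z * conj (yk (2 * l + a + 1) f z)) + ∫ z, yk (2 * k + a + 1) f z * conj (f z)) /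
          ((k : ℂ) + l + a + 1)) =
        (((ck a m l : ℝ) : ℂ) * ∫ z, f z * conj (yk (2 * l + a + 1) f z)) *
          (((ck a m k : ℝ) : ℂ) / ((k : ℂ) + l + a + 1)) +
        (((ck a m k : ℝ) : ℂ) * ∫ z, yk (2 * k + a + 1) f z * conj (f z)) *
          (((ck a m l : ℝ) : ℂ) / ((l : ℂ) + k + a + 1)) := by
      intro k l
      rw [show ((l : ℂ) + k + a + 1) = (k : ℂ) + l + a + 1 by ring]
      ring
    simp only [e6, Finset.sum_add_distrib]
    congr 1
    · rw [Finset.sum_comm]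
      refine Finset.sum_congr rfl fun l hl => ?_
      rw [← Finset.mul_sum, hmu l hl, mul_one]
    · refine Finset.sum_congr rfl fun k hk => ?_
      rw [← Finset.mul_sum, hmu k hk, mul_one]
  rw [e5]
  simp only [integral_const_mul]
  ring

lemma sq_int {g : ℂ → ℂ} (hg : Dec g) :
    ∫⁻ z, ‖g z‖ₑ ^ (2 : ℝ) = ENNReal.ofReal (∫ z, g z * conj (g z)).re := by
  have h1 : ∀ z, g z * conj (g z) = ((‖g z‖ ^ 2 : ℝ) : ℂ) := by
    intro z
    rw [Complex.mul_conj, Complex.normSq_eq_norm_sq]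
  have h2 : Integrable (fun z => ‖g z‖ ^ 2) := by
    have h3 := (hg.mul hg.conj).int
    simp only [h1] at h3
    exact_mod_cast h3.re
  simp only [h1]
  have h4 : ∫ z, ((‖g z‖ ^ 2 : ℝ) : ℂ) = ((∫ z, ‖g z‖ ^ 2 : ℝ) : ℂ) := integral_complex_ofReal
  rw [h4, Complex.ofReal_re, ofReal_integral_eq_lintegral_ofReal h2
    (Eventually.of_forall fun z => by positivity)]
  refine lintegral_congr fun z => ?_
  rw [← ofReal_norm, ENNReal.ofReal_rpow_of_nonneg (norm_nonneg _) (by norm_num), Real.rpow_two]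

theorem bo_two (a m : ℕ) : RTg.Bo (fun f : 𝓢(ℂ, ℂ) => FF a m f) 2 1 := by
  intro f
  rw [ENNReal.ofReal_one, ENNReal.one_rpow, one_mul, sq_int (FF_dec a m (sch_dec2 f)),
    sq_int (sch_dec2 f).dec, iso a m (sch_dec2 f)]

end Pool.Agent.Run7.h695.BT
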