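import Pool.Agent.Run7.h695.BT.Ode
import Pool.Agent.Run7.h695.BT.Sym
import Pool.Agent.Run7.h695.BT.L2b
import Pool.Agent.Y282.RB.A1
import Pool.Agent.Y282.RB.A3

/-!
# The multiplier on the angular type `-a` (helper695)
-/

set_option autoImplicit false

open MeasureTheory Filter Topology Set
open scoped ContDiff SchwartzMap ComplexConjugate

namespace Pool.Agent.Run7.h695.BT

open Pool.Agent.Y282.RB Pool.Agent.Y282.RB.A2
open Pool.Agent.N892.BW (TS)

theorem int_normSqC (φ : ℝ → ℂ) :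
    ∫ z : ℂ, φ (Complex.normSq z) = Real.pi * ∫ x in Ioi (0 : ℝ), φ x := by
  rw [← Complex.integral_comp_polarCoord_symm]
  have h1 : ∀ q : ℝ × ℝ, q.1 • φ (Complex.normSq (Complex.polarCoord.symm q)) =
      ((q.1 : ℂ) * φ (q.1 ^ 2)) * 1 := by
    intro q
    have : Complex.normSq (Complex.polarCoord.symm q) = q.1 ^ 2 := by
      rw [Complex.normSq_eq_norm_sq, Complex.norm_polarCoord_symm, sq_abs]
    rw [this, Complex.real_smul, mul_one]
  simp_rw [h1]
  rw [polarCoord_target, Measure.volume_eq_prod,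
    setIntegral_prod_mul (fun r : ℝ => (r : ℂ) * φ (r ^ 2)) (fun _ : ℝ => (1 : ℂ))]
  have h2 : ∫ _y in Ioo (-Real.pi) Real.pi, (1 : ℂ) = 2 * Real.pi := by
    rw [setIntegral_const, Measure.real, Real.volume_Ioo, ENNReal.toReal_ofReal (by
      have := Real.pi_pos
      linarith), Complex.real_smul, mul_one]
    push_cast
    ring
  rw [h2]
  have h3 := integral_comp_rpow_Ioi_of_pos (g := φ) (p := 2) (by norm_num)
  have h4 : ∫ x in Ioi (0 : ℝ), (2 * x ^ ((2 : ℝ) - 1)) • φ (x ^ (2 : ℝ))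
      = 2 * ∫ x in Ioi (0 : ℝ), (x : ℂ) * φ (x ^ 2) := by
    rw [← integral_const_mul]
    refine setIntegral_congr_fun measurableSet_Ioi (fun x _ => ?_)
    have e : (2 : ℝ) - 1 = 1 := by norm_num
    simp only [e, Real.rpow_one, Real.rpow_two, Complex.real_smul]
    push_cast
    ring
  rw [h4] at h3
  rw [← h3]
  ring

/-- `z ^ a f(z)` as a function of `|z| ^ 2` -/
noncomputable def AA (a : ℕ) (f : ℂ → ℂ) (t : ℝ) : ℂ := f ((√t : ℝ) : ℂ) * ((√t : ℝ) : ℂ) ^ a

lemma AA_cont (a : ℕ) {f : ℂ → ℂ} (hf : Continuous f) : Continuous (AA a f) := by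
  unfold AA
  have := Real.continuous_sqrt
  fun_prop

lemma AA_eq {a : ℕ} {f : ℂ → ℂ} (hf : ∀ b z : ℂ, ‖b‖ = 1 → f (b * z) = conj b ^ a * f z) (z : ℂ) :
    f z * z ^ a = AA a f (Complex.normSq z) := by
  unfold AA
  have h2 : √(Complex.normSq z) = ‖z‖ := rfl
  rw [h2]
  by_cases hz : z = 0
  · subst hz; simp
  · have hn : (‖z‖ : ℂ) ≠ 0 := Complex.ofReal_ne_zero.2 (norm_ne_zero_iff.2 hz)
    set b : ℂ := z / (‖z‖ : ℂ) with hb
    have ha : ‖b‖ = 1 := by
      rw [hb, norm_div, Complex.norm_real, norm_norm]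
      exact div_self (norm_ne_zero_iff.2 hz)
    have hz2 : z = b * (‖z‖ : ℂ) := by rw [hb, div_mul_cancel₀ _ hn]
    have h3 := hf b (‖z‖ : ℂ) ha
    rw [← hz2] at h3
    have h4 : conj b * b = 1 := by
      rw [← Complex.normSq_eq_conj_mul_self, Complex.normSq_eq_norm_sq, ha]
      simp
    calc f z * z ^ a = conj b ^ a * f (‖z‖ : ℂ) * (b * (‖z‖ : ℂ)) ^ a := by rw [h3, ← hz2]
      _ = (conj b * b) ^ a * (f (‖z‖ : ℂ) * (‖z‖ : ℂ) ^ a) := by rw [mul_pow, mul_pow]; ring
      _ = _ := by rw [h4, one_pow, one_mul]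

/-- the primitive of `x ^ k A(x)` -/
noncomputable def al (k : ℕ) (A : ℝ → ℂ) (t : ℝ) : ℂ := ∫ x in (0:ℝ)..t, A x * (x : ℂ) ^ k

lemma al_deriv (k : ℕ) {A : ℝ → ℂ} (hA : Continuous A) (t : ℝ) :
    HasDerivAt (al k A) (A t * (t : ℂ) ^ k) t := by
  have hc : Continuous fun x : ℝ => A x * (x : ℂ) ^ k := by fun_prop
  exact (hc.integral_hasStrictDerivAt 0 t).hasDerivAt

lemma al_cont (k : ℕ) {A : ℝ → ℂ} (hA : Continuous A) : Continuous (al k A) :=
  continuous_iff_continuousAt.2 fun t => (al_deriv k hA t).continuousAt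

/-- the expected radial profile -/
noncomputable def DD (a m : ℕ) (A : ℝ → ℂ) (t : ℝ) : ℂ :=
  (t : ℂ) ^ m * A t - ∑ k ∈ Finset.range m, ((ck a m k : ℝ) : ℂ) * ((t : ℂ) ^ (m - 1 - k) * al k A t)

lemma DD_cont (a m : ℕ) {A : ℝ → ℂ} (hA : Continuous A) : Continuous (DD a m A) := by
  unfold DD
  have := fun k => al_cont k hA
  fun_prop

/-- integration by parts on the half line -/
lemma parts {a m : ℕ} {A g V : ℝ → ℂ} (hA : Continuous A) (hg : Continuous g) {R : ℝ} (hR0 : 0 < R)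
    (hR : ∀ x, R ≤ x → g x = 0)
    (hV : ∀ t : ℝ, 0 < t → V t = (t : ℂ) ^ m * g t - ∑ k ∈ Finset.range m, ((ck a m k : ℝ) : ℂ) *
      ((t : ℂ) ^ k * ∫ s in t..R, (s : ℂ) ^ (m - 1 - k) * g s)) :
    ∫ t in Ioi (0:ℝ), A t * V t = ∫ t in Ioi (0:ℝ), DD a m A t * g t := by
  have hzero : ∀ t : ℝ, R ≤ t → ∀ k : ℕ, ∫ s in t..R, (s : ℂ) ^ (m - 1 - k) * g s = 0 := by
    intro t ht k
    have h4 : Set.EqOn (fun s : ℝ => (s : ℂ) ^ (m - 1 - k) * g s) (fun _ => (0:ℂ)) (Set.uIcc t R) := by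
      intro s hs
      rw [Set.uIcc_of_ge ht] at hs
      simp only
      rw [hR s hs.1, mul_zero]
    rw [intervalIntegral.integral_congr h4]
    simp
  have hred : ∀ F : ℝ → ℂ, (∀ t, R < t → F t = 0) → ∫ t in Ioi (0:ℝ), F t = ∫ t in (0:ℝ)..R, F t := by
    intro F hF
    rw [intervalIntegral.integral_of_le hR0.le]
    refine setIntegral_eq_of_subset_of_forall_sdiff_eq_zero measurableSet_Ioi (fun x hx => hx.1)
      fun x hx => ?_
    refine hF x ?_
    by_contra hcon
    exact hx.2 ⟨hx.1, not_lt.1 hcon⟩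
  have e1 : ∫ t in Ioi (0:ℝ), A t * V t = ∫ t in Ioi (0:ℝ), (A t * ((t : ℂ) ^ m * g t) -
      ∑ k ∈ Finset.range m, ((ck a m k : ℝ) : ℂ) *
      ((∫ s in t..R, (s : ℂ) ^ (m - 1 - k) * g s) * (A t * (t : ℂ) ^ k))) := by
    refine setIntegral_congr_fun measurableSet_Ioi fun t ht => ?_
    show A t * V t = _
    rw [hV t ht, mul_sub, Finset.mul_sum]
    congr 1
    refine Finset.sum_congr rfl fun k _ => ?_
    ring
  rw [e1, hred, hred]
  rotate_left
  · intro t ht
    rw [hR t ht.le, mul_zero]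
  · intro t ht
    rw [hR t ht.le]
    simp only [hzero t ht.le, mul_zero, zero_mul, Finset.sum_const_zero, sub_zero]
  have hcg : ∀ k : ℕ, Continuous fun s : ℝ => (s : ℂ) ^ (m - 1 - k) * g s := fun k => by fun_prop
  have hbd : ∀ (k : ℕ) (t : ℝ), HasDerivAt (fun t : ℝ => ∫ s in t..R, (s : ℂ) ^ (m - 1 - k) * g s)
      (-((t : ℂ) ^ (m - 1 - k) * g t)) t := by
    intro k t
    exact intervalIntegral.integral_hasDerivAt_left ((hcg k).intervalIntegrable _ _)
      ((hcg k).stronglyMeasurableAtFilter _ _) (hcg k).continuousAt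
  have hbc : ∀ k : ℕ, Continuous fun t : ℝ => ∫ s in t..R, (s : ℂ) ^ (m - 1 - k) * g s := fun k =>
    continuous_iff_continuousAt.2 fun t => (hbd k t).continuousAt
  have hac := fun k => al_cont k hA
  have i0 : IntervalIntegrable (fun t : ℝ => A t * ((t : ℂ) ^ m * g t)) volume 0 R :=
    (by fun_prop : Continuous fun t : ℝ => A t * ((t : ℂ) ^ m * g t)).intervalIntegrable _ _
  have ik : ∀ k : ℕ, IntervalIntegrable (fun t : ℝ => ((ck a m k : ℝ) : ℂ) *
      ((∫ s in t..R, (s : ℂ) ^ (m - 1 - k) * g s) * (A t * (t : ℂ) ^ k))) volume 0 R := fun k => by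
    have := hbc k
    apply Continuous.intervalIntegrable
    fun_prop
  have jk : ∀ k : ℕ, IntervalIntegrable (fun t : ℝ => ((ck a m k : ℝ) : ℂ) *
      (al k A t * ((t : ℂ) ^ (m - 1 - k) * g t))) volume 0 R := fun k => by
    have := hac k
    apply Continuous.intervalIntegrable
    fun_prop
  rw [intervalIntegral.integral_sub i0 (by
    apply Continuous.intervalIntegrable
    have := hbc
    fun_prop), intervalIntegral.integral_finsetSum (fun k _ => ik k)]
  have e2 : ∫ t in (0:ℝ)..R, DD a m A t * g t = (∫ t in (0:ℝ)..R, A t * ((t : ℂ) ^ m * g t)) -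
      ∑ k ∈ Finset.range m, ∫ t in (0:ℝ)..R, ((ck a m k : ℝ) : ℂ) *
        (al k A t * ((t : ℂ) ^ (m - 1 - k) * g t)) := by
    rw [← intervalIntegral.integral_finsetSum (fun k _ => jk k), ← intervalIntegral.integral_sub i0]
    · refine intervalIntegral.integral_congr fun t _ => ?_
      show DD a m A t * g t = _
      unfold DD
      rw [sub_mul, Finset.sum_mul]
      congr 1
      · ring
      · refine Finset.sum_congr rfl fun k _ => ?_
        ring
    · apply Continuous.intervalIntegrable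
      have := hac
      fun_prop
  rw [e2]
  congr 1
  refine Finset.sum_congr rfl fun k _ => ?_
  rw [intervalIntegral.integral_const_mul, intervalIntegral.integral_const_mul]
  congr 1
  have h := intervalIntegral.integral_mul_deriv_eq_deriv_mul (a := 0) (b := R)
    (u := fun t : ℝ => ∫ s in t..R, (s : ℂ) ^ (m - 1 - k) * g s)
    (u' := fun t : ℝ => -((t : ℂ) ^ (m - 1 - k) * g t)) (v := al k A)
    (v' := fun t : ℝ => A t * (t : ℂ) ^ k) (fun t _ => hbd k t) (fun t _ => al_deriv k hA t)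
    ((hcg k).neg.intervalIntegrable _ _)
    ((by fun_prop : Continuous fun t : ℝ => A t * (t : ℂ) ^ k).intervalIntegrable _ _)
  rw [h]
  have h0 : al k A 0 = 0 := by
    unfold al
    exact intervalIntegral.integral_same
  rw [h0, intervalIntegral.integral_same, zero_mul, mul_zero, sub_zero, zero_sub,
    ← intervalIntegral.integral_neg]
  refine intervalIntegral.integral_congr fun t _ => ?_
  show -(-((t : ℂ) ^ (m - 1 - k) * g t) * al k A t) = _
  ring

end Pool.Agent.Run7.h695.BT
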