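import Pool.Agent.Run7.h695.BT.MultiG
import Pool.Agent.Run7.h695.BT.Fin1

/-!
# Identification of the power of the transform on several angular types (helper695)
-/

set_option autoImplicit false

open Finset MeasureTheory Filter Topology
open scoped SchwartzMap ComplexConjugate ENNReal

namespace Pool.Agent.Run7.h695.BT

open Pool.Agent.N892.BW (TS)
open Pool.Agent.N892.BW.RTT (TS_sum)

lemma conj_div_pow {b : ℂ} (hb : ‖b‖ = 1) (m : ℕ) : (conj b / b) ^ m = conj b ^ (2 * m) := by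
  have h4 : conj b * b = 1 := by
    rw [← Complex.normSq_eq_conj_mul_self, Complex.normSq_eq_norm_sq, hb]
    simp
  have h3 : b⁻¹ = conj b := (eq_inv_of_mul_eq_one_left h4).symm
  rw [div_eq_mul_inv, h3, ← sq, ← pow_mul]

lemma id_neg {a : ℕ} {f : 𝓢(ℂ, ℂ)} (hf : ∀ b z : ℂ, ‖b‖ = 1 → f (b * z) = conj b ^ a * f z) (m : ℕ)
    {z : ℂ} (hz : z ≠ 0) : TS m f z = (conj z / z) ^ m * FF a m f z := by
  have hn : (‖z‖ : ℂ) ≠ 0 := Complex.ofReal_ne_zero.2 (norm_ne_zero_iff.2 hz)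
  set b : ℂ := z / (‖z‖ : ℂ) with hb
  have ha : ‖b‖ = 1 := by
    rw [hb, norm_div, Complex.norm_real, norm_norm]
    exact div_self (norm_ne_zero_iff.2 hz)
  have hz2 : z = b * (‖z‖ : ℂ) := by rw [hb, div_mul_cancel₀ _ hn]
  have h1 : conj z / z = conj b / b := by
    rw [hb, map_div₀, Complex.conj_ofReal]
    field_simp
  rw [h1, conj_div_pow ha]
  rw [hz2, TS_type hf m b _ ha, FF_type hf a m b _ ha, ident hf m (norm_pos_iff.2 hz)]
  rw [pow_add]
  ring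

lemma FF_refl (a m : ℕ) (f : 𝓢(ℂ, ℂ)) (z : ℂ) : FF a m (refl f) z = FF a m f (conj z) := by
  have h1 : ∀ k, yk k (refl f) z = yk k f (conj z) := by
    intro k
    unfold yk
    refine intervalIntegral.integral_congr fun v _ => ?_
    simp only [refl_apply, map_mul, Complex.conj_ofReal]
  unfold FF
  simp only [h1, refl_apply]

theorem id_type {n : ℕ} {j : ℤ} (hj : j ≤ n) {f : 𝓢(ℂ, ℂ)} (hf : Ty j f) {z : ℂ} (hz : z ≠ 0) :
    TS n f z = (conj z / z) ^ n * FF j.natAbs (n - max j 0).toNat f z := by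
  rcases le_total j 0 with h | h
  · have e : (n - max j 0).toNat = n := by
      rw [max_eq_right h]; omega
    rw [e]
    refine id_neg (fun b z hb => ?_) n hz
    rw [hf b z hb]
    congr 1
    have h2 : j = -((j.natAbs : ℕ) : ℤ) := by omega
    have h4 : conj b * b = 1 := by
      rw [← Complex.normSq_eq_conj_mul_self, Complex.normSq_eq_norm_sq, hb]
      simp
    have h3 : b⁻¹ = conj b := (eq_inv_of_mul_eq_one_left h4).symm
    rw [h2, zpow_neg, zpow_natCast, ← inv_pow, h3]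
    congr 1
    omega
  · obtain ⟨k, rfl⟩ : ∃ k : ℕ, j = k := ⟨j.toNat, by omega⟩
    have hk : k ≤ n := by exact_mod_cast hj
    have e : ((n : ℤ) - max (k : ℤ) 0).toNat = n - k := by
      rw [max_eq_left h]; omega
    rw [e, Int.natAbs_natCast]
    have h1 : TS n f z = TS (n - k) (refl f) z := by
      refine TS_refl hk (fun b z hb => ?_) z
      have := hf b z hb
      rwa [zpow_natCast] at this
    rw [h1, id_neg (a := k) (f := refl f) (fun b z hb => ?_) (n - k) hz, FF_refl]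
    · have hb : ‖conj z / z‖ = 1 := by
        rw [norm_div, RCLike.norm_conj]
        exact div_self (norm_ne_zero_iff.2 hz)
      have h2 : conj z = (conj z / z) * z := by rw [div_mul_cancel₀ _ hz]
      have h3 : FF k (n - k) f (conj z) = (conj z / z) ^ k * FF k (n - k) f z := by
        conv_lhs => rw [h2]
        rw [FF_Ty hf k (n - k) _ _ hb, zpow_natCast]
      rw [h3, ← mul_assoc, ← pow_add]
      congr 2
      omega
    · rw [refl_apply, refl_apply, map_mul]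
      have := hf (conj b) (conj z) (by rw [RCLike.norm_conj]; exact hb)
      rwa [zpow_natCast] at this

/-- the indices of the kernels -/
def Aj (j : ℤ) : ℕ := j.natAbs

def Mj (n : ℕ) (j : ℤ) : ℕ := (n - max j 0).toNat

lemma Pr_sum {S : Finset ℤ} {g : ℤ → 𝓢(ℂ, ℂ)} (hg : ∀ j ∈ S, Ty j (g j)) {j : ℤ} (hj : j ∈ S) :
    Pr j (fun z => ∑ i ∈ S, g i z) = g j := by
  funext z
  have h1 : Pr j (fun z => ∑ i ∈ S, g i z) z = ∑ i ∈ S, Pr j (g i) z := by
    unfold Pr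
    have hexc := ex_cont
    rw [← intervalIntegral.integral_finsetSum]
    · refine intervalIntegral.integral_congr fun x _ => ?_
      simp only
      rw [Finset.mul_sum]
    · intro i _
      have := (g i).continuous
      exact (by fun_prop : Continuous fun x : ℝ => ex (-(j * x)) * g i (ex x * z)).intervalIntegrable _ _
  rw [h1, Finset.sum_congr rfl fun i hi => Pr_of_type (hg i hi) z]
  rw [Finset.sum_ite_eq_of_mem' S j _ hj]

theorem id_sum {n : ℕ} {S : Finset ℤ} (hS : ∀ j ∈ S, j ≤ n) {g : ℤ → 𝓢(ℂ, ℂ)} (hg : ∀ j ∈ S, Ty j (g j))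
    {z : ℂ} (hz : z ≠ 0) : TS n (∑ j ∈ S, g j) z =
      (conj z / z) ^ n * UU S Aj (Mj n) (fun w => (∑ j ∈ S, g j : 𝓢(ℂ, ℂ)) w) z := by
  have h1 := TS_sum n S (fun _ => (1:ℂ)) g z
  simp only [one_smul, one_mul] at h1
  have h2 : (fun w => (∑ j ∈ S, g j : 𝓢(ℂ, ℂ)) w) = fun w => ∑ j ∈ S, g j w := by
    funext w
    rw [SchwartzMap.sum_apply]
  rw [h1, h2]
  unfold UU
  rw [Finset.mul_sum]
  refine Finset.sum_congr rfl fun j hj => ?_
  rw [Pr_sum hg hj, id_type (hS j hj) (hg j hj) hz]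
  rfl

theorem eLp_sum {n : ℕ} {S : Finset ℤ} (hS : ∀ j ∈ S, j ≤ n) {g : ℤ → 𝓢(ℂ, ℂ)} (hg : ∀ j ∈ S, Ty j (g j))
    (p : ENNReal) : eLpNorm (TS n (∑ j ∈ S, g j)) p volume =
      eLpNorm (UU S Aj (Mj n) (fun w => (∑ j ∈ S, g j : 𝓢(ℂ, ℂ)) w)) p volume := by
  refine eLpNorm_congr_norm_ae ?_
  have h0 : ∀ᵐ ξ : ℂ, ξ ≠ 0 := by
    rw [ae_iff]
    simp
  filter_upwards [h0] with z hz
  have hb : ‖conj z / z‖ = 1 := by
    rw [norm_div, RCLike.norm_conj]
    exact div_self (norm_ne_zero_iff.2 hz)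
  rw [id_sum hS hg hz, norm_mul, norm_pow, hb, one_pow, one_mul]

lemma Mj_le (n : ℕ) {j : ℤ} : (Mj n j : ℝ) ≤ n := by
  have : Mj n j ≤ n := by unfold Mj; omega
  exact_mod_cast this

lemma MA (n : ℕ) {j : ℤ} (hj : j ≤ n) : (Mj n j : ℝ) + Aj j = n + max (-j : ℝ) 0 := by
  have h : ((Mj n j + Aj j : ℕ) : ℤ) = n + max (-j) 0 := by
    unfold Mj Aj; omega
  have h2 : (((Mj n j + Aj j : ℕ) : ℤ) : ℝ) = ((n + max (-j) 0 : ℤ) : ℝ) := by rw [h]
  push_cast at h2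
  exact h2

/-- **Several angular types.** -/
theorem multi {n : ℕ} (hn : 1 ≤ n) {S : Finset ℤ} (hS0 : S.Nonempty) (hS : ∀ j ∈ S, j ≤ n) {lo hi : ℝ}
    (hlo : n ≤ lo) (h1 : ∀ j ∈ S, lo ≤ n + max (-j : ℝ) 0) (h2 : ∀ j ∈ S, n + max (-j : ℝ) 0 ≤ hi)
    {g : ℤ → 𝓢(ℂ, ℂ)} (hg : ∀ j ∈ S, Ty j (g j)) {p : ℝ} (hp : 2 ≤ p) {C : ℝ}
    (hC : √(S.card : ℝ) + √(1.27 * S.card * n * Real.log (128 * n * hi / lo)) ≤ C) :
    eLpNorm (TS n (∑ j ∈ S, g j)) (ENNReal.ofReal p) volume ≤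
      ENNReal.ofReal (C ^ (1 - 2 / p)) *
        eLpNorm (fun z : ℂ => (∑ j ∈ S, g j : 𝓢(ℂ, ℂ)) z) (ENNReal.ofReal p) volume := by
  have hn1 : (1 : ℝ) ≤ n := by exact_mod_cast hn
  have hG : GB S Aj (Mj n) ≤ √(1.27 * S.card * n * Real.log (128 * n * hi / lo)) := by
    refine GB_le hS0 hn1 hlo (fun j _ => Mj_le n) (fun j hj => ?_) (fun j hj => ?_)
    · rw [MA n (hS j hj)]
      exact h1 j hj
    · rw [MA n (hS j hj)]
      exact h2 j hj
  have hc : 0 < √(S.card : ℝ) := by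
    refine Real.sqrt_pos.2 ?_
    exact_mod_cast Finset.card_pos.2 hS0
  have hC0 : 0 < C := by
    refine lt_of_lt_of_le ?_ hC
    positivity
  rw [eLp_sum hS hg]
  exact bo_eLp (fun f : 𝓢(ℂ, ℂ) => UU S Aj (Mj n) f) hp
    (UU_all S Aj (Mj n) hC0 (by linarith) hp) _

end Pool.Agent.Run7.h695.BT
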