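import Pool.Agent.Run7.h695.BT.MultiGH
import Pool.Agent.Run7.h695.BT.MultiId

/-!
# Identification on the types above `n` (helper695)
-/

set_option autoImplicit false

open MeasureTheory Filter Topology Set
open scoped ContDiff SchwartzMap ComplexConjugate

namespace Pool.Agent.Run7.h695.BT

open Pool.Agent.N892.BW (TS)
open Pool.Agent.N892.BW.RTT (TS_cont)

/-- a continuous function of type `-k` that is orthogonal to all functions of type `k` vanishes -/
lemma sep_nat {k : ℕ} {H : ℂ → ℂ} (hH : Continuous H) (hT : Ty (-(k : ℤ)) H)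
    (h : ∀ g : 𝓢(ℂ, ℂ), Ty (k : ℤ) g → ∫ z, H z * g z = 0) {z : ℂ} (hz : z ≠ 0) : H z = 0 := by
  have hT' : ∀ b z : ℂ, ‖b‖ = 1 → H (b * z) = conj b ^ k * H z := by
    intro b z hb
    rw [hT b z hb]
    congr 1
    have h4 : conj b * b = 1 := by
      rw [← Complex.normSq_eq_conj_mul_self, Complex.normSq_eq_norm_sq, hb]
      simp
    have h3 : b⁻¹ = conj b := (eq_inv_of_mul_eq_one_left h4).symm
    rw [zpow_neg, zpow_natCast, ← inv_pow, h3]
  have c1 : Continuous (AA k H) := AA_cont _ hH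
  have h1 : ∀ᵐ x : ℝ, x ∈ Ioi (0:ℝ) → AA k H x = 0 := by
    refine isOpen_Ioi.ae_eq_zero_of_integral_contDiff_smul_eq_zero
      (c1.locallyIntegrable.locallyIntegrableOn _) fun g hg hgc hgs => ?_
    set G : ℝ → ℂ := fun x => ((g x : ℝ) : ℂ) with hG
    have hGs : ContDiff ℝ ∞ G := Complex.ofRealCLM.contDiff.comp hg
    obtain ⟨R, hR0, hR⟩ : ∃ R : ℝ, 0 < R ∧ ∀ x, R ≤ x → G x = 0 := by
      obtain ⟨R, hR⟩ := hgc.isCompact.isBounded.bddAbove
      refine ⟨max R 0 + 1, by positivity, fun x hx => ?_⟩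
      by_contra h
      have h1 : x ∈ tsupport g := subset_tsupport g (Function.mem_support.2 fun h0 => h (by rw [hG]; simp [h0]))
      have h2 := hR h1
      have := le_max_left R 0
      linarith
    obtain ⟨f0, hf0⟩ := mkf0 k hGs hR
    have hf0T : Ty (k : ℤ) f0 := by
      intro b z hb
      rw [hf0, hf0, map_mul, Complex.normSq_eq_norm_sq b, hb, one_pow, one_mul, zpow_natCast, mul_pow]
      ring
    have h2 := h f0 hf0T
    have e1 : ∀ z, H z * f0 z = (fun t => AA k H t * G t) (Complex.normSq z) := by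
      intro z
      simp only
      rw [hf0, ← AA_eq hT' z]
      ring
    rw [integral_congr_ae (Eventually.of_forall e1), int_normSqC (fun t => AA k H t * G t)] at h2
    have hpi : (Real.pi : ℂ) ≠ 0 := Complex.ofReal_ne_zero.2 Real.pi_ne_zero
    have h3 := (mul_eq_zero.1 h2).resolve_left hpi
    rw [← h3, ← setIntegral_eq_integral_of_forall_compl_eq_zero (s := Ioi (0:ℝ))]
    · refine setIntegral_congr_fun measurableSet_Ioi fun x _ => ?_
      simp only [Complex.real_smul]
      rw [hG]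
      ring
    · intro x hx
      have : g x = 0 := by
        by_contra h0
        exact hx (hgs (subset_tsupport g (Function.mem_support.2 h0)))
      rw [this, zero_smul]
  have h2 : (AA k H) =ᵐ[volume.restrict (Ioi (0:ℝ))] (fun _ => (0:ℂ)) := by
    rw [Filter.EventuallyEq, ae_restrict_iff' measurableSet_Ioi]
    filter_upwards [h1] with x hx hx0
    exact hx hx0
  have h3 := Measure.eqOn_open_of_ae_eq h2 isOpen_Ioi c1.continuousOn continuousOn_const
    (show Complex.normSq z ∈ Ioi (0:ℝ) from Complex.normSq_pos.2 hz)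
  rw [← AA_eq hT' z] at h3
  exact (mul_eq_zero.1 h3).resolve_right (pow_ne_zero _ hz)

lemma sep {i : ℤ} {H : ℂ → ℂ} (hH : Continuous H) (hT : Ty (-i) H)
    (h : ∀ g : 𝓢(ℂ, ℂ), Ty i g → ∫ z, H z * g z = 0) {z : ℂ} (hz : z ≠ 0) : H z = 0 := by
  rcases le_total 0 i with hi | hi
  · obtain ⟨k, rfl⟩ : ∃ k : ℕ, i = k := ⟨i.toNat, by omega⟩
    exact sep_nat hH hT h hz
  · obtain ⟨k, rfl⟩ : ∃ k : ℕ, i = -(k : ℤ) := ⟨(-i).toNat, by omega⟩
    have hcz : conj z ≠ 0 := (map_ne_zero _).2 hz
    have hTz : Ty (-(k : ℤ)) (fun w => H (conj w)) := by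
      intro b w hb
      have hb0 : b ≠ 0 := by
        rw [← norm_ne_zero_iff, hb]; exact one_ne_zero
      show H (conj (b * w)) = _
      rw [map_mul, hT (conj b) (conj w) (by rw [RCLike.norm_conj]; exact hb)]
      congr 1
      have h4 : conj b * b = 1 := by
        rw [← Complex.normSq_eq_conj_mul_self, Complex.normSq_eq_norm_sq, hb]
        simp
      have h3 : conj b = b⁻¹ := eq_inv_of_mul_eq_one_left h4
      rw [h3, neg_neg, inv_zpow, zpow_neg]
    have h1 := sep_nat (k := k) (H := fun w => H (conj w)) (hH.comp Complex.continuous_conj) hTz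
      (fun g hg => ?_) (z := conj z) hcz
    · simpa using h1
    · have h2 := h (refl g) (fun b w hb => by
        rw [refl_apply, refl_apply, map_mul, hg (conj b) (conj w) (by rw [RCLike.norm_conj]; exact hb)]
        congr 1
        have h4 : conj b * b = 1 := by
          rw [← Complex.normSq_eq_conj_mul_self, Complex.normSq_eq_norm_sq, hb]
          simp
        have h3 : conj b = b⁻¹ := eq_inv_of_mul_eq_one_left h4
        rw [h3, inv_zpow, zpow_neg])
      rw [← h2, ← int_conj]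
      refine integral_congr_ae (Eventually.of_forall fun w => ?_)
      simp only [Complex.conj_conj]
      rw [refl_apply]

/-- the twisted function -/
noncomputable def tw (n : ℕ) (f : ℂ → ℂ) (z : ℂ) : ℂ := (conj z / z) ^ n * f z

lemma tw_norm_le (n : ℕ) (f : ℂ → ℂ) (z : ℂ) : ‖tw n f z‖ ≤ ‖f z‖ := by
  unfold tw
  rw [norm_mul, norm_pow, norm_div, RCLike.norm_conj]
  refine mul_le_of_le_one_left (norm_nonneg _) (pow_le_one₀ (by positivity) (div_self_le_one _))

lemma tw_dec (n : ℕ) {f : ℂ → ℂ} (hf : Dec2 f) (h0 : f 0 = 0) : Dec2 (tw n f) := by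
  obtain ⟨h1, C, h2⟩ := hf
  refine ⟨?_, C, fun z => (tw_norm_le n f z).trans (h2 z)⟩
  rw [continuous_iff_continuousAt]
  intro z
  by_cases hz : z = 0
  · subst hz
    unfold ContinuousAt
    have h3 : tw n f 0 = 0 := by
      unfold tw
      rw [h0, mul_zero]
    rw [h3]
    refine squeeze_zero_norm (tw_norm_le n f) ?_
    have h4 := (h1.norm).tendsto 0
    rwa [h0, norm_zero] at h4
  · unfold tw
    exact (((Complex.continuous_conj.continuousAt).div continuousAt_id hz).pow n).mul h1.continuousAt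

lemma type_zero {j : ℤ} (hj : j ≠ 0) {f : ℂ → ℂ} (hf : Ty j f) : f 0 = 0 := by
  have h1 : ∀ b : ℂ, ‖b‖ = 1 → f 0 = b ^ j * f 0 := by
    intro b hb
    have := hf b 0 hb
    rwa [mul_zero] at this
  -- choose `b` with `b ^ j ≠ 1`
  set b : ℂ := ex (1 / (2 * j)) with hb
  have hj' : (j : ℝ) ≠ 0 := by exact_mod_cast hj
  have h2 : b ^ j = -1 := by
    rw [hb, ← ex_mul_int]
    have : (j : ℝ) * (1 / (2 * j)) = 1 / 2 := by field_simp
    rw [this]
    unfold ex
    have e : (((2 * Real.pi * (1 / 2) : ℝ)) : ℂ) * Complex.I = Real.pi * Complex.I := by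
      congr 1
      push_cast
      ring
    rw [e, Complex.exp_pi_mul_I]
  have h3 := h1 b (ex_norm _)
  rw [h2] at h3
  have h4 : (2:ℂ) * f 0 = 0 := by linear_combination h3
  exact (mul_eq_zero.1 h4).resolve_left two_ne_zero

lemma tw_Ty {n : ℕ} {j : ℤ} {f : ℂ → ℂ} (hf : Ty j f) : Ty (j - 2 * n) (tw n f) := by
  intro b z hb
  have hb0 : b ≠ 0 := by
    rw [← norm_ne_zero_iff, hb]; exact one_ne_zero
  unfold tw
  rw [hf b z hb, map_mul, mul_div_mul_comm, mul_pow]
  have h4 : conj b * b = 1 := by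
    rw [← Complex.normSq_eq_conj_mul_self, Complex.normSq_eq_norm_sq, hb]
    simp
  have h3 : conj b = b⁻¹ := eq_inv_of_mul_eq_one_left h4
  have h5 : (conj b / b) ^ n = b ^ (-(2 * n : ℤ)) := by
    rw [h3, zpow_neg, ← inv_zpow, ← Nat.cast_ofNat (n := 2), ← Nat.cast_mul, zpow_natCast, pow_mul, div_eq_mul_inv, sq]
  rw [h5, sub_eq_add_neg, zpow_add₀ hb0]
  ring

lemma TS_Ty {n : ℕ} {j : ℤ} {f : 𝓢(ℂ, ℂ)} (hf : Ty j f) : Ty (j - 2 * n) (TS n f) := by
  intro b z hb
  have hb0 : b ≠ 0 := by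
    rw [← norm_ne_zero_iff, hb]; exact one_ne_zero
  rw [TS_rot hb (fun z => hf b z hb)]
  have h4 : conj b * b = 1 := by
    rw [← Complex.normSq_eq_conj_mul_self, Complex.normSq_eq_norm_sq, hb]
    simp
  have h3 : conj b = b⁻¹ := eq_inv_of_mul_eq_one_left h4
  have h5 : (conj b / b) ^ n = b ^ (-(2 * n : ℤ)) := by
    rw [h3, zpow_neg, ← inv_zpow, ← Nat.cast_ofNat (n := 2), ← Nat.cast_mul, zpow_natCast, pow_mul, div_eq_mul_inv, sq]
  rw [h5, sub_eq_add_neg, zpow_add₀ hb0]
  ring

lemma RR_tw (a m n : ℕ) (f : ℂ → ℂ) {z : ℂ} (hz : z ≠ 0) :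
    RR a m (tw n f) z = (conj z / z) ^ n * RR a m f z := by
  unfold RR RK
  rw [mul_sub, ← intervalIntegral.integral_const_mul]
  congr 1
  refine intervalIntegral.integral_congr_ae (Eventually.of_forall fun v hv => ?_)
  rw [uIoc_of_le zero_le_one] at hv
  have hv0 : (v : ℂ) ≠ 0 := Complex.ofReal_ne_zero.2 hv.1.ne'
  unfold tw
  have e : conj (z / (v : ℂ)) / (z / (v : ℂ)) = conj z / z := by
    rw [map_div₀, Complex.conj_ofReal]
    field_simp
  rw [e]
  ring

/-- **Identification above `n`.** -/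
theorem id_high {n : ℕ} {j : ℤ} (hj : n < j) (hw : 1 ≤ (2 * n - j).natAbs) {f : 𝓢(ℂ, ℂ)} (hf : Ty j f)
    {z : ℂ} (hz : z ≠ 0) : TS n f z =
      (conj z / z) ^ n * RR (2 * n - j).natAbs (n - max (2 * n - j) 0).toNat f z := by
  set a : ℕ := (2 * n - j).natAbs with ha
  set m : ℕ := (n - max (2 * n - j) 0).toNat with hm
  have h0 : f 0 = 0 := type_zero (by omega) hf
  have hd : Dec2 (tw n f) := tw_dec n (sch_dec2 f) h0
  have hRd := RR_dec a m hd
  rw [← RR_tw a m n f hz]
  have hT1 : Ty (-(2 * n - j)) (TS n f) := by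
    have := TS_Ty (n := n) hf
    rwa [show -(2 * (n : ℤ) - j) = j - 2 * n by ring]
  have hT2 : Ty (-(2 * n - j)) (RR a m (tw n f)) := by
    have := RR_Ty (tw_Ty (n := n) hf) a m
    rwa [show -(2 * (n : ℤ) - j) = j - 2 * n by ring]
  have key := sep (i := 2 * n - j) (H := fun z => TS n f z - RR a m (tw n f) z)
    ((TS_cont n f).sub hRd.1) (fun b w hb => by
      simp only
      rw [hT1 b w hb, hT2 b w hb]
      ring) (fun g hg => ?_) hz
  · exact sub_eq_zero.1 key
  · have i1 : Integrable fun w => TS n f w * g w := by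
      have hb : ∃ C, ∀ w, ‖TS n f w‖ ≤ C := by
        refine ⟨∫ ξ : ℂ, ‖(FourierTransform.fourier f : 𝓢(ℂ, ℂ)) ξ‖, fun w => ?_⟩
        rw [Pool.Agent.N892.BW.RTT.TS_eq]
        refine (norm_integral_le_integral_norm _).trans ?_
        refine integral_mono_of_nonneg (Eventually.of_forall fun _ => norm_nonneg _)
          (FourierTransform.fourier f : 𝓢(ℂ, ℂ)).integrable.norm (Eventually.of_forall fun ξ => ?_)
        simp only
        rw [norm_mul, norm_mul, Pool.Agent.N892.BW.RTT.norm_EE, one_mul]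
        refine mul_le_of_le_one_left (norm_nonneg _) ?_
        rw [norm_pow, norm_div, RCLike.norm_conj]
        exact pow_le_one₀ (by positivity) (div_self_le_one _)
      obtain ⟨C, hC⟩ := hb
      exact g.integrable.bdd_mul (TS_cont n f).aestronglyMeasurable (Eventually.of_forall hC)
    have i2 : Integrable fun w => RR a m (tw n f) w * g w := (hRd.dec.mul (sch_dec2 g).dec).int
    have e0 : ∀ w, (TS n f w - RR a m (tw n f) w) * g w = TS n f w * g w - RR a m (tw n f) w * g w :=
      fun w => by ring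
    simp only [e0]
    rw [integral_sub i1 i2, pairing, RR_pair hw m hd (sch_dec2 g), sub_eq_zero]
    refine integral_congr_ae ?_
    have hne : ∀ᵐ ξ : ℂ, ξ ≠ 0 := by
      rw [ae_iff]
      simp
    filter_upwards [hne] with w hw0
    rw [id_type (n := n) (j := 2 * n - j) (by omega) hg hw0]
    unfold tw
    ring

end Pool.Agent.Run7.h695.BT
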