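import Pool.Agent.Run7.h695.BT.Mink

/-!
# The operator on `L ^ p`: interpolation (helper695)
-/

set_option autoImplicit false

open Finset MeasureTheory Filter Topology
open scoped SchwartzMap ComplexConjugate ENNReal

namespace Pool.Agent.Run7.h695.BT

theorem bo_all (a m : ℕ) {p C : ℝ} (hp : 2 ≤ p) (hC : 1 + NB a m ≤ C) :
    RTg.Bo (fun f : 𝓢(ℂ, ℂ) => FF a m f) p (C ^ (1 - 2 / p)) := by
  have hC1 : 1 ≤ C := by have := NB_nonneg a m; linarith
  have hN' := NB'_nonneg a m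
  rcases hp.eq_or_lt with h | h
  · subst h
    have e : (1 : ℝ) - 2 / 2 = 0 := by norm_num
    rw [e, Real.rpow_zero]
    exact bo_two a m
  have hp0 : 0 < p := by linarith
  intro f
  set P : ℕ → ℝ := fun N => p + 1 + N with hP
  have hPp : ∀ N, p < P N := fun N => by
    have : (0:ℝ) ≤ N := Nat.cast_nonneg N
    rw [hP]; simp only; linarith
  set θ : ℕ → ℝ := fun N => (1 / 2 - 1 / p) / (1 / 2 - 1 / P N) with hθ
  set K : ℕ → ℝ := fun N => (C + 2 / P N * NB' a m) with hK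
  have hPlim : Tendsto P atTop atTop := by
    rw [hP]
    exact tendsto_atTop_add_const_left _ _ tendsto_natCast_atTop_atTop
  have hinv : Tendsto (fun N => 1 / P N) atTop (𝓝 0) := by
    simp only [one_div]
    exact tendsto_inv_atTop_zero.comp hPlim
  have hKlim : Tendsto K atTop (𝓝 C) := by
    have h1 : Tendsto (fun N => C + 2 * (1 / P N) * NB' a m) atTop (𝓝 (C + 2 * 0 * NB' a m)) :=
      tendsto_const_nhds.add ((hinv.const_mul 2).mul_const _)
    rw [mul_zero, zero_mul, add_zero] at h1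
    refine h1.congr fun N => ?_
    rw [hK]
    simp only
    ring
  have hθlim : Tendsto θ atTop (𝓝 (1 - 2 / p)) := by
    have h1 : Tendsto (fun N => (1 / 2 - 1 / p) / (1 / 2 - 1 / P N)) atTop
        (𝓝 ((1 / 2 - 1 / p) / (1 / 2 - 0))) :=
      tendsto_const_nhds.div (tendsto_const_nhds.sub hinv) (by norm_num)
    have e : (1 / 2 - 1 / p) / (1 / 2 - 0) = 1 - 2 / p := by
      field_simp
      ring
    rwa [e] at h1
  have hlim : Tendsto (fun N => (1:ℝ) ^ (1 - θ N) * K N ^ θ N) atTop (𝓝 (C ^ (1 - 2 / p))) := by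
    simp only [Real.one_rpow, one_mul]
    exact hKlim.rpow hθlim (Or.inl (by linarith))
  have hb : ∀ N, ∫⁻ x, ‖FF a m f x‖ₑ ^ p ≤
      ENNReal.ofReal ((1:ℝ) ^ (1 - θ N) * K N ^ θ N) ^ p * ∫⁻ x, ‖f x‖ₑ ^ p := by
    intro N
    have hP2 : 2 < P N := h.trans (hPp N)
    have h0 : 0 < P N := by linarith
    have e1 : 1 / P N < 1 / 2 := one_div_lt_one_div_of_lt (by norm_num) hP2
    have hth : 1 / p = (1 - θ N) / 2 + θ N / P N := by
      rw [hθ]
      simp only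
      have : (1 / 2 - 1 / P N) ≠ 0 := by linarith
      have h3 : (1 / 2 - 1 / p) / (1 / 2 - 1 / P N) * (1 / 2 - 1 / P N) = 1 / 2 - 1 / p :=
        div_mul_cancel₀ _ this
      have h4 : (1 - (1 / 2 - 1 / p) / (1 / 2 - 1 / P N)) / 2 + (1 / 2 - 1 / p) / (1 / 2 - 1 / P N) / P N =
        1 / 2 - (1 / 2 - 1 / p) / (1 / 2 - 1 / P N) * (1 / 2 - 1 / P N) := by ring
      rw [h4, h3]
      ring
    have B1 : RTg.Bo (fun f : 𝓢(ℂ, ℂ) => FF a m f) (P N) (K N) := by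
      intro g
      refine (bo_p a m (p := P N) hP2.le g).trans ?_
      gcongr
      rw [hK]
      simp only
      linarith
    have hKpos : 0 < K N := by
      rw [hK]
      simp only
      have : 0 ≤ 2 / P N * NB' a m := by positivity
      linarith
    exact RTg.main (FF_lin a m) (p₀ := 2) (p₁ := P N) (p := p) (θ := θ N) (K₀ := 1) (K₁ := K N)
      le_rfl h (hPp N) hth one_pos hKpos (bo_two a m) B1 f
  have hC0 : 0 < C ^ (1 - 2 / p) := Real.rpow_pos_of_pos (by linarith) _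
  have hfin : Tendsto (fun N => ENNReal.ofReal ((1:ℝ) ^ (1 - θ N) * K N ^ θ N) ^ p * ∫⁻ x, ‖f x‖ₑ ^ p)
      atTop (𝓝 (ENNReal.ofReal (C ^ (1 - 2 / p)) ^ p * ∫⁻ x, ‖f x‖ₑ ^ p)) := by
    refine ENNReal.Tendsto.mul_const ?_ (Or.inl ?_)
    · exact ((ENNReal.continuous_rpow_const (y := p)).tendsto _).comp (ENNReal.tendsto_ofReal hlim)
    · have : ENNReal.ofReal (C ^ (1 - 2 / p)) ≠ 0 := by
        rw [Ne, ENNReal.ofReal_eq_zero, not_le]; exact hC0
      exact (ENNReal.rpow_pos (pos_iff_ne_zero.2 this) ENNReal.ofReal_ne_top).ne'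
  exact ge_of_tendsto' hfin hb

/-- the constant `√(π √2) < 2.11` -/
lemma const_lt : √(Real.pi * √2) ≤ 2.11 := by
  rw [Real.sqrt_le_left (by norm_num)]
  have h1 := Real.pi_lt_d4
  have h2 : √2 ≤ 1.415 := by
    rw [Real.sqrt_le_left (by norm_num)]; norm_num
  have h3 := Real.pi_pos
  nlinarith [Real.sqrt_nonneg 2]

theorem NB_le (a m : ℕ) : 1 + NB a m ≤ 1 + 2.11 * (m : ℝ) ^ (3 / 4 : ℝ) := by
  rcases Nat.eq_zero_or_pos m with h | h
  · subst h
    have : NB a 0 = 0 := by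
      unfold NB ka
      simp
    rw [this]
    simp
  · have h1 := ka_bound a m h
    unfold NB
    have h2 : √(Real.pi * √2) * (m : ℝ) ^ (3 / 4 : ℝ) ≤ 2.11 * (m : ℝ) ^ (3 / 4 : ℝ) :=
      mul_le_mul_of_nonneg_right const_lt (by positivity)
    linarith

/-- **The operator on `L ^ p`.** -/
theorem bo_fin (a m : ℕ) {p : ℝ} (hp : 2 ≤ p) (f : 𝓢(ℂ, ℂ)) :
    eLpNorm (FF a m f) (ENNReal.ofReal p) volume ≤
      ENNReal.ofReal ((1 + 2.11 * (m : ℝ) ^ (3 / 4 : ℝ)) ^ (1 - 2 / p)) *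
        eLpNorm (fun z : ℂ => f z) (ENNReal.ofReal p) volume := by
  have hp0 : 0 < p := by linarith
  have h := bo_all a m hp (NB_le a m) f
  have hq' : ENNReal.ofReal p ≠ 0 := by
    rw [Ne, ENNReal.ofReal_eq_zero, not_le]; exact hp0
  rw [eLpNorm_eq_lintegral_rpow_enorm_toReal hq' ENNReal.ofReal_ne_top,
    eLpNorm_eq_lintegral_rpow_enorm_toReal hq' ENNReal.ofReal_ne_top, ENNReal.toReal_ofReal hp0.le]
  have h1 : ENNReal.ofReal ((1 + 2.11 * (m : ℝ) ^ (3 / 4 : ℝ)) ^ (1 - 2 / p)) * (∫⁻ x, ‖f x‖ₑ ^ p) ^ (1 / p) =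
      (ENNReal.ofReal ((1 + 2.11 * (m : ℝ) ^ (3 / 4 : ℝ)) ^ (1 - 2 / p)) ^ p * ∫⁻ x, ‖f x‖ₑ ^ p) ^ (1 / p) := by
    rw [ENNReal.mul_rpow_of_nonneg _ _ (by positivity), ← ENNReal.rpow_mul, mul_one_div_cancel hp0.ne',
      ENNReal.rpow_one]
  rw [h1]
  exact ENNReal.rpow_le_rpow h (by positivity)

end Pool.Agent.Run7.h695.BT
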