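import Pool.Agent.Run7.h695.BT.KerR

/-!
# The differential equation of the kernel (helper695)
-/

set_option autoImplicit false

open Polynomial Finset MeasureTheory

namespace Pool.Agent.Run7.h695.BT

lemma PP_step (a m : ℕ) (x : ℝ) : (PP a m).eval (x + 1) * (x + a + 1) = (PP a m).eval x * (x + a + 1 + m) := by
  rw [PP_at, PP_at]
  have h1 := Finset.prod_range_succ (fun i : ℕ => x + a + 1 + (i : ℝ)) m
  have h2 := Finset.prod_range_succ' (fun i : ℕ => x + a + 1 + (i : ℝ)) m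
  rw [h1] at h2
  rw [h2]
  push_cast
  rw [add_zero]
  congr 1
  exact Finset.prod_congr rfl fun i _ => by ring

lemma QK_step {n k : ℕ} (hk : k < n) : (QK (n + 1) (k + 1)).eval (((k + 1 : ℕ)) : ℝ) * ((k : ℝ) - n) =
    (QK (n + 1) k).eval ((k : ℕ) : ℝ) * (k + 1) := by
  unfold QK
  rw [eval_prod, eval_prod]
  have h1 : (range (n + 1)).erase (k + 1) = insert 0 (((range n).erase k).image (fun i => i + 1)) := by
    ext x
    simp only [mem_erase, mem_range, mem_image, mem_insert]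
    constructor
    · rintro ⟨h1, h2⟩
      rcases Nat.eq_zero_or_pos x with h | h
      · left; exact h
      · right; exact ⟨x - 1, ⟨by omega, by omega⟩, by omega⟩
    · rintro (h | ⟨y, ⟨h1, h2⟩, h3⟩)
      · omega
      · omega
  have h2 : (range (n + 1)).erase k = insert n ((range n).erase k) := by
    ext x
    simp only [mem_erase, mem_range, mem_insert]
    omega
  rw [h1, h2, Finset.prod_insert (by simp), Finset.prod_insert (by simp),
    Finset.prod_image (fun x _ y _ h => by simpa using h)]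
  have e1 : ∀ i ∈ (range n).erase k, eval (((k + 1 : ℕ)) : ℝ) (X - C (((i + 1 : ℕ)) : ℝ)) =
      eval ((k : ℕ) : ℝ) (X - C ((i : ℕ) : ℝ)) := by
    intro i _
    simp only [eval_sub, eval_X, eval_C]
    push_cast
    ring
  rw [Finset.prod_congr rfl e1]
  simp only [eval_sub, eval_X, eval_C]
  push_cast
  ring

lemma ck_rec (a : ℕ) {n k : ℕ} (hk : k < n) : ck a (n + 1) (k + 1) * (((k : ℝ) + 1) * (k + a + 1)) =
    ck a (n + 1) k * (((k : ℝ) - n) * (k + n + a + 2)) := by
  have h1 := PP_step a (n + 1) (k : ℝ)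
  have h2 := QK_step hk
  have hn1 : (QK (n + 1) (k + 1)).eval (((k + 1 : ℕ)) : ℝ) ≠ 0 := QK_eval_ne
  have hn2 : (QK (n + 1) k).eval ((k : ℕ) : ℝ) ≠ 0 := QK_eval_ne
  unfold ck
  have e : (((k + 1 : ℕ)) : ℝ) = (k : ℝ) + 1 := by push_cast; ring
  rw [e] at hn1 h2 ⊢
  push_cast at h1
  rw [div_mul_eq_mul_div, div_mul_eq_mul_div, div_eq_div_iff hn1 hn2]
  linear_combination ((k : ℝ) + 1) * (QK (n + 1) k).eval (k : ℝ) * h1 -
    (PP a (n + 1)).eval (k : ℝ) * ((k : ℝ) + n + a + 2) * h2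

noncomputable def f0 (a m : ℕ) (u : ℝ) : ℝ := ∑ k ∈ range m, ck a m k * u ^ k

noncomputable def f1 (a m : ℕ) (u : ℝ) : ℝ := ∑ k ∈ range m, ck a m k * (k * u ^ (k - 1))

noncomputable def f2 (a m : ℕ) (u : ℝ) : ℝ := ∑ k ∈ range m, ck a m k * (k * ((k - 1 : ℕ) * u ^ (k - 1 - 1)))

lemma f0_deriv (a m : ℕ) (u : ℝ) : HasDerivAt (f0 a m) (f1 a m u) u := by
  unfold f0 f1
  have h := HasDerivAt.sum (u := range m) (A := fun k (u : ℝ) => ck a m k * u ^ k)
    (A' := fun k => ck a m k * (k * u ^ (k - 1))) (x := u) fun k _ => (hasDerivAt_pow k u).const_mul _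
  refine h.congr_of_eventuallyEq (Filter.Eventually.of_forall fun x => ?_)
  simp only [Finset.sum_apply]

lemma f1_deriv (a m : ℕ) (u : ℝ) : HasDerivAt (f1 a m) (f2 a m u) u := by
  unfold f1 f2
  have h := HasDerivAt.sum (u := range m) (A := fun k (u : ℝ) => ck a m k * (k * u ^ (k - 1)))
    (A' := fun k => ck a m k * (k * ((k - 1 : ℕ) * u ^ (k - 1 - 1)))) (x := u)
    fun k _ => ((hasDerivAt_pow (k - 1) u).const_mul _).const_mul _
  refine h.congr_of_eventuallyEq (Filter.Eventually.of_forall fun x => ?_)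
  simp only [Finset.sum_apply]

/-- the hypergeometric equation -/
theorem ode (a n : ℕ) (u : ℝ) : u * (1 - u) * f2 a (n + 1) u + (((a : ℝ) + 1) - (a + 3) * u) * f1 a (n + 1) u +
    (n * (n + a + 2)) * f0 a (n + 1) u = 0 := by
  have e : ∀ k : ℕ, u * (1 - u) * (ck a (n + 1) k * (k * ((k - 1 : ℕ) * u ^ (k - 1 - 1)))) +
      (((a : ℝ) + 1) - (a + 3) * u) * (ck a (n + 1) k * (k * u ^ (k - 1))) +
      (n * (n + a + 2)) * (ck a (n + 1) k * u ^ k) =
      ck a (n + 1) k * (k * (k + a)) * u ^ (k - 1) -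
        ck a (n + 1) k * (((k : ℝ) - n) * (k + n + a + 2)) * u ^ k := by
    intro k
    rcases Nat.lt_or_ge k 2 with h | h
    · interval_cases k
      · simp
        ring
      · simp
        ring
    · obtain ⟨l, rfl⟩ : ∃ l, k = l + 2 := ⟨k - 2, by omega⟩
      have e1 : l + 2 - 1 = l + 1 := by omega
      have e2 : l + 1 - 1 = l := by omega
      rw [e1, e2]
      push_cast
      ring
  unfold f0 f1 f2
  rw [Finset.mul_sum, Finset.mul_sum, Finset.mul_sum, ← Finset.sum_add_distrib, ← Finset.sum_add_distrib,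
    Finset.sum_congr rfl fun k _ => e k, Finset.sum_sub_distrib, Finset.sum_range_succ', Finset.sum_range_succ]
  have h : ∀ k ∈ range n, ck a (n + 1) (k + 1) * (((k + 1 : ℕ) : ℝ) * (((k + 1 : ℕ) : ℝ) + a)) * u ^ (k + 1 - 1) =
      ck a (n + 1) k * (((k : ℝ) - n) * (k + n + a + 2)) * u ^ k := by
    intro k hk
    rw [← ck_rec a (mem_range.1 hk), Nat.add_sub_cancel]
    push_cast
    ring
  rw [Finset.sum_congr rfl h]
  simp

end Pool.Agent.Run7.h695.BT
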