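import Pool.Agent.Run7.h695.BT.OpR

/-!
# A fractional moment of the kernel (helper695)
-/

set_option autoImplicit false

open Finset MeasureTheory

namespace Pool.Agent.Run7.h695.BT

/-- the polynomial factor -/
noncomputable def gA (a m u F0 F1 : ℝ) : ℝ :=
  (1 - u) ^ 2 * ((a / 2 * F0 + u * F1) ^ 2 - a ^ 2 / 4 * F0 ^ 2) +
    (1 - u) * u * ((m * (m + a) - 1) * F0 ^ 2 - 5 / 4 * F0 * (a / 2 * F0 + u * F1) + 5 / 8 * F0 ^ 2) +
    5 / 32 * (u ^ 2 * F0 ^ 2)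

noncomputable def gA' (a m u F0 F1 F2 : ℝ) : ℝ :=
  -2 * (1 - u) * ((a / 2 * F0 + u * F1) ^ 2 - a ^ 2 / 4 * F0 ^ 2) +
    (1 - u) ^ 2 * (2 * (a / 2 * F0 + u * F1) * (a / 2 * F1 + F1 + u * F2) - a ^ 2 / 4 * (2 * F0 * F1)) +
    ((1 - u) - u) * ((m * (m + a) - 1) * F0 ^ 2 - 5 / 4 * F0 * (a / 2 * F0 + u * F1) + 5 / 8 * F0 ^ 2) +
    (1 - u) * u * ((m * (m + a) - 1) * (2 * F0 * F1) - 5 / 4 * (F1 * (a / 2 * F0 + u * F1) +
      F0 * (a / 2 * F1 + F1 + u * F2)) + 5 / 8 * (2 * F0 * F1)) +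
    5 / 32 * (2 * u * F0 ^ 2 + u ^ 2 * (2 * F0 * F1))

noncomputable def cA (a m : ℝ) : ℝ := 3 / 2 * (m * (m + a) - 1 + a ^ 2 / 4) + 165 / 128

noncomputable def cB (a m : ℝ) : ℝ := 1 / 2 * (m * (m + a) - 1 + 35 / 32)

lemma key_alg (a m u F0 F1 F2 : ℝ)
    (h : u * (1 - u) * F2 + ((a + 1) - (a + 3) * u) * F1 + ((m - 1) * (m + a + 1)) * F0 = 0) :
    a * (1 - u) * gA a m u F0 F1 - 3 / 4 * u * gA a m u F0 F1 + u * (1 - u) * gA' a m u F0 F1 F2 =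
      u * F0 ^ 2 * (cA a m * (1 - u) ^ 2 - cB a m * (1 - u) - 15 / 128) := by
  unfold gA gA' cA cB
  linear_combination (u * (2 * (1 - u) ^ 2 * (a / 2 * F0 + u * F1) - 5 / 4 * (1 - u) * u * F0)) * h

lemma gA_deriv (a n : ℕ) (m : ℝ) (u : ℝ) :
    HasDerivAt (fun u => gA a m u (f0 a (n + 1) u) (f1 a (n + 1) u))
      (gA' a m u (f0 a (n + 1) u) (f1 a (n + 1) u) (f2 a (n + 1) u)) u := by
  have h0 := f0_deriv a (n + 1) u
  have h1 := f1_deriv a (n + 1) u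
  have hu := hasDerivAt_id u
  have hx : HasDerivAt (fun u : ℝ => 1 - u) (-1) u := hu.const_sub 1
  have hL : HasDerivAt (fun u => (a : ℝ) / 2 * f0 a (n + 1) u + u * f1 a (n + 1) u)
      ((a : ℝ) / 2 * f1 a (n + 1) u + f1 a (n + 1) u + u * f2 a (n + 1) u) u := by
    refine ((h0.const_mul ((a : ℝ) / 2)).add (hu.mul h1)).congr_deriv ?_
    simp only [id]
    ring
  have hL2 : HasDerivAt (fun u => ((a : ℝ) / 2 * f0 a (n + 1) u + u * f1 a (n + 1) u) ^ 2)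
      (2 * ((a : ℝ) / 2 * f0 a (n + 1) u + u * f1 a (n + 1) u) *
        ((a : ℝ) / 2 * f1 a (n + 1) u + f1 a (n + 1) u + u * f2 a (n + 1) u)) u := by
    refine (hL.pow 2).congr_deriv ?_
    push_cast
    ring
  have h02 : HasDerivAt (fun u => f0 a (n + 1) u ^ 2) (2 * f0 a (n + 1) u * f1 a (n + 1) u) u := by
    refine (h0.pow 2).congr_deriv ?_
    push_cast
    ring
  have hx2 : HasDerivAt (fun u : ℝ => (1 - u) ^ 2) (-2 * (1 - u)) u := by
    refine (hx.pow 2).congr_deriv ?_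
    push_cast
    ring
  have hu2 : HasDerivAt (fun u : ℝ => u ^ 2) (2 * u) u := by
    refine (hasDerivAt_pow 2 u).congr_deriv ?_
    push_cast
    ring
  have t1 := hx2.mul (hL2.sub (h02.const_mul ((a : ℝ) ^ 2 / 4)))
  have t2 := (hx.mul hu).mul (((h02.const_mul (m * (m + a) - 1)).sub
    ((h0.mul hL).const_mul (5 / 4))).add (h02.const_mul (5 / 8)))
  have t3 := (hu2.mul h02).const_mul (5 / 32)
  have t := (t1.add t2).add t3
  refine HasDerivAt.congr_of_eventuallyEq (t.congr_deriv ?_) (Filter.Eventually.of_forall fun x => ?_)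
  · unfold gA'
    simp only [Pi.mul_apply, Pi.sub_apply, Pi.add_apply, id]
    ring
  · unfold gA
    simp only [Pi.mul_apply, Pi.sub_apply, Pi.add_apply, id]
    ring

/-- the monotone quantity -/
noncomputable def GA (a n : ℕ) (v : ℝ) : ℝ :=
  v ^ (2 * a) * ((1 - v ^ 2) ^ (3 / 4 : ℝ) *
    gA a (n + 1) (v ^ 2) (f0 a (n + 1) (v ^ 2)) (f1 a (n + 1) (v ^ 2)))

lemma GA_deriv (a n : ℕ) {v : ℝ} (hv : v ∈ Set.Ioo (0:ℝ) 1) :
    HasDerivAt (GA a n) (2 * v * (kb a (n + 1) v) ^ 2 * ((1 - v ^ 2) ^ (3 / 4 : ℝ) *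
      (cA a (n + 1) * (1 - v ^ 2) - cB a (n + 1) - 15 / 128 / (1 - v ^ 2)))) v := by
  have hv0 : 0 < v := hv.1
  have hv2 : v ^ 2 < 1 := by nlinarith [hv.2]
  have hx : 0 < 1 - v ^ 2 := by linarith
  have d1 : HasDerivAt (fun v : ℝ => v ^ (2 * a)) (2 * a * v ^ (2 * a) / v) v := by
    refine (hasDerivAt_pow (2 * a) v).congr_deriv ?_
    rcases Nat.eq_zero_or_pos a with h | h
    · subst h
      simp
    · have e : v ^ (2 * a) = v ^ (2 * a - 1) * v := by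
        rw [← pow_succ]
        congr 1
        omega
      rw [e]
      push_cast
      field_simp
  have dx : HasDerivAt (fun v : ℝ => 1 - v ^ 2) (-(2 * v)) v := by
    refine ((hasDerivAt_pow 2 v).const_sub 1).congr_deriv ?_
    norm_num
  have ds : HasDerivAt (fun v : ℝ => v ^ 2) (2 * v) v := by
    refine (hasDerivAt_pow 2 v).congr_deriv ?_
    norm_num
  have d2 := dx.rpow_const (p := 3 / 4) (Or.inl hx.ne')
  rw [Real.rpow_sub_one hx.ne'] at d2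
  have d3 := (gA_deriv a n (n + 1) (v ^ 2)).comp v ds
  have d := d1.mul (d2.mul d3)
  refine HasDerivAt.congr_deriv (HasDerivAt.congr_of_eventuallyEq d (Filter.Eventually.of_forall fun x => rfl)) ?_
  have hode := ode a n (v ^ 2)
  have hk := key_alg a (n + 1) (v ^ 2) (f0 a (n + 1) (v ^ 2)) (f1 a (n + 1) (v ^ 2)) (f2 a (n + 1) (v ^ 2)) (by
    rw [← hode]
    ring)
  simp only [Function.comp_apply, Pi.mul_apply]
  rw [kb_f0]
  set F0 := f0 a (n + 1) (v ^ 2) with hF0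
  set F1 := f1 a (n + 1) (v ^ 2) with hF1
  set F2 := f2 a (n + 1) (v ^ 2) with hF2
  set g := gA a (n + 1) (v ^ 2) F0 F1 with hg
  set g' := gA' a (n + 1) (v ^ 2) F0 F1 F2 with hg'
  set w := (1 - v ^ 2) ^ (3 / 4 : ℝ) with hw
  set α := cA a (n + 1) with hα
  set β := cB a (n + 1) with hβ
  have e1 : v ^ (2 * a) = (v ^ a) ^ 2 := by rw [← pow_mul]; congr 1; ring
  rw [e1]
  set V := v ^ a with hV
  have hk2 : a * g / v ^ 2 - 3 / 4 * g / (1 - v ^ 2) + g' = F0 ^ 2 * (α * (1 - v ^ 2) - β - 15 / 128 / (1 - v ^ 2)) := by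
    have hx' := hx.ne'
    obtain ⟨x, hxx⟩ : ∃ x, x = 1 - v ^ 2 := ⟨_, rfl⟩
    rw [← hxx] at hk hx' ⊢
    field_simp
    linear_combination 512 * hk
  have hx' := hx.ne'
  calc 2 * a * V ^ 2 / v * (w * g) + V ^ 2 * (-(2 * v) * (3 / 4) * (w / (1 - v ^ 2)) * g + w * (g' * (2 * v)))
      = 2 * v * V ^ 2 * w * (a * g / v ^ 2 - 3 / 4 * g / (1 - v ^ 2) + g') := by
        obtain ⟨x, hxx⟩ : ∃ x, x = 1 - v ^ 2 := ⟨_, rfl⟩
        rw [← hxx] at hx' ⊢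
        field_simp
        ring
    _ = _ := by
        rw [hk2]
        ring

lemma xpow {x : ℝ} (hx : 0 ≤ x) : x ^ (3 / 4 : ℝ) ≤ 0.15 + 0.9 * x := by
  set y : ℝ := x ^ (1 / 4 : ℝ) with hy
  have h3 : x ^ (3 / 4 : ℝ) = y ^ 3 := by
    rw [hy, ← Real.rpow_natCast, ← Real.rpow_mul hx]
    norm_num
  have h4 : x = y ^ 4 := by
    rw [hy, ← Real.rpow_natCast, ← Real.rpow_mul hx]
    norm_num
  have h5 : 0.15 + 0.9 * x = 0.15 + 0.9 * y ^ 4 := by rw [← h4]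
  rw [h3, h5]
  nlinarith [sq_nonneg (y ^ 2 - 5 / 9 * y - 1 / 4), sq_nonneg (y - 0.7258)]

/-- **The fractional moment.** -/
theorem frac (a n : ℕ) : cB a (n + 1) * ∫ v in (0:ℝ)..1, 2 * v * (kb a (n + 1) v) ^ 2 * (1 - v ^ 2) ^ (3 / 4 : ℝ) ≤
    cA a (n + 1) * (0.15 * J1 a (n + 1) + 0.9 * J2 a (n + 1)) := by
  have hkb := kb_cont a (n + 1)
  have hxc : Continuous fun v : ℝ => (1 - v ^ 2) ^ (3 / 4 : ℝ) :=
    (by fun_prop : Continuous fun v : ℝ => 1 - v ^ 2).rpow_const fun _ => Or.inr (by norm_num)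
  have hf0 := f0_cont a (n + 1)
  have hf1 := f1_cont a (n + 1)
  have hGc : Continuous (GA a n) := by
    unfold GA gA
    fun_prop
  have h0 : GA a n 0 = 0 := by
    unfold GA gA
    rcases Nat.eq_zero_or_pos a with h | h
    · subst h
      simp
    · rw [zero_pow (by omega)]
      ring
  have h1 : GA a n 1 = 0 := by
    unfold GA
    have : ((1:ℝ) - 1 ^ 2) ^ (3 / 4 : ℝ) = 0 := by
      rw [one_pow, sub_self, Real.zero_rpow (by norm_num)]
    rw [this]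
    ring
  have hA0 : 0 ≤ cA a (n + 1) := by
    unfold cA
    have : (0:ℝ) ≤ a := Nat.cast_nonneg a
    have : (0:ℝ) ≤ n := Nat.cast_nonneg n
    nlinarith [mul_nonneg ‹(0:ℝ) ≤ n› ‹(0:ℝ) ≤ a›]
  have hcφ : Continuous fun v : ℝ => 2 * v * (kb a (n + 1) v) ^ 2 * ((1 - v ^ 2) ^ (3 / 4 : ℝ) *
      (cA a (n + 1) * (1 - v ^ 2) - cB a (n + 1))) := by fun_prop
  have h2 := intervalIntegral.sub_le_integral_of_hasDeriv_right_of_le (zero_le_one) hGc.continuousOn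
    (fun v hv => (GA_deriv a n hv).hasDerivWithinAt) (hcφ.continuousOn.integrableOn_compact isCompact_Icc)
    (fun v hv => by
      have hv2 : v ^ 2 < 1 := by nlinarith [hv.1, hv.2]
      have hx : 0 < 1 - v ^ 2 := by linarith
      refine mul_le_mul_of_nonneg_left ?_ (mul_nonneg (by linarith [hv.1]) (sq_nonneg _))
      refine mul_le_mul_of_nonneg_left ?_ (Real.rpow_nonneg hx.le _)
      have : 0 ≤ 15 / 128 / (1 - v ^ 2) := by positivity
      linarith)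
  rw [h0, h1, sub_zero] at h2
  have i1 : IntervalIntegrable (fun v : ℝ => cA a (n + 1) * (2 * v * (kb a (n + 1) v) ^ 2 *
      ((1 - v ^ 2) * (1 - v ^ 2) ^ (3 / 4 : ℝ)))) volume 0 1 :=
    (by fun_prop : Continuous fun v : ℝ => cA a (n + 1) * (2 * v * (kb a (n + 1) v) ^ 2 *
      ((1 - v ^ 2) * (1 - v ^ 2) ^ (3 / 4 : ℝ)))).intervalIntegrable _ _
  have i2 : IntervalIntegrable (fun v : ℝ => cB a (n + 1) * (2 * v * (kb a (n + 1) v) ^ 2 *
      (1 - v ^ 2) ^ (3 / 4 : ℝ))) volume 0 1 :=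
    (by fun_prop : Continuous fun v : ℝ => cB a (n + 1) * (2 * v * (kb a (n + 1) v) ^ 2 *
      (1 - v ^ 2) ^ (3 / 4 : ℝ))).intervalIntegrable _ _
  have e1 : ∫ v in (0:ℝ)..1, 2 * v * (kb a (n + 1) v) ^ 2 * ((1 - v ^ 2) ^ (3 / 4 : ℝ) *
      (cA a (n + 1) * (1 - v ^ 2) - cB a (n + 1))) =
      (∫ v in (0:ℝ)..1, cA a (n + 1) * (2 * v * (kb a (n + 1) v) ^ 2 *
      ((1 - v ^ 2) * (1 - v ^ 2) ^ (3 / 4 : ℝ)))) -
      ∫ v in (0:ℝ)..1, cB a (n + 1) * (2 * v * (kb a (n + 1) v) ^ 2 * (1 - v ^ 2) ^ (3 / 4 : ℝ)) := by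
    rw [← intervalIntegral.integral_sub i1 i2]
    refine intervalIntegral.integral_congr fun v _ => ?_
    ring
  rw [e1, intervalIntegral.integral_const_mul, intervalIntegral.integral_const_mul] at h2
  have h3 : ∫ v in (0:ℝ)..1, 2 * v * (kb a (n + 1) v) ^ 2 * ((1 - v ^ 2) * (1 - v ^ 2) ^ (3 / 4 : ℝ)) ≤
      0.15 * J1 a (n + 1) + 0.9 * J2 a (n + 1) := by
    have h4 := int_sq2 a (n + 1) (by omega) 0.15 0.9
    have h5 := int_sq2 a (n + 1) (by omega) 0 0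
    have i3 : ∀ e f : ℝ, IntervalIntegrable (fun v : ℝ => 2 * v * (kb a (n + 1) v) ^ 2 *
        (1 + e * (1 - v ^ 2) + f * (1 - v ^ 2) ^ 2)) volume 0 1 := fun e f =>
      (by fun_prop : Continuous fun v : ℝ => 2 * v * (kb a (n + 1) v) ^ 2 *
        (1 + e * (1 - v ^ 2) + f * (1 - v ^ 2) ^ 2)).intervalIntegrable _ _
    have h6 : ∫ v in (0:ℝ)..1, (2 * v * (kb a (n + 1) v) ^ 2 * (1 + 0.15 * (1 - v ^ 2) + 0.9 * (1 - v ^ 2) ^ 2) -
        2 * v * (kb a (n + 1) v) ^ 2 * (1 + 0 * (1 - v ^ 2) + 0 * (1 - v ^ 2) ^ 2)) =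
        0.15 * J1 a (n + 1) + 0.9 * J2 a (n + 1) := by
      rw [intervalIntegral.integral_sub (i3 _ _) (i3 _ _), h4, h5]
      ring
    rw [← h6]
    refine intervalIntegral.integral_mono_on zero_le_one ?_ ((i3 _ _).sub (i3 _ _)) fun v hv => ?_
    · exact (by fun_prop : Continuous fun v : ℝ => 2 * v * (kb a (n + 1) v) ^ 2 *
        ((1 - v ^ 2) * (1 - v ^ 2) ^ (3 / 4 : ℝ))).intervalIntegrable _ _
    · have hx : 0 ≤ 1 - v ^ 2 := by
        have := pow_le_one₀ hv.1 hv.2 (n := 2)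
        linarith
      have h7 := mul_le_mul_of_nonneg_left (xpow hx) hx
      have h8 : 0 ≤ 2 * v * (kb a (n + 1) v) ^ 2 := mul_nonneg (by linarith [hv.1]) (sq_nonneg _)
      calc _ ≤ 2 * v * (kb a (n + 1) v) ^ 2 * ((1 - v ^ 2) * (0.15 + 0.9 * (1 - v ^ 2))) :=
            mul_le_mul_of_nonneg_left h7 h8
        _ = _ := by ring
  have h9 := mul_le_mul_of_nonneg_left h3 hA0
  linarith

end Pool.Agent.Run7.h695.BT
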