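import Mathlib

/-!
# The kernel of `T ^ m` on the angular class `-a`: coefficients (helper695)

`K(u) = ∑ k < m, c_k u ^ k` with `∫ q K u ^ a = q(1)` on `[0, 1]` for `deg q < m`.
-/

set_option autoImplicit false

open Polynomial Finset

namespace Pool.Agent.Run7.h695.BT

noncomputable def PP (a m : ℕ) : ℝ[X] := ∏ i ∈ range m, (X - C (-((a : ℝ) + 1 + i)))

noncomputable def QQ (m : ℕ) : ℝ[X] := ∏ k ∈ range m, (X - C ((k : ℕ) : ℝ))

noncomputable def QK (m k : ℕ) : ℝ[X] := ∏ i ∈ (range m).erase k, (X - C ((i : ℕ) : ℝ))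

noncomputable def ck (a m k : ℕ) : ℝ := (PP a m).eval (k : ℝ) / (QK m k).eval (k : ℝ)

lemma QK_eval_ne {m k : ℕ} : (QK m k).eval (k : ℝ) ≠ 0 := by
  unfold QK
  rw [eval_prod]
  refine Finset.prod_ne_zero_iff.2 fun i hi => ?_
  rw [mem_erase] at hi
  simp only [eval_sub, eval_X, eval_C, ne_eq, sub_eq_zero, Nat.cast_inj]
  exact fun h => hi.1 h.symm

lemma QK_mul {m k : ℕ} (hk : k < m) : (X - C ((k : ℕ) : ℝ)) * QK m k = QQ m := by
  unfold QK QQ
  exact Finset.mul_prod_erase (range m) (fun i : ℕ => X - C ((i : ℕ) : ℝ)) (mem_range.2 hk)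

lemma QK_eval_other {m k l : ℕ} (hl : l < m) (h : l ≠ k) : (QK m k).eval (l : ℝ) = 0 := by
  unfold QK
  rw [eval_prod]
  refine Finset.prod_eq_zero (i := l) (mem_erase.2 ⟨h, mem_range.2 hl⟩) ?_
  simp

lemma monic_QK (m k : ℕ) : (QK m k).Monic := by
  unfold QK
  exact monic_prod_of_monic _ _ fun i _ => monic_X_sub_C _

lemma natDegree_QK {m k : ℕ} (hk : k < m) : (QK m k).natDegree = m - 1 := by
  unfold QK
  rw [natDegree_prod_of_monic _ _ fun i _ => monic_X_sub_C _]
  simp only [natDegree_X_sub_C, sum_const, smul_eq_mul, mul_one, card_erase_of_mem (mem_range.2 hk),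
    card_range]

/-- Lagrange interpolation -/
theorem lagr (a m : ℕ) : PP a m = QQ m + ∑ k ∈ range m, C (ck a m k) * QK m k := by
  have hP : (PP a m).Monic := monic_prod_of_monic _ _ fun i _ => monic_X_sub_C _
  have hQ : (QQ m).Monic := monic_prod_of_monic _ _ fun i _ => monic_X_sub_C _
  have dP : (PP a m).natDegree = m := by
    unfold PP
    rw [natDegree_prod_of_monic _ _ fun i _ => monic_X_sub_C _]
    simp only [natDegree_X_sub_C, sum_const, smul_eq_mul, mul_one, card_range]
  have dQ : (QQ m).natDegree = m := by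
    unfold QQ
    rw [natDegree_prod_of_monic _ _ fun i _ => monic_X_sub_C _]
    simp only [natDegree_X_sub_C, sum_const, smul_eq_mul, mul_one, card_range]
  have h0 : PP a m - QQ m - ∑ k ∈ range m, C (ck a m k) * QK m k = 0 := by
    refine Polynomial.eq_zero_of_degree_lt_of_eval_index_eq_zero (s := range m)
      (v := fun k : ℕ => (k : ℝ)) (fun x _ y _ h => Nat.cast_injective h) ?_ ?_
    · rw [card_range]
      refine (degree_sub_le _ _).trans_lt (max_lt ?_ ?_)
      · have h1 : (PP a m - QQ m).degree < (PP a m).degree := by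
          refine degree_sub_lt_left ?_ hP.ne_zero ?_
          · rw [degree_eq_natDegree hP.ne_zero, degree_eq_natDegree hQ.ne_zero, dP, dQ]
          · rw [hP.leadingCoeff, hQ.leadingCoeff]
        rwa [degree_eq_natDegree hP.ne_zero, dP] at h1
      · refine lt_of_le_of_lt (degree_sum_le _ _) ?_
        refine (Finset.sup_lt_iff (WithBot.bot_lt_coe m)).2 fun k hk => ?_
        have hk' := mem_range.1 hk
        rw [← smul_eq_C_mul]
        refine lt_of_le_of_lt (degree_smul_le _ _) ?_
        rw [degree_eq_natDegree (monic_QK m k).ne_zero, natDegree_QK hk']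
        exact WithBot.coe_lt_coe.2 (by omega : m - 1 < m)
    · intro l hl
      have hl' := mem_range.1 hl
      simp only [eval_sub, eval_finsetSum, eval_mul, eval_C]
      rw [Finset.sum_eq_single l (fun k _ hk => by rw [QK_eval_other hl' hk.symm, mul_zero])
        (fun h => absurd hl h)]
      have h1 : (QQ m).eval (l : ℝ) = 0 := by
        rw [← QK_mul hl', eval_mul]
        simp
      rw [h1, ck, div_mul_cancel₀ _ QK_eval_ne]
      ring
  rw [sub_sub, sub_eq_zero] at h0
  exact h0

/-- partial fractions -/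
theorem pf (a m : ℕ) (x : ℝ) (hx : ∀ k < m, x ≠ (k : ℝ)) :
    ∑ k ∈ range m, ck a m k / (x - k) = (PP a m).eval x / (QQ m).eval x - 1 := by
  have hq : (QQ m).eval x ≠ 0 := by
    unfold QQ
    rw [eval_prod]
    refine Finset.prod_ne_zero_iff.2 fun i hi => ?_
    simp only [eval_sub, eval_X, eval_C, ne_eq, sub_eq_zero]
    exact hx i (mem_range.1 hi)
  have h1 := congrArg (eval x) (lagr a m)
  rw [eval_add, eval_finsetSum] at h1
  rw [h1, add_div, div_self hq, add_sub_cancel_left, Finset.sum_div]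
  refine Finset.sum_congr rfl fun k hk => ?_
  have hk' := mem_range.1 hk
  have h2 : (x - k) * (QK m k).eval x = (QQ m).eval x := by
    rw [← QK_mul hk', eval_mul]
    simp
  have h3 : x - (k : ℝ) ≠ 0 := sub_ne_zero.2 (hx k hk')
  rw [eval_mul, eval_C, ← h2]
  have h4 : (QK m k).eval x ≠ 0 := by
    intro h
    rw [h, mul_zero] at h2
    exact hq h2.symm
  field_simp

/-- the moments of the kernel -/
noncomputable def mu (a m i : ℕ) : ℝ := ∑ k ∈ range m, ck a m k / ((k : ℝ) + i + a + 1)

lemma mu_eq (a m i : ℕ) : mu a m i =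
    1 - (PP a m).eval (-((a : ℝ) + 1 + i)) / (QQ m).eval (-((a : ℝ) + 1 + i)) := by
  have h := pf a m (-((a : ℝ) + 1 + i)) (fun k _ h => by
    have h1 : (0 : ℝ) ≤ k := Nat.cast_nonneg k
    have h2 : (0 : ℝ) ≤ a := Nat.cast_nonneg a
    have h3 : (0 : ℝ) ≤ i := Nat.cast_nonneg i
    linarith)
  have h2 : mu a m i = -∑ k ∈ range m, ck a m k / (-((a : ℝ) + 1 + i) - k) := by
    unfold mu
    rw [← Finset.sum_neg_distrib]
    refine Finset.sum_congr rfl fun k _ => ?_
    rw [← div_neg]
    congr 1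
    ring
  rw [h2, h]
  ring

/-- the reproducing property -/
theorem mu_one {a m i : ℕ} (hi : i < m) : mu a m i = 1 := by
  rw [mu_eq]
  have : (PP a m).eval (-((a : ℝ) + 1 + i)) = 0 := by
    unfold PP
    rw [eval_prod]
    refine Finset.prod_eq_zero (i := i) (mem_range.2 hi) ?_
    simp
  rw [this, zero_div, sub_zero]

theorem sum_ck (a : ℕ) {m : ℕ} (hm : 1 ≤ m) : ∑ k ∈ range m, ck a m k = m * ((m : ℝ) + a) := by
  have h := congrArg (fun p : ℝ[X] => p.coeff (m - 1)) (lagr a m)
  simp only [coeff_add, finsetSum_coeff, coeff_C_mul] at h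
  have h1 : (PP a m).coeff (m - 1) = -∑ i ∈ range m, (-((a : ℝ) + 1 + i)) := by
    have := prod_X_sub_C_coeff_card_pred (range m) (fun i : ℕ => (-((a : ℝ) + 1 + i)))
      (by rw [card_range]; omega)
    rw [card_range] at this
    exact this
  have h2 : (QQ m).coeff (m - 1) = -∑ i ∈ range m, ((i : ℕ) : ℝ) := by
    have := prod_X_sub_C_coeff_card_pred (range m) (fun i : ℕ => ((i : ℕ) : ℝ))
      (by rw [card_range]; omega)
    rw [card_range] at this
    exact this
  have h3 : ∑ k ∈ range m, ck a m k * (QK m k).coeff (m - 1) = ∑ k ∈ range m, ck a m k := by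
    refine Finset.sum_congr rfl fun k hk => ?_
    have h4 := (monic_QK m k).coeff_natDegree
    rw [natDegree_QK (mem_range.1 hk)] at h4
    rw [h4, mul_one]
  rw [h1, h2, h3] at h
  have h5 : ∑ i ∈ range m, ((i : ℕ) : ℝ) = m * ((m : ℝ) - 1) / 2 := by
    clear h h1 h2 h3
    induction m with
    | zero => simp
    | succ n ih =>
      rcases Nat.eq_zero_or_pos n with h0 | h0
      · subst h0; simp
      · rw [Finset.sum_range_succ, ih h0]; push_cast; ring
  have h6 : ∑ i ∈ range m, (-((a : ℝ) + 1 + i)) = -(m * ((a : ℝ) + 1) + ∑ i ∈ range m, ((i : ℕ) : ℝ)) := by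
    rw [Finset.sum_neg_distrib, Finset.sum_add_distrib, Finset.sum_const, card_range, nsmul_eq_mul]
  rw [h6, h5] at h
  linarith

end Pool.Agent.Run7.h695.BT
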