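import Pool.Agent.Run7.h695.BT.Ker

/-!
# The second difference of the moments (helper695)
-/

set_option autoImplicit false

open Polynomial Finset

namespace Pool.Agent.Run7.h695.BT

lemma prod1 {x : ℝ} (hx : 0 < x) (m : ℕ) :
    ∏ i ∈ range m, ((x + i) / (x + 1 + i)) = x / (x + m) := by
  induction m with
  | zero => simp [div_self hx.ne']
  | succ n ih =>
    have h0 : (0 : ℝ) ≤ n := Nat.cast_nonneg n
    rw [Finset.prod_range_succ, ih]
    push_cast
    field_simp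
    ring

lemma prod2 {x : ℝ} (hx : 0 < x) (m : ℕ) :
    ∏ i ∈ range m, ((x + i) / (x + 2 + i)) = x * (x + 1) / ((x + m) * (x + m + 1)) := by
  induction m with
  | zero => simp; field_simp
  | succ n ih =>
    have h0 : (0 : ℝ) ≤ n := Nat.cast_nonneg n
    rw [Finset.prod_range_succ, ih]
    push_cast
    field_simp
    ring

lemma mu_top (a m j : ℕ) : 1 - mu a m (m + j) =
    ∏ i ∈ range m, (((m : ℝ) + j - i) / ((a : ℝ) + 1 + m + j + i)) := by
  rw [mu_eq, PP, QQ, eval_prod, eval_prod, ← Finset.prod_div_distrib, sub_sub_cancel]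
  refine Finset.prod_congr rfl fun i _ => ?_
  simp only [eval_sub, eval_X, eval_C]
  push_cast
  rw [← neg_div_neg_eq]
  congr 1 <;> ring

lemma fac1 (n : ℕ) : ∏ i ∈ range (n + 1), ((n : ℝ) + 1 - i) = (n + 1) * ∏ i ∈ range n, ((n : ℝ) - i) := by
  rw [Finset.prod_range_succ']
  push_cast
  rw [mul_comm]
  congr 1
  · ring
  · refine Finset.prod_congr rfl fun i _ => ?_
    ring

lemma facpos (n : ℕ) : 0 < ∏ i ∈ range n, ((n : ℝ) - i) := by
  refine Finset.prod_pos fun i hi => ?_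
  have : (i : ℝ) < n := by exact_mod_cast mem_range.1 hi
  linarith

lemma ck_top (a n : ℕ) : ck a (n + 1) n =
    (∏ i ∈ range (n + 1), ((n : ℝ) + a + 1 + i)) / ∏ i ∈ range n, ((n : ℝ) - i) := by
  unfold ck PP QK
  rw [eval_prod, eval_prod]
  congr 1
  · refine Finset.prod_congr rfl fun i _ => ?_
    simp only [eval_sub, eval_X, eval_C]
    ring
  · have : (range (n + 1)).erase n = range n := by
      ext x; simp; omega
    rw [this]
    refine Finset.prod_congr rfl fun i _ => ?_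
    simp only [eval_sub, eval_X, eval_C]

lemma ck_top2 (a n : ℕ) : ck a (n + 2) n =
    -((∏ i ∈ range (n + 2), ((n : ℝ) + a + 1 + i)) / ∏ i ∈ range n, ((n : ℝ) - i)) := by
  unfold ck PP QK
  rw [eval_prod, eval_prod]
  have h1 : (range (n + 2)).erase n = insert (n + 1) (range n) := by
    ext x; simp; omega
  rw [h1, Finset.prod_insert (by simp)]
  have h2 : eval (n : ℝ) (X - C (((n + 1 : ℕ)) : ℝ)) = -1 := by
    simp only [eval_sub, eval_X, eval_C]
    push_cast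
    ring
  rw [h2, neg_one_mul, div_neg]
  congr 2
  · refine Finset.prod_congr rfl fun i _ => ?_
    simp only [eval_sub, eval_X, eval_C]
    ring
  · refine Finset.prod_congr rfl fun i _ => ?_
    simp only [eval_sub, eval_X, eval_C]

lemma t1 (a n : ℕ) : ck a (n + 1) n * (1 - mu a (n + 1) (n + 1)) =
    (n + 1) * (((n : ℝ) + a + 1) / (((n : ℝ) + a + 1) + (n + 1))) := by
  have h := mu_top a (n + 1) 0
  rw [add_zero] at h
  have hp := facpos n
  have hx : (0 : ℝ) < (n : ℝ) + a + 1 := by positivity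
  have e1 : (∏ i ∈ range (n + 1), ((((n + 1 : ℕ)) : ℝ) + ((0 : ℕ) : ℝ) - i) /
      ((a : ℝ) + 1 + ((n + 1 : ℕ) : ℝ) + ((0 : ℕ) : ℝ) + i)) =
      (∏ i ∈ range (n + 1), ((n : ℝ) + 1 - i)) / ∏ i ∈ range (n + 1), (((n : ℝ) + a + 1) + 1 + i) := by
    rw [← Finset.prod_div_distrib]
    refine Finset.prod_congr rfl fun i _ => ?_
    push_cast
    congr 1 <;> ring
  have h1 := prod1 hx (n + 1)
  rw [Finset.prod_div_distrib] at h1
  have hq : ∏ i ∈ range (n + 1), (((n : ℝ) + a + 1) + 1 + i) ≠ 0 :=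
    (Finset.prod_pos fun i _ => by positivity).ne'
  rw [h, e1, ck_top, fac1]
  push_cast at h1
  rw [div_eq_iff hq] at h1
  rw [h1]
  field_simp

lemma t2 (a n : ℕ) : ck a (n + 1) n * (1 - mu a (n + 1) (n + 2)) =
    (n + 1) * (n + 2) * ((((n : ℝ) + a + 1) * ((n : ℝ) + a + 1 + 1)) /
      ((((n : ℝ) + a + 1) + (n + 1)) * (((n : ℝ) + a + 1) + (n + 1) + 1))) := by
  have h := mu_top a (n + 1) 1
  have hp := facpos n
  have hx : (0 : ℝ) < (n : ℝ) + a + 1 := by positivity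
  have e1 : (∏ i ∈ range (n + 1), ((((n + 1 : ℕ)) : ℝ) + ((1 : ℕ) : ℝ) - i) /
      ((a : ℝ) + 1 + ((n + 1 : ℕ) : ℝ) + ((1 : ℕ) : ℝ) + i)) =
      (∏ i ∈ range (n + 1), ((n : ℝ) + 2 - i)) / ∏ i ∈ range (n + 1), (((n : ℝ) + a + 1) + 2 + i) := by
    rw [← Finset.prod_div_distrib]
    refine Finset.prod_congr rfl fun i _ => ?_
    push_cast
    congr 1 <;> ring
  have e2 : ∏ i ∈ range (n + 1), ((n : ℝ) + 2 - i) = (n + 2) * ((n + 1) * ∏ i ∈ range n, ((n : ℝ) - i)) := by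
    have e3 := fac1 (n + 1)
    rw [Finset.prod_range_succ] at e3
    push_cast at e3
    have e4 : ∏ i ∈ range (n + 1), ((n : ℝ) + 2 - i) = ∏ i ∈ range (n + 1), ((n : ℝ) + 1 + 1 - i) :=
      Finset.prod_congr rfl fun i _ => by ring
    rw [e4, ← fac1 n]
    have e5 : ((n : ℝ) + 1 + 1 - (n + 1)) = 1 := by ring
    rw [e5, mul_one] at e3
    rw [e3]
    ring
  have h1 := prod2 hx (n + 1)
  rw [Finset.prod_div_distrib] at h1
  have hq : ∏ i ∈ range (n + 1), (((n : ℝ) + a + 1) + 2 + i) ≠ 0 :=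
    (Finset.prod_pos fun i _ => by positivity).ne'
  rw [show n + 2 = n + 1 + 1 by ring, h, e1, ck_top, e2]
  push_cast at h1
  rw [div_eq_iff hq] at h1
  rw [h1]
  field_simp

lemma t3 (a n : ℕ) : -(ck a (n + 2) n * (1 - mu a (n + 2) (n + 2))) =
    (n + 1) * (n + 2) * ((((n : ℝ) + a + 1) * ((n : ℝ) + a + 1 + 1)) /
      ((((n : ℝ) + a + 1) + (n + 2)) * (((n : ℝ) + a + 1) + (n + 2) + 1))) := by
  have h := mu_top a (n + 2) 0
  rw [add_zero] at h
  have hp := facpos n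
  have hx : (0 : ℝ) < (n : ℝ) + a + 1 := by positivity
  have e1 : (∏ i ∈ range (n + 2), ((((n + 2 : ℕ)) : ℝ) + ((0 : ℕ) : ℝ) - i) /
      ((a : ℝ) + 1 + ((n + 2 : ℕ) : ℝ) + ((0 : ℕ) : ℝ) + i)) =
      (∏ i ∈ range (n + 2), ((n : ℝ) + 2 - i)) / ∏ i ∈ range (n + 2), (((n : ℝ) + a + 1) + 2 + i) := by
    rw [← Finset.prod_div_distrib]
    refine Finset.prod_congr rfl fun i _ => ?_
    push_cast
    congr 1 <;> ring
  have e2 : ∏ i ∈ range (n + 2), ((n : ℝ) + 2 - i) = (n + 2) * ((n + 1) * ∏ i ∈ range n, ((n : ℝ) - i)) := by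
    have e3 := fac1 (n + 1)
    push_cast at e3
    have e4 : ∏ i ∈ range (n + 2), ((n : ℝ) + 2 - i) = ∏ i ∈ range (n + 1 + 1), ((n : ℝ) + 1 + 1 - i) :=
      Finset.prod_congr rfl fun i _ => by ring
    rw [e4, e3, ← fac1 n]
    ring
  have h1 := prod2 hx (n + 2)
  rw [Finset.prod_div_distrib] at h1
  have hq : ∏ i ∈ range (n + 2), (((n : ℝ) + a + 1) + 2 + i) ≠ 0 :=
    (Finset.prod_pos fun i _ => by positivity).ne'
  rw [h, e1, ck_top2, e2]
  push_cast at h1
  rw [div_eq_iff hq] at h1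
  rw [h1]
  field_simp

/-- the second difference of the moments -/
noncomputable def J2 (a m : ℕ) : ℝ :=
  ∑ i ∈ range m, ck a m i * (mu a m i - 2 * mu a m (i + 1) + mu a m (i + 2))

theorem J2_eq (a : ℕ) {m : ℕ} (hm : 1 ≤ m) : J2 a m =
    2 * (m : ℝ) ^ 2 * ((m : ℝ) + a) ^ 2 / ((2 * m + a) * ((2 * m + a) ^ 2 - 1)) := by
  obtain ⟨n, rfl⟩ : ∃ n, m = n + 1 := ⟨m - 1, by omega⟩
  unfold J2
  rw [Finset.sum_range_succ]
  have hl : ck a (n + 1) n * (mu a (n + 1) n - 2 * mu a (n + 1) (n + 1) + mu a (n + 1) (n + 2)) =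
      2 * (ck a (n + 1) n * (1 - mu a (n + 1) (n + 1))) -
        ck a (n + 1) n * (1 - mu a (n + 1) (n + 2)) := by
    rw [mu_one (show n < n + 1 by omega)]
    ring
  rw [hl, t1, t2]
  rcases Nat.eq_zero_or_pos n with h0 | h0
  · subst h0
    have ha : (0 : ℝ) ≤ a := Nat.cast_nonneg a
    have h1 : ((2 : ℝ) * 1 + a) ^ 2 - 1 = (a + 1) * (a + 3) := by ring
    simp only [Finset.range_zero, Finset.sum_empty, Nat.cast_zero, zero_add, Nat.cast_one, h1]
    field_simp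
    ring
  · obtain ⟨l, rfl⟩ : ∃ l, n = l + 1 := ⟨n - 1, by omega⟩
    have h2 : ∑ i ∈ range (l + 1), ck a (l + 1 + 1) i * (mu a (l + 1 + 1) i - 2 * mu a (l + 1 + 1) (i + 1) +
        mu a (l + 1 + 1) (i + 2)) = -(ck a (l + 2) l * (1 - mu a (l + 2) (l + 2))) := by
      rw [Finset.sum_range_succ, Finset.sum_eq_zero]
      · rw [mu_one (show l < l + 1 + 1 by omega), mu_one (show l + 1 < l + 1 + 1 by omega)]
        ring
      · intro i hi
        have hi' := mem_range.1 hi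
        rw [mu_one (show i < l + 1 + 1 by omega), mu_one (show i + 1 < l + 1 + 1 by omega),
          mu_one (show i + 2 < l + 1 + 1 by omega)]
        ring
    rw [h2, t3]
    have ha : (0 : ℝ) ≤ a := Nat.cast_nonneg a
    have hl0 : (0 : ℝ) ≤ l := Nat.cast_nonneg l
    push_cast
    have h1 : (2 * ((l : ℝ) + 1 + 1) + a) ^ 2 - 1 = (2 * l + 3 + a) * (2 * l + 5 + a) := by ring
    rw [h1]
    field_simp
    ring

end Pool.Agent.Run7.h695.BT
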