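import Pool.Agent.Run7.h695.BT.Ker2

/-!
# The `L ^ 1` norm of the kernel (helper695)
-/

set_option autoImplicit false

open Finset MeasureTheory

namespace Pool.Agent.Run7.h695.BT

/-- the kernel in the variable `v = √u` -/
noncomputable def ka (a m : ℕ) (v : ℝ) : ℝ := ∑ k ∈ range m, 2 * ck a m k * v ^ (2 * k + a + 1)

/-- `v ^ a K(v ^ 2)` -/
noncomputable def kb (a m : ℕ) (v : ℝ) : ℝ := ∑ k ∈ range m, ck a m k * v ^ (2 * k + a)

lemma ka_eq (a m : ℕ) (v : ℝ) : ka a m v = 2 * v * kb a m v := by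
  unfold ka kb
  rw [Finset.mul_sum]
  refine Finset.sum_congr rfl fun k _ => ?_
  rw [pow_succ]
  ring

lemma ka_cont (a m : ℕ) : Continuous (ka a m) := by
  unfold ka
  fun_prop

lemma kb_cont (a m : ℕ) : Continuous (kb a m) := by
  unfold kb
  fun_prop

lemma int_odd (n : ℕ) : ∫ v in (0:ℝ)..1, 2 * v ^ (2 * n + 1) = 1 / ((n : ℝ) + 1) := by
  rw [intervalIntegral.integral_const_mul, integral_pow]
  push_cast
  have : (0 : ℝ) < (n : ℝ) + 1 := by positivity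
  simp
  field_simp
  ring

lemma int_w (n : ℕ) (e : ℝ) :
    ∫ v in (0:ℝ)..1, (2 * v ^ (2 * n + 1) + e * (2 * v ^ (2 * n + 1) - 2 * (2 * v ^ (2 * (n + 1) + 1))
      + 2 * v ^ (2 * (n + 2) + 1))) =
    1 / ((n : ℝ) + 1) + e * (1 / ((n : ℝ) + 1) - 2 * (1 / ((n : ℝ) + 2)) + 1 / ((n : ℝ) + 3)) := by
  have c : ∀ j : ℕ, IntervalIntegrable (fun v : ℝ => 2 * v ^ j) volume 0 1 := fun j =>
    (by fun_prop : Continuous fun v : ℝ => 2 * v ^ j).intervalIntegrable _ _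
  have h1 : ∫ v in (0:ℝ)..1, (2 * v ^ (2 * n + 1) - 2 * (2 * v ^ (2 * (n + 1) + 1))
      + 2 * v ^ (2 * (n + 2) + 1)) = 1 / ((n : ℝ) + 1) - 2 * (1 / ((n : ℝ) + 2)) + 1 / ((n : ℝ) + 3) := by
    have h2 : ∫ v in (0:ℝ)..1, 2 * (2 * v ^ (2 * (n + 1) + 1)) = 2 * (1 / (((n + 1 : ℕ) : ℝ) + 1)) := by
      rw [← int_odd]
      exact intervalIntegral.integral_const_mul _ _
    rw [intervalIntegral.integral_add ((c _).sub ((c _).const_mul 2)) (c _),
      intervalIntegral.integral_sub (c _) ((c _).const_mul 2), h2, int_odd, int_odd]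
    push_cast
    ring
  have h3 : ∫ v in (0:ℝ)..1, e * (2 * v ^ (2 * n + 1) - 2 * (2 * v ^ (2 * (n + 1) + 1))
      + 2 * v ^ (2 * (n + 2) + 1)) = e * (1 / ((n : ℝ) + 1) - 2 * (1 / ((n : ℝ) + 2)) + 1 / ((n : ℝ) + 3)) := by
    rw [← h1]
    exact intervalIntegral.integral_const_mul _ _
  rw [intervalIntegral.integral_add (c _) (((c _).sub ((c _).const_mul 2)).add (c _) |>.const_mul e),
    int_odd, h3]

/-- the weighted square integral of the kernel -/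
lemma int_sq (a m : ℕ) (hm : 1 ≤ m) (e : ℝ) :
    ∫ v in (0:ℝ)..1, 2 * v * (kb a m v) ^ 2 * (1 + e * (1 - v ^ 2) ^ 2) =
      m * ((m : ℝ) + a) + e * J2 a m := by
  have h1 : ∀ v : ℝ, 2 * v * (kb a m v) ^ 2 * (1 + e * (1 - v ^ 2) ^ 2) =
      ∑ i ∈ range m, ∑ k ∈ range m, (ck a m i * ck a m k) *
        (2 * v ^ (2 * (i + k + a) + 1) + e * (2 * v ^ (2 * (i + k + a) + 1) -
          2 * (2 * v ^ (2 * (i + k + a + 1) + 1)) + 2 * v ^ (2 * (i + k + a + 2) + 1))) := by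
    intro v
    have h2 : (kb a m v) ^ 2 = ∑ i ∈ range m, ∑ k ∈ range m,
        (ck a m i * v ^ (2 * i + a)) * (ck a m k * v ^ (2 * k + a)) := by
      rw [sq, kb, Finset.sum_mul_sum]
    rw [h2, mul_assoc, Finset.sum_mul, Finset.mul_sum]
    refine Finset.sum_congr rfl fun i _ => ?_
    rw [Finset.sum_mul, Finset.mul_sum]
    refine Finset.sum_congr rfl fun k _ => ?_
    have e1 : v ^ (2 * (i + k + a) + 1) = v * v ^ (2 * i + a) * v ^ (2 * k + a) := by ring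
    have e2 : v ^ (2 * (i + k + a + 1) + 1) = v ^ 2 * (v * v ^ (2 * i + a) * v ^ (2 * k + a)) := by ring
    have e3 : v ^ (2 * (i + k + a + 2) + 1) = v ^ 4 * (v * v ^ (2 * i + a) * v ^ (2 * k + a)) := by ring
    rw [e1, e2, e3]
    ring
  have hc : ∀ i k : ℕ, Continuous fun v : ℝ => (ck a m i * ck a m k) *
        (2 * v ^ (2 * (i + k + a) + 1) + e * (2 * v ^ (2 * (i + k + a) + 1) -
          2 * (2 * v ^ (2 * (i + k + a + 1) + 1)) + 2 * v ^ (2 * (i + k + a + 2) + 1))) := by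
    intro i k
    fun_prop
  simp only [h1]
  rw [intervalIntegral.integral_finsetSum (fun i _ =>
    (continuous_finsetSum _ fun k _ => hc i k).intervalIntegrable _ _)]
  have h3 : ∀ i ∈ range m, ∫ v in (0:ℝ)..1, ∑ k ∈ range m, (ck a m i * ck a m k) *
        (2 * v ^ (2 * (i + k + a) + 1) + e * (2 * v ^ (2 * (i + k + a) + 1) -
          2 * (2 * v ^ (2 * (i + k + a + 1) + 1)) + 2 * v ^ (2 * (i + k + a + 2) + 1))) =
      ck a m i * mu a m i + e * (ck a m i * (mu a m i - 2 * mu a m (i + 1) + mu a m (i + 2))) := by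
    intro i _
    rw [intervalIntegral.integral_finsetSum (fun k _ => (hc i k).intervalIntegrable _ _)]
    simp only [intervalIntegral.integral_const_mul, int_w]
    unfold mu
    simp only [Finset.mul_sum, ← Finset.sum_add_distrib, ← Finset.sum_sub_distrib]
    refine Finset.sum_congr rfl fun k _ => ?_
    push_cast
    have e1 : (k : ℝ) + i + a + 1 = i + k + a + 1 := by ring
    have e2 : (k : ℝ) + (i + 1) + a + 1 = i + k + a + 2 := by ring
    have e3 : (k : ℝ) + (i + 2) + a + 1 = i + k + a + 3 := by ring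
    rw [e1, e2, e3]
    ring
  rw [Finset.sum_congr rfl h3, Finset.sum_add_distrib, ← Finset.mul_sum, ← sum_ck a hm]
  unfold J2
  congr 1
  refine Finset.sum_congr rfl fun i hi => ?_
  rw [mu_one (mem_range.1 hi), mul_one]

/-- the integral of the inverse weight -/
lemma int_inv {δ : ℝ} (hδ : 0 < δ) :
    ∫ v in (0:ℝ)..1, 2 * v * (1 + (δ ^ 2)⁻¹ * (1 - v ^ 2) ^ 2)⁻¹ ≤ Real.pi / 2 * δ := by
  have h1 : ∀ v : ℝ, HasDerivAt (fun v : ℝ => -(δ * Real.arctan ((1 - v ^ 2) / δ)))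
      (2 * v * (1 + (δ ^ 2)⁻¹ * (1 - v ^ 2) ^ 2)⁻¹) v := by
    intro v
    have h2 : HasDerivAt (fun v : ℝ => (1 - v ^ 2) / δ) (-(2 * v) / δ) v := by
      refine (((hasDerivAt_pow 2 v).const_sub 1).div_const δ).congr_deriv ?_
      norm_num
    have h3 := ((h2.arctan).const_mul δ).neg
    refine HasDerivAt.congr_deriv h3 ?_
    have h4 : 0 < 1 + ((1 - v ^ 2) / δ) ^ 2 := by positivity
    have h5 : (1 : ℝ) + (δ ^ 2)⁻¹ * (1 - v ^ 2) ^ 2 = 1 + ((1 - v ^ 2) / δ) ^ 2 := by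
      rw [div_pow]; ring
    rw [h5]
    field_simp
  rw [intervalIntegral.integral_eq_sub_of_hasDerivAt (fun v _ => h1 v)]
  · have h2 := Real.arctan_lt_pi_div_two ((1 - (0:ℝ) ^ 2) / δ)
    simp only [one_pow, sub_self, zero_div, Real.arctan_zero, mul_zero, neg_zero, zero_sub, neg_neg]
    nlinarith
  · apply Continuous.intervalIntegrable
    refine Continuous.mul (by fun_prop) (Continuous.inv₀ (by fun_prop) fun v => ?_)
    positivity

/-- the bound -/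
theorem ka_bound (a m : ℕ) (hm : 1 ≤ m) :
    (∫ v in (0:ℝ)..1, |ka a m v|) ≤ √(Real.pi * √2) * (m : ℝ) ^ (3 / 4 : ℝ) := by
  have hm1 : (1 : ℝ) ≤ m := by exact_mod_cast hm
  have hm0 : (0 : ℝ) < m := by linarith
  have ha : (0 : ℝ) ≤ a := Nat.cast_nonneg a
  set m' : ℝ := (m : ℝ) + a with hm'
  have hm'0 : 0 < m' := by positivity
  obtain ⟨s, hs0, hs⟩ : ∃ s : ℝ, 0 < s ∧ s ^ 2 = 2 * m := ⟨√(2 * m), by positivity, Real.sq_sqrt (by positivity)⟩
  set δ : ℝ := s / m' with hδ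
  have hδ0 : 0 < δ := by positivity
  obtain ⟨l, hl0, hl⟩ : ∃ l : ℝ, 0 < l ∧ l ^ 2 = Real.pi * δ / (4 * (m * m')) :=
    ⟨√(Real.pi * δ / (4 * (m * m'))), by positivity, Real.sq_sqrt (by positivity)⟩
  -- pointwise inequality
  have hp : ∀ v ∈ Set.Icc (0:ℝ) 1, |ka a m v| ≤ l / 2 * (2 * v * (kb a m v) ^ 2 *
      (1 + (δ ^ 2)⁻¹ * (1 - v ^ 2) ^ 2)) + 1 / (2 * l) * (2 * v * (1 + (δ ^ 2)⁻¹ * (1 - v ^ 2) ^ 2)⁻¹) := by
    intro v hv
    set W : ℝ := 1 + (δ ^ 2)⁻¹ * (1 - v ^ 2) ^ 2 with hW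
    have hW0 : 0 < W := by positivity
    rw [ka_eq, abs_mul, abs_of_nonneg (by linarith [hv.1] : (0:ℝ) ≤ 2 * v)]
    have h1 : |kb a m v| ≤ l / 2 * ((kb a m v) ^ 2 * W) + 1 / (2 * l) * W⁻¹ := by
      rw [← sq_abs (kb a m v)]
      set x := |kb a m v| with hx
      have h2 : 0 ≤ (l * W * x - 1) ^ 2 / (2 * l * W) := by positivity
      have h3 : (l * W * x - 1) ^ 2 / (2 * l * W) = l / 2 * (x ^ 2 * W) + 1 / (2 * l) * W⁻¹ - x := by
        field_simp
        ring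
      linarith
    calc 2 * v * |kb a m v| ≤ 2 * v * (l / 2 * ((kb a m v) ^ 2 * W) + 1 / (2 * l) * W⁻¹) :=
          mul_le_mul_of_nonneg_left h1 (by linarith [hv.1])
      _ = _ := by ring
  have hcW : Continuous fun v : ℝ => (1 : ℝ) + (δ ^ 2)⁻¹ * (1 - v ^ 2) ^ 2 := by fun_prop
  have c1 : IntervalIntegrable (fun v : ℝ => 2 * v * (kb a m v) ^ 2 *
      (1 + (δ ^ 2)⁻¹ * (1 - v ^ 2) ^ 2)) volume 0 1 :=
    ((Continuous.mul (by fun_prop) ((kb_cont a m).pow 2)).mul hcW).intervalIntegrable _ _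
  have c2 : IntervalIntegrable (fun v : ℝ => 2 * v * (1 + (δ ^ 2)⁻¹ * (1 - v ^ 2) ^ 2)⁻¹) volume 0 1 :=
    (Continuous.mul (by fun_prop) (hcW.inv₀ fun v => by positivity)).intervalIntegrable _ _
  have h1 : ∫ v in (0:ℝ)..1, |ka a m v| ≤ ∫ v in (0:ℝ)..1, (l / 2 * (2 * v * (kb a m v) ^ 2 *
      (1 + (δ ^ 2)⁻¹ * (1 - v ^ 2) ^ 2)) + 1 / (2 * l) * (2 * v * (1 + (δ ^ 2)⁻¹ * (1 - v ^ 2) ^ 2)⁻¹)) :=
    intervalIntegral.integral_mono_on zero_le_one ((ka_cont a m).abs.intervalIntegrable _ _)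
      ((c1.const_mul _).add (c2.const_mul _)) hp
  rw [intervalIntegral.integral_add (c1.const_mul _) (c2.const_mul _),
    intervalIntegral.integral_const_mul, intervalIntegral.integral_const_mul, int_sq a m hm] at h1
  have h2 := int_inv hδ0
  have h3 : (δ ^ 2)⁻¹ * J2 a m ≤ m * m' := by
    rw [J2_eq a hm, hδ, div_pow, hs, ← hm']
    have e : (2 * (m : ℝ) + a) = m + m' := by rw [hm']; ring
    rw [e]
    have h4 : 0 < ((m : ℝ) + m') ^ 2 - 1 := by nlinarith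
    have h5 : m' ^ 3 ≤ (m + m') * ((m + m') ^ 2 - 1) := by nlinarith [mul_pos hm0 hm'0, sq_nonneg m', mul_pos hm'0 hm'0]
    rw [inv_div, div_mul_div_comm, div_le_iff₀ (by positivity)]
    have h6 : m' ^ 2 * (2 * (m : ℝ) ^ 2 * m' ^ 2) = (2 * m * (m * m')) * m' ^ 3 := by ring
    rw [h6]
    calc (2 * m * (m * m')) * m' ^ 3 ≤ (2 * m * (m * m')) * ((m + m') * ((m + m') ^ 2 - 1)) :=
          mul_le_mul_of_nonneg_left h5 (by positivity)
      _ = _ := by ring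
  have h4 : ∫ v in (0:ℝ)..1, |ka a m v| ≤ 2 * l * (m * m') := by
    have h5 : l / 2 * (m * m' + (δ ^ 2)⁻¹ * J2 a m) ≤ l / 2 * (m * m' + m * m') :=
      mul_le_mul_of_nonneg_left (by linarith) (by positivity)
    have h6 : 1 / (2 * l) * (∫ v in (0:ℝ)..1, 2 * v * (1 + (δ ^ 2)⁻¹ * (1 - v ^ 2) ^ 2)⁻¹) ≤
        1 / (2 * l) * (Real.pi / 2 * δ) := mul_le_mul_of_nonneg_left h2 (by positivity)
    have h7 : 1 / (2 * l) * (Real.pi / 2 * δ) = l * (m * m') := by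
      have h8 : Real.pi * δ = l ^ 2 * (4 * (m * m')) := by
        rw [hl]; field_simp
      have h9 : Real.pi / 2 * δ = l ^ 2 * (4 * (m * m')) / 2 := by rw [← h8]; ring
      rw [h9]
      field_simp
      ring
    have h8 : l / 2 * (m * m' + m * m') = l * (m * m') := by ring
    linarith
  refine h4.trans ?_
  have h5 : (2 * l * (m * m')) = √((2 * l * (m * m')) ^ 2) := (Real.sqrt_sq (by positivity)).symm
  have h6 : (2 * l * (m * m')) ^ 2 = Real.pi * √2 * ((m : ℝ) ^ (3 / 4 : ℝ)) ^ 2 := by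
    have e1 : (2 * l * (m * m')) ^ 2 = Real.pi * (s * m) := by
      calc (2 * l * (m * m')) ^ 2 = l ^ 2 * (4 * (m * m') ^ 2) := by ring
        _ = Real.pi * δ * (m * m') := by rw [hl]; field_simp; 
        _ = Real.pi * (s * m) := by rw [hδ]; field_simp
    have e2 : s = √2 * √m := by
      rw [← Real.sqrt_mul (by norm_num), ← hs, Real.sqrt_sq hs0.le]
    have e3 : ((m : ℝ) ^ (3 / 4 : ℝ)) ^ 2 = √m * m := by
      rw [← Real.rpow_natCast, ← Real.rpow_mul hm0.le, Real.sqrt_eq_rpow,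
        show ((3 / 4 : ℝ) * ((2 : ℕ) : ℝ)) = 1 / 2 + 1 by norm_num, Real.rpow_add hm0, Real.rpow_one]
    rw [e1, e2, e3]
    ring
  rw [h5, h6, Real.sqrt_mul (by positivity), Real.sqrt_sq (by positivity)]

end Pool.Agent.Run7.h695.BT
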