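import Pool.Agent.Run7.h695.BT.Ker4

/-!
# Negative moments of the kernel (helper695)
-/

set_option autoImplicit false

open Polynomial Finset MeasureTheory

namespace Pool.Agent.Run7.h695.BT

/-- the defect of the moment of order `t` -/
noncomputable def Ed (a m : ℕ) (t : ℝ) : ℝ := 1 - ∑ k ∈ range m, ck a m k / ((k : ℝ) + t)

lemma Ed_eq (a m : ℕ) {t : ℝ} (ht : 0 < t) : Ed a m t = (PP a m).eval (-t) / (QQ m).eval (-t) := by
  have h := pf a m (-t) (fun k _ h => by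
    have h1 : (0 : ℝ) ≤ k := Nat.cast_nonneg k
    linarith)
  have h2 : ∑ k ∈ range m, ck a m k / ((k : ℝ) + t) = -∑ k ∈ range m, ck a m k / (-t - k) := by
    rw [← Finset.sum_neg_distrib]
    refine Finset.sum_congr rfl fun k _ => ?_
    rw [← div_neg]
    congr 1
    ring
  unfold Ed
  rw [h2, h]
  ring

lemma Ed_zero {a m i : ℕ} (hi : i < m) : Ed a m ((i : ℝ) + a + 1) = 0 := by
  have h := mu_one (a := a) hi
  unfold Ed
  unfold mu at h
  have : ∑ k ∈ range m, ck a m k / ((k : ℝ) + ((i : ℝ) + a + 1)) =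
      ∑ k ∈ range m, ck a m k / ((k : ℝ) + i + a + 1) :=
    Finset.sum_congr rfl fun k _ => by rw [← add_assoc, ← add_assoc]
  rw [this, h, sub_self]

/-- the factorial -/
noncomputable def fa (n : ℕ) : ℝ := ∏ i ∈ range n, ((i : ℝ) + 1)

lemma fa_pos (n : ℕ) : 0 < fa n := Finset.prod_pos fun i _ => by positivity

lemma fa_two (n : ℕ) : ∏ i ∈ range n, ((i : ℝ) + 2) = (n + 1) * fa n := by
  unfold fa
  induction n with
  | zero => simp
  | succ n ih =>
    rw [Finset.prod_range_succ, Finset.prod_range_succ, ih]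
    push_cast
    ring

lemma fa_succ (n : ℕ) : fa (n + 1) = (n + 1) * fa n := by
  unfold fa
  rw [Finset.prod_range_succ]
  ring

lemma QQ_neg (m : ℕ) (t : ℝ) : (QQ m).eval (-t) = (-1) ^ m * ∏ i ∈ range m, (t + i) := by
  unfold QQ
  rw [eval_prod]
  have : ∀ i ∈ range m, eval (-t) (X - C ((i : ℕ) : ℝ)) = -(t + i) := by
    intro i _
    simp only [eval_sub, eval_X, eval_C]
    ring
  rw [Finset.prod_congr rfl this, Finset.prod_neg, card_range]

lemma PP_at (a m : ℕ) (x : ℝ) : (PP a m).eval x = ∏ i ∈ range m, (x + a + 1 + i) := by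
  unfold PP
  rw [eval_prod]
  refine Finset.prod_congr rfl fun i _ => ?_
  simp only [eval_sub, eval_X, eval_C]
  ring

lemma QK_zero (n : ℕ) : (QK (n + 1) 0).eval (((0 : ℕ) : ℝ)) = (-1) ^ n * fa n := by
  unfold QK fa
  rw [eval_prod]
  have h1 : (range (n + 1)).erase 0 = (range n).image (fun i => i + 1) := by
    ext x
    simp only [mem_erase, mem_range, mem_image]
    constructor
    · rintro ⟨h1, h2⟩
      exact ⟨x - 1, by omega, by omega⟩
    · rintro ⟨y, h1, h2⟩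
      omega
  rw [h1, Finset.prod_image (fun x _ y _ h => by simpa using h)]
  have : ∀ i ∈ range n, eval (((0 : ℕ) : ℝ)) (X - C (((i + 1 : ℕ)) : ℝ)) = -((i : ℝ) + 1) := by
    intro i _
    simp only [eval_sub, eval_X, eval_C]
    push_cast
    ring
  rw [Finset.prod_congr rfl this, Finset.prod_neg, card_range]

lemma QK_one (n : ℕ) : (QK (n + 2) 1).eval (((1 : ℕ) : ℝ)) = (-1) ^ n * fa n := by
  unfold QK fa
  rw [eval_prod]
  have h1 : (range (n + 2)).erase 1 = insert 0 ((range n).image (fun i => i + 2)) := by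
    ext x
    simp only [mem_erase, mem_range, mem_image, mem_insert]
    constructor
    · rintro ⟨h1, h2⟩
      rcases Nat.eq_zero_or_pos x with h | h
      · left; exact h
      · right; exact ⟨x - 2, by omega, by omega⟩
    · rintro (h | ⟨y, h1, h2⟩)
      · omega
      · omega
  rw [h1, Finset.prod_insert (by simp), Finset.prod_image (fun x _ y _ h => by simpa using h)]
  have : ∀ i ∈ range n, eval (((1 : ℕ) : ℝ)) (X - C (((i + 2 : ℕ)) : ℝ)) = -((i : ℝ) + 1) := by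
    intro i _
    simp only [eval_sub, eval_X, eval_C]
    push_cast
    ring
  rw [Finset.prod_congr rfl this, Finset.prod_neg, card_range]
  simp

lemma sgn (n : ℕ) : ((-1 : ℝ)) ^ n * (-1) ^ n = 1 := by
  rw [← mul_pow]
  norm_num

lemma prodpos {t : ℝ} (ht : 0 < t) (m : ℕ) : 0 < ∏ i ∈ range m, (t + (i : ℝ)) :=
  Finset.prod_pos fun i _ => by positivity

lemma u1 {a : ℕ} (ha : 1 ≤ a) (n : ℕ) : ck a (n + 1) 0 * Ed a (n + 1) a =
    -(((n : ℝ) + 1) * ((n : ℝ) + 1 + a) / a) := by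
  have ha0 : (0 : ℝ) < a := by exact_mod_cast ha
  have hn : (0 : ℝ) ≤ n := Nat.cast_nonneg n
  rw [Ed_eq a (n + 1) ha0, ck, QK_zero, QQ_neg, PP_at, PP_at]
  have e1 : ∏ i ∈ range (n + 1), (-(a : ℝ) + a + 1 + i) = (n + 1) * fa n := by
    rw [← fa_succ]
    exact Finset.prod_congr rfl fun i _ => by ring
  have e2 : ∏ i ∈ range (n + 1), (((0 : ℕ) : ℝ) + a + 1 + i) = ∏ i ∈ range (n + 1), ((a : ℝ) + 1 + i) :=
    Finset.prod_congr rfl fun i _ => by push_cast; ring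
  have h1 := prod1 ha0 (n + 1)
  rw [Finset.prod_div_distrib] at h1
  have hq := prodpos ha0 (n + 1)
  have hq2 : 0 < ∏ i ∈ range (n + 1), ((a : ℝ) + 1 + i) := prodpos (by positivity) (n + 1)
  rw [e1, e2]
  rw [div_eq_iff hq2.ne'] at h1
  rw [h1]
  have hf := fa_pos n
  have hs : ((-1 : ℝ)) ^ n ≠ 0 := pow_ne_zero _ (by norm_num)
  have hs2 := sgn n
  rw [pow_succ]
  push_cast
  field_simp
  have : (a : ℝ) + (n + 1) = n + 1 + a := by ring
  rw [sq, hs2]
  ring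

lemma u2 {b : ℕ} (n : ℕ) : ck (b + 2) (n + 1) 0 * Ed (b + 2) (n + 1) ((b : ℝ) + 1) =
    -(((n : ℝ) + 1) * (n + 2) * ((b : ℝ) + 2 + n) * ((b : ℝ) + 3 + n) / (((b : ℝ) + 1) * (b + 2))) := by
  have hb : (0 : ℝ) < (b : ℝ) + 1 := by positivity
  have hn : (0 : ℝ) ≤ n := Nat.cast_nonneg n
  rw [Ed_eq (b + 2) (n + 1) hb, ck, QK_zero, QQ_neg, PP_at, PP_at]
  have e1 : ∏ i ∈ range (n + 1), (-((b : ℝ) + 1) + ((b + 2 : ℕ) : ℝ) + 1 + i) = (n + 2) * ((n + 1) * fa n) := by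
    have h := fa_two (n + 1)
    rw [fa_succ] at h
    push_cast at h
    have e : (n : ℝ) + 1 + 1 = n + 2 := by ring
    rw [e] at h
    rw [← h]
    exact Finset.prod_congr rfl fun i _ => by push_cast; ring
  have e2 : ∏ i ∈ range (n + 1), (((0 : ℕ) : ℝ) + ((b + 2 : ℕ) : ℝ) + 1 + i) =
      ∏ i ∈ range (n + 1), (((b : ℝ) + 1) + 2 + i) :=
    Finset.prod_congr rfl fun i _ => by push_cast; ring
  have h1 := prod2 hb (n + 1)
  rw [Finset.prod_div_distrib] at h1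
  have hq := prodpos hb (n + 1)
  have hq2 : 0 < ∏ i ∈ range (n + 1), ((b : ℝ) + 1 + 2 + i) := prodpos (by positivity) (n + 1)
  rw [e1, e2]
  rw [div_eq_iff hq2.ne'] at h1
  rw [h1]
  have hf := fa_pos n
  have hs : ((-1 : ℝ)) ^ n ≠ 0 := pow_ne_zero _ (by norm_num)
  have hs2 := sgn n
  rw [pow_succ]
  push_cast
  field_simp
  rw [sq, hs2]
  ring

lemma u3 {a : ℕ} (ha : 1 ≤ a) (n : ℕ) : ck a (n + 2) 1 * Ed a (n + 2) a =
    ((n : ℝ) + 1) * (n + 2) * ((a : ℝ) + n + 2) * ((a : ℝ) + n + 3) / (a * (a + 1)) := by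
  have ha0 : (0 : ℝ) < a := by exact_mod_cast ha
  have hn : (0 : ℝ) ≤ n := Nat.cast_nonneg n
  rw [Ed_eq a (n + 2) ha0, ck, QK_one, QQ_neg, PP_at, PP_at]
  have e1 : ∏ i ∈ range (n + 2), (-(a : ℝ) + a + 1 + i) = (n + 2) * ((n + 1) * fa n) := by
    have h : fa (n + 2) = (n + 2) * ((n + 1) * fa n) := by
      rw [show n + 2 = (n + 1) + 1 by ring, fa_succ, fa_succ]
      push_cast
      ring
    rw [← h]
    exact Finset.prod_congr rfl fun i _ => by ring
  have e2 : ∏ i ∈ range (n + 2), (((1 : ℕ) : ℝ) + a + 1 + i) = ∏ i ∈ range (n + 2), ((a : ℝ) + 2 + i) :=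
    Finset.prod_congr rfl fun i _ => by push_cast; ring
  have h1 := prod2 ha0 (n + 2)
  rw [Finset.prod_div_distrib] at h1
  have hq := prodpos ha0 (n + 2)
  have hq2 : 0 < ∏ i ∈ range (n + 2), ((a : ℝ) + 2 + i) := prodpos (by positivity) (n + 2)
  rw [e1, e2]
  rw [div_eq_iff hq2.ne'] at h1
  rw [h1]
  have hf := fa_pos n
  have hs : ((-1 : ℝ)) ^ n ≠ 0 := pow_ne_zero _ (by norm_num)
  have hs2 := sgn n
  rw [pow_add]
  push_cast
  field_simp
  rw [sq, hs2]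
  ring

/-- the moments of order `-1` -/
lemma M1_eq (b : ℕ) {m : ℕ} (hm : 1 ≤ m) :
    ∑ i ∈ range m, ck (b + 2) m i * (∑ k ∈ range m, ck (b + 2) m k / ((k : ℝ) + i + b + 2) - mu (b + 2) m i) =
      m * ((m : ℝ) + (b + 2)) / (b + 2) := by
  obtain ⟨n, rfl⟩ : ∃ n, m = n + 1 := ⟨m - 1, by omega⟩
  rw [Finset.sum_range_succ', Finset.sum_eq_zero, zero_add]
  · have h := u1 (a := b + 2) (by omega) n
    unfold Ed at h
    rw [mu_one (show 0 < n + 1 by omega)]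
    have e : ∑ k ∈ range (n + 1), ck (b + 2) (n + 1) k / ((k : ℝ) + ((0 : ℕ) : ℝ) + b + 2) =
        ∑ k ∈ range (n + 1), ck (b + 2) (n + 1) k / ((k : ℝ) + ((b + 2 : ℕ) : ℝ)) :=
      Finset.sum_congr rfl fun k _ => by push_cast; rw [add_zero, add_assoc]
    rw [e]
    push_cast at h ⊢
    linear_combination -h
  · intro i hi
    have hi' := mem_range.1 hi
    have h := Ed_zero (a := b + 2) (show i < n + 1 by omega)
    unfold Ed at h
    rw [mu_one (show i + 1 < n + 1 by omega)]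
    have e : ∑ k ∈ range (n + 1), ck (b + 2) (n + 1) k / ((k : ℝ) + ((i + 1 : ℕ) : ℝ) + b + 2) =
        ∑ k ∈ range (n + 1), ck (b + 2) (n + 1) k / ((k : ℝ) + ((i : ℝ) + ((b + 2 : ℕ) : ℝ) + 1)) :=
      Finset.sum_congr rfl fun k _ => by
        push_cast
        congr 1
        ring
    rw [e]
    have : ∑ k ∈ range (n + 1), ck (b + 2) (n + 1) k / ((k : ℝ) + ((i : ℝ) + ((b + 2 : ℕ) : ℝ) + 1)) = 1 := by
      linarith
    rw [this, sub_self, mul_zero]

/-- the moments of order `-2` -/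
lemma M2_eq (b : ℕ) {m : ℕ} (hm : 1 ≤ m) :
    ∑ i ∈ range m, ck (b + 2) m i * (∑ k ∈ range m, ck (b + 2) m k / ((k : ℝ) + i + b + 1) -
      2 * (∑ k ∈ range m, ck (b + 2) m k / ((k : ℝ) + i + b + 2)) + mu (b + 2) m i) =
      2 * (m : ℝ) ^ 2 * ((m : ℝ) + (b + 2)) ^ 2 / ((b + 1) * (b + 2) * (b + 3)) := by
  have hE : ∀ i s : ℕ, ∑ k ∈ range m, ck (b + 2) m k / ((k : ℝ) + i + b + s) =
      1 - Ed (b + 2) m ((i : ℝ) + b + s) := by
    intro i s
    unfold Ed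
    rw [sub_sub_cancel]
    refine Finset.sum_congr rfl fun k _ => ?_
    congr 1
    ring
  have hE1 : ∀ i : ℕ, ∑ k ∈ range m, ck (b + 2) m k / ((k : ℝ) + i + b + 1) =
      1 - Ed (b + 2) m ((i : ℝ) + b + 1) := fun i => by simpa using hE i 1
  have hE2 : ∀ i : ℕ, ∑ k ∈ range m, ck (b + 2) m k / ((k : ℝ) + i + b + 2) =
      1 - Ed (b + 2) m ((i : ℝ) + b + 2) := fun i => by simpa using hE i 2
  have h1 : ∀ i ∈ range m, ck (b + 2) m i * (∑ k ∈ range m, ck (b + 2) m k / ((k : ℝ) + i + b + 1) -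
      2 * (∑ k ∈ range m, ck (b + 2) m k / ((k : ℝ) + i + b + 2)) + mu (b + 2) m i) =
      ck (b + 2) m i * (2 * Ed (b + 2) m ((i : ℝ) + b + 2) - Ed (b + 2) m ((i : ℝ) + b + 1)) := by
    intro i hi
    rw [mu_one (mem_range.1 hi), hE1, hE2]
    ring
  rw [Finset.sum_congr rfl h1]
  obtain ⟨n, rfl⟩ : ∃ n, m = n + 1 := ⟨m - 1, by omega⟩
  have hz : ∀ i < n + 1, Ed (b + 2) (n + 1) ((i : ℝ) + b + 3) = 0 := by
    intro i hi
    have h := Ed_zero (a := b + 2) hi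
    rw [← h]
    congr 1
    push_cast
    ring
  rw [Finset.sum_range_succ']
  have v1 := u1 (a := b + 2) (by omega) n
  have v2 := u2 (b := b) n
  have e1 : (((0 : ℕ) : ℝ) + b + 2) = ((b + 2 : ℕ) : ℝ) := by push_cast; ring
  have e2 : (((0 : ℕ) : ℝ) + b + 1) = ((b : ℝ) + 1) := by push_cast; ring
  rw [e1, e2]
  have w1 : ck (b + 2) (n + 1) 0 * (2 * Ed (b + 2) (n + 1) ((b + 2 : ℕ) : ℝ) - Ed (b + 2) (n + 1) ((b : ℝ) + 1)) =
      2 * (-(((n : ℝ) + 1) * ((n : ℝ) + 1 + ((b + 2 : ℕ) : ℝ)) / ((b + 2 : ℕ) : ℝ))) -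
      -(((n : ℝ) + 1) * (n + 2) * ((b : ℝ) + 2 + n) * ((b : ℝ) + 3 + n) / (((b : ℝ) + 1) * (b + 2))) := by
    rw [← v1, ← v2]
    ring
  rw [w1]
  rcases Nat.eq_zero_or_pos n with h0 | h0
  · subst h0
    simp only [Finset.range_zero, Finset.sum_empty, Nat.cast_zero, zero_add]
    push_cast
    field_simp
    ring
  · obtain ⟨l, rfl⟩ : ∃ l, n = l + 1 := ⟨n - 1, by omega⟩
    rw [Finset.sum_range_succ', Finset.sum_eq_zero, zero_add]
    · have v3 := u3 (a := b + 2) (by omega) l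
      have e3 : ((((0 + 1 : ℕ)) : ℝ) + b + 1) = ((b + 2 : ℕ) : ℝ) := by push_cast; ring
      have e4 : ((((0 + 1 : ℕ)) : ℝ) + b + 2) = ((0 : ℕ) : ℝ) + b + 3 := by push_cast; ring
      rw [e3, e4, hz 0 (by omega), mul_zero, zero_sub, mul_neg, zero_add]
      rw [show l + 1 + 1 = l + 2 by ring, v3]
      push_cast
      field_simp
      ring
    · intro i hi
      have hi' := mem_range.1 hi
      have e3 : ((((i + 1 + 1 : ℕ)) : ℝ) + b + 1) = (i : ℝ) + b + 3 := by push_cast; ring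
      have e4 : ((((i + 1 + 1 : ℕ)) : ℝ) + b + 2) = ((i + 1 : ℕ) : ℝ) + b + 3 := by push_cast; ring
      rw [e3, e4, hz i (by omega), hz (i + 1) (by omega)]
      ring

/-- the kernel divided by `v ^ 2` -/
noncomputable def kq (b m : ℕ) (v : ℝ) : ℝ := ∑ k ∈ range m, ck (b + 2) m k * v ^ (2 * k + b)

lemma kq_cont (b m : ℕ) : Continuous (kq b m) := by
  unfold kq
  fun_prop

lemma kb_kq (b m : ℕ) (v : ℝ) : kb (b + 2) m v = v ^ 2 * kq b m v := by
  unfold kb kq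
  rw [Finset.mul_sum]
  refine Finset.sum_congr rfl fun k _ => ?_
  ring

lemma int_w3 (n : ℕ) (e1 e2 : ℝ) :
    ∫ v in (0:ℝ)..1, (2 * v ^ (2 * (n + 2) + 1) + (e1 * (2 * v ^ (2 * (n + 1) + 1) - 2 * v ^ (2 * (n + 2) + 1)) +
      e2 * (2 * v ^ (2 * n + 1) - 2 * (2 * v ^ (2 * (n + 1) + 1)) + 2 * v ^ (2 * (n + 2) + 1)))) =
    1 / ((n : ℝ) + 3) + (e1 * (1 / ((n : ℝ) + 2) - 1 / ((n : ℝ) + 3)) +
      e2 * (1 / ((n : ℝ) + 1) - 2 * (1 / ((n : ℝ) + 2)) + 1 / ((n : ℝ) + 3))) := by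
  have c : ∀ j : ℕ, IntervalIntegrable (fun v : ℝ => 2 * v ^ j) volume 0 1 := fun j =>
    (by fun_prop : Continuous fun v : ℝ => 2 * v ^ j).intervalIntegrable _ _
  have h1 : ∫ v in (0:ℝ)..1, (2 * v ^ (2 * n + 1) - 2 * (2 * v ^ (2 * (n + 1) + 1))
      + 2 * v ^ (2 * (n + 2) + 1)) = 1 / ((n : ℝ) + 1) - 2 * (1 / ((n : ℝ) + 2)) + 1 / ((n : ℝ) + 3) := by
    have h2 : ∫ v in (0:ℝ)..1, 2 * (2 * v ^ (2 * (n + 1) + 1)) = 2 * (1 / (((n + 1 : ℕ) : ℝ) + 1)) := by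
      rw [← int_odd]
      exact intervalIntegral.integral_const_mul _ _
    rw [intervalIntegral.integral_add ((c _).sub ((c _).const_mul 2)) (c _),
      intervalIntegral.integral_sub (c _) ((c _).const_mul 2), h2, int_odd, int_odd]
    push_cast
    ring
  have h3 : ∫ v in (0:ℝ)..1, e2 * (2 * v ^ (2 * n + 1) - 2 * (2 * v ^ (2 * (n + 1) + 1))
      + 2 * v ^ (2 * (n + 2) + 1)) = e2 * (1 / ((n : ℝ) + 1) - 2 * (1 / ((n : ℝ) + 2)) + 1 / ((n : ℝ) + 3)) := by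
    rw [← h1]
    exact intervalIntegral.integral_const_mul _ _
  have h4 : ∫ v in (0:ℝ)..1, e1 * (2 * v ^ (2 * (n + 1) + 1) - 2 * v ^ (2 * (n + 2) + 1)) =
      e1 * (1 / ((n : ℝ) + 2) - 1 / ((n : ℝ) + 3)) := by
    have h5 : ∫ v in (0:ℝ)..1, (2 * v ^ (2 * (n + 1) + 1) - 2 * v ^ (2 * (n + 2) + 1)) =
        1 / ((n : ℝ) + 2) - 1 / ((n : ℝ) + 3) := by
      rw [intervalIntegral.integral_sub (c _) (c _), int_odd, int_odd]
      push_cast
      ring
    rw [← h5]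
    exact intervalIntegral.integral_const_mul _ _
  have h6 : ∫ v in (0:ℝ)..1, 2 * v ^ (2 * (n + 2) + 1) = 1 / ((n : ℝ) + 3) := by
    rw [int_odd]
    push_cast
    ring
  rw [intervalIntegral.integral_add (c _) (((c _).sub (c _) |>.const_mul e1).add
    (((c _).sub ((c _).const_mul 2)).add (c _) |>.const_mul e2)),
    intervalIntegral.integral_add ((c _).sub (c _) |>.const_mul e1)
    (((c _).sub ((c _).const_mul 2)).add (c _) |>.const_mul e2), h6, h3, h4]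

/-- the weighted square integral of the kernel of the transposed operator -/
theorem int_sq3 (b m : ℕ) (hm : 1 ≤ m) (e f : ℝ) :
    ∫ v in (0:ℝ)..1, 2 * v * (kq b m v) ^ 2 * (v ^ 4 + e * (v ^ 2 * (1 - v ^ 2)) + f * (1 - v ^ 2) ^ 2) =
      m * ((m : ℝ) + (b + 2)) + e * (m * ((m : ℝ) + (b + 2)) / (b + 2)) +
        f * (2 * (m : ℝ) ^ 2 * ((m : ℝ) + (b + 2)) ^ 2 / ((b + 1) * (b + 2) * (b + 3))) := by
  have h1 : ∀ v : ℝ, 2 * v * (kq b m v) ^ 2 * (v ^ 4 + e * (v ^ 2 * (1 - v ^ 2)) + f * (1 - v ^ 2) ^ 2) =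
      ∑ i ∈ range m, ∑ k ∈ range m, (ck (b + 2) m i * ck (b + 2) m k) *
        (2 * v ^ (2 * ((i + k + b) + 2) + 1) +
          (e * (2 * v ^ (2 * ((i + k + b) + 1) + 1) - 2 * v ^ (2 * ((i + k + b) + 2) + 1)) +
          f * (2 * v ^ (2 * (i + k + b) + 1) -
          2 * (2 * v ^ (2 * ((i + k + b) + 1) + 1)) + 2 * v ^ (2 * ((i + k + b) + 2) + 1)))) := by
    intro v
    have h2 : (kq b m v) ^ 2 = ∑ i ∈ range m, ∑ k ∈ range m,
        (ck (b + 2) m i * v ^ (2 * i + b)) * (ck (b + 2) m k * v ^ (2 * k + b)) := by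
      rw [sq, kq, Finset.sum_mul_sum]
    rw [h2, mul_assoc, Finset.sum_mul, Finset.mul_sum]
    refine Finset.sum_congr rfl fun i _ => ?_
    rw [Finset.sum_mul, Finset.mul_sum]
    refine Finset.sum_congr rfl fun k _ => ?_
    have e1 : v ^ (2 * (i + k + b) + 1) = v * v ^ (2 * i + b) * v ^ (2 * k + b) := by ring
    have e2 : v ^ (2 * ((i + k + b) + 1) + 1) = v ^ 2 * (v * v ^ (2 * i + b) * v ^ (2 * k + b)) := by ring
    have e3 : v ^ (2 * ((i + k + b) + 2) + 1) = v ^ 4 * (v * v ^ (2 * i + b) * v ^ (2 * k + b)) := by ring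
    rw [e1, e2, e3]
    ring
  have hc : ∀ i k : ℕ, Continuous fun v : ℝ => (ck (b + 2) m i * ck (b + 2) m k) *
        (2 * v ^ (2 * ((i + k + b) + 2) + 1) +
          (e * (2 * v ^ (2 * ((i + k + b) + 1) + 1) - 2 * v ^ (2 * ((i + k + b) + 2) + 1)) +
          f * (2 * v ^ (2 * (i + k + b) + 1) -
          2 * (2 * v ^ (2 * ((i + k + b) + 1) + 1)) + 2 * v ^ (2 * ((i + k + b) + 2) + 1)))) := by
    intro i k
    fun_prop
  simp only [h1]
  rw [intervalIntegral.integral_finsetSum (fun i _ =>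
    (continuous_finsetSum _ fun k _ => hc i k).intervalIntegrable _ _)]
  have h3 : ∀ i ∈ range m, ∫ v in (0:ℝ)..1, ∑ k ∈ range m, (ck (b + 2) m i * ck (b + 2) m k) *
        (2 * v ^ (2 * ((i + k + b) + 2) + 1) +
          (e * (2 * v ^ (2 * ((i + k + b) + 1) + 1) - 2 * v ^ (2 * ((i + k + b) + 2) + 1)) +
          f * (2 * v ^ (2 * (i + k + b) + 1) -
          2 * (2 * v ^ (2 * ((i + k + b) + 1) + 1)) + 2 * v ^ (2 * ((i + k + b) + 2) + 1)))) =
      ck (b + 2) m i * mu (b + 2) m i + e * (ck (b + 2) m i *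
        (∑ k ∈ range m, ck (b + 2) m k / ((k : ℝ) + i + b + 2) - mu (b + 2) m i)) +
        f * (ck (b + 2) m i * (∑ k ∈ range m, ck (b + 2) m k / ((k : ℝ) + i + b + 1) -
      2 * (∑ k ∈ range m, ck (b + 2) m k / ((k : ℝ) + i + b + 2)) + mu (b + 2) m i)) := by
    intro i _
    rw [intervalIntegral.integral_finsetSum (fun k _ => (hc i k).intervalIntegrable _ _)]
    simp only [intervalIntegral.integral_const_mul, int_w3]
    unfold mu
    simp only [Finset.mul_sum, ← Finset.sum_add_distrib, ← Finset.sum_sub_distrib]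
    refine Finset.sum_congr rfl fun k _ => ?_
    push_cast
    have e1 : (k : ℝ) + i + (b + 2) + 1 = i + k + b + 3 := by ring
    have e2 : (k : ℝ) + i + b + 2 = i + k + b + 2 := by ring
    have e3 : (k : ℝ) + i + b + 1 = i + k + b + 1 := by ring
    rw [e1, e2, e3]
    ring
  rw [Finset.sum_congr rfl h3, Finset.sum_add_distrib, Finset.sum_add_distrib, ← Finset.mul_sum,
    ← Finset.mul_sum, M1_eq b hm, M2_eq b hm]
  have h4 := sum_ck (b + 2) hm
  push_cast at h4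
  rw [← h4]
  congr 2
  refine Finset.sum_congr rfl fun i hi => ?_
  rw [mu_one (mem_range.1 hi), mul_one]

end Pool.Agent.Run7.h695.BT
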