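import Pool.Agent.Run7.h695.BT.Op

/-!
# The operator is an isometry of `L ^ 2` (helper695)
-/

set_option autoImplicit false

open Finset MeasureTheory Filter Topology
open scoped SchwartzMap ComplexConjugate ENNReal

namespace Pool.Agent.Run7.h695.BT

/-- the average along a ray -/
lemma ray (b : ℕ) {f : ℂ → ℂ} (z : ℂ) {r : ℝ} (hr : 0 < r) :
    (r : ℂ) ^ (b + 1) * yk b f ((r : ℂ) * z) = 2 * ∫ s in (0:ℝ)..r, ((s ^ b : ℝ) : ℂ) * f ((s : ℂ) * z) := by
  have h1 := intervalIntegral.smul_integral_comp_mul_left (a := 0) (b := 1)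
    (fun s : ℝ => ((s ^ b : ℝ) : ℂ) * f ((s : ℂ) * z)) r
  rw [mul_zero, mul_one, Complex.real_smul] at h1
  unfold yk
  rw [← h1, pow_succ, mul_assoc ((r:ℂ) ^ b), ← intervalIntegral.integral_const_mul,
    ← intervalIntegral.integral_const_mul, ← intervalIntegral.integral_const_mul]
  rw [← intervalIntegral.integral_const_mul]
  refine intervalIntegral.integral_congr fun v _ => ?_
  show (r:ℂ) ^ b * ((r:ℂ) * (((2 * v ^ b : ℝ) : ℂ) * f ((v:ℂ) * ((r:ℂ) * z)))) =
    2 * ((r : ℂ) * ((((r * v) ^ b : ℝ) : ℂ) * f (((r * v : ℝ) : ℂ) * z)))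
  have h2 : (v:ℂ) * ((r:ℂ) * z) = ((r * v : ℝ) : ℂ) * z := by push_cast; ring
  rw [h2]
  push_cast
  rw [mul_pow]
  ring

lemma ray_deriv (b : ℕ) {f : ℂ → ℂ} (hf : Continuous f) (z : ℂ) {r : ℝ} (hr : 0 < r) :
    HasDerivAt (fun r : ℝ => yk b f ((r : ℂ) * z))
      ((2 * f ((r : ℂ) * z) - ((b : ℂ) + 1) * yk b f ((r : ℂ) * z)) / r) r := by
  have hr' : (r : ℂ) ≠ 0 := Complex.ofReal_ne_zero.2 hr.ne'
  have hc : Continuous fun s : ℝ => ((s ^ b : ℝ) : ℂ) * f ((s : ℂ) * z) := by fun_prop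
  have h1 : HasDerivAt (fun r : ℝ => 2 * ∫ s in (0:ℝ)..r, ((s ^ b : ℝ) : ℂ) * f ((s : ℂ) * z))
      (2 * (((r ^ b : ℝ) : ℂ) * f ((r : ℂ) * z))) r :=
    (intervalIntegral.integral_hasDerivAt_right (hc.intervalIntegrable _ _)
      (hc.stronglyMeasurableAtFilter _ _) hc.continuousAt).const_mul 2
  have h2 : HasDerivAt (fun r : ℝ => ((r : ℂ) ^ (b + 1))) (((b + 1 : ℕ) : ℂ) * (r : ℂ) ^ b) r := by
    have := (hasDerivAt_pow (b + 1) (r : ℂ)).comp_ofReal
    simpa using this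
  have h3 := h1.div h2 (pow_ne_zero _ hr')
  refine (h3.congr_of_eventuallyEq ?_).congr_deriv ?_
  · filter_upwards [Ioi_mem_nhds hr] with x hx
    have hx' : (x : ℂ) ≠ 0 := Complex.ofReal_ne_zero.2 (ne_of_gt hx)
    show yk b f ((x : ℂ) * z) = (2 * ∫ s in (0:ℝ)..x, ((s ^ b : ℝ) : ℂ) * f ((s : ℂ) * z)) / (x : ℂ) ^ (b + 1)
    rw [← ray b z hx, mul_div_cancel_left₀ _ (pow_ne_zero _ hx')]
  · rw [← ray b z hr]
    push_cast
    field_simp
    ring

lemma scale {E : Type*} [NormedAddCommGroup E] [NormedSpace ℝ E] (g : ℂ → E) {l : ℝ} (hl : 0 < l) :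
    ∫ z : ℂ, g ((l : ℂ) * z) = (l ^ 2)⁻¹ • ∫ z : ℂ, g z := by
  have h := Measure.integral_comp_smul (volume : Measure ℂ) g l
  rw [Complex.finrank_real_complex, abs_of_pos (by positivity)] at h
  rw [← h]
  simp only [Complex.real_smul]

/-- the radial derivative integrates to `-2` times the function -/
lemma radial {G H : ℂ → ℂ} (hG : Dec2 G) (hH : Dec2 H)
    (hd : ∀ (z : ℂ) (r : ℝ), 0 < r → HasDerivAt (fun r : ℝ => G ((r : ℂ) * z)) (H ((r : ℂ) * z) / r) r) :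
    ∫ z, H z = -2 * ∫ z, G z := by
  obtain ⟨hHc, C, hC⟩ := hH
  have hC0 := Dec2.nonneg hC
  set K : ℂ → ℝ → ℂ := fun z l => H (((max l 1 : ℝ) : ℂ) * z) / ((max l 1 : ℝ) : ℂ) with hK
  have hKc : Continuous (Function.uncurry K) := by
    rw [hK]
    refine Continuous.div ?_ ?_ ?_
    · exact hHc.comp (by fun_prop)
    · fun_prop
    · intro x
      rw [Complex.ofReal_ne_zero]
      have := le_max_right x.2 1
      linarith
  have hKb : ∀ z l, ‖K z l‖ ≤ C * ((1 + ‖z‖ ^ 2) ^ 2)⁻¹ := by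
    intro z l
    have h1 : (1:ℝ) ≤ max l 1 := le_max_right l 1
    have h0 : (0:ℝ) < max l 1 := by linarith
    rw [hK]
    simp only
    rw [norm_div, Complex.norm_real, Real.norm_of_nonneg h0.le]
    have h2 := hC (((max l 1 : ℝ) : ℂ) * z)
    rw [norm_mul, Complex.norm_real, Real.norm_of_nonneg h0.le] at h2
    have h3 : (1 + ‖z‖ ^ 2) ^ 2 ≤ (1 + (max l 1 * ‖z‖) ^ 2) ^ 2 := by
      have h4 : ‖z‖ ≤ max l 1 * ‖z‖ := by nlinarith [norm_nonneg z]
      have h5 : ‖z‖ ^ 2 ≤ (max l 1 * ‖z‖) ^ 2 := pow_le_pow_left₀ (norm_nonneg z) h4 2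
      exact pow_le_pow_left₀ (by positivity) (by linarith) 2
    calc ‖H (((max l 1 : ℝ) : ℂ) * z)‖ / max l 1 ≤ ‖H (((max l 1 : ℝ) : ℂ) * z)‖ :=
          div_le_self (norm_nonneg _) h1
      _ ≤ C / (1 + (max l 1 * ‖z‖) ^ 2) ^ 2 := h2
      _ ≤ C / (1 + ‖z‖ ^ 2) ^ 2 := div_le_div_of_nonneg_left hC0 (by positivity) h3
      _ = _ := div_eq_mul_inv _ _
  have hint : Integrable (Function.uncurry K) (volume.prod (volume.restrict (Set.Ioc (1:ℝ) 2))) := by
    have h1 : Integrable (fun z : ℂ × ℝ => (C * ((1 + ‖z.1‖ ^ 2) ^ 2)⁻¹) * (1 : ℝ))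
        (volume.prod (volume.restrict (Set.Ioc (1:ℝ) 2))) :=
      (int_model.const_mul C).mul_prod (integrable_const (1 : ℝ))
    refine h1.mono' hKc.aestronglyMeasurable (Eventually.of_forall fun x => ?_)
    rw [mul_one]
    exact hKb x.1 x.2
  have hsw := integral_integral_swap hint
  have hl : ∀ z : ℂ, ∫ l in Set.Ioc (1:ℝ) 2, K z l = G ((2:ℂ) * z) - G z := by
    intro z
    rw [← intervalIntegral.integral_of_le (by norm_num)]
    have h1 : ∫ l in (1:ℝ)..2, K z l = ∫ l in (1:ℝ)..2, H ((l : ℂ) * z) / l := by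
      refine intervalIntegral.integral_congr fun l hl => ?_
      rw [Set.uIcc_of_le (by norm_num)] at hl
      rw [hK]
      simp only
      rw [max_eq_left hl.1]
    rw [h1]
    have h2 := intervalIntegral.integral_eq_sub_of_hasDerivAt (a := 1) (b := 2)
      (f := fun r : ℝ => G ((r : ℂ) * z)) (f' := fun l : ℝ => H ((l : ℂ) * z) / l) (fun l hl => by
        rw [Set.uIcc_of_le (by norm_num)] at hl
        exact hd z l (by linarith [hl.1])) ?_
    · rw [h2]
      simp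
    · refine ContinuousOn.intervalIntegrable ?_
      rw [Set.uIcc_of_le (by norm_num)]
      refine ContinuousOn.div ?_ ?_ ?_
      · exact (hHc.comp (by fun_prop)).continuousOn
      · fun_prop
      · intro l hl
        rw [Complex.ofReal_ne_zero]
        linarith [hl.1]
  have hr : ∀ l ∈ Set.Ioc (1:ℝ) 2, ∫ z : ℂ, K z l = ((l ^ 3)⁻¹ : ℝ) • ∫ z, H z := by
    intro l hl
    have h0 : 0 < l := by linarith [hl.1]
    rw [hK]
    simp only
    rw [max_eq_left hl.1.le, integral_div, scale H h0]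
    rw [Complex.real_smul, Complex.real_smul]
    have : (l : ℂ) ≠ 0 := Complex.ofReal_ne_zero.2 h0.ne'
    push_cast
    field_simp
  simp only [hl] at hsw
  rw [setIntegral_congr_fun measurableSet_Ioc hr] at hsw
  have hG2 : Integrable (fun z : ℂ => G ((2:ℂ) * z)) := by
    have h2 := hG.int.comp_smul (R := (2:ℝ)) (by norm_num)
    refine h2.congr (Eventually.of_forall fun z => ?_)
    show G ((2:ℝ) • z) = G ((2:ℂ) * z)
    rw [Complex.real_smul]
    norm_num
  rw [integral_sub hG2 hG.int] at hsw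
  have h3 := scale G (l := 2) (by norm_num)
  have h3' : ∫ z : ℂ, G ((2:ℂ) * z) = ((2:ℝ) ^ 2)⁻¹ • ∫ z, G z := by
    rw [← h3]
    norm_num
  rw [h3'] at hsw
  have h4 : ∫ l in Set.Ioc (1:ℝ) 2, ((l ^ 3)⁻¹ : ℝ) • (∫ z, H z) = (3 / 8 : ℝ) • ∫ z, H z := by
    rw [integral_smul_const]
    congr 1
    rw [← intervalIntegral.integral_of_le (by norm_num)]
    have h5 : ∀ l ∈ Set.uIcc (1:ℝ) 2, HasDerivAt (fun l : ℝ => -(1 / 2) * (l ^ 2)⁻¹) ((l ^ 3)⁻¹) l := by
      intro l hl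
      rw [Set.uIcc_of_le (by norm_num)] at hl
      have h0 : l ≠ 0 := by linarith [hl.1]
      refine (((hasDerivAt_pow 2 l).inv (pow_ne_zero 2 h0)).const_mul (-(1/2))).congr_deriv ?_
      field_simp
      norm_num
    rw [intervalIntegral.integral_eq_sub_of_hasDerivAt h5]
    · norm_num
    · refine ContinuousOn.intervalIntegrable ?_
      rw [Set.uIcc_of_le (by norm_num)]
      refine ContinuousOn.inv₀ (by fun_prop) fun l hl => ?_
      have : 0 < l := by linarith [hl.1]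
      positivity
  rw [h4, Complex.real_smul, Complex.real_smul] at hsw
  push_cast at hsw
  linear_combination (-(8:ℂ) / 3) * hsw

end Pool.Agent.Run7.h695.BT
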