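import Pool.Agent.Run7.h695.BT.Sing

/-!
# Finite spectra (helper695)
-/

set_option autoImplicit false

open Finset MeasureTheory
open scoped SchwartzMap ComplexConjugate

namespace Pool.Agent.Run7.h695.BT

open Pool.Agent.N892.BW (TS)
open Pool.Agent.Y282.RB

lemma sqrt_sum_le (S : Finset ℤ) (x : ℤ → ℝ) : √(∑ j ∈ S, x j ^ 2) ≤ ∑ j ∈ S, |x j| := by
  have h0 : 0 ≤ ∑ j ∈ S, |x j| := Finset.sum_nonneg fun _ _ => abs_nonneg _
  rw [Real.sqrt_le_left h0]
  have h := Finset.sum_sq_le_sq_sum_of_nonneg (s := S) (f := fun j => |x j|) fun _ _ => abs_nonneg _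
  simpa only [sq_abs] using h

lemma GH_sub (S : Finset ℤ) (A M : ℤ → ℕ) : GH S A M ≤ ∑ j ∈ S, NH (A j) (M j) := by
  unfold GH NH gH
  rw [← intervalIntegral.integral_finsetSum fun j _ => (kh_cont (A j) (M j)).abs.intervalIntegrable _ _]
  refine intervalIntegral.integral_mono_on zero_le_one ((gH_cont S A M).intervalIntegrable _ _)
    ((continuous_finsetSum _ fun j _ => (kh_cont (A j) (M j)).abs).intervalIntegrable _ _) fun v _ => ?_
  exact sqrt_sum_le S fun j => kh (A j) (M j) v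

lemma GB_sub (S : Finset ℤ) (A M : ℤ → ℕ) : GB S A M ≤ ∑ j ∈ S, NB (A j) (M j) := by
  unfold GB NB gS
  rw [← intervalIntegral.integral_finsetSum fun j _ => (ka_cont (A j) (M j)).abs.intervalIntegrable _ _]
  have hg := gS_cont S A M
  refine intervalIntegral.integral_mono_on zero_le_one
    ((by fun_prop : Continuous fun v : ℝ => 2 * v * gS S A M v).intervalIntegrable _ _)
    ((continuous_finsetSum _ fun j _ => (ka_cont (A j) (M j)).abs).intervalIntegrable _ _) fun v hv => ?_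
  have h1 : ∀ j, |ka (A j) (M j) v| = 2 * v * |kb (A j) (M j) v| := by
    intro j
    rw [ka_eq, abs_mul, abs_of_nonneg (by linarith [hv.1] : 0 ≤ 2 * v)]
  simp only [h1]
  rw [← Finset.mul_sum]
  exact mul_le_mul_of_nonneg_left (sqrt_sum_le S fun j => kb (A j) (M j) v) (by linarith [hv.1])

/-- finite spectra -/
theorem many {n : ℕ} (hn : 1 ≤ n) {S : Finset ℤ} (hS : 2 * (n : ℤ) ∉ S)
    {g : ℤ → 𝓢(ℂ, ℂ)} (hg : ∀ j ∈ S, Ty j (g j)) {p : ℝ} (hp : 2 ≤ p) :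
    eLpNorm (TS n (∑ j ∈ S, g j)) (ENNReal.ofReal p) volume ≤
      ENNReal.ofReal ((1 + (((S.filter fun j => j ≤ -(6 * (n : ℤ)) ∨ (n : ℤ) < j).card + 1 : ℕ) : ℝ) *
          (6.7 * n - 0.33)) ^ (1 - 2 / p)) *
        eLpNorm (fun z : ℂ => (∑ j ∈ S, g j : 𝓢(ℂ, ℂ)) z) (ENNReal.ofReal p) volume := by
  have hn' : (1:ℝ) ≤ n := by exact_mod_cast hn
  have hS' : ∀ j ∈ S, j ≠ 2 * (n : ℤ) := fun j hj h => hS (h ▸ hj)
  refine totalW (fun j hj h => by
    have := hS' j hj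
    omega) hg hp ?_
  set W : Finset ℤ := S.filter fun j => -(6 * (n : ℤ)) < j ∧ j ≤ (n : ℤ) with hW
  set L : Finset ℤ := S.filter fun j => j ≤ -(6 * (n : ℤ)) with hL
  set E : Finset ℤ := S.filter fun j => (n : ℤ) < j with hE
  have hdWL : Disjoint W L := by
    rw [Finset.disjoint_left]
    intro j h1 h2
    have := (Finset.mem_filter.1 h1).2
    have := (Finset.mem_filter.1 h2).2
    omega
  have hWL : (S.filter fun j => j ≤ (n : ℤ)) = W ∪ L := by
    ext j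
    simp only [hW, hL, Finset.mem_union, Finset.mem_filter]
    constructor
    · rintro ⟨h1, h2⟩
      rcases le_or_gt j (-(6 * (n : ℤ))) with h3 | h3
      · exact Or.inr ⟨h1, h3⟩
      · exact Or.inl ⟨h1, h3, h2⟩
    · rintro (⟨h1, h2, h3⟩ | ⟨h1, h2⟩)
      · exact ⟨h1, h3⟩
      · exact ⟨h1, by omega⟩
  have hLE : (S.filter fun j => j ≤ -(6 * (n : ℤ)) ∨ (n : ℤ) < j) = L ∪ E := by
    ext j
    simp only [hL, hE, Finset.mem_union, Finset.mem_filter]
    tauto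
  have hdLE : Disjoint L E := by
    rw [Finset.disjoint_left]
    intro j h1 h2
    have := (Finset.mem_filter.1 h1).2
    have := (Finset.mem_filter.1 h2).2
    omega
  rw [hWL, hLE, Finset.card_union_of_disjoint hdLE]
  have h0 := GB_union hdWL (An n) (Mn n)
  have hw : GB W (An n) (Mn n) ≤ 6.7 * n - 0.33 := by
    have hWS : ∀ j ∈ W, -(6 * n : ℤ) < j ∧ j ≤ n := fun j hj => (Finset.mem_filter.1 hj).2
    have h2 := GB_frac (S := W) (An n) (Mn n) (fun j hj => by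
      have := (hWS j hj).2
      unfold An Mn
      rw [if_pos this, if_pos this]
      omega)
    have h3 : ∑ j ∈ W, cj (An n j) (Mn n j) = ∑ j ∈ W, cc n j :=
      Finset.sum_congr rfl fun j hj => cj_eq (hWS j hj).2
    rw [h3] at h2
    have := window_le hn hWS
    linarith
  have h1 := GB_sub L (An n) (Mn n)
  have h2 := GH_sub E (An n) (Mn n)
  have h3 : ∑ j ∈ L, NB (An n j) (Mn n j) ≤ ∑ j ∈ L, (6.7 * n - 0.33 : ℝ) := by
    refine Finset.sum_le_sum fun j hj => ?_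
    have h4 := NB_le2 (An n j) (Mn n j)
    have h5 : Mn n j ≤ n := by
      unfold Mn
      split_ifs <;> omega
    have h6 := Cc_le h5
    linarith
  have h4 : ∑ j ∈ E, NH (An n j) (Mn n j) ≤ ∑ j ∈ E, (6.7 * n - 0.33 : ℝ) := by
    refine Finset.sum_le_sum fun j hj => ?_
    have hj' := Finset.mem_filter.1 hj
    exact ext_type hn hj'.2 (hS' j hj'.1)
  rw [Finset.sum_const, nsmul_eq_mul] at h3 h4
  push_cast
  linarith

lemma Cn_succ_ge {p : ℝ} (hp : 2 ≤ p) {n : ℕ} (hn : 1 ≤ n) :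
    ((6.7 * n + 0.67) / Real.exp 2) ^ (1 - 2 / p) * (p - 1) ≤ Cn p n := by
  have hp0 : 0 < p := by linarith
  have he : 0 ≤ 1 - 2 / p := by
    rw [sub_nonneg, div_le_one hp0]; exact hp
  have hi : 1 / p ≤ 1 / 2 := one_div_le_one_div_of_le (by norm_num) hp
  have hi0 : 0 < 1 / p := by positivity
  obtain ⟨k, rfl⟩ : ∃ k, n = k + 1 := ⟨n - 1, by omega⟩
  have h1 := exp_sum2 (n := k + 1) (by omega)
  rw [Finset.sum_range_succ', Real.exp_add] at h1
  have e1 : (2 : ℝ) / (2 * ((0 : ℕ) : ℝ) + 1) = 2 := by norm_num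
  rw [e1] at h1
  have h2 : (6.7 * ((k + 1 : ℕ) : ℝ) + 0.67) / Real.exp 2 ≤
      Real.exp (∑ j ∈ range k, 2 / (2 * ((j + 1 : ℕ) : ℝ) + 1)) := by
    rw [div_le_iff₀ (Real.exp_pos _)]
    exact h1
  have h3 : Real.exp (∑ j ∈ range k, 2 / (2 * ((j + 1 : ℕ) : ℝ) + 1)) ^ (1 - 2 / p) ≤
      ∏ j ∈ range k, ((((j + 1 : ℕ) : ℝ) + 1 - 1 / p) / (((j + 1 : ℕ) : ℝ) + 1 / p)) := by
    rw [← Real.exp_mul, Finset.sum_mul, Real.exp_sum]
    refine Finset.prod_le_prod (fun j _ => (Real.exp_pos _).le) fun j _ => ?_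
    have hj : (0 : ℝ) ≤ ((j + 1 : ℕ) : ℝ) := Nat.cast_nonneg _
    set q : ℝ := ((j + 1 : ℕ) : ℝ) with hq
    set δ : ℝ := 1 / 2 - 1 / p with hδ
    have hδ0 : 0 ≤ δ := by rw [hδ]; linarith
    have hx0 : 0 ≤ δ / (q + 1 / 2) := by positivity
    have hx1 : δ / (q + 1 / 2) < 1 := by
      rw [div_lt_one (by positivity)]
      rw [hδ]
      linarith
    have h := exp_le_ratio hx0 hx1
    have e1 : 2 * (δ / (q + 1 / 2)) = 2 / (2 * q + 1) * (1 - 2 / p) := by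
      rw [hδ]
      field_simp
    have e2 : (1 + δ / (q + 1 / 2)) / (1 - δ / (q + 1 / 2)) = (q + 1 - 1 / p) / (q + 1 / p) := by
      have h3 : q + 1 / 2 ≠ 0 := by positivity
      have h4 : (1 + δ / (q + 1 / 2)) = (q + 1 - 1 / p) / (q + 1 / 2) := by
        rw [hδ, eq_div_iff h3, add_mul, div_mul_cancel₀ _ h3]
        ring
      have h5 : (1 - δ / (q + 1 / 2)) = (q + 1 / p) / (q + 1 / 2) := by
        rw [hδ, eq_div_iff h3, sub_mul, div_mul_cancel₀ _ h3]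
        ring
      rw [h4, h5, div_div_div_cancel_right₀ h3]
    rw [← e1, ← e2]
    exact h
  unfold Cn
  rw [Finset.prod_range_succ']
  have e3 : (((0 : ℕ) : ℝ) + 1 - 1 / p) / (((0 : ℕ) : ℝ) + 1 / p) = p - 1 := by
    push_cast
    field_simp
    ring
  rw [e3]
  refine mul_le_mul_of_nonneg_right ?_ (by linarith)
  exact (Real.rpow_le_rpow (by positivity) h2 he).trans h3

lemma manyNum {n N : ℕ} (hn : 1 ≤ n) {p : ℝ} (hp : 2 ≤ p) (hp2 : 1 + 7.4 * N ≤ p) :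
    (1 + N * (6.7 * n - 0.33) : ℝ) ^ (1 - 2 / p) ≤
      (ascPochhammer ℝ n).eval (1 - 1 / p) / (ascPochhammer ℝ n).eval (1 / p) := by
  have hp0 : 0 < p := by linarith
  have he : 0 ≤ 1 - 2 / p := by
    rw [sub_nonneg, div_le_one hp0]; exact hp
  have he1 : 1 - 2 / p ≤ 1 := by
    have : 0 < 2 / p := by positivity
    linarith
  have hn' : (1:ℝ) ≤ n := by exact_mod_cast hn
  rcases Nat.eq_zero_or_pos N with h | h
  · subst h
    refine numA2 hn hp (by push_cast; norm_num) ?_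
    push_cast
    linarith
  · have hN : (1:ℝ) ≤ N := by exact_mod_cast h
    rw [← K3.main n p (by linarith)]
    refine le_trans ?_ (Cn_succ_ge hp hn)
    have hexp : Real.exp 2 ≤ 7.4 := by
      have h1 := Real.exp_one_lt_d9
      have h2 : Real.exp 2 = Real.exp 1 * Real.exp 1 := by rw [← Real.exp_add]; norm_num
      have h3 := Real.exp_pos 1
      rw [h2]
      nlinarith
    have hepos := Real.exp_pos 2
    have h1 : (1 + N * (6.7 * n - 0.33) : ℝ) ≤ (6.7 * n + 0.67) / Real.exp 2 * (7.4 * N) := by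
      have h2 : (1 + N * (6.7 * n - 0.33) : ℝ) ≤ (6.7 * n + 0.67) * N := by nlinarith
      have h3 : (6.7 * n + 0.67) * (N : ℝ) ≤ (6.7 * n + 0.67) / Real.exp 2 * (7.4 * N) := by
        rw [div_mul_eq_mul_div, le_div_iff₀ hepos]
        have h4 : 0 ≤ (6.7 * n + 0.67) * (N : ℝ) := by positivity
        nlinarith
      linarith
    calc (1 + N * (6.7 * n - 0.33) : ℝ) ^ (1 - 2 / p) ≤
          ((6.7 * n + 0.67) / Real.exp 2 * (7.4 * N)) ^ (1 - 2 / p) :=
            Real.rpow_le_rpow (by nlinarith) h1 he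
      _ = ((6.7 * n + 0.67) / Real.exp 2) ^ (1 - 2 / p) * (7.4 * N : ℝ) ^ (1 - 2 / p) :=
            Real.mul_rpow (by positivity) (by positivity)
      _ ≤ ((6.7 * n + 0.67) / Real.exp 2) ^ (1 - 2 / p) * (7.4 * N : ℝ) ^ (1 : ℝ) :=
            mul_le_mul_of_nonneg_left (Real.rpow_le_rpow_of_exponent_le (by linarith) he1) (by positivity)
      _ ≤ _ := by
            rw [Real.rpow_one]
            exact mul_le_mul_of_nonneg_left (by linarith) (by positivity)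

lemma manyNumB {n N : ℕ} (hn : 1 ≤ n) {p : ℝ} (hp : 2 ≤ p) (hp2 : 1 + 7.4 * N ≤ p) :
    (1 + N * (6.7 * n - 0.33) : ℝ) ^ (1 - 2 / p) ≤ (n : ℝ) ^ (1 - 2 / p) * (p - 1) := by
  have hp0 : 0 < p := by linarith
  have he : 0 ≤ 1 - 2 / p := by
    rw [sub_nonneg, div_le_one hp0]; exact hp
  have he1 : 1 - 2 / p ≤ 1 := by
    have : 0 < 2 / p := by positivity
    linarith
  have hn' : (1:ℝ) ≤ n := by exact_mod_cast hn
  rcases Nat.eq_zero_or_pos N with h | h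
  · subst h
    refine numB hp (by push_cast; norm_num) ?_
    push_cast
    linarith
  · have hN : (1:ℝ) ≤ N := by exact_mod_cast h
    have h1 : (1 + N * (6.7 * n - 0.33) : ℝ) ≤ n * (7.4 * N) := by nlinarith
    calc (1 + N * (6.7 * n - 0.33) : ℝ) ^ (1 - 2 / p) ≤ (n * (7.4 * N)) ^ (1 - 2 / p) :=
            Real.rpow_le_rpow (by nlinarith) h1 he
      _ = (n : ℝ) ^ (1 - 2 / p) * (7.4 * N : ℝ) ^ (1 - 2 / p) :=
            Real.mul_rpow (by positivity) (by positivity)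
      _ ≤ (n : ℝ) ^ (1 - 2 / p) * (7.4 * N : ℝ) ^ (1 : ℝ) :=
            mul_le_mul_of_nonneg_left (Real.rpow_le_rpow_of_exponent_le (by linarith) he1) (by positivity)
      _ ≤ _ := by
            rw [Real.rpow_one]
            exact mul_le_mul_of_nonneg_left (by linarith) (by positivity)

theorem manyA {n : ℕ} (hn : 1 ≤ n) {S : Finset ℤ} (hS : 2 * (n : ℤ) ∉ S)
    {g : ℤ → 𝓢(ℂ, ℂ)} (hg : ∀ j ∈ S, Ty j (g j)) {p : ℝ}
    (hp2 : 8.4 + 7.4 * (S.filter fun j => j ≤ -(6 * (n : ℤ)) ∨ (n : ℤ) < j).card ≤ p) :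
    eLpNorm (TS n (∑ j ∈ S, g j)) (ENNReal.ofReal p) volume ≤
      ENNReal.ofReal ((ascPochhammer ℝ n).eval (1 - 1 / p) / (ascPochhammer ℝ n).eval (1 / p)) *
        eLpNorm (fun z : ℂ => (∑ j ∈ S, g j : 𝓢(ℂ, ℂ)) z) (ENNReal.ofReal p) volume := by
  have h0 : (0:ℝ) ≤ (S.filter fun j => j ≤ -(6 * (n : ℤ)) ∨ (n : ℤ) < j).card := Nat.cast_nonneg _
  have hp : 2 ≤ p := by linarith
  exact (many hn hS hg hp).trans (mul_le_mul_left (ENNReal.ofReal_le_ofReal (manyNum hn hp (by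
    push_cast
    linarith))) _)

theorem manyB {n : ℕ} (hn : 1 ≤ n) {S : Finset ℤ} (hS : 2 * (n : ℤ) ∉ S)
    {g : ℤ → 𝓢(ℂ, ℂ)} (hg : ∀ j ∈ S, Ty j (g j)) {p : ℝ}
    (hp2 : 8.4 + 7.4 * (S.filter fun j => j ≤ -(6 * (n : ℤ)) ∨ (n : ℤ) < j).card ≤ p) :
    eLpNorm (TS n (∑ j ∈ S, g j)) (ENNReal.ofReal p) volume ≤
      ENNReal.ofReal ((n : ℝ) ^ (1 - 2 / p) * (p - 1)) *
        eLpNorm (fun z : ℂ => (∑ j ∈ S, g j : 𝓢(ℂ, ℂ)) z) (ENNReal.ofReal p) volume := by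
  have h0 : (0:ℝ) ≤ (S.filter fun j => j ≤ -(6 * (n : ℤ)) ∨ (n : ℤ) < j).card := Nat.cast_nonneg _
  have hp : 2 ≤ p := by linarith
  exact (many hn hS hg hp).trans (mul_le_mul_left (ENNReal.ofReal_le_ofReal (manyNumB hn hp (by
    push_cast
    linarith))) _)

end Pool.Agent.Run7.h695.BT
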