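import Pool.Agent.Run7.h695.BT.L2b

/-!
# The operator on `L ^ p` (helper695)
-/

set_option autoImplicit false

open Finset MeasureTheory Filter Topology
open scoped SchwartzMap ComplexConjugate ENNReal

namespace Pool.Agent.Run7.h695.BT

noncomputable def NB (a m : ℕ) : ℝ := ∫ v in (0:ℝ)..1, |ka a m v|

noncomputable def NB' (a m : ℕ) : ℝ := ∫ v in (0:ℝ)..1, 2 * |kb a m v|

lemma NB_nonneg (a m : ℕ) : 0 ≤ NB a m :=
  intervalIntegral.integral_nonneg zero_le_one fun _ _ => abs_nonneg _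

lemma NB'_nonneg (a m : ℕ) : 0 ≤ NB' a m :=
  intervalIntegral.integral_nonneg zero_le_one fun _ _ => by positivity

lemma FF_eq (a m : ℕ) {f : ℂ → ℂ} (hf : Continuous f) (z : ℂ) :
    FF a m f z = f z - ∫ v in (0:ℝ)..1, ((ka a m v : ℝ) : ℂ) * f ((v : ℂ) * z) := by
  unfold FF yk
  congr 1
  have h0 : ∀ k : ℕ, ((ck a m k : ℝ) : ℂ) * (∫ v in (0:ℝ)..1, ((2 * v ^ (2 * k + a + 1) : ℝ) : ℂ) *
      f ((v : ℂ) * z)) = ∫ v in (0:ℝ)..1, ((ck a m k : ℝ) : ℂ) * (((2 * v ^ (2 * k + a + 1) : ℝ) : ℂ) *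
      f ((v : ℂ) * z)) := fun k => (intervalIntegral.integral_const_mul _ _).symm
  rw [Finset.sum_congr rfl fun k _ => h0 k, ← intervalIntegral.integral_finsetSum]
  · refine intervalIntegral.integral_congr fun v _ => ?_
    unfold ka
    push_cast
    rw [Finset.sum_mul]
    refine Finset.sum_congr rfl fun k _ => ?_
    ring
  · intro k _
    apply Continuous.intervalIntegrable
    fun_prop

lemma lscale {g : ℂ → ℝ≥0∞} (hg : Measurable g) {r : ℝ} (hr : 0 < r) :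
    ∫⁻ z : ℂ, g ((r : ℂ) * z) = ENNReal.ofReal ((r ^ 2)⁻¹) * ∫⁻ z, g z := by
  have h1 := Measure.map_addHaar_smul (volume : Measure ℂ) hr.ne'
  rw [Complex.finrank_real_complex, abs_of_pos (by positivity)] at h1
  have h2 : ∫⁻ z, g z ∂(Measure.map (r • · : ℂ → ℂ) volume) = ∫⁻ z : ℂ, g (r • z) :=
    lintegral_map hg (measurable_const_smul r)
  rw [h1, lintegral_smul_measure] at h2
  simp only [Complex.real_smul] at h2
  rw [← h2]
  rfl

/-- the weight -/
noncomputable def Wt (a m : ℕ) (p : ℝ) (v : ℝ) : ℝ≥0∞ := ENNReal.ofReal (|ka a m v| * v ^ (-(2 / p)))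

lemma Wt_meas (a m : ℕ) (p : ℝ) : Measurable (Wt a m p) := by
  unfold Wt
  have := (ka_cont a m).measurable
  fun_prop

lemma Wt_le (a m : ℕ) {p : ℝ} (hp : 2 ≤ p) :
    ∫⁻ v in Set.Ioc (0:ℝ) 1, Wt a m p v ≤ ENNReal.ofReal (NB a m + 2 / p * NB' a m) := by
  have hp0 : 0 < p := by linarith
  have h1 : NB a m + 2 / p * NB' a m = ∫ v in Set.Ioc (0:ℝ) 1, (|ka a m v| + 2 / p * (2 * |kb a m v|)) := by
    unfold NB NB'
    rw [← intervalIntegral.integral_of_le zero_le_one, ← intervalIntegral.integral_const_mul,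
      ← intervalIntegral.integral_add]
    · exact (ka_cont a m).abs.intervalIntegrable _ _
    · exact (((kb_cont a m).abs.const_mul 2).const_mul (2 / p)).intervalIntegrable _ _
  rw [h1, ofReal_integral_eq_lintegral_ofReal]
  · refine setLIntegral_mono' measurableSet_Ioc fun v hv => ?_
    unfold Wt
    refine ENNReal.ofReal_le_ofReal ?_
    have hv0 : 0 < v := hv.1
    have h2 : v ^ (-(2 / p)) ≤ 1 + 2 / p * (1 / v - 1) := by
      have h3 := rpow_one_add_le_one_add_mul_self (s := 1 / v - 1)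
        (by have : 0 < 1 / v := by positivity
            linarith) (p := 2 / p) (by positivity) (by rw [div_le_one hp0]; exact hp)
      have h4 : (1 + (1 / v - 1)) = v⁻¹ := by rw [one_div]; ring
      rw [h4, Real.inv_rpow hv0.le, ← Real.rpow_neg hv0.le] at h3
      exact h3
    calc |ka a m v| * v ^ (-(2 / p)) ≤ |ka a m v| * (1 + 2 / p * (1 / v - 1)) :=
          mul_le_mul_of_nonneg_left h2 (abs_nonneg _)
      _ = |ka a m v| * (1 - 2 / p) + 2 / p * (|ka a m v| / v) := by ring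
      _ = |ka a m v| * (1 - 2 / p) + 2 / p * (2 * |kb a m v|) := by
          congr 2
          rw [ka_eq, abs_mul, abs_of_pos (by linarith : (0:ℝ) < 2 * v)]
          field_simp
      _ ≤ |ka a m v| * 1 + 2 / p * (2 * |kb a m v|) := by
          have : 0 ≤ 2 / p := by positivity
          gcongr
          linarith
      _ = _ := by rw [mul_one]
  · refine Continuous.integrableOn_Ioc ?_
    exact (ka_cont a m).abs.add (((kb_cont a m).abs.const_mul 2).const_mul (2 / p))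
  · exact Eventually.of_forall fun v => by positivity

lemma jensen {μ : Measure ℝ} {W g : ℝ → ℝ≥0∞} (hW : Measurable W) (hg : Measurable g) {p : ℝ}
    (hp : 1 < p) : (∫⁻ v, W v * g v ∂μ) ^ p ≤ (∫⁻ v, W v ∂μ) ^ (p - 1) * ∫⁻ v, W v * g v ^ p ∂μ := by
  have hp0 : 0 < p := by linarith
  have hpq : p.HolderConjugate (p / (p - 1)) := Real.HolderConjugate.conjExponent hp
  set q := p / (p - 1) with hq
  have hq0 : 0 < q := hpq.symm.pos
  have h1 := ENNReal.lintegral_mul_le_Lp_mul_Lq μ hpq.symm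
    (hW.pow_const (1 / q)).aemeasurable ((hW.pow_const (1 / p)).mul hg).aemeasurable
  have e1 : ∀ v, W v ^ (1 / q) * (W v ^ (1 / p) * g v) = W v * g v := by
    intro v
    rw [← mul_assoc, ← ENNReal.rpow_add_of_nonneg _ _ (by positivity) (by positivity)]
    have : 1 / q + 1 / p = 1 := by
      have := hpq.symm.inv_add_inv_eq_one
      simpa [one_div] using this
    rw [this, ENNReal.rpow_one]
  have e2 : ∀ v, (W v ^ (1 / q)) ^ q = W v := by
    intro v
    rw [← ENNReal.rpow_mul, one_div_mul_cancel hq0.ne', ENNReal.rpow_one]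
  have e3 : ∀ v, (W v ^ (1 / p) * g v) ^ p = W v * g v ^ p := by
    intro v
    rw [ENNReal.mul_rpow_of_nonneg _ _ hp0.le, ← ENNReal.rpow_mul, one_div_mul_cancel hp0.ne',
      ENNReal.rpow_one]
  simp only [Pi.mul_apply, e1, e2, e3] at h1
  have h2 := ENNReal.rpow_le_rpow h1 hp0.le
  rw [ENNReal.mul_rpow_of_nonneg _ _ hp0.le, ← ENNReal.rpow_mul, ← ENNReal.rpow_mul,
    one_div_mul_cancel hp0.ne', ENNReal.rpow_one] at h2
  have h3 : 1 / q * p = p - 1 := by
    rw [hq]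
    have : p - 1 ≠ 0 := by linarith
    field_simp
  rwa [h3] at h2

lemma mink (a m : ℕ) {f : ℂ → ℂ} (hf : Continuous f) {p : ℝ} (hp : 2 ≤ p) :
    ∫⁻ z, ‖∫ v in (0:ℝ)..1, ((ka a m v : ℝ) : ℂ) * f ((v : ℂ) * z)‖ₑ ^ p ≤
      ENNReal.ofReal (NB a m + 2 / p * NB' a m) ^ p * ∫⁻ z, ‖f z‖ₑ ^ p := by
  have hp0 : 0 < p := by linarith
  set μ : Measure ℝ := volume.restrict (Set.Ioc (0:ℝ) 1) with hμ
  set g : ℂ → ℝ → ℝ≥0∞ := fun z v => ENNReal.ofReal (v ^ (2 / p)) * ‖f ((v : ℂ) * z)‖ₑ with hg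
  have hgm : Measurable (Function.uncurry g) := by
    rw [hg]
    have : Continuous fun x : ℂ × ℝ => f ((x.2 : ℂ) * x.1) := by fun_prop
    have h2 := this.enorm.measurable
    refine Measurable.mul ?_ h2
    fun_prop
  have h1 : ∀ z, ‖∫ v in (0:ℝ)..1, ((ka a m v : ℝ) : ℂ) * f ((v : ℂ) * z)‖ₑ ^ p ≤
      (∫⁻ v, Wt a m p v ∂μ) ^ (p - 1) * ∫⁻ v, Wt a m p v * g z v ^ p ∂μ := by
    intro z
    refine le_trans (ENNReal.rpow_le_rpow ?_ hp0.le)
      (jensen (Wt_meas a m p) (hgm.comp measurable_prodMk_left) (by linarith))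
    rw [intervalIntegral.integral_of_le zero_le_one]
    refine (enorm_integral_le_lintegral_enorm _).trans (le_of_eq ?_)
    refine setLIntegral_congr_fun measurableSet_Ioc fun v hv => ?_
    have hv0 : 0 < v := hv.1
    show ‖((ka a m v : ℝ) : ℂ) * f ((v : ℂ) * z)‖ₑ =
      ENNReal.ofReal (|ka a m v| * v ^ (-(2 / p))) * (ENNReal.ofReal (v ^ (2 / p)) * ‖f ((v : ℂ) * z)‖ₑ)
    rw [enorm_mul, ← mul_assoc, ← ENNReal.ofReal_mul (by positivity), mul_assoc (|ka a m v|),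
      ← Real.rpow_add hv0, neg_add_cancel, Real.rpow_zero, mul_one]
    congr 1
    rw [← ofReal_norm, Complex.norm_real, Real.norm_eq_abs]
  have h2 : ∫⁻ z, (∫⁻ v, Wt a m p v ∂μ) ^ (p - 1) * ∫⁻ v, Wt a m p v * g z v ^ p ∂μ =
      (∫⁻ v, Wt a m p v ∂μ) ^ p * ∫⁻ z, ‖f z‖ₑ ^ p := by
    have hm2 : Measurable (Function.uncurry fun (z : ℂ) (v : ℝ) => Wt a m p v * g z v ^ p) :=
      ((Wt_meas a m p).comp measurable_snd).mul (hgm.pow_const p)
    have hm5 : Measurable fun z => ∫⁻ v, Wt a m p v * g z v ^ p ∂μ := hm2.lintegral_prod_right'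
    rw [lintegral_const_mul _ hm5, lintegral_lintegral_swap hm2.aemeasurable]
    have h3 : ∀ v ∈ Set.Ioc (0:ℝ) 1, ∫⁻ z, Wt a m p v * g z v ^ p = Wt a m p v * ∫⁻ z, ‖f z‖ₑ ^ p := by
      intro v hv
      have hv0 : 0 < v := hv.1
      have hfm : Measurable fun z => ‖f z‖ₑ ^ p := hf.enorm.measurable.pow_const p
      have hm3 : Measurable fun z => g z v ^ p := (hgm.comp measurable_prodMk_right).pow_const p
      rw [lintegral_const_mul _ hm3]
      congr 1
      have e : ∀ z, g z v ^ p = ENNReal.ofReal (v ^ 2) * ‖f ((v : ℂ) * z)‖ₑ ^ p := by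
        intro z
        rw [hg]
        simp only
        rw [ENNReal.mul_rpow_of_nonneg _ _ hp0.le, ENNReal.ofReal_rpow_of_pos (by positivity),
          ← Real.rpow_mul hv0.le, div_mul_cancel₀ _ hp0.ne', Real.rpow_two]
      simp only [e]
      have hm4 : Measurable fun z : ℂ => ‖f ((v : ℂ) * z)‖ₑ ^ p := hfm.comp (measurable_const_mul _)
      rw [lintegral_const_mul _ hm4, lscale hfm hv0, ← mul_assoc, ← ENNReal.ofReal_mul (by positivity),
        mul_inv_cancel₀ (by positivity), ENNReal.ofReal_one, one_mul]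
    rw [hμ, setLIntegral_congr_fun measurableSet_Ioc h3, lintegral_mul_const _ (Wt_meas a m p), ← mul_assoc]
    congr 1
    have h5 : ∀ x : ℝ≥0∞, x ^ (p - 1) * x = x ^ p := by
      intro x
      conv_lhs => rw [← ENNReal.rpow_one x, ← ENNReal.rpow_mul, one_mul]
      rw [← ENNReal.rpow_add_of_nonneg _ _ (by linarith) zero_le_one, sub_add_cancel]
    exact h5 _
  calc _ ≤ ∫⁻ z, (∫⁻ v, Wt a m p v ∂μ) ^ (p - 1) * ∫⁻ v, Wt a m p v * g z v ^ p ∂μ := lintegral_mono h1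
    _ = _ := h2
    _ ≤ _ := by
        gcongr
        exact Wt_le a m hp

theorem bo_p (a m : ℕ) {p : ℝ} (hp : 2 ≤ p) :
    RTg.Bo (fun f : 𝓢(ℂ, ℂ) => FF a m f) p (1 + (NB a m + 2 / p * NB' a m)) := by
  intro f
  have hp0 : 0 < p := by linarith
  have hN : 0 ≤ NB a m + 2 / p * NB' a m := by
    have := NB_nonneg a m
    have := NB'_nonneg a m
    positivity
  have hc : Continuous fun z : ℂ => ∫ v in (0:ℝ)..1, ((ka a m v : ℝ) : ℂ) * f ((v : ℂ) * z) := by
    refine intervalIntegral.continuous_parametric_intervalIntegral_of_continuous' ?_ 0 1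
    have := ka_cont a m
    fun_prop
  have h1 := mink a m f.continuous hp
  have h2 := ENNReal.lintegral_Lp_add_le (μ := volume) (f := fun z => ‖f z‖ₑ)
    (g := fun z => ‖∫ v in (0:ℝ)..1, ((ka a m v : ℝ) : ℂ) * f ((v : ℂ) * z)‖ₑ) (p := p)
    f.continuous.enorm.measurable.aemeasurable hc.enorm.measurable.aemeasurable (by linarith)
  have h3 : ∀ z, ‖FF a m f z‖ₑ ≤ ((fun z => ‖f z‖ₑ) +
      fun z => ‖∫ v in (0:ℝ)..1, ((ka a m v : ℝ) : ℂ) * f ((v : ℂ) * z)‖ₑ) z := by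
    intro z
    rw [FF_eq a m f.continuous]
    exact enorm_sub_le
  have h4 : (∫⁻ z, ‖FF a m f z‖ₑ ^ p) ^ (1 / p) ≤
      ENNReal.ofReal (1 + (NB a m + 2 / p * NB' a m)) * (∫⁻ z, ‖f z‖ₑ ^ p) ^ (1 / p) := by
    calc (∫⁻ z, ‖FF a m f z‖ₑ ^ p) ^ (1 / p) ≤ _ :=
          ENNReal.rpow_le_rpow (lintegral_mono fun z => ENNReal.rpow_le_rpow (h3 z) hp0.le) (by positivity)
      _ ≤ _ := h2
      _ ≤ (∫⁻ z, ‖f z‖ₑ ^ p) ^ (1 / p) +
          (ENNReal.ofReal (NB a m + 2 / p * NB' a m) ^ p * ∫⁻ z, ‖f z‖ₑ ^ p) ^ (1 / p) := by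
          gcongr
      _ = _ := by
          rw [ENNReal.mul_rpow_of_nonneg _ _ (by positivity), ← ENNReal.rpow_mul,
            mul_one_div_cancel hp0.ne', ENNReal.rpow_one, ENNReal.ofReal_add zero_le_one hN,
            ENNReal.ofReal_one, add_mul, one_mul]
  have h5 := ENNReal.rpow_le_rpow h4 hp0.le
  rwa [← ENNReal.rpow_mul, one_div_mul_cancel hp0.ne', ENNReal.rpow_one,
    ENNReal.mul_rpow_of_nonneg _ _ hp0.le, ← ENNReal.rpow_mul, one_div_mul_cancel hp0.ne',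
    ENNReal.rpow_one] at h5

end Pool.Agent.Run7.h695.BT
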