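import Pool.Agent.Run7.h695.BT.Rot
import Pool.Agent.Run7.h695.BT.Interp

/-!
# Several angular types: the operator (helper695)
-/

set_option autoImplicit false

open Finset MeasureTheory Filter Topology
open scoped SchwartzMap ComplexConjugate ENNReal

namespace Pool.Agent.Run7.h695.BT

/-- interpolation between `2` and `∞` -/
theorem interp_gen {T : 𝓢(ℂ, ℂ) → ℂ → ℂ} (hT : RTg.Lin T) (h2 : RTg.Bo T 2 1) {C B' : ℝ} (hC : 0 < C)
    (hB' : 0 ≤ B') (hP : ∀ P : ℝ, 2 < P → RTg.Bo T P (C + 2 / P * B')) {p : ℝ} (hp : 2 ≤ p) :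
    RTg.Bo T p (C ^ (1 - 2 / p)) := by
  rcases hp.eq_or_lt with h | h
  · subst h
    have e : (1 : ℝ) - 2 / 2 = 0 := by norm_num
    rw [e, Real.rpow_zero]
    exact h2
  have hp0 : 0 < p := by linarith
  intro f
  set P : ℕ → ℝ := fun N => p + 1 + N with hPd
  have hPp : ∀ N, p < P N := fun N => by
    have : (0:ℝ) ≤ N := Nat.cast_nonneg N
    rw [hPd]; simp only; linarith
  set θ : ℕ → ℝ := fun N => (1 / 2 - 1 / p) / (1 / 2 - 1 / P N) with hθ
  set K : ℕ → ℝ := fun N => (C + 2 / P N * B') with hK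
  have hPlim : Tendsto P atTop atTop := by
    rw [hPd]
    exact tendsto_atTop_add_const_left _ _ tendsto_natCast_atTop_atTop
  have hinv : Tendsto (fun N => 1 / P N) atTop (𝓝 0) := by
    simp only [one_div]
    exact tendsto_inv_atTop_zero.comp hPlim
  have hKlim : Tendsto K atTop (𝓝 C) := by
    have h1 : Tendsto (fun N => C + 2 * (1 / P N) * B') atTop (𝓝 (C + 2 * 0 * B')) :=
      tendsto_const_nhds.add ((hinv.const_mul 2).mul_const _)
    rw [mul_zero, zero_mul, add_zero] at h1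
    refine h1.congr fun N => ?_
    rw [hK]
    simp only
    ring
  have hθlim : Tendsto θ atTop (𝓝 (1 - 2 / p)) := by
    have h1 : Tendsto (fun N => (1 / 2 - 1 / p) / (1 / 2 - 1 / P N)) atTop
        (𝓝 ((1 / 2 - 1 / p) / (1 / 2 - 0))) :=
      tendsto_const_nhds.div (tendsto_const_nhds.sub hinv) (by norm_num)
    have e : (1 / 2 - 1 / p) / (1 / 2 - 0) = 1 - 2 / p := by
      field_simp
      ring
    rwa [e] at h1
  have hlim : Tendsto (fun N => (1:ℝ) ^ (1 - θ N) * K N ^ θ N) atTop (𝓝 (C ^ (1 - 2 / p))) := by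
    simp only [Real.one_rpow, one_mul]
    exact hKlim.rpow hθlim (Or.inl hC.ne')
  have hb : ∀ N, ∫⁻ x, ‖T f x‖ₑ ^ p ≤
      ENNReal.ofReal ((1:ℝ) ^ (1 - θ N) * K N ^ θ N) ^ p * ∫⁻ x, ‖f x‖ₑ ^ p := by
    intro N
    have hP2 : 2 < P N := h.trans (hPp N)
    have h0 : 0 < P N := by linarith
    have e1 : 1 / P N < 1 / 2 := one_div_lt_one_div_of_lt (by norm_num) hP2
    have hth : 1 / p = (1 - θ N) / 2 + θ N / P N := by
      rw [hθ]
      simp only
      have : (1 / 2 - 1 / P N) ≠ 0 := by linarith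
      have h3 : (1 / 2 - 1 / p) / (1 / 2 - 1 / P N) * (1 / 2 - 1 / P N) = 1 / 2 - 1 / p :=
        div_mul_cancel₀ _ this
      have h4 : (1 - (1 / 2 - 1 / p) / (1 / 2 - 1 / P N)) / 2 + (1 / 2 - 1 / p) / (1 / 2 - 1 / P N) / P N =
        1 / 2 - (1 / 2 - 1 / p) / (1 / 2 - 1 / P N) * (1 / 2 - 1 / P N) := by ring
      rw [h4, h3]
      ring
    have hKpos : 0 < K N := by
      rw [hK]
      simp only
      have : 0 ≤ 2 / P N * B' := by positivity
      linarith
    exact RTg.main hT (p₀ := 2) (p₁ := P N) (p := p) (θ := θ N) (K₀ := 1) (K₁ := K N)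
      le_rfl h (hPp N) hth one_pos hKpos h2 (hP _ hP2) f
  have hC0 : 0 < C ^ (1 - 2 / p) := Real.rpow_pos_of_pos hC _
  have hfin : Tendsto (fun N => ENNReal.ofReal ((1:ℝ) ^ (1 - θ N) * K N ^ θ N) ^ p * ∫⁻ x, ‖f x‖ₑ ^ p)
      atTop (𝓝 (ENNReal.ofReal (C ^ (1 - 2 / p)) ^ p * ∫⁻ x, ‖f x‖ₑ ^ p)) := by
    refine ENNReal.Tendsto.mul_const ?_ (Or.inl ?_)
    · exact ((ENNReal.continuous_rpow_const (y := p)).tendsto _).comp (ENNReal.tendsto_ofReal hlim)
    · have : ENNReal.ofReal (C ^ (1 - 2 / p)) ≠ 0 := by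
        rw [Ne, ENNReal.ofReal_eq_zero, not_le]; exact hC0
      exact (ENNReal.rpow_pos (pos_iff_ne_zero.2 this) ENNReal.ofReal_ne_top).ne'
  exact ge_of_tendsto' hfin hb

/-- the operator -/
noncomputable def UU (S : Finset ℤ) (A M : ℤ → ℕ) (f : ℂ → ℂ) (z : ℂ) : ℂ :=
  ∑ j ∈ S, FF (A j) (M j) (Pr j f) z

lemma FF_add (a m : ℕ) {f g : ℂ → ℂ} (hf : Continuous f) (hg : Continuous g) (z : ℂ) :
    FF a m (fun w => f w + g w) z = FF a m f z + FF a m g z := by
  unfold FF
  simp only [yk_add _ hf hg, mul_add, Finset.sum_add_distrib]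
  ring

lemma FF_smul (a m : ℕ) (c : ℂ) (f : ℂ → ℂ) (z : ℂ) : FF a m (fun w => c * f w) z = c * FF a m f z := by
  unfold FF
  simp only [yk_smul]
  rw [mul_sub, Finset.mul_sum]
  congr 1
  refine Finset.sum_congr rfl fun k _ => ?_
  ring

lemma Pr_int (j : ℤ) {f : ℂ → ℂ} (hf : Continuous f) (z : ℂ) :
    IntervalIntegrable (fun x : ℝ => ex (-(j * x)) * f (ex x * z)) volume 0 1 := by
  apply Continuous.intervalIntegrable
  have := ex_cont
  fun_prop

lemma Pr_add (j : ℤ) {f g : ℂ → ℂ} (hf : Continuous f) (hg : Continuous g) :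
    Pr j (fun w => f w + g w) = fun z => Pr j f z + Pr j g z := by
  funext z
  unfold Pr
  rw [← intervalIntegral.integral_add (Pr_int j hf z) (Pr_int j hg z)]
  refine intervalIntegral.integral_congr fun x _ => ?_
  show _ * (_ + _) = _
  ring

lemma Pr_smul (j : ℤ) (c : ℂ) (f : ℂ → ℂ) : Pr j (fun w => c * f w) = fun z => c * Pr j f z := by
  funext z
  unfold Pr
  rw [← intervalIntegral.integral_const_mul]
  refine intervalIntegral.integral_congr fun x _ => ?_
  show _ * (c * _) = _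
  ring

lemma UU_dec (S : Finset ℤ) (A M : ℤ → ℕ) {f : ℂ → ℂ} (hf : Dec2 f) : Dec (UU S A M f) :=
  Dec_sum S (fun j => FF (A j) (M j) (Pr j f)) fun _ _ => FF_dec _ _ (Pr_dec hf)

theorem UU_lin (S : Finset ℤ) (A M : ℤ → ℕ) : RTg.Lin (fun f : 𝓢(ℂ, ℂ) => UU S A M f) where
  add f g z := by
    show UU S A M (fun w => f w + g w) z = _
    unfold UU
    rw [← Finset.sum_add_distrib]
    refine Finset.sum_congr rfl fun j _ => ?_
    rw [Pr_add j f.continuous g.continuous, FF_add _ _ (Pr_cont f.continuous) (Pr_cont g.continuous)]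
  smul c f z := by
    show UU S A M (fun w => c * f w) z = c * UU S A M f z
    unfold UU
    rw [Finset.mul_sum]
    refine Finset.sum_congr rfl fun j _ => ?_
    rw [Pr_smul, FF_smul]
  cont f := (UU_dec S A M (sch_dec2 f)).1

lemma FF_Ty {j : ℤ} {f : ℂ → ℂ} (hf : Ty j f) (a m : ℕ) : Ty j (FF a m f) := by
  intro b z hb
  have h1 : ∀ k, yk k f (b * z) = b ^ j * yk k f z := by
    intro k
    unfold yk
    rw [← intervalIntegral.integral_const_mul]
    refine intervalIntegral.integral_congr fun v _ => ?_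
    have : (v : ℂ) * (b * z) = b * ((v : ℂ) * z) := by ring
    rw [this, hf b _ hb]
    ring
  unfold FF
  simp only [h1, hf b z hb]
  rw [mul_sub, Finset.mul_sum]
  congr 1
  refine Finset.sum_congr rfl fun k _ => ?_
  ring

/-- sums of functions of different types -/
lemma sum_orth (S : Finset ℤ) (g : ℤ → ℂ → ℂ) (hd : ∀ j ∈ S, Dec (g j)) (ht : ∀ j ∈ S, Ty j (g j)) :
    ∫ z, (∑ j ∈ S, g j z) * conj (∑ j ∈ S, g j z) = ∑ j ∈ S, ∫ z, g j z * conj (g j z) := by
  have h1 : ∀ z, (∑ j ∈ S, g j z) * conj (∑ j ∈ S, g j z) = ∑ i ∈ S, ∑ j ∈ S, g i z * conj (g j z) := by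
    intro z
    rw [map_sum, Finset.sum_mul_sum]
  have hint : ∀ i ∈ S, ∀ j ∈ S, Integrable (fun z => g i z * conj (g j z)) := fun i hi j hj =>
    ((hd i hi).mul (hd j hj).conj).int
  simp only [h1]
  rw [integral_finsetSum _ fun i hi => integrable_finsetSum _ fun j hj => hint i hi j hj]
  refine Finset.sum_congr rfl fun i hi => ?_
  rw [integral_finsetSum _ fun j hj => hint i hi j hj]
  rw [Finset.sum_eq_single i]
  · intro j hj hji
    exact orth hji.symm (ht i hi) (ht j hj)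
  · intro h
    exact absurd hi h

/-- Bessel's inequality and the isometries -/
theorem UU_two (S : Finset ℤ) (A M : ℤ → ℕ) : RTg.Bo (fun f : 𝓢(ℂ, ℂ) => UU S A M f) 2 1 := by
  intro f
  have hf := sch_dec2 f
  rw [ENNReal.ofReal_one, ENNReal.one_rpow, one_mul, sq_int (UU_dec S A M hf), sq_int hf.dec]
  refine ENNReal.ofReal_le_ofReal ?_
  have e1 : ∫ z, UU S A M f z * conj (UU S A M f z) = ∑ j ∈ S, ∫ z, Pr j f z * conj (Pr j f z) := by
    unfold UU
    rw [sum_orth S (fun j => FF (A j) (M j) (Pr j f)) (fun j _ => FF_dec _ _ (Pr_dec hf))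
      (fun j _ => FF_Ty (Pr_type j f) _ _)]
    exact Finset.sum_congr rfl fun j _ => iso _ _ (Pr_dec hf)
  rw [e1]
  set N : ℤ → ℂ := fun j => ∫ z, Pr j f z * conj (Pr j f z) with hN
  have dP : ∀ j, Dec (Pr j f) := fun j => (Pr_dec hf).dec
  set q : ℂ → ℂ := fun z => ∑ j ∈ S, Pr j f z with hq
  have hqd : Dec q := Dec_sum S (fun j => Pr j f) fun j _ => dP j
  have e2 : ∫ z, q z * conj (q z) = ∑ j ∈ S, N j :=
    sum_orth S (fun j => Pr j f) (fun j _ => dP j) (fun j _ => Pr_type j f)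
  have e3 : ∫ z, f z * conj (q z) = ∑ j ∈ S, N j := by
    have h1 : ∀ z, f z * conj (q z) = ∑ j ∈ S, f z * conj (Pr j f z) := by
      intro z
      rw [hq]
      simp only
      rw [map_sum, Finset.mul_sum]
    simp only [h1]
    rw [integral_finsetSum _ fun j _ => (hf.dec.mul (dP j).conj).int]
    refine Finset.sum_congr rfl fun j _ => ?_
    rw [hN]
    simp only
    rw [Pr_pair hf (Pr_dec hf) (Pr_type j f)]
  have e4 : ∫ z, q z * conj (f z) = conj (∑ j ∈ S, N j) := by
    rw [← e3, ← integral_conj]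
    refine integral_congr_ae (Eventually.of_forall fun z => ?_)
    simp only
    rw [map_mul, Complex.conj_conj]
    ring
  have hfq : Dec (fun z => f z + (-1) * q z) := hf.dec.add (hqd.smul (-1))
  have e5 : ∫ z, (f z + (-1) * q z) * conj (f z + (-1) * q z) =
      (∫ z, f z * conj (f z)) - (∑ j ∈ S, N j) - conj (∑ j ∈ S, N j) + ∑ j ∈ S, N j := by
    have h1 : ∀ z, (f z + (-1) * q z) * conj (f z + (-1) * q z) =
        f z * conj (f z) - f z * conj (q z) - q z * conj (f z) + q z * conj (q z) := by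
      intro z
      rw [map_add, map_mul, map_neg, map_one]
      ring
    simp only [h1]
    rw [int4 (hf.dec.mul hf.dec.conj).int (hf.dec.mul hqd.conj).int (hqd.mul hf.dec.conj).int
      (hqd.mul hqd.conj).int, e2, e3, e4]
  have h6 : ∀ z, (f z + (-1) * q z) * conj (f z + (-1) * q z) = ((‖f z + (-1) * q z‖ ^ 2 : ℝ) : ℂ) := by
    intro z
    rw [Complex.mul_conj, Complex.normSq_eq_norm_sq]
  have h7 : 0 ≤ (∫ z, (f z + (-1) * q z) * conj (f z + (-1) * q z)).re := by
    have h8 : ∫ z, (f z + (-1) * q z) * conj (f z + (-1) * q z) =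
        ((∫ z, ‖f z + (-1) * q z‖ ^ 2 : ℝ) : ℂ) := by
      rw [← integral_complex_ofReal]
      exact integral_congr_ae (Eventually.of_forall h6)
    rw [h8, Complex.ofReal_re]
    exact integral_nonneg fun z => by positivity
  rw [e5] at h7
  simp only [Complex.add_re, Complex.sub_re, Complex.conj_re] at h7
  linarith

end Pool.Agent.Run7.h695.BT
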