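import Pool.Agent.Run7.h695.BT.OpR

/-!
# The operator on all types (helper695)
-/

set_option autoImplicit false

open Finset MeasureTheory Filter Topology
open scoped SchwartzMap ComplexConjugate ENNReal

namespace Pool.Agent.Run7.h695.BT

/-- one component -/
noncomputable def OO (S2 : Finset ℤ) (A M : ℤ → ℕ) (j : ℤ) (f : ℂ → ℂ) (z : ℂ) : ℂ :=
  if j ∈ S2 then RR (A j) (M j) f z else FF (A j) (M j) f z

lemma OO_dec (S2 : Finset ℤ) (A M : ℤ → ℕ) (j : ℤ) {f : ℂ → ℂ} (hf : Dec2 f) : Dec (OO S2 A M j f) := by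
  by_cases h : j ∈ S2
  · have e : OO S2 A M j f = RR (A j) (M j) f := by
      funext z
      unfold OO
      rw [if_pos h]
    rw [e]
    exact (RR_dec _ _ hf).dec
  · have e : OO S2 A M j f = FF (A j) (M j) f := by
      funext z
      unfold OO
      rw [if_neg h]
    rw [e]
    exact FF_dec _ _ hf

lemma OO_Ty (S2 : Finset ℤ) (A M : ℤ → ℕ) (j : ℤ) {f : ℂ → ℂ} (hf : Ty j f) : Ty j (OO S2 A M j f) := by
  by_cases h : j ∈ S2
  · have e : OO S2 A M j f = RR (A j) (M j) f := by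
      funext z
      unfold OO
      rw [if_pos h]
    rw [e]
    exact RR_Ty hf _ _
  · have e : OO S2 A M j f = FF (A j) (M j) f := by
      funext z
      unfold OO
      rw [if_neg h]
    rw [e]
    exact FF_Ty hf _ _

lemma OO_two {S2 : Finset ℤ} {A : ℤ → ℕ} (M : ℤ → ℕ) (hA : ∀ j ∈ S2, 1 ≤ A j) (j : ℤ) {f : ℂ → ℂ}
    (hf : Dec2 f) : (∫ z, OO S2 A M j f z * conj (OO S2 A M j f z)).re ≤ (∫ z, f z * conj (f z)).re := by
  by_cases h : j ∈ S2
  · have e : OO S2 A M j f = RR (A j) (M j) f := by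
      funext z
      unfold OO
      rw [if_pos h]
    rw [e]
    exact RR_two (hA j h) _ hf
  · have e : OO S2 A M j f = FF (A j) (M j) f := by
      funext z
      unfold OO
      rw [if_neg h]
    rw [e, iso _ _ hf]

lemma OO_add (S2 : Finset ℤ) (A M : ℤ → ℕ) (j : ℤ) {f g : ℂ → ℂ} (hf : Dec2 f) (hg : Dec2 g) (z : ℂ) :
    OO S2 A M j (fun w => f w + g w) z = OO S2 A M j f z + OO S2 A M j g z := by
  unfold OO
  by_cases h : j ∈ S2
  · simp only [if_pos h]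
    exact RR_add _ _ hf hg z
  · simp only [if_neg h]
    exact FF_add _ _ hf.1 hg.1 z

lemma OO_smul (S2 : Finset ℤ) (A M : ℤ → ℕ) (j : ℤ) (c : ℂ) (f : ℂ → ℂ) (z : ℂ) :
    OO S2 A M j (fun w => c * f w) z = c * OO S2 A M j f z := by
  unfold OO
  by_cases h : j ∈ S2
  · simp only [if_pos h]
    exact RR_smul _ _ c f z
  · simp only [if_neg h]
    exact FF_smul _ _ c f z

/-- the operator -/
noncomputable def VV (S S2 : Finset ℤ) (A M : ℤ → ℕ) (f : ℂ → ℂ) (z : ℂ) : ℂ :=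
  ∑ j ∈ S, OO S2 A M j (Pr j f) z

lemma VV_dec (S S2 : Finset ℤ) (A M : ℤ → ℕ) {f : ℂ → ℂ} (hf : Dec2 f) : Dec (VV S S2 A M f) :=
  Dec_sum S (fun j => OO S2 A M j (Pr j f)) fun _ _ => OO_dec _ _ _ _ (Pr_dec hf)

theorem VV_lin (S S2 : Finset ℤ) (A M : ℤ → ℕ) : RTg.Lin (fun f : 𝓢(ℂ, ℂ) => VV S S2 A M f) where
  add f g z := by
    show VV S S2 A M (fun w => f w + g w) z = _
    unfold VV
    rw [← Finset.sum_add_distrib]
    refine Finset.sum_congr rfl fun j _ => ?_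
    rw [Pr_add j f.continuous g.continuous, OO_add _ _ _ _ (Pr_dec (sch_dec2 f)) (Pr_dec (sch_dec2 g))]
  smul c f z := by
    show VV S S2 A M (fun w => c * f w) z = c * VV S S2 A M f z
    unfold VV
    rw [Finset.mul_sum]
    refine Finset.sum_congr rfl fun j _ => ?_
    rw [Pr_smul, OO_smul]
  cont f := (VV_dec S S2 A M (sch_dec2 f)).1

/-- the operator is a contraction of `L ^ 2` -/
theorem VV_two (S : Finset ℤ) {S2 : Finset ℤ} {A : ℤ → ℕ} (M : ℤ → ℕ) (hA : ∀ j ∈ S2, 1 ≤ A j) :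
    RTg.Bo (fun f : 𝓢(ℂ, ℂ) => VV S S2 A M f) 2 1 := by
  intro f
  have hf := sch_dec2 f
  rw [ENNReal.ofReal_one, ENNReal.one_rpow, one_mul, sq_int (VV_dec S S2 A M hf), sq_int hf.dec]
  refine ENNReal.ofReal_le_ofReal ?_
  set N : ℤ → ℂ := fun j => ∫ z, Pr j f z * conj (Pr j f z) with hN
  have e1 : (∫ z, VV S S2 A M f z * conj (VV S S2 A M f z)).re ≤ (∑ j ∈ S, N j).re := by
    unfold VV
    rw [sum_orth S (fun j => OO S2 A M j (Pr j f)) (fun j _ => OO_dec _ _ _ _ (Pr_dec hf))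
      (fun j _ => OO_Ty _ _ _ _ (Pr_type j f)), Complex.re_sum, Complex.re_sum]
    exact Finset.sum_le_sum fun j _ => OO_two M hA j (Pr_dec hf)
  refine e1.trans ?_
  have dP : ∀ j, Dec (Pr j f) := fun j => (Pr_dec hf).dec
  set q : ℂ → ℂ := fun z => ∑ j ∈ S, Pr j f z with hq
  have hqd : Dec q := Dec_sum S (fun j => Pr j f) fun j _ => dP j
  have e2 : ∫ z, q z * conj (q z) = ∑ j ∈ S, N j :=
    sum_orth S (fun j => Pr j f) (fun j _ => dP j) (fun j _ => Pr_type j f)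
  have e3 : ∫ z, f z * conj (q z) = ∑ j ∈ S, N j := by
    have h1 : ∀ z, f z * conj (q z) = ∑ j ∈ S, f z * conj (Pr j f z) := by
      intro z
      rw [hq]
      simp only
      rw [map_sum, Finset.mul_sum]
    simp only [h1]
    rw [integral_finsetSum _ fun j _ => (hf.dec.mul (dP j).conj).int]
    refine Finset.sum_congr rfl fun j _ => ?_
    rw [hN]
    simp only
    rw [Pr_pair hf (Pr_dec hf) (Pr_type j f)]
  have e4 : ∫ z, q z * conj (f z) = conj (∑ j ∈ S, N j) := by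
    rw [← e3, ← integral_conj]
    refine integral_congr_ae (Eventually.of_forall fun z => ?_)
    simp only
    rw [map_mul, Complex.conj_conj]
    ring
  have hfq : Dec (fun z => f z + (-1) * q z) := hf.dec.add (hqd.smul (-1))
  have e5 : ∫ z, (f z + (-1) * q z) * conj (f z + (-1) * q z) =
      (∫ z, f z * conj (f z)) - (∑ j ∈ S, N j) - conj (∑ j ∈ S, N j) + ∑ j ∈ S, N j := by
    have h1 : ∀ z, (f z + (-1) * q z) * conj (f z + (-1) * q z) =
        f z * conj (f z) - f z * conj (q z) - q z * conj (f z) + q z * conj (q z) := by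
      intro z
      rw [map_add, map_mul, map_neg, map_one]
      ring
    simp only [h1]
    rw [int4 (hf.dec.mul hf.dec.conj).int (hf.dec.mul hqd.conj).int (hqd.mul hf.dec.conj).int
      (hqd.mul hqd.conj).int, e2, e3, e4]
  have h6 : ∀ z, (f z + (-1) * q z) * conj (f z + (-1) * q z) = ((‖f z + (-1) * q z‖ ^ 2 : ℝ) : ℂ) := by
    intro z
    rw [Complex.mul_conj, Complex.normSq_eq_norm_sq]
  have h7 : 0 ≤ (∫ z, (f z + (-1) * q z) * conj (f z + (-1) * q z)).re := by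
    have h8 : ∫ z, (f z + (-1) * q z) * conj (f z + (-1) * q z) =
        ((∫ z, ‖f z + (-1) * q z‖ ^ 2 : ℝ) : ℂ) := by
      rw [← integral_complex_ofReal]
      exact integral_congr_ae (Eventually.of_forall h6)
    rw [h8, Complex.ofReal_re]
    exact integral_nonneg fun z => by positivity
  rw [e5] at h7
  simp only [Complex.add_re, Complex.sub_re, Complex.conj_re] at h7
  linarith

/-- the sum of the projections -/
lemma sumPr (S : Finset ℤ) {f : ℂ → ℂ} (hf : Continuous f) (z : ℂ) :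
    ∫ x, Fc S (fun _ => 1) x * f (ex x * z) ∂mu1 = ∑ j ∈ S, Pr j f z := by
  have hPr : ∀ (j : ℤ) (w : ℂ), Pr j f w = ∫ x, ex (-(j * x)) * f (ex x * w) ∂mu1 := by
    intro j w
    unfold Pr
    rw [intervalIntegral.integral_of_le zero_le_one]
  have hexc := ex_cont
  have i1 : ∀ j ∈ S, Integrable (fun x : ℝ => ex (-(j * x)) * f (ex x * z)) mu1 := fun j _ => by
    apply Continuous.integrableOn_Ioc
    fun_prop
  rw [Finset.sum_congr rfl fun j _ => hPr j z, ← integral_finsetSum _ i1]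
  refine integral_congr_ae (Eventually.of_forall fun x => ?_)
  simp only
  unfold Fc
  rw [Finset.sum_mul]
  refine Finset.sum_congr rfl fun j _ => ?_
  rw [Complex.ofReal_one, one_mul]

/-- the kernel of the exterior part -/
noncomputable def kH (S : Finset ℤ) (A M : ℤ → ℕ) (y : ℝ × ℝ) : ℂ :=
  ∑ j ∈ S, ((kh (A j) (M j) y.1 : ℝ) : ℂ) * ex (-(j * y.2))

lemma kH_cont (S : Finset ℤ) (A M : ℤ → ℕ) : Continuous (kH S A M) := by
  unfold kH
  have := ex_cont
  have := fun j => kh_cont (A j) (M j)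
  fun_prop

lemma kH_eq (S : Finset ℤ) (A M : ℤ → ℕ) (y : ℝ × ℝ) :
    kH S A M y = Fc S (fun j => kh (A j) (M j) y.1) y.2 := rfl

lemma sumRK (S : Finset ℤ) (A M : ℤ → ℕ) {f : ℂ → ℂ} (hf : Dec2 f) (z : ℂ) :
    ∫ y, kH S A M y * f (((y.1 : ℂ)⁻¹ * ex y.2) * z) ∂(mu1.prod mu1) =
      ∑ j ∈ S, RK (kh (A j) (M j)) (Pr j f) z := by
  have hPr : ∀ (j : ℤ) (w : ℂ), Pr j f w = ∫ x, ex (-(j * x)) * f (ex x * w) ∂mu1 := by
    intro j w
    unfold Pr
    rw [intervalIntegral.integral_of_le zero_le_one]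
  have hexc := ex_cont
  obtain ⟨hf1, C, hf2⟩ := hf
  have i2 : ∀ j ∈ S, Integrable (fun y : ℝ × ℝ =>
      (((kh (A j) (M j) y.1 : ℝ) : ℂ) * ex (-(j * y.2))) * f (((y.1 : ℂ)⁻¹ * ex y.2) * z)) (mu1.prod mu1) := by
    intro j _
    have hk := kh_cont (A j) (M j)
    have hki : Integrable (fun v => |kh (A j) (M j) v|) mu1 := hk.abs.integrableOn_Ioc
    have hb : Integrable (fun x : ℝ × ℝ => |kh (A j) (M j) x.1| * C) (mu1.prod mu1) :=
      hki.mul_prod (integrable_const C)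
    refine hb.mono' ?_ (Eventually.of_forall fun x => ?_)
    · have m1 : Measurable fun y : ℝ × ℝ => f (((y.1 : ℂ)⁻¹ * ex y.2) * z) :=
        hf1.measurable.comp (((Complex.measurable_ofReal.comp measurable_fst).inv.mul
          (hexc.measurable.comp measurable_snd)).mul_const z)
      have m2 : Continuous fun y : ℝ × ℝ => ((kh (A j) (M j) y.1 : ℝ) : ℂ) * ex (-(j * y.2)) := by
        fun_prop
      exact (m2.measurable.mul m1).aestronglyMeasurable
    · rw [norm_mul, norm_mul, Complex.norm_real, Real.norm_eq_abs, ex_norm, mul_one]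
      exact mul_le_mul_of_nonneg_left (Dec2.bdd hf2 _) (abs_nonneg _)
  have h1 : ∀ j ∈ S, RK (kh (A j) (M j)) (Pr j f) z =
      ∫ y, (((kh (A j) (M j) y.1 : ℝ) : ℂ) * ex (-(j * y.2))) * f (((y.1 : ℂ)⁻¹ * ex y.2) * z)
        ∂(mu1.prod mu1) := by
    intro j hj
    unfold RK
    rw [integral_prod _ (i2 j hj), intervalIntegral.integral_of_le zero_le_one]
    refine integral_congr_ae (Eventually.of_forall fun v => ?_)
    simp only
    rw [hPr, ← integral_const_mul]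
    refine integral_congr_ae (Eventually.of_forall fun x => ?_)
    simp only
    have : ex x * (z / (v : ℂ)) = ((v : ℂ)⁻¹ * ex x) * z := by ring
    rw [this]
    ring
  rw [Finset.sum_congr rfl h1, ← integral_finsetSum _ i2]
  refine integral_congr_ae (Eventually.of_forall fun y => ?_)
  simp only
  unfold kH
  rw [Finset.sum_mul]

lemma VV_eq {S1 S2 : Finset ℤ} (hd : Disjoint S1 S2) (A M : ℤ → ℕ) {f : ℂ → ℂ} (hf : Dec2 f) (z : ℂ) :
    VV (S1 ∪ S2) S2 A M f z = (∫ x, Fc (S1 ∪ S2) (fun _ => 1) x * f (ex x * z) ∂mu1) -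
      (∫ y, kS S1 A M y * f (((y.1 : ℂ) * ex y.2) * z) ∂(mu1.prod mu1)) -
      ∫ y, kH S2 A M y * f (((y.1 : ℂ)⁻¹ * ex y.2) * z) ∂(mu1.prod mu1) := by
  have h1 := UU_eq S1 A M hf.1 z
  rw [sumPr S1 hf.1] at h1
  rw [sumPr (S1 ∪ S2) hf.1, sumRK S2 A M hf, Finset.sum_union hd]
  unfold VV
  rw [Finset.sum_union hd]
  have e1 : ∑ j ∈ S1, OO S2 A M j (Pr j f) z = UU S1 A M f z := by
    unfold UU
    refine Finset.sum_congr rfl fun j hj => ?_
    unfold OO
    rw [if_neg (Finset.disjoint_left.1 hd hj)]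
  have e2 : ∑ j ∈ S2, OO S2 A M j (Pr j f) z =
      ∑ j ∈ S2, Pr j f z - ∑ j ∈ S2, RK (kh (A j) (M j)) (Pr j f) z := by
    rw [← Finset.sum_sub_distrib]
    refine Finset.sum_congr rfl fun j hj => ?_
    unfold OO
    rw [if_pos hj]
    rfl
  rw [e1, e2, h1]
  ring

/-- square function of the exterior kernels -/
noncomputable def gH (S : Finset ℤ) (A M : ℤ → ℕ) (v : ℝ) : ℝ := √(∑ j ∈ S, kh (A j) (M j) v ^ 2)

lemma gH_cont (S : Finset ℤ) (A M : ℤ → ℕ) : Continuous (gH S A M) := by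
  unfold gH
  exact Real.continuous_sqrt.comp (continuous_finsetSum _ fun j _ => (kh_cont _ _).pow 2)

lemma gH_nonneg (S : Finset ℤ) (A M : ℤ → ℕ) (v : ℝ) : 0 ≤ gH S A M v := Real.sqrt_nonneg _

noncomputable def GH (S : Finset ℤ) (A M : ℤ → ℕ) : ℝ := ∫ v in (0:ℝ)..1, gH S A M v

lemma GH_nonneg (S : Finset ℤ) (A M : ℤ → ℕ) : 0 ≤ GH S A M :=
  intervalIntegral.integral_nonneg zero_le_one fun v _ => gH_nonneg S A M v

lemma w3_le (S : Finset ℤ) (A M : ℤ → ℕ) {p : ℝ} (hp : 2 < p) :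
    ∫⁻ y, ENNReal.ofReal (‖kH S A M y‖ * ‖(y.1 : ℂ)⁻¹ * ex y.2‖ ^ (-(2 / p))) ∂(mu1.prod mu1) ≤
      ENNReal.ofReal (GH S A M) := by
  have hp0 : 0 < p := by linarith
  have hexc := ex_cont
  have hm : Measurable fun y : ℝ × ℝ => ENNReal.ofReal (‖kH S A M y‖ * ‖(y.1 : ℂ)⁻¹ * ex y.2‖ ^ (-(2 / p))) := by
    have h1 : Measurable fun y : ℝ × ℝ => ‖(y.1 : ℂ)⁻¹ * ex y.2‖ :=
      ((Complex.measurable_ofReal.comp measurable_fst).inv.mul (hexc.measurable.comp measurable_snd)).norm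
    exact ((kH_cont S A M).norm.measurable.mul (h1.pow_const _)).ennreal_ofReal
  rw [lintegral_prod _ hm.aemeasurable]
  have hg := gH_cont S A M
  have h1 : GH S A M = ∫ v in Set.Ioc (0:ℝ) 1, gH S A M v := by
    unfold GH
    rw [← intervalIntegral.integral_of_le zero_le_one]
  rw [h1, ofReal_integral_eq_lintegral_ofReal]
  · refine setLIntegral_mono' measurableSet_Ioc fun v hv => ?_
    have hv0 : 0 < v := hv.1
    set c : ℤ → ℝ := fun j => kh (A j) (M j) v with hc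
    have h5 : ∀ x : ℝ, ENNReal.ofReal (‖kH S A M (v, x)‖ * ‖(v : ℂ)⁻¹ * ex x‖ ^ (-(2 / p))) ≤
        ENNReal.ofReal ‖Fc S c x‖ := by
      intro x
      refine ENNReal.ofReal_le_ofReal ?_
      rw [kH_eq, norm_mul, ex_norm, mul_one, norm_inv, Complex.norm_real,
        Real.norm_of_nonneg hv0.le]
      show ‖Fc S c x‖ * v⁻¹ ^ (-(2 / p)) ≤ ‖Fc S c x‖
      refine mul_le_of_le_one_right (norm_nonneg _) ?_
      rw [Real.inv_rpow hv0.le, Real.rpow_neg hv0.le, inv_inv]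
      exact Real.rpow_le_one hv0.le hv.2 (by positivity)
    have hF := (Fc_cont S c).norm
    calc ∫⁻ x, ENNReal.ofReal (‖kH S A M (v, x)‖ * ‖((v, x).1 : ℂ)⁻¹ * ex (v, x).2‖ ^ (-(2 / p))) ∂mu1
        ≤ ∫⁻ x, ENNReal.ofReal ‖Fc S c x‖ ∂mu1 := lintegral_mono h5
      _ ≤ ENNReal.ofReal (gH S A M v) := by
          rw [← ofReal_integral_eq_lintegral_ofReal hF.integrableOn_Ioc
            (Eventually.of_forall fun x => norm_nonneg _), ← intervalIntegral.integral_of_le zero_le_one]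
          exact ENNReal.ofReal_le_ofReal (l1l2 S c)
  · exact Continuous.integrableOn_Ioc hg
  · exact Eventually.of_forall fun v => gH_nonneg S A M v

theorem VV_p {S1 S2 : Finset ℤ} (hd : Disjoint S1 S2) (A M : ℤ → ℕ) (P : ℝ) (hP : 2 < P) :
    RTg.Bo (fun f : 𝓢(ℂ, ℂ) => VV (S1 ∪ S2) S2 A M f) P
      ((√((S1 ∪ S2).card : ℝ) + GB S1 A M + GH S2 A M) + 2 / P * GB' S1 A M) := by
  intro f
  have hp0 : 0 < P := by linarith
  have hexc := ex_cont
  have hG : 0 ≤ GB S1 A M := intervalIntegral.integral_nonneg zero_le_one fun v hv =>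
    mul_nonneg (by linarith [hv.1]) (gS_nonneg S1 A M v)
  have hG' := GB'_nonneg S1 A M
  have hH := GH_nonneg S2 A M
  have m1 := gmink mu1 (κ := Fc (S1 ∪ S2) (fun _ => 1)) (c := ex) (Fc_cont _ _).measurable ex_cont.measurable
    (Eventually.of_forall ex_ne) f.continuous (show 1 < P by linarith)
  have hne : ∀ᵐ y ∂(mu1.prod mu1), (y.1 : ℂ) ≠ 0 := by
    rw [Measure.prod_restrict]
    refine (ae_restrict_iff' (measurableSet_Ioc.prod measurableSet_Ioc)).2
      (Eventually.of_forall fun y hy => ?_)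
    exact Complex.ofReal_ne_zero.2 (ne_of_gt hy.1.1)
  have m2 := gmink (mu1.prod mu1) (κ := kS S1 A M) (c := fun y : ℝ × ℝ => (y.1 : ℂ) * ex y.2)
    (kS_cont S1 A M).measurable (by fun_prop : Continuous fun y : ℝ × ℝ => (y.1 : ℂ) * ex y.2).measurable
    (hne.mono fun y hy => mul_ne_zero hy (ex_ne _)) f.continuous (show 1 < P by linarith)
  have m3 := gmink (mu1.prod mu1) (κ := kH S2 A M) (c := fun y : ℝ × ℝ => (y.1 : ℂ)⁻¹ * ex y.2)
    (kH_cont S2 A M).measurable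
    ((Complex.measurable_ofReal.comp measurable_fst).inv.mul (hexc.measurable.comp measurable_snd))
    (hne.mono fun y hy => mul_ne_zero (inv_ne_zero hy) (ex_ne _)) f.continuous (show 1 < P by linarith)
  set g1 : ℂ → ℂ := fun z => ∫ x, Fc (S1 ∪ S2) (fun _ => 1) x * f (ex x * z) ∂mu1 with hg1
  set g2 : ℂ → ℂ := fun z => ∫ y, kS S1 A M y * f (((y.1 : ℂ) * ex y.2) * z) ∂(mu1.prod mu1) with hg2
  set g3 : ℂ → ℂ := fun z => ∫ y, kH S2 A M y * f (((y.1 : ℂ)⁻¹ * ex y.2) * z) ∂(mu1.prod mu1) with hg3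
  have hsum : ∀ z, VV (S1 ∪ S2) S2 A M f z = g1 z - g2 z - g3 z := fun z => VV_eq hd A M (sch_dec2 f) z
  have c1 : Continuous g1 := by
    have : g1 = fun z => ∫ x in (0:ℝ)..1, Fc (S1 ∪ S2) (fun _ => 1) x * f (ex x * z) := by
      funext z
      rw [intervalIntegral.integral_of_le zero_le_one]
    rw [this]
    refine intervalIntegral.continuous_parametric_intervalIntegral_of_continuous' ?_ 0 1
    have := Fc_cont (S1 ∪ S2) (fun _ => 1)
    fun_prop
  have c3 : Continuous g3 := by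
    have : g3 = fun z => ∑ j ∈ S2, RK (kh (A j) (M j)) (Pr j f) z := by
      funext z
      exact sumRK S2 A M (sch_dec2 f) z
    rw [this]
    exact continuous_finsetSum _ fun j _ => RK_cont (kh_cont _ _) (Pr_dec (sch_dec2 f))
  have c2 : Continuous g2 := by
    have : g2 = fun z => g1 z - g3 z - VV (S1 ∪ S2) S2 A M f z := by
      funext z
      rw [hsum]
      ring
    rw [this]
    exact (c1.sub c3).sub (VV_dec (S1 ∪ S2) S2 A M (sch_dec2 f)).1
  have h2 := ENNReal.lintegral_Lp_add_le (μ := volume) (f := fun z => ‖g1 z‖ₑ)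
    (g := fun z => ‖g2 z‖ₑ) (p := P)
    c1.enorm.measurable.aemeasurable c2.enorm.measurable.aemeasurable (by linarith)
  have h2' := ENNReal.lintegral_Lp_add_le (μ := volume) (f := (fun z => ‖g1 z‖ₑ) + fun z => ‖g2 z‖ₑ)
    (g := fun z => ‖g3 z‖ₑ) (p := P)
    (c1.enorm.measurable.add c2.enorm.measurable).aemeasurable c3.enorm.measurable.aemeasurable (by linarith)
  have h3 : ∀ z, ‖VV (S1 ∪ S2) S2 A M f z‖ₑ ≤
      (((fun z => ‖g1 z‖ₑ) + fun z => ‖g2 z‖ₑ) + fun z => ‖g3 z‖ₑ) z := by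
    intro z
    rw [hsum]
    refine enorm_sub_le.trans ?_
    exact add_le_add_left enorm_sub_le _
  have b1 := m1.trans (mul_le_mul_left (ENNReal.rpow_le_rpow (w1_le (S1 ∪ S2) P) hp0.le) _)
  have b2 := m2.trans (mul_le_mul_left (ENNReal.rpow_le_rpow (w2_le S1 A M hP) hp0.le) _)
  have b3 := m3.trans (mul_le_mul_left (ENNReal.rpow_le_rpow (w3_le S2 A M hP) hp0.le) _)
  have root : ∀ (K : ℝ) (X : ℝ≥0∞), (ENNReal.ofReal K ^ P * X) ^ (1 / P) = ENNReal.ofReal K * X ^ (1 / P) := by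
    intro K X
    rw [ENNReal.mul_rpow_of_nonneg _ _ (by positivity), ← ENNReal.rpow_mul, mul_one_div_cancel hp0.ne',
      ENNReal.rpow_one]
  have h4 : (∫⁻ z, ‖VV (S1 ∪ S2) S2 A M f z‖ₑ ^ P) ^ (1 / P) ≤
      ENNReal.ofReal ((√((S1 ∪ S2).card : ℝ) + GB S1 A M + GH S2 A M) + 2 / P * GB' S1 A M) *
        (∫⁻ z, ‖f z‖ₑ ^ P) ^ (1 / P) := by
    calc (∫⁻ z, ‖VV (S1 ∪ S2) S2 A M f z‖ₑ ^ P) ^ (1 / P) ≤ _ :=
          ENNReal.rpow_le_rpow (lintegral_mono fun z => ENNReal.rpow_le_rpow (h3 z) hp0.le) (by positivity)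
      _ ≤ _ := h2'
      _ ≤ ((ENNReal.ofReal (√((S1 ∪ S2).card : ℝ)) ^ P * ∫⁻ z, ‖f z‖ₑ ^ P) ^ (1 / P) +
          (ENNReal.ofReal (GB S1 A M + 2 / P * GB' S1 A M) ^ P * ∫⁻ z, ‖f z‖ₑ ^ P) ^ (1 / P)) +
          (ENNReal.ofReal (GH S2 A M) ^ P * ∫⁻ z, ‖f z‖ₑ ^ P) ^ (1 / P) := by
          refine add_le_add (h2.trans ?_) (ENNReal.rpow_le_rpow b3 (by positivity))
          exact add_le_add (ENNReal.rpow_le_rpow b1 (by positivity)) (ENNReal.rpow_le_rpow b2 (by positivity))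
      _ = ENNReal.ofReal (√((S1 ∪ S2).card : ℝ) + (GB S1 A M + 2 / P * GB' S1 A M) + GH S2 A M) *
          (∫⁻ z, ‖f z‖ₑ ^ P) ^ (1 / P) := by
          rw [root, root, root, ENNReal.ofReal_add (p := √((S1 ∪ S2).card : ℝ) +
            (GB S1 A M + 2 / P * GB' S1 A M)) (by positivity) hH, ENNReal.ofReal_add (Real.sqrt_nonneg _)
            (by positivity : (0:ℝ) ≤ GB S1 A M + 2 / P * GB' S1 A M), add_mul, add_mul]
      _ ≤ _ := mul_le_mul_left (ENNReal.ofReal_le_ofReal (by linarith)) _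
  have h5 := ENNReal.rpow_le_rpow h4 hp0.le
  rwa [← ENNReal.rpow_mul, one_div_mul_cancel hp0.ne', ENNReal.rpow_one,
    ENNReal.mul_rpow_of_nonneg _ _ hp0.le, ← ENNReal.rpow_mul, one_div_mul_cancel hp0.ne',
    ENNReal.rpow_one] at h5

/-- the operator on `L ^ p` -/
theorem VV_all {S1 S2 : Finset ℤ} (hd : Disjoint S1 S2) {A : ℤ → ℕ} (M : ℤ → ℕ) (hA : ∀ j ∈ S2, 1 ≤ A j)
    {C : ℝ} (hC0 : 0 < C) (hC : √((S1 ∪ S2).card : ℝ) + GB S1 A M + GH S2 A M ≤ C)
    {p : ℝ} (hp : 2 ≤ p) : RTg.Bo (fun f : 𝓢(ℂ, ℂ) => VV (S1 ∪ S2) S2 A M f) p (C ^ (1 - 2 / p)) := by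
  refine interp_gen (VV_lin (S1 ∪ S2) S2 A M) (VV_two (S1 ∪ S2) M hA) hC0 (GB'_nonneg S1 A M)
    (fun P hP => ?_) hp
  intro f
  refine (VV_p hd A M P hP f).trans ?_
  refine mul_le_mul_left (ENNReal.rpow_le_rpow (ENNReal.ofReal_le_ofReal ?_) (by linarith)) _
  linarith

end Pool.Agent.Run7.h695.BT
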