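import Pool.Agent.Run7.h695.BT.MultiP
import Pool.Agent.Run7.h695.BT.Ker4

/-!
# The square function of the kernels (helper695)
-/

set_option autoImplicit false

open Finset MeasureTheory

namespace Pool.Agent.Run7.h695.BT

lemma kb_zero (a : ℕ) (v : ℝ) : kb a 0 v = 0 := by
  unfold kb
  simp

/-- one kernel with the common weight -/
lemma one_weight {n : ℝ} (hn : 1 ≤ n) {lo hi : ℝ} (hlo : n ≤ lo) (a m : ℕ) (hm : (m : ℝ) ≤ n)
    (h1 : lo ≤ (m : ℝ) + a) (h2 : (m : ℝ) + a ≤ hi) :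
    ∫ v in (0:ℝ)..1, 2 * v * (kb a m v) ^ 2 * ((1 + 8 * hi * (1 - v ^ 2)) * (1 + lo / (16 * n) * (1 - v ^ 2))) ≤
      10.0625 * (n * hi) := by
  have hn0 : 0 < n := by linarith
  have hlo0 : 0 < lo := by linarith
  have hhi0 : 0 < hi := by linarith
  rcases Nat.eq_zero_or_pos m with h | h
  · subst h
    simp only [kb_zero]
    simp
    positivity
  · have hm1 : (1 : ℝ) ≤ m := by exact_mod_cast h
    have hm0 : (0 : ℝ) < m := by linarith
    have ha : (0 : ℝ) ≤ a := Nat.cast_nonneg a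
    set m' : ℝ := (m : ℝ) + a with hm'
    have hm'0 : 0 < m' := by positivity
    have hmm' : (m : ℝ) ≤ m' := by rw [hm']; linarith
    set α : ℝ := 8 * hi with hα
    set γ : ℝ := lo / (16 * n) with hγ
    have hα0 : 0 < α := by positivity
    have hγ0 : 0 < γ := by positivity
    have e2 : ∀ v : ℝ, 2 * v * (kb a m v) ^ 2 * ((1 + α * (1 - v ^ 2)) * (1 + γ * (1 - v ^ 2))) =
        2 * v * (kb a m v) ^ 2 * (1 + (α + γ) * (1 - v ^ 2) + (α * γ) * (1 - v ^ 2) ^ 2) := by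
      intro v; ring
    simp only [e2]
    rw [int_sq2 a m h, J1_eq a h, J2_eq a h, ← hm']
    have e3 : (2 * (m : ℝ) + a) = m + m' := by rw [hm']; ring
    rw [e3]
    have h4 : 0 < ((m : ℝ) + m') ^ 2 - 1 := by nlinarith
    have h5 : m' ^ 3 ≤ (m + m') * ((m + m') ^ 2 - 1) := by
      nlinarith [mul_pos hm0 hm'0, sq_nonneg m', mul_pos hm'0 hm'0]
    have b1 : (m : ℝ) * m' ≤ n * hi := mul_le_mul hm h2 hm'0.le hn0.le
    have b2 : (m : ℝ) * m' / (m + m') ≤ n := by
      rw [div_le_iff₀ (by positivity)]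
      have := mul_le_mul_of_nonneg_right hm hm'0.le
      nlinarith
    have b3 : 2 * (m : ℝ) ^ 2 * m' ^ 2 / ((m + m') * ((m + m') ^ 2 - 1)) ≤ 2 * n ^ 2 / lo := by
      have c1 : 2 * (m : ℝ) ^ 2 * m' ^ 2 / ((m + m') * ((m + m') ^ 2 - 1)) ≤ 2 * m ^ 2 / m' := by
        rw [div_le_div_iff₀ (by positivity) hm'0]
        calc 2 * (m : ℝ) ^ 2 * m' ^ 2 * m' = 2 * m ^ 2 * m' ^ 3 := by ring
          _ ≤ _ := mul_le_mul_of_nonneg_left h5 (by positivity)
      refine c1.trans (div_le_div₀ (by positivity) ?_ hlo0 h1)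
      exact mul_le_mul_of_nonneg_left (pow_le_pow_left₀ hm0.le hm 2) (by norm_num)
    have k1 : (α + γ) * ((m : ℝ) * m' / (m + m')) ≤ 8.0625 * (n * hi) := by
      calc (α + γ) * ((m : ℝ) * m' / (m + m')) ≤ (α + γ) * n := mul_le_mul_of_nonneg_left b2 (by positivity)
        _ = 8 * (n * hi) + lo / 16 := by rw [hα, hγ]; field_simp
        _ ≤ _ := by nlinarith
    have k2 : α * γ * (2 * (m : ℝ) ^ 2 * m' ^ 2 / ((m + m') * ((m + m') ^ 2 - 1))) ≤ n * hi := by
      calc _ ≤ α * γ * (2 * n ^ 2 / lo) := mul_le_mul_of_nonneg_left b3 (by positivity)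
        _ = n * hi := by rw [hα, hγ]; field_simp; ring
    linarith

/-- **The bound of the square function.** -/
theorem GB_le {S : Finset ℤ} (hS : S.Nonempty) {A M : ℤ → ℕ} {n : ℝ} (hn : 1 ≤ n) {lo hi : ℝ} (hlo : n ≤ lo)
    (hM : ∀ j ∈ S, (M j : ℝ) ≤ n) (h1 : ∀ j ∈ S, lo ≤ (M j : ℝ) + A j) (h2 : ∀ j ∈ S, (M j : ℝ) + A j ≤ hi) :
    GB S A M ≤ √(1.27 * S.card * n * Real.log (128 * n * hi / lo)) := by
  have hn0 : 0 < n := by linarith
  have hlo0 : 0 < lo := by linarith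
  obtain ⟨j0, hj0⟩ := hS
  have hlh : lo ≤ hi := (h1 j0 hj0).trans (h2 j0 hj0)
  have hhi0 : 0 < hi := by linarith
  have hN : (1 : ℝ) ≤ S.card := by
    have : 1 ≤ S.card := Finset.card_pos.2 ⟨j0, hj0⟩
    exact_mod_cast this
  set α : ℝ := 8 * hi with hα
  set γ : ℝ := lo / (16 * n) with hγ
  have hα0 : 0 < α := by positivity
  have hγ0 : 0 < γ := by positivity
  have hγ1 : γ ≤ hi / 16 := by
    rw [hγ, div_le_div_iff₀ (by positivity) (by norm_num)]
    nlinarith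
  have hγα : γ < α := by
    rw [hα]
    linarith
  have hlog : 0 < Real.log (128 * n * hi / lo) := by
    refine Real.log_pos ?_
    rw [lt_div_iff₀ hlo0]
    nlinarith
  have hp : ∀ v ∈ Set.Icc (0:ℝ) 1, 0 ≤ 1 - v ^ 2 := by
    intro v hv
    have := pow_le_one₀ hv.1 hv.2 (n := 2)
    linarith
  have hI : ∫ v in (0:ℝ)..1, 2 * v * (gS S A M v) ^ 2 * ((1 + α * (1 - v ^ 2)) * (1 + γ * (1 - v ^ 2))) ≤
      10.0625 * S.card * (n * hi) := by
    have e1 : ∀ v : ℝ, 2 * v * (gS S A M v) ^ 2 * ((1 + α * (1 - v ^ 2)) * (1 + γ * (1 - v ^ 2))) =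
        ∑ j ∈ S, 2 * v * (kb (A j) (M j) v) ^ 2 * ((1 + α * (1 - v ^ 2)) * (1 + γ * (1 - v ^ 2))) := by
      intro v
      unfold gS
      rw [Real.sq_sqrt (Finset.sum_nonneg fun _ _ => sq_nonneg _), Finset.mul_sum, Finset.sum_mul]
    simp only [e1]
    rw [intervalIntegral.integral_finsetSum]
    · calc _ ≤ ∑ j ∈ S, 10.0625 * (n * hi) := Finset.sum_le_sum fun j hj =>
            one_weight hn hlo (A j) (M j) (hM j hj) (h1 j hj) (h2 j hj)
        _ = _ := by rw [Finset.sum_const, nsmul_eq_mul]; ring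
    · intro j _
      have := kb_cont (A j) (M j)
      exact (by fun_prop : Continuous fun v : ℝ =>
        2 * v * (kb (A j) (M j) v) ^ 2 * ((1 + α * (1 - v ^ 2)) * (1 + γ * (1 - v ^ 2)))).intervalIntegrable _ _
  have hJ := int_inv2 hγ0 hγα
  have e4 : α / γ = 128 * n * hi / lo := by
    rw [hα, hγ]; field_simp; ring
  rw [e4] at hJ
  have hd : 7.9375 * hi ≤ α - γ := by
    rw [hα]; linarith
  have hJ2 : Real.log (128 * n * hi / lo) / (α - γ) ≤ Real.log (128 * n * hi / lo) / (7.9375 * hi) :=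
    div_le_div_of_nonneg_left hlog.le (by positivity) hd
  have hfin := cs_abs (F := gS S A M) (G := fun v => 2 * v)
    (W := fun v => (1 + α * (1 - v ^ 2)) * (1 + γ * (1 - v ^ 2))) (gS_cont S A M).continuousOn (by fun_prop)
    (by fun_prop) (fun v hv => by have := hp v hv; positivity) (fun v hv => by linarith [hv.1])
    (I := 10.0625 * S.card * (n * hi)) (J := Real.log (128 * n * hi / lo) / (7.9375 * hi))
    (by positivity) (by positivity) hI (hJ.trans hJ2)
  have e5 : ∀ v : ℝ, 2 * v * |gS S A M v| = 2 * v * gS S A M v := fun v => by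
    rw [abs_of_nonneg (gS_nonneg S A M v)]
  simp only [e5] at hfin
  unfold GB
  refine hfin.trans (Real.sqrt_le_sqrt ?_)
  have e6 : 10.0625 * S.card * (n * hi) * (Real.log (128 * n * hi / lo) / (7.9375 * hi)) =
      (10.0625 / 7.9375) * S.card * n * Real.log (128 * n * hi / lo) := by
    field_simp
  rw [e6]
  refine mul_le_mul_of_nonneg_right ?_ hlog.le
  refine mul_le_mul_of_nonneg_right ?_ hn0.le
  refine mul_le_mul_of_nonneg_right ?_ (by positivity)
  norm_num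

end Pool.Agent.Run7.h695.BT
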