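import Pool.Agent.Run7.h695.BT.Multi2

/-!
# The square function of the exterior kernels (helper695)
-/

set_option autoImplicit false

open Finset MeasureTheory

namespace Pool.Agent.Run7.h695.BT

/-- the integral of the inverse weight -/
lemma int_inv3 {α γ : ℝ} (hγ : 0 < γ) (hα : γ < α) :
    ∫ v in (0:ℝ)..1, 2 * v * ((v ^ 2 + α * (1 - v ^ 2)) * (v ^ 2 + γ * (1 - v ^ 2)))⁻¹ =
      Real.log (α / γ) / (α - γ) := by
  have hα0 : 0 < α := hγ.trans hα
  have hd : 0 < α - γ := by linarith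
  have hp : ∀ v ∈ Set.Icc (0:ℝ) 1, 0 ≤ 1 - v ^ 2 := by
    intro v hv
    have := pow_le_one₀ hv.1 hv.2 (n := 2)
    linarith
  have hpos : ∀ v ∈ Set.Icc (0:ℝ) 1, ∀ β : ℝ, 0 < β → 0 < v ^ 2 + β * (1 - v ^ 2) := by
    intro v hv β hβ
    have h0 := hp v hv
    rcases hv.1.eq_or_lt with h | h
    · rw [← h]
      simpa using hβ
    · positivity
  have h1 : ∀ v ∈ Set.uIcc (0:ℝ) 1, HasDerivAt
      (fun v : ℝ => (Real.log (v ^ 2 + γ * (1 - v ^ 2)) - Real.log (v ^ 2 + α * (1 - v ^ 2))) / (α - γ))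
      (2 * v * ((v ^ 2 + α * (1 - v ^ 2)) * (v ^ 2 + γ * (1 - v ^ 2)))⁻¹) v := by
    intro v hv
    rw [Set.uIcc_of_le zero_le_one] at hv
    have ha := hpos v hv α hα0
    have hb := hpos v hv γ hγ
    have d0 : HasDerivAt (fun v : ℝ => v ^ 2) (2 * v) v := by
      refine (hasDerivAt_pow 2 v).congr_deriv ?_
      norm_num
    have d0' : HasDerivAt (fun v : ℝ => 1 - v ^ 2) (-(2 * v)) v := d0.const_sub 1
    have d1 := (d0.add (d0'.const_mul α)).log ha.ne'
    have d2 := (d0.add (d0'.const_mul γ)).log hb.ne'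
    refine ((d2.sub d1).div_const (α - γ)).congr_deriv ?_
    simp only [Pi.add_apply]
    obtain ⟨q1, hq1⟩ : ∃ q1, q1 = v ^ 2 + α * (1 - v ^ 2) := ⟨_, rfl⟩
    obtain ⟨q2, hq2⟩ : ∃ q2, q2 = v ^ 2 + γ * (1 - v ^ 2) := ⟨_, rfl⟩
    rw [← hq1] at ha
    rw [← hq2] at hb
    rw [← hq1, ← hq2]
    have ha' := ha.ne'
    have hb' := hb.ne'
    have hd' := hd.ne'
    field_simp
    rw [hq1, hq2]
    ring
  rw [intervalIntegral.integral_eq_sub_of_hasDerivAt h1]
  · norm_num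
    rw [Real.log_div hα0.ne' hγ.ne']
    field_simp
    ring
  · refine ContinuousOn.intervalIntegrable ?_
    rw [Set.uIcc_of_le zero_le_one]
    refine ContinuousOn.mul (by fun_prop) (ContinuousOn.inv₀ (by fun_prop) fun v hv => ?_)
    exact (mul_pos (hpos v hv α hα0) (hpos v hv γ hγ)).ne'

lemma kq_zero (b : ℕ) (v : ℝ) : kq b 0 v = 0 := by
  unfold kq
  simp

/-- one exterior kernel with the common weight -/
lemma one_weight3 {X lo hi : ℝ} (hX : 1 ≤ X) (hlo0 : 0 < lo) {a : ℕ} (ha : 2 ≤ a) (m : ℕ)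
    (h1 : lo ≤ (a : ℝ)) (h2 : (a : ℝ) ≤ hi) (h3 : (m : ℝ) * (m + a) ≤ X * a) :
    ∫ v in (0:ℝ)..1, 2 * v * (kq (a - 2) m v) ^ 2 *
      ((v ^ 2 + 8 * hi * (1 - v ^ 2)) * (v ^ 2 + lo / (16 * X) * (1 - v ^ 2))) ≤ 10.396 * (X * hi) := by
  have hX0 : 0 < X := by linarith
  have hhi0 : 0 < hi := by linarith
  rcases Nat.eq_zero_or_pos m with h | h
  · subst h
    simp only [kq_zero]
    simp
    positivity
  · obtain ⟨b, rfl⟩ : ∃ b, a = b + 2 := ⟨a - 2, by omega⟩
    rw [Nat.add_sub_cancel]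
    push_cast at h1 h2 h3
    have hm1 : (1 : ℝ) ≤ m := by exact_mod_cast h
    have hm0 : (0 : ℝ) < m := by linarith
    have hb : (0 : ℝ) ≤ b := Nat.cast_nonneg b
    set α : ℝ := 8 * hi with hα
    set γ : ℝ := lo / (16 * X) with hγ
    have hα0 : 0 < α := by positivity
    have hγ0 : 0 < γ := by positivity
    have e2 : ∀ v : ℝ, 2 * v * (kq b m v) ^ 2 * ((v ^ 2 + α * (1 - v ^ 2)) * (v ^ 2 + γ * (1 - v ^ 2))) =
        2 * v * (kq b m v) ^ 2 * (v ^ 4 + (α + γ) * (v ^ 2 * (1 - v ^ 2)) + (α * γ) * (1 - v ^ 2) ^ 2) := by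
      intro v; ring
    simp only [e2]
    rw [int_sq3 b m h]
    set A : ℝ := (b : ℝ) + 2 with hA
    have hA2 : 2 ≤ A := by rw [hA]; linarith
    have hA0 : 0 < A := by linarith
    set Y : ℝ := (m : ℝ) * (m + A) with hY
    have hY0 : 0 ≤ Y := by positivity
    have b1 : Y ≤ X * hi := h3.trans (mul_le_mul_of_nonneg_left h2 hX0.le)
    have b2 : Y / A ≤ X := by rwa [div_le_iff₀ hA0]
    have b3 : 2 * (m : ℝ) ^ 2 * (m + A) ^ 2 / ((b + 1) * A * (b + 3)) ≤ 8 / 3 * (X ^ 2 / lo) := by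
      have e3 : ((b : ℝ) + 1) * A * (b + 3) = A * (A ^ 2 - 1) := by rw [hA]; ring
      rw [e3]
      have h4 : 3 / 4 * A ^ 2 ≤ A ^ 2 - 1 := by nlinarith
      have c1 : 2 * (m : ℝ) ^ 2 * (m + A) ^ 2 / (A * (A ^ 2 - 1)) ≤ 8 / 3 * ((Y / A) ^ 2 / A) := by
        have e4 : 2 * (m : ℝ) ^ 2 * (m + A) ^ 2 = 2 * Y ^ 2 := by rw [hY]; ring
        rw [e4]
        calc 2 * Y ^ 2 / (A * (A ^ 2 - 1)) ≤ 2 * Y ^ 2 / (A * (3 / 4 * A ^ 2)) :=
              div_le_div_of_nonneg_left (by positivity) (by positivity) (mul_le_mul_of_nonneg_left h4 hA0.le)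
          _ = _ := by field_simp; ring
      refine c1.trans (mul_le_mul_of_nonneg_left ?_ (by norm_num))
      exact div_le_div₀ (by positivity) (pow_le_pow_left₀ (by positivity) b2 2) hlo0 h1
    have k1 : (α + γ) * (Y / A) ≤ 8.0625 * (X * hi) := by
      calc (α + γ) * (Y / A) ≤ (α + γ) * X := mul_le_mul_of_nonneg_left b2 (by positivity)
        _ = 8 * (X * hi) + lo / 16 := by rw [hα, hγ]; field_simp
        _ ≤ _ := by nlinarith
    have k2 : α * γ * (2 * (m : ℝ) ^ 2 * (m + A) ^ 2 / ((b + 1) * A * (b + 3))) ≤ 4 / 3 * (X * hi) := by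
      calc _ ≤ α * γ * (8 / 3 * (X ^ 2 / lo)) := mul_le_mul_of_nonneg_left b3 (by positivity)
        _ = 4 / 3 * (X * hi) := by rw [hα, hγ]; field_simp; ring
    have k0 : 0 < X * hi := by positivity
    have e5 : (m : ℝ) * ((m : ℝ) + A) = Y := rfl
    linarith

lemma gH_kq {S : Finset ℤ} {A : ℤ → ℕ} (M : ℤ → ℕ) (hA : ∀ j ∈ S, 2 ≤ A j) {v : ℝ} (hv : 0 ≤ v) :
    gH S A M v = 2 * v * √(∑ j ∈ S, kq (A j - 2) (M j) v ^ 2) := by
  unfold gH
  have h1 : ∑ j ∈ S, kh (A j) (M j) v ^ 2 = (2 * v) ^ 2 * ∑ j ∈ S, kq (A j - 2) (M j) v ^ 2 := by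
    rw [Finset.mul_sum]
    refine Finset.sum_congr rfl fun j hj => ?_
    rw [kh_kq (hA j hj)]
    ring
  rw [h1, Real.sqrt_mul (by positivity), Real.sqrt_sq (by positivity)]

/-- **The bound of the exterior square function.** -/
theorem GH_le {S : Finset ℤ} {A M : ℤ → ℕ} {X lo hi : ℝ} (hX : 1 ≤ X) (hlo0 : 0 < lo) (hlh : lo ≤ hi)
    (hA : ∀ j ∈ S, 2 ≤ A j) (h1 : ∀ j ∈ S, lo ≤ (A j : ℝ)) (h2 : ∀ j ∈ S, (A j : ℝ) ≤ hi)
    (h3 : ∀ j ∈ S, (M j : ℝ) * (M j + A j) ≤ X * A j) :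
    GH S A M ≤ √(1.31 * S.card * X * Real.log (128 * X * hi / lo)) := by
  rcases S.eq_empty_or_nonempty with hS | hS
  · subst hS
    unfold GH gH
    simp
  · have hX0 : 0 < X := by linarith
    have hhi0 : 0 < hi := by linarith
    have hN : (1 : ℝ) ≤ S.card := by
      have : 1 ≤ S.card := Finset.card_pos.2 hS
      exact_mod_cast this
    set α : ℝ := 8 * hi with hα
    set γ : ℝ := lo / (16 * X) with hγ
    have hα0 : 0 < α := by positivity
    have hγ0 : 0 < γ := by positivity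
    have hγ1 : γ ≤ hi / 16 := by
      rw [hγ, div_le_div_iff₀ (by positivity) (by norm_num)]
      nlinarith
    have hγα : γ < α := by
      rw [hα]
      linarith
    have hlog : 0 < Real.log (128 * X * hi / lo) := by
      refine Real.log_pos ?_
      rw [lt_div_iff₀ hlo0]
      nlinarith
    have hp : ∀ v ∈ Set.Icc (0:ℝ) 1, 0 ≤ 1 - v ^ 2 := by
      intro v hv
      have := pow_le_one₀ hv.1 hv.2 (n := 2)
      linarith
    have hpos : ∀ v ∈ Set.Icc (0:ℝ) 1, ∀ β : ℝ, 0 < β → 0 < v ^ 2 + β * (1 - v ^ 2) := by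
      intro v hv β hβ
      have h0 := hp v hv
      rcases hv.1.eq_or_lt with h | h
      · rw [← h]
        simpa using hβ
      · positivity
    set q : ℝ → ℝ := fun v => √(∑ j ∈ S, kq (A j - 2) (M j) v ^ 2) with hq
    have hqc : Continuous q :=
      Real.continuous_sqrt.comp (continuous_finsetSum _ fun j _ => (kq_cont _ _).pow 2)
    have hq0 : ∀ v, 0 ≤ q v := fun v => Real.sqrt_nonneg _
    have hI : ∫ v in (0:ℝ)..1, 2 * v * (q v) ^ 2 *
        ((v ^ 2 + α * (1 - v ^ 2)) * (v ^ 2 + γ * (1 - v ^ 2))) ≤ 10.396 * S.card * (X * hi) := by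
      have e1 : ∀ v : ℝ, 2 * v * (q v) ^ 2 *
          ((v ^ 2 + α * (1 - v ^ 2)) * (v ^ 2 + γ * (1 - v ^ 2))) =
          ∑ j ∈ S, 2 * v * (kq (A j - 2) (M j) v) ^ 2 *
            ((v ^ 2 + α * (1 - v ^ 2)) * (v ^ 2 + γ * (1 - v ^ 2))) := by
        intro v
        rw [hq]
        simp only
        rw [Real.sq_sqrt (Finset.sum_nonneg fun _ _ => sq_nonneg _), Finset.mul_sum, Finset.sum_mul]
      simp only [e1]
      rw [intervalIntegral.integral_finsetSum]
      · calc _ ≤ ∑ j ∈ S, 10.396 * (X * hi) := Finset.sum_le_sum fun j hj =>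
              one_weight3 hX hlo0 (hA j hj) (M j) (h1 j hj) (h2 j hj) (h3 j hj)
          _ = _ := by rw [Finset.sum_const, nsmul_eq_mul]; ring
      · intro j _
        have := kq_cont (A j - 2) (M j)
        exact (by fun_prop : Continuous fun v : ℝ =>
          2 * v * (kq (A j - 2) (M j) v) ^ 2 *
            ((v ^ 2 + α * (1 - v ^ 2)) * (v ^ 2 + γ * (1 - v ^ 2)))).intervalIntegrable _ _
    have hJ := int_inv3 hγ0 hγα
    have e4 : α / γ = 128 * X * hi / lo := by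
      rw [hα, hγ]; field_simp; ring
    rw [e4] at hJ
    have hd : 7.9375 * hi ≤ α - γ := by
      rw [hα]; linarith
    have hJ2 : Real.log (128 * X * hi / lo) / (α - γ) ≤ Real.log (128 * X * hi / lo) / (7.9375 * hi) :=
      div_le_div_of_nonneg_left hlog.le (by positivity) hd
    have hfin := cs_abs (F := q) (G := fun v => 2 * v)
      (W := fun v => (v ^ 2 + α * (1 - v ^ 2)) * (v ^ 2 + γ * (1 - v ^ 2))) hqc.continuousOn
      (by fun_prop) (by fun_prop) (fun v hv => mul_pos (hpos v hv α hα0) (hpos v hv γ hγ0))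
      (fun v hv => by linarith [hv.1])
      (I := 10.396 * S.card * (X * hi)) (J := Real.log (128 * X * hi / lo) / (7.9375 * hi))
      (by positivity) (by positivity) hI (hJ.le.trans hJ2)
    have e5 : ∀ v : ℝ, 2 * v * |q v| = 2 * v * q v := fun v => by
      rw [abs_of_nonneg (hq0 v)]
    simp only [e5] at hfin
    have e7 : GH S A M = ∫ v in (0:ℝ)..1, 2 * v * q v := by
      unfold GH
      refine intervalIntegral.integral_congr fun v hv => ?_
      rw [Set.uIcc_of_le zero_le_one] at hv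
      exact gH_kq M hA hv.1
    rw [e7]
    refine hfin.trans (Real.sqrt_le_sqrt ?_)
    have e6 : 10.396 * S.card * (X * hi) * (Real.log (128 * X * hi / lo) / (7.9375 * hi)) =
        (10.396 / 7.9375) * S.card * X * Real.log (128 * X * hi / lo) := by
      field_simp
    rw [e6]
    refine mul_le_mul_of_nonneg_right ?_ hlog.le
    refine mul_le_mul_of_nonneg_right ?_ hX0.le
    refine mul_le_mul_of_nonneg_right ?_ (by positivity)
    norm_num

end Pool.Agent.Run7.h695.BT
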