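import Pool.Agent.Run7.h695.BT.Multi

/-!
# Several angular types: `L ^ p` (helper695)
-/

set_option autoImplicit false

open Finset MeasureTheory Filter Topology
open scoped SchwartzMap ComplexConjugate ENNReal

namespace Pool.Agent.Run7.h695.BT

/-- trigonometric polynomials -/
noncomputable def Fc (S : Finset ℤ) (c : ℤ → ℝ) (x : ℝ) : ℂ := ∑ j ∈ S, ((c j : ℝ) : ℂ) * ex (-(j * x))

lemma Fc_cont (S : Finset ℤ) (c : ℤ → ℝ) : Continuous (Fc S c) := by
  unfold Fc
  have := ex_cont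
  fun_prop

lemma l2char (S : Finset ℤ) (c : ℤ → ℝ) : ∫ x in (0:ℝ)..1, ‖Fc S c x‖ ^ 2 = ∑ j ∈ S, c j ^ 2 := by
  have h1 : ∀ x : ℝ, ((‖Fc S c x‖ ^ 2 : ℝ) : ℂ) =
      ∑ i ∈ S, ∑ j ∈ S, (((c i : ℝ) : ℂ) * ((c j : ℝ) : ℂ)) * ex (((j - i : ℤ) : ℝ) * x) := by
    intro x
    rw [← Complex.normSq_eq_norm_sq, ← Complex.mul_conj]
    unfold Fc
    rw [map_sum, Finset.sum_mul_sum]
    refine Finset.sum_congr rfl fun i _ => Finset.sum_congr rfl fun j _ => ?_
    rw [map_mul, Complex.conj_ofReal, ex_conj]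
    have e : ex (((j - i : ℤ) : ℝ) * x) = ex (-(i * x)) * ex (-(-(j * x))) := by
      rw [← ex_add]
      congr 1
      push_cast
      ring
    rw [e]
    ring
  have hc : ∀ i j : ℤ, Continuous fun x : ℝ =>
      (((c i : ℝ) : ℂ) * ((c j : ℝ) : ℂ)) * ex (((j - i : ℤ) : ℝ) * x) := by
    intro i j
    have := ex_cont
    fun_prop
  have h2 : ((∫ x in (0:ℝ)..1, ‖Fc S c x‖ ^ 2 : ℝ) : ℂ) = ((∑ j ∈ S, c j ^ 2 : ℝ) : ℂ) := by
    rw [← intervalIntegral.integral_ofReal]
    simp only [h1]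
    rw [intervalIntegral.integral_finsetSum (fun i _ =>
      (continuous_finsetSum _ fun j _ => hc i j).intervalIntegrable _ _), Complex.ofReal_sum]
    refine Finset.sum_congr rfl fun i hi => ?_
    rw [intervalIntegral.integral_finsetSum (fun j _ => (hc i j).intervalIntegrable _ _)]
    rw [Finset.sum_eq_single i]
    · rw [intervalIntegral.integral_const_mul, int_ex, if_pos (by omega), mul_one, sq, Complex.ofReal_mul]
    · intro j _ hj
      rw [intervalIntegral.integral_const_mul, int_ex, if_neg (by omega), mul_zero]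
    · intro h
      exact absurd hi h
  exact_mod_cast h2

lemma l1l2 (S : Finset ℤ) (c : ℤ → ℝ) : ∫ x in (0:ℝ)..1, ‖Fc S c x‖ ≤ √(∑ j ∈ S, c j ^ 2) := by
  have hF := Fc_cont S c
  set q : ℝ := ∑ j ∈ S, c j ^ 2 with hq
  have hq0 : 0 ≤ q := Finset.sum_nonneg fun _ _ => sq_nonneg _
  have h2 := l2char S c
  have key : ∀ l : ℝ, 0 < l → ∫ x in (0:ℝ)..1, ‖Fc S c x‖ ≤ q / (2 * l) + l / 2 := by
    intro l hl
    have i1 : IntervalIntegrable (fun x : ℝ => 1 / (2 * l) * ‖Fc S c x‖ ^ 2) volume 0 1 :=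
      (by fun_prop : Continuous fun x : ℝ => 1 / (2 * l) * ‖Fc S c x‖ ^ 2).intervalIntegrable _ _
    have i2 : IntervalIntegrable (fun _ : ℝ => l / 2) volume 0 1 := intervalIntegrable_const
    have h3 : ∫ x in (0:ℝ)..1, ‖Fc S c x‖ ≤ ∫ x in (0:ℝ)..1, (1 / (2 * l) * ‖Fc S c x‖ ^ 2 + l / 2) := by
      refine intervalIntegral.integral_mono_on zero_le_one (hF.norm.intervalIntegrable _ _)
        (i1.add i2) fun x _ => ?_
      have h4 : 0 ≤ (‖Fc S c x‖ - l) ^ 2 / (2 * l) := by positivity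
      have h5 : (‖Fc S c x‖ - l) ^ 2 / (2 * l) = 1 / (2 * l) * ‖Fc S c x‖ ^ 2 + l / 2 - ‖Fc S c x‖ := by
        field_simp
        ring
      linarith
    rw [intervalIntegral.integral_add i1 i2, intervalIntegral.integral_const_mul, h2,
      intervalIntegral.integral_const] at h3
    simp only [sub_zero, one_smul] at h3
    refine h3.trans (le_of_eq ?_)
    rw [← hq]
    ring
  rcases hq0.eq_or_lt with h | h
  · rw [← h, Real.sqrt_zero]
    refine le_of_forall_pos_le_add fun ε hε => ?_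
    have := key (2 * ε) (by positivity)
    rw [← h] at this
    simp at this
    linarith
  · have h3 := key (√q) (Real.sqrt_pos.2 h)
    refine h3.trans (le_of_eq ?_)
    have h4 : √q ≠ 0 := (Real.sqrt_pos.2 h).ne'
    have h5 : q = √q * √q := (Real.mul_self_sqrt hq0).symm
    have h6 : q / (2 * √q) = √q / 2 := by
      rw [div_eq_iff (by positivity)]
      linarith
    rw [h6]
    ring

/-- square function of the kernels, divided by `2 v` -/
noncomputable def gS (S : Finset ℤ) (A M : ℤ → ℕ) (v : ℝ) : ℝ := √(∑ j ∈ S, kb (A j) (M j) v ^ 2)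

lemma gS_cont (S : Finset ℤ) (A M : ℤ → ℕ) : Continuous (gS S A M) := by
  unfold gS
  exact Real.continuous_sqrt.comp (continuous_finsetSum _ fun j _ => (kb_cont _ _).pow 2)

lemma gS_nonneg (S : Finset ℤ) (A M : ℤ → ℕ) (v : ℝ) : 0 ≤ gS S A M v := Real.sqrt_nonneg _

noncomputable def GB (S : Finset ℤ) (A M : ℤ → ℕ) : ℝ := ∫ v in (0:ℝ)..1, 2 * v * gS S A M v

noncomputable def GB' (S : Finset ℤ) (A M : ℤ → ℕ) : ℝ := ∫ v in (0:ℝ)..1, 2 * gS S A M v

lemma GB'_nonneg (S : Finset ℤ) (A M : ℤ → ℕ) : 0 ≤ GB' S A M :=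
  intervalIntegral.integral_nonneg zero_le_one fun v _ => mul_nonneg zero_le_two (gS_nonneg S A M v)

/-- the kernel -/
noncomputable def kS (S : Finset ℤ) (A M : ℤ → ℕ) (y : ℝ × ℝ) : ℂ :=
  ∑ j ∈ S, ((ka (A j) (M j) y.1 : ℝ) : ℂ) * ex (-(j * y.2))

lemma kS_cont (S : Finset ℤ) (A M : ℤ → ℕ) : Continuous (kS S A M) := by
  unfold kS
  have := ex_cont
  have := fun j => ka_cont (A j) (M j)
  fun_prop

lemma kS_eq (S : Finset ℤ) (A M : ℤ → ℕ) (y : ℝ × ℝ) :
    kS S A M y = ((2 * y.1 : ℝ) : ℂ) * Fc S (fun j => kb (A j) (M j) y.1) y.2 := by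
  unfold kS Fc
  rw [Finset.mul_sum]
  refine Finset.sum_congr rfl fun j _ => ?_
  rw [ka_eq]
  push_cast
  ring

noncomputable abbrev mu1 : Measure ℝ := volume.restrict (Set.Ioc (0:ℝ) 1)

lemma UU_eq (S : Finset ℤ) (A M : ℤ → ℕ) {f : ℂ → ℂ} (hf : Continuous f) (z : ℂ) :
    UU S A M f z = (∫ x, Fc S (fun _ => 1) x * f (ex x * z) ∂mu1) -
      ∫ y, kS S A M y * f (((y.1 : ℂ) * ex y.2) * z) ∂(mu1.prod mu1) := by
  have hPr : ∀ (j : ℤ) (w : ℂ), Pr j f w = ∫ x, ex (-(j * x)) * f (ex x * w) ∂mu1 := by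
    intro j w
    unfold Pr
    rw [intervalIntegral.integral_of_le zero_le_one]
  have hexc := ex_cont
  have i1 : ∀ j ∈ S, Integrable (fun x : ℝ => ex (-(j * x)) * f (ex x * z)) mu1 := fun j _ => by
    apply Continuous.integrableOn_Ioc
    fun_prop
  have hc2 : ∀ j : ℤ, Continuous fun y : ℝ × ℝ =>
      (((ka (A j) (M j) y.1 : ℝ) : ℂ) * ex (-(j * y.2))) * f (((y.1 : ℂ) * ex y.2) * z) := by
    intro j
    have := ka_cont (A j) (M j)
    fun_prop
  have i2 : ∀ j ∈ S, Integrable (fun y : ℝ × ℝ =>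
      (((ka (A j) (M j) y.1 : ℝ) : ℂ) * ex (-(j * y.2))) * f (((y.1 : ℂ) * ex y.2) * z)) (mu1.prod mu1) := by
    intro j _
    rw [Measure.prod_restrict]
    have h1 : IntegrableOn (fun y : ℝ × ℝ =>
      (((ka (A j) (M j) y.1 : ℝ) : ℂ) * ex (-(j * y.2))) * f (((y.1 : ℂ) * ex y.2) * z))
      (Set.Icc (0:ℝ) 1 ×ˢ Set.Icc (0:ℝ) 1) (volume.prod volume) :=
      (hc2 j).continuousOn.integrableOn_compact (isCompact_Icc.prod isCompact_Icc)
    exact h1.mono_set (Set.prod_mono Set.Ioc_subset_Icc_self Set.Ioc_subset_Icc_self)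
  have e1 : ∫ x, Fc S (fun _ => 1) x * f (ex x * z) ∂mu1 = ∑ j ∈ S, Pr j f z := by
    rw [Finset.sum_congr rfl fun j _ => hPr j z, ← integral_finsetSum _ i1]
    refine integral_congr_ae (Eventually.of_forall fun x => ?_)
    simp only
    unfold Fc
    rw [Finset.sum_mul]
    refine Finset.sum_congr rfl fun j _ => ?_
    rw [Complex.ofReal_one, one_mul]
  have e2 : ∫ y, kS S A M y * f (((y.1 : ℂ) * ex y.2) * z) ∂(mu1.prod mu1) =
      ∑ j ∈ S, ∫ v in (0:ℝ)..1, ((ka (A j) (M j) v : ℝ) : ℂ) * Pr j f ((v : ℂ) * z) := by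
    have h1 : ∀ j ∈ S, ∫ v in (0:ℝ)..1, ((ka (A j) (M j) v : ℝ) : ℂ) * Pr j f ((v : ℂ) * z) =
        ∫ y, (((ka (A j) (M j) y.1 : ℝ) : ℂ) * ex (-(j * y.2))) * f (((y.1 : ℂ) * ex y.2) * z)
          ∂(mu1.prod mu1) := by
      intro j hj
      rw [integral_prod _ (i2 j hj), intervalIntegral.integral_of_le zero_le_one]
      refine integral_congr_ae (Eventually.of_forall fun v => ?_)
      simp only
      rw [hPr, ← integral_const_mul]
      refine integral_congr_ae (Eventually.of_forall fun x => ?_)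
      simp only
      have : ex x * ((v : ℂ) * z) = ((v : ℂ) * ex x) * z := by ring
      rw [this]
      ring
    rw [Finset.sum_congr rfl h1, ← integral_finsetSum _ i2]
    refine integral_congr_ae (Eventually.of_forall fun y => ?_)
    simp only
    unfold kS
    rw [Finset.sum_mul]
  rw [e1, e2, ← Finset.sum_sub_distrib]
  unfold UU
  exact Finset.sum_congr rfl fun j _ => FF_eq _ _ (Pr_cont hf) z

lemma w1_le (S : Finset ℤ) (p : ℝ) :
    ∫⁻ x, ENNReal.ofReal (‖Fc S (fun _ => 1) x‖ * ‖ex x‖ ^ (-(2 / p))) ∂mu1 ≤ ENNReal.ofReal (√(S.card : ℝ)) := by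
  have h1 := l1l2 S (fun _ => 1)
  have h2 : ∑ j ∈ S, ((1:ℝ)) ^ 2 = S.card := by simp
  rw [h2] at h1
  have hF := (Fc_cont S (fun _ => 1)).norm
  simp only [ex_norm, Real.one_rpow, mul_one]
  rw [← ofReal_integral_eq_lintegral_ofReal hF.integrableOn_Ioc (Eventually.of_forall fun x => norm_nonneg _),
    ← intervalIntegral.integral_of_le zero_le_one]
  exact ENNReal.ofReal_le_ofReal h1

lemma w2_le (S : Finset ℤ) (A M : ℤ → ℕ) {p : ℝ} (hp : 2 < p) :
    ∫⁻ y, ENNReal.ofReal (‖kS S A M y‖ * ‖(y.1 : ℂ) * ex y.2‖ ^ (-(2 / p))) ∂(mu1.prod mu1) ≤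
      ENNReal.ofReal (GB S A M + 2 / p * GB' S A M) := by
  have hp0 : 0 < p := by linarith
  have hm : Measurable fun y : ℝ × ℝ => ENNReal.ofReal (‖kS S A M y‖ * ‖(y.1 : ℂ) * ex y.2‖ ^ (-(2 / p))) := by
    have h1 : Measurable fun y : ℝ × ℝ => ‖(y.1 : ℂ) * ex y.2‖ := by
      have := ex_cont
      exact (by fun_prop : Continuous fun y : ℝ × ℝ => ‖(y.1 : ℂ) * ex y.2‖).measurable
    exact ((kS_cont S A M).norm.measurable.mul (h1.pow_const _)).ennreal_ofReal
  rw [lintegral_prod _ hm.aemeasurable]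
  have hg := gS_cont S A M
  have h1 : GB S A M + 2 / p * GB' S A M =
      ∫ v in Set.Ioc (0:ℝ) 1, (2 * v * gS S A M v + 2 / p * (2 * gS S A M v)) := by
    unfold GB GB'
    rw [← intervalIntegral.integral_of_le zero_le_one, ← intervalIntegral.integral_const_mul,
      ← intervalIntegral.integral_add]
    · exact (by fun_prop : Continuous fun v : ℝ => 2 * v * gS S A M v).intervalIntegrable _ _
    · exact (by fun_prop : Continuous fun v : ℝ => 2 / p * (2 * gS S A M v)).intervalIntegrable _ _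
  rw [h1, ofReal_integral_eq_lintegral_ofReal]
  · refine setLIntegral_mono' measurableSet_Ioc fun v hv => ?_
    have hv0 : 0 < v := hv.1
    have h2 : v ^ (-(2 / p)) ≤ 1 + 2 / p * (1 / v - 1) := by
      have h3 := rpow_one_add_le_one_add_mul_self (s := 1 / v - 1)
        (by have : 0 < 1 / v := by positivity
            linarith) (p := 2 / p) (by positivity) (by rw [div_le_one hp0]; linarith)
      have h4 : (1 + (1 / v - 1)) = v⁻¹ := by rw [one_div]; ring
      rw [h4, Real.inv_rpow hv0.le, ← Real.rpow_neg hv0.le] at h3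
      exact h3
    set c : ℤ → ℝ := fun j => kb (A j) (M j) v with hc
    have h5 : ∀ x : ℝ, ENNReal.ofReal (‖kS S A M (v, x)‖ * ‖(v : ℂ) * ex x‖ ^ (-(2 / p))) ≤
        ENNReal.ofReal (2 * v + 2 / p * 2) * ENNReal.ofReal ‖Fc S c x‖ := by
      intro x
      rw [← ENNReal.ofReal_mul (by positivity)]
      refine ENNReal.ofReal_le_ofReal ?_
      rw [kS_eq, norm_mul, norm_mul, ex_norm, mul_one, Complex.norm_real, Complex.norm_real,
        Real.norm_of_nonneg hv0.le, Real.norm_of_nonneg (by positivity)]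
      show 2 * v * ‖Fc S c x‖ * v ^ (-(2 / p)) ≤ (2 * v + 2 / p * 2) * ‖Fc S c x‖
      have h6 : 2 * v * v ^ (-(2 / p)) ≤ 2 * v + 2 / p * 2 := by
        calc 2 * v * v ^ (-(2 / p)) ≤ 2 * v * (1 + 2 / p * (1 / v - 1)) :=
              mul_le_mul_of_nonneg_left h2 (by positivity)
          _ = 2 * v + 2 / p * 2 - 2 / p * (2 * v) := by
              field_simp
              ring
          _ ≤ _ := by
              have : 0 ≤ 2 / p * (2 * v) := by positivity
              linarith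
      calc 2 * v * ‖Fc S c x‖ * v ^ (-(2 / p)) = (2 * v * v ^ (-(2 / p))) * ‖Fc S c x‖ := by ring
        _ ≤ _ := mul_le_mul_of_nonneg_right h6 (norm_nonneg _)
    have hF := (Fc_cont S c).norm
    calc ∫⁻ x, ENNReal.ofReal (‖kS S A M (v, x)‖ * ‖((v, x).1 : ℂ) * ex (v, x).2‖ ^ (-(2 / p))) ∂mu1
        ≤ ∫⁻ x, ENNReal.ofReal (2 * v + 2 / p * 2) * ENNReal.ofReal ‖Fc S c x‖ ∂mu1 := lintegral_mono h5
      _ = ENNReal.ofReal (2 * v + 2 / p * 2) * ∫⁻ x, ENNReal.ofReal ‖Fc S c x‖ ∂mu1 :=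
          lintegral_const_mul _ hF.measurable.ennreal_ofReal
      _ ≤ ENNReal.ofReal (2 * v + 2 / p * 2) * ENNReal.ofReal (gS S A M v) := by
          gcongr
          rw [← ofReal_integral_eq_lintegral_ofReal hF.integrableOn_Ioc
            (Eventually.of_forall fun x => norm_nonneg _), ← intervalIntegral.integral_of_le zero_le_one]
          exact ENNReal.ofReal_le_ofReal (l1l2 S c)
      _ = ENNReal.ofReal (2 * v * gS S A M v + 2 / p * (2 * gS S A M v)) := by
          rw [← ENNReal.ofReal_mul (by positivity)]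
          congr 1
          ring
  · refine Continuous.integrableOn_Ioc ?_
    fun_prop
  · refine (ae_restrict_iff' measurableSet_Ioc).2 (Eventually.of_forall fun v hv => ?_)
    have := gS_nonneg S A M v
    have hv0 : 0 < v := hv.1
    show (0:ℝ) ≤ 2 * v * gS S A M v + 2 / p * (2 * gS S A M v)
    positivity

theorem UU_p (S : Finset ℤ) (A M : ℤ → ℕ) {B : ℝ} (hB : GB S A M ≤ B) (P : ℝ) (hP : 2 < P) :
    RTg.Bo (fun f : 𝓢(ℂ, ℂ) => UU S A M f) P ((√(S.card : ℝ) + B) + 2 / P * GB' S A M) := by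
  intro f
  have hp0 : 0 < P := by linarith
  have hexc := ex_cont
  have hG : 0 ≤ GB S A M := intervalIntegral.integral_nonneg zero_le_one fun v hv =>
    mul_nonneg (by linarith [hv.1]) (gS_nonneg S A M v)
  have hG' := GB'_nonneg S A M
  have m1 := gmink mu1 (κ := Fc S (fun _ => 1)) (c := ex) (Fc_cont S _).measurable ex_cont.measurable
    (Eventually.of_forall ex_ne) f.continuous (show 1 < P by linarith)
  have m2 := gmink (mu1.prod mu1) (κ := kS S A M) (c := fun y : ℝ × ℝ => (y.1 : ℂ) * ex y.2)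
    (kS_cont S A M).measurable (by fun_prop : Continuous fun y : ℝ × ℝ => (y.1 : ℂ) * ex y.2).measurable (by
      rw [Measure.prod_restrict]
      refine (ae_restrict_iff' (measurableSet_Ioc.prod measurableSet_Ioc)).2
        (Eventually.of_forall fun y hy => ?_)
      exact mul_ne_zero (Complex.ofReal_ne_zero.2 (ne_of_gt hy.1.1)) (ex_ne _))
    f.continuous (show 1 < P by linarith)
  set g1 : ℂ → ℂ := fun z => ∫ x, Fc S (fun _ => 1) x * f (ex x * z) ∂mu1 with hg1
  set g2 : ℂ → ℂ := fun z => ∫ y, kS S A M y * f (((y.1 : ℂ) * ex y.2) * z) ∂(mu1.prod mu1) with hg2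
  have hsum : ∀ z, UU S A M f z = g1 z - g2 z := fun z => UU_eq S A M f.continuous z
  have c1 : Continuous g1 := by
    have : g1 = fun z => ∫ x in (0:ℝ)..1, Fc S (fun _ => 1) x * f (ex x * z) := by
      funext z
      rw [intervalIntegral.integral_of_le zero_le_one]
    rw [this]
    refine intervalIntegral.continuous_parametric_intervalIntegral_of_continuous' ?_ 0 1
    have := Fc_cont S (fun _ => 1)
    fun_prop
  have c2 : Continuous g2 := by
    have : g2 = fun z => g1 z - UU S A M f z := by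
      funext z
      rw [hsum]
      ring
    rw [this]
    exact c1.sub (UU_dec S A M (sch_dec2 f)).1
  have h2 := ENNReal.lintegral_Lp_add_le (μ := volume) (f := fun z => ‖g1 z‖ₑ)
    (g := fun z => ‖g2 z‖ₑ) (p := P)
    c1.enorm.measurable.aemeasurable c2.enorm.measurable.aemeasurable (by linarith)
  have h3 : ∀ z, ‖UU S A M f z‖ₑ ≤ ((fun z => ‖g1 z‖ₑ) + fun z => ‖g2 z‖ₑ) z := by
    intro z
    rw [hsum]
    exact enorm_sub_le
  have b1 := m1.trans (mul_le_mul_left (ENNReal.rpow_le_rpow (w1_le S P) hp0.le) _)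
  have b2 := m2.trans (mul_le_mul_left (ENNReal.rpow_le_rpow (w2_le S A M hP) hp0.le) _)
  have root : ∀ (K : ℝ) (X : ℝ≥0∞), (ENNReal.ofReal K ^ P * X) ^ (1 / P) = ENNReal.ofReal K * X ^ (1 / P) := by
    intro K X
    rw [ENNReal.mul_rpow_of_nonneg _ _ (by positivity), ← ENNReal.rpow_mul, mul_one_div_cancel hp0.ne',
      ENNReal.rpow_one]
  have h4 : (∫⁻ z, ‖UU S A M f z‖ₑ ^ P) ^ (1 / P) ≤
      ENNReal.ofReal ((√(S.card : ℝ) + B) + 2 / P * GB' S A M) * (∫⁻ z, ‖f z‖ₑ ^ P) ^ (1 / P) := by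
    calc (∫⁻ z, ‖UU S A M f z‖ₑ ^ P) ^ (1 / P) ≤ _ :=
          ENNReal.rpow_le_rpow (lintegral_mono fun z => ENNReal.rpow_le_rpow (h3 z) hp0.le) (by positivity)
      _ ≤ _ := h2
      _ ≤ (ENNReal.ofReal (√(S.card : ℝ)) ^ P * ∫⁻ z, ‖f z‖ₑ ^ P) ^ (1 / P) +
          (ENNReal.ofReal (GB S A M + 2 / P * GB' S A M) ^ P * ∫⁻ z, ‖f z‖ₑ ^ P) ^ (1 / P) := by
          gcongr
      _ = ENNReal.ofReal (√(S.card : ℝ) + (GB S A M + 2 / P * GB' S A M)) * (∫⁻ z, ‖f z‖ₑ ^ P) ^ (1 / P) := by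
          rw [root, root, ENNReal.ofReal_add (Real.sqrt_nonneg _)
            (by positivity : (0:ℝ) ≤ GB S A M + 2 / P * GB' S A M), add_mul]
      _ ≤ _ := mul_le_mul_left (ENNReal.ofReal_le_ofReal (by linarith)) _
  have h5 := ENNReal.rpow_le_rpow h4 hp0.le
  rwa [← ENNReal.rpow_mul, one_div_mul_cancel hp0.ne', ENNReal.rpow_one,
    ENNReal.mul_rpow_of_nonneg _ _ hp0.le, ← ENNReal.rpow_mul, one_div_mul_cancel hp0.ne',
    ENNReal.rpow_one] at h5

/-- the operator on `L ^ p` -/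
theorem UU_all (S : Finset ℤ) (A M : ℤ → ℕ) {C : ℝ} (hC0 : 0 < C) (hC : √(S.card : ℝ) + GB S A M ≤ C)
    {p : ℝ} (hp : 2 ≤ p) : RTg.Bo (fun f : 𝓢(ℂ, ℂ) => UU S A M f) p (C ^ (1 - 2 / p)) := by
  refine interp_gen (UU_lin S A M) (UU_two S A M) hC0 (GB'_nonneg S A M) (fun P hP => ?_) hp
  have h := UU_p S A M (B := C - √(S.card : ℝ)) (by linarith) P hP
  have e : (√(S.card : ℝ) + (C - √(S.card : ℝ))) = C := by ring
  rwa [e] at h

end Pool.Agent.Run7.h695.BT
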