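import Pool.Agent.Run7.h695.BT.Num
import Pool.Agent.Run7.h695.BT.Frac

/-!
# The sum of the constants over the window (helper695)
-/

set_option autoImplicit false

open Finset

namespace Pool.Agent.Run7.h695.BT

open Pool.Agent.Y282.RB

lemma exp_sum2 {n : ℕ} (hn : 1 ≤ n) :
    6.7 * (n : ℝ) + 0.67 ≤ Real.exp (∑ j ∈ range n, 2 / (2 * (j : ℝ) + 1)) := by
  have h2 : 6.7 * ((2 : ℕ) : ℝ) + 0.67 ≤ Real.exp (∑ j ∈ range 2, 2 / (2 * (j : ℝ) + 1)) := by
    rw [Finset.sum_range_succ, sum_range_one, Real.exp_add]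
    have h1 := exp_two
    have e1 : (2 : ℝ) / (2 * ((0 : ℕ) : ℝ) + 1) = 2 := by norm_num
    have e2 : (2 : ℝ) / (2 * ((1 : ℕ) : ℝ) + 1) = 2 / 3 := by norm_num
    rw [e1, e2]
    have h3 : (1.93 : ℝ) ≤ Real.exp (2 / 3) := by
      have := Real.sum_le_exp_of_nonneg (x := 2 / 3) (by norm_num) 4
      rw [Finset.sum_range_succ, Finset.sum_range_succ, Finset.sum_range_succ, Finset.sum_range_one] at this
      norm_num [Nat.factorial] at this
      norm_num
      linarith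
    push_cast
    nlinarith
  rcases Nat.lt_or_ge n 2 with h | h
  · have : n = 1 := by omega
    subst this
    rw [sum_range_one]
    have := exp_two
    norm_num
    norm_num at this
    linarith
  · induction n, h using Nat.le_induction with
    | base => exact h2
    | succ n hn2 ih =>
      rw [Finset.sum_range_succ, Real.exp_add]
      have hn' : (2:ℝ) ≤ n := by exact_mod_cast hn2
      have h1 := Real.quadratic_le_exp_of_nonneg (x := 2 / (2 * (n : ℝ) + 1)) (by positivity)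
      have h3 : (n + 1.1) / (n + 0.1 : ℝ) ≤ 1 + 2 / (2 * (n : ℝ) + 1) + (2 / (2 * (n : ℝ) + 1)) ^ 2 / 2 := by
        have e : 1 + 2 / (2 * (n : ℝ) + 1) + (2 / (2 * (n : ℝ) + 1)) ^ 2 / 2 =
            (4 * n ^ 2 + 8 * n + 5) / (2 * n + 1) ^ 2 := by
          field_simp
          ring
        rw [e, div_le_div_iff₀ (by positivity) (by positivity)]
        nlinarith
      have h4 := ih (by omega)
      have h5 : 0 < (n + 1.1) / (n + 0.1 : ℝ) := by positivity
      calc 6.7 * ((n + 1 : ℕ) : ℝ) + 0.67 = (6.7 * n + 0.67) * ((n + 1.1) / (n + 0.1 : ℝ)) := by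
            have : (n : ℝ) + 0.1 ≠ 0 := by positivity
            push_cast
            field_simp
            ring
        _ ≤ _ := mul_le_mul h4 (h3.trans h1) h5.le (Real.exp_pos _).le

/-- comparison with the constant of `MP_dd244f_an` -/
theorem numA2 {n : ℕ} (hn : 1 ≤ n) {p : ℝ} (hp : 2 ≤ p) {C : ℝ} (hC0 : 0 ≤ C) (hC : C ≤ 6.7 * n + 0.67) :
    C ^ (1 - 2 / p) ≤ (ascPochhammer ℝ n).eval (1 - 1 / p) / (ascPochhammer ℝ n).eval (1 / p) := by
  have hp0 : 0 < p := by linarith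
  have he : 0 ≤ 1 - 2 / p := by
    rw [sub_nonneg, div_le_one hp0]; exact hp
  rw [← K3.main n p (by linarith)]
  exact (Real.rpow_le_rpow hC0 (hC.trans (exp_sum2 hn)) he).trans (Cn_ge hp n)

/-- the constant of one type -/
noncomputable def cc (n : ℕ) (j : ℤ) : ℝ :=
  0.45 * (2 * n - j) + 5.4 * (n * (n - j) * (2 * n - j) / ((2 * (n : ℝ) - j) ^ 2 - 1))

lemma cj_eq {n : ℕ} {j : ℤ} (hj : j ≤ n) : cj (An n j) (Mn n j) = cc n j := by
  have e1 : 2 * (Mn n j : ℝ) + An n j = 2 * n - j := by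
    have h : ((2 * Mn n j + An n j : ℕ) : ℤ) = 2 * n - j := by
      unfold Mn An
      rw [if_pos hj, if_pos hj]
      omega
    have h2 : (((2 * Mn n j + An n j : ℕ) : ℤ) : ℝ) = ((2 * n - j : ℤ) : ℝ) := by rw [h]
    push_cast at h2
    exact h2
  have e2 : (Mn n j : ℝ) * (Mn n j + An n j) = n * (n - j) := by
    have h : ((Mn n j * (Mn n j + An n j) : ℕ) : ℤ) = n * (n - j) := by
      unfold Mn An
      rw [if_pos hj, if_pos hj]
      rcases le_total j 0 with h | h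
      · have e1 : ((n : ℤ) - max j 0).toNat = n := by omega
        have e2 : ((j.natAbs : ℕ) : ℤ) = -j := by omega
        rw [e1]
        push_cast
        rw [Int.natCast_natAbs] at e2
        rw [e2]
        ring
      · have e1 : (((n : ℤ) - max j 0).toNat : ℤ) = n - j := by omega
        have e2 : ((j.natAbs : ℕ) : ℤ) = j := by omega
        push_cast
        rw [e1]
        rw [Int.natCast_natAbs] at e2
        rw [e2]
        ring
    have h2 : (((Mn n j * (Mn n j + An n j) : ℕ) : ℤ) : ℝ) = ((n * (n - j) : ℤ) : ℝ) := by rw [h]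
    push_cast at h2
    exact h2
  unfold cj cc
  rw [e1, e2]

lemma cc_nonneg {n : ℕ} {j : ℤ} (hj : j ≤ n) (hn : 1 ≤ n) : 0 ≤ cc n j := by
  have hn' : (1:ℝ) ≤ n := by exact_mod_cast hn
  have hj' : (j : ℝ) ≤ n := by exact_mod_cast hj
  unfold cc
  have h1 : 0 ≤ (2 * (n : ℝ) - j) ^ 2 - 1 := by nlinarith
  have h2 : 0 ≤ (n : ℝ) * (n - j) * (2 * n - j) / ((2 * (n : ℝ) - j) ^ 2 - 1) :=
    div_nonneg (mul_nonneg (mul_nonneg (by linarith) (by linarith)) (by linarith)) h1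
  nlinarith

lemma cc_le {n i : ℕ} (hn : 1 ≤ n) (hi : 1 ≤ i) : cc n (n - i) ≤
    3 * n + 43 / 60 * (n + i) + 5.4 * n * (1 / ((n : ℝ) + i) - 1 / (n + i + 1)) := by
  have hn' : (1:ℝ) ≤ n := by exact_mod_cast hn
  have hi' : (1:ℝ) ≤ i := by exact_mod_cast hi
  unfold cc
  push_cast
  have e1 : 2 * (n : ℝ) - (n - i) = n + i := by ring
  have e2 : (n : ℝ) - (n - i) = i := by ring
  rw [e1, e2]
  set R : ℝ := (n : ℝ) + i with hR
  have hR2 : 2 ≤ R := by rw [hR]; linarith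
  have hi2 : (i : ℝ) = R - n := by rw [hR]; ring
  rw [hi2]
  have hR1 : 0 < R ^ 2 - 1 := by nlinarith
  have e3 : (n : ℝ) * (R - n) * R / (R ^ 2 - 1) =
      n * (1 / R - 1 / (R + 1)) + n * (1 - n / R - (n - 1) / (R * (R ^ 2 - 1))) := by
    have h0 : R ≠ 0 := by positivity
    have h1 : R + 1 ≠ 0 := by positivity
    have h2 : R ^ 2 - 1 ≠ 0 := hR1.ne'
    field_simp
    ring
  rw [e3]
  have h4 : 0 ≤ ((n : ℝ) - 1) / (R * (R ^ 2 - 1)) := div_nonneg (by linarith) (by positivity)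
  have h5 : 5.4 * ((n : ℝ) * (1 - n / R)) ≤ 3 * n + 4 / 15 * R := by
    have h6 : (n : ℝ) * (1 - n / R) = n - n ^ 2 / R := by ring
    have h7 : 2 * (2 / 9) * n - (2 / 9) ^ 2 * R ≤ (n : ℝ) ^ 2 / R := by
      rw [le_div_iff₀ (by positivity)]
      nlinarith [sq_nonneg ((n : ℝ) - 2 / 9 * R)]
    rw [h6]
    nlinarith
  have h8 : (n : ℝ) * (1 - n / R - (n - 1) / (R * (R ^ 2 - 1))) ≤ n * (1 - n / R) :=
    mul_le_mul_of_nonneg_left (by linarith) (by linarith)
  nlinarith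

lemma sum_cc {n : ℕ} (hn : 1 ≤ n) {N : ℕ} (hN : 1 ≤ N) : ∑ i ∈ range N, cc n (n - i) ≤
    0.45 * n + 3 * n * (N - 1) + 43 / 60 * (n * (N - 1) + N * (N - 1) / 2) +
      5.4 * n * (1 / ((n : ℝ) + 1) - 1 / (n + N)) := by
  induction N, hN using Nat.le_induction with
  | base =>
    rw [sum_range_one]
    unfold cc
    push_cast
    rw [show 2 * (n : ℝ) - (n - 0) = n by ring, show (n : ℝ) - (n - 0) = 0 by ring]
    simp
  | succ N hN ih =>
    rw [Finset.sum_range_succ]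
    have h := cc_le hn hN
    have e : (n : ℝ) + N + 1 = n + (N + 1) := by ring
    rw [e] at h
    push_cast
    have e2 : (N : ℝ) + 1 - 1 = N := by ring
    rw [e2]
    nlinarith

lemma sum_window {n : ℕ} (hn : 1 ≤ n) {S : Finset ℤ} (hS : ∀ j ∈ S, -(6 * n : ℤ) < j ∧ j ≤ n) :
    ∑ j ∈ S, cc n j ≤ (6.7 * n - 0.33) ^ 2 := by
  have hn' : (1:ℝ) ≤ n := by exact_mod_cast hn
  have h1 : S ⊆ (range (7 * n)).image fun i : ℕ => (n : ℤ) - i := by
    intro j hj
    have := hS j hj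
    rw [Finset.mem_image]
    exact ⟨((n : ℤ) - j).toNat, by rw [mem_range]; omega, by omega⟩
  have h2 : ∑ j ∈ S, cc n j ≤ ∑ j ∈ (range (7 * n)).image fun i : ℕ => (n : ℤ) - i, cc n j := by
    refine Finset.sum_le_sum_of_subset_of_nonneg h1 fun j hj _ => ?_
    obtain ⟨i, _, rfl⟩ := Finset.mem_image.1 hj
    exact cc_nonneg (by omega) hn
  rw [Finset.sum_image (fun a _ b _ h => by simpa using h)] at h2
  refine h2.trans ((sum_cc hn (by omega)).trans ?_)
  push_cast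
  have h3 : 0 ≤ 5.4 * (n : ℝ) * (1 / (n + 7 * n)) := by positivity
  have h4 : 5.4 * (n : ℝ) * (1 / ((n : ℝ) + 1)) ≤ 1.315 * n ^ 2 + 1.353 * n + 0.1089 := by
    rw [mul_one_div, div_le_iff₀ (by positivity)]
    nlinarith [mul_nonneg (show (0:ℝ) ≤ n - 1 by linarith) (show (0:ℝ) ≤ n - 1 by linarith),
      mul_nonneg (mul_nonneg (show (0:ℝ) ≤ n - 1 by linarith) (show (0:ℝ) ≤ n - 1 by linarith))
        (show (0:ℝ) ≤ n by linarith)]
  nlinarith

end Pool.Agent.Run7.h695.BT
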