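import Pool.Agent.Run7.h695.BT.Ker
import Pool.Agent.Y282.RB.A2

/-!
# The multiplier on `z ^ (2 m + a) g(|z| ^ 2)` (helper695)
-/

set_option autoImplicit false

open MeasureTheory Filter Topology
open scoped ContDiff

namespace Pool.Agent.Run7.h695.BT

open Pool.Agent.Y282.RB Pool.Agent.Y282.RB.A2
open Polynomial (X C aeval)

/-- smooth functions that vanish far to the right -/
def SR : Submodule ℝ (ℝ → ℂ) where
  carrier := {f | ContDiff ℝ ∞ f ∧ ∃ R : ℝ, ∀ x, R ≤ x → f x = 0}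
  add_mem' := by
    rintro f g ⟨hf, R, hR⟩ ⟨hg, S, hS⟩
    refine ⟨hf.add hg, max R S, fun x hx => ?_⟩
    show f x + g x = 0
    rw [hR x ((le_max_left _ _).trans hx), hS x ((le_max_right _ _).trans hx), add_zero]
  zero_mem' := ⟨contDiff_const, 0, fun _ _ => rfl⟩
  smul_mem' := by
    rintro c f ⟨hf, R, hR⟩
    refine ⟨contDiff_const.smul hf, R, fun x hx => ?_⟩
    show c • f x = 0
    rw [hR x hx, smul_zero]

lemma deriv_far {f : ℝ → ℂ} {R : ℝ} (h : ∀ x, R ≤ x → f x = 0) (x : ℝ) (hx : R + 1 ≤ x) :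
    deriv f x = 0 := by
  have h1 : f =ᶠ[𝓝 x] fun _ => (0 : ℂ) := by
    filter_upwards [Ioi_mem_nhds (show R < x by linarith)] with y hy
    exact h y (le_of_lt hy)
  rw [h1.deriv_eq]
  simp

/-- the Euler operator -/
noncomputable def EE : SR →ₗ[ℝ] SR where
  toFun f := ⟨fun t => (t : ℂ) * deriv f.1 t, by
    obtain ⟨f, hf, R, hR⟩ := f
    refine ⟨Complex.ofRealCLM.contDiff.mul (contDiff_infty_iff_deriv.1 hf).2, R + 1, fun x hx => ?_⟩
    show (x : ℂ) * deriv f x = 0
    rw [deriv_far hR x hx, mul_zero]⟩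
  map_add' f g := by
    apply Subtype.ext
    funext t
    show (t : ℂ) * deriv (f.1 + g.1) t = (t : ℂ) * deriv f.1 t + (t : ℂ) * deriv g.1 t
    rw [deriv_add ((f.2.1.differentiable (by norm_num)) t) ((g.2.1.differentiable (by norm_num)) t)]
    ring
  map_smul' c f := by
    apply Subtype.ext
    funext t
    show (t : ℂ) * deriv (c • f.1) t = c • ((t : ℂ) * deriv f.1 t)
    rw [deriv_const_smul c ((f.2.1.differentiable (by norm_num)) t)]
    simp only [Complex.real_smul]
    ring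

lemma aeval_lin (c : ℝ) (f : SR) (t : ℝ) :
    ((aeval EE (X - C c)) f).1 t = (t : ℂ) * deriv f.1 t - (c : ℂ) * f.1 t := by
  simp only [map_sub, Polynomial.aeval_X, Polynomial.aeval_C]
  show (t : ℂ) * deriv f.1 t - (((algebraMap ℝ (Module.End ℝ SR)) c) f).1 t = _
  rw [Module.algebraMap_end_apply]
  show (t : ℂ) * deriv f.1 t - c • f.1 t = _
  rw [Complex.real_smul]

lemma aeval_QQ (h : SR) (j : ℕ) (t : ℝ) :
    ((aeval EE (QQ j)) h).1 t = (t : ℂ) ^ j * iteratedDeriv j h.1 t := by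
  induction j generalizing t with
  | zero => simp [QQ]
  | succ j ih =>
    have e1 : QQ (j + 1) = (X - C ((j : ℕ) : ℝ)) * QQ j := by
      unfold QQ
      rw [Finset.prod_range_succ, mul_comm]
    have e2 : ((aeval EE (QQ j)) h).1 = fun t : ℝ => (t : ℂ) ^ j * iteratedDeriv j h.1 t := funext ih
    rw [e1, map_mul, Module.End.mul_apply, aeval_lin, e2]
    have h1 : HasDerivAt (iteratedDeriv j h.1) (iteratedDeriv (j + 1) h.1 t) t := by
      rw [iteratedDeriv_succ]
      exact ((h.2.1.differentiable_iteratedDeriv j (by exact_mod_cast ENat.natCast_lt_top j)) t).hasDerivAt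
    have h3 : HasDerivAt (fun t : ℝ => (t : ℂ) ^ j) ((j : ℂ) * (t : ℂ) ^ (j - 1)) t :=
      (hasDerivAt_pow j (t : ℂ)).comp_ofReal
    have h4 := (h3.mul h1).deriv
    have h5 : deriv (fun t : ℝ => (t : ℂ) ^ j * iteratedDeriv j h.1 t) t = _ := h4
    rw [h5]
    rcases Nat.eq_zero_or_pos j with h0 | h0
    · subst h0
      simp
    · obtain ⟨l, rfl⟩ : ∃ l, j = l + 1 := ⟨j - 1, by omega⟩
      simp only [Nat.add_sub_cancel]
      push_cast
      ring

/-- the product in `HH` -/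
noncomputable def PR (N j : ℕ) : Polynomial ℝ := ∏ i ∈ Finset.range j, (X - C (-((N - i : ℕ) : ℝ)))

lemma aeval_PR (N : ℕ) (h : SR) (j : ℕ) (t : ℝ) :
    ((aeval EE (PR N j)) h).1 t = HH N h.1 j t := by
  induction j generalizing t with
  | zero => simp [PR, HH]
  | succ j ih =>
    have e1 : PR N (j + 1) = (X - C (-((N - j : ℕ) : ℝ))) * PR N j := by
      unfold PR
      rw [Finset.prod_range_succ, mul_comm]
    have e2 : ((aeval EE (PR N j)) h).1 = HH N h.1 j := funext ih
    rw [e1, map_mul, Module.End.mul_apply, aeval_lin, e2]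
    show _ = ((N - j : ℕ) : ℂ) * HH N h.1 j t + (t : ℂ) * deriv (HH N h.1 j) t
    push_cast
    ring

lemma PR_eq (a m : ℕ) : PR (m + a) m = PP a m := by
  unfold PR PP
  rw [← Finset.prod_range_reflect]
  refine Finset.prod_congr rfl fun i hi => ?_
  have hi' := Finset.mem_range.1 hi
  congr 3
  have : m + a - (m - 1 - i) = a + 1 + i := by omega
  rw [this]
  push_cast
  ring

/-- **the formula** for the top function, with unspecified solutions of first order equations -/
lemma HH_formula (a m : ℕ) (h : SR) : ∃ u : ℕ → SR,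
    (∀ k < m, ∀ t : ℝ, (t : ℂ) * deriv (u k).1 t - (k : ℂ) * (u k).1 t =
      (t : ℂ) ^ m * iteratedDeriv m h.1 t) ∧
    ∀ t : ℝ, HH (m + a) h.1 m t = (t : ℂ) ^ m * iteratedDeriv m h.1 t +
      ∑ k ∈ Finset.range m, ((ck a m k : ℝ) : ℂ) * (u k).1 t := by
  refine ⟨fun k => (aeval EE (QK m k)) h, fun k hk t => ?_, fun t => ?_⟩
  · have h1 := aeval_QQ h m t
    rw [← QK_mul hk, map_mul, Module.End.mul_apply, aeval_lin] at h1
    push_cast at h1
    exact h1
  · rw [← aeval_PR, PR_eq, lagr]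
    simp only [map_add, map_sum, map_mul, Polynomial.aeval_C, LinearMap.add_apply, LinearMap.sum_apply,
      Module.End.mul_apply, Module.algebraMap_end_apply]
    rw [← aeval_QQ]
    have e : ∀ (S : Finset ℕ) (w : ℕ → SR), (∑ k ∈ S, w k).1 t = ∑ k ∈ S, (w k).1 t := by
      intro S w
      induction S using Finset.induction_on with
      | empty => simp
      | insert i S hi ih =>
        rw [Finset.sum_insert hi, Finset.sum_insert hi, ← ih]
        rfl
    show ((aeval EE (QQ m)) h).1 t + (∑ k ∈ Finset.range m, ck a m k • (aeval EE (QK m k)) h).1 t = _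
    rw [e]
    congr 1

/-- uniqueness for the first order equations -/
lemma solve {m k : ℕ} (hk : k < m) {g : ℝ → ℂ} (hg : Continuous g) {R : ℝ} (hR : ∀ x, R ≤ x → g x = 0)
    (u : SR) (hu : ∀ t : ℝ, (t : ℂ) * deriv u.1 t - (k : ℂ) * u.1 t = (t : ℂ) ^ m * g t)
    {t : ℝ} (ht : 0 < t) :
    u.1 t = -((t : ℂ) ^ k * ∫ s in t..R, (s : ℂ) ^ (m - 1 - k) * g s) := by
  obtain ⟨S, hS⟩ := u.2.2
  set M : ℝ := max (max R S) t with hM
  have hMR : R ≤ M := (le_max_left _ _).trans (le_max_left _ _)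
  have hMS : S ≤ M := (le_max_right _ _).trans (le_max_left _ _)
  have hMt : t ≤ M := le_max_right _ _
  have hc : Continuous fun s : ℝ => (s : ℂ) ^ (m - 1 - k) * g s := by fun_prop
  have h1 : ∀ x ∈ Set.uIcc t M, HasDerivAt (fun x : ℝ => ((x : ℂ) ^ k)⁻¹ * u.1 x)
      ((x : ℂ) ^ (m - 1 - k) * g x) x := by
    intro x hx
    rw [Set.uIcc_of_le hMt] at hx
    have hx0 : 0 < x := lt_of_lt_of_le ht hx.1
    have hxc : (x : ℂ) ≠ 0 := Complex.ofReal_ne_zero.2 hx0.ne'
    have h2 : HasDerivAt u.1 (deriv u.1 x) x := ((u.2.1.differentiable (by norm_num)) x).hasDerivAt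
    have h3 : HasDerivAt (fun x : ℝ => (x : ℂ) ^ k) ((k : ℂ) * (x : ℂ) ^ (k - 1)) x :=
      (hasDerivAt_pow k (x : ℂ)).comp_ofReal
    have h4 := (h3.inv (pow_ne_zero k hxc)).mul h2
    refine h4.congr_deriv ?_
    simp only [Pi.inv_apply]
    have h5 : deriv u.1 x = ((x : ℂ) ^ m * g x + (k : ℂ) * u.1 x) / x := by
      rw [eq_div_iff hxc, ← hu x]
      ring
    rw [h5]
    have e1 : (x : ℂ) ^ m = (x : ℂ) ^ (m - 1 - k) * (x : ℂ) ^ k * x := by
      rw [← pow_add, ← pow_succ]
      congr 1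
      omega
    rw [e1]
    rcases Nat.eq_zero_or_pos k with h0 | h0
    · subst h0
      simp
      field_simp
    · obtain ⟨l, rfl⟩ : ∃ l, k = l + 1 := ⟨k - 1, by omega⟩
      simp only [Nat.add_sub_cancel]
      field_simp
      push_cast
      ring
  have h2 := intervalIntegral.integral_eq_sub_of_hasDerivAt h1 (hc.intervalIntegrable _ _)
  rw [hS M hMS, mul_zero, zero_sub] at h2
  have h3 : ∫ s in t..M, (s : ℂ) ^ (m - 1 - k) * g s = ∫ s in t..R, (s : ℂ) ^ (m - 1 - k) * g s := by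
    rw [← intervalIntegral.integral_add_adjacent_intervals (hc.intervalIntegrable t R)
      (hc.intervalIntegrable R M)]
    have : ∫ s in R..M, (s : ℂ) ^ (m - 1 - k) * g s = 0 := by
      have h4 : Set.EqOn (fun s : ℝ => (s : ℂ) ^ (m - 1 - k) * g s) (fun _ => (0:ℂ)) (Set.uIcc R M) := by
        intro s hs
        rw [Set.uIcc_of_le hMR] at hs
        simp only
        rw [hR s hs.1, mul_zero]
      rw [intervalIntegral.integral_congr h4]
      simp
    rw [this, add_zero]
  rw [← h3, h2]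
  have htc : (t : ℂ) ^ k ≠ 0 := pow_ne_zero k (Complex.ofReal_ne_zero.2 ht.ne')
  field_simp

end Pool.Agent.Run7.h695.BT
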