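import Pool.Agent.N892.BW.RTT

/-!
Interpolation of Riesz and Thorin for linear operators on Schwartz functions of the plane
(`Pool.Agent.N892.BW.RTT`, by helper310, has it for the powers of the Beurling transform; the proof
is the same). By helper695.
-/

set_option autoImplicit false

open MeasureTheory Filter Topology Complex Set
open scoped ComplexConjugate ENNReal SchwartzMap ContDiff

namespace Pool.Agent.Run7.h695.BT.RTg

open Pool.Agent.N892.BW.RTT (Av Av_sum Bx sn Fi' ap LL MM cc cc_ne LL_pos Av_pow_sum sn_norm conv rt3 Av_pow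
  ap_Lp Ec_int St St_int St_meas St_lim)

/-- linear operators with continuous values -/
structure Lin (T : 𝓢(ℂ, ℂ) → ℂ → ℂ) : Prop where
  add : ∀ f g z, T (f + g) z = T f z + T g z
  smul : ∀ (c : ℂ) f z, T (c • f) z = c * T f z
  cont : ∀ f, Continuous (T f)

theorem Lin.zero {T : 𝓢(ℂ, ℂ) → ℂ → ℂ} (hT : Lin T) (z : ℂ) : T 0 z = 0 := by
  have h := hT.smul 0 (0 : 𝓢(ℂ, ℂ)) z
  rwa [zero_smul, zero_mul] at h

theorem Lin.sum {T : 𝓢(ℂ, ℂ) → ℂ → ℂ} (hT : Lin T) {ι : Type} (S : Finset ι) (a : ι → ℂ)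
    (f : ι → 𝓢(ℂ, ℂ)) (z : ℂ) : T (∑ i ∈ S, a i • f i) z = ∑ i ∈ S, a i * T (f i) z := by
  classical
  induction S using Finset.induction_on with
  | empty => rw [Finset.sum_empty, Finset.sum_empty, hT.zero]
  | insert i S hi ih => rw [Finset.sum_insert hi, Finset.sum_insert hi, hT.add, hT.smul, ih]

theorem Lin.sub {T : 𝓢(ℂ, ℂ) → ℂ → ℂ} (hT : Lin T) (f g : 𝓢(ℂ, ℂ)) (z : ℂ) :
    T (f - g) z = T f z - T g z := by
  have h : f - g = f + (-1 : ℂ) • g := by rw [neg_one_smul, sub_eq_add_neg]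
  rw [h, hT.add, hT.smul]
  ring

/-- the bound for all Schwartz functions, as an inequality between integrals -/
def Bo (T : 𝓢(ℂ, ℂ) → ℂ → ℂ) (q K : ℝ) : Prop := ∀ f : 𝓢(ℂ, ℂ),
  ∫⁻ x, ‖T f x‖ₑ ^ q ≤ ENNReal.ofReal K ^ q * ∫⁻ x, ‖f x‖ₑ ^ q

theorem Av_TS {T : 𝓢(ℂ, ℂ) → ℂ → ℂ} (hT : Lin T) {L L' : ℝ} (hL : 0 < L) (hL' : 0 < L') (M : ℕ)
    (m : ℤ × ℤ) (a : ℤ × ℤ → ℂ) :
    Av L' m (T (sn hL M a)) = ∑ i ∈ Bx M, a i * Av L' m (T (Fi' hL i)) := by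
  have h1 : T (sn hL M a) = fun x => ∑ i ∈ Bx M, a i * T (Fi' hL i) x := by
    funext x
    unfold sn
    rw [hT.sum]
  rw [h1, Av_sum hL' m (Bx M) a (fun i => T (Fi' hL i)) fun i => hT.cont _]

theorem edge {T : 𝓢(ℂ, ℂ) → ℂ → ℂ} (hT : Lin T) {L L' : ℝ} (hL : 0 < L) (hL' : 0 < L') {q K : ℝ} (hq : 1 < q) (hK : 0 < K)
    (hB : Bo T q K) (M : ℕ) (S' : Finset (ℤ × ℤ)) (a : ℤ × ℤ → ℂ) :
    ∑ m ∈ S', ‖∑ i ∈ Bx M, a i * Av L' m (T (Fi' hL i))‖ ^ q ≤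
      (K * (L' ^ 2 / L ^ 2) ^ (1 / q)) ^ q * ∑ i ∈ Bx M, ‖a i‖ ^ q := by
  have hq0 : 0 < q := by linarith
  have hR : 0 ≤ (K * (L' ^ 2 / L ^ 2) ^ (1 / q)) ^ q * ∑ i ∈ Bx M, ‖a i‖ ^ q := by positivity
  rw [← ENNReal.ofReal_le_ofReal_iff hR, conv S' _ hq0, ENNReal.ofReal_mul (by positivity),
    conv (Bx M) a hq0]
  simp only [← Av_TS hT hL hL' M _ a]
  have h1 := Av_pow_sum hL' S' (hT.cont (sn hL M a)) hq
  have h2 := hB (sn hL M a)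
  have h3 := sn_norm hL M a hq
  have h4 : ENNReal.ofReal ((K * (L' ^ 2 / L ^ 2) ^ (1 / q)) ^ q) =
      cc L' * (ENNReal.ofReal K ^ q * (cc L)⁻¹) := by
    rw [Real.mul_rpow hK.le (by positivity), ← Real.rpow_mul (by positivity),
      one_div_mul_cancel hq0.ne', Real.rpow_one, cc, cc, ← ENNReal.ofReal_inv_of_pos (by positivity),
      ENNReal.ofReal_rpow_of_pos hK, ← ENNReal.ofReal_mul (by positivity),
      ← ENNReal.ofReal_mul (by positivity)]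
    congr 1
    field_simp
  rw [h4]
  calc _ ≤ cc L' * ∫⁻ x, ‖T (sn hL M a) x‖ₑ ^ q := h1
    _ ≤ cc L' * (ENNReal.ofReal K ^ q * ((∑ i ∈ Bx M, ‖a i‖ₑ ^ q) * (cc L)⁻¹)) := by
        refine mul_le_mul_right (h2.trans (mul_le_mul_right h3 _)) _
    _ = _ := by ring

/-- the discrete inequality for the intermediate exponent -/
theorem disc {T : 𝓢(ℂ, ℂ) → ℂ → ℂ} (hT : Lin T) {L' : ℝ} (hL' : 0 < L') {p₀ p₁ p θ K₀ K₁ : ℝ} (hp0 : 1 < p₀)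
    (hlt0 : p₀ < p) (hlt1 : p < p₁) (hth : 1 / p = (1 - θ) / p₀ + θ / p₁) (hK0 : 0 < K₀)
    (hK1 : 0 < K₁) (B0 : Bo T p₀ K₀) (B1 : Bo T p₁ K₁) (N : ℕ) (S' : Finset (ℤ × ℤ)) (f : 𝓢(ℂ, ℂ)) :
    ∑ m ∈ S', ‖Av L' m (T (ap N f))‖ₑ ^ p ≤
      ENNReal.ofReal (K₀ ^ (1 - θ) * K₁ ^ θ) ^ p * (cc L' * ∫⁻ x, ‖f x‖ₑ ^ p) := by
  have hL := LL_pos N
  set L := LL N with hLdef
  have hp : 1 < p := by linarith
  have hp' : 0 < p := by linarith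
  have hp00 : 0 < p₀ := by linarith
  have hp10 : 0 < p₁ := by linarith
  have hlt : 1 / p₁ < 1 / p₀ := one_div_lt_one_div_of_lt hp00 (by linarith)
  have hs : 1 - θ = (1 / p - 1 / p₁) / (1 / p₀ - 1 / p₁) := by
    rw [eq_div_iff (by linarith), hth]
    ring
  set ρ : ℝ := L' ^ 2 / L ^ 2 with hρ
  have hρ0 : 0 < ρ := by positivity
  have key := rt3 p₀ p₁ p (K₀ * ρ ^ (1 / p₀)) (K₁ * ρ ^ (1 / p₁)) hp0 hlt0 hlt1 (by positivity)
    (by positivity) (Bx (MM N)) S' (fun m i => Av L' m (T (Fi' hL i)))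
    (fun a => edge hT hL hL' hp0 hK0 B0 (MM N) S' a)
    (fun a => edge hT hL hL' (by linarith) hK1 B1 (MM N) S' a) (1 - θ) hs
    (fun i => Av L i f)
  simp only [← Av_TS hT hL hL' (MM N) _ (fun i => Av L i f)] at key
  have hconst : ((K₁ * ρ ^ (1 / p₁)) ^ (1 - (1 - θ)) * (K₀ * ρ ^ (1 / p₀)) ^ (1 - θ)) ^ p =
      (K₀ ^ (1 - θ) * K₁ ^ θ) ^ p * ρ := by
    rw [Real.mul_rpow hK1.le (by positivity), Real.mul_rpow hK0.le (by positivity),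
      ← Real.rpow_mul hρ0.le, ← Real.rpow_mul hρ0.le]
    have e1 : K₁ ^ (1 - (1 - θ)) * ρ ^ (1 / p₁ * (1 - (1 - θ))) *
        (K₀ ^ (1 - θ) * ρ ^ (1 / p₀ * (1 - θ))) = (K₀ ^ (1 - θ) * K₁ ^ θ) * ρ ^ (1 / p) := by
      have e2 : (1 : ℝ) / p = 1 / p₁ * (1 - (1 - θ)) + 1 / p₀ * (1 - θ) := by rw [hth]; ring
      rw [e2, Real.rpow_add hρ0, sub_sub_cancel]
      ring
    rw [e1, Real.mul_rpow (by positivity) (by positivity), ← Real.rpow_mul hρ0.le,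
      one_div_mul_cancel hp'.ne', Real.rpow_one]
  rw [hconst] at key
  have h5 := ENNReal.ofReal_le_ofReal key
  rw [conv S' _ hp', ENNReal.ofReal_mul (by positivity), conv (Bx (MM N)) _ hp',
    ENNReal.ofReal_mul (by positivity)] at h5
  have h6 : ENNReal.ofReal ρ = cc L' * (cc L)⁻¹ := by
    rw [cc, cc, ← ENNReal.ofReal_inv_of_pos (by positivity), ← ENNReal.ofReal_mul (by positivity), hρ]
    congr 1
  have h7 := Av_pow_sum hL (Bx (MM N)) f.continuous hp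
  obtain ⟨c0, ct⟩ := cc_ne hL
  rw [h6, ← ENNReal.ofReal_rpow_of_pos (by positivity)] at h5
  refine h5.trans ?_
  calc ENNReal.ofReal (K₀ ^ (1 - θ) * K₁ ^ θ) ^ p * (cc L' * (cc L)⁻¹) *
        ∑ m ∈ Bx (MM N), ‖Av L m f‖ₑ ^ p
      ≤ ENNReal.ofReal (K₀ ^ (1 - θ) * K₁ ^ θ) ^ p * (cc L' * (cc L)⁻¹) *
        (cc L * ∫⁻ x, ‖f x‖ₑ ^ p) := mul_le_mul_right h7 _
    _ = ENNReal.ofReal (K₀ ^ (1 - θ) * K₁ ^ θ) ^ p * (cc L' * (((cc L)⁻¹ * cc L) *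
        ∫⁻ x, ‖f x‖ₑ ^ p)) := by ring
    _ = _ := by rw [ENNReal.inv_mul_cancel c0 ct, one_mul]

/-- the limit of the input grids -/
theorem disc2 {T : 𝓢(ℂ, ℂ) → ℂ → ℂ} (hT : Lin T) {L' : ℝ} (hL' : 0 < L') {p₀ p₁ p θ K₀ K₁ : ℝ} (hp0 : 2 ≤ p₀)
    (hlt0 : p₀ < p) (hlt1 : p < p₁) (hth : 1 / p = (1 - θ) / p₀ + θ / p₁) (hK0 : 0 < K₀)
    (hK1 : 0 < K₁) (B0 : Bo T p₀ K₀) (B1 : Bo T p₁ K₁) (S' : Finset (ℤ × ℤ)) (f : 𝓢(ℂ, ℂ)) :
    ∑ m ∈ S', ‖Av L' m (T f)‖ₑ ^ p ≤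
      ENNReal.ofReal (K₀ ^ (1 - θ) * K₁ ^ θ) ^ p * (cc L' * ∫⁻ x, ‖f x‖ₑ ^ p) := by
  have hp00 : 0 < p₀ := by linarith
  have hp' : 0 < p := by linarith
  have hav : ∀ m, Tendsto (fun N => Av L' m (T (ap N f))) atTop (𝓝 (Av L' m (T f))) := by
    intro m
    have h1 : ∀ N, Av L' m (T (ap N f - f)) = Av L' m (T (ap N f)) - Av L' m (T f) := by
      intro N
      have h2 : T (ap N f - f) = fun x => T (ap N f) x - T f x := by
        funext x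
        exact hT.sub _ _ x
      rw [h2]
      unfold Av
      rw [integral_sub (Ec_int hL' m (hT.cont _)) (Ec_int hL' m (hT.cont _)), mul_sub]
    have h3 : ∀ N, ‖Av L' m (T (ap N f - f))‖ₑ ^ p₀ ≤
        cc L' * (ENNReal.ofReal K₀ ^ p₀ * ∫⁻ x, ‖(ap N f - f) x‖ₑ ^ p₀) := by
      intro N
      refine (Av_pow hL' m (hT.cont _) (by linarith)).trans (mul_le_mul_right ?_ _)
      exact (setLIntegral_le_lintegral _ _).trans (B0 (ap N f - f))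
    have h4 : Tendsto (fun N => cc L' * (ENNReal.ofReal K₀ ^ p₀ *
        ∫⁻ x, ‖(ap N f - f) x‖ₑ ^ p₀)) atTop (𝓝 0) := by
      have h5 := ap_Lp f hp0
      have h6 := ENNReal.Tendsto.const_mul (a := ENNReal.ofReal K₀ ^ p₀) h5
        (Or.inr (ENNReal.rpow_ne_top_of_nonneg hp00.le ENNReal.ofReal_ne_top))
      have h7 := ENNReal.Tendsto.const_mul (a := cc L') h6 (Or.inr (cc_ne hL').2)
      simpa using h7
    have h8 : Tendsto (fun N => ‖Av L' m (T (ap N f - f))‖ₑ ^ p₀) atTop (𝓝 0) :=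
      tendsto_of_tendsto_of_tendsto_of_le_of_le tendsto_const_nhds h4 (fun _ => zero_le) h3
    have h9 : Tendsto (fun N => ‖Av L' m (T (ap N f - f))‖ₑ) atTop (𝓝 0) := by
      have h10 := ((ENNReal.continuous_rpow_const (y := p₀⁻¹)).tendsto 0).comp h8
      rw [ENNReal.zero_rpow_of_pos (inv_pos.2 hp00)] at h10
      refine h10.congr fun N => ?_
      exact ENNReal.rpow_rpow_inv hp00.ne' _
    have h11 : Tendsto (fun N => ‖Av L' m (T (ap N f - f))‖) atTop (𝓝 0) := by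
      have h12 := (ENNReal.tendsto_toReal (a := 0) ENNReal.zero_ne_top).comp h9
      refine h12.congr fun N => ?_
      simp
    have h13 := tendsto_zero_iff_norm_tendsto_zero.2 h11
    simp only [h1] at h13
    exact tendsto_sub_nhds_zero_iff.1 h13
  have hlim : Tendsto (fun N => ∑ m ∈ S', ‖Av L' m (T (ap N f))‖ₑ ^ p) atTop
      (𝓝 (∑ m ∈ S', ‖Av L' m (T f)‖ₑ ^ p)) := by
    refine tendsto_finsetSum _ fun m _ => ?_
    exact ((ENNReal.continuous_rpow_const (y := p)).tendsto _).comp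
      ((continuous_enorm.tendsto _).comp (hav m))
  exact le_of_tendsto' hlim fun N => disc hT hL' (by linarith) hlt0 hlt1 hth hK0 hK1 B0 B1 N S' f


theorem main {T : 𝓢(ℂ, ℂ) → ℂ → ℂ} (hT : Lin T) {p₀ p₁ p θ K₀ K₁ : ℝ} (hp0 : 2 ≤ p₀) (hlt0 : p₀ < p) (hlt1 : p < p₁)
    (hth : 1 / p = (1 - θ) / p₀ + θ / p₁) (hK0 : 0 < K₀) (hK1 : 0 < K₁) (B0 : Bo T p₀ K₀)
    (B1 : Bo T p₁ K₁) : Bo T p (K₀ ^ (1 - θ) * K₁ ^ θ) := by
  intro f
  have hcont := hT.cont f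
  have hle : ∀ N, ∫⁻ x, St N p (T f) x ≤
      ENNReal.ofReal (K₀ ^ (1 - θ) * K₁ ^ θ) ^ p * ∫⁻ x, ‖f x‖ₑ ^ p := by
    intro N
    rw [St_int]
    obtain ⟨c0, ct⟩ := cc_ne (LL_pos N)
    have h1 := disc2 hT (LL_pos N) hp0 hlt0 hlt1 hth hK0 hK1 B0 B1 (Bx (MM N)) f
    calc _ ≤ (ENNReal.ofReal (K₀ ^ (1 - θ) * K₁ ^ θ) ^ p * (cc (LL N) * ∫⁻ x, ‖f x‖ₑ ^ p)) *
          (cc (LL N))⁻¹ := mul_le_mul_left h1 _
      _ = ENNReal.ofReal (K₀ ^ (1 - θ) * K₁ ^ θ) ^ p * ((cc (LL N) * (cc (LL N))⁻¹) *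
          ∫⁻ x, ‖f x‖ₑ ^ p) := by ring
      _ = _ := by rw [ENNReal.mul_inv_cancel c0 ct, one_mul]
  calc ∫⁻ x, ‖T f x‖ₑ ^ p = ∫⁻ x, liminf (fun N => St N p (T f) x) atTop := by
        refine lintegral_congr fun x => ?_
        exact (St_lim hcont p x).liminf_eq.symm
    _ ≤ liminf (fun N => ∫⁻ x, St N p (T f) x) atTop :=
        lintegral_liminf_le fun N => St_meas N p _
    _ ≤ _ := by
        refine (liminf_le_liminf (Eventually.of_forall hle)).trans ?_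
        rw [liminf_const]

end Pool.Agent.Run7.h695.BT.RTg
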