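import Pool.Agent.Run7.h695.BT.Ker3
import Pool.Agent.Run7.h695.BT.RTg

/-!
# The operator `f ↦ f - ∫ κ(v) f(v ·) dv` on the plane (helper695)
-/

set_option autoImplicit false

open Finset MeasureTheory Filter Topology
open scoped SchwartzMap ComplexConjugate ENNReal

namespace Pool.Agent.Run7.h695.BT

/-- dilation averages -/
noncomputable def yk (b : ℕ) (f : ℂ → ℂ) (z : ℂ) : ℂ :=
  ∫ v in (0:ℝ)..1, ((2 * v ^ b : ℝ) : ℂ) * f ((v : ℂ) * z)

noncomputable def FF (a m : ℕ) (f : ℂ → ℂ) (z : ℂ) : ℂ :=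
  f z - ∑ k ∈ range m, ((ck a m k : ℝ) : ℂ) * yk (2 * k + a + 1) f z

/-- continuous functions with decay -/
def Dec (g : ℂ → ℂ) : Prop := Continuous g ∧ ∃ C : ℝ, ∀ z, ‖g z‖ ≤ C / (1 + ‖z‖ ^ 2)

/-- faster decay -/
def Dec2 (g : ℂ → ℂ) : Prop := Continuous g ∧ ∃ C : ℝ, ∀ z, ‖g z‖ ≤ C / (1 + ‖z‖ ^ 2) ^ 2

lemma Dec.nonneg {g : ℂ → ℂ} {C : ℝ} (h : ∀ z, ‖g z‖ ≤ C / (1 + ‖z‖ ^ 2)) : 0 ≤ C := by
  have := (norm_nonneg _).trans (h 0)
  simpa using this

lemma Dec2.nonneg {g : ℂ → ℂ} {C : ℝ} (h : ∀ z, ‖g z‖ ≤ C / (1 + ‖z‖ ^ 2) ^ 2) : 0 ≤ C := by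
  have := (norm_nonneg _).trans (h 0)
  simpa using this

lemma Dec2.dec {g : ℂ → ℂ} (h : Dec2 g) : Dec g := by
  obtain ⟨h1, C, h2⟩ := h
  refine ⟨h1, C, fun z => (h2 z).trans ?_⟩
  have h3 : (1 : ℝ) ≤ 1 + ‖z‖ ^ 2 := by nlinarith [norm_nonneg z]
  refine div_le_div_of_nonneg_left (Dec2.nonneg h2) (by positivity) ?_
  nlinarith

lemma Dec.mul {g h : ℂ → ℂ} (hg : Dec g) (hh : Dec h) : Dec2 (fun z => g z * h z) := by
  obtain ⟨h1, C, h2⟩ := hg
  obtain ⟨h3, D, h4⟩ := hh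
  refine ⟨h1.mul h3, C * D, fun z => ?_⟩
  rw [norm_mul]
  calc ‖g z‖ * ‖h z‖ ≤ C / (1 + ‖z‖ ^ 2) * (D / (1 + ‖z‖ ^ 2)) :=
        mul_le_mul (h2 z) (h4 z) (norm_nonneg _) (by have := Dec.nonneg h2; positivity)
    _ = _ := by rw [div_mul_div_comm, sq (1 + ‖z‖ ^ 2)]

lemma Dec.conj {g : ℂ → ℂ} (hg : Dec g) : Dec (fun z => conj (g z)) := by
  obtain ⟨h1, C, h2⟩ := hg
  exact ⟨Complex.continuous_conj.comp h1, C, fun z => by rw [RCLike.norm_conj]; exact h2 z⟩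

lemma Dec.add {g h : ℂ → ℂ} (hg : Dec g) (hh : Dec h) : Dec (fun z => g z + h z) := by
  obtain ⟨h1, C, h2⟩ := hg
  obtain ⟨h3, D, h4⟩ := hh
  refine ⟨h1.add h3, C + D, fun z => (norm_add_le _ _).trans ?_⟩
  rw [add_div]
  exact add_le_add (h2 z) (h4 z)

lemma Dec.smul {g : ℂ → ℂ} (hg : Dec g) (c : ℂ) : Dec (fun z => c * g z) := by
  obtain ⟨h1, C, h2⟩ := hg
  refine ⟨continuous_const.mul h1, ‖c‖ * C, fun z => ?_⟩
  rw [norm_mul, mul_div_assoc]
  exact mul_le_mul_of_nonneg_left (h2 z) (norm_nonneg _)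

lemma Dec2.add {g h : ℂ → ℂ} (hg : Dec2 g) (hh : Dec2 h) : Dec2 (fun z => g z + h z) := by
  obtain ⟨h1, C, h2⟩ := hg
  obtain ⟨h3, D, h4⟩ := hh
  refine ⟨h1.add h3, C + D, fun z => (norm_add_le _ _).trans ?_⟩
  rw [add_div]
  exact add_le_add (h2 z) (h4 z)

lemma Dec2.smul {g : ℂ → ℂ} (hg : Dec2 g) (c : ℂ) : Dec2 (fun z => c * g z) := by
  obtain ⟨h1, C, h2⟩ := hg
  refine ⟨continuous_const.mul h1, ‖c‖ * C, fun z => ?_⟩
  rw [norm_mul, mul_div_assoc]
  exact mul_le_mul_of_nonneg_left (h2 z) (norm_nonneg _)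

lemma int_model : Integrable (fun z : ℂ => ((1 + ‖z‖ ^ 2) ^ 2)⁻¹) := by
  have h := integrable_rpow_neg_one_add_norm_sq (E := ℂ) (μ := volume) (r := 4)
    (by rw [Complex.finrank_real_complex]; norm_num)
  refine h.congr (Eventually.of_forall fun z => ?_)
  show (1 + ‖z‖ ^ 2) ^ (-4 / 2 : ℝ) = _
  rw [show (-4 / 2 : ℝ) = -((2 : ℕ) : ℝ) by norm_num, Real.rpow_neg (by positivity), Real.rpow_natCast]

lemma Dec2.int {g : ℂ → ℂ} (h : Dec2 g) : Integrable g := by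
  obtain ⟨h1, C, h2⟩ := h
  refine (int_model.const_mul C).mono' h1.aestronglyMeasurable (Eventually.of_forall fun z => ?_)
  simpa [div_eq_mul_inv] using h2 z

lemma Dec_sum {ι : Type} (S : Finset ι) (g : ι → ℂ → ℂ) (h : ∀ i ∈ S, Dec (g i)) :
    Dec (fun z => ∑ i ∈ S, g i z) := by
  classical
  induction S using Finset.induction_on with
  | empty => exact ⟨by simpa using continuous_const, 0, fun z => by simp⟩
  | insert i S hi ih =>
    have h1 := (h i (mem_insert_self i S)).add (ih fun j hj => h j (mem_insert_of_mem hj))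
    simpa only [Finset.sum_insert hi] using h1

lemma sch_dec2 (f : 𝓢(ℂ, ℂ)) : Dec2 f := by
  obtain ⟨C0, -, h0⟩ := f.decay 0 0
  obtain ⟨C4, -, h4⟩ := f.decay 4 0
  refine ⟨f.continuous, 2 * (C0 + C4), fun z => ?_⟩
  have e0 := h0 z
  have e4 := h4 z
  rw [norm_iteratedFDeriv_zero] at e0 e4
  rw [pow_zero, one_mul] at e0
  rw [le_div_iff₀ (by positivity)]
  have h5 : (1 + ‖z‖ ^ 2) ^ 2 ≤ 2 * (1 + ‖z‖ ^ 4) := by nlinarith [sq_nonneg (‖z‖ ^ 2 - 1)]
  nlinarith [norm_nonneg (f z), mul_le_mul_of_nonneg_left h5 (norm_nonneg (f z))]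

lemma yk_cont (b : ℕ) {f : ℂ → ℂ} (hf : Continuous f) : Continuous (yk b f) := by
  unfold yk
  refine intervalIntegral.continuous_parametric_intervalIntegral_of_continuous' ?_ 0 1
  fun_prop

lemma yk_int (b : ℕ) {f : ℂ → ℂ} (hf : Continuous f) (z : ℂ) (x y : ℝ) :
    IntervalIntegrable (fun v : ℝ => ((2 * v ^ b : ℝ) : ℂ) * f ((v : ℂ) * z)) volume x y := by
  apply Continuous.intervalIntegrable
  fun_prop

lemma model_int (R : ℝ) (hR : 0 ≤ R) : ∫ v in (0:ℝ)..1, 2 * v / (1 + v ^ 2 * R) ^ 2 = 1 / (1 + R) := by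
  have h1 : ∀ v : ℝ, HasDerivAt (fun v : ℝ => v ^ 2 / (1 + v ^ 2 * R)) (2 * v / (1 + v ^ 2 * R) ^ 2) v := by
    intro v
    have h2 : (1 + v ^ 2 * R) ≠ 0 := by positivity
    refine ((hasDerivAt_pow 2 v).div (((hasDerivAt_pow 2 v).mul_const R).const_add 1) h2).congr_deriv ?_
    congr 1
    norm_num
    ring
  rw [intervalIntegral.integral_eq_sub_of_hasDerivAt (fun v _ => h1 v)]
  · norm_num
  · apply Continuous.intervalIntegrable
    refine Continuous.div (by fun_prop) (by fun_prop) fun v => ?_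
    positivity

lemma yk_dec {b : ℕ} (hb : 1 ≤ b) {f : ℂ → ℂ} (hf : Dec2 f) : Dec (yk b f) := by
  obtain ⟨h1, C, h2⟩ := hf
  have hC := Dec2.nonneg h2
  refine ⟨yk_cont b h1, C, fun z => ?_⟩
  have h3 : ‖yk b f z‖ ≤ ∫ v in (0:ℝ)..1, C * (2 * v / (1 + v ^ 2 * ‖z‖ ^ 2) ^ 2) := by
    refine intervalIntegral.norm_integral_le_of_norm_le zero_le_one ?_ ?_
    · refine Eventually.of_forall fun v hv => ?_
      have hv0 : 0 ≤ v := hv.1.le
      rw [norm_mul, Complex.norm_real, Real.norm_of_nonneg (by positivity)]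
      have h4 := h2 ((v : ℂ) * z)
      rw [norm_mul, Complex.norm_real, Real.norm_of_nonneg hv0, mul_pow] at h4
      have h5 : v ^ b ≤ v := by
        calc v ^ b ≤ v ^ 1 := pow_le_pow_of_le_one hv0 hv.2 hb
          _ = v := pow_one v
      calc 2 * v ^ b * ‖f ((v : ℂ) * z)‖ ≤ 2 * v * (C / (1 + v ^ 2 * ‖z‖ ^ 2) ^ 2) :=
            mul_le_mul (by linarith) h4 (norm_nonneg _) (by positivity)
        _ = _ := by ring
    · apply Continuous.intervalIntegrable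
      refine Continuous.mul continuous_const (Continuous.div (by fun_prop) (by fun_prop) fun v => ?_)
      positivity
  refine h3.trans ?_
  rw [intervalIntegral.integral_const_mul, model_int _ (by positivity)]
  exact le_of_eq (by ring)

lemma FF_dec (a m : ℕ) {f : ℂ → ℂ} (hf : Dec2 f) : Dec (FF a m f) := by
  have h1 : Dec (fun z => ∑ k ∈ range m, (-((ck a m k : ℝ) : ℂ)) * yk (2 * k + a + 1) f z) :=
    Dec_sum _ _ fun k _ => (yk_dec (by omega) hf).smul _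
  have h2 := hf.dec.add h1
  have h3 : FF a m f = fun z => f z + ∑ k ∈ range m, (-((ck a m k : ℝ) : ℂ)) * yk (2 * k + a + 1) f z := by
    funext z
    unfold FF
    rw [sub_eq_add_neg, ← Finset.sum_neg_distrib]
    simp only [neg_mul]
  rw [h3]
  exact h2

/-- the operator is linear -/
lemma yk_add (b : ℕ) {f g : ℂ → ℂ} (hf : Continuous f) (hg : Continuous g) (z : ℂ) :
    yk b (fun w => f w + g w) z = yk b f z + yk b g z := by
  unfold yk
  rw [← intervalIntegral.integral_add (yk_int b hf z 0 1) (yk_int b hg z 0 1)]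
  simp only [mul_add]

lemma yk_smul (b : ℕ) (c : ℂ) (f : ℂ → ℂ) (z : ℂ) : yk b (fun w => c * f w) z = c * yk b f z := by
  unfold yk
  rw [← intervalIntegral.integral_const_mul]
  refine intervalIntegral.integral_congr fun v _ => ?_
  show _ * (c * _) = _
  ring

theorem FF_lin (a m : ℕ) : RTg.Lin (fun f : 𝓢(ℂ, ℂ) => FF a m f) where
  add f g z := by
    show FF a m (fun w => f w + g w) z = _
    unfold FF
    simp only [yk_add _ f.continuous g.continuous, mul_add, Finset.sum_add_distrib]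
    ring
  smul c f z := by
    show FF a m (fun w => c * f w) z = c * FF a m f z
    unfold FF
    simp only [yk_smul]
    rw [mul_sub, Finset.mul_sum]
    congr 1
    refine Finset.sum_congr rfl fun k _ => ?_
    ring
  cont f := (FF_dec a m (sch_dec2 f)).1

end Pool.Agent.Run7.h695.BT
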