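import Pool.Agent.Run7.h695.BT.Jac
import Pool.Agent.Run7.h695.BT.MultiP

/-!
# The transposed operator (helper695)
-/

set_option autoImplicit false

open Finset MeasureTheory Filter Topology
open scoped SchwartzMap ComplexConjugate ENNReal

namespace Pool.Agent.Run7.h695.BT

/-- averages along the exterior ray -/
noncomputable def RK (K : ℝ → ℝ) (f : ℂ → ℂ) (w : ℂ) : ℂ := ∫ v in (0:ℝ)..1, ((K v : ℝ) : ℂ) * f (w / v)

lemma Dec2.bdd {f : ℂ → ℂ} {C : ℝ} (h : ∀ z, ‖f z‖ ≤ C / (1 + ‖z‖ ^ 2) ^ 2) (z : ℂ) : ‖f z‖ ≤ C := by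
  have hC := Dec2.nonneg h
  refine (h z).trans (div_le_self hC ?_)
  have h0 : (0:ℝ) ≤ ‖z‖ ^ 2 := by positivity
  exact one_le_pow₀ (by linarith)

lemma RK_meas {K : ℝ → ℝ} (hK : Continuous K) {f : ℂ → ℂ} (hf : Continuous f) (w : ℂ) :
    Measurable fun v : ℝ => ((K v : ℝ) : ℂ) * f (w / v) := by
  have h1 : Measurable fun v : ℝ => w / (v : ℂ) := measurable_const.div Complex.measurable_ofReal
  exact (Complex.measurable_ofReal.comp hK.measurable).mul (hf.measurable.comp h1)

lemma RK_int {K : ℝ → ℝ} (hK : Continuous K) {f : ℂ → ℂ} (hf : Dec2 f) (w : ℂ) :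
    IntervalIntegrable (fun v : ℝ => ((K v : ℝ) : ℂ) * f (w / v)) volume 0 1 := by
  obtain ⟨h1, C, h2⟩ := hf
  have hb : IntervalIntegrable (fun v : ℝ => |K v| * C) volume 0 1 :=
    (by fun_prop : Continuous fun v : ℝ => |K v| * C).intervalIntegrable _ _
  refine hb.mono_fun' (RK_meas hK h1 w).aestronglyMeasurable (Eventually.of_forall fun v => ?_)
  simp only
  rw [norm_mul, Complex.norm_real, Real.norm_eq_abs]
  exact mul_le_mul_of_nonneg_left (Dec2.bdd h2 _) (abs_nonneg _)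

lemma RK_cont {K : ℝ → ℝ} (hK : Continuous K) {f : ℂ → ℂ} (hf : Dec2 f) : Continuous (RK K f) := by
  obtain ⟨h1, C, h2⟩ := hf
  unfold RK
  refine intervalIntegral.continuous_of_dominated_interval (bound := fun v => |K v| * C)
    (fun w => (RK_meas hK h1 w).aestronglyMeasurable) (fun w => Eventually.of_forall fun v _ => ?_)
    ((by fun_prop : Continuous fun v : ℝ => |K v| * C).intervalIntegrable _ _)
    (Eventually.of_forall fun v _ => ?_)
  · rw [norm_mul, Complex.norm_real, Real.norm_eq_abs]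
    exact mul_le_mul_of_nonneg_left (Dec2.bdd h2 _) (abs_nonneg _)
  · exact continuous_const.mul (h1.comp (continuous_id.div_const _))

lemma div_norm_ge {v : ℝ} (hv : v ∈ Set.Ioc (0:ℝ) 1) (w : ℂ) : ‖w‖ ≤ ‖w / (v : ℂ)‖ := by
  rw [norm_div, Complex.norm_real, Real.norm_of_nonneg hv.1.le, le_div_iff₀ hv.1]
  exact mul_le_of_le_one_right (norm_nonneg _) hv.2

lemma RK_dec {K : ℝ → ℝ} (hK : Continuous K) {f : ℂ → ℂ} (hf : Dec2 f) : Dec2 (RK K f) := by
  refine ⟨RK_cont hK hf, ?_⟩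
  obtain ⟨h1, C, h2⟩ := hf
  have hC := Dec2.nonneg h2
  refine ⟨(∫ v in (0:ℝ)..1, |K v|) * C, fun w => ?_⟩
  have h3 : ‖RK K f w‖ ≤ ∫ v in (0:ℝ)..1, |K v| * (C / (1 + ‖w‖ ^ 2) ^ 2) := by
    unfold RK
    refine intervalIntegral.norm_integral_le_of_norm_le zero_le_one (Eventually.of_forall fun v hv => ?_)
      ((by fun_prop : Continuous fun v : ℝ => |K v| * (C / (1 + ‖w‖ ^ 2) ^ 2)).intervalIntegrable _ _)
    rw [norm_mul, Complex.norm_real, Real.norm_eq_abs]
    refine mul_le_mul_of_nonneg_left ((h2 _).trans ?_) (abs_nonneg _)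
    refine div_le_div_of_nonneg_left hC (by positivity) ?_
    have h4 := div_norm_ge hv w
    have h5 : ‖w‖ ^ 2 ≤ ‖w / (v : ℂ)‖ ^ 2 := pow_le_pow_left₀ (norm_nonneg _) h4 2
    exact pow_le_pow_left₀ (by positivity) (by linarith) 2
  rw [intervalIntegral.integral_mul_const] at h3
  rw [mul_div_assoc]
  exact h3

/-- **Transposition.** -/
theorem transp {K : ℝ → ℝ} (hK : Continuous K) {f g : ℂ → ℂ} (hf : Dec2 f) (hg : Dec2 g) :
    ∫ w, RK K f w * g w = ∫ z, f z * ∫ v in (0:ℝ)..1, ((K v * v ^ 2 : ℝ) : ℂ) * g ((v : ℂ) * z) := by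
  have hfi := hf.int
  have hgi := hg.int
  obtain ⟨hf1, C, hf2⟩ := hf
  obtain ⟨hg1, D, hg2⟩ := hg
  set ν : Measure ℝ := volume.restrict (Set.Ioc (0:ℝ) 1) with hν
  have hKi : Integrable K ν := hK.integrableOn_Ioc
  have hKi2 : Integrable (fun v => K v * v ^ 2) ν :=
    (by fun_prop : Continuous fun v : ℝ => K v * v ^ 2).integrableOn_Ioc
  -- first product
  have i1 : Integrable (Function.uncurry fun (w : ℂ) (v : ℝ) => ((K v : ℝ) : ℂ) * f (w / v) * g w)
      (volume.prod ν) := by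
    have hb : Integrable (fun x : ℂ × ℝ => ‖g x.1‖ * (|K x.2| * C)) (volume.prod ν) :=
      hgi.norm.mul_prod (hKi.abs.mul_const C)
    refine hb.mono' ?_ (Eventually.of_forall fun x => ?_)
    · have m1 : Measurable fun x : ℂ × ℝ => f (x.1 / (x.2 : ℂ)) :=
        hf1.measurable.comp (measurable_fst.div (Complex.measurable_ofReal.comp measurable_snd))
      have m2 : Measurable fun x : ℂ × ℝ => ((K x.2 : ℝ) : ℂ) :=
        Complex.measurable_ofReal.comp (hK.measurable.comp measurable_snd)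
      exact ((m2.mul m1).mul (hg1.measurable.comp measurable_fst)).aestronglyMeasurable
    · simp only [Function.uncurry]
      rw [norm_mul, norm_mul, Complex.norm_real, Real.norm_eq_abs, mul_comm]
      refine mul_le_mul_of_nonneg_left ?_ (norm_nonneg _)
      exact mul_le_mul_of_nonneg_left (Dec2.bdd hf2 _) (abs_nonneg _)
  have i2 : Integrable (Function.uncurry fun (z : ℂ) (v : ℝ) =>
      ((K v * v ^ 2 : ℝ) : ℂ) * (f z * g ((v : ℂ) * z))) (volume.prod ν) := by
    have hb : Integrable (fun x : ℂ × ℝ => ‖f x.1‖ * (|K x.2 * x.2 ^ 2| * D)) (volume.prod ν) :=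
      hfi.norm.mul_prod (hKi2.abs.mul_const D)
    refine hb.mono' ?_ (Eventually.of_forall fun x => ?_)
    · have : Continuous (Function.uncurry fun (z : ℂ) (v : ℝ) =>
          ((K v * v ^ 2 : ℝ) : ℂ) * (f z * g ((v : ℂ) * z))) := by
        simp only [Function.uncurry_def]
        fun_prop
      exact this.aestronglyMeasurable
    · simp only [Function.uncurry]
      rw [norm_mul, norm_mul, Complex.norm_real, Real.norm_eq_abs]
      calc |K x.2 * x.2 ^ 2| * (‖f x.1‖ * ‖g ((x.2 : ℂ) * x.1)‖) =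
            ‖f x.1‖ * (|K x.2 * x.2 ^ 2| * ‖g ((x.2 : ℂ) * x.1)‖) := by ring
        _ ≤ _ := by
            refine mul_le_mul_of_nonneg_left ?_ (norm_nonneg _)
            exact mul_le_mul_of_nonneg_left (Dec2.bdd hg2 _) (abs_nonneg _)
  have s1 := integral_integral_swap i1
  have s2 := integral_integral_swap i2
  have l1 : ∀ w, RK K f w * g w = ∫ v, ((K v : ℝ) : ℂ) * f (w / v) * g w ∂ν := by
    intro w
    unfold RK
    rw [intervalIntegral.integral_of_le zero_le_one, ← integral_mul_const]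
  have l2 : ∀ z, (f z * ∫ v in (0:ℝ)..1, ((K v * v ^ 2 : ℝ) : ℂ) * g ((v : ℂ) * z)) =
      ∫ v, ((K v * v ^ 2 : ℝ) : ℂ) * (f z * g ((v : ℂ) * z)) ∂ν := by
    intro z
    rw [intervalIntegral.integral_of_le zero_le_one, ← integral_const_mul]
    refine integral_congr_ae (Eventually.of_forall fun v => ?_)
    simp only
    ring
  simp only [l1, l2]
  rw [s1, s2]
  refine integral_congr_ae ?_
  rw [hν]
  refine (ae_restrict_iff' measurableSet_Ioc).2 (Eventually.of_forall fun v hv => ?_)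
  have hv0 : 0 < v := hv.1
  have hvc : (v : ℂ) ≠ 0 := Complex.ofReal_ne_zero.2 hv0.ne'
  simp only
  have h1 := scale (fun w : ℂ => f (w / v) * g w) hv0
  have h2 : ∫ z : ℂ, f ((v : ℂ) * z / v) * g ((v : ℂ) * z) = ∫ z : ℂ, f z * g ((v : ℂ) * z) := by
    refine integral_congr_ae (Eventually.of_forall fun z => ?_)
    simp only
    rw [mul_div_cancel_left₀ _ hvc]
  rw [h2] at h1
  rw [integral_const_mul, h1]
  have h3 : ∫ w : ℂ, ((K v : ℝ) : ℂ) * f (w / v) * g w = ((K v : ℝ) : ℂ) * ∫ w : ℂ, f (w / v) * g w := by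
    rw [← integral_const_mul]
    refine integral_congr_ae (Eventually.of_forall fun z => ?_)
    simp only
    ring
  rw [h3, Complex.real_smul]
  push_cast
  field_simp

/-- the kernel -/
noncomputable def kh (a m : ℕ) (v : ℝ) : ℝ := 2 * v ^ (a - 1) * f0 a m (v ^ 2)

lemma f0_cont (a m : ℕ) : Continuous (f0 a m) := by
  unfold f0
  fun_prop

lemma f1_cont (a m : ℕ) : Continuous (f1 a m) := by
  unfold f1
  fun_prop

lemma kb_f0 (a m : ℕ) (v : ℝ) : kb a m v = v ^ a * f0 a m (v ^ 2) := by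
  unfold kb f0
  rw [Finset.mul_sum]
  refine Finset.sum_congr rfl fun k _ => ?_
  rw [← pow_mul]
  ring

lemma kh_cont (a m : ℕ) : Continuous (kh a m) := by
  unfold kh
  have := f0_cont a m
  fun_prop

lemma kh_ka {a : ℕ} (ha : 1 ≤ a) (m : ℕ) (v : ℝ) : kh a m v * v ^ 2 = ka a m v := by
  obtain ⟨b, rfl⟩ : ∃ b, a = b + 1 := ⟨a - 1, by omega⟩
  rw [ka_eq, kb_f0, kh, Nat.add_sub_cancel]
  ring

lemma kh_kq {a : ℕ} (ha : 2 ≤ a) (m : ℕ) (v : ℝ) : kh a m v = 2 * v * kq (a - 2) m v := by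
  obtain ⟨b, rfl⟩ : ∃ b, a = b + 2 := ⟨a - 2, by omega⟩
  have e1 : b + 2 - 2 = b := by omega
  have e2 : b + 2 - 1 = b + 1 := by omega
  unfold kh kq f0
  rw [e1, e2, Finset.mul_sum, Finset.mul_sum]
  refine Finset.sum_congr rfl fun k _ => ?_
  ring

/-- the transposed operator -/
noncomputable def RR (a m : ℕ) (f : ℂ → ℂ) (w : ℂ) : ℂ := f w - RK (kh a m) f w

lemma Dec2.sub {g h : ℂ → ℂ} (hg : Dec2 g) (hh : Dec2 h) : Dec2 (fun z => g z - h z) := by
  have h1 := hg.add (hh.smul (-1))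
  have e : (fun z => g z - h z) = fun z => g z + (-1) * h z := by
    funext z
    ring
  rw [e]
  exact h1

lemma Dec2.conj {g : ℂ → ℂ} (hg : Dec2 g) : Dec2 (fun z => conj (g z)) := by
  obtain ⟨h1, C, h2⟩ := hg
  exact ⟨Complex.continuous_conj.comp h1, C, fun z => by rw [RCLike.norm_conj]; exact h2 z⟩

lemma RR_dec (a m : ℕ) {f : ℂ → ℂ} (hf : Dec2 f) : Dec2 (RR a m f) := hf.sub (RK_dec (kh_cont a m) hf)

/-- the pairing -/
theorem RR_pair {a : ℕ} (ha : 1 ≤ a) (m : ℕ) {f g : ℂ → ℂ} (hf : Dec2 f) (hg : Dec2 g) :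
    ∫ w, RR a m f w * g w = ∫ z, f z * FF a m g z := by
  have h1 := transp (kh_cont a m) hf hg
  simp only [kh_ka ha] at h1
  have h2 : ∀ w, RR a m f w * g w = f w * g w - RK (kh a m) f w * g w := fun w => by
    unfold RR
    ring
  have h3 : ∀ z, f z * FF a m g z = f z * g z - f z * ∫ v in (0:ℝ)..1, ((ka a m v : ℝ) : ℂ) * g ((v : ℂ) * z) :=
    fun z => by
      rw [FF_eq a m hg.1]
      ring
  have i1 : Integrable fun z => f z * g z := (hf.dec.mul hg.dec).int
  have i2 : Integrable fun z => RK (kh a m) f z * g z := ((RK_dec (kh_cont a m) hf).dec.mul hg.dec).int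
  have i3 : Integrable fun z => f z * ∫ v in (0:ℝ)..1, ((ka a m v : ℝ) : ℂ) * g ((v : ℂ) * z) := by
    have h4 : Integrable fun z => f z * g z - f z * FF a m g z := i1.sub (hf.dec.mul (FF_dec a m hg)).int
    refine h4.congr (Eventually.of_forall fun z => ?_)
    simp only
    rw [h3]
    ring
  simp only [h2, h3]
  rw [integral_sub i1 i2, integral_sub i1 i3, h1]

/-- the transposed operator is a contraction of `L ^ 2` -/
theorem RR_two {a : ℕ} (ha : 1 ≤ a) (m : ℕ) {f : ℂ → ℂ} (hf : Dec2 f) :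
    (∫ z, RR a m f z * conj (RR a m f z)).re ≤ (∫ z, f z * conj (f z)).re := by
  set h : ℂ → ℂ := RR a m f with hh
  have hd : Dec2 h := RR_dec a m hf
  set g : ℂ → ℂ := fun z => conj (h z) with hg
  have gd : Dec2 g := hd.conj
  set G : ℂ → ℂ := FF a m g with hG
  have Gd : Dec G := FF_dec a m gd
  set X : ℂ := ∫ z, h z * conj (h z) with hX
  have hX0 : X = ((∫ z, ‖h z‖ ^ 2 : ℝ) : ℂ) := by
    rw [← integral_complex_ofReal]
    refine integral_congr_ae (Eventually.of_forall fun z => ?_)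
    simp only
    rw [Complex.mul_conj, Complex.normSq_eq_norm_sq]
  have hXc : conj X = X := by rw [hX0, Complex.conj_ofReal]
  have e1 : ∫ z, f z * G z = X := (RR_pair ha m hf gd).symm
  have e2 : ∫ z, G z * conj (G z) = X := by
    rw [hG, iso a m gd]
    refine integral_congr_ae (Eventually.of_forall fun z => ?_)
    simp only [hg]
    rw [Complex.conj_conj, mul_comm]
  have fc : Dec (fun z => conj (f z)) := hf.dec.conj
  have e3 : ∫ z, conj (f z) * conj (G z) = X := by
    rw [← hXc, ← e1, ← integral_conj]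
    refine integral_congr_ae (Eventually.of_forall fun z => ?_)
    simp only
    rw [map_mul]
  have e5 : ∫ z, (conj (f z) - G z) * conj (conj (f z) - G z) = (∫ z, f z * conj (f z)) - X - X + X := by
    have h1 : ∀ z, (conj (f z) - G z) * conj (conj (f z) - G z) =
        f z * conj (f z) - conj (f z) * conj (G z) - f z * G z + G z * conj (G z) := by
      intro z
      rw [map_sub, Complex.conj_conj]
      ring
    simp only [h1]
    rw [int4 (hf.dec.mul fc).int (fc.mul Gd.conj).int (hf.dec.mul Gd).int (Gd.mul Gd.conj).int, e1, e2, e3]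
  have h7 : 0 ≤ (∫ z, (conj (f z) - G z) * conj (conj (f z) - G z)).re := by
    have h8 : ∫ z, (conj (f z) - G z) * conj (conj (f z) - G z) =
        ((∫ z, ‖conj (f z) - G z‖ ^ 2 : ℝ) : ℂ) := by
      rw [← integral_complex_ofReal]
      refine integral_congr_ae (Eventually.of_forall fun z => ?_)
      simp only
      rw [Complex.mul_conj, Complex.normSq_eq_norm_sq]
    rw [h8, Complex.ofReal_re]
    exact integral_nonneg fun z => by positivity
  rw [e5] at h7
  simp only [Complex.add_re, Complex.sub_re] at h7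
  linarith

lemma RR_add (a m : ℕ) {f g : ℂ → ℂ} (hf : Dec2 f) (hg : Dec2 g) (z : ℂ) :
    RR a m (fun w => f w + g w) z = RR a m f z + RR a m g z := by
  unfold RR RK
  have h : ∀ v : ℝ, ((kh a m v : ℝ) : ℂ) * (f (z / v) + g (z / v)) =
      ((kh a m v : ℝ) : ℂ) * f (z / v) + ((kh a m v : ℝ) : ℂ) * g (z / v) := fun v => by ring
  simp only [h]
  rw [intervalIntegral.integral_add (RK_int (kh_cont a m) hf z) (RK_int (kh_cont a m) hg z)]
  ring

lemma RR_smul (a m : ℕ) (c : ℂ) (f : ℂ → ℂ) (z : ℂ) : RR a m (fun w => c * f w) z = c * RR a m f z := by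
  unfold RR RK
  have h : ∀ v : ℝ, ((kh a m v : ℝ) : ℂ) * (c * f (z / v)) = c * (((kh a m v : ℝ) : ℂ) * f (z / v)) :=
    fun v => by ring
  simp only [h]
  rw [intervalIntegral.integral_const_mul]
  ring

lemma RR_Ty {j : ℤ} {f : ℂ → ℂ} (hf : Ty j f) (a m : ℕ) : Ty j (RR a m f) := by
  intro b z hb
  unfold RR RK
  have h : ∀ v : ℝ, ((kh a m v : ℝ) : ℂ) * f (b * z / v) = b ^ j * (((kh a m v : ℝ) : ℂ) * f (z / v)) := by
    intro v
    have : b * z / (v : ℂ) = b * (z / v) := mul_div_assoc _ _ _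
    rw [this, hf b _ hb]
    ring
  simp only [h]
  rw [hf b z hb, intervalIntegral.integral_const_mul]
  ring

end Pool.Agent.Run7.h695.BT
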