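import Pool.Agent.Run7.h695.BT.Vir

/-!
# Moments and a weighted inequality of Cauchy and Schwarz (helper695)
-/

set_option autoImplicit false

open Finset MeasureTheory

namespace Pool.Agent.Run7.h695.BT

/-- the inequality of Cauchy and Schwarz with weights -/
lemma cs_reg {F w wi : ℝ → ℝ} {α β P Q : ℝ} (hαβ : α ≤ β)
    (h0 : IntervalIntegrable F volume α β)
    (h1 : IntervalIntegrable (fun v => F v ^ 2 * w v) volume α β)
    (h2 : IntervalIntegrable wi volume α β)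
    (hw : ∀ v ∈ Set.Ioo α β, 0 ≤ w v ∧ 1 ≤ w v * wi v)
    (hP0 : 0 < P) (hQ0 : 0 < Q) (hP : ∫ v in α..β, F v ^ 2 * w v ≤ P) (hQ : ∫ v in α..β, wi v ≤ Q) :
    ∫ v in α..β, |F v| ≤ √(P * Q) := by
  set l : ℝ := √Q / √P with hl
  have hPs : 0 < √P := Real.sqrt_pos.2 hP0
  have hQs : 0 < √Q := Real.sqrt_pos.2 hQ0
  have hl0 : 0 < l := by positivity
  have h3 : ∫ v in α..β, |F v| ≤ ∫ v in α..β, (l / 2 * (F v ^ 2 * w v) + 1 / (2 * l) * wi v) := by
    refine intervalIntegral.integral_mono_on_of_le_Ioo hαβ h0.abs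
      ((h1.const_mul _).add (h2.const_mul _)) fun v hv => ?_
    obtain ⟨hw0, hw1⟩ := hw v hv
    have hwp : 0 < w v := by
      rcases hw0.lt_or_eq with h | h
      · exact h
      · rw [← h, zero_mul] at hw1
        linarith
    have hwi : 1 / w v ≤ wi v := by
      rw [div_le_iff₀ hwp]
      linarith
    rw [← sq_abs (F v)]
    set y := |F v| with hy
    have h4 : 0 ≤ (l * w v * y - 1) ^ 2 / (2 * l * w v) := by positivity
    have h5 : (l * w v * y - 1) ^ 2 / (2 * l * w v) = l / 2 * (y ^ 2 * w v) + 1 / (2 * l) * (1 / w v) - y := by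
      field_simp
      ring
    have h6 : 1 / (2 * l) * (1 / w v) ≤ 1 / (2 * l) * wi v := mul_le_mul_of_nonneg_left hwi (by positivity)
    linarith
  rw [intervalIntegral.integral_add (h1.const_mul _) (h2.const_mul _),
    intervalIntegral.integral_const_mul, intervalIntegral.integral_const_mul] at h3
  have h4 : l / 2 * (∫ v in α..β, F v ^ 2 * w v) ≤ l / 2 * P := mul_le_mul_of_nonneg_left hP (by positivity)
  have h5 : 1 / (2 * l) * (∫ v in α..β, wi v) ≤ 1 / (2 * l) * Q := mul_le_mul_of_nonneg_left hQ (by positivity)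
  have h6 : l / 2 * P = √P * √Q / 2 := by
    rw [hl]
    have : P = √P * √P := (Real.mul_self_sqrt hP0.le).symm
    nth_rewrite 2 [this]
    field_simp
  have h7 : 1 / (2 * l) * Q = √P * √Q / 2 := by
    rw [hl]
    have : Q = √Q * √Q := (Real.mul_self_sqrt hQ0.le).symm
    nth_rewrite 2 [this]
    field_simp
  rw [Real.sqrt_mul hP0.le]
  linarith

/-- the substitution `v = t ^ 2` -/
lemma cv {g : ℝ → ℝ} (hg : Continuous g) : ∫ v in (0:ℝ)..1, g v = ∫ t in (0:ℝ)..1, g (t ^ 2) * (2 * t) := by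
  have h := intervalIntegral.integral_comp_mul_deriv (a := 0) (b := 1) (f := fun t : ℝ => t ^ 2)
    (f' := fun t : ℝ => 2 * t) (g := g) (fun t _ => by
      refine (hasDerivAt_pow 2 t).congr_deriv ?_
      norm_num) (by fun_prop) hg
  simp only [Function.comp] at h
  rw [h]
  norm_num

lemma int_e1 (n : ℕ) : ∫ v in (0:ℝ)..1, (2 * v ^ (2 * n + 1) - 2 * v ^ (2 * (n + 1) + 1)) =
    1 / ((n : ℝ) + 1) - 1 / ((n : ℝ) + 2) := by
  have c : ∀ j : ℕ, IntervalIntegrable (fun v : ℝ => 2 * v ^ j) volume 0 1 := fun j =>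
    (by fun_prop : Continuous fun v : ℝ => 2 * v ^ j).intervalIntegrable _ _
  rw [intervalIntegral.integral_sub (c _) (c _), int_odd, int_odd]
  push_cast
  ring

/-- the moment of order `-1` -/
theorem E1_eq (b n : ℕ) : ∫ v in (0:ℝ)..1, 2 * v ^ (2 * b + 1) * f0 (b + 1) (n + 1) (v ^ 2) ^ 2 * (1 - v ^ 2) =
    ((n : ℝ) + 1) * (n + 1 + (b + 1)) / (b + 1) := by
  have h1 : ∀ v : ℝ, 2 * v ^ (2 * b + 1) * f0 (b + 1) (n + 1) (v ^ 2) ^ 2 * (1 - v ^ 2) =
      ∑ i ∈ range (n + 1), ∑ k ∈ range (n + 1), (ck (b + 1) (n + 1) i * ck (b + 1) (n + 1) k) *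
        (2 * v ^ (2 * (i + k + b) + 1) - 2 * v ^ (2 * ((i + k + b) + 1) + 1)) := by
    intro v
    have h2 : f0 (b + 1) (n + 1) (v ^ 2) ^ 2 = ∑ i ∈ range (n + 1), ∑ k ∈ range (n + 1),
        (ck (b + 1) (n + 1) i * (v ^ 2) ^ i) * (ck (b + 1) (n + 1) k * (v ^ 2) ^ k) := by
      rw [sq, f0, Finset.sum_mul_sum]
    rw [h2, mul_assoc, Finset.sum_mul, Finset.mul_sum]
    refine Finset.sum_congr rfl fun i _ => ?_
    rw [Finset.sum_mul, Finset.mul_sum]
    refine Finset.sum_congr rfl fun k _ => ?_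
    rw [← pow_mul, ← pow_mul]
    have e1 : v ^ (2 * (i + k + b) + 1) = v ^ (2 * b + 1) * v ^ (2 * i) * v ^ (2 * k) := by ring
    have e2 : v ^ (2 * ((i + k + b) + 1) + 1) = v ^ 2 * (v ^ (2 * b + 1) * v ^ (2 * i) * v ^ (2 * k)) := by ring
    rw [e1, e2]
    ring
  have hc : ∀ i k : ℕ, Continuous fun v : ℝ => (ck (b + 1) (n + 1) i * ck (b + 1) (n + 1) k) *
        (2 * v ^ (2 * (i + k + b) + 1) - 2 * v ^ (2 * ((i + k + b) + 1) + 1)) := by
    intro i k
    fun_prop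
  simp only [h1]
  rw [intervalIntegral.integral_finsetSum (fun i _ =>
    (continuous_finsetSum _ fun k _ => hc i k).intervalIntegrable _ _)]
  have h3 : ∀ i ∈ range (n + 1), ∫ v in (0:ℝ)..1, ∑ k ∈ range (n + 1),
      (ck (b + 1) (n + 1) i * ck (b + 1) (n + 1) k) *
        (2 * v ^ (2 * (i + k + b) + 1) - 2 * v ^ (2 * ((i + k + b) + 1) + 1)) =
      -(ck (b + 1) (n + 1) i * Ed (b + 1) (n + 1) ((i : ℝ) + (b + 1))) := by
    intro i hi
    rw [intervalIntegral.integral_finsetSum (fun k _ => (hc i k).intervalIntegrable _ _)]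
    simp only [intervalIntegral.integral_const_mul, int_e1]
    have h5 := Ed_zero (a := b + 1) (mem_range.1 hi)
    unfold Ed at h5 ⊢
    have h6 : ∑ k ∈ range (n + 1), ck (b + 1) (n + 1) i * ck (b + 1) (n + 1) k *
        (1 / (((i + k + b : ℕ) : ℝ) + 1) - 1 / (((i + k + b : ℕ) : ℝ) + 2)) =
        ck (b + 1) (n + 1) i * (∑ k ∈ range (n + 1), ck (b + 1) (n + 1) k / ((k : ℝ) + ((i : ℝ) + (b + 1))) -
          ∑ k ∈ range (n + 1), ck (b + 1) (n + 1) k / ((k : ℝ) + ((i : ℝ) + ((b + 1 : ℕ) : ℝ) + 1))) := by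
      rw [← Finset.sum_sub_distrib, Finset.mul_sum]
      refine Finset.sum_congr rfl fun k _ => ?_
      push_cast
      have e1 : (k : ℝ) + (i + (b + 1)) = i + k + b + 1 := by ring
      have e2 : (k : ℝ) + (i + (b + 1) + 1) = i + k + b + 2 := by ring
      rw [e1, e2]
      ring
    rw [h6]
    linear_combination (ck (b + 1) (n + 1) i) * h5
  rw [Finset.sum_congr rfl h3, Finset.sum_range_succ', Finset.sum_eq_zero, zero_add]
  · have h := u1 (a := b + 1) (by omega) n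
    push_cast at h ⊢
    rw [zero_add]
    linarith
  · intro i hi
    have h := Ed_zero (a := b + 1) (m := n + 1) (i := i) (by have := mem_range.1 hi; omega)
    have e : (((i + 1 : ℕ) : ℝ) + (b + 1)) = (i : ℝ) + ((b + 1 : ℕ) : ℝ) + 1 := by push_cast; ring
    rw [e, h]
    ring

/-- the moment of order `-2` -/
theorem E2_eq (b m : ℕ) (hm : 1 ≤ m) :
    ∫ v in (0:ℝ)..1, 2 * v ^ (2 * b + 1) * f0 (b + 2) m (v ^ 2) ^ 2 * (1 - v ^ 2) ^ 2 =
      2 * (m : ℝ) ^ 2 * ((m : ℝ) + (b + 2)) ^ 2 / ((b + 1) * (b + 2) * (b + 3)) := by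
  have h1 := int_sq3 b m hm 0 1
  have h0 := int_sq3 b m hm 0 0
  have hk := kq_cont b m
  have hi : ∀ f : ℝ, IntervalIntegrable (fun v : ℝ => 2 * v * (kq b m v) ^ 2 *
      (v ^ 4 + 0 * (v ^ 2 * (1 - v ^ 2)) + f * (1 - v ^ 2) ^ 2)) volume 0 1 := fun f =>
    (by fun_prop : Continuous fun v : ℝ => 2 * v * (kq b m v) ^ 2 *
      (v ^ 4 + 0 * (v ^ 2 * (1 - v ^ 2)) + f * (1 - v ^ 2) ^ 2)).intervalIntegrable _ _
  have h2 := intervalIntegral.integral_sub (hi 1) (hi 0)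
  rw [h1, h0] at h2
  have h3 : ∀ v : ℝ, 2 * v ^ (2 * b + 1) * f0 (b + 2) m (v ^ 2) ^ 2 * (1 - v ^ 2) ^ 2 =
      2 * v * (kq b m v) ^ 2 * (v ^ 4 + 0 * (v ^ 2 * (1 - v ^ 2)) + 1 * (1 - v ^ 2) ^ 2) -
      2 * v * (kq b m v) ^ 2 * (v ^ 4 + 0 * (v ^ 2 * (1 - v ^ 2)) + 0 * (1 - v ^ 2) ^ 2) := by
    intro v
    have e : kq b m v = v ^ b * f0 (b + 2) m (v ^ 2) := by
      unfold kq f0
      rw [Finset.mul_sum]
      refine Finset.sum_congr rfl fun k _ => ?_
      ring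
    rw [e]
    ring
  simp only [h3]
  rw [h2]
  ring

/-- Sonin's bound for `a = 1` -/
theorem sonin (n : ℕ) {u : ℝ} (h0 : 0 ≤ u) (h1 : u ≤ 1 / 2) :
    |f0 1 (n + 1) u| ≤ ((n : ℝ) + 1) * (n + 2) := by
  have hz : |f0 1 (n + 1) 0| = ((n : ℝ) + 1) * (n + 2) := by
    have e : f0 1 (n + 1) 0 = ck 1 (n + 1) 0 := by
      unfold f0
      rw [Finset.sum_range_succ', Finset.sum_eq_zero]
      · simp
      · intro i _
        simp
    rw [e, ck, QK_zero, PP_at]
    have e1 : ∏ i ∈ range (n + 1), ((((0 : ℕ) : ℝ)) + ((1 : ℕ) : ℝ) + 1 + i) = (n + 2) * ((n + 1) * fa n) := by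
      have := fa_two (n + 1)
      rw [fa_succ] at this
      push_cast at this ⊢
      rw [show (n : ℝ) + 2 = n + 1 + 1 by ring, ← this]
      exact Finset.prod_congr rfl fun i _ => by ring
    rw [e1, abs_div, abs_mul ((-1 : ℝ) ^ n), abs_pow, abs_neg, abs_one, one_pow, one_mul,
      abs_of_pos (fa_pos n), abs_of_pos (by have := fa_pos n; positivity)]
    have := fa_pos n
    field_simp
  rcases Nat.eq_zero_or_pos n with hn | hn
  · subst hn
    have e : f0 1 (0 + 1) u = f0 1 (0 + 1) 0 := by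
      unfold f0
      rw [Finset.sum_range_one, Finset.sum_range_one]
      simp
    rw [e, hz]
  · set Λ : ℝ := n * (n + (1 : ℕ) + 2) with hΛ
    have hΛ0 : 0 < Λ := by
      have : (0:ℝ) < n := by exact_mod_cast hn
      rw [hΛ]
      positivity
    set S : ℝ → ℝ := fun u => Λ * f0 1 (n + 1) u ^ 2 + u * (1 - u) * f1 1 (n + 1) u ^ 2 with hS
    have hd : ∀ u : ℝ, HasDerivAt S (f1 1 (n + 1) u ^ 2 * (6 * u - 3)) u := by
      intro u
      have d0 := f0_deriv 1 (n + 1) u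
      have d1 := f1_deriv 1 (n + 1) u
      have du := hasDerivAt_id u
      have d := ((d0.pow 2).const_mul Λ).add ((du.mul (du.const_sub 1)).mul (d1.pow 2))
      refine HasDerivAt.congr_of_eventuallyEq (d.congr_deriv ?_) (Filter.Eventually.of_forall fun x => ?_)
      · have h := ode 1 n u
        simp only [Pi.mul_apply, Pi.pow_apply, id]
        rw [hΛ]
        push_cast at h ⊢
        linear_combination (2 * f1 1 (n + 1) u) * h
      · rw [hS]
        simp only [Pi.mul_apply, Pi.add_apply, Pi.pow_apply, id]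
    have hanti : AntitoneOn S (Set.Icc 0 (1 / 2)) := by
      refine antitoneOn_of_deriv_nonpos (convex_Icc _ _)
        (continuous_iff_continuousAt.2 fun u => (hd u).continuousAt).continuousOn
        (fun u _ => (hd u).differentiableAt.differentiableWithinAt) fun u hu => ?_
      rw [interior_Icc] at hu
      rw [(hd u).deriv]
      have : 6 * u - 3 ≤ 0 := by linarith [hu.2]
      exact mul_nonpos_of_nonneg_of_nonpos (sq_nonneg _) this
    have h2 := hanti (Set.left_mem_Icc.2 (by norm_num)) (Set.mem_Icc.2 ⟨h0, h1⟩) h0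
    rw [hS] at h2
    simp only at h2
    have h3 : 0 ≤ u * (1 - u) * f1 1 (n + 1) u ^ 2 :=
      mul_nonneg (mul_nonneg h0 (by linarith)) (sq_nonneg _)
    have h4 : f0 1 (n + 1) u ^ 2 ≤ f0 1 (n + 1) 0 ^ 2 := by
      have : Λ * f0 1 (n + 1) u ^ 2 ≤ Λ * f0 1 (n + 1) 0 ^ 2 := by linarith
      exact le_of_mul_le_mul_left this hΛ0
    rw [← hz]
    exact sq_le_sq.1 h4

end Pool.Agent.Run7.h695.BT
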