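import Pool.Agent.Run7.h695.BT.Gmink

/-!
# Projections on the angular types (helper695)
-/

set_option autoImplicit false

open Finset MeasureTheory Filter Topology
open scoped SchwartzMap ComplexConjugate ENNReal

namespace Pool.Agent.Run7.h695.BT

/-- `exp (2 π i x)` -/
noncomputable def ex (x : ℝ) : ℂ := Complex.exp (((2 * Real.pi * x : ℝ) : ℂ) * Complex.I)

lemma ex_norm (x : ℝ) : ‖ex x‖ = 1 := Complex.norm_exp_ofReal_mul_I _

lemma ex_ne (x : ℝ) : ex x ≠ 0 := Complex.exp_ne_zero _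

lemma ex_cont : Continuous ex := by
  unfold ex
  fun_prop

lemma ex_add (x y : ℝ) : ex (x + y) = ex x * ex y := by
  unfold ex
  rw [← Complex.exp_add]
  congr 1
  push_cast
  ring

lemma ex_zero : ex 0 = 1 := by
  unfold ex
  simp

lemma ex_int (k : ℤ) : ex k = 1 := by
  unfold ex
  rw [← Complex.exp_int_mul_two_pi_mul_I k]
  congr 1
  push_cast
  ring

lemma ex_mul_int (k : ℤ) (x : ℝ) : ex (k * x) = ex x ^ k := by
  unfold ex
  rw [← Complex.exp_int_mul]
  congr 1
  push_cast
  ring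

lemma ex_conj (x : ℝ) : conj (ex x) = ex (-x) := by
  unfold ex
  rw [← Complex.exp_conj]
  congr 1
  rw [map_mul, Complex.conj_ofReal, Complex.conj_I]
  push_cast
  ring

lemma ex_surj {b : ℂ} (hb : ‖b‖ = 1) : ∃ x : ℝ, b = ex x := by
  refine ⟨Complex.arg b / (2 * Real.pi), ?_⟩
  unfold ex
  have h := Complex.norm_mul_exp_arg_mul_I b
  rw [hb] at h
  have e : (2 * Real.pi * (Complex.arg b / (2 * Real.pi)) : ℝ) = Complex.arg b := by
    have := Real.pi_ne_zero
    field_simp
  rw [e]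
  rw [Complex.ofReal_one, one_mul] at h
  exact h.symm

/-- the mean value of a character -/
lemma int_ex (k : ℤ) : ∫ x in (0:ℝ)..1, ex (k * x) = if k = 0 then 1 else 0 := by
  split_ifs with h
  · subst h
    simp [ex_zero]
  · have h0 : ((2 * Real.pi * (k : ℝ) : ℝ) : ℂ) * Complex.I ≠ 0 := by
      refine mul_ne_zero (Complex.ofReal_ne_zero.2 ?_) Complex.I_ne_zero
      have := Real.pi_ne_zero
      have h2 : (k : ℝ) ≠ 0 := by exact_mod_cast h
      positivity
    have h1 : ∀ x ∈ Set.uIcc (0:ℝ) 1, HasDerivAt (fun x : ℝ => ex (k * x) / (((2 * Real.pi * (k : ℝ) : ℝ) : ℂ) * Complex.I))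
        (ex (k * x)) x := by
      intro x _
      have h3 : HasDerivAt (fun x : ℝ => ((2 * Real.pi * (k * x) : ℝ) : ℂ) * Complex.I)
          (((2 * Real.pi * (k : ℝ) : ℝ) : ℂ) * Complex.I) x := by
        have h4 : HasDerivAt (fun x : ℝ => 2 * Real.pi * (k * x)) (2 * Real.pi * (k : ℝ)) x := by
          refine (((hasDerivAt_id x).const_mul (k : ℝ)).const_mul (2 * Real.pi)).congr_deriv ?_
          simp
        exact h4.ofReal_comp.mul_const Complex.I
      refine (h3.cexp.div_const _).congr_deriv ?_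
      rw [mul_div_assoc, div_self h0, mul_one]
      rfl
    rw [intervalIntegral.integral_eq_sub_of_hasDerivAt h1]
    · have e1 : ex (k * (1:ℝ)) = 1 := by rw [mul_one]; exact ex_int k
      have e2 : ex (k * (0:ℝ)) = 1 := by rw [mul_zero]; exact ex_zero
      rw [e1, e2, sub_self]
    · apply Continuous.intervalIntegrable
      exact ex_cont.comp (by fun_prop)

/-- the projection on the angular type `j` -/
noncomputable def Pr (j : ℤ) (f : ℂ → ℂ) (z : ℂ) : ℂ := ∫ x in (0:ℝ)..1, ex (-(j * x)) * f (ex x * z)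

/-- functions of angular type `j` -/
def Ty (j : ℤ) (f : ℂ → ℂ) : Prop := ∀ b z : ℂ, ‖b‖ = 1 → f (b * z) = b ^ j * f z

lemma Pr_cont {j : ℤ} {f : ℂ → ℂ} (hf : Continuous f) : Continuous (Pr j f) := by
  unfold Pr
  refine intervalIntegral.continuous_parametric_intervalIntegral_of_continuous' ?_ 0 1
  have := ex_cont
  fun_prop

lemma Pr_dec {j : ℤ} {f : ℂ → ℂ} (hf : Dec2 f) : Dec2 (Pr j f) := by
  obtain ⟨h1, C, h2⟩ := hf
  refine ⟨Pr_cont h1, C, fun z => ?_⟩
  have h3 : ‖Pr j f z‖ ≤ (C / (1 + ‖z‖ ^ 2) ^ 2) * |(1:ℝ) - 0| := by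
    refine intervalIntegral.norm_integral_le_of_norm_le_const fun x _ => ?_
    rw [norm_mul, ex_norm, one_mul]
    have := h2 (ex x * z)
    rwa [norm_mul, ex_norm, one_mul] at this
  simpa using h3

lemma Pr_type (j : ℤ) (f : ℂ → ℂ) : Ty j (Pr j f) := by
  intro b z hb
  obtain ⟨y, rfl⟩ := ex_surj hb
  set F : ℝ → ℂ := fun x => ex (-(j * x)) * f (ex x * z) with hF
  have hper : Function.Periodic F 1 := by
    intro x
    show ex (-(j * (x + 1))) * f (ex (x + 1) * z) = ex (-(j * x)) * f (ex x * z)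
    have e1 : ex (x + 1) = ex x := by
      rw [ex_add, show (1:ℝ) = ((1:ℤ) : ℝ) by norm_num, ex_int, mul_one]
    have e2 : ex (-(j * (x + 1))) = ex (-(j * x)) := by
      rw [show -((j : ℝ) * (x + 1)) = -(j * x) + ((-j : ℤ) : ℝ) by push_cast; ring, ex_add, ex_int, mul_one]
    rw [e1, e2]
  have h1 : Pr j f (ex y * z) = ∫ x in (0:ℝ)..1, ex y ^ j * F (x + y) := by
    unfold Pr
    refine intervalIntegral.integral_congr fun x _ => ?_
    show ex (-(j * x)) * f (ex x * (ex y * z)) = ex y ^ j * (ex (-(j * (x + y))) * f (ex (x + y) * z))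
    have e1 : ex (x + y) * z = ex x * (ex y * z) := by rw [ex_add]; ring
    have e2 : ex (-(j * (x + y))) = ex (-(j * x)) * (ex y ^ j)⁻¹ := by
      rw [show -((j : ℝ) * (x + y)) = -(j * x) + -(j * y) by ring, ex_add]
      congr 1
      refine eq_inv_of_mul_eq_one_left ?_
      rw [← ex_mul_int, ← ex_add]
      simp [ex_zero]
    rw [e1, e2]
    have h0 : ex y ^ j ≠ 0 := zpow_ne_zero _ (ex_ne y)
    field_simp
  rw [h1, intervalIntegral.integral_const_mul, intervalIntegral.integral_comp_add_right]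
  congr 1
  have h2 := hper.intervalIntegral_add_eq y 0
  rw [zero_add] at h2
  rw [zero_add, add_comm 1 y, h2]
  rfl

lemma Pr_of_type {i j : ℤ} {f : ℂ → ℂ} (hf : Ty i f) (z : ℂ) :
    Pr j f z = if i = j then f z else 0 := by
  unfold Pr
  have h1 : ∀ x : ℝ, ex (-(j * x)) * f (ex x * z) = ex (((i - j : ℤ) : ℝ) * x) * f z := by
    intro x
    rw [hf _ _ (ex_norm x), ← ex_mul_int, ← mul_assoc, ← ex_add]
    congr 2
    push_cast
    ring
  simp only [h1]
  rw [intervalIntegral.integral_mul_const, int_ex]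
  by_cases h : i = j
  · rw [if_pos (by omega), if_pos h, one_mul]
  · rw [if_neg (by omega), if_neg h, zero_mul]

/-- orthogonality of the types -/
lemma orth {i j : ℤ} (hij : i ≠ j) {g h : ℂ → ℂ} (hg : Ty i g) (hh : Ty j h) :
    ∫ z, g z * conj (h z) = 0 := by
  set I := ∫ z, g z * conj (h z) with hI
  have h1 : ∀ b : ℂ, ‖b‖ = 1 → I = b ^ i * conj (b ^ j) * I := by
    intro b hb
    conv_lhs => rw [hI, ← int_rot hb]
    rw [hI, ← integral_const_mul]
    refine integral_congr_ae (Eventually.of_forall fun z => ?_)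
    simp only
    rw [hg b z hb, hh b z hb, map_mul]
    ring
  -- choose `b = ex (1 / (2 (i - j)))`
  have hk : ((i - j : ℤ) : ℝ) ≠ 0 := by
    have : i - j ≠ 0 := by omega
    exact_mod_cast this
  set x : ℝ := 1 / (2 * ((i - j : ℤ) : ℝ)) with hx
  have h2 := h1 (ex x) (ex_norm x)
  have h3 : ex x ^ i * conj (ex x ^ j) = -1 := by
    rw [← ex_mul_int, ← ex_mul_int, ex_conj, ← ex_add]
    have e : (i : ℝ) * x + -(j * x) = 1 / 2 := by
      have : (i : ℝ) * x + -(j * x) = ((i - j : ℤ) : ℝ) * x := by push_cast; ring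
      rw [this, hx]
      field_simp
    rw [e]
    unfold ex
    have : ((2 * Real.pi * (1 / 2) : ℝ) : ℂ) * Complex.I = Real.pi * Complex.I := by
      push_cast; ring
    rw [this, Complex.exp_pi_mul_I]
  rw [h3] at h2
  have h4 : (2 : ℂ) * I = 0 := by linear_combination h2
  simpa using h4

/-- the projection is symmetric -/
lemma Pr_pair {j : ℤ} {f h : ℂ → ℂ} (hf : Dec2 f) (hh : Dec2 h) (ht : Ty j h) :
    ∫ z, Pr j f z * conj (h z) = ∫ z, f z * conj (h z) := by
  have h1 : ∀ z, Pr j f z * conj (h z) =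
      ∫ x in Set.Ioc (0:ℝ) 1, (ex (-(j * x)) * f (ex x * z)) * conj (h z) := by
    intro z
    unfold Pr
    rw [intervalIntegral.integral_of_le zero_le_one, integral_mul_const]
  simp only [h1]
  rw [integral_integral_swap]
  · have h2 : ∀ x ∈ Set.Ioc (0:ℝ) 1, ∫ z, (ex (-(j * x)) * f (ex x * z)) * conj (h z) =
        ∫ z, f z * conj (h z) := by
      intro x _
      rw [← int_rot (ex_norm x) (fun z => f z * conj (h z))]
      refine integral_congr_ae (Eventually.of_forall fun z => ?_)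
      simp only
      rw [ht _ _ (ex_norm x), map_mul, ← ex_mul_int, ex_conj]
      ring
    rw [setIntegral_congr_fun measurableSet_Ioc h2, setIntegral_const]
    simp
  · obtain ⟨c1, C, hC⟩ := hf
    obtain ⟨c2, D, hD⟩ := hh
    have hi : Integrable (fun x : ℂ × ℝ => (C * ‖h x.1‖) * (1:ℝ))
        ((volume : Measure ℂ).prod ((volume : Measure ℝ).restrict (Set.Ioc (0:ℝ) 1))) := by
      have h5 : Integrable h := Dec2.int ⟨c2, D, hD⟩
      exact (h5.norm.const_mul C).mul_prod (integrable_const (1:ℝ))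
    refine hi.mono' ?_ (Eventually.of_forall fun x => ?_)
    · have := ex_cont
      apply Continuous.aestronglyMeasurable
      unfold Function.uncurry
      have := Complex.continuous_conj
      fun_prop
    · show ‖(ex (-(j * x.2)) * f (ex x.2 * x.1)) * conj (h x.1)‖ ≤ (C * ‖h x.1‖) * 1
      rw [norm_mul, norm_mul, ex_norm, one_mul, RCLike.norm_conj, mul_one]
      refine mul_le_mul_of_nonneg_right ?_ (norm_nonneg _)
      refine (hC _).trans ?_
      have h6 : (1:ℝ) ≤ (1 + ‖ex x.2 * x.1‖ ^ 2) ^ 2 := by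
        have : (1:ℝ) ≤ 1 + ‖ex x.2 * x.1‖ ^ 2 := by nlinarith [norm_nonneg (ex x.2 * x.1)]
        nlinarith
      exact div_le_self (Dec2.nonneg hC) h6

end Pool.Agent.Run7.h695.BT
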