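import Pool.Agent.Run7.h695.BT.Jac2

/-!
# A virial identity for the kernel (helper695)
-/

set_option autoImplicit false

open Finset MeasureTheory

namespace Pool.Agent.Run7.h695.BT

noncomputable def vA (a m u F0 F1 : ℝ) : ℝ :=
  (1 - u) ^ 4 * (a / 2 * F0 + u * F1) ^ 2 + (1 - u) ^ 3 * (((m * (m + a) - 1) * u - a ^ 2 / 4 * (1 - u)) * F0 ^ 2) +
    3 / 4 * ((1 - u) ^ 4 * (F0 * (a / 2 * F0 + u * F1))) +
    (1 - u) ^ 3 * ((9 / 32 * (1 - u) + 3 / 4 * u) * F0 ^ 2)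

noncomputable def vA' (a m u F0 F1 F2 : ℝ) : ℝ :=
  -4 * (1 - u) ^ 3 * (a / 2 * F0 + u * F1) ^ 2 +
    (1 - u) ^ 4 * (2 * (a / 2 * F0 + u * F1) * (a / 2 * F1 + F1 + u * F2)) +
    (-3 * (1 - u) ^ 2 * (((m * (m + a) - 1) * u - a ^ 2 / 4 * (1 - u)) * F0 ^ 2) +
      (1 - u) ^ 3 * (((m * (m + a) - 1) + a ^ 2 / 4) * F0 ^ 2 +
        ((m * (m + a) - 1) * u - a ^ 2 / 4 * (1 - u)) * (2 * F0 * F1))) +
    3 / 4 * (-4 * (1 - u) ^ 3 * (F0 * (a / 2 * F0 + u * F1)) +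
      (1 - u) ^ 4 * (F1 * (a / 2 * F0 + u * F1) + F0 * (a / 2 * F1 + F1 + u * F2))) +
    (-3 * (1 - u) ^ 2 * ((9 / 32 * (1 - u) + 3 / 4 * u) * F0 ^ 2) +
      (1 - u) ^ 3 * ((-9 / 32 + 3 / 4) * F0 ^ 2 + (9 / 32 * (1 - u) + 3 / 4 * u) * (2 * F0 * F1)))

lemma vkey (a m u F0 F1 F2 : ℝ)
    (h : u * (1 - u) * F2 + ((a + 1) - (a + 3) * u) * F1 + ((m - 1) * (m + a + 1)) * F0 = 0) :
    (a - 3 / 4) * vA a m u F0 F1 + u * vA' a m u F0 F1 F2 =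
      F0 ^ 2 * (3 / 8 * (a ^ 2 - 9 / 16) * (1 - u) ^ 4 -
        (1 / 2 * (m * (m + a) - 1) - a ^ 2 + 15 / 16) * (u * (1 - u) ^ 3) -
        3 * (m * (m + a) - 1 + 3 / 4) * (u ^ 2 * (1 - u) ^ 2)) := by
  unfold vA vA'
  linear_combination (u * (1 - u) ^ 3 * (2 * (a / 2 * F0 + u * F1) + 3 / 4 * F0)) * h

lemma vA_deriv (a n : ℕ) (m : ℝ) (u : ℝ) :
    HasDerivAt (fun u => vA a m u (f0 a (n + 1) u) (f1 a (n + 1) u))
      (vA' a m u (f0 a (n + 1) u) (f1 a (n + 1) u) (f2 a (n + 1) u)) u := by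
  have h0 := f0_deriv a (n + 1) u
  have h1 := f1_deriv a (n + 1) u
  have hu := hasDerivAt_id u
  have hx : HasDerivAt (fun u : ℝ => 1 - u) (-1) u := hu.const_sub 1
  have hL : HasDerivAt (fun u => (a : ℝ) / 2 * f0 a (n + 1) u + u * f1 a (n + 1) u)
      ((a : ℝ) / 2 * f1 a (n + 1) u + f1 a (n + 1) u + u * f2 a (n + 1) u) u := by
    refine ((h0.const_mul ((a : ℝ) / 2)).add (hu.mul h1)).congr_deriv ?_
    simp only [id]
    ring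
  have hL2 : HasDerivAt (fun u => ((a : ℝ) / 2 * f0 a (n + 1) u + u * f1 a (n + 1) u) ^ 2)
      (2 * ((a : ℝ) / 2 * f0 a (n + 1) u + u * f1 a (n + 1) u) *
        ((a : ℝ) / 2 * f1 a (n + 1) u + f1 a (n + 1) u + u * f2 a (n + 1) u)) u := by
    refine (hL.pow 2).congr_deriv ?_
    push_cast
    ring
  have h02 : HasDerivAt (fun u => f0 a (n + 1) u ^ 2) (2 * f0 a (n + 1) u * f1 a (n + 1) u) u := by
    refine (h0.pow 2).congr_deriv ?_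
    push_cast
    ring
  have hx4 : HasDerivAt (fun u : ℝ => (1 - u) ^ 4) (-4 * (1 - u) ^ 3) u := by
    refine (hx.pow 4).congr_deriv ?_
    push_cast
    ring
  have hx3 : HasDerivAt (fun u : ℝ => (1 - u) ^ 3) (-3 * (1 - u) ^ 2) u := by
    refine (hx.pow 3).congr_deriv ?_
    push_cast
    ring
  have t1 := hx4.mul hL2
  have t2 := hx3.mul (((hu.const_mul (m * (m + a) - 1)).sub (hx.const_mul ((a : ℝ) ^ 2 / 4))).mul h02)
  have t3 := (hx4.mul (h0.mul hL)).const_mul (3 / 4)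
  have t4 := hx3.mul (((hx.const_mul (9 / 32)).add (hu.const_mul (3 / 4))).mul h02)
  have t := ((t1.add t2).add t3).add t4
  refine HasDerivAt.congr_of_eventuallyEq (t.congr_deriv ?_) (Filter.Eventually.of_forall fun x => ?_)
  · unfold vA'
    simp only [Pi.mul_apply, Pi.sub_apply, Pi.add_apply, id]
    ring
  · unfold vA
    simp only [Pi.mul_apply, Pi.sub_apply, Pi.add_apply, id]

/-- the virial function -/
noncomputable def GV (b n : ℕ) (t : ℝ) : ℝ :=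
  t ^ (4 * b + 1) * vA ((b + 1 : ℕ) : ℝ) (n + 1) (t ^ 4) (f0 (b + 1) (n + 1) (t ^ 4)) (f1 (b + 1) (n + 1) (t ^ 4))

noncomputable def phiV (b n : ℕ) (t : ℝ) : ℝ :=
  4 * t ^ (4 * b) * (f0 (b + 1) (n + 1) (t ^ 4) ^ 2 * (3 / 8 * (((b + 1 : ℕ) : ℝ) ^ 2 - 9 / 16) * (1 - t ^ 4) ^ 4 -
        (1 / 2 * (((n : ℝ) + 1) * ((n : ℝ) + 1 + ((b + 1 : ℕ) : ℝ)) - 1) - ((b + 1 : ℕ) : ℝ) ^ 2 + 15 / 16) *
          (t ^ 4 * (1 - t ^ 4) ^ 3) -
        3 * (((n : ℝ) + 1) * ((n : ℝ) + 1 + ((b + 1 : ℕ) : ℝ)) - 1 + 3 / 4) * ((t ^ 4) ^ 2 * (1 - t ^ 4) ^ 2)))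

lemma GV_deriv (b n : ℕ) (t : ℝ) : HasDerivAt (GV b n) (phiV b n t) t := by
  have ds : HasDerivAt (fun t : ℝ => t ^ 4) (4 * t ^ 3) t := by
    refine (hasDerivAt_pow 4 t).congr_deriv ?_
    norm_num
  have d1 : HasDerivAt (fun t : ℝ => t ^ (4 * b + 1)) ((4 * b + 1) * t ^ (4 * b)) t := by
    refine (hasDerivAt_pow (4 * b + 1) t).congr_deriv ?_
    push_cast
    rfl
  have d3 := (vA_deriv (b + 1) n (n + 1) (t ^ 4)).comp t ds
  have d := d1.mul d3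
  refine HasDerivAt.congr_deriv (HasDerivAt.congr_of_eventuallyEq d (Filter.Eventually.of_forall fun x => rfl)) ?_
  have hode := ode (b + 1) n (t ^ 4)
  have hk := vkey ((b + 1 : ℕ) : ℝ) (n + 1) (t ^ 4) (f0 (b + 1) (n + 1) (t ^ 4)) (f1 (b + 1) (n + 1) (t ^ 4))
    (f2 (b + 1) (n + 1) (t ^ 4)) (by
    rw [← hode]
    ring)
  simp only [Function.comp_apply]
  unfold phiV
  rw [← hk]
  push_cast
  ring

noncomputable def AV (b m : ℕ) : ℝ := ∫ t in (0:ℝ)..1, 4 * t ^ (4 * b + 4) * f0 (b + 1) m (t ^ 4) ^ 2 * (1 - t ^ 4) ^ 3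

noncomputable def BV (b m : ℕ) : ℝ := ∫ t in (0:ℝ)..1, 4 * t ^ (4 * b) * f0 (b + 1) m (t ^ 4) ^ 2 * (1 - t ^ 4) ^ 4

theorem vir (b n : ℕ) : (1 / 2 * (((n : ℝ) + 1) * (n + 1 + (b + 1)) - 1) - ((b : ℝ) + 1) ^ 2 + 15 / 16) * AV b (n + 1) ≤
    3 / 8 * (((b : ℝ) + 1) ^ 2 - 9 / 16) * BV b (n + 1) := by
  have hf0 := f0_cont (b + 1) (n + 1)
  have hc : Continuous (phiV b n) := by
    unfold phiV
    fun_prop
  have h := intervalIntegral.integral_eq_sub_of_hasDerivAt (fun t _ => GV_deriv b n t)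
    (hc.intervalIntegrable 0 1)
  have h0 : GV b n 0 = 0 := by
    unfold GV
    rw [zero_pow (by omega), zero_mul]
  have h1 : GV b n 1 = 0 := by
    unfold GV vA
    simp
  rw [h0, h1, sub_zero] at h
  set α : ℝ := 3 / 8 * (((b : ℝ) + 1) ^ 2 - 9 / 16) with hα
  set β : ℝ := 1 / 2 * (((n : ℝ) + 1) * (n + 1 + (b + 1)) - 1) - ((b : ℝ) + 1) ^ 2 + 15 / 16 with hβ
  have cA : Continuous fun t : ℝ => 4 * t ^ (4 * b + 4) * f0 (b + 1) (n + 1) (t ^ 4) ^ 2 * (1 - t ^ 4) ^ 3 := by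
    fun_prop
  have cB : Continuous fun t : ℝ => 4 * t ^ (4 * b) * f0 (b + 1) (n + 1) (t ^ 4) ^ 2 * (1 - t ^ 4) ^ 4 := by
    fun_prop
  have h2 : ∫ t in (0:ℝ)..1, phiV b n t ≤ ∫ t in (0:ℝ)..1,
      (α * (4 * t ^ (4 * b) * f0 (b + 1) (n + 1) (t ^ 4) ^ 2 * (1 - t ^ 4) ^ 4) -
        β * (4 * t ^ (4 * b + 4) * f0 (b + 1) (n + 1) (t ^ 4) ^ 2 * (1 - t ^ 4) ^ 3)) := by
    refine intervalIntegral.integral_mono_on zero_le_one (hc.intervalIntegrable _ _)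
      (((continuous_const.mul cB).sub (continuous_const.mul cA)).intervalIntegrable _ _) fun t ht => ?_
    unfold phiV
    push_cast
    have h3 : 0 ≤ 4 * t ^ (4 * b) * (f0 (b + 1) (n + 1) (t ^ 4) ^ 2 *
        (3 * (((n : ℝ) + 1) * ((n : ℝ) + 1 + ((b : ℝ) + 1)) - 1 + 3 / 4) * ((t ^ 4) ^ 2 * (1 - t ^ 4) ^ 2))) := by
      have ht0 := ht.1
      have hn : (0:ℝ) ≤ n := Nat.cast_nonneg n
      have hb : (0:ℝ) ≤ b := Nat.cast_nonneg b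
      have h4 : 0 ≤ ((n : ℝ) + 1) * ((n : ℝ) + 1 + ((b : ℝ) + 1)) - 1 + 3 / 4 := by
        nlinarith [mul_nonneg hn hb]
      positivity
    rw [hα, hβ]
    have e : t ^ (4 * b + 4) = t ^ (4 * b) * t ^ 4 := by rw [pow_add]
    rw [e]
    nlinarith [h3]
  have i1 : IntervalIntegrable (fun t : ℝ =>
      α * (4 * t ^ (4 * b) * f0 (b + 1) (n + 1) (t ^ 4) ^ 2 * (1 - t ^ 4) ^ 4)) volume 0 1 :=
    (continuous_const.mul cB).intervalIntegrable _ _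
  have i2 : IntervalIntegrable (fun t : ℝ =>
      β * (4 * t ^ (4 * b + 4) * f0 (b + 1) (n + 1) (t ^ 4) ^ 2 * (1 - t ^ 4) ^ 3)) volume 0 1 :=
    (continuous_const.mul cA).intervalIntegrable _ _
  rw [h, intervalIntegral.integral_sub i1 i2, intervalIntegral.integral_const_mul,
    intervalIntegral.integral_const_mul] at h2
  unfold AV BV
  linarith

end Pool.Agent.Run7.h695.BT
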