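import Pool.Agent.Run7.h695.BT.Sing

/-!
# Weights that are monotone along rays (helper695)
-/

set_option autoImplicit false

open Finset MeasureTheory Filter Topology
open scoped SchwartzMap ComplexConjugate ENNReal

namespace Pool.Agent.Run7.h695.BT

open Pool.Agent.N892.BW (TS)

/-- **Minkowski's inequality** for averages of dilations, weighted -/
theorem gminkW {Ω : Type*} [MeasurableSpace Ω] (μ : Measure Ω) [SFinite μ] (ν : Measure ℂ) [SFinite ν]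
    {κ c : Ω → ℂ} {b : Ω → ℝ} (hκ : Measurable κ) (hc : Measurable c) (hb : Measurable b)
    (hb0 : ∀ᵐ ω ∂μ, 0 < b ω) {f : ℂ → ℂ} (hf : Continuous f) {p : ℝ} (hp : 1 < p)
    (hD : ∀ᵐ ω ∂μ, ∫⁻ z, ‖f (c ω * z)‖ₑ ^ p ∂ν ≤ ENNReal.ofReal (b ω ^ p) * ∫⁻ z, ‖f z‖ₑ ^ p ∂ν) :
    ∫⁻ z, ‖∫ ω, κ ω * f (c ω * z) ∂μ‖ₑ ^ p ∂ν ≤
      (∫⁻ ω, ENNReal.ofReal (‖κ ω‖ * b ω) ∂μ) ^ p * ∫⁻ z, ‖f z‖ₑ ^ p ∂ν := by
  have hp0 : 0 < p := by linarith
  set W : Ω → ℝ≥0∞ := fun ω => ENNReal.ofReal (‖κ ω‖ * b ω) with hW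
  have hWm : Measurable W := by
    rw [hW]
    exact (hκ.norm.mul hb).ennreal_ofReal
  set g : ℂ → Ω → ℝ≥0∞ := fun z ω => ENNReal.ofReal ((b ω)⁻¹) * ‖f (c ω * z)‖ₑ with hg
  have hgm : Measurable (Function.uncurry g) := by
    rw [hg]
    have h2 : Measurable fun x : ℂ × Ω => ‖f (c x.2 * x.1)‖ₑ :=
      hf.enorm.measurable.comp ((hc.comp measurable_snd).mul measurable_fst)
    have h3 : Measurable fun x : ℂ × Ω => ENNReal.ofReal ((b x.2)⁻¹) :=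
      (hb.comp measurable_snd).inv.ennreal_ofReal
    exact h3.mul h2
  have h1 : ∀ z, ‖∫ ω, κ ω * f (c ω * z) ∂μ‖ₑ ^ p ≤
      (∫⁻ v, W v ∂μ) ^ (p - 1) * ∫⁻ v, W v * g z v ^ p ∂μ := by
    intro z
    refine le_trans (ENNReal.rpow_le_rpow ?_ hp0.le)
      (jensen' hWm (hgm.comp measurable_prodMk_left) hp)
    refine (enorm_integral_le_lintegral_enorm _).trans (le_of_eq ?_)
    refine lintegral_congr_ae ?_
    filter_upwards [hb0] with ω hω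
    show ‖κ ω * f (c ω * z)‖ₑ = ENNReal.ofReal (‖κ ω‖ * b ω) * (ENNReal.ofReal ((b ω)⁻¹) * ‖f (c ω * z)‖ₑ)
    rw [enorm_mul, ← mul_assoc, ← ENNReal.ofReal_mul (by positivity), mul_assoc (‖κ ω‖),
      mul_inv_cancel₀ hω.ne', mul_one, ofReal_norm]
  have h2 : ∫⁻ z, (∫⁻ v, W v ∂μ) ^ (p - 1) * ∫⁻ v, W v * g z v ^ p ∂μ ∂ν ≤
      (∫⁻ v, W v ∂μ) ^ p * ∫⁻ z, ‖f z‖ₑ ^ p ∂ν := by
    have hm2 : Measurable (Function.uncurry fun (z : ℂ) (v : Ω) => W v * g z v ^ p) :=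
      (hWm.comp measurable_snd).mul (hgm.pow_const p)
    have hm5 : Measurable fun z => ∫⁻ v, W v * g z v ^ p ∂μ := hm2.lintegral_prod_right'
    rw [lintegral_const_mul _ hm5, lintegral_lintegral_swap hm2.aemeasurable]
    have h3 : ∀ᵐ v ∂μ, ∫⁻ z, W v * g z v ^ p ∂ν ≤ W v * ∫⁻ z, ‖f z‖ₑ ^ p ∂ν := by
      filter_upwards [hb0, hD] with v hv hDv
      have hfm : Measurable fun z => ‖f (c v * z)‖ₑ ^ p :=
        (hf.enorm.measurable.comp (measurable_const_mul _)).pow_const p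
      have hm3 : Measurable fun z => g z v ^ p := (hgm.comp measurable_prodMk_right).pow_const p
      rw [lintegral_const_mul _ hm3]
      refine mul_le_mul_right ?_ _
      have e : ∀ z, g z v ^ p = ENNReal.ofReal ((b v ^ p)⁻¹) * ‖f (c v * z)‖ₑ ^ p := by
        intro z
        rw [hg]
        simp only
        rw [ENNReal.mul_rpow_of_nonneg _ _ hp0.le, ENNReal.ofReal_rpow_of_pos (by positivity),
          Real.inv_rpow hv.le]
      simp only [e]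
      rw [lintegral_const_mul _ hfm]
      refine (mul_le_mul_right hDv _).trans (le_of_eq ?_)
      have hbp : 0 < b v ^ p := Real.rpow_pos_of_pos hv _
      rw [← mul_assoc, ← ENNReal.ofReal_mul (by positivity), inv_mul_cancel₀ hbp.ne',
        ENNReal.ofReal_one, one_mul]
    refine (mul_le_mul_right (lintegral_mono_ae h3) _).trans (le_of_eq ?_)
    rw [lintegral_mul_const _ hWm, ← mul_assoc]
    congr 1
    have h5 : ∀ x : ℝ≥0∞, x ^ (p - 1) * x = x ^ p := by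
      intro x
      conv_lhs => rw [← ENNReal.rpow_one x, ← ENNReal.rpow_mul, one_mul]
      rw [← ENNReal.rpow_add_of_nonneg _ _ (by linarith) zero_le_one, sub_add_cancel]
    exact h5 _
  calc _ ≤ ∫⁻ z, (∫⁻ v, W v ∂μ) ^ (p - 1) * ∫⁻ v, W v * g z v ^ p ∂μ ∂ν := lintegral_mono h1
    _ ≤ _ := h2

/-- the weighted measure -/
noncomputable def nu (w : ℂ → ℝ) : Measure ℂ := (volume : Measure ℂ).withDensity fun z => ENNReal.ofReal (w z)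

instance (w : ℂ → ℝ) : SFinite (nu w) := by
  unfold nu
  infer_instance

lemma wd {w : ℂ → ℝ} (hw : Measurable w) {g : ℂ → ℝ≥0∞} (hg : Measurable g) :
    ∫⁻ z, g z ∂(nu w) = ∫⁻ z, g z * ENNReal.ofReal (w z) := by
  unfold nu
  rw [lintegral_withDensity_eq_lintegral_mul _ hw.ennreal_ofReal hg]
  refine lintegral_congr fun z => ?_
  simp only [Pi.mul_apply]
  rw [mul_comm]

lemma scaleW1 {w : ℂ → ℝ} (hw : Measurable w) {p : ℝ} (hp : 1 < p)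
    (h2 : ∀ v : ℝ, 0 < v → v ≤ 1 → ∀ z : ℂ, v ^ (2 * p - 2) * w z ≤ w ((v : ℂ) * z))
    {f : ℂ → ℂ} (hf : Continuous f) {v : ℝ} (hv : 0 < v) (hv1 : v ≤ 1) :
    ∫⁻ z, ‖f ((v : ℂ) * z)‖ₑ ^ p ∂(nu w) ≤ ENNReal.ofReal (((v ^ 2)⁻¹) ^ p) * ∫⁻ z, ‖f z‖ₑ ^ p ∂(nu w) := by
  have hfm : Measurable fun z => ‖f z‖ₑ ^ p := hf.enorm.measurable.pow_const p
  have hfv : Measurable fun z : ℂ => ‖f ((v : ℂ) * z)‖ₑ ^ p := hfm.comp (measurable_const_mul _)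
  have hg : Measurable fun z => ‖f z‖ₑ ^ p * ENNReal.ofReal (w z) := hfm.mul hw.ennreal_ofReal
  rw [wd hw hfv, wd hw hfm]
  have h3 : ∀ z : ℂ, ‖f ((v : ℂ) * z)‖ₑ ^ p * ENNReal.ofReal (w z) ≤
      ENNReal.ofReal ((v ^ (2 * p - 2))⁻¹) *
        (fun u => ‖f u‖ₑ ^ p * ENNReal.ofReal (w u)) ((v : ℂ) * z) := by
    intro z
    have hvp : 0 < v ^ (2 * p - 2) := Real.rpow_pos_of_pos hv _
    have h4 : w z ≤ (v ^ (2 * p - 2))⁻¹ * w ((v : ℂ) * z) := by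
      rw [inv_mul_eq_div, le_div_iff₀ hvp, mul_comm]
      exact h2 v hv hv1 z
    have h5 : ENNReal.ofReal (w z) ≤ ENNReal.ofReal ((v ^ (2 * p - 2))⁻¹) * ENNReal.ofReal (w ((v : ℂ) * z)) := by
      rw [← ENNReal.ofReal_mul (by positivity)]
      exact ENNReal.ofReal_le_ofReal h4
    calc _ ≤ ‖f ((v : ℂ) * z)‖ₑ ^ p *
          (ENNReal.ofReal ((v ^ (2 * p - 2))⁻¹) * ENNReal.ofReal (w ((v : ℂ) * z))) := mul_le_mul_right h5 _
      _ = _ := by ring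
  refine (lintegral_mono h3).trans (le_of_eq ?_)
  have hgv : Measurable fun z : ℂ => (fun u => ‖f u‖ₑ ^ p * ENNReal.ofReal (w u)) ((v : ℂ) * z) :=
    hg.comp (measurable_const_mul _)
  rw [lintegral_const_mul _ hgv, lscale hg hv, ← mul_assoc, ← ENNReal.ofReal_mul (by positivity)]
  congr 2
  rw [Real.inv_rpow (by positivity), ← Real.rpow_natCast v 2, ← Real.rpow_mul hv.le, ← mul_inv,
    ← Real.rpow_add hv]
  congr 2
  push_cast
  ring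

lemma scaleW2 {w : ℂ → ℝ} (hw : Measurable w) {p : ℝ}
    (h1 : ∀ v : ℝ, 0 < v → v ≤ 1 → ∀ z : ℂ, v ^ 2 * w ((v : ℂ) * z) ≤ w z)
    {f : ℂ → ℂ} (hf : Continuous f) {v : ℝ} (hv : 0 < v) (hv1 : v ≤ 1) :
    ∫⁻ z, ‖f ((v : ℂ)⁻¹ * z)‖ₑ ^ p ∂(nu w) ≤ ∫⁻ z, ‖f z‖ₑ ^ p ∂(nu w) := by
  have hfm : Measurable fun z => ‖f z‖ₑ ^ p := hf.enorm.measurable.pow_const p
  have hfv : Measurable fun z : ℂ => ‖f ((v : ℂ)⁻¹ * z)‖ₑ ^ p := hfm.comp (measurable_const_mul _)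
  have hg : Measurable fun z : ℂ => ‖f ((v : ℂ)⁻¹ * z)‖ₑ ^ p * ENNReal.ofReal (w z) :=
    hfv.mul hw.ennreal_ofReal
  rw [wd hw hfv, wd hw hfm]
  have h3 := lscale hg hv
  have hvc : (v : ℂ) ≠ 0 := Complex.ofReal_ne_zero.2 hv.ne'
  have h4 : ∀ z : ℂ, ‖f ((v : ℂ)⁻¹ * ((v : ℂ) * z))‖ₑ ^ p * ENNReal.ofReal (w ((v : ℂ) * z)) =
      ‖f z‖ₑ ^ p * ENNReal.ofReal (w ((v : ℂ) * z)) := by
    intro z
    rw [inv_mul_cancel_left₀ hvc]
  simp only [h4] at h3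
  have h5 : ∫⁻ z : ℂ, ‖f ((v : ℂ)⁻¹ * z)‖ₑ ^ p * ENNReal.ofReal (w z) =
      ENNReal.ofReal (v ^ 2) * ∫⁻ z, ‖f z‖ₑ ^ p * ENNReal.ofReal (w ((v : ℂ) * z)) := by
    rw [h3, ← mul_assoc, ← ENNReal.ofReal_mul (by positivity), mul_inv_cancel₀ (by positivity),
      ENNReal.ofReal_one, one_mul]
  have hwv : Measurable fun z : ℂ => w ((v : ℂ) * z) := hw.comp (measurable_const_mul _)
  have hmm : Measurable fun z : ℂ => ‖f z‖ₑ ^ p * ENNReal.ofReal (w ((v : ℂ) * z)) :=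
    hfm.mul hwv.ennreal_ofReal
  rw [h5, ← lintegral_const_mul _ hmm]
  refine lintegral_mono fun z => ?_
  calc ENNReal.ofReal (v ^ 2) * (‖f z‖ₑ ^ p * ENNReal.ofReal (w ((v : ℂ) * z))) =
        ‖f z‖ₑ ^ p * ENNReal.ofReal (v ^ 2 * w ((v : ℂ) * z)) := by
        rw [ENNReal.ofReal_mul (by positivity)]
        ring
    _ ≤ _ := mul_le_mul_right (ENNReal.ofReal_le_ofReal (h1 v hv hv1 z)) _

lemma int_nh (a m : ℕ) : ∫⁻ v in Set.Ioc (0:ℝ) 1, ENNReal.ofReal |kh a m v| = ENNReal.ofReal (NH a m) := by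
  have h := (kh_cont a m).abs
  unfold NH
  rw [intervalIntegral.integral_of_le zero_le_one,
    ofReal_integral_eq_lintegral_ofReal (h.integrableOn_Ioc) (Eventually.of_forall fun v => abs_nonneg _)]

/-- the sum of the identity and an average -/
lemma add_le_p {ν : Measure ℂ} {f g h : ℂ → ℂ} (hf : Continuous f) (hg : AEMeasurable (fun z => ‖g z‖ₑ) ν)
    {p : ℝ} (hp : 1 < p) {N : ℝ} (hN : 0 ≤ N) (hh : ∀ z, ‖h z‖ₑ ≤ ‖f z‖ₑ + ‖g z‖ₑ)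
    (hgf : ∫⁻ z, ‖g z‖ₑ ^ p ∂ν ≤ ENNReal.ofReal N ^ p * ∫⁻ z, ‖f z‖ₑ ^ p ∂ν) :
    ∫⁻ z, ‖h z‖ₑ ^ p ∂ν ≤ ENNReal.ofReal (1 + N) ^ p * ∫⁻ z, ‖f z‖ₑ ^ p ∂ν := by
  have hp0 : 0 < p := by linarith
  have h2 := ENNReal.lintegral_Lp_add_le (μ := ν) (f := fun z => ‖f z‖ₑ)
    (g := fun z => ‖g z‖ₑ) (p := p) hf.enorm.measurable.aemeasurable hg (by linarith)
  have h4 : (∫⁻ z, ‖h z‖ₑ ^ p ∂ν) ^ (1 / p) ≤
      ENNReal.ofReal (1 + N) * (∫⁻ z, ‖f z‖ₑ ^ p ∂ν) ^ (1 / p) := by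
    calc (∫⁻ z, ‖h z‖ₑ ^ p ∂ν) ^ (1 / p) ≤ _ :=
          ENNReal.rpow_le_rpow (lintegral_mono fun z => ENNReal.rpow_le_rpow (hh z) hp0.le) (by positivity)
      _ ≤ _ := h2
      _ ≤ (∫⁻ z, ‖f z‖ₑ ^ p ∂ν) ^ (1 / p) + (ENNReal.ofReal N ^ p * ∫⁻ z, ‖f z‖ₑ ^ p ∂ν) ^ (1 / p) := by
          gcongr
      _ = _ := by
          rw [ENNReal.mul_rpow_of_nonneg _ _ (by positivity), ← ENNReal.rpow_mul,
            mul_one_div_cancel hp0.ne', ENNReal.rpow_one, ENNReal.ofReal_add zero_le_one hN,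
            ENNReal.ofReal_one, add_mul, one_mul]
  have h5 := ENNReal.rpow_le_rpow h4 hp0.le
  rwa [← ENNReal.rpow_mul, one_div_mul_cancel hp0.ne', ENNReal.rpow_one,
    ENNReal.mul_rpow_of_nonneg _ _ hp0.le, ← ENNReal.rpow_mul, one_div_mul_cancel hp0.ne',
    ENNReal.rpow_one] at h5

lemma NH_nonneg (a m : ℕ) : 0 ≤ NH a m :=
  intervalIntegral.integral_nonneg zero_le_one fun _ _ => abs_nonneg _

theorem FF_w {a : ℕ} (ha : 1 ≤ a) (m : ℕ) {w : ℂ → ℝ} (hw : Measurable w) {p : ℝ} (hp : 1 < p)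
    (h2 : ∀ v : ℝ, 0 < v → v ≤ 1 → ∀ z : ℂ, v ^ (2 * p - 2) * w z ≤ w ((v : ℂ) * z))
    {f : ℂ → ℂ} (hf : Continuous f) :
    ∫⁻ z, ‖FF a m f z‖ₑ ^ p ∂(nu w) ≤ ENNReal.ofReal (1 + NH a m) ^ p * ∫⁻ z, ‖f z‖ₑ ^ p ∂(nu w) := by
  have hka := ka_cont a m
  have hc : Continuous fun z : ℂ => ∫ v in (0:ℝ)..1, ((ka a m v : ℝ) : ℂ) * f ((v : ℂ) * z) := by
    refine intervalIntegral.continuous_parametric_intervalIntegral_of_continuous' ?_ 0 1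
    fun_prop
  refine add_le_p (g := fun z => ∫ v in (0:ℝ)..1, ((ka a m v : ℝ) : ℂ) * f ((v : ℂ) * z)) hf
    hc.enorm.measurable.aemeasurable hp (NH_nonneg a m) (fun z => ?_) ?_
  · rw [FF_eq a m hf]
    exact enorm_sub_le
  · have h3 := gminkW (volume.restrict (Set.Ioc (0:ℝ) 1)) (nu w) (κ := fun v : ℝ => ((ka a m v : ℝ) : ℂ))
      (c := fun v : ℝ => (v : ℂ)) (b := fun v : ℝ => (v ^ 2)⁻¹)
      (Complex.measurable_ofReal.comp hka.measurable) Complex.measurable_ofReal (by fun_prop)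
      ((ae_restrict_iff' measurableSet_Ioc).2 (Eventually.of_forall fun v hv => by
        have := hv.1
        positivity)) hf hp
      ((ae_restrict_iff' measurableSet_Ioc).2 (Eventually.of_forall fun v hv =>
        scaleW1 hw hp h2 hf hv.1 hv.2))
    have h4 : ∫⁻ v in Set.Ioc (0:ℝ) 1, ENNReal.ofReal (‖((ka a m v : ℝ) : ℂ)‖ * (v ^ 2)⁻¹) =
        ENNReal.ofReal (NH a m) := by
      rw [← int_nh]
      refine setLIntegral_congr_fun measurableSet_Ioc fun v hv => ?_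
      have hv0 : v ^ 2 ≠ 0 := (pow_pos hv.1 2).ne'
      rw [Complex.norm_real, Real.norm_eq_abs, ← kh_ka ha m v, abs_mul, abs_of_nonneg (sq_nonneg v),
        mul_assoc, mul_inv_cancel₀ hv0, mul_one]
    rw [h4] at h3
    simp only [intervalIntegral.integral_of_le zero_le_one]
    exact h3

theorem RR_w (a m : ℕ) {w : ℂ → ℝ} (hw : Measurable w) {p : ℝ} (hp : 1 < p)
    (h1 : ∀ v : ℝ, 0 < v → v ≤ 1 → ∀ z : ℂ, v ^ 2 * w ((v : ℂ) * z) ≤ w z)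
    {f : ℂ → ℂ} (hf : Dec2 f) :
    ∫⁻ z, ‖RR a m f z‖ₑ ^ p ∂(nu w) ≤ ENNReal.ofReal (1 + NH a m) ^ p * ∫⁻ z, ‖f z‖ₑ ^ p ∂(nu w) := by
  have hkh := kh_cont a m
  have hc : Continuous (RK (kh a m) f) := RK_cont hkh hf
  refine add_le_p (g := RK (kh a m) f) hf.1
    hc.enorm.measurable.aemeasurable hp (NH_nonneg a m) (fun z => ?_) ?_
  · unfold RR
    exact enorm_sub_le
  · have h3 := gminkW (volume.restrict (Set.Ioc (0:ℝ) 1)) (nu w) (κ := fun v : ℝ => ((kh a m v : ℝ) : ℂ))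
      (c := fun v : ℝ => (v : ℂ)⁻¹) (b := fun _ : ℝ => 1)
      (Complex.measurable_ofReal.comp hkh.measurable) Complex.measurable_ofReal.inv (by fun_prop)
      (Eventually.of_forall fun v => one_pos) hf.1 hp
      ((ae_restrict_iff' measurableSet_Ioc).2 (Eventually.of_forall fun v hv => by
        rw [Real.one_rpow, ENNReal.ofReal_one, one_mul]
        exact scaleW2 hw h1 hf.1 hv.1 hv.2))
    have h4 : ∫⁻ v in Set.Ioc (0:ℝ) 1, ENNReal.ofReal (‖((kh a m v : ℝ) : ℂ)‖ * 1) =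
        ENNReal.ofReal (NH a m) := by
      rw [← int_nh]
      refine lintegral_congr fun v => ?_
      rw [Complex.norm_real, Real.norm_eq_abs, mul_one]
    rw [h4] at h3
    have h5 : ∀ z, RK (kh a m) f z = ∫ v in Set.Ioc (0:ℝ) 1, ((kh a m v : ℝ) : ℂ) * f ((v : ℂ)⁻¹ * z) := by
      intro z
      unfold RK
      rw [intervalIntegral.integral_of_le zero_le_one]
      refine integral_congr_ae (Eventually.of_forall fun v => ?_)
      simp only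
      rw [div_eq_inv_mul]
    simp only [h5]
    exact h3

end Pool.Agent.Run7.h695.BT
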