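import Pool.Agent.Run7.h695.BT.Wgt

/-!
# Weights that are monotone along rays: single types (helper695)
-/

set_option autoImplicit false

open Finset MeasureTheory Filter Topology
open scoped SchwartzMap ComplexConjugate ENNReal

namespace Pool.Agent.Run7.h695.BT

open Pool.Agent.N892.BW (TS)
open Pool.Agent.N892.BW.RTT (TS_cont TS_sum)

lemma kh_zero (a : ℕ) (v : ℝ) : kh a 0 v = 0 := by
  unfold kh f0
  rw [Finset.range_zero, Finset.sum_empty, mul_zero]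

lemma NH_zero (a : ℕ) : NH a 0 = 0 := by
  unfold NH
  simp only [kh_zero, abs_zero, intervalIntegral.integral_zero]

lemma An_pos {n : ℕ} {j : ℤ} (hj0 : j ≠ 0) (hj2 : j ≠ 2 * n) : 1 ≤ An n j := by
  unfold An
  split_ifs <;> omega

theorem all_type {n : ℕ} (hn : 1 ≤ n) {j : ℤ} (hj0 : j ≠ 0) (hj2 : j ≠ 2 * n) :
    NH (An n j) (Mn n j) ≤ 6.7 * n - 0.33 := by
  have hn' : (1:ℝ) ≤ n := by exact_mod_cast hn
  rcases le_or_gt j n with h | h
  · have hA : An n j = j.natAbs := by unfold An; rw [if_pos h]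
    have hM : Mn n j = (n - max j 0).toNat := by unfold Mn; rw [if_pos h]
    have hA1 : 1 ≤ An n j := by rw [hA]; omega
    have hMn : Mn n j ≤ n := by rw [hM]; omega
    have hnM : n ≤ Mn n j + An n j := by rw [hM, hA]; omega
    rcases Nat.eq_zero_or_pos (Mn n j) with h0 | hM1
    · rw [h0, NH_zero]; linarith
    · rcases Nat.lt_or_ge 1 (An n j) with h | h
      · exact NH_two_all hn hM1 h hMn hnM
      · have h1 : An n j = 1 := by omega
        rw [h1]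
        refine (NH_one_all hM1).trans ?_
        have : (Mn n j : ℝ) ≤ n := by exact_mod_cast hMn
        linarith
  · exact ext_type hn h hj2

lemma nu_ne (w : ℂ → ℝ) : ∀ᵐ z ∂(nu w), z ≠ 0 := by
  have h0 : ∀ᵐ z : ℂ, z ≠ 0 := by
    rw [ae_iff]
    simp
  exact (withDensity_absolutelyContinuous _ _).ae_le h0

/-- **Single types, weighted.** -/
theorem single_w {n : ℕ} (hn : 1 ≤ n) {j : ℤ} (hj0 : j ≠ 0) (hj2 : j ≠ 2 * n) {f : 𝓢(ℂ, ℂ)} (hf : Ty j f)
    {p : ℝ} (hp : 1 < p) {w : ℂ → ℝ} (hw : Measurable w)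
    (h1 : (n : ℤ) < j → ∀ v : ℝ, 0 < v → v ≤ 1 → ∀ z : ℂ, v ^ 2 * w ((v : ℂ) * z) ≤ w z)
    (h2 : j ≤ n → ∀ v : ℝ, 0 < v → v ≤ 1 → ∀ z : ℂ, v ^ (2 * p - 2) * w z ≤ w ((v : ℂ) * z)) :
    ∫⁻ z, ‖TS n f z‖ₑ ^ p ∂(nu w) ≤
      ENNReal.ofReal (6.7 * n + 0.67) ^ p * ∫⁻ z, ‖f z‖ₑ ^ p ∂(nu w) := by
  have hp0 : 0 < p := by linarith
  have hN := all_type hn hj0 hj2
  have hAp := An_pos (n := n) hj0 hj2
  have hun : ∀ z : ℂ, z ≠ 0 → ‖(conj z / z) ^ n‖ₑ = 1 := by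
    intro z hz
    have hb : ‖conj z / z‖ = 1 := by
      rw [norm_div, RCLike.norm_conj]
      exact div_self (norm_ne_zero_iff.2 hz)
    rw [← ofReal_norm, norm_pow, hb, one_pow, ENNReal.ofReal_one]
  have hC : ENNReal.ofReal (1 + NH (An n j) (Mn n j)) ^ p ≤ ENNReal.ofReal (6.7 * n + 0.67) ^ p :=
    ENNReal.rpow_le_rpow (ENNReal.ofReal_le_ofReal (by linarith)) hp0.le
  rcases le_or_gt j n with h | h
  · have e : ∫⁻ z, ‖TS n f z‖ₑ ^ p ∂(nu w) = ∫⁻ z, ‖FF (An n j) (Mn n j) f z‖ₑ ^ p ∂(nu w) := by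
      refine lintegral_congr_ae ?_
      filter_upwards [nu_ne w] with z hz
      have hA : An n j = j.natAbs := by unfold An; rw [if_pos h]
      have hM : Mn n j = (n - max j 0).toNat := by unfold Mn; rw [if_pos h]
      rw [id_type h hf hz, enorm_mul, hun z hz, one_mul, hA, hM]
    rw [e]
    refine (FF_w hAp (Mn n j) hw hp (h2 h) f.continuous).trans ?_
    exact mul_le_mul_left hC _
  · have hA : An n j = (2 * n - j).natAbs := by
      unfold An
      rw [if_neg (by omega)]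
    have hM : Mn n j = (n - max (2 * n - j) 0).toNat := by
      unfold Mn
      rw [if_neg (by omega)]
    have e : ∫⁻ z, ‖TS n f z‖ₑ ^ p ∂(nu w) = ∫⁻ z, ‖RR (An n j) (Mn n j) f z‖ₑ ^ p ∂(nu w) := by
      refine lintegral_congr_ae ?_
      filter_upwards [nu_ne w] with z hz
      rw [id_high h (by omega) hf hz, enorm_mul, hun z hz, one_mul, hA, hM]
    rw [e]
    refine (RR_w (An n j) (Mn n j) hw hp (h1 h) (sch_dec2 f)).trans ?_
    exact mul_le_mul_left hC _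

/-- the same, with the weight in the integrals -/
theorem single_w' {n : ℕ} (hn : 1 ≤ n) {j : ℤ} (hj0 : j ≠ 0) (hj2 : j ≠ 2 * n) {f : 𝓢(ℂ, ℂ)} (hf : Ty j f)
    {p : ℝ} (hp : 1 < p) {w : ℂ → ℝ} (hw : Measurable w)
    (h1 : (n : ℤ) < j → ∀ v : ℝ, 0 < v → v ≤ 1 → ∀ z : ℂ, v ^ 2 * w ((v : ℂ) * z) ≤ w z)
    (h2 : j ≤ n → ∀ v : ℝ, 0 < v → v ≤ 1 → ∀ z : ℂ, v ^ (2 * p - 2) * w z ≤ w ((v : ℂ) * z)) :
    ∫⁻ z, ‖TS n f z‖ₑ ^ p * ENNReal.ofReal (w z) ≤
      ENNReal.ofReal ((6.7 * n + 0.67) ^ p) * ∫⁻ z, ‖f z‖ₑ ^ p * ENNReal.ofReal (w z) := by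
  have h := single_w hn hj0 hj2 hf hp hw h1 h2
  have m1 : Measurable fun z => ‖TS n f z‖ₑ ^ p := (TS_cont n f).enorm.measurable.pow_const p
  have m2 : Measurable fun z => ‖f z‖ₑ ^ p := f.continuous.enorm.measurable.pow_const p
  rw [wd hw m1, wd hw m2, ENNReal.ofReal_rpow_of_pos (by positivity)] at h
  exact h

/-! ### Finite sums of types in `L ^ 2` -/

/-- Parseval for finitely many types -/
lemma pars (S : Finset ℤ) (c : ℤ → ℂ) :
    ∫ x in (0:ℝ)..1, ‖∑ j ∈ S, c j * ex (j * x)‖ ^ 2 = ∑ j ∈ S, ‖c j‖ ^ 2 := by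
  have h1 : ∀ x : ℝ, ((‖∑ j ∈ S, c j * ex (j * x)‖ ^ 2 : ℝ) : ℂ) =
      ∑ i ∈ S, ∑ j ∈ S, (c i * conj (c j)) * ex (((i - j : ℤ) : ℝ) * x) := by
    intro x
    rw [← Complex.normSq_eq_norm_sq, ← Complex.mul_conj, map_sum, Finset.sum_mul_sum]
    refine Finset.sum_congr rfl fun i _ => Finset.sum_congr rfl fun j _ => ?_
    rw [map_mul, ex_conj]
    have e : ex (((i - j : ℤ) : ℝ) * x) = ex (i * x) * ex (-(j * x)) := by
      rw [← ex_add]
      congr 1
      push_cast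
      ring
    rw [e]
    ring
  have hc : ∀ i j : ℤ, Continuous fun x : ℝ => (c i * conj (c j)) * ex (((i - j : ℤ) : ℝ) * x) := by
    intro i j
    have := ex_cont
    fun_prop
  have h2 : ((∫ x in (0:ℝ)..1, ‖∑ j ∈ S, c j * ex (j * x)‖ ^ 2 : ℝ) : ℂ) =
      ((∑ j ∈ S, ‖c j‖ ^ 2 : ℝ) : ℂ) := by
    rw [← intervalIntegral.integral_ofReal]
    simp only [h1]
    rw [intervalIntegral.integral_finsetSum (fun i _ =>
      (continuous_finsetSum _ fun j _ => hc i j).intervalIntegrable _ _), Complex.ofReal_sum]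
    refine Finset.sum_congr rfl fun i hi => ?_
    rw [intervalIntegral.integral_finsetSum (fun j _ => (hc i j).intervalIntegrable _ _)]
    rw [Finset.sum_eq_single i]
    · rw [intervalIntegral.integral_const_mul, int_ex, if_pos (by omega), mul_one, Complex.mul_conj,
        Complex.normSq_eq_norm_sq]
    · intro j _ hj
      rw [intervalIntegral.integral_const_mul, int_ex, if_neg (by omega), mul_zero]
    · intro h
      exact absurd hi h
  exact_mod_cast h2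

end Pool.Agent.Run7.h695.BT
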