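import Pool.Agent.Run7.h695.BT.Wgt2

/-!
# Radial weights that are monotone along rays: sums of types in `L ^ 2` (helper695)
-/

set_option autoImplicit false

open Finset MeasureTheory Filter Topology
open scoped SchwartzMap ComplexConjugate ENNReal

namespace Pool.Agent.Run7.h695.BT

open Pool.Agent.N892.BW (TS)
open Pool.Agent.N892.BW.RTT (TS_cont TS_sum)

lemma nu_rot {w : ℂ → ℝ} (hw : Measurable w) (hr : ∀ b z : ℂ, ‖b‖ = 1 → w (b * z) = w z)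
    {F : ℂ → ℝ≥0∞} (hF : Measurable F) {b : ℂ} (hb : ‖b‖ = 1) :
    ∫⁻ z, F (b * z) ∂(nu w) = ∫⁻ z, F z ∂(nu w) := by
  have hFb : Measurable fun z => F (b * z) := hF.comp (measurable_const_mul _)
  rw [wd hw hFb, wd hw hF, ← lrot (g := fun z => F z * ENNReal.ofReal (w z)) (hF.mul hw.ennreal_ofReal) hb]
  refine lintegral_congr fun z => ?_
  rw [hr b z hb]

lemma avg_rot {w : ℂ → ℝ} (hw : Measurable w) (hr : ∀ b z : ℂ, ‖b‖ = 1 → w (b * z) = w z)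
    {F : ℂ → ℝ≥0∞} (hF : Measurable F) :
    ∫⁻ z, (∫⁻ x in Set.Ioc (0:ℝ) 1, F (ex x * z)) ∂(nu w) = ∫⁻ z, F z ∂(nu w) := by
  have hm : Measurable (Function.uncurry fun (z : ℂ) (x : ℝ) => F (ex x * z)) :=
    hF.comp ((ex_cont.measurable.comp measurable_snd).mul measurable_fst)
  rw [lintegral_lintegral_swap hm.aemeasurable]
  have h : ∀ x : ℝ, ∫⁻ z, F (ex x * z) ∂(nu w) = ∫⁻ z, F z ∂(nu w) := fun x => nu_rot hw hr hF (ex_norm x)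
  simp only [h]
  rw [setLIntegral_const, Real.volume_Ioc, sub_zero, ENNReal.ofReal_one, mul_one]

lemma circ (S : Finset ℤ) {k : ℤ} {G : ℤ → ℂ → ℂ} (ht : ∀ j ∈ S, Ty (j + k) (G j)) (z : ℂ) :
    ∫⁻ x in Set.Ioc (0:ℝ) 1, ‖∑ j ∈ S, G j (ex x * z)‖ₑ ^ (2:ℝ) = ∑ j ∈ S, ‖G j z‖ₑ ^ (2:ℝ) := by
  have h1 : ∀ x : ℝ, ‖∑ j ∈ S, G j (ex x * z)‖ₑ ^ (2:ℝ) =
      ENNReal.ofReal (‖∑ j ∈ S, G j z * ex (j * x)‖ ^ 2) := by
    intro x
    have e : ∑ j ∈ S, G j (ex x * z) = ex (k * x) * ∑ j ∈ S, G j z * ex (j * x) := by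
      rw [Finset.mul_sum]
      refine Finset.sum_congr rfl fun j hj => ?_
      rw [ht j hj _ _ (ex_norm x), ← ex_mul_int]
      have e2 : ex (((j + k : ℤ) : ℝ) * x) = ex (k * x) * ex (j * x) := by
        rw [← ex_add]
        congr 1
        push_cast
        ring
      rw [e2]
      ring
    rw [e, enorm_mul, ← ofReal_norm (ex (k * x)), ex_norm, ENNReal.ofReal_one, one_mul, ← ofReal_norm,
      ENNReal.ofReal_rpow_of_nonneg (norm_nonneg _) (by norm_num)]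
    congr 1
    exact_mod_cast Real.rpow_natCast _ 2
  have hc : Continuous fun x : ℝ => ‖∑ j ∈ S, G j z * ex (j * x)‖ ^ 2 := by
    have := ex_cont
    fun_prop
  simp only [h1]
  rw [← ofReal_integral_eq_lintegral_ofReal hc.integrableOn_Ioc (Eventually.of_forall fun x => by positivity),
    ← intervalIntegral.integral_of_le zero_le_one, pars, ENNReal.ofReal_sum_of_nonneg (fun j _ => by positivity)]
  refine Finset.sum_congr rfl fun j _ => ?_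
  rw [← ofReal_norm, ENNReal.ofReal_rpow_of_nonneg (norm_nonneg _) (by norm_num)]
  congr 1
  exact_mod_cast (Real.rpow_natCast _ 2).symm

/-- orthogonality of the types in a radially weighted `L ^ 2` -/
theorem orth_w {w : ℂ → ℝ} (hw : Measurable w) (hr : ∀ b z : ℂ, ‖b‖ = 1 → w (b * z) = w z)
    (S : Finset ℤ) {k : ℤ} {G : ℤ → ℂ → ℂ} (hG : ∀ j ∈ S, Continuous (G j)) (ht : ∀ j ∈ S, Ty (j + k) (G j)) :
    ∫⁻ z, ‖∑ j ∈ S, G j z‖ₑ ^ (2:ℝ) ∂(nu w) = ∑ j ∈ S, ∫⁻ z, ‖G j z‖ₑ ^ (2:ℝ) ∂(nu w) := by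
  have hc : Continuous fun z => ∑ j ∈ S, G j z := continuous_finsetSum _ hG
  have h := avg_rot hw hr (F := fun z => ‖∑ j ∈ S, G j z‖ₑ ^ (2:ℝ)) (hc.enorm.measurable.pow_const 2)
  rw [← h]
  simp only [circ S ht]
  exact lintegral_finsetSum _ fun j hj => (hG j hj).enorm.measurable.pow_const 2

/-- **Finite sums of types in weighted `L ^ 2`.** -/
theorem sum_w {n : ℕ} (hn : 1 ≤ n) {S : Finset ℤ} (hS : ∀ j ∈ S, j ≠ 0 ∧ j ≠ 2 * n) {g : ℤ → 𝓢(ℂ, ℂ)}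
    (hg : ∀ j ∈ S, Ty j (g j)) {w : ℂ → ℝ} (hw : Measurable w)
    (hr : ∀ b z : ℂ, ‖b‖ = 1 → w (b * z) = w z)
    (h1 : (∃ j ∈ S, (n : ℤ) < j) → ∀ v : ℝ, 0 < v → v ≤ 1 → ∀ z : ℂ, v ^ 2 * w ((v : ℂ) * z) ≤ w z)
    (h2 : (∃ j ∈ S, j ≤ (n : ℤ)) → ∀ v : ℝ, 0 < v → v ≤ 1 → ∀ z : ℂ, v ^ 2 * w z ≤ w ((v : ℂ) * z)) :
    ∫⁻ z, ‖TS n (∑ j ∈ S, g j) z‖ₑ ^ 2 * ENNReal.ofReal (w z) ≤
      ENNReal.ofReal ((6.7 * n + 0.67) ^ 2) *
        ∫⁻ z, ‖(∑ j ∈ S, g j : 𝓢(ℂ, ℂ)) z‖ₑ ^ 2 * ENNReal.ofReal (w z) := by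
  have e1 : ∀ z, TS n (∑ j ∈ S, g j) z = ∑ j ∈ S, TS n (g j) z := by
    intro z
    have h1 := TS_sum n S (fun _ => (1:ℂ)) g z
    simpa only [one_smul, one_mul] using h1
  have e2 : ∀ z, (∑ j ∈ S, g j : 𝓢(ℂ, ℂ)) z = ∑ j ∈ S, g j z := fun z => _root_.sum_apply _ _ _
  have a1 := orth_w hw hr S (k := -(2 * n)) (G := fun j => TS n (g j)) (fun j _ => TS_cont n _)
    (fun j hj => by
      have := TS_Ty (n := n) (hg j hj)
      rwa [sub_eq_add_neg] at this)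
  have a2 := orth_w hw hr S (k := 0) (G := fun j => g j) (fun j _ => (g j).continuous)
    (fun j hj => by rw [add_zero]; exact hg j hj)
  have key : ∫⁻ z, ‖∑ j ∈ S, TS n (g j) z‖ₑ ^ (2:ℝ) ∂(nu w) ≤
      ENNReal.ofReal (6.7 * n + 0.67) ^ (2:ℝ) * ∫⁻ z, ‖∑ j ∈ S, g j z‖ₑ ^ (2:ℝ) ∂(nu w) := by
    rw [a1, a2, Finset.mul_sum]
    refine Finset.sum_le_sum fun j hj => ?_
    refine single_w hn (hS j hj).1 (hS j hj).2 (hg j hj) (by norm_num) hw (fun hjn => h1 ⟨j, hj, hjn⟩)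
      (fun hjn v hv hv1 z => ?_)
    have h := h2 ⟨j, hj, hjn⟩ v hv hv1 z
    have e : v ^ (2 * (2:ℝ) - 2) = v ^ 2 := by
      rw [show (2 * (2:ℝ) - 2) = ((2:ℕ) : ℝ) by norm_num, Real.rpow_natCast]
    rw [e]
    exact h
  have m1 : Measurable fun z => ‖∑ j ∈ S, TS n (g j) z‖ₑ ^ (2:ℝ) :=
    (continuous_finsetSum _ fun j _ => TS_cont n (g j)).enorm.measurable.pow_const 2
  have m2 : Measurable fun z => ‖∑ j ∈ S, g j z‖ₑ ^ (2:ℝ) :=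
    (continuous_finsetSum _ fun j _ => (g j).continuous).enorm.measurable.pow_const 2
  rw [wd hw m1, wd hw m2, ENNReal.ofReal_rpow_of_pos (by positivity)] at key
  simp only [e1, e2]
  have c1 : ∀ x : ℝ≥0∞, x ^ (2:ℝ) = x ^ 2 := fun x => by
    exact_mod_cast ENNReal.rpow_natCast x 2
  have c2 : ((6.7:ℝ) * n + 0.67) ^ (2:ℝ) = (6.7 * n + 0.67) ^ 2 := by
    exact_mod_cast Real.rpow_natCast _ 2
  simp only [c1, c2] at key
  exact key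

end Pool.Agent.Run7.h695.BT
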