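import Pool.Agent.Run7.h695.BT.Wgt3

/-!
# Weights that are monotone along rays: positive and negative powers (helper695)
-/

set_option autoImplicit false

open Finset MeasureTheory Filter Topology
open scoped SchwartzMap ComplexConjugate ENNReal

namespace Pool.Agent.Run7.h695.BT

open Pool.Agent.N892.BW (TS)
open Pool.Agent.N892.BW.RTT (TS_cont TS_sum)

/-- the multiplier of exponent `n`, `n` an integer -/
noncomputable def TZ (n : ℤ) (f : 𝓢(ℂ, ℂ)) (z : ℂ) : ℂ :=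
  ∫ ξ : ℂ,
    Complex.exp (2 * (Real.pi : ℂ) * Complex.I * ((ξ.re * z.re + ξ.im * z.im : ℝ) : ℂ)) *
      ((starRingEnd ℂ ξ / ξ) ^ n *
        ∫ x : ℂ, Complex.exp (-(2 * (Real.pi : ℂ) * Complex.I *
          ((x.re * ξ.re + x.im * ξ.im : ℝ) : ℂ))) * f x)

lemma TZ_pos (k : ℕ) (f : 𝓢(ℂ, ℂ)) (z : ℂ) : TZ k f z = TS k f z := by
  unfold TZ TS
  refine integral_congr_ae (Eventually.of_forall fun ξ => ?_)
  simp only
  rw [zpow_natCast, mul_comm ξ.re z.re, mul_comm ξ.im z.im]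

lemma TZ_neg (k : ℕ) (f : 𝓢(ℂ, ℂ)) (z : ℂ) : TZ (-(k : ℤ)) f z = TS k (refl f) (conj z) := by
  unfold TZ TS
  rw [← int_conj]
  refine integral_congr_ae (Eventually.of_forall fun ξ => ?_)
  simp only
  have e1 : ((conj ξ).re * z.re + (conj ξ).im * z.im : ℝ) = (conj z).re * ξ.re + (conj z).im * ξ.im := by
    simp only [Complex.conj_re, Complex.conj_im]
    ring
  have e2 : (conj (conj ξ) / conj ξ) ^ (-(k : ℤ)) = (conj ξ / ξ) ^ k := by
    rw [Complex.conj_conj, zpow_neg, zpow_natCast, ← inv_pow, inv_div]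
  have e3 : ∫ x : ℂ, Complex.exp (-(2 * (Real.pi : ℂ) * Complex.I *
          ((x.re * (conj ξ).re + x.im * (conj ξ).im : ℝ) : ℂ))) * f x =
      ∫ x : ℂ, Complex.exp (-(2 * (Real.pi : ℂ) * Complex.I *
          ((x.re * ξ.re + x.im * ξ.im : ℝ) : ℂ))) * refl f x := by
    rw [← int_conj]
    refine integral_congr_ae (Eventually.of_forall fun x => ?_)
    simp only
    have e4 : ((conj x).re * (conj ξ).re + (conj x).im * (conj ξ).im : ℝ) = x.re * ξ.re + x.im * ξ.im := by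
      simp only [Complex.conj_re, Complex.conj_im]
      ring
    rw [e4, refl_apply]
  rw [e1, e2, e3]

lemma lconj {g : ℂ → ℝ≥0∞} (hg : Measurable g) : ∫⁻ z, g (conj z) = ∫⁻ z, g z :=
  (Complex.conjLIE.measurePreserving).lintegral_comp hg

lemma refl_Ty {j : ℤ} {f : 𝓢(ℂ, ℂ)} (hf : Ty j f) : Ty (-j) (refl f) := by
  intro b z hb
  rw [refl_apply, refl_apply, map_mul, hf (conj b) (conj z) (by rw [RCLike.norm_conj]; exact hb)]
  congr 1
  have h4 : conj b * b = 1 := by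
    rw [← Complex.normSq_eq_conj_mul_self, Complex.normSq_eq_norm_sq, hb]
    simp
  have h3 : conj b = b⁻¹ := eq_inv_of_mul_eq_one_left h4
  rw [h3, inv_zpow, zpow_neg]

/-- **Single types, weighted, all nonzero powers.** -/
theorem singleZ {n : ℤ} (hn : n ≠ 0) {j : ℤ} (hj0 : j ≠ 0) (hj2 : j ≠ 2 * n) {f : 𝓢(ℂ, ℂ)} (hf : Ty j f)
    {p : ℝ} (hp : 1 < p) {w : ℂ → ℝ} (hw : Measurable w)
    (h1 : n * n < j * n → ∀ v : ℝ, 0 < v → v ≤ 1 → ∀ z : ℂ, v ^ 2 * w ((v : ℂ) * z) ≤ w z)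
    (h2 : j * n ≤ n * n → ∀ v : ℝ, 0 < v → v ≤ 1 → ∀ z : ℂ, v ^ (2 * p - 2) * w z ≤ w ((v : ℂ) * z)) :
    ∫⁻ z, ‖TZ n f z‖ₑ ^ p * ENNReal.ofReal (w z) ≤
      ENNReal.ofReal ((6.7 * |(n : ℝ)| + 0.67) ^ p) * ∫⁻ z, ‖f z‖ₑ ^ p * ENNReal.ofReal (w z) := by
  rcases lt_or_gt_of_ne hn with h | h
  · obtain ⟨k, rfl⟩ : ∃ k : ℕ, n = -(k : ℤ) := ⟨n.natAbs, by omega⟩
    have hk : 1 ≤ k := by omega
    have hk' : (0:ℤ) < k := by exact_mod_cast hk
    have hwc : Measurable fun z => w (conj z) := hw.comp Complex.continuous_conj.measurable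
    have key := single_w' (n := k) hk (j := -j) (by omega) (by omega) (refl_Ty hf) hp hwc
      (fun hjn v hv hv1 z => by
        have := h1 (by nlinarith) v hv hv1 (conj z)
        rwa [map_mul, Complex.conj_ofReal])
      (fun hjn v hv hv1 z => by
        have := h2 (by nlinarith) v hv hv1 (conj z)
        rwa [map_mul, Complex.conj_ofReal])
    have a1 : ∫⁻ z, ‖TZ (-(k : ℤ)) f z‖ₑ ^ p * ENNReal.ofReal (w z) =
        ∫⁻ z, ‖TS k (refl f) z‖ₑ ^ p * ENNReal.ofReal (w (conj z)) := by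
      have hm : Measurable fun z => ‖TS k (refl f) z‖ₑ ^ p * ENNReal.ofReal (w (conj z)) :=
        ((TS_cont k (refl f)).enorm.measurable.pow_const p).mul hwc.ennreal_ofReal
      rw [← lconj hm]
      refine lintegral_congr fun z => ?_
      rw [TZ_neg, Complex.conj_conj]
    have a2 : ∫⁻ z, ‖refl f z‖ₑ ^ p * ENNReal.ofReal (w (conj z)) =
        ∫⁻ z, ‖f z‖ₑ ^ p * ENNReal.ofReal (w z) := by
      have hm : Measurable fun z => ‖f z‖ₑ ^ p * ENNReal.ofReal (w z) :=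
        (f.continuous.enorm.measurable.pow_const p).mul hw.ennreal_ofReal
      rw [← lconj hm]
      refine lintegral_congr fun z => ?_
      rw [refl_apply]
    have a3 : |((-(k : ℤ) : ℤ) : ℝ)| = k := by
      push_cast
      rw [abs_neg, Nat.abs_cast]
    rw [a1, a3]
    rw [a2] at key
    exact key
  · obtain ⟨k, rfl⟩ : ∃ k : ℕ, n = (k : ℤ) := ⟨n.natAbs, by omega⟩
    have hk : 1 ≤ k := by omega
    have hk' : (0:ℤ) < k := by exact_mod_cast hk
    have key := single_w' (n := k) hk hj0 hj2 hf hp hw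
      (fun hjn => h1 (by nlinarith)) (fun hjn => h2 (by nlinarith))
    have a3 : |((k : ℤ) : ℝ)| = k := by
      push_cast
      rw [Nat.abs_cast]
    rw [a3]
    simp only [TZ_pos]
    exact key

end Pool.Agent.Run7.h695.BT
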