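import Pool.Agent.Run7.h695.BT.Wgt3

/-!
# Angular components of the transform (helper695)
-/

set_option autoImplicit false

open Finset MeasureTheory Filter Topology
open scoped SchwartzMap ComplexConjugate ENNReal

namespace Pool.Agent.Run7.h695.BT

open Pool.Agent.N892.BW (TS)
open Pool.Agent.N892.BW.RTT (TS_cont TS_sum)

/-- Parseval on the circle -/
lemma parsC {φ : ℝ → ℂ} (hφ : Continuous φ) :
    HasSum (fun j : ℤ => ‖∫ x in (0:ℝ)..1, ex (-(j * x)) * φ x‖ ^ 2) (∫ x in (0:ℝ)..1, ‖φ x‖ ^ 2) := by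
  have hL : MemLp φ 2 (volume.restrict (Set.Ioc (0:ℝ) 1)) := by
    obtain ⟨C, hC⟩ := isCompact_Icc.exists_bound_of_continuousOn (s := Set.Icc (0:ℝ) 1) hφ.continuousOn
    refine MemLp.of_bound hφ.aestronglyMeasurable C ?_
    exact (ae_restrict_iff' measurableSet_Ioc).2 (Eventually.of_forall fun x hx => hC x ⟨hx.1.le, hx.2⟩)
  have h := hasSum_sq_fourierCoeffOn (f := φ) (zero_lt_one' ℝ) hL
  rw [sub_zero, inv_one, one_smul] at h
  refine h.congr_fun fun j => ?_
  congr 2
  rw [fourierCoeffOn_eq_integral, sub_zero, div_one, one_smul]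
  refine intervalIntegral.integral_congr fun x _ => ?_
  rw [fourier_coe_apply, smul_eq_mul]
  congr 1
  unfold ex
  congr 1
  push_cast
  ring

/-- Parseval for the angular components -/
lemma circC {F : ℂ → ℂ} (hF : Continuous F) (z : ℂ) :
    ∫⁻ x in Set.Ioc (0:ℝ) 1, ‖F (ex x * z)‖ₑ ^ (2:ℝ) = ∑' j : ℤ, ‖Pr j F z‖ₑ ^ (2:ℝ) := by
  have hc0 : Continuous fun x : ℝ => F (ex x * z) := by
    have := ex_cont
    fun_prop
  have h1 : ∀ y : ℂ, ‖y‖ₑ ^ (2:ℝ) = ENNReal.ofReal (‖y‖ ^ 2) := by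
    intro y
    rw [← ofReal_norm, ENNReal.ofReal_rpow_of_nonneg (norm_nonneg _) (by norm_num)]
    congr 1
    exact_mod_cast Real.rpow_natCast _ 2
  have hc : Continuous fun x : ℝ => ‖F (ex x * z)‖ ^ 2 := hc0.norm.pow 2
  have hp := parsC hc0
  simp only [h1]
  rw [← ofReal_integral_eq_lintegral_ofReal hc.integrableOn_Ioc (Eventually.of_forall fun x => by positivity),
    ← intervalIntegral.integral_of_le zero_le_one, ← hp.tsum_eq,
    ENNReal.ofReal_tsum_of_nonneg (fun j => by positivity) hp.summable]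
  rfl

/-- Parseval for a radially weighted `L ^ 2` norm -/
theorem parsW {w : ℂ → ℝ} (hw : Measurable w) (hr : ∀ b z : ℂ, ‖b‖ = 1 → w (b * z) = w z)
    {F : ℂ → ℂ} (hF : Continuous F) :
    ∫⁻ z, ‖F z‖ₑ ^ (2:ℝ) ∂(nu w) = ∑' j : ℤ, ∫⁻ z, ‖Pr j F z‖ₑ ^ (2:ℝ) ∂(nu w) := by
  have h := avg_rot hw hr (F := fun z => ‖F z‖ₑ ^ (2:ℝ)) (hF.enorm.measurable.pow_const 2)
  rw [← h]
  simp only [circC hF]
  exact lintegral_tsum fun j => ((Pr_cont hF).enorm.measurable.pow_const 2).aemeasurable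

lemma tw_cont (n : ℕ) {f : ℂ → ℂ} (hf : Continuous f) (h0 : f 0 = 0) : Continuous (tw n f) := by
  rw [continuous_iff_continuousAt]
  intro z
  by_cases hz : z = 0
  · subst hz
    unfold ContinuousAt
    have h3 : tw n f 0 = 0 := by
      unfold tw
      rw [h0, mul_zero]
    rw [h3]
    refine squeeze_zero_norm (tw_norm_le n f) ?_
    have h4 := (hf.norm).tendsto 0
    rwa [h0, norm_zero] at h4
  · unfold tw
    exact (((Complex.continuous_conj.continuousAt).div continuousAt_id hz).pow n).mul hf.continuousAt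

/-- the projections are symmetric -/
lemma Pr_sym {j : ℤ} {F h : ℂ → ℂ} (hF : Continuous F) (hh : Continuous h) {C : ℝ}
    (hB : ∀ z u : ℂ, ‖u‖ = ‖z‖ → ‖F u‖ * ‖h z‖ ≤ C / (1 + ‖z‖ ^ 2) ^ 2) (ht : Ty (-j) h) :
    ∫ z, Pr j F z * h z = ∫ z, F z * h z := by
  have h1 : ∀ z, Pr j F z * h z =
      ∫ x in Set.Ioc (0:ℝ) 1, (ex (-(j * x)) * F (ex x * z)) * h z := by
    intro z
    unfold Pr
    rw [intervalIntegral.integral_of_le zero_le_one, integral_mul_const]
  simp only [h1]
  rw [integral_integral_swap]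
  · have h2 : ∀ x ∈ Set.Ioc (0:ℝ) 1, ∫ z, (ex (-(j * x)) * F (ex x * z)) * h z =
        ∫ z, F z * h z := by
      intro x _
      rw [← int_rot (ex_norm x) (fun z => F z * h z)]
      refine integral_congr_ae (Eventually.of_forall fun z => ?_)
      simp only
      rw [ht _ _ (ex_norm x), ← ex_mul_int]
      have e : -((j : ℝ) * x) = ((-j : ℤ) : ℝ) * x := by
        push_cast
        ring
      rw [e]
      ring
    rw [setIntegral_congr_fun measurableSet_Ioc h2, setIntegral_const]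
    simp
  · have hc : Continuous (Function.uncurry fun (z : ℂ) (x : ℝ) => (ex (-(j * x)) * F (ex x * z)) * h z) := by
      have := ex_cont
      unfold Function.uncurry
      fun_prop
    have hdom : Integrable (fun y : ℂ × ℝ => (C / (1 + ‖y.1‖ ^ 2) ^ 2) * 1)
        ((volume : Measure ℂ).prod (volume.restrict (Set.Ioc (0:ℝ) 1))) := by
      refine Integrable.mul_prod (f := fun z : ℂ => C / (1 + ‖z‖ ^ 2) ^ 2) (g := fun _ : ℝ => (1:ℝ)) ?_
        (integrable_const _)
      refine (int_model.const_mul C).congr (Eventually.of_forall fun z => ?_)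
      simp only [div_eq_mul_inv]
    refine hdom.mono' hc.aestronglyMeasurable (Eventually.of_forall fun y => ?_)
    simp only [Function.uncurry]
    rw [norm_mul, norm_mul, ex_norm, one_mul, mul_one]
    exact hB y.1 (ex y.2 * y.1) (by rw [norm_mul, ex_norm, one_mul])

end Pool.Agent.Run7.h695.BT
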