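import Pool.Agent.Run7.h695.BT.Wgt5

/-!
# Weighted `L ^ 2` bounds for general functions (helper695)
-/

set_option autoImplicit false

open Finset MeasureTheory Filter Topology
open scoped SchwartzMap ComplexConjugate ENNReal

namespace Pool.Agent.Run7.h695.BT

open Pool.Agent.N892.BW (TS)
open Pool.Agent.N892.BW.RTT (TS_cont TS_sum)

lemma TS_bdd (n : ℕ) (f : 𝓢(ℂ, ℂ)) : ∃ C, 0 ≤ C ∧ ∀ w, ‖TS n f w‖ ≤ C := by
  refine ⟨∫ ξ : ℂ, ‖(FourierTransform.fourier f : 𝓢(ℂ, ℂ)) ξ‖, integral_nonneg fun _ => norm_nonneg _,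
    fun w => ?_⟩
  rw [Pool.Agent.N892.BW.RTT.TS_eq]
  refine (norm_integral_le_integral_norm _).trans ?_
  refine integral_mono_of_nonneg (Eventually.of_forall fun _ => norm_nonneg _)
    (FourierTransform.fourier f : 𝓢(ℂ, ℂ)).integrable.norm (Eventually.of_forall fun ξ => ?_)
  simp only
  rw [norm_mul, norm_mul, Pool.Agent.N892.BW.RTT.norm_EE, one_mul]
  refine mul_le_of_le_one_left (norm_nonneg _) ?_
  rw [norm_pow, norm_div, RCLike.norm_conj]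
  exact pow_le_one₀ (by positivity) (div_self_le_one _)

lemma Pr_bdd {j : ℤ} {F : ℂ → ℂ} {C : ℝ} (h : ∀ z, ‖F z‖ ≤ C) (z : ℂ) : ‖Pr j F z‖ ≤ C := by
  have h3 : ‖Pr j F z‖ ≤ C * |(1:ℝ) - 0| := by
    refine intervalIntegral.norm_integral_le_of_norm_le_const fun x _ => ?_
    rw [norm_mul, ex_norm, one_mul]
    exact h _
  simpa using h3

lemma sep2 {i : ℤ} {H1 H2 : ℂ → ℂ} (c1 : Continuous H1) (c2 : Continuous H2) (t1 : Ty (-i) H1)
    (t2 : Ty (-i) H2) {C1 C2 : ℝ} (b1 : ∀ z, ‖H1 z‖ ≤ C1) (b2 : ∀ z, ‖H2 z‖ ≤ C2)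
    (h : ∀ g : 𝓢(ℂ, ℂ), Ty i g → ∫ z, H1 z * g z = ∫ z, H2 z * g z) {z : ℂ} (hz : z ≠ 0) : H1 z = H2 z := by
  have key := sep (i := i) (H := fun z => H1 z - H2 z) (c1.sub c2) (fun b w hb => by
      simp only
      rw [t1 b w hb, t2 b w hb]
      ring) (fun g hg => ?_) hz
  · exact sub_eq_zero.1 key
  · have i1 : Integrable fun w => H1 w * g w :=
      g.integrable.bdd_mul c1.aestronglyMeasurable (Eventually.of_forall b1)
    have i2 : Integrable fun w => H2 w * g w :=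
      g.integrable.bdd_mul c2.aestronglyMeasurable (Eventually.of_forall b2)
    have e0 : ∀ w, (H1 w - H2 w) * g w = H1 w * g w - H2 w * g w := fun w => by ring
    simp only [e0]
    rw [integral_sub i1 i2, h g hg, sub_self]

/-- the pairing with a function of type `2n - j` sees only the component of type `j` -/
lemma pair_comp (n : ℕ) (j : ℤ) (f : 𝓢(ℂ, ℂ)) {g : 𝓢(ℂ, ℂ)} (hg : Ty (2 * n - j) g) :
    ∫ z, Pr (j - 2 * n) (TS n f) z * g z = ∫ z, Pr j f z * TS n g z := by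
  obtain ⟨C, hC0, hC⟩ := TS_bdd n f
  obtain ⟨C', hC0', hC'⟩ := TS_bdd n g
  obtain ⟨-, D, hD⟩ := sch_dec2 g
  obtain ⟨-, D', hD'⟩ := sch_dec2 f
  rw [Pr_sym (TS_cont n f) g.continuous (C := C * D) (fun z u _ => by
      rw [mul_div_assoc]
      exact mul_le_mul (hC u) (hD z) (norm_nonneg _) hC0) (by
      rwa [neg_sub]), pairing,
    Pr_sym f.continuous (TS_cont n g) (C := D' * C') (fun z u hu => by
      have h1 := hD' u
      rw [hu] at h1
      rw [mul_div_right_comm]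
      exact mul_le_mul h1 (hC' z) (norm_nonneg _) ((norm_nonneg _).trans h1)) (by
      have := TS_Ty (n := n) hg
      rwa [show (2 * (n : ℤ) - j) - 2 * n = -j by ring] at this)]

/-- a missing component stays missing -/
lemma comp_zero (n : ℕ) {j : ℤ} (f : 𝓢(ℂ, ℂ)) (h0 : ∀ z, Pr j f z = 0) {z : ℂ} (hz : z ≠ 0) :
    Pr (j - 2 * n) (TS n f) z = 0 := by
  obtain ⟨C, hC0, hC⟩ := TS_bdd n f
  refine sep2 (i := 2 * n - j) (H2 := fun _ => 0) (Pr_cont (TS_cont n f)) continuous_const (by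
    have := Pr_type (j - 2 * n) (TS n f)
    rwa [neg_sub]) (fun b w hb => by rw [mul_zero]) (Pr_bdd hC) (C2 := 0)
    (fun z => by rw [norm_zero]) (fun g hg => ?_) hz
  rw [pair_comp n j f hg]
  simp only [h0, zero_mul]

lemma FF_none (a : ℕ) (f : ℂ → ℂ) (z : ℂ) : FF a 0 f z = f z := by
  unfold FF
  rw [Finset.range_zero, Finset.sum_empty, sub_zero]

lemma RR_none (a : ℕ) (f : ℂ → ℂ) (z : ℂ) : RR a 0 f z = f z := by
  unfold RR RK
  simp only [kh_zero, Complex.ofReal_zero, zero_mul, intervalIntegral.integral_zero, sub_zero]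

lemma ne_ae : ∀ᵐ ξ : ℂ, ξ ≠ 0 := by
  rw [ae_iff]
  simp

/-- **The component above `n`.** -/
lemma comp_high {n : ℕ} {j : ℤ} (hj : n < j) (hj2 : j ≠ 2 * n) (f : 𝓢(ℂ, ℂ)) {z : ℂ} (hz : z ≠ 0) :
    Pr (j - 2 * n) (TS n f) z = (conj z / z) ^ n * RR (An n j) (Mn n j) (Pr j f) z := by
  have hA : An n j = (2 * n - j).natAbs := by
    unfold An
    rw [if_neg (by omega)]
  have hM : Mn n j = (n - max (2 * n - j) 0).toNat := by
    unfold Mn
    rw [if_neg (by omega)]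
  rw [hA, hM]
  set a : ℕ := (2 * n - j).natAbs with ha
  set m : ℕ := (n - max (2 * n - j) 0).toNat with hm
  have hw : 1 ≤ a := by omega
  set u : ℂ → ℂ := Pr j f with hu
  have hud : Dec2 u := Pr_dec (sch_dec2 f)
  have hut : Ty j u := Pr_type j f
  have h0 : u 0 = 0 := type_zero (by omega) hut
  have hd : Dec2 (tw n u) := tw_dec n hud h0
  have hRd := RR_dec a m hd
  obtain ⟨C, hC0, hC⟩ := TS_bdd n f
  rw [← RR_tw a m n u hz]
  refine sep2 (i := 2 * n - j) (Pr_cont (TS_cont n f)) hRd.1 (by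
    have := Pr_type (j - 2 * n) (TS n f)
    rwa [neg_sub]) (by
    have := RR_Ty (tw_Ty (n := n) hut) a m
    rwa [← neg_sub] at this) (Pr_bdd hC) (C2 := hRd.2.choose) (fun z => ?_) (fun g hg => ?_) hz
  · have h1 := hRd.2.choose_spec z
    refine h1.trans (div_le_self (Dec2.nonneg hRd.2.choose_spec) ?_)
    have : (1:ℝ) ≤ 1 + ‖z‖ ^ 2 := by nlinarith [norm_nonneg z]
    nlinarith
  · rw [pair_comp n j f hg, RR_pair hw m hd (sch_dec2 g)]
    refine integral_congr_ae ?_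
    filter_upwards [ne_ae] with w hw0
    rw [id_type (n := n) (j := 2 * n - j) (by omega) hg hw0]
    unfold tw
    ring

/-- **The component up to `n`.** -/
lemma comp_low {n : ℕ} {j : ℤ} (hj : j ≤ n) (hj0 : j ≠ 0) (hj2 : j ≠ 2 * n) (f : 𝓢(ℂ, ℂ)) {z : ℂ} (hz : z ≠ 0) :
    Pr (j - 2 * n) (TS n f) z = (conj z / z) ^ n * FF (An n j) (Mn n j) (Pr j f) z := by
  have hA : An n j = j.natAbs := by
    unfold An
    rw [if_pos (by omega)]
  have hM : Mn n j = (n - max j 0).toNat := by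
    unfold Mn
    rw [if_pos (by omega)]
  rw [hA, hM]
  set a : ℕ := j.natAbs with ha
  set m : ℕ := (n - max j 0).toNat with hm
  have hw : 1 ≤ a := by omega
  set u : ℂ → ℂ := Pr j f with hu
  have hud : Dec2 u := Pr_dec (sch_dec2 f)
  have hut : Ty j u := Pr_type j f
  have hFd := FF_dec a m hud
  have hFt : Ty j (FF a m u) := FF_Ty hut a m
  have h0 : FF a m u 0 = 0 := type_zero hj0 hFt
  obtain ⟨C, hC0, hC⟩ := TS_bdd n f
  show Pr (j - 2 * n) (TS n f) z = tw n (FF a m u) z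
  refine sep2 (i := 2 * n - j) (Pr_cont (TS_cont n f)) (tw_cont n hFd.1 h0) (by
    have := Pr_type (j - 2 * n) (TS n f)
    rwa [neg_sub]) (by
    have := tw_Ty (n := n) hFt
    rwa [← neg_sub] at this) (Pr_bdd hC) (C2 := hFd.2.choose) (fun z => ?_) (fun g hg => ?_) hz
  · have h1 := hFd.2.choose_spec z
    refine (tw_norm_le _ _ _).trans (h1.trans (div_le_self (Dec.nonneg hFd.2.choose_spec) ?_))
    nlinarith [norm_nonneg z]
  · have hg0 : g 0 = 0 := type_zero (by omega) hg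
    have hgd : Dec2 (tw n g) := tw_dec n (sch_dec2 g) hg0
    have e1 : ∫ z, Pr j f z * TS n g z = ∫ w, RR a m (tw n g) w * u w := by
      refine integral_congr_ae ?_
      filter_upwards [ne_ae] with w hw0
      rw [RR_tw a m n g hw0]
      rcases lt_or_eq_of_le hj with h | h
      · rw [id_high (n := n) (j := 2 * n - j) (by omega) (by omega) hg hw0]
        have e2 : (2 * (n : ℤ) - (2 * n - j)).natAbs = a := by omega
        have e3 : ((n : ℤ) - max (2 * n - (2 * n - j)) 0).toNat = m := by omega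
        rw [e2, e3]
        ring
      · rw [id_type (n := n) (j := 2 * n - j) (by omega) hg hw0]
        have e3 : ((n : ℤ) - max (2 * n - j) 0).toNat = 0 := by omega
        have e4 : m = 0 := by omega
        rw [e3, e4, FF_none, RR_none]
        ring
    rw [pair_comp n j f hg, e1, RR_pair hw m hgd hud]
    refine integral_congr_ae (Eventually.of_forall fun w => ?_)
    simp only
    unfold tw
    ring

/-- one component, weighted -/
lemma comp_w {n : ℕ} (hn : 1 ≤ n) {j : ℤ} (hj0 : j ≠ 0) (hj2 : j ≠ 2 * n) (f : 𝓢(ℂ, ℂ))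
    {w : ℂ → ℝ} (hw : Measurable w)
    (h1 : (n : ℤ) < j → ∀ v : ℝ, 0 < v → v ≤ 1 → ∀ z : ℂ, v ^ 2 * w ((v : ℂ) * z) ≤ w z)
    (h2 : j ≤ n → ∀ v : ℝ, 0 < v → v ≤ 1 → ∀ z : ℂ, v ^ (2 * (2:ℝ) - 2) * w z ≤ w ((v : ℂ) * z)) :
    ∫⁻ z, ‖Pr (j - 2 * n) (TS n f) z‖ₑ ^ (2:ℝ) ∂(nu w) ≤
      ENNReal.ofReal (6.7 * n + 0.67) ^ (2:ℝ) * ∫⁻ z, ‖Pr j f z‖ₑ ^ (2:ℝ) ∂(nu w) := by
  have hN := all_type hn hj0 hj2
  have hAp := An_pos (n := n) hj0 hj2
  have hun : ∀ z : ℂ, z ≠ 0 → ‖(conj z / z) ^ n‖ₑ = 1 := by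
    intro z hz
    have hb : ‖conj z / z‖ = 1 := by
      rw [norm_div, RCLike.norm_conj]
      exact div_self (norm_ne_zero_iff.2 hz)
    rw [← ofReal_norm, norm_pow, hb, one_pow, ENNReal.ofReal_one]
  have hC : ENNReal.ofReal (1 + NH (An n j) (Mn n j)) ^ (2:ℝ) ≤ ENNReal.ofReal (6.7 * n + 0.67) ^ (2:ℝ) :=
    ENNReal.rpow_le_rpow (ENNReal.ofReal_le_ofReal (by linarith)) (by norm_num)
  have hud : Dec2 (Pr j f) := Pr_dec (sch_dec2 f)
  rcases le_or_gt j n with h | h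
  · have e : ∫⁻ z, ‖Pr (j - 2 * n) (TS n f) z‖ₑ ^ (2:ℝ) ∂(nu w) =
        ∫⁻ z, ‖FF (An n j) (Mn n j) (Pr j f) z‖ₑ ^ (2:ℝ) ∂(nu w) := by
      refine lintegral_congr_ae ?_
      filter_upwards [nu_ne w] with z hz
      rw [comp_low h hj0 hj2 f hz, enorm_mul, hun z hz, one_mul]
    rw [e]
    refine (FF_w hAp (Mn n j) hw (by norm_num) (h2 h) hud.1).trans ?_
    exact mul_le_mul_left hC _
  · have e : ∫⁻ z, ‖Pr (j - 2 * n) (TS n f) z‖ₑ ^ (2:ℝ) ∂(nu w) =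
        ∫⁻ z, ‖RR (An n j) (Mn n j) (Pr j f) z‖ₑ ^ (2:ℝ) ∂(nu w) := by
      refine lintegral_congr_ae ?_
      filter_upwards [nu_ne w] with z hz
      rw [comp_high h hj2 f hz, enorm_mul, hun z hz, one_mul]
    rw [e]
    refine (RR_w (An n j) (Mn n j) hw (by norm_num) (h1 h) hud).trans ?_
    exact mul_le_mul_left hC _

/-- **General functions without the types `0` and `2n` in weighted `L ^ 2`.** -/
theorem gen_w {n : ℕ} (hn : 1 ≤ n) (f : 𝓢(ℂ, ℂ)) (hf0 : ∀ z, Pr 0 f z = 0)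
    (hf2 : ∀ z, Pr (2 * n) f z = 0) {w : ℂ → ℝ} (hw : Measurable w)
    (hr : ∀ b z : ℂ, ‖b‖ = 1 → w (b * z) = w z)
    (h1 : (∃ j : ℤ, n < j ∧ ∃ z, Pr j f z ≠ 0) →
      ∀ v : ℝ, 0 < v → v ≤ 1 → ∀ z : ℂ, v ^ 2 * w ((v : ℂ) * z) ≤ w z)
    (h2 : (∃ j : ℤ, j ≤ n ∧ ∃ z, Pr j f z ≠ 0) →
      ∀ v : ℝ, 0 < v → v ≤ 1 → ∀ z : ℂ, v ^ 2 * w z ≤ w ((v : ℂ) * z)) :
    ∫⁻ z, ‖TS n f z‖ₑ ^ 2 * ENNReal.ofReal (w z) ≤
      ENNReal.ofReal ((6.7 * n + 0.67) ^ 2) * ∫⁻ z, ‖f z‖ₑ ^ 2 * ENNReal.ofReal (w z) := by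
  have key : ∫⁻ z, ‖TS n f z‖ₑ ^ (2:ℝ) ∂(nu w) ≤
      ENNReal.ofReal (6.7 * n + 0.67) ^ (2:ℝ) * ∫⁻ z, ‖f z‖ₑ ^ (2:ℝ) ∂(nu w) := by
    rw [parsW hw hr (TS_cont n f), parsW hw hr f.continuous, ← ENNReal.tsum_mul_left,
      ← (Equiv.subRight (2 * (n : ℤ))).tsum_eq]
    refine ENNReal.tsum_le_tsum fun j => ?_
    show ∫⁻ z, ‖Pr (j - 2 * n) (TS n f) z‖ₑ ^ (2:ℝ) ∂(nu w) ≤ _
    by_cases hz : ∀ z, Pr j f z = 0
    · have e : ∫⁻ z, ‖Pr (j - 2 * n) (TS n f) z‖ₑ ^ (2:ℝ) ∂(nu w) = 0 := by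
        rw [← lintegral_zero (μ := nu w)]
        refine lintegral_congr_ae ?_
        filter_upwards [nu_ne w] with z hz0
        rw [comp_zero n f hz hz0, enorm_zero, ENNReal.zero_rpow_of_pos (by norm_num)]
      rw [e]
      exact bot_le
    · have hz' : ∃ z, Pr j f z ≠ 0 := not_forall.1 hz
      have hj0 : j ≠ 0 := fun h => hz (by rw [h]; exact hf0)
      have hj2 : j ≠ 2 * n := fun h => hz (by rw [h]; exact hf2)
      refine comp_w hn hj0 hj2 f hw (fun hjn => h1 ⟨j, hjn, hz'⟩) (fun hjn v hv hv1 z => ?_)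
      have h := h2 ⟨j, hjn, hz'⟩ v hv hv1 z
      have e : v ^ (2 * (2:ℝ) - 2) = v ^ 2 := by
        rw [show (2 * (2:ℝ) - 2) = ((2:ℕ) : ℝ) by norm_num, Real.rpow_natCast]
      rw [e]
      exact h
  have m1 : Measurable fun z => ‖TS n f z‖ₑ ^ (2:ℝ) := (TS_cont n f).enorm.measurable.pow_const 2
  have m2 : Measurable fun z => ‖f z‖ₑ ^ (2:ℝ) := f.continuous.enorm.measurable.pow_const 2
  rw [wd hw m1, wd hw m2, ENNReal.ofReal_rpow_of_pos (by positivity)] at key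
  have c1 : ∀ x : ℝ≥0∞, x ^ (2:ℝ) = x ^ 2 := fun x => by
    exact_mod_cast ENNReal.rpow_natCast x 2
  have c2 : ((6.7:ℝ) * n + 0.67) ^ (2:ℝ) = (6.7 * n + 0.67) ^ 2 := by
    exact_mod_cast Real.rpow_natCast _ 2
  simp only [c1, c2] at key
  exact key

end Pool.Agent.Run7.h695.BT
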