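import Pool.Agent.Run7.h695.BT.Wgt4
import Pool.Agent.Run7.h695.BT.Band

/-!
# The square function near the origin (helper695)
-/

set_option autoImplicit false

open Finset MeasureTheory

namespace Pool.Agent.Run7.h695.BT

lemma sum_isq (N : ℕ) : ∑ i ∈ range N, 1 / √((i : ℝ) + 1) ≤ 2 * √N := by
  induction N with
  | zero => simp
  | succ N ih =>
    rw [Finset.sum_range_succ]
    push_cast
    have hN : (0:ℝ) ≤ N := Nat.cast_nonneg N
    have h1 : 0 < √((N : ℝ) + 1) := Real.sqrt_pos.2 (by linarith)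
    have h2 : √((N : ℝ) + 1) ^ 2 = N + 1 := Real.sq_sqrt (by linarith)
    have h3 : √(N : ℝ) ^ 2 = N := Real.sq_sqrt hN
    have h4 : 1 / √((N : ℝ) + 1) ≤ 2 * (√((N : ℝ) + 1) - √N) := by
      rw [div_le_iff₀ h1]
      nlinarith [sq_nonneg (√((N : ℝ) + 1) - √N)]
    linarith

/-- Sonin's bound for `a = 0` -/
theorem sonin0 (n : ℕ) {u : ℝ} (h0 : 0 ≤ u) (h1 : u ≤ 1 / 4) :
    |f0 0 (n + 1) u| ≤ (n : ℝ) + 1 := by
  have hz : |f0 0 (n + 1) 0| = (n : ℝ) + 1 := by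
    have e : f0 0 (n + 1) 0 = ck 0 (n + 1) 0 := by
      unfold f0
      rw [Finset.sum_range_succ', Finset.sum_eq_zero]
      · simp
      · intro i _
        simp
    rw [e, ck, QK_zero, PP_at]
    have e1 : ∏ i ∈ range (n + 1), ((((0 : ℕ) : ℝ)) + ((0 : ℕ) : ℝ) + 1 + i) = (n + 1) * fa n := by
      rw [← fa_succ]
      unfold fa
      push_cast
      exact Finset.prod_congr rfl fun i _ => by ring
    rw [e1, abs_div, abs_mul ((-1 : ℝ) ^ n), abs_pow, abs_neg, abs_one, one_pow, one_mul,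
      abs_of_pos (fa_pos n), abs_of_pos (by have := fa_pos n; positivity)]
    have := fa_pos n
    field_simp
  rcases Nat.eq_zero_or_pos n with hn | hn
  · subst hn
    have e : f0 0 (0 + 1) u = f0 0 (0 + 1) 0 := by
      unfold f0
      rw [Finset.sum_range_one, Finset.sum_range_one]
      simp
    rw [e, hz]
  · set Λ : ℝ := n * (n + (0 : ℕ) + 2) with hΛ
    have hΛ0 : 0 < Λ := by
      have : (0:ℝ) < n := by exact_mod_cast hn
      rw [hΛ]
      positivity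
    set S : ℝ → ℝ := fun u => Λ * f0 0 (n + 1) u ^ 2 + u * (1 - u) * f1 0 (n + 1) u ^ 2 with hS
    have hd : ∀ u : ℝ, HasDerivAt S (f1 0 (n + 1) u ^ 2 * (4 * u - 1)) u := by
      intro u
      have d0 := f0_deriv 0 (n + 1) u
      have d1 := f1_deriv 0 (n + 1) u
      have du := hasDerivAt_id u
      have d := ((d0.pow 2).const_mul Λ).add ((du.mul (du.const_sub 1)).mul (d1.pow 2))
      refine HasDerivAt.congr_of_eventuallyEq (d.congr_deriv ?_) (Filter.Eventually.of_forall fun x => ?_)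
      · have h := ode 0 n u
        simp only [Pi.mul_apply, Pi.pow_apply, id]
        rw [hΛ]
        push_cast at h ⊢
        linear_combination (2 * f1 0 (n + 1) u) * h
      · rw [hS]
        simp only [Pi.mul_apply, Pi.add_apply, Pi.pow_apply, id]
    have hanti : AntitoneOn S (Set.Icc 0 (1 / 4)) := by
      refine antitoneOn_of_deriv_nonpos (convex_Icc _ _)
        (continuous_iff_continuousAt.2 fun u => (hd u).continuousAt).continuousOn
        (fun u _ => (hd u).differentiableAt.differentiableWithinAt) fun u hu => ?_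
      rw [interior_Icc] at hu
      rw [(hd u).deriv]
      have : 4 * u - 1 ≤ 0 := by linarith [hu.2]
      exact mul_nonpos_of_nonneg_of_nonpos (sq_nonneg _) this
    have h2 := hanti (Set.left_mem_Icc.2 (by norm_num)) (Set.mem_Icc.2 ⟨h0, h1⟩) h0
    rw [hS] at h2
    simp only at h2
    have h3 : 0 ≤ u * (1 - u) * f1 0 (n + 1) u ^ 2 :=
      mul_nonneg (mul_nonneg h0 (by linarith)) (sq_nonneg _)
    have h4 : f0 0 (n + 1) u ^ 2 ≤ f0 0 (n + 1) 0 ^ 2 := by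
      have : Λ * f0 0 (n + 1) u ^ 2 ≤ Λ * f0 0 (n + 1) 0 ^ 2 := by linarith
      exact le_of_mul_le_mul_left this hΛ0
    rw [← hz]
    exact sq_le_sq.1 h4

/-- the moment of order `0` with one factor `1 - v ^ 2` -/
lemma mom1 (a m : ℕ) (hm : 1 ≤ m) : ∫ v in (0:ℝ)..1, 2 * v * (kb a m v) ^ 2 * (1 - v ^ 2) =
    m * ((m : ℝ) + a) / (2 * m + a) := by
  have h1 := int_sq2 a m hm 1 0
  have h0 := int_sq2 a m hm 0 0
  have hkb := kb_cont a m
  have e : ∀ v : ℝ, 2 * v * (kb a m v) ^ 2 * (1 - v ^ 2) =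
      2 * v * (kb a m v) ^ 2 * (1 + 1 * (1 - v ^ 2) + 0 * (1 - v ^ 2) ^ 2) -
        2 * v * (kb a m v) ^ 2 * (1 + 0 * (1 - v ^ 2) + 0 * (1 - v ^ 2) ^ 2) := fun v => by ring
  simp only [e]
  rw [intervalIntegral.integral_sub
    ((by fun_prop : Continuous fun v : ℝ => 2 * v * (kb a m v) ^ 2 * (1 + 1 * (1 - v ^ 2) + 0 * (1 - v ^ 2) ^ 2)).intervalIntegrable _ _)
    ((by fun_prop : Continuous fun v : ℝ => 2 * v * (kb a m v) ^ 2 * (1 + 0 * (1 - v ^ 2) + 0 * (1 - v ^ 2) ^ 2)).intervalIntegrable _ _),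
    h1, h0, ← J1_eq a hm]
  ring

lemma half {a m : ℕ} (ha : 1 ≤ a) (hm : 1 ≤ m) {l : ℝ} (hl : 0 < l) :
    ∫ v in (0:ℝ)..(1/2), kb a m v ^ 2 ≤
      1 / 3 * (l * (m * ((m : ℝ) + a) / (2 * m + a)) + 1 / l * (m * ((m : ℝ) + a) / a)) := by
  obtain ⟨b, rfl⟩ : ∃ b, a = b + 1 := ⟨a - 1, by omega⟩
  obtain ⟨n, rfl⟩ : ∃ n, m = n + 1 := ⟨m - 1, by omega⟩
  have hkb := kb_cont (b + 1) (n + 1)
  have hf0 := f0_cont (b + 1) (n + 1)
  have c1 : Continuous fun v : ℝ => 2 * v * (kb (b + 1) (n + 1) v) ^ 2 * (1 - v ^ 2) := by fun_prop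
  have c2 : Continuous fun v : ℝ => 2 * v ^ (2 * b + 1) * f0 (b + 1) (n + 1) (v ^ 2) ^ 2 * (1 - v ^ 2) := by
    fun_prop
  have hE := E1_eq b n
  have hJ := mom1 (b + 1) (n + 1) (by omega)
  have h1 : ∫ v in (0:ℝ)..(1/2), kb (b + 1) (n + 1) v ^ 2 ≤
      ∫ v in (0:ℝ)..(1/2), 1 / 3 * (l * (2 * v * (kb (b + 1) (n + 1) v) ^ 2 * (1 - v ^ 2)) +
        1 / l * (2 * v ^ (2 * b + 1) * f0 (b + 1) (n + 1) (v ^ 2) ^ 2 * (1 - v ^ 2))) := by
    refine intervalIntegral.integral_mono_on (by norm_num)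
      ((by fun_prop : Continuous fun v : ℝ => kb (b + 1) (n + 1) v ^ 2).intervalIntegrable _ _)
      ((by fun_prop : Continuous fun v : ℝ => 1 / 3 * (l * (2 * v * (kb (b + 1) (n + 1) v) ^ 2 * (1 - v ^ 2)) +
        1 / l * (2 * v ^ (2 * b + 1) * f0 (b + 1) (n + 1) (v ^ 2) ^ 2 * (1 - v ^ 2)))).intervalIntegrable _ _)
      fun v hv => ?_
    have hv0 : 0 ≤ v := hv.1
    have hv1 : v ≤ 1 / 2 := hv.2
    rw [kb_f0]
    set G : ℝ := f0 (b + 1) (n + 1) (v ^ 2) ^ 2 with hG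
    have hG0 : 0 ≤ G := sq_nonneg _
    have e1 : (v ^ (b + 1) * f0 (b + 1) (n + 1) (v ^ 2)) ^ 2 = v ^ (2 * b + 1) * G * v := by
      rw [hG]
      ring
    rw [e1]
    have hw : 0 ≤ v ^ (2 * b + 1) * G := by positivity
    have key : v ≤ 1 / 3 * (l * (2 * v * v * (1 - v ^ 2)) + 1 / l * (2 * (1 - v ^ 2))) := by
      have hx : 3 / 4 ≤ 1 - v ^ 2 := by nlinarith
      have hy : 4 * v ≤ l * (2 * v * v) + 1 / l * 2 := by
        have : 0 ≤ 2 / l * (l * v - 1) ^ 2 := by positivity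
        have e : 2 / l * (l * v - 1) ^ 2 = l * (2 * v * v) + 1 / l * 2 - 4 * v := by
          field_simp
          ring
        linarith
      have hy0 : 0 ≤ l * (2 * v * v) + 1 / l * 2 := by positivity
      have e : 1 / 3 * (l * (2 * v * v * (1 - v ^ 2)) + 1 / l * (2 * (1 - v ^ 2))) =
          1 / 3 * ((l * (2 * v * v) + 1 / l * 2) * (1 - v ^ 2)) := by ring
      rw [e]
      have := mul_le_mul_of_nonneg_left hx hy0
      nlinarith
    calc v ^ (2 * b + 1) * G * v ≤ v ^ (2 * b + 1) * G *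
          (1 / 3 * (l * (2 * v * v * (1 - v ^ 2)) + 1 / l * (2 * (1 - v ^ 2)))) :=
          mul_le_mul_of_nonneg_left key hw
      _ = _ := by ring
  refine h1.trans ?_
  have h2 : ∫ v in (0:ℝ)..(1/2), 1 / 3 * (l * (2 * v * (kb (b + 1) (n + 1) v) ^ 2 * (1 - v ^ 2)) +
        1 / l * (2 * v ^ (2 * b + 1) * f0 (b + 1) (n + 1) (v ^ 2) ^ 2 * (1 - v ^ 2))) ≤
      ∫ v in (0:ℝ)..1, 1 / 3 * (l * (2 * v * (kb (b + 1) (n + 1) v) ^ 2 * (1 - v ^ 2)) +
        1 / l * (2 * v ^ (2 * b + 1) * f0 (b + 1) (n + 1) (v ^ 2) ^ 2 * (1 - v ^ 2))) := by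
    refine sub_int (by fun_prop) (fun v hv h1 => ?_) le_rfl (by norm_num) (by norm_num)
    have hx : 0 ≤ 1 - v ^ 2 := by
      have := pow_le_one₀ hv h1 (n := 2)
      linarith
    positivity
  refine h2.trans (le_of_eq ?_)
  have i1 : IntervalIntegrable (fun v : ℝ => l * (2 * v * (kb (b + 1) (n + 1) v) ^ 2 * (1 - v ^ 2))) volume 0 1 :=
    (c1.intervalIntegrable _ _).const_mul l
  have i2 : IntervalIntegrable (fun v : ℝ => 1 / l * (2 * v ^ (2 * b + 1) * f0 (b + 1) (n + 1) (v ^ 2) ^ 2 *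
      (1 - v ^ 2))) volume 0 1 := (c2.intervalIntegrable _ _).const_mul (1 / l)
  rw [intervalIntegral.integral_const_mul, intervalIntegral.integral_add i1 i2,
    intervalIntegral.integral_const_mul, intervalIntegral.integral_const_mul, hE, hJ]
  push_cast
  ring

end Pool.Agent.Run7.h695.BT
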