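import Pool.Agent.Run7.h695.BT.WinW1

/-!
# The square function of a window with the measure `dv` (helper695)
-/

set_option autoImplicit false

open Finset MeasureTheory

namespace Pool.Agent.Run7.h695.BT

/-- bound for the half integral of one type -/
noncomputable def hh (n : ℕ) (j : ℤ) : ℝ := if j = 0 then (n : ℝ) ^ 2 / 2 else 8 / 3 * (n * √n) / √(j.natAbs : ℝ)

lemma hh_nonneg (n : ℕ) (j : ℤ) : 0 ≤ hh n j := by
  unfold hh
  split_ifs <;> positivity

lemma half_le {n : ℕ} (hn : 1 ≤ n) {j : ℤ} (hj : j ≤ n) (hj2 : -(6 * n : ℤ) < j) :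
    ∫ v in (0:ℝ)..(1/2), kb (An n j) (Mn n j) v ^ 2 ≤ hh n j := by
  have hn' : (1:ℝ) ≤ n := by exact_mod_cast hn
  have hA : An n j = j.natAbs := by unfold An; rw [if_pos hj]
  have hM : Mn n j = (n - max j 0).toNat := by unfold Mn; rw [if_pos hj]
  by_cases h0 : j = 0
  · have hA0 : An n j = 0 := by rw [hA, h0]; rfl
    have hM0 : Mn n j = n := by rw [hM, h0]; omega
    unfold hh
    rw [if_pos h0, hA0, hM0]
    obtain ⟨k, rfl⟩ : ∃ k, n = k + 1 := ⟨n - 1, by omega⟩
    have hkb := kb_cont 0 (k + 1)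
    have h1 : ∫ v in (0:ℝ)..(1/2), kb 0 (k + 1) v ^ 2 ≤ ∫ v in (0:ℝ)..(1/2), ((k : ℝ) + 1) ^ 2 := by
      refine intervalIntegral.integral_mono_on (by norm_num)
        ((by fun_prop : Continuous fun v : ℝ => kb 0 (k + 1) v ^ 2).intervalIntegrable _ _)
        intervalIntegrable_const fun v hv => ?_
      have hs := sonin0 k (u := v ^ 2) (sq_nonneg v) (by nlinarith [hv.1, hv.2])
      rw [kb_f0, pow_zero, one_mul, ← sq_abs]
      exact pow_le_pow_left₀ (abs_nonneg _) hs 2
    refine h1.trans (le_of_eq ?_)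
    rw [intervalIntegral.integral_const]
    push_cast
    simp only [smul_eq_mul]
    ring
  · have ha : 1 ≤ An n j := by rw [hA]; omega
    have ha' : (1:ℝ) ≤ (j.natAbs : ℝ) := by exact_mod_cast (by omega : 1 ≤ j.natAbs)
    unfold hh
    rw [if_neg h0]
    rcases Nat.eq_zero_or_pos (Mn n j) with hm | hm
    · have hz : ∀ v : ℝ, kb (An n j) (Mn n j) v ^ 2 = 0 := by
        intro v
        rw [hm, kb_zero]
        norm_num
      simp only [hz, intervalIntegral.integral_zero]
      positivity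
    · set s : ℝ := √(j.natAbs : ℝ) with hs
      set t : ℝ := √(n : ℝ) with ht
      have hs0 : 0 < s := Real.sqrt_pos.2 (by linarith)
      have ht0 : 0 < t := Real.sqrt_pos.2 (by linarith)
      have hs2 : s ^ 2 = (j.natAbs : ℝ) := Real.sq_sqrt (by linarith)
      have ht2 : t ^ 2 = (n : ℝ) := Real.sq_sqrt (by linarith)
      have h1 := half ha hm (l := t / s) (by positivity)
      refine h1.trans ?_
      have e2 : (Mn n j : ℝ) * (Mn n j + An n j) ≤ 7 * n * n := by
        have h3 : (Mn n j : ℝ) ≤ n := Mn_le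
        have h4 : (Mn n j : ℝ) + An n j ≤ 7 * n := by
          have : Mn n j + An n j ≤ 7 * n := by rw [hM, hA]; omega
          exact_mod_cast this
        calc (Mn n j : ℝ) * (Mn n j + An n j) ≤ n * (7 * n) := mul_le_mul h3 h4 (by positivity) (by positivity)
          _ = _ := by ring
      have e3 : (Mn n j : ℝ) * (Mn n j + An n j) / (2 * Mn n j + An n j) ≤ n := by
        have h5 : (0:ℝ) < 2 * Mn n j + An n j := by positivity
        rw [div_le_iff₀ h5]
        have h3 : (Mn n j : ℝ) ≤ n := Mn_le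
        have h6 : (0:ℝ) ≤ Mn n j := by positivity
        have h7 : (0:ℝ) ≤ An n j := by positivity
        nlinarith
      have e4 : (An n j : ℝ) = s ^ 2 := by rw [hs2, hA]
      have e5 : (Mn n j : ℝ) * (Mn n j + An n j) / An n j ≤ 7 * t ^ 4 / s ^ 2 := by
        rw [← e4]
        refine div_le_div_of_nonneg_right ?_ (by positivity)
        have : t ^ 4 = (t ^ 2) ^ 2 := by ring
        rw [this, ht2]
        linarith
      have e6 : t / s * ((Mn n j : ℝ) * (Mn n j + An n j) / (2 * Mn n j + An n j)) ≤ t / s * t ^ 2 := by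
        rw [ht2]
        exact mul_le_mul_of_nonneg_left e3 (by positivity)
      have e7 : 1 / (t / s) * ((Mn n j : ℝ) * (Mn n j + An n j) / An n j) ≤ 1 / (t / s) * (7 * t ^ 4 / s ^ 2) :=
        mul_le_mul_of_nonneg_left e5 (by positivity)
      have e8 : 1 / 3 * (t / s * t ^ 2 + 1 / (t / s) * (7 * t ^ 4 / s ^ 2)) = 8 / 3 * (n * t) / s := by
        rw [← ht2]
        field_simp
        ring
      rw [← e8]
      linarith

lemma sum_hh {n : ℕ} (hn : 1 ≤ n) {S : Finset ℤ} (hS : ∀ j ∈ S, -(6 * n : ℤ) < j ∧ j ≤ n) :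
    ∑ j ∈ S, hh n j ≤ 27 * (n : ℝ) ^ 2 := by
  have hn' : (1:ℝ) ≤ n := by exact_mod_cast hn
  set P : Finset ℤ := (range (6 * n)).image fun i : ℕ => ((i : ℤ) + 1) with hP
  set Q : Finset ℤ := (range (6 * n)).image fun i : ℕ => -((i : ℤ) + 1) with hQ
  have h1 : S ⊆ ({0} : Finset ℤ) ∪ (P ∪ Q) := by
    intro j hj
    have := hS j hj
    rw [Finset.mem_union, Finset.mem_union, Finset.mem_singleton, hP, hQ, Finset.mem_image, Finset.mem_image]
    rcases lt_trichotomy j 0 with h | h | h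
    · exact Or.inr (Or.inr ⟨(-j - 1).toNat, by rw [mem_range]; omega, by omega⟩)
    · exact Or.inl h
    · exact Or.inr (Or.inl ⟨(j - 1).toNat, by rw [mem_range]; omega, by omega⟩)
  have h2 : ∑ j ∈ S, hh n j ≤ ∑ j ∈ ({0} : Finset ℤ) ∪ (P ∪ Q), hh n j :=
    Finset.sum_le_sum_of_subset_of_nonneg h1 fun j _ _ => hh_nonneg n j
  have h3 : ∑ j ∈ ({0} : Finset ℤ) ∪ (P ∪ Q), hh n j ≤ hh n 0 + (∑ j ∈ P, hh n j + ∑ j ∈ Q, hh n j) := by
    have a1 := Finset.sum_union_inter (s₁ := ({0} : Finset ℤ)) (s₂ := P ∪ Q) (f := hh n)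
    have a2 := Finset.sum_union_inter (s₁ := P) (s₂ := Q) (f := hh n)
    have a3 : 0 ≤ ∑ j ∈ ({0} : Finset ℤ) ∩ (P ∪ Q), hh n j := Finset.sum_nonneg fun j _ => hh_nonneg n j
    have a4 : 0 ≤ ∑ j ∈ P ∩ Q, hh n j := Finset.sum_nonneg fun j _ => hh_nonneg n j
    rw [Finset.sum_singleton] at a1
    linarith
  have hR : ∀ g : ℕ → ℤ, (∀ i, (g i).natAbs = i + 1) → Function.Injective g →
      ∑ j ∈ (range (6 * n)).image g, hh n j ≤ 13.1 * (n : ℝ) ^ 2 := by
    intro g hg hinj
    rw [Finset.sum_image (fun a _ b _ h => hinj h)]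
    have e1 : ∀ i ∈ range (6 * n), hh n (g i) = 8 / 3 * (n * √n) * (1 / √((i : ℝ) + 1)) := by
      intro i _
      unfold hh
      have h0 : g i ≠ 0 := by
        intro h
        have := hg i
        rw [h] at this
        simp at this
      rw [if_neg h0, hg]
      push_cast
      ring
    rw [Finset.sum_congr rfl e1, ← Finset.mul_sum]
    have h4 := sum_isq (6 * n)
    have h5 : √((6 * n : ℕ) : ℝ) ≤ 2.45 * √n := by
      push_cast
      rw [Real.sqrt_le_left (by positivity), mul_pow, Real.sq_sqrt (by linarith)]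
      nlinarith
    have ht2 : √(n : ℝ) ^ 2 = n := Real.sq_sqrt (by linarith)
    have hc : 0 ≤ 8 / 3 * ((n : ℝ) * √n) := by positivity
    calc 8 / 3 * ((n : ℝ) * √n) * ∑ i ∈ range (6 * n), 1 / √((i : ℝ) + 1) ≤
          8 / 3 * ((n : ℝ) * √n) * (2 * (2.45 * √n)) := mul_le_mul_of_nonneg_left (by linarith) hc
      _ = 196 / 15 * (n * √n ^ 2) := by ring
      _ ≤ _ := by
          rw [ht2]
          nlinarith
  have hPs := hR (fun i : ℕ => ((i : ℤ) + 1)) (fun i => by omega) (fun a b h => by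
    simp only at h
    omega)
  have hQs := hR (fun i : ℕ => -((i : ℤ) + 1)) (fun i => by omega) (fun a b h => by
    simp only at h
    omega)
  have h0 : hh n 0 = (n : ℝ) ^ 2 / 2 := by
    unfold hh
    rw [if_pos rfl]
  have hn2 : 0 ≤ (n : ℝ) ^ 2 := by positivity
  linarith

/-- **The square function of the window.** -/
theorem GB'_window {n : ℕ} (hn : 1 ≤ n) {S : Finset ℤ} (hS : ∀ j ∈ S, -(6 * n : ℤ) < j ∧ j ≤ n) :
    1 + GB' S (An n) (Mn n) ≤ 22 * n := by
  have hn' : (1:ℝ) ≤ n := by exact_mod_cast hn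
  have hg := gS_cont S (An n) (Mn n)
  have hkb := fun j => kb_cont (An n j) (Mn n j)
  have c1 : Continuous fun v : ℝ => 2 * gS S (An n) (Mn n) v := by fun_prop
  have c2 : Continuous fun v : ℝ => 2 * v * gS S (An n) (Mn n) v := by fun_prop
  have hsp : GB' S (An n) (Mn n) = (∫ v in (0:ℝ)..(1/2), 2 * gS S (An n) (Mn n) v) +
      ∫ v in (1/2:ℝ)..1, 2 * gS S (An n) (Mn n) v := by
    unfold GB'
    rw [intervalIntegral.integral_add_adjacent_intervals (c1.intervalIntegrable _ _) (c1.intervalIntegrable _ _)]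
  -- the part away from `0`
  have hB : GB S (An n) (Mn n) ≤ 6.7 * n - 0.33 := by
    have h2 := GB_frac (S := S) (An n) (Mn n) (fun j hj => by
      have := (hS j hj).2
      unfold An Mn
      rw [if_pos this, if_pos this]
      omega)
    have h3 : ∑ j ∈ S, cj (An n j) (Mn n j) = ∑ j ∈ S, cc n j :=
      Finset.sum_congr rfl fun j hj => cj_eq (hS j hj).2
    rw [h3] at h2
    have h4 := window_le hn hS
    linarith [Real.sqrt_nonneg (∑ j ∈ S, cc n j)]
  have hA : ∫ v in (1/2:ℝ)..1, 2 * gS S (An n) (Mn n) v ≤ 2 * GB S (An n) (Mn n) := by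
    have h1 : ∫ v in (1/2:ℝ)..1, 2 * gS S (An n) (Mn n) v ≤
        ∫ v in (1/2:ℝ)..1, 2 * (2 * v * gS S (An n) (Mn n) v) := by
      refine intervalIntegral.integral_mono_on (by norm_num) (c1.intervalIntegrable _ _)
        ((continuous_const.mul c2).intervalIntegrable _ _) fun v hv => ?_
      have h0 := gS_nonneg S (An n) (Mn n) v
      nlinarith [mul_nonneg (show (0:ℝ) ≤ v - 1 / 2 by linarith [hv.1]) h0]
    have e1 : ∫ v in (1/2:ℝ)..1, 2 * (2 * v * gS S (An n) (Mn n) v) =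
        2 * ∫ v in (1/2:ℝ)..1, 2 * v * gS S (An n) (Mn n) v := intervalIntegral.integral_const_mul _ _
    rw [e1] at h1
    have h2 : ∫ v in (1/2:ℝ)..1, 2 * v * gS S (An n) (Mn n) v ≤ GB S (An n) (Mn n) :=
      sub_int c2 (fun v hv _ => mul_nonneg (by linarith) (gS_nonneg _ _ _ v)) (by norm_num) (by norm_num) le_rfl
    linarith
  -- the part near `0`
  have hC : ∫ v in (0:ℝ)..(1/2), 2 * gS S (An n) (Mn n) v ≤ 7.35 * n := by
    have h1 : ∫ v in (0:ℝ)..(1/2), gS S (An n) (Mn n) v ^ 2 ≤ 27 * (n : ℝ) ^ 2 := by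
      have e : ∀ v : ℝ, gS S (An n) (Mn n) v ^ 2 = ∑ j ∈ S, kb (An n j) (Mn n j) v ^ 2 := by
        intro v
        unfold gS
        rw [Real.sq_sqrt (Finset.sum_nonneg fun _ _ => sq_nonneg _)]
      simp only [e]
      have hi : ∀ j ∈ S, IntervalIntegrable (fun v : ℝ => kb (An n j) (Mn n j) v ^ 2) volume 0 (1 / 2) :=
        fun j _ => ((hkb j).pow 2).intervalIntegrable _ _
      rw [intervalIntegral.integral_finsetSum hi]
      exact (Finset.sum_le_sum fun j hj => half_le hn (hS j hj).2 (hS j hj).1).trans (sum_hh hn hS)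
    -- `2 g ≤ g ^ 2 / (7.35 n) + 7.35 n`
    set c : ℝ := 7.35 * n with hc
    have hc0 : 0 < c := by positivity
    have h2 : ∫ v in (0:ℝ)..(1/2), 2 * gS S (An n) (Mn n) v ≤
        ∫ v in (0:ℝ)..(1/2), (1 / c * gS S (An n) (Mn n) v ^ 2 + c) := by
      refine intervalIntegral.integral_mono_on (by norm_num) (c1.intervalIntegrable _ _)
        ((by fun_prop : Continuous fun v : ℝ => 1 / c * gS S (An n) (Mn n) v ^ 2 + c).intervalIntegrable _ _)
        fun v hv => ?_
      have h3 : 0 ≤ 1 / c * (gS S (An n) (Mn n) v - c) ^ 2 := by positivity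
      have h4 : 1 / c * (gS S (An n) (Mn n) v - c) ^ 2 =
          1 / c * gS S (An n) (Mn n) v ^ 2 + c - 2 * gS S (An n) (Mn n) v := by
        field_simp
        ring
      linarith
    have i1 : IntervalIntegrable (fun v : ℝ => 1 / c * gS S (An n) (Mn n) v ^ 2) volume 0 (1 / 2) :=
      ((hg.pow 2).intervalIntegrable _ _).const_mul _
    have e2 : ∫ v in (0:ℝ)..(1/2), (1 / c * gS S (An n) (Mn n) v ^ 2 + c) =
        1 / c * (∫ v in (0:ℝ)..(1/2), gS S (An n) (Mn n) v ^ 2) + c / 2 := by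
      rw [intervalIntegral.integral_add i1 intervalIntegrable_const, intervalIntegral.integral_const_mul,
        intervalIntegral.integral_const, smul_eq_mul]
      ring
    rw [e2] at h2
    have h5 : 1 / c * (∫ v in (0:ℝ)..(1/2), gS S (An n) (Mn n) v ^ 2) ≤ 1 / c * (27 * (n : ℝ) ^ 2) :=
      mul_le_mul_of_nonneg_left h1 (by positivity)
    have h6 : 1 / c * (27 * (n : ℝ) ^ 2) ≤ c / 2 := by
      rw [one_div, inv_mul_eq_div, div_le_iff₀ hc0, hc]
      nlinarith
    linarith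
  rw [hsp]
  linarith

end Pool.Agent.Run7.h695.BT
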