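import Pool.Agent.Run7.h695.BT.WinW3

/-!
# A window of angular types in weighted `L ^ p`, all nonzero powers (helper695)
-/

set_option autoImplicit false

open Finset MeasureTheory Filter Topology
open scoped SchwartzMap ComplexConjugate ENNReal

namespace Pool.Agent.Run7.h695.BT

open Pool.Agent.N892.BW (TS)
open Pool.Agent.N892.BW.RTT (TS_cont TS_sum)

/-- **A window of types, weighted, all nonzero powers.** -/
theorem windowZ {n : ℤ} (hn : n ≠ 0) {S : Finset ℤ} (hS : ∀ j ∈ S, -(6 * (n * n)) < j * n ∧ j * n ≤ n * n)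
    {g : ℤ → 𝓢(ℂ, ℂ)} (hg : ∀ j ∈ S, Ty j (g j)) {p : ℝ} (hp : 1 < p) {w : ℂ → ℝ} (hw : Measurable w)
    (hr : ∀ b z : ℂ, ‖b‖ = 1 → w (b * z) = w z)
    (h2 : ∀ v : ℝ, 0 < v → v ≤ 1 → ∀ z : ℂ, v ^ (p - 2) * w z ≤ w ((v : ℂ) * z)) :
    ∫⁻ z, ‖TZ n (∑ j ∈ S, g j) z‖ₑ ^ p * ENNReal.ofReal (w z) ≤
      ENNReal.ofReal ((22 * |(n : ℝ)|) ^ p) *
        ∫⁻ z, ‖(∑ j ∈ S, g j : 𝓢(ℂ, ℂ)) z‖ₑ ^ p * ENNReal.ofReal (w z) := by
  rcases lt_or_gt_of_ne hn with h | h
  · obtain ⟨k, rfl⟩ : ∃ k : ℕ, n = -(k : ℤ) := ⟨n.natAbs, by omega⟩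
    have hk : 1 ≤ k := by omega
    have hk' : (0:ℤ) < k := by exact_mod_cast hk
    have hwc : Measurable fun z => w (conj z) := hw.comp Complex.continuous_conj.measurable
    set S' : Finset ℤ := S.image fun j => -j with hS'
    set g' : ℤ → 𝓢(ℂ, ℂ) := fun j => refl (g (-j)) with hg'
    have hsum : ∑ j ∈ S', g' j = refl (∑ j ∈ S, g j) := by
      rw [hS', Finset.sum_image (fun a _ b _ h => by simpa using h)]
      ext z
      rw [refl_apply, _root_.sum_apply, _root_.sum_apply]
      refine Finset.sum_congr rfl fun j _ => ?_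
      rw [hg']
      simp only [neg_neg]
      rw [refl_apply]
    have key := window_w (n := k) hk (S := S') (fun j hj => by
        rw [hS', Finset.mem_image] at hj
        obtain ⟨i, hi, rfl⟩ := hj
        obtain ⟨h3, h4⟩ := hS i hi
        constructor
        · nlinarith
        · nlinarith) (g := g') (fun j hj => by
        rw [hS', Finset.mem_image] at hj
        obtain ⟨i, hi, rfl⟩ := hj
        have := refl_Ty (hg i hi)
        rw [hg']
        simp only [neg_neg]
        exact this) hp hwc (fun b z hb => by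
        rw [map_mul]
        exact hr _ _ (by rw [RCLike.norm_conj]; exact hb))
      (fun v hv hv1 z => by
        have := h2 v hv hv1 (conj z)
        rwa [map_mul, Complex.conj_ofReal])
    rw [hsum] at key
    set f : 𝓢(ℂ, ℂ) := ∑ j ∈ S, g j with hf
    have a1 : ∫⁻ z, ‖TZ (-(k : ℤ)) f z‖ₑ ^ p * ENNReal.ofReal (w z) =
        ∫⁻ z, ‖TS k (refl f) z‖ₑ ^ p * ENNReal.ofReal (w (conj z)) := by
      have hm : Measurable fun z => ‖TS k (refl f) z‖ₑ ^ p * ENNReal.ofReal (w (conj z)) :=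
        ((TS_cont k (refl f)).enorm.measurable.pow_const p).mul hwc.ennreal_ofReal
      rw [← lconj hm]
      refine lintegral_congr fun z => ?_
      rw [TZ_neg, Complex.conj_conj]
    have a2 : ∫⁻ z, ‖refl f z‖ₑ ^ p * ENNReal.ofReal (w (conj z)) =
        ∫⁻ z, ‖f z‖ₑ ^ p * ENNReal.ofReal (w z) := by
      have hm : Measurable fun z => ‖f z‖ₑ ^ p * ENNReal.ofReal (w z) :=
        (f.continuous.enorm.measurable.pow_const p).mul hw.ennreal_ofReal
      rw [← lconj hm]
      refine lintegral_congr fun z => ?_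
      rw [refl_apply]
    have a3 : |((-(k : ℤ) : ℤ) : ℝ)| = k := by
      push_cast
      rw [abs_neg, Nat.abs_cast]
    rw [a1, a3]
    rw [a2] at key
    exact key
  · obtain ⟨k, rfl⟩ : ∃ k : ℕ, n = (k : ℤ) := ⟨n.natAbs, by omega⟩
    have hk : 1 ≤ k := by omega
    have hk' : (0:ℤ) < k := by exact_mod_cast hk
    have key := window_w (n := k) hk (S := S) (fun j hj => by
        obtain ⟨h3, h4⟩ := hS j hj
        constructor
        · nlinarith
        · nlinarith) hg hp hw hr h2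
    have a3 : |((k : ℤ) : ℝ)| = k := by
      push_cast
      rw [Nat.abs_cast]
    rw [a3]
    simp only [TZ_pos]
    exact key

end Pool.Agent.Run7.h695.BT
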