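import Pool.Agent.Run7.h695.BT.WinW4

/-!
# Two windows of angular types in weighted `L ^ p` (helper695)
-/

set_option autoImplicit false

open Finset MeasureTheory Filter Topology
open scoped SchwartzMap ComplexConjugate ENNReal

namespace Pool.Agent.Run7.h695.BT

open Pool.Agent.N892.BW (TS)
open Pool.Agent.N892.BW.RTT (TS_cont TS_sum)

lemma mink3 {ν : Measure ℂ} {F G1 G2 H : ℂ → ℝ≥0∞} (mF : AEMeasurable F ν) (m1 : AEMeasurable G1 ν)
    (m2 : AEMeasurable G2 ν) {p : ℝ} (hp : 1 < p) {N1 N2 : ℝ} (hN1 : 0 ≤ N1) (hN2 : 0 ≤ N2)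
    (hH : ∀ z, H z ≤ F z + (G1 z + G2 z))
    (h1 : ∫⁻ z, G1 z ^ p ∂ν ≤ ENNReal.ofReal N1 ^ p * ∫⁻ z, F z ^ p ∂ν)
    (h2 : ∫⁻ z, G2 z ^ p ∂ν ≤ ENNReal.ofReal N2 ^ p * ∫⁻ z, F z ^ p ∂ν) :
    ∫⁻ z, H z ^ p ∂ν ≤ ENNReal.ofReal (1 + (N1 + N2)) ^ p * ∫⁻ z, F z ^ p ∂ν := by
  have hp0 : 0 < p := by linarith
  have root : ∀ (K : ℝ) (X : ℝ≥0∞), (ENNReal.ofReal K ^ p * X) ^ (1 / p) = ENNReal.ofReal K * X ^ (1 / p) := by
    intro K X
    rw [ENNReal.mul_rpow_of_nonneg _ _ (by positivity), ← ENNReal.rpow_mul, mul_one_div_cancel hp0.ne',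
      ENNReal.rpow_one]
  have a1 := ENNReal.lintegral_Lp_add_le (μ := ν) (f := F) (g := fun z => G1 z + G2 z) (p := p) mF
    (m1.add m2) (by linarith)
  have a2 := ENNReal.lintegral_Lp_add_le (μ := ν) (f := G1) (g := G2) (p := p) m1 m2 (by linarith)
  have h4 : (∫⁻ z, H z ^ p ∂ν) ^ (1 / p) ≤ ENNReal.ofReal (1 + (N1 + N2)) * (∫⁻ z, F z ^ p ∂ν) ^ (1 / p) := by
    calc (∫⁻ z, H z ^ p ∂ν) ^ (1 / p) ≤ _ :=
          ENNReal.rpow_le_rpow (lintegral_mono fun z => ENNReal.rpow_le_rpow (hH z) hp0.le) (by positivity)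
      _ ≤ _ := a1
      _ ≤ (∫⁻ z, F z ^ p ∂ν) ^ (1 / p) + ((∫⁻ z, G1 z ^ p ∂ν) ^ (1 / p) + (∫⁻ z, G2 z ^ p ∂ν) ^ (1 / p)) := by
          gcongr
          exact a2
      _ ≤ (∫⁻ z, F z ^ p ∂ν) ^ (1 / p) + ((ENNReal.ofReal N1 ^ p * ∫⁻ z, F z ^ p ∂ν) ^ (1 / p) +
            (ENNReal.ofReal N2 ^ p * ∫⁻ z, F z ^ p ∂ν) ^ (1 / p)) := by
          gcongr
      _ = _ := by
          rw [root, root, ENNReal.ofReal_add zero_le_one (by positivity), ENNReal.ofReal_add hN1 hN2,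
            ENNReal.ofReal_one, add_mul, add_mul, one_mul]
  have h5 := ENNReal.rpow_le_rpow h4 hp0.le
  rwa [← ENNReal.rpow_mul, one_div_mul_cancel hp0.ne', ENNReal.rpow_one,
    ENNReal.mul_rpow_of_nonneg _ _ hp0.le, ← ENNReal.rpow_mul, one_div_mul_cancel hp0.ne',
    ENNReal.rpow_one] at h5

lemma scaleW4 {w : ℂ → ℝ} (hw : Measurable w) {p : ℝ}
    (h1 : ∀ v : ℝ, 0 < v → v ≤ 1 → ∀ z : ℂ, w ((v : ℂ) * z) ≤ v ^ (p - 2) * w z)
    {f : ℂ → ℂ} (hf : Continuous f) {v : ℝ} (hv : 0 < v) (hv1 : v ≤ 1) :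
    ∫⁻ z, ‖f ((v : ℂ)⁻¹ * z)‖ₑ ^ p ∂(nu w) ≤ ENNReal.ofReal (v ^ p) * ∫⁻ z, ‖f z‖ₑ ^ p ∂(nu w) := by
  have hfm : Measurable fun z => ‖f z‖ₑ ^ p := hf.enorm.measurable.pow_const p
  have hfv : Measurable fun z : ℂ => ‖f ((v : ℂ)⁻¹ * z)‖ₑ ^ p := hfm.comp (measurable_const_mul _)
  have hg : Measurable fun z : ℂ => ‖f ((v : ℂ)⁻¹ * z)‖ₑ ^ p * ENNReal.ofReal (w z) :=
    hfv.mul hw.ennreal_ofReal
  rw [wd hw hfv, wd hw hfm]
  have h3 := lscale hg hv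
  have hvc : (v : ℂ) ≠ 0 := Complex.ofReal_ne_zero.2 hv.ne'
  have h4 : ∀ z : ℂ, ‖f ((v : ℂ)⁻¹ * ((v : ℂ) * z))‖ₑ ^ p * ENNReal.ofReal (w ((v : ℂ) * z)) =
      ‖f z‖ₑ ^ p * ENNReal.ofReal (w ((v : ℂ) * z)) := by
    intro z
    rw [inv_mul_cancel_left₀ hvc]
  simp only [h4] at h3
  have h5 : ∫⁻ z : ℂ, ‖f ((v : ℂ)⁻¹ * z)‖ₑ ^ p * ENNReal.ofReal (w z) =
      ENNReal.ofReal (v ^ 2) * ∫⁻ z, ‖f z‖ₑ ^ p * ENNReal.ofReal (w ((v : ℂ) * z)) := by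
    rw [h3, ← mul_assoc, ← ENNReal.ofReal_mul (by positivity), mul_inv_cancel₀ (by positivity),
      ENNReal.ofReal_one, one_mul]
  have hwv : Measurable fun z : ℂ => w ((v : ℂ) * z) := hw.comp (measurable_const_mul _)
  have hmm : Measurable fun z : ℂ => ‖f z‖ₑ ^ p * ENNReal.ofReal (w ((v : ℂ) * z)) :=
    hfm.mul hwv.ennreal_ofReal
  have hmm2 : Measurable fun z : ℂ => ‖f z‖ₑ ^ p * ENNReal.ofReal (w z) := hfm.mul hw.ennreal_ofReal
  rw [h5, ← lintegral_const_mul _ hmm, ← lintegral_const_mul _ hmm2]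
  refine lintegral_mono fun z => ?_
  have hvp : v ^ 2 * v ^ (p - 2) = v ^ p := by
    rw [← Real.rpow_natCast v 2, ← Real.rpow_add hv]
    congr 1
    push_cast
    ring
  have h6 : ENNReal.ofReal (v ^ 2) * ENNReal.ofReal (w ((v : ℂ) * z)) ≤
      ENNReal.ofReal (v ^ p) * ENNReal.ofReal (w z) := by
    rw [← ENNReal.ofReal_mul (by positivity), ← ENNReal.ofReal_mul (by positivity), ← hvp, mul_assoc]
    exact ENNReal.ofReal_le_ofReal (mul_le_mul_of_nonneg_left (h1 v hv hv1 z) (by positivity))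
  calc ENNReal.ofReal (v ^ 2) * (‖f z‖ₑ ^ p * ENNReal.ofReal (w ((v : ℂ) * z))) =
        ‖f z‖ₑ ^ p * (ENNReal.ofReal (v ^ 2) * ENNReal.ofReal (w ((v : ℂ) * z))) := by ring
    _ ≤ ‖f z‖ₑ ^ p * (ENNReal.ofReal (v ^ p) * ENNReal.ofReal (w z)) := mul_le_mul_right h6 _
    _ = _ := by ring

/-- the kernel of the exterior window -/
lemma w5_le (S : Finset ℤ) {A : ℤ → ℕ} (M : ℤ → ℕ) (hA : ∀ j ∈ S, 1 ≤ A j) :
    ∫⁻ y, ENNReal.ofReal (‖kH S A M y‖ * y.1) ∂(mu1.prod mu1) ≤ ENNReal.ofReal (GB' S A M) := by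
  have hm : Measurable fun y : ℝ × ℝ => ENNReal.ofReal (‖kH S A M y‖ * y.1) :=
    ((kH_cont S A M).norm.measurable.mul measurable_fst).ennreal_ofReal
  rw [lintegral_prod _ hm.aemeasurable]
  have hg := gS_cont S A M
  have h1 : GB' S A M = ∫ v in Set.Ioc (0:ℝ) 1, 2 * gS S A M v := by
    unfold GB'
    rw [← intervalIntegral.integral_of_le zero_le_one]
  rw [h1, ofReal_integral_eq_lintegral_ofReal]
  · refine setLIntegral_mono' measurableSet_Ioc fun v hv => ?_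
    have hv0 : 0 < v := hv.1
    set c : ℤ → ℝ := fun j => kb (A j) (M j) v with hc
    have h5 : ∀ x : ℝ, ENNReal.ofReal (‖kH S A M (v, x)‖ * v) =
        ENNReal.ofReal 2 * ENNReal.ofReal ‖Fc S c x‖ := by
      intro x
      rw [← ENNReal.ofReal_mul (by positivity)]
      congr 1
      have e : kH S A M (v, x) * (v : ℂ) = 2 * Fc S c x := by
        unfold kH Fc
        rw [Finset.sum_mul, Finset.mul_sum]
        refine Finset.sum_congr rfl fun j hj => ?_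
        obtain ⟨b, hb⟩ : ∃ b, A j = b + 1 := ⟨A j - 1, by have := hA j hj; omega⟩
        have e2 : kh (A j) (M j) v * v = 2 * kb (A j) (M j) v := by
          rw [kb_f0, kh, hb, Nat.add_sub_cancel]
          ring
        have e3 : ((kh (A j) (M j) v : ℝ) : ℂ) * (v : ℂ) = 2 * ((kb (A j) (M j) v : ℝ) : ℂ) := by
          exact_mod_cast congrArg (fun x : ℝ => (x : ℂ)) e2
        calc ((kh (A j) (M j) v : ℝ) : ℂ) * ex (-(j * x)) * (v : ℂ) =
              (((kh (A j) (M j) v : ℝ) : ℂ) * (v : ℂ)) * ex (-(j * x)) := by ring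
          _ = _ := by
              rw [e3]
              ring
      have e4 : ‖kH S A M (v, x)‖ * v = ‖kH S A M (v, x) * (v : ℂ)‖ := by
        rw [norm_mul, Complex.norm_real, Real.norm_of_nonneg hv0.le]
      rw [e4, e, norm_mul]
      norm_num
    have hF := (Fc_cont S c).norm
    calc ∫⁻ x, ENNReal.ofReal (‖kH S A M (v, x)‖ * ((v, x) : ℝ × ℝ).1) ∂mu1
        = ∫⁻ x, ENNReal.ofReal 2 * ENNReal.ofReal ‖Fc S c x‖ ∂mu1 := lintegral_congr h5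
      _ = ENNReal.ofReal 2 * ∫⁻ x, ENNReal.ofReal ‖Fc S c x‖ ∂mu1 :=
          lintegral_const_mul _ hF.measurable.ennreal_ofReal
      _ ≤ ENNReal.ofReal 2 * ENNReal.ofReal (gS S A M v) := by
          gcongr
          rw [← ofReal_integral_eq_lintegral_ofReal hF.integrableOn_Ioc
            (Eventually.of_forall fun x => norm_nonneg _), ← intervalIntegral.integral_of_le zero_le_one]
          exact ENNReal.ofReal_le_ofReal (l1l2 S c)
      _ = ENNReal.ofReal (2 * gS S A M v) := by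
          rw [← ENNReal.ofReal_mul (by positivity)]
  · refine Continuous.integrableOn_Ioc ?_
    fun_prop
  · exact (ae_restrict_iff' measurableSet_Ioc).2 (Eventually.of_forall fun v hv =>
      mul_nonneg zero_le_two (gS_nonneg S A M v))

lemma prod_ae {P : ℝ × ℝ → Prop} (hP : ∀ y : ℝ × ℝ, 0 < y.1 → y.1 ≤ 1 → P y) : ∀ᵐ y ∂(mu1.prod mu1), P y := by
  rw [Measure.prod_restrict]
  exact (ae_restrict_iff' (measurableSet_Ioc.prod measurableSet_Ioc)).2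
    (Eventually.of_forall fun y hy => hP y hy.1.1 hy.1.2)

lemma lowAvg (S : Finset ℤ) (A M : ℤ → ℕ) {f : ℂ → ℂ} (hfc : Continuous f)
    {w : ℂ → ℝ} (hw : Measurable w) (hr : ∀ b z : ℂ, ‖b‖ = 1 → w (b * z) = w z) {p : ℝ} (hp : 1 < p)
    (h2 : S.Nonempty → ∀ v : ℝ, 0 < v → v ≤ 1 → ∀ z : ℂ, v ^ (p - 2) * w z ≤ w ((v : ℂ) * z)) :
    ∫⁻ z, ‖∫ y, kS S A M y * f (((y.1 : ℂ) * ex y.2) * z) ∂(mu1.prod mu1)‖ₑ ^ p ∂(nu w) ≤
      ENNReal.ofReal (GB' S A M) ^ p * ∫⁻ z, ‖f z‖ₑ ^ p ∂(nu w) := by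
  have hp0 : 0 < p := by linarith
  have hexc := ex_cont
  rcases S.eq_empty_or_nonempty with h | h
  · subst h
    have e : ∀ y, kS ∅ A M y = 0 := fun y => by
      unfold kS
      rw [Finset.sum_empty]
    simp only [e, zero_mul, integral_zero, enorm_zero, ENNReal.zero_rpow_of_pos hp0, lintegral_zero]
    exact bot_le
  · have h3 := gminkW (mu1.prod mu1) (nu w) (κ := kS S A M)
      (c := fun y : ℝ × ℝ => (y.1 : ℂ) * ex y.2) (b := fun y : ℝ × ℝ => (y.1)⁻¹)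
      (kS_cont S A M).measurable (by fun_prop : Continuous fun y : ℝ × ℝ => (y.1 : ℂ) * ex y.2).measurable
      measurable_fst.inv (prod_ae fun y hy _ => inv_pos.2 hy) hfc hp (prod_ae fun y hy hy1 => ?_)
    · refine h3.trans ?_
      gcongr
      exact w4_le S A M
    · have hm : Measurable fun z : ℂ => ‖f ((y.1 : ℂ) * z)‖ₑ ^ p :=
        (hfc.enorm.measurable.comp (measurable_const_mul _)).pow_const p
      have h4 := nu_rot hw hr hm (ex_norm y.2)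
      have e : ∀ z : ℂ, ‖f ((y.1 : ℂ) * ex y.2 * z)‖ₑ ^ p = ‖f ((y.1 : ℂ) * (ex y.2 * z))‖ₑ ^ p := fun z => by
        rw [mul_assoc]
      simp only [e]
      rw [h4]
      exact scaleW3 hw (h2 h) hfc hy hy1

lemma highAvg (S : Finset ℤ) {A : ℤ → ℕ} (M : ℤ → ℕ) (hA : ∀ j ∈ S, 1 ≤ A j) {f : ℂ → ℂ} (hfc : Continuous f)
    {w : ℂ → ℝ} (hw : Measurable w) (hr : ∀ b z : ℂ, ‖b‖ = 1 → w (b * z) = w z) {p : ℝ} (hp : 1 < p)
    (h2 : S.Nonempty → ∀ v : ℝ, 0 < v → v ≤ 1 → ∀ z : ℂ, w ((v : ℂ) * z) ≤ v ^ (p - 2) * w z) :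
    ∫⁻ z, ‖∫ y, kH S A M y * f (((y.1 : ℂ)⁻¹ * ex y.2) * z) ∂(mu1.prod mu1)‖ₑ ^ p ∂(nu w) ≤
      ENNReal.ofReal (GB' S A M) ^ p * ∫⁻ z, ‖f z‖ₑ ^ p ∂(nu w) := by
  have hp0 : 0 < p := by linarith
  have hexc := ex_cont
  rcases S.eq_empty_or_nonempty with h | h
  · subst h
    have e : ∀ y, kH ∅ A M y = 0 := fun y => by
      unfold kH
      rw [Finset.sum_empty]
    simp only [e, zero_mul, integral_zero, enorm_zero, ENNReal.zero_rpow_of_pos hp0, lintegral_zero]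
    exact bot_le
  · have h3 := gminkW (mu1.prod mu1) (nu w) (κ := kH S A M)
      (c := fun y : ℝ × ℝ => (y.1 : ℂ)⁻¹ * ex y.2) (b := fun y : ℝ × ℝ => y.1)
      (kH_cont S A M).measurable ((Complex.measurable_ofReal.comp measurable_fst).inv.mul
        (hexc.measurable.comp measurable_snd))
      measurable_fst (prod_ae fun y hy _ => hy) hfc hp (prod_ae fun y hy hy1 => ?_)
    · refine h3.trans ?_
      gcongr
      exact w5_le S M hA
    · have hm : Measurable fun z : ℂ => ‖f ((y.1 : ℂ)⁻¹ * z)‖ₑ ^ p :=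
        (hfc.enorm.measurable.comp (measurable_const_mul _)).pow_const p
      have h4 := nu_rot hw hr hm (ex_norm y.2)
      have e : ∀ z : ℂ, ‖f ((y.1 : ℂ)⁻¹ * ex y.2 * z)‖ₑ ^ p = ‖f ((y.1 : ℂ)⁻¹ * (ex y.2 * z))‖ₑ ^ p :=
        fun z => by rw [mul_assoc]
      simp only [e]
      rw [h4]
      exact scaleW4 hw (h2 h) hfc hy hy1

end Pool.Agent.Run7.h695.BT
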