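import Pool.Agent.Run7.h695.BT.WinW5

/-!
# Two windows of angular types in weighted `L ^ p`: the theorem (helper695)
-/

set_option autoImplicit false

open Finset MeasureTheory Filter Topology
open scoped SchwartzMap ComplexConjugate ENNReal

namespace Pool.Agent.Run7.h695.BT

open Pool.Agent.N892.BW (TS)
open Pool.Agent.N892.BW.RTT (TS_cont TS_sum)

/-- the square function of the exterior window -/
theorem GB'_ext {n : ℕ} (hn : 1 ≤ n) {S : Finset ℤ} (hS : ∀ j ∈ S, (n : ℤ) < j ∧ j < 8 * n) :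
    1 + GB' S (An n) (Mn n) ≤ 22 * n := by
  set S' : Finset ℤ := S.image fun j => 2 * (n : ℤ) - j with hS'
  have h := GB'_window (n := n) hn (S := S') (fun j hj => by
    rw [hS', Finset.mem_image] at hj
    obtain ⟨i, hi, rfl⟩ := hj
    have := hS i hi
    constructor <;> omega)
  have e : GB' S (An n) (Mn n) = GB' S' (An n) (Mn n) := by
    unfold GB' gS
    refine intervalIntegral.integral_congr fun v _ => ?_
    rw [hS', Finset.sum_image (fun a _ b _ h => by simpa using h)]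
    congr 2
    refine Finset.sum_congr rfl fun j hj => ?_
    have := hS j hj
    have e1 : An n j = An n (2 * n - j) := by
      unfold An
      rw [if_neg (by omega), if_pos (by omega)]
    have e2 : Mn n j = Mn n (2 * n - j) := by
      unfold Mn
      rw [if_neg (by omega), if_pos (by omega)]
    rw [e1, e2]
  rw [e]
  exact h

/-- **Two windows of types, weighted.** -/
theorem window2 {n : ℕ} (hn : 1 ≤ n) {S : Finset ℤ} (hS : ∀ j ∈ S, -(6 * n : ℤ) < j ∧ j < 8 * n ∧ j ≠ 2 * n)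
    {g : ℤ → 𝓢(ℂ, ℂ)} (hg : ∀ j ∈ S, Ty j (g j)) {p : ℝ} (hp : 1 < p) {w : ℂ → ℝ} (hw : Measurable w)
    (hr : ∀ b z : ℂ, ‖b‖ = 1 → w (b * z) = w z)
    (h1 : (∃ j ∈ S, (n : ℤ) < j) → ∀ v : ℝ, 0 < v → v ≤ 1 → ∀ z : ℂ, w ((v : ℂ) * z) ≤ v ^ (p - 2) * w z)
    (h2 : (∃ j ∈ S, j ≤ (n : ℤ)) → ∀ v : ℝ, 0 < v → v ≤ 1 → ∀ z : ℂ, v ^ (p - 2) * w z ≤ w ((v : ℂ) * z)) :
    ∫⁻ z, ‖TS n (∑ j ∈ S, g j) z‖ₑ ^ p * ENNReal.ofReal (w z) ≤
      ENNReal.ofReal ((44 * n) ^ p) * ∫⁻ z, ‖(∑ j ∈ S, g j : 𝓢(ℂ, ℂ)) z‖ₑ ^ p * ENNReal.ofReal (w z) := by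
  have hn' : (1:ℝ) ≤ n := by exact_mod_cast hn
  have hp0 : 0 < p := by linarith
  have hexc := ex_cont
  set f : 𝓢(ℂ, ℂ) := ∑ j ∈ S, g j with hf
  have hfe : (fun z => f z) = fun z => ∑ j ∈ S, g j z := by
    funext z
    exact _root_.sum_apply _ _ _
  set S1 : Finset ℤ := S.filter fun j => j ≤ (n : ℤ) with hS1
  set S2 : Finset ℤ := S.filter fun j => (n : ℤ) < j with hS2
  have hu : S1 ∪ S2 = S := by
    ext j
    simp only [hS1, hS2, Finset.mem_union, Finset.mem_filter]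
    constructor
    · rintro (h | h)
      · exact h.1
      · exact h.1
    · intro h
      rcases le_or_gt j n with h3 | h3
      · exact Or.inl ⟨h, h3⟩
      · exact Or.inr ⟨h, h3⟩
  have hd : Disjoint S1 S2 := by
    rw [Finset.disjoint_left]
    intro j hj hj2
    have a1 := (Finset.mem_filter.1 hj).2
    have a2 := (Finset.mem_filter.1 hj2).2
    omega
  have hA2 : ∀ j ∈ S2, 1 ≤ An n j := by
    intro j hj
    have a2 := (Finset.mem_filter.1 hj).2
    have a3 := (hS j (Finset.mem_filter.1 hj).1).2.2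
    unfold An
    rw [if_neg (by omega)]
    omega
  set g1 : ℂ → ℂ := fun z => ∫ y, kS S1 (An n) (Mn n) y * f (((y.1 : ℂ) * ex y.2) * z) ∂(mu1.prod mu1) with hg1
  set g2 : ℂ → ℂ := fun z => ∫ y, kH S2 (An n) (Mn n) y * f (((y.1 : ℂ)⁻¹ * ex y.2) * z) ∂(mu1.prod mu1)
    with hg2
  have hVV : ∀ z, VV S S2 (An n) (Mn n) f z = f z - g1 z - g2 z := by
    intro z
    have h3 := VV_eq hd (An n) (Mn n) (sch_dec2 f) z
    rw [hu, sumPr S f.continuous] at h3
    rw [h3]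
    congr 2
    have e1 : ∀ j ∈ S, Pr j (fun z => f z) z = g j z := by
      intro j hj
      rw [hfe]
      exact congrFun (Pr_sum hg hj) z
    rw [Finset.sum_congr rfl e1]
    exact (congrFun hfe z).symm
  have hg1c : Continuous g1 := by
    have e : g1 = fun z => (∑ j ∈ S1, Pr j f z) - UU S1 (An n) (Mn n) f z := by
      funext z
      rw [UU_eq S1 (An n) (Mn n) f.continuous z, sumPr S1 f.continuous]
      ring
    rw [e]
    exact (continuous_finsetSum _ fun j _ => Pr_cont f.continuous).sub (UU_dec S1 (An n) (Mn n) (sch_dec2 f)).1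
  have hg2c : Continuous g2 := by
    have e : g2 = fun z => f z - g1 z - VV S S2 (An n) (Mn n) f z := by
      funext z
      rw [hVV]
      ring
    rw [e]
    exact (f.continuous.sub hg1c).sub (VV_dec S S2 (An n) (Mn n) (sch_dec2 f)).1
  have b1 := lowAvg S1 (An n) (Mn n) f.continuous hw hr hp (fun hne => by
    obtain ⟨j, hj⟩ := hne
    exact h2 ⟨j, (Finset.mem_filter.1 hj).1, (Finset.mem_filter.1 hj).2⟩)
  have b2 := highAvg S2 (Mn n) hA2 f.continuous hw hr hp (fun hne => by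
    obtain ⟨j, hj⟩ := hne
    exact h1 ⟨j, (Finset.mem_filter.1 hj).1, (Finset.mem_filter.1 hj).2⟩)
  have c1 : 1 + GB' S1 (An n) (Mn n) ≤ 22 * n := GB'_window hn (fun j hj =>
    ⟨(hS j (Finset.mem_filter.1 hj).1).1, (Finset.mem_filter.1 hj).2⟩)
  have c2 : 1 + GB' S2 (An n) (Mn n) ≤ 22 * n := GB'_ext hn (fun j hj =>
    ⟨(Finset.mem_filter.1 hj).2, (hS j (Finset.mem_filter.1 hj).1).2.1⟩)
  have h3 := mink3 (ν := nu w) (F := fun z => ‖f z‖ₑ) (G1 := fun z => ‖g1 z‖ₑ) (G2 := fun z => ‖g2 z‖ₑ)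
    (H := fun z => ‖VV S S2 (An n) (Mn n) f z‖ₑ) f.continuous.enorm.measurable.aemeasurable
    hg1c.enorm.measurable.aemeasurable hg2c.enorm.measurable.aemeasurable hp
    (GB'_nonneg S1 (An n) (Mn n)) (GB'_nonneg S2 (An n) (Mn n)) (fun z => by
      rw [hVV, ← add_assoc]
      exact enorm_sub_le.trans (add_le_add enorm_sub_le le_rfl)) b1 b2
  have e3 : ∫⁻ z, ‖TS n f z‖ₑ ^ p ∂(nu w) = ∫⁻ z, ‖VV S S2 (An n) (Mn n) f z‖ₑ ^ p ∂(nu w) := by
    refine lintegral_congr_ae ?_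
    filter_upwards [nu_ne w] with z hz
    have hb : ‖conj z / z‖ = 1 := by
      rw [norm_div, RCLike.norm_conj]
      exact div_self (norm_ne_zero_iff.2 hz)
    have h4 := id_all (n := n) (S := S) (fun j hj hjn => by
      have := (hS j hj).2.2
      omega) hg hz
    rw [hf, h4, enorm_mul, ← ofReal_norm ((conj z / z) ^ n), norm_pow, hb, one_pow, ENNReal.ofReal_one, one_mul]
  have key : ∫⁻ z, ‖TS n f z‖ₑ ^ p ∂(nu w) ≤
      ENNReal.ofReal (44 * n) ^ p * ∫⁻ z, ‖f z‖ₑ ^ p ∂(nu w) := by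
    rw [e3]
    refine h3.trans ?_
    gcongr
    linarith
  have m1 : Measurable fun z => ‖TS n f z‖ₑ ^ p := (TS_cont n _).enorm.measurable.pow_const p
  have m2 : Measurable fun z => ‖f z‖ₑ ^ p := f.continuous.enorm.measurable.pow_const p
  rw [wd hw m1, wd hw m2, ENNReal.ofReal_rpow_of_pos (by positivity)] at key
  exact key

end Pool.Agent.Run7.h695.BT
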